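import Pool.Agent.Run7.h107.NUMX

/-!
Absolute expansion of random Cayley graphs of finite simple groups with `O(log log |G|)` letters
(helper107, MP_bc5a73_al).
-/

namespace Run7.h107
open RC14
open Finset

lemma conj_le_card (G : Type) [Group G] [Fintype G] :
    Nat.card (ConjClasses G) ≤ Fintype.card G := by
  rw [← Nat.card_eq_fintype_card]
  exact Nat.card_le_card_of_surjective ConjClasses.mk ConjClasses.mk_surjective

/-- absolute expansion, both cases -/
theorem ABSM {G : Type} [Group G] [Fintype G] {D : ℝ} (hQ : QRd G D)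
    (hD0 : Real.exp (2 ^ 200000) ≤ D) (hN : Real.log (Fintype.card G) ≤ D ^ 4)
    (hDN : Real.log D ≤ Real.log (Fintype.card G))
    (m : ℕ) (hm : 10 ^ 10 * (1 + Real.log (Nat.card (ConjClasses G)) / Real.log D) *
        Real.log (Real.log (Fintype.card G)) ≤ m) :
    (Nat.card {x : Fin m → G // ¬ VE G x (1 / 200000)} : ℝ) ≤
      1 / D * (Fintype.card G : ℝ) ^ m := by
  by_cases hC : Real.log (Nat.card (ConjClasses G)) / Real.log D ≤ Real.exp (Real.log D / 32)
  · exact NUMX1 hQ hD0 hN hDN hC m hm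
  · push Not at hC
    have hDpos : 0 < D := (Real.exp_pos _).trans_le hD0
    set ℓ : ℝ := Real.log D with hℓ
    have hℓbig : (2 : ℝ) ^ 200000 ≤ ℓ := by
      rw [hℓ, ← Real.log_exp (2 ^ 200000)]
      exact Real.log_le_log (Real.exp_pos _) hD0
    have hℓ100 : (2 : ℝ) ^ 100 ≤ ℓ :=
      (pow_le_pow_right₀ (by norm_num) (by norm_num : 100 ≤ 200000)).trans hℓbig
    have hℓ6 : (10 ^ 6 : ℝ) ≤ ℓ := le_trans (by norm_num) hℓ100
    clear hℓbig hℓ100 hD0
    have hDexp : D = Real.exp ℓ := (Real.exp_log hDpos).symm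
    set Λ : ℝ := Real.log (Fintype.card G) with hΛ
    set k : ℝ := ((Nat.card (ConjClasses G) : ℕ) : ℝ) with hk
    have hk1 : 1 ≤ k := by
      rw [hk]
      have : 0 < Nat.card (ConjClasses G) := Nat.card_pos
      exact_mod_cast this
    have hlogk : 0 ≤ Real.log k := Real.log_nonneg hk1
    set C0 : ℝ := Real.log k / ℓ with hC0
    have hC00 : 0 ≤ C0 := by positivity
    have hkΛ : Real.log k ≤ Λ := by
      refine Real.log_le_log (by linarith) ?_
      rw [hk]
      exact_mod_cast conj_le_card G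
    have hΛ1 : 10 ^ 6 ≤ Λ := by linarith
    have hΛ0 : 0 < Λ := by linarith
    -- `ℓ ≤ 32 log Λ`
    have h1 : Real.exp (ℓ / 32) ≤ Λ := by
      have h2 : C0 * ℓ = Real.log k := by rw [hC0]; field_simp
      nlinarith
    have h2 : ℓ ≤ 32 * Real.log Λ := by
      have h3 := Real.log_le_log (Real.exp_pos _) h1
      rw [Real.log_exp] at h3
      linarith
    have hlog1 : 1 ≤ Real.log Λ := by linarith
    have hnum := NUM hQ (by
      rw [hDexp]
      exact Real.exp_le_exp.2 (by linarith)) hN 128 (by norm_num) m (by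
      rw [← hℓ, ← hΛ, ← hk]
      refine le_trans ?_ hm
      have e1 : ℓ ^ (1 / ((128 : ℕ) : ℝ)) ≤ 32 * Real.log Λ := by
        refine le_trans ?_ h2
        calc ℓ ^ (1 / ((128 : ℕ) : ℝ)) ≤ ℓ ^ (1 : ℝ) :=
              Real.rpow_le_rpow_of_exponent_le (by linarith) (by norm_num)
          _ = ℓ := Real.rpow_one _
      have e2 : (Λ / ℓ) ^ (1 / ((128 : ℕ) : ℝ)) ≤ C0 := by
        have e3 : Λ / ℓ ≤ Real.exp (4 * ℓ) := by
          have e4 : Λ / ℓ ≤ Λ := div_le_self hΛ0.le (by linarith)
          have e5 : D ^ 4 = Real.exp (4 * ℓ) := by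
            rw [hDexp, ← Real.exp_nat_mul]
            norm_num
          rw [← e5]
          linarith
        calc (Λ / ℓ) ^ (1 / ((128 : ℕ) : ℝ)) ≤ (Real.exp (4 * ℓ)) ^ (1 / ((128 : ℕ) : ℝ)) :=
              Real.rpow_le_rpow (by positivity) e3 (by positivity)
          _ = Real.exp (ℓ / 32) := by
              rw [← Real.exp_mul]
              congr 1
              push_cast
              ring
          _ ≤ C0 := hC.le
      have e6 : (1 + C0) * ℓ ^ (1 / ((128 : ℕ) : ℝ)) ≤ (1 + C0) * (32 * Real.log Λ) :=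
        mul_le_mul_of_nonneg_left e1 (by linarith)
      have e7 : C0 ≤ (1 + C0) * Real.log Λ := by nlinarith
      have e8 : 0 ≤ (1 + C0) * Real.log Λ := by positivity
      have e9 : ((128 : ℕ) : ℝ) = 128 := by norm_num
      rw [e9] at e1 e2 e6 ⊢
      linarith)
    refine le_trans (Nat.cast_le.mpr (card_mono _ _ fun x hx hcon => hx (VE_mono hcon ?_))) hnum
    norm_num

/-- absolute expansion for all finite simple groups -/
theorem absolute_main {δ : ℝ} (hδ : 0 < δ) : ∃ N : ℕ,
      ∀ (G : Type) [Group G] [Finite G] [IsSimpleGroup G],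
        (∃ a b : G, a * b ≠ b * a) → N ≤ Nat.card G → ∀ m : ℕ,
        10 ^ 10 * (1 + Real.log (Nat.card (ConjClasses G)) / Real.log (minDim G)) *
          Real.log (Real.log (Nat.card G)) ≤ m →
        (1 - δ) * (Nat.card G : ℝ) ^ m ≤
          (Nat.card {x : Fin m → G // VE G x (1 / 200000)} : ℝ) := by
  obtain ⟨B, hB1, hB2, hB18⟩ : ∃ B : ℝ, Real.exp (2 ^ 200000) ≤ B ∧ 1 / δ ≤ B ∧ 18 ≤ B :=
    ⟨max (max (Real.exp (2 ^ 200000)) (1 / δ)) 18, (le_max_left _ _).trans (le_max_left _ _),
      (le_max_right _ _).trans (le_max_left _ _), le_max_right _ _⟩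
  have hBpos : 0 < B := by linarith
  refine ⟨⌈Real.exp (18 * B ^ 3)⌉₊, ?_⟩
  intro G _ _ _ hna hcard m hm
  classical
  letI : Fintype G := Fintype.ofFinite G
  have hGpos : (0 : ℝ) < Fintype.card G := cG_pos
  have h1 : Real.exp (18 * B ^ 3) ≤ Fintype.card G := by
    rw [Nat.card_eq_fintype_card] at hcard
    exact (Nat.le_ceil _).trans (by exact_mod_cast hcard)
  have h2 : 18 * B ^ 3 ≤ Real.log (Fintype.card G) := by
    rw [← Real.log_exp (18 * B ^ 3)]
    exact Real.log_le_log (Real.exp_pos _) h1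
  have h3 := minDim_lower hna
  have hD0 : (0 : ℝ) ≤ minDim G := Nat.cast_nonneg _
  have h4 : B ≤ minDim G := by
    by_contra hc
    push Not at hc
    have h5 : (minDim G : ℝ) ^ 3 < B ^ 3 := pow_lt_pow_left₀ hc hD0 (by norm_num)
    linarith
  have hDpos : (0 : ℝ) < minDim G := hBpos.trans_le h4
  have h5 : Real.log (Fintype.card G) ≤ (minDim G : ℝ) ^ 4 := by
    have h6 : (18 : ℝ) ≤ minDim G := hB18.trans h4
    have h7 : 18 * (minDim G : ℝ) ^ 3 ≤ (minDim G : ℝ) * (minDim G : ℝ) ^ 3 :=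
      mul_le_mul_of_nonneg_right h6 (by positivity)
    have h8 : (minDim G : ℝ) * (minDim G : ℝ) ^ 3 = (minDim G : ℝ) ^ 4 := by ring
    linarith
  have h6 : 1 / (minDim G : ℝ) ≤ δ := by
    rw [div_le_iff₀ hDpos]
    rw [div_le_iff₀ hδ] at hB2
    nlinarith
  have h7 : Real.log (minDim G) ≤ Real.log (Fintype.card G) := by
    refine Real.log_le_log hDpos ?_
    have h8 : (minDim G : ℝ) ≤ Module.finrank ℂ (FG G) := by
      refine QRd_minDim (FG G) (Rg G) ?_
      obtain ⟨a, b, hab⟩ := hna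
      have ha : a ≠ 1 := by
        rintro rfl
        exact hab (by group)
      refine ⟨a, EuclideanSpace.single 1 1, fun hcon => ?_⟩
      have h9 := congrArg (fun f : FG G => f 1) hcon
      simp only [Rg_apply, one_mul] at h9
      rw [EuclideanSpace.single_apply, EuclideanSpace.single_apply, if_neg ha, if_pos rfl] at h9
      exact zero_ne_one h9
    rwa [show Module.finrank ℂ (FG G) = Fintype.card G from finrank_euclideanSpace] at h8
  rw [Nat.card_eq_fintype_card]
  rw [Nat.card_eq_fintype_card (α := G)] at hm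
  have h8 := ABSM QRd_minDim (hB1.trans h4) h5 h7 m hm
  have h9 := card_compl (fun x : Fin m → G => VE G x (1 / 200000))
  rw [h9, Fintype.card_fun, Fintype.card_fin]
  push_cast
  have h10 : 0 ≤ (Fintype.card G : ℝ) ^ m := by positivity
  have h11 := mul_le_mul_of_nonneg_right h6 h10
  linarith

end Run7.h107
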