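import Pool.Agent.Run7.h107.EXPD

/-!
The levels of the second range, started at an arbitrary state (helper107, MP_75608d_al).
-/

namespace Run7.h107
open RC14
open scoped InnerProductSpace ComplexConjugate
open Finset

section
variable {G : Type} [Group G]
variable {V : Type} [NormedAddCommGroup V] [InnerProductSpace ℂ V] [FiniteDimensional ℂ V]
variable {C : Type}

/-- the state after `n` positions: fresh positions average the conjugates -/
noncomputable def SB (ρ : G →* (V ≃ₗᵢ[ℂ] V)) (A0 : Module.End ℂ V) {q : ℕ} (x : C → Fin q → G) :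
    (n : ℕ) → (Fin n → C) → (Fin n → Bool) → (Fin n → Bool) → (Fin n → Fin q) →
      Module.End ℂ V
  | 0, _, _, _, _ => A0
  | n + 1, c, J, σ, i =>
    if J (Fin.last n) = true then
      PC ρ (fun i' => (sg (σ (Fin.last n)) (x (c (Fin.last n)) i'))⁻¹)
        (SB ρ A0 x n (fun k => c k.castSucc) (fun k => J k.castSucc) (fun k => σ k.castSucc)
          (fun k => i k.castSucc))
    else cj ρ (SB ρ A0 x n (fun k => c k.castSucc) (fun k => J k.castSucc)
          (fun k => σ k.castSucc) (fun k => i k.castSucc))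
        (sg (σ (Fin.last n)) (x (c (Fin.last n)) (i (Fin.last n))))⁻¹

/-- the state depends only on the classes which occur -/
lemma SB_congr (ρ : G →* (V ≃ₗᵢ[ℂ] V)) (A0 : Module.End ℂ V) {q : ℕ} (x x' : C → Fin q → G) :
    ∀ (n : ℕ) (c : Fin n → C) (J σ : Fin n → Bool) (i : Fin n → Fin q),
      (∀ k, x (c k) = x' (c k)) → SB ρ A0 x n c J σ i = SB ρ A0 x' n c J σ i
  | 0, _, _, _, _, _ => rfl
  | n + 1, c, J, σ, i, h => by
    rw [SB, SB, SB_congr ρ A0 x x' n (fun k => c k.castSucc) _ _ _ fun k => h k.castSucc,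
      h (Fin.last n)]

/-- the state dominates the product -/
lemma SB_dom (ρ : G →* (V ≃ₗᵢ[ℂ] V)) {A0 : Module.End ℂ V} (hA0 : Bd A0 1) {q : ℕ}
    [Nonempty (Fin q)] (x : C → Fin q → G) :
    ∀ (n : ℕ) (c : Fin n → C) (J σ : Fin n → Bool) (i : Fin n → Fin q),
      Bd (SB ρ A0 x n c J σ i) 1 ∧
      ∀ v, (⟪A0 (Wn ρ x n c J σ i v), Wn ρ x n c J σ i v⟫_ℂ).re ≤
        (⟪SB ρ A0 x n c J σ i v, v⟫_ℂ).re
  | 0, _, _, _, _ => by
    refine ⟨hA0, fun v => ?_⟩
    unfold Wn
    rw [PR, SB, Module.End.one_apply]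
  | n + 1, c, J, σ, i => by
    obtain ⟨h1, h2⟩ := SB_dom ρ hA0 x n (fun k => c k.castSucc) (fun k => J k.castSucc)
      (fun k => σ k.castSucc) (fun k => i k.castSucc)
    constructor
    · rw [SB]
      split_ifs with hJ
      · exact h1.PC ρ _
      · exact h1.cj ρ _
    · intro v
      rw [Wn_succ, SB, Module.End.mul_apply]
      refine (h2 _).trans ?_
      unfold fop
      split_ifs with hJ
      · have h3 := stp_quad ρ 0 0 h1
          (fun i' => sg (σ (Fin.last n)) (x (c (Fin.last n)) i')) v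
        unfold stp at h3
        rw [if_neg (lt_irrefl 0)] at h3
        exact h3
      · rw [cj_quad, inv_inv, op_apply]

/-- the invariant at level `ℓ` -/
def QL (q : ℕ) (t0 θ : ℝ) (ℓ : ℕ) (A : Module.End ℂ V) : Prop :=
  Bd A 1 ∧ FL A ((q : ℝ) ^ ℓ * t0) ≤ Real.exp ((q : ℝ) ^ ℓ * t0 * (θ * (2 - (1 / 2) ^ ℓ)))

lemma QL_cj {q : ℕ} {t0 θ : ℝ} {ℓ : ℕ} {A : Module.End ℂ V} (h : QL q t0 θ ℓ A)
    (ρ : G →* (V ≃ₗᵢ[ℂ] V)) (g : G) : QL q t0 θ ℓ (cj ρ A g) := by
  obtain ⟨h1, h2⟩ := h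
  exact ⟨h1.cj ρ g, by rwa [FL_cj]⟩

/-- the quadratic form at the last level -/
lemma QL_last [Nontrivial V] {q : ℕ} (hq : 1 ≤ q) {t0 θ : ℝ} (ht0 : 0 < t0) (hθ : 0 < θ)
    {L ℓ : ℕ} (hL : L ≤ ℓ) {A : Module.End ℂ V} (h : QL q t0 θ ℓ A)
    (hd : Real.log (Module.finrank ℂ V) ≤ (q : ℝ) ^ L * t0 * θ) (v : V) :
    (⟪A v, v⟫_ℂ).re ≤ 3 * θ * ‖v‖ ^ 2 := by
  have hq' : (1 : ℝ) ≤ q := by exact_mod_cast hq
  have h1 := FL_norm (l := (q : ℝ) ^ ℓ * t0) (θ := θ * (2 - (1 / 2) ^ ℓ)) (ν := θ) h.1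
    (by positivity) h.2 (by
      refine hd.trans ?_
      have : (q : ℝ) ^ L ≤ (q : ℝ) ^ ℓ := pow_le_pow_right₀ hq' hL
      gcongr) v
  refine h1.trans (mul_le_mul_of_nonneg_right ?_ (by positivity))
  have h2 : (0 : ℝ) ≤ (1 / 2) ^ ℓ := by positivity
  nlinarith [mul_nonneg hθ.le h2]

variable [Fintype G]

/-- one fresh step -/
theorem QL_step (ρ : G →* (V ≃ₗᵢ[ℂ] V)) (hirr : Irr ρ ⊤) {q : ℕ} (hq : 2 ≤ q) {t0 θ : ℝ}
    (ht0 : 0 < t0) (hθ : 0 < θ) {ℓ : ℕ} {A : Module.End ℂ V} (h : QL q t0 θ ℓ A) :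
    (Nat.card {z : Fin q → G // ¬ QL q t0 θ (ℓ + 1) (PC ρ z A)} : ℝ) ≤
      Real.exp (-(t0 * θ)) * (Fintype.card G : ℝ) ^ q := by
  have hq' : (2 : ℝ) ≤ q := by exact_mod_cast hq
  have hq0 : (0 : ℝ) < q := by linarith
  have : Nonempty (Fin q) := ⟨⟨0, by omega⟩⟩
  set t : ℝ := (q : ℝ) ^ (ℓ + 1) * t0 with ht
  have htq : t / q = (q : ℝ) ^ ℓ * t0 := by
    rw [ht, pow_succ]
    field_simp
  have h1 := CSTEP ρ hirr A h.1.1 (t := t) (θ := θ * (2 - (1 / 2) ^ ℓ))
    (t * (θ * (1 / 2) ^ (ℓ + 1))) q (by omega) (by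
      rw [htq]
      exact h.2)
  refine le_trans (Nat.cast_le.mpr (card_mono _ _ fun z hz => ?_)) (h1.trans ?_)
  · by_contra hcon
    push Not at hcon
    apply hz
    refine ⟨h.1.PC ρ z, hcon.trans (le_of_eq ?_)⟩
    congr 1
    rw [← mul_add]
    congr 1
    rw [pow_succ]
    ring
  · refine mul_le_mul_of_nonneg_right (Real.exp_le_exp.2 ?_) (by positivity)
    rw [neg_le_neg_iff, ht]
    have h2 : (1 : ℝ) ≤ (q : ℝ) ^ (ℓ + 1) * (1 / 2) ^ (ℓ + 1) := by
      rw [← mul_pow]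
      exact one_le_pow₀ (by linarith)
    calc t0 * θ = 1 * (t0 * θ) := by ring
      _ ≤ ((q : ℝ) ^ (ℓ + 1) * (1 / 2) ^ (ℓ + 1)) * (t0 * θ) := by gcongr
      _ = _ := by ring

variable [Fintype C] [DecidableEq C]

/-- the count of bad families of letters for one configuration -/
theorem SB_count (ρ : G →* (V ≃ₗᵢ[ℂ] V)) (hirr : Irr ρ ⊤) {q : ℕ} (hq : 2 ≤ q) {t0 θ : ℝ}
    (ht0 : 0 < t0) (hθ : 0 < θ) {A0 : Module.End ℂ V} (h0 : QL q t0 θ 0 A0) :
    ∀ (n : ℕ) (c : Fin n → C) (J σ : Fin n → Bool) (i : Fin n → Fin q),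
      (∀ k, J k = true → ∀ j, j < k → c j ≠ c k) →
      (Nat.card {x : C → Fin q → G // ¬ QL q t0 θ (cnt J) (SB ρ A0 x n c J σ i)} : ℝ) ≤
      n * Real.exp (-(t0 * θ)) * Fintype.card (C → Fin q → G)
  | 0, c, J, σ, i, _ => by
    have h1 : Nat.card {x : C → Fin q → G // ¬ QL q t0 θ (cnt J) (SB ρ A0 x 0 c J σ i)} = 0 := by
      rw [Nat.card_eq_zero]
      left
      refine ⟨fun ⟨x, hx⟩ => hx ?_⟩
      have e1 : cnt J = 0 := by simp [cnt]
      rw [e1]
      exact h0
    rw [h1]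
    simp
  | n + 1, c, J, σ, i, hJ => by
    classical
    have ih := SB_count ρ hirr hq ht0 hθ h0 n (fun k => c k.castSucc) (fun k => J k.castSucc)
      (fun k => σ k.castSucc) (fun k => i k.castSucc) (fun k hk j hj =>
        hJ k.castSucc hk j.castSucc (by simpa using hj))
    set η : ℝ := Real.exp (-(t0 * θ)) with hη
    have hη0 : 0 ≤ η := by positivity
    set Xc : ℝ := (Fintype.card (C → Fin q → G) : ℝ) with hXc
    have hX0 : 0 ≤ Xc := Nat.cast_nonneg _
    set S0 : (C → Fin q → G) → Module.End ℂ V := fun x =>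
      SB ρ A0 x n (fun k => c k.castSucc) (fun k => J k.castSucc) (fun k => σ k.castSucc)
        (fun k => i k.castSucc) with hS0
    set ℓ : ℕ := cnt fun k => J k.castSucc with hℓ
    by_cases hl : J (Fin.last n) = true
    · have e1 : cnt J = ℓ + 1 := by rw [cnt_succ, if_pos hl]
      have e2 : ∀ x : C → Fin q → G, SB ρ A0 x (n + 1) c J σ i =
          PC ρ (fun i' => (sg (σ (Fin.last n)) (x (c (Fin.last n)) i'))⁻¹) (S0 x) := by
        intro x
        rw [SB, if_pos hl]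
      simp only [e1, e2]
      have hun := card_union (Z := C → Fin q → G) (ι := Bool)
        (fun x => ¬ QL q t0 θ (ℓ + 1)
          (PC ρ (fun i' => (sg (σ (Fin.last n)) (x (c (Fin.last n)) i'))⁻¹) (S0 x)))
        (fun b x => if b then ¬ QL q t0 θ ℓ (S0 x) else
          (QL q t0 θ ℓ (S0 x) ∧ ¬ QL q t0 θ (ℓ + 1)
          (PC ρ (fun i' => (sg (σ (Fin.last n)) (x (c (Fin.last n)) i'))⁻¹) (S0 x)))) (by
        intro x hx
        by_cases h : QL q t0 θ ℓ (S0 x)
        · exact ⟨false, by simp only [Bool.false_eq_true, if_false]; exact ⟨h, hx⟩⟩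
        · exact ⟨true, by simp only [if_true]; exact h⟩)
      rw [Fintype.sum_bool] at hun
      simp only [if_true, Bool.false_eq_true, if_false] at hun
      have hsec : (Nat.card {x : C → Fin q → G // QL q t0 θ ℓ (S0 x) ∧
          ¬ QL q t0 θ (ℓ + 1) (PC ρ
            (fun i' => (sg (σ (Fin.last n)) (x (c (Fin.last n)) i'))⁻¹) (S0 x))} : ℝ) ≤
              η * Xc := by
        refine fibre (Y := Fin q → G) (fun x => QL q t0 θ ℓ (S0 x) ∧
          ¬ QL q t0 θ (ℓ + 1) (PC ρ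
            (fun i' => (sg (σ (Fin.last n)) (x (c (Fin.last n)) i'))⁻¹) (S0 x)))
          (c (Fin.last n)) fun x => ?_
        have e3 : ∀ y, S0 (Function.update x (c (Fin.last n)) y) = S0 x := by
          intro y
          refine SB_congr ρ A0 _ _ n _ _ _ _ fun k => ?_
          rw [Function.update_of_ne]
          exact hJ (Fin.last n) hl k.castSucc (Fin.castSucc_lt_last k)
        simp only [e3, Function.update_self]
        by_cases h : QL q t0 θ ℓ (S0 x)
        · have h1 := QL_step ρ hirr hq ht0 hθ h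
          have h2 : Nat.card {y : Fin q → G // QL q t0 θ ℓ (S0 x) ∧
              ¬ QL q t0 θ (ℓ + 1) (PC ρ
                (fun i' => (sg (σ (Fin.last n)) (y i'))⁻¹) (S0 x))} =
              Nat.card {y : Fin q → G // ¬ QL q t0 θ (ℓ + 1) (PC ρ y (S0 x))} := by
            refine card_equiv (Equiv.piCongrRight fun _ =>
              if σ (Fin.last n) then Equiv.inv G else Equiv.refl G) _ _ fun y => ?_
            have e4 : (fun i' => (sg (σ (Fin.last n)) (y i'))⁻¹) =
                (Equiv.piCongrRight fun _ : Fin q =>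
                  if σ (Fin.last n) then Equiv.inv G else Equiv.refl G) y := by
              funext i'
              unfold sg
              cases σ (Fin.last n) <;> simp
            rw [← e4]
            exact ⟨fun h => h.2, fun h' => ⟨h, h'⟩⟩
          rw [h2, Fintype.card_fun, Fintype.card_fin]
          push_cast at h1 ⊢
          exact h1
        · have h2 : Nat.card {y : Fin q → G // QL q t0 θ ℓ (S0 x) ∧
              ¬ QL q t0 θ (ℓ + 1) (PC ρ
                (fun i' => (sg (σ (Fin.last n)) (y i'))⁻¹) (S0 x))} = 0 := by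
            rw [Nat.card_eq_zero]
            left
            exact ⟨fun y => h y.2.1⟩
          rw [h2]
          push_cast
          positivity
      have hun' : (Nat.card {x : C → Fin q → G // ¬ QL q t0 θ (ℓ + 1)
          (PC ρ (fun i' => (sg (σ (Fin.last n)) (x (c (Fin.last n)) i'))⁻¹) (S0 x))} : ℝ) ≤
          (Nat.card {x : C → Fin q → G // ¬ QL q t0 θ ℓ (S0 x)} : ℝ) +
          (Nat.card {x : C → Fin q → G // QL q t0 θ ℓ (S0 x) ∧
          ¬ QL q t0 θ (ℓ + 1) (PC ρ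
            (fun i' => (sg (σ (Fin.last n)) (x (c (Fin.last n)) i'))⁻¹) (S0 x))} : ℝ) := by
        exact_mod_cast hun
      refine hun'.trans ?_
      have e5 : ((n + 1 : ℕ) : ℝ) * η * Xc = n * η * Xc + η * Xc := by push_cast; ring
      rw [e5]
      exact add_le_add ih hsec
    · have e1 : cnt J = ℓ := by rw [cnt_succ, if_neg hl, add_zero]
      rw [e1]
      refine le_trans (Nat.cast_le.mpr (card_mono _ (fun x => ¬ QL q t0 θ ℓ (S0 x))
        fun x hx hcon => hx ?_)) (ih.trans ?_)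
      · rw [SB, if_neg hl]
        exact QL_cj hcon ρ _
      · push_cast
        nlinarith [mul_nonneg hη0 hX0]

end

end Run7.h107
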