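import Pool.Agent.Run7.h107.AGA

/-!
Powers of the walk operator after a projection (helper107, MP_75608d_al).
-/

namespace Run7.h107
open RC14
open scoped InnerProductSpace ComplexConjugate
open Finset

section
variable {G : Type} [Group G]
variable {V : Type} [NormedAddCommGroup V] [InnerProductSpace ℂ V] [FiniteDimensional ℂ V]
variable {C : Type} [Fintype C] [DecidableEq C]

omit [FiniteDimensional ℂ V] in
lemma symIdem_quad {E : Module.End ℂ V} (hE : SymIdem E) (w : V) :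
    (⟪E w, w⟫_ℂ).re = ‖E w‖ ^ 2 := by
  have h1 : E (E w) = E w := by
    have := congrArg (fun T : Module.End ℂ V => T w) hE.2
    simpa using this
  have h2 : ⟪E w, w⟫_ℂ = ⟪E w, E w⟫_ℂ := by
    rw [← hE.1 (E w) w, h1]
  rw [h2, inner_self_eq_norm_sq_to_K]
  norm_cast

omit [FiniteDimensional ℂ V] in
lemma symIdem_le {E : Module.End ℂ V} (hE : SymIdem E) (w : V) : ‖E w‖ ≤ ‖w‖ := by
  have h1 := symIdem_quad hE w
  have h2 : (⟪E w, w⟫_ℂ).re ≤ ‖E w‖ * ‖w‖ :=
    (Complex.re_le_norm _).trans (norm_inner_le_norm _ _)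
  rw [h1] at h2
  rcases eq_or_lt_of_le (norm_nonneg (E w)) with h3 | h3
  · rw [← h3]
    exact norm_nonneg w
  · nlinarith

omit [FiniteDimensional ℂ V] in
lemma symIdem_bd {E : Module.End ℂ V} (hE : SymIdem E) : Bd E 1 := by
  refine ⟨hE.1, fun v => ?_⟩
  rw [symIdem_quad hE, one_mul]
  exact ⟨by positivity, pow_le_pow_left₀ (norm_nonneg _) (symIdem_le hE v) 2⟩

variable [Fintype G]

open Classical in
/-- most families of letters: a small power of the walk operator after the projection `E` -/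
theorem EXP0 (ρ : G →* (V ≃ₗᵢ[ℂ] V)) (hirr : Irr ρ ⊤) {q : ℕ} (hq : 2 ≤ q) {t0 θ : ℝ}
    (ht0 : 0 < t0) (hθ : 0 < θ) {E : Module.End ℂ V} (hE : SymIdem E)
    (h0 : QL q t0 θ 0 E) {L : ℕ}
    (hd : Real.log (Module.finrank ℂ V) ≤ (q : ℝ) ^ L * t0 * θ)
    (n' : ℕ) (hn' : 1 ≤ n') (hL : 2 * L ≤ 4 * n')
    (hC : Fintype.card C = 4096 * (4 * n')) {t : ℝ} (ht : 0 < t) :
    (Nat.card {x : C → Fin q → G // ¬ ∀ v : V,
        ‖E ((Ssum ρ x ^ (4 * n')) v)‖ ≤ Fintype.card (Cf C q (4 * n')) *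
          ((1 / 4) ^ (4 * n') + t + Real.sqrt (3 * θ)) * ‖v‖} : ℝ) ≤
      ((4 * n' : ℕ) : ℝ) * Real.exp (-(t0 * θ)) / t * Fintype.card (C → Fin q → G) := by
  have hntV := TREE.nontriv ρ hirr
  have hq1 : 1 ≤ q := by omega
  have : Nonempty (Fin q) := ⟨⟨0, by omega⟩⟩
  set n : ℕ := 4 * n' with hn
  set B : ℝ := n * Real.exp (-(t0 * θ)) * Fintype.card (C → Fin q → G) with hB
  have hB0 : 0 ≤ B := by positivity
  set bad : (C → Fin q → G) → Cf C q n → Prop := fun x τ =>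
    Gd L τ ∧ ¬ ∀ v : V, ‖E (Wc ρ x n τ v)‖ ^ 2 ≤ 3 * θ * ‖v‖ ^ 2 with hbad
  have hCf : (0 : ℝ) < Fintype.card (Cf C q n) := by
    have : Nonempty C := by
      rw [← Fintype.card_pos_iff, hC]
      omega
    exact_mod_cast Fintype.card_pos
  have h1 : ∀ τ : Cf C q n, ∑ x : C → Fin q → G, (if bad x τ then (1 : ℝ) else 0) ≤ B := by
    intro τ
    rw [← cardsub]
    by_cases hτ : Gd L τ
    · have h2 := SB_count (C := C) ρ hirr hq ht0 hθ h0 n (fun k => (τ.1 k).1)
        (Jc fun k => (τ.1 k).1) (fun k => (τ.1 k).2) τ.2 (by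
          intro k hk j hj
          exact (Jc_iff _ _).mp hk j hj.ne)
      refine le_trans (Nat.cast_le.mpr (card_mono _ _ fun x hx => ?_)) h2
      intro hcon
      apply hx.2
      intro v
      have h3 := (SB_dom ρ (symIdem_bd hE) x n (fun k => (τ.1 k).1)
        (Jc fun k => (τ.1 k).1) (fun k => (τ.1 k).2) τ.2).2 v
      rw [symIdem_quad hE] at h3
      exact h3.trans (QL_last hq1 ht0 hθ hτ hcon hd v)
    · have h2 : Nat.card {x : C → Fin q → G // bad x τ} = 0 := by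
        rw [Nat.card_eq_zero]
        left
        exact ⟨fun x => hτ x.2.1⟩
      rw [h2]
      exact_mod_cast hB0
  have h2 : ∑ x : C → Fin q → G, ∑ τ : Cf C q n, (if bad x τ then (1 : ℝ) else 0) ≤
      Fintype.card (Cf C q n) * B := by
    rw [Finset.sum_comm]
    refine (Finset.sum_le_sum fun τ _ => h1 τ).trans (le_of_eq ?_)
    rw [Finset.sum_const, Finset.card_univ, nsmul_eq_mul]
  have h3 := markov (fun x : C → Fin q → G => ∑ τ : Cf C q n, (if bad x τ then (1 : ℝ) else 0))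
    (fun x => Finset.sum_nonneg fun τ _ => by split_ifs <;> norm_num)
    (T := t * Fintype.card (Cf C q n)) (by positivity) h2
  have h4 : Fintype.card (Cf C q n) * B / (t * Fintype.card (Cf C q n)) =
      (n : ℝ) * Real.exp (-(t0 * θ)) / t * Fintype.card (C → Fin q → G) := by
    rw [hB]
    field_simp
  rw [h4] at h3
  refine le_trans (Nat.cast_le.mpr (card_mono _ _ fun x hx => ?_)) h3
  by_contra hcon
  push Not at hcon
  apply hx
  intro v
  rw [Ssum_pow ρ hq1 x n, LinearMap.sum_apply, map_sum]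
  set δ : ℝ := Real.sqrt (3 * θ) with hδ
  have hδ0 : 0 ≤ δ := Real.sqrt_nonneg _
  have h5 : ∀ τ : Cf C q n, ‖E (Wc ρ x n τ v)‖ ≤ (if ¬ Gd L τ then (1 : ℝ) else 0) *
      ‖v‖ + (if bad x τ then (1 : ℝ) else 0) * ‖v‖ + δ * ‖v‖ := by
    intro τ
    have hW := (symIdem_le hE (Wc ρ x n τ v)).trans (Wc_norm ρ hq1 x n τ v)
    have hv0 : 0 ≤ ‖v‖ := norm_nonneg v
    have hδv : 0 ≤ δ * ‖v‖ := by positivity
    by_cases c1 : Gd L τ
    · by_cases c2 : bad x τ
      · rw [if_neg (not_not.mpr c1), if_pos c2]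
        linarith
      · rw [if_neg (not_not.mpr c1), if_neg c2, zero_mul, zero_add, zero_add]
        have c3 : ∀ v : V, ‖E (Wc ρ x n τ v)‖ ^ 2 ≤ 3 * θ * ‖v‖ ^ 2 := by
          by_contra hc
          exact c2 ⟨c1, hc⟩
        have c4 := c3 v
        have c5 : ‖E (Wc ρ x n τ v)‖ ^ 2 ≤ (δ * ‖v‖) ^ 2 := by
          rw [mul_pow, hδ, Real.sq_sqrt (by positivity)]
          exact c4
        exact abs_le_of_sq_le_sq' c5 hδv |>.2
    · rw [if_pos c1]
      have : 0 ≤ (if bad x τ then (1 : ℝ) else 0) * ‖v‖ := by split_ifs <;> simp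
      linarith
  refine (norm_sum_le _ _).trans ((Finset.sum_le_sum fun τ _ => h5 τ).trans ?_)
  rw [Finset.sum_add_distrib, Finset.sum_add_distrib, ← Finset.sum_mul, ← Finset.sum_mul,
    Finset.sum_const, Finset.card_univ, nsmul_eq_mul, ← cardsub]
  have h6 := Gd_count (C := C) (q := q) n' L hn' hL hC
  rw [← hn] at h6
  have h7 := mul_le_mul_of_nonneg_right h6 (norm_nonneg v)
  have h8 := mul_le_mul_of_nonneg_right hcon (norm_nonneg v)
  calc _ ≤ (1 / 4) ^ n * (Fintype.card (Cf C q n) : ℝ) * ‖v‖ +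
        t * Fintype.card (Cf C q n) * ‖v‖ + Fintype.card (Cf C q n) * (δ * ‖v‖) := by
        linarith
    _ = _ := by ring

end

end Run7.h107
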