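import Pool.Agent.Run7.h107.AGB

/-!
From powers to the gap, combination of two families of letters (helper107, MP_75608d_al).
-/

namespace Run7.h107
open RC14
open scoped InnerProductSpace ComplexConjugate
open Finset

section
variable {G : Type} [Group G]
variable {V : Type} [NormedAddCommGroup V] [InnerProductSpace ℂ V] [FiniteDimensional ℂ V]

/-- Jensen's inequality for the even powers of a symmetric operator -/
lemma JEN (A : Module.End ℂ V) (hA : A.IsSymmetric) {n : ℕ} (hn : Even n) (u : V)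
    (hu : ‖u‖ = 1) : (⟪A u, u⟫_ℂ).re ^ n ≤ (⟪(A ^ n) u, u⟫_ℂ).re := by
  obtain ⟨m, b, μ, h1, -⟩ := EXB.diag A hA
  have h2 : ∀ i, (A ^ n) (b i) = (((μ i) ^ n : ℝ) : ℂ) • b i := by
    intro i
    clear hn
    induction n with
    | zero => simp
    | succ n ih =>
      rw [pow_succ', Module.End.mul_apply, ih, map_smul, h1, smul_smul]
      congr 1
      push_cast
      ring
  rw [EXB.quad b A μ h1, EXB.quad b (A ^ n) _ h2]
  have h3 : ∑ i, ‖⟪b i, u⟫_ℂ‖ ^ 2 = 1 := by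
    rw [b.sum_sq_norm_inner_right u, hu]
    norm_num
  have h4 := Real.pow_arith_mean_le_arith_mean_pow_of_even (Finset.univ)
    (fun i => ‖⟪b i, u⟫_ℂ‖ ^ 2) (fun i => μ i) (fun i _ => by positivity) h3 hn
  refine le_trans (le_of_eq ?_) (h4.trans (le_of_eq ?_))
  · congr 1
    exact Finset.sum_congr rfl fun i _ => by ring
  · exact Finset.sum_congr rfl fun i _ => by ring

variable {C : Type} [Fintype C]

/-- the energy of a family of letters in classes -/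
noncomputable def EnC (ρ : G →* (V ≃ₗᵢ[ℂ] V)) {q : ℕ} (x : C → Fin q → G) (v : V) : ℝ :=
  ∑ c, ∑ i, ‖ρ (x c i) v - v‖ ^ 2

omit [FiniteDimensional ℂ V] in
lemma EnC_nonneg (ρ : G →* (V ≃ₗᵢ[ℂ] V)) {q : ℕ} (x : C → Fin q → G) (v : V) :
    0 ≤ EnC ρ x v := Finset.sum_nonneg fun _ _ => Finset.sum_nonneg fun _ _ => sq_nonneg _

omit [FiniteDimensional ℂ V] in
lemma EnC_le (ρ : G →* (V ≃ₗᵢ[ℂ] V)) {q : ℕ} (x : C → Fin q → G) (v : V) :
    EnC ρ x v ≤ 4 * ((Fintype.card C : ℝ) * q) * ‖v‖ ^ 2 := by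
  have h1 : ∀ g : G, ‖ρ g v - v‖ ^ 2 ≤ 4 * ‖v‖ ^ 2 := by
    intro g
    have h2 : ‖ρ g v - v‖ ≤ 2 * ‖v‖ := by
      have := norm_sub_le (ρ g v) v
      rw [(ρ g).norm_map] at this
      linarith
    have h3 := pow_le_pow_left₀ (norm_nonneg _) h2 2
    linarith
  unfold EnC
  calc _ ≤ ∑ _c : C, ∑ _i : Fin q, 4 * ‖v‖ ^ 2 :=
        Finset.sum_le_sum fun c _ => Finset.sum_le_sum fun i _ => h1 _
    _ = _ := by
        simp only [Finset.sum_const, Finset.card_univ, nsmul_eq_mul, Fintype.card_fin]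
        ring

omit [FiniteDimensional ℂ V] in
lemma EnC_add (ρ : G →* (V ≃ₗᵢ[ℂ] V)) {q : ℕ} (x : C → Fin q → G) (v w : V) :
    EnC ρ x (v + w) ≤ 2 * EnC ρ x v + 2 * EnC ρ x w := by
  unfold EnC
  rw [Finset.mul_sum, Finset.mul_sum, ← Finset.sum_add_distrib]
  refine Finset.sum_le_sum fun c _ => ?_
  rw [Finset.mul_sum, Finset.mul_sum, ← Finset.sum_add_distrib]
  refine Finset.sum_le_sum fun i _ => ?_
  have h1 : ρ (x c i) (v + w) - (v + w) = (ρ (x c i) v - v) + (ρ (x c i) w - w) := by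
    rw [map_add]
    abel
  rw [h1]
  have h2 := norm_add_le (ρ (x c i) v - v) (ρ (x c i) w - w)
  have h3 := pow_le_pow_left₀ (norm_nonneg _) h2 2
  nlinarith [sq_nonneg (‖ρ (x c i) v - v‖ - ‖ρ (x c i) w - w‖)]

omit [FiniteDimensional ℂ V] in
lemma op_sg_quad (ρ : G →* (V ≃ₗᵢ[ℂ] V)) (b : Bool) (g : G) (v : V) :
    (⟪op ρ (sg b g) v, v⟫_ℂ).re = (⟪ρ g v, v⟫_ℂ).re := by
  unfold sg
  rw [op_apply]
  split_ifs
  · rfl
  · exact re_op_inv ρ g v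

omit [FiniteDimensional ℂ V] in
/-- the energy form -/
lemma Ssum_quad (ρ : G →* (V ≃ₗᵢ[ℂ] V)) {q : ℕ} (x : C → Fin q → G) (v : V) :
    (⟪Ssum ρ x v, v⟫_ℂ).re = 2 * ((Fintype.card C : ℝ) * q) * ‖v‖ ^ 2 - EnC ρ x v := by
  unfold Ssum EnC
  rw [LinearMap.sum_apply, sum_inner, Complex.re_sum, Fintype.sum_prod_type]
  have h1 : ∀ c : C, ∑ b : Bool, (⟪(∑ i, op ρ (sg b (x c i))) v, v⟫_ℂ).re =
      2 * (q : ℝ) * ‖v‖ ^ 2 - ∑ i, ‖ρ (x c i) v - v‖ ^ 2 := by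
    intro c
    have h2 : ∀ b : Bool, (⟪(∑ i, op ρ (sg b (x c i))) v, v⟫_ℂ).re =
        ∑ i, (⟪ρ (x c i) v, v⟫_ℂ).re := by
      intro b
      rw [LinearMap.sum_apply, sum_inner, Complex.re_sum]
      exact Finset.sum_congr rfl fun i _ => op_sg_quad ρ b _ v
    rw [Fintype.sum_bool, h2, h2]
    have h3 : ∑ i, ‖ρ (x c i) v - v‖ ^ 2 = ∑ i : Fin q, (2 * ‖v‖ ^ 2 - 2 * (⟪ρ (x c i) v, v⟫_ℂ).re) :=
      Finset.sum_congr rfl fun i _ => norm_rho_sub ρ _ v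
    rw [h3, Finset.sum_sub_distrib, Finset.sum_const, Finset.card_univ, Fintype.card_fin,
      nsmul_eq_mul, ← Finset.mul_sum]
    ring
  rw [Finset.sum_congr rfl fun c _ => h1 c, Finset.sum_sub_distrib, Finset.sum_const,
    Finset.card_univ, nsmul_eq_mul]
  ring

omit [FiniteDimensional ℂ V] in
lemma op_inner (ρ : G →* (V ≃ₗᵢ[ℂ] V)) (g : G) (v w : V) :
    ⟪op ρ g v, w⟫_ℂ = ⟪v, op ρ g⁻¹ w⟫_ℂ := by
  rw [op_apply, op_apply]
  have h := (ρ g).inner_map_map v (ρ g⁻¹ w)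
  have h2 : ρ g (ρ g⁻¹ w) = w := by
    rw [map_inv]
    exact (ρ g).apply_symm_apply w
  rw [h2] at h
  exact h

omit [FiniteDimensional ℂ V] in
lemma Ssum_sym2 (ρ : G →* (V ≃ₗᵢ[ℂ] V)) {q : ℕ} (x : C → Fin q → G) :
    (Ssum ρ x).IsSymmetric := by
  intro v w
  unfold Ssum
  rw [LinearMap.sum_apply, LinearMap.sum_apply, sum_inner, inner_sum, Fintype.sum_prod_type,
    Fintype.sum_prod_type]
  refine Finset.sum_congr rfl fun c _ => ?_
  rw [Fintype.sum_bool, Fintype.sum_bool]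
  simp only [LinearMap.sum_apply, sum_inner, inner_sum]
  have h1 : ∑ i, ⟪op ρ (sg true (x c i)) v, w⟫_ℂ = ∑ i, ⟪v, op ρ (sg false (x c i)) w⟫_ℂ := by
    refine Finset.sum_congr rfl fun i _ => ?_
    rw [op_inner]
    rfl
  have h2 : ∑ i, ⟪op ρ (sg false (x c i)) v, w⟫_ℂ = ∑ i, ⟪v, op ρ (sg true (x c i)) w⟫_ℂ := by
    refine Finset.sum_congr rfl fun i _ => ?_
    rw [op_inner]
    unfold sg
    simp
  rw [h1, h2, add_comm]

lemma card_Cf (C : Type) [Fintype C] (q n : ℕ) :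
    (Fintype.card (Cf C q n) : ℝ) = (2 * ((Fintype.card C : ℝ) * q)) ^ n := by
  have h5 : Fintype.card (Cf C q n) = (2 * (Fintype.card C * q)) ^ n := by
    classical
    simp only [Fintype.card_prod, Fintype.card_fun, Fintype.card_fin, Fintype.card_bool]
    ring
  rw [h5]
  push_cast
  ring

/-- the quadratic form of the walk on the range of `E` -/
theorem RNG (ρ : G →* (V ≃ₗᵢ[ℂ] V)) {E : Module.End ℂ V} (hE : SymIdem E) {q : ℕ}
    (hq : 1 ≤ q) [Nonempty C] (x : C → Fin q → G) {n : ℕ} (hn : Even n) (hn1 : 1 ≤ n)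
    {κ r : ℝ} (hr : 0 ≤ r) (hκ : κ ≤ r ^ n)
    (h : ∀ v : V, ‖E ((Ssum ρ x ^ n) v)‖ ≤ Fintype.card (Cf C q n) * κ * ‖v‖) (v : V) :
    (1 - r) * (2 * ((Fintype.card C : ℝ) * q)) * ‖E v‖ ^ 2 ≤ EnC ρ x (E v) := by
  have hC : (0 : ℝ) < Fintype.card C := by exact_mod_cast Fintype.card_pos
  have hq0 : (0 : ℝ) < q := by exact_mod_cast hq
  set N : ℝ := 2 * ((Fintype.card C : ℝ) * q) with hN
  have hN0 : 0 < N := by positivity
  have hEE : E (E v) = E v := by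
    have := congrArg (fun T : Module.End ℂ V => T v) hE.2
    simpa using this
  rcases eq_or_ne (E v) 0 with h0 | h0
  · rw [h0, norm_zero]
    have := EnC_nonneg ρ x (0 : V)
    simpa using this
  have hu0 : 0 < ‖E v‖ := norm_pos_iff.mpr h0
  set u : V := ((‖E v‖⁻¹ : ℝ) : ℂ) • E v with hu
  have hEu : E u = u := by rw [hu, map_smul, hEE]
  have hun : ‖u‖ = 1 := by
    rw [hu, norm_smul, Complex.norm_real, norm_inv, norm_norm, inv_mul_cancel₀ hu0.ne']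
  have h1 := JEN (Ssum ρ x) (Ssum_sym2 ρ x) hn u hun
  have h2 : (⟪(Ssum ρ x ^ n) u, u⟫_ℂ).re ≤ N ^ n * r ^ n := by
    have h3 : ⟪(Ssum ρ x ^ n) u, u⟫_ℂ = ⟪E ((Ssum ρ x ^ n) u), u⟫_ℂ := by
      rw [hE.1, hEu]
    rw [h3]
    refine (Complex.re_le_norm _).trans ((norm_inner_le_norm _ _).trans ?_)
    rw [hun, mul_one]
    refine (h u).trans ?_
    rw [hun, mul_one, card_Cf]
    exact mul_le_mul_of_nonneg_left hκ (by positivity)
  have h3 : (⟪Ssum ρ x u, u⟫_ℂ).re ≤ N * r := by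
    have h4 := h1.trans h2
    rw [← mul_pow] at h4
    by_contra hcon
    push Not at hcon
    have h5 := pow_lt_pow_left₀ hcon (by positivity) (by omega : n ≠ 0)
    linarith
  have h4 : (⟪Ssum ρ x u, u⟫_ℂ).re * ‖E v‖ ^ 2 = (⟪Ssum ρ x (E v), E v⟫_ℂ).re := by
    rw [hu, map_smul, inner_smul_left, inner_smul_right, Complex.conj_ofReal, ← mul_assoc,
      ← Complex.ofReal_mul, Complex.re_ofReal_mul]
    field_simp
  have h5 := Ssum_quad ρ x (E v)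
  rw [← hN] at h5
  have h6 : (⟪Ssum ρ x (E v), E v⟫_ℂ).re ≤ N * r * ‖E v‖ ^ 2 := by
    rw [← h4]
    gcongr
  have h7 : EnC ρ x (E v) = N * ‖E v‖ ^ 2 - (⟪Ssum ρ x (E v), E v⟫_ℂ).re := by linarith
  rw [h7]
  nlinarith

/-- the gap of two families together -/
theorem COMB (ρ : G →* (V ≃ₗᵢ[ℂ] V)) {E : Module.End ℂ V} (hE : SymIdem E) {q : ℕ}
    (hq : 1 ≤ q) [Nonempty C] (x : C → Fin q → G) {n : ℕ} (hn : Even n) (hn1 : 1 ≤ n)
    {κ : ℝ} (hκ : κ ≤ (91 / 100) ^ n)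
    (h : ∀ v : V, ‖E ((Ssum ρ x ^ n) v)‖ ≤ Fintype.card (Cf C q n) * κ * ‖v‖)
    {ε : ℝ} (hε : 0 < ε) (hε1 : ε ≤ 1) (Y : V → ℝ) (hY : ∀ v, ε * ‖v - E v‖ ^ 2 ≤ Y v) (v : V) :
    ε / 50 * ‖v‖ ^ 2 ≤ Y v + EnC ρ x v / (2 * ((Fintype.card C : ℝ) * q)) := by
  have hC : (0 : ℝ) < Fintype.card C := by exact_mod_cast Fintype.card_pos
  have hq0 : (0 : ℝ) < q := by exact_mod_cast hq
  set N : ℝ := 2 * ((Fintype.card C : ℝ) * q) with hN
  have hN0 : 0 < N := by positivity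
  have h1 := RNG ρ hE hq x hn hn1 (by norm_num : (0 : ℝ) ≤ 91 / 100) hκ h v
  rw [← hN] at h1
  have h2 := EnC_add ρ x v (E v - v)
  have h3 := EnC_le ρ x (E v - v)
  have e1 : v + (E v - v) = E v := by abel
  rw [e1] at h2
  have e2 : 4 * ((Fintype.card C : ℝ) * q) = 2 * N := by rw [hN]; ring
  rw [e2] at h3
  have h4 : ‖v‖ ^ 2 = ‖E v‖ ^ 2 + ‖v - E v‖ ^ 2 := by
    have h5 := norm_sub_sq (𝕜 := ℂ) v (E v)
    have h6 : RCLike.re ⟪v, E v⟫_ℂ = ‖E v‖ ^ 2 := by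
      rw [← inner_conj_symm, RCLike.conj_re]
      exact symIdem_quad hE v
    rw [h6] at h5
    linarith
  have h5 : ‖E v - v‖ = ‖v - E v‖ := norm_sub_rev _ _
  rw [h5] at h3
  have hYv := hY v
  set a : ℝ := ‖E v‖ ^ 2 with ha
  set b : ℝ := ‖v - E v‖ ^ 2 with hb
  have hb0 : 0 ≤ b := sq_nonneg _
  have ha0 : 0 ≤ a := sq_nonneg _
  set e : ℝ := EnC ρ x v with he
  have he0 : 0 ≤ e := EnC_nonneg ρ x v
  have h6 : (9 / 100) * N * a ≤ 2 * e + 4 * (N * b) := by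
    have : (1 - 91 / 100 : ℝ) = 9 / 100 := by norm_num
    rw [this] at h1
    linarith
  have h7 : (9 / 100) * a ≤ 2 * (e / N) + 4 * b := by
    have h8 : (9 / 100) * a = ((9 / 100) * N * a) / N := by field_simp
    have h9 : 2 * (e / N) + 4 * b = (2 * e + 4 * (N * b)) / N := by field_simp
    rw [h8, h9]
    exact div_le_div_of_nonneg_right h6 hN0.le
  have hf0 : 0 ≤ e / N := by positivity
  rw [h4]
  nlinarith [mul_nonneg (sub_nonneg.2 hε1) hf0, mul_nonneg hε.le ha0, mul_nonneg hε.le hf0,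
    mul_le_mul_of_nonneg_left h7 hε.le]

end

end Run7.h107
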