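import Pool.Agent.Run7.h107.AGC
import Pool.Agent.R236.ExcD
import Pool.Agent.H793R2.RC.CONJS
import Pool.Agent.H20R2.RC.FRLOW

/-!
From few exceptional eigenvalues of one family of letters to the gap of two families
(helper107, MP_75608d_al).
-/

namespace Run7.h107
open RC14
open scoped InnerProductSpace ComplexConjugate
open Finset Pool.Agent.R236.Exc

section
variable {G : Type} [Group G]
variable {V : Type} [NormedAddCommGroup V] [InnerProductSpace ℂ V] [FiniteDimensional ℂ V]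

/-- spectral projection of a symmetric operator onto the eigenvalues `≥ θ` -/
theorem CUT2 (T : Module.End ℂ V) (hT : T.IsSymmetric)
    (hT1 : ∀ v, (⟪T v, v⟫_ℂ).re ≤ ‖v‖ ^ 2) (θ : ℝ) :
    ∃ E : Module.End ℂ V, SymIdem E ∧ (∀ v, θ * ‖E v‖ ^ 2 ≤ (⟪T (E v), E v⟫_ℂ).re) ∧
      ∀ v, (1 - θ) * ‖v - E v‖ ^ 2 ≤ ‖v‖ ^ 2 - (⟪T v, v⟫_ℂ).re := by
  classical
  set n := Module.finrank ℂ V with hn
  set b := hT.eigenvectorBasis hn.symm with hb
  set μ := hT.eigenvalues hn.symm with hμ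
  have hTb : ∀ i, T (b i) = (μ i : ℂ) • b i := fun i => hT.apply_eigenvectorBasis hn.symm i
  set E : Module.End ℂ V := b.toBasis.constr ℂ (fun i => if θ ≤ μ i then b i else 0) with hE
  have hEb : ∀ i, E (b i) = if θ ≤ μ i then b i else 0 := by
    intro i
    have := b.toBasis.constr_basis ℂ (fun i => if θ ≤ μ i then b i else 0) i
    rwa [OrthonormalBasis.coe_toBasis] at this
  have hinner : ∀ i v, ⟪b i, E v⟫_ℂ = if θ ≤ μ i then ⟪b i, v⟫_ℂ else 0 := by
    intro i v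
    conv_lhs => rw [← b.sum_repr v]
    rw [map_sum, inner_sum]
    simp only [map_smul, hEb, inner_smul_right]
    rw [Finset.sum_eq_single i]
    · split_ifs with h
      · rw [b.inner_eq_one i, mul_one, b.repr_apply_apply]
      · simp
    · intro j _ hji
      split_ifs with h
      · rw [b.inner_eq_zero (Ne.symm hji), mul_zero]
      · simp
    · simp
  have hEsym : E.IsSymmetric := by
    intro v w
    rw [← b.sum_inner_mul_inner (E v) w, ← b.sum_inner_mul_inner v (E w)]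
    apply Finset.sum_congr rfl
    intro i _
    rw [hinner i w, ← inner_conj_symm (E v) (b i), hinner i v]
    split_ifs with h
    · rw [inner_conj_symm]
    · simp
  have hEidem : E * E = E := by
    apply b.toBasis.ext
    intro i
    rw [OrthonormalBasis.coe_toBasis, Module.End.mul_apply, hEb]
    split_ifs with h
    · rw [hEb, if_pos h]
    · simp
  have hnorm : ∀ w : V, ‖w‖ ^ 2 = ∑ i, ‖⟪b i, w⟫_ℂ‖ ^ 2 := fun w =>
    (b.sum_sq_norm_inner_right w).symm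
  have hTre : ∀ v : V, (⟪T v, v⟫_ℂ).re = ∑ i, μ i * ‖⟪b i, v⟫_ℂ‖ ^ 2 := by
    intro v
    rw [← b.sum_inner_mul_inner (T v) v, Complex.re_sum]
    apply Finset.sum_congr rfl
    intro i _
    rw [hT v (b i), hTb, inner_smul_right, mul_assoc, ← inner_conj_symm v (b i),
      mul_comm (starRingEnd ℂ _) _,
      Complex.mul_conj, ← Complex.ofReal_mul, Complex.ofReal_re, Complex.normSq_eq_norm_sq]
  have hμ1 : ∀ i, μ i ≤ 1 := by
    intro i
    have h := hT1 (b i)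
    rw [hTb, inner_smul_left, b.inner_eq_one i, b.norm_eq_one i] at h
    simpa using h
  refine ⟨E, ⟨hEsym, hEidem⟩, ?_, ?_⟩
  · intro v
    rw [hnorm (E v), hTre (E v), Finset.mul_sum]
    refine Finset.sum_le_sum fun i _ => ?_
    rw [hinner]
    split_ifs with h
    · exact mul_le_mul_of_nonneg_right h (by positivity)
    · simp
  · intro v
    rw [hnorm (v - E v), hnorm v, hTre v, ← Finset.sum_sub_distrib, Finset.mul_sum]
    apply Finset.sum_le_sum
    intro i _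
    rw [inner_sub_right, hinner]
    split_ifs with h
    · have h1 := hμ1 i
      simp only [sub_self, norm_zero]
      have h2 : 0 ≤ ‖⟪b i, v⟫_ℂ‖ ^ 2 := by positivity
      nlinarith
    · push Not at h
      rw [sub_zero]
      have h2 : 0 ≤ ‖⟪b i, v⟫_ℂ‖ ^ 2 := by positivity
      nlinarith

/-- the walk operator as a linear map -/
noncomputable def TWo (ρ : G →* (V ≃ₗᵢ[ℂ] V)) {k : ℕ} (y : Fin k → G) : Module.End ℂ V :=
  (((1 / (2 * (k : ℝ))) : ℝ) : ℂ) • ∑ i, (op ρ (y i) + op ρ (y i)⁻¹)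

omit [FiniteDimensional ℂ V] in
lemma TWo_apply (ρ : G →* (V ≃ₗᵢ[ℂ] V)) {k : ℕ} (y : Fin k → G) (v : V) :
    TWo ρ y v = wop ρ y v := by
  unfold TWo wop
  rw [LinearMap.smul_apply, LinearMap.sum_apply]
  congr 1
  push_cast
  rfl

omit [FiniteDimensional ℂ V] in
lemma TWo_symm (ρ : G →* (V ≃ₗᵢ[ℂ] V)) {k : ℕ} (y : Fin k → G) : (TWo ρ y).IsSymmetric := by
  intro v w
  unfold TWo
  rw [LinearMap.smul_apply, LinearMap.smul_apply, inner_smul_left, inner_smul_right,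
    Complex.conj_ofReal, LinearMap.sum_apply, LinearMap.sum_apply, sum_inner, inner_sum]
  congr 1
  refine Finset.sum_congr rfl fun i _ => ?_
  rw [LinearMap.add_apply, LinearMap.add_apply, inner_add_left, inner_add_right, op_inner,
    op_inner, inv_inv, add_comm]

/-- few eigenvalues above: a projection -/
theorem FEW_proj [Fintype G] (ρ : G →* (V ≃ₗᵢ[ℂ] V)) {k : ℕ} (hk : 1 ≤ k) (y : Fin k → G)
    {ε η : ℝ} (h : FewAbove ε η ρ y) :
    ∃ E : Module.End ℂ V, SymIdem E ∧ rtr E ≤ η * Module.finrank ℂ V ∧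
      ∀ v, ε * ‖v - E v‖ ^ 2 ≤ En ρ y v / (2 * k) := by
  have hen : ∀ v, ‖v‖ ^ 2 - (⟪TWo ρ y v, v⟫_ℂ).re = En ρ y v / (2 * k) := by
    intro v
    rw [TWo_apply]
    exact wop_energy ρ hk y v
  obtain ⟨E, hE, h1, h2⟩ := CUT2 (TWo ρ y) (TWo_symm ρ y) (fun v => by
    have h3 := hen v
    have h4 : 0 ≤ En ρ y v := RC14.En_nonneg _ _ _
    have h5 : 0 ≤ En ρ y v / (2 * k) := by positivity
    linarith) (1 - ε)
  refine ⟨E, hE, ?_, fun v => ?_⟩
  · have hproj : LinearMap.IsProj (LinearMap.range E) E := by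
      refine ⟨fun x => LinearMap.mem_range_self E x, ?_⟩
      rintro _ ⟨z, rfl⟩
      have := congrArg (fun T : Module.End ℂ V => T z) hE.2
      simpa using this
    have htrE : rtr E = (Module.finrank ℂ (LinearMap.range E) : ℝ) := by
      unfold rtr
      rw [hproj.trace]
      simp
    rw [htrE]
    refine h _ ?_
    rintro _ ⟨v, rfl⟩
    have h3 := h1 v
    rw [TWo_apply] at h3
    exact h3
  · have h3 := h2 v
    rw [hen] at h3
    have e : 1 - (1 - ε) = ε := by ring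
    rwa [e] at h3

variable {C : Type} [Fintype C] [DecidableEq C] [Fintype G]

/-- numerical conditions -/
structure NC2 (q n' L : ℕ) (t0 θ η lg : ℝ) : Prop where
  hq : 2 ≤ q
  hn' : 4 ≤ n'
  hL : 2 * L ≤ 4 * n'
  ht0 : 0 < t0
  hθ : θ = 1 / 3 * (1 / 4) ^ n'
  hη : Real.exp t0 * η ≤ t0 * θ
  hη0 : 0 ≤ η
  hlg : lg ≤ (q : ℝ) ^ L * t0 * θ

lemma num_pow (n' : ℕ) (hn' : 4 ≤ n') :
    (1 / 4 : ℝ) ^ (4 * n') + (1 / 4) ^ (4 * n') + Real.sqrt (3 * (1 / 3 * (1 / 4) ^ n')) ≤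
      (91 / 100) ^ (4 * n') := by
  have h1 : Real.sqrt (3 * (1 / 3 * (1 / 4) ^ n')) = (1 / 2) ^ n' := by
    have e : ((1 / 2 : ℝ) ^ n') ^ 2 = (1 / 4) ^ n' := by
      rw [← pow_mul, mul_comm n' 2, pow_mul]
      norm_num
    have : (3 * (1 / 3 * (1 / 4) ^ n') : ℝ) = ((1 / 2) ^ n') ^ 2 := by
      rw [e]
      ring
    rw [this, Real.sqrt_sq (by positivity)]
  rw [h1]
  have h2 : (1 / 4 : ℝ) ^ (4 * n') ≤ (1 / 2) ^ n' := by
    rw [pow_mul]
    exact pow_le_pow_left₀ (by norm_num) (by norm_num) n'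
  have h3 : (2 / 3 : ℝ) ^ n' ≤ (91 / 100) ^ (4 * n') := by
    rw [pow_mul (91 / 100 : ℝ) 4 n']
    exact pow_le_pow_left₀ (by norm_num) (by norm_num) n'
  have h4 : (1 / 2 : ℝ) ^ n' = (3 / 4) ^ n' * (2 / 3) ^ n' := by
    rw [← mul_pow]
    norm_num
  have h5 : (3 / 4 : ℝ) ^ n' ≤ 1 / 3 := by
    calc (3 / 4 : ℝ) ^ n' ≤ (3 / 4) ^ 4 :=
          pow_le_pow_of_le_one (by norm_num) (by norm_num) hn'
      _ ≤ 1 / 3 := by norm_num
  have h6 : (1 / 2 : ℝ) ^ n' ≤ 1 / 3 * (2 / 3) ^ n' := by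
    rw [h4]
    exact mul_le_mul_of_nonneg_right h5 (by positivity)
  linarith

/-- the count in one irreducible representation -/
theorem IRRC (ρ : G →* (V ≃ₗᵢ[ℂ] V)) (hirr : Irr ρ ⊤) {k : ℕ} (hk : 1 ≤ k) (y : Fin k → G)
    {ε η t0 θ : ℝ} (hε : 0 < ε) (hε1 : ε ≤ 1) {q n' L : ℕ}
    (hN : NC2 q n' L t0 θ η (Real.log (Module.finrank ℂ V)))
    (hC : Fintype.card C = 4096 * (4 * n')) (h : FewAbove ε η ρ y) :
    (Nat.card {x : C → Fin q → G // ¬ ∀ v : V,
        ε / 50 * ‖v‖ ^ 2 ≤ En ρ y v / (2 * k) +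
          EnC ρ x v / (2 * ((Fintype.card C : ℝ) * q))} : ℝ) ≤
      ((4 * n' : ℕ) : ℝ) * Real.exp (-(t0 * θ)) / (1 / 4) ^ (4 * n') *
        Fintype.card (C → Fin q → G) := by
  have hntV := TREE.nontriv ρ hirr
  have hd : (0 : ℝ) < Module.finrank ℂ V := by exact_mod_cast Module.finrank_pos
  have hn' := hN.hn'
  have hθ0 : 0 < θ := by rw [hN.hθ]; positivity
  obtain ⟨E, hE, htr, hgap⟩ := FEW_proj ρ hk y h
  have htn : tn E ≤ η := by
    unfold tn
    rw [div_le_iff₀ hd]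
    exact htr
  have h0 : QL q t0 θ 0 E := by
    refine ⟨symIdem_bd hE, ?_⟩
    have h1 := ex_conv (symIdem_bd hE) hN.ht0.le
    rw [pow_zero, one_mul, pow_zero]
    refine h1.trans (Real.exp_le_exp.2 ?_)
    have h2 : (Real.exp t0 - 1) * tn E ≤ (Real.exp t0 - 1) * η :=
      mul_le_mul_of_nonneg_left htn (by linarith [Real.one_le_exp hN.ht0.le])
    have h3 := hN.hη
    have h4 := hN.hη0
    nlinarith
  have hCne : Nonempty C := by
    rw [← Fintype.card_pos_iff, hC]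
    omega
  have hq := hN.hq
  have h1 := EXP0 (C := C) ρ hirr hN.hq hN.ht0 hθ0 hE h0 hN.hlg n' (by omega) hN.hL hC
    (t := (1 / 4) ^ (4 * n')) (by positivity)
  have hev : Even (4 * n') := ⟨2 * n', by ring⟩
  have hn1 : 1 ≤ 4 * n' := by omega
  have hq1 : 1 ≤ q := by omega
  have hκ : (1 / 4 : ℝ) ^ (4 * n') + (1 / 4) ^ (4 * n') + Real.sqrt (3 * θ) ≤
      (91 / 100) ^ (4 * n') := by
    rw [hN.hθ]
    exact num_pow n' hn'
  have h2 : ∀ x : C → Fin q → G, (∀ v : V,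
      ‖E ((Ssum ρ x ^ (4 * n')) v)‖ ≤ Fintype.card (Cf C q (4 * n')) *
          ((1 / 4) ^ (4 * n') + (1 / 4) ^ (4 * n') + Real.sqrt (3 * θ)) * ‖v‖) →
      ∀ v : V, ε / 50 * ‖v‖ ^ 2 ≤ En ρ y v / (2 * k) +
          EnC ρ x v / (2 * ((Fintype.card C : ℝ) * q)) := by
    intro x hcon v
    exact COMB ρ hE hq1 x hev hn1 hκ hcon hε hε1 (fun v => En ρ y v / (2 * k)) hgap v
  exact le_trans (Nat.cast_le.mpr (card_mono _ _ fun x hx hcon => hx (h2 x hcon))) h1

end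

end Run7.h107
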