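import Pool.Agent.H852R2.TE.S.FIN
import Pool.Agent.R236.ExcD

/-!
The input: few exceptional eigenvalues for a fixed number of letters, with a rate
(helper107, MP_75608d_al).
-/

namespace Run7.h107
open RC14 Finset Filter Topology

/-- few exceptional eigenvalues with the failure rate `B / n` -/
theorem GOODY (δ : ℝ) (hδ : 0 < δ) (hδ1 : δ ≤ 1) : ∃ k : ℕ, 1 ≤ k ∧ ∃ ε : ℝ, 0 < ε ∧ ε ≤ 1 ∧
    ∃ B : ℝ, 0 ≤ B ∧ ∀ᶠ n : ℕ in atTop,
      (Nat.card {x : Fin k → Alt n //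
        ¬ Pool.Agent.R236.Exc.FewExceptional n ε (Real.exp (-(n : ℝ) ^ (1 - δ))) x} : ℝ) ≤
        B / (n : ℝ) * (Fintype.card (Alt n) : ℝ) ^ k := by
  obtain ⟨k0, hk0⟩ := TE852.GAPE (1 - δ / 4) (TE852.TEMAIN (1 - δ / 4) (by linarith))
  obtain ⟨c', hc', B, hB, hgap⟩ := hk0 (k0 + 1) (by omega)
  set k : ℕ := k0 + 1 with hk
  have hk1 : 1 ≤ k := by omega
  have hkpos : (0 : ℝ) < k := by exact_mod_cast hk1
  have hkr : (1 : ℝ) ≤ k := by exact_mod_cast hk1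
  set c : ℝ := min c' 1 with hcdef
  have hc : 0 < c := lt_min hc' one_pos
  have hc1 : c ≤ 1 := min_le_right _ _
  refine ⟨k, hk1, c / (100 * k), by positivity, ?_, B, hB, ?_⟩
  · rw [div_le_one (by positivity)]
    linarith
  filter_upwards [hgap, Pool.Agent.R236.Exc.params δ hδ hδ1] with n h1 hn
  obtain ⟨N, m, X, hX, hN, hNn, hn1, hNj, hr, hm, hmr, hmn, hT, hF, hη, hXN⟩ := hn
  have key : ∀ x : Fin k → Alt n, Good1 n (TE852.Rr (1 - δ / 4) n) c' x →
      Pool.Agent.R236.Exc.FewExceptional n (c / (100 * k)) (Real.exp (-(n : ℝ) ^ (1 - δ))) x := by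
    intro x hgood
    have hx' : Good1 n (TE852.Rr (1 - δ / 4) n) c x := by
      intro j h1 h2 v hv
      refine le_trans ?_ (hgood j h1 h2 v hv)
      have : c ≤ c' := min_le_left _ _
      gcongr
    exact Pool.Agent.R236.Exc.few_of_good n k hk1 _ c (Real.exp (-(n : ℝ) ^ (1 - δ)))
      hc hc1 x hx' N m X hX hN hNn hn1 hNj hr hm hmr hmn hT hF hη hXN
  have h2 := card_mono (fun x : Fin k → Alt n =>
      ¬ Pool.Agent.R236.Exc.FewExceptional n (c / (100 * k)) (Real.exp (-(n : ℝ) ^ (1 - δ))) x)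
      (fun x => ¬ Good1 n (TE852.Rr (1 - δ / 4) n) c' x)
      (fun x hx h => hx (key x h))
  exact le_trans (Nat.cast_le.mpr h2) h1

end Run7.h107
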