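import Pool.Agent.Run7.h107.AGD
import Pool.Agent.H880R2.RC.BLOCKS
import Pool.Agent.H14R2.RC.R2d

/-!
The count for all functions of mean zero on the alternating group, and for one block of letters
(helper107, MP_75608d_al).
-/

namespace Run7.h107
open RC14
open scoped InnerProductSpace ComplexConjugate
open Finset Pool.Agent.R236.Exc

section

/-- the pair `(y, x)` is good -/
def PGd (n : ℕ) (ε : ℝ) {k : ℕ} (y : Fin k → Alt n) {C : Type} [Fintype C] {q : ℕ}
    (x : C → Fin q → Alt n) : Prop :=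
  ∀ v ∈ HH 0 n, ε / 50 * ‖v‖ ^ 2 ≤ En (RR n) y v / (2 * k) +
    EnC (RR n) x v / (2 * ((Fintype.card C : ℝ) * q))

lemma HH0_sum {n : ℕ} {f : FA n} (hf : f ∈ HH 0 n) : ∑ g, f g = 0 := by
  have κ : Tup 0 n := ⟨fun i => i.elim0, fun i => i.elim0⟩
  have h1 := hf 0 le_rfl κ
  have h2 : marg κ f κ = ∑ g, f g := by
    unfold marg
    change (∑ g : Alt n, if mv (g : Equiv.Perm (Fin n))⁻¹ κ = κ then f g else 0) = _
    refine Finset.sum_congr rfl fun g _ => ?_
    rw [if_pos (Subsingleton.elim _ _)]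
  rw [← h2, h1]
  rfl

lemma HH0_nt (n : ℕ) (W : Submodule ℂ (FA n)) (hW : Irr (RR n) W) (hle : W ≤ HH 0 n) :
    ∃ g v, res (RR n) W hW.2.1 g v ≠ v := by
  by_contra hcon
  push Not at hcon
  apply hW.1
  rw [Submodule.eq_bot_iff]
  intro f hf
  have h1 : ∀ g : Alt n, f g = f 1 := by
    intro g
    have h2 := congrArg (fun v : W => (v : FA n) 1) (hcon g ⟨f, hf⟩)
    simp only [res_apply] at h2
    rw [RR_apply, one_mul] at h2
    exact h2
  have h3 := HH0_sum (hle hf)
  simp only [h1, Finset.sum_const, Finset.card_univ, nsmul_eq_mul] at h3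
  have h4 : f 1 = 0 := by
    rcases mul_eq_zero.mp h3 with h | h
    · exact absurd h (by exact_mod_cast Fintype.card_ne_zero)
    · exact h
  ext g
  rw [h1 g, h4]
  rfl

variable {C : Type} [Fintype C] [DecidableEq C]

variable {V : Type} [NormedAddCommGroup V] [InnerProductSpace ℂ V] [FiniteDimensional ℂ V]

/-- the count in one irreducible subspace -/
theorem HHW (n k : ℕ) (ρ : Alt n →* (V ≃ₗᵢ[ℂ] V)) (hV : Module.finrank ℂ V ≤ Fintype.card (Alt n))
    (hk : 1 ≤ k) (hn : 1 ≤ n) {ε η t0 θ : ℝ} (hε : 0 < ε) (hε1 : ε ≤ 1)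
    {q n' L : ℕ} (hN : NC2 q n' L t0 θ η (n * Real.log n))
    (hC : Fintype.card C = 4096 * (4 * n')) (y : Fin k → Alt n)
    (hy : FewExceptional n ε η y) (W : Submodule ℂ V) (hW : Irr ρ W)
    (hnt : ∃ g v, res ρ W hW.2.1 g v ≠ v) :
    (Nat.card {x : C → Fin q → Alt n // ¬ ∀ v ∈ W, ε / 50 * ‖v‖ ^ 2 ≤
        En ρ y v / (2 * k) + EnC ρ x v / (2 * ((Fintype.card C : ℝ) * q))} : ℝ) ≤
      ((4 * n' : ℕ) : ℝ) * Real.exp (-(t0 * θ)) / (1 / 4) ^ (4 * n') *
        Fintype.card (C → Fin q → Alt n) := by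
  have hirr := AMP1.irr_res ρ W hW
  have hW0 : 0 < Module.finrank ℂ W := by
    have : Nontrivial W := by
      rw [Submodule.nontrivial_iff_ne_bot]
      exact hW.1
    exact Module.finrank_pos
  have hdim : Real.log (Module.finrank ℂ W) ≤ n * Real.log n := by
    have h1 : (Module.finrank ℂ W : ℝ) ≤ Fintype.card (Alt n) := by
      have h0 : Module.finrank ℂ W ≤ Module.finrank ℂ V := Submodule.finrank_le W
      exact_mod_cast h0.trans hV
    have h2 := h1.trans (card_Alt_le n hn)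
    rw [← Real.log_exp (n * Real.log n)]
    exact Real.log_le_log (by exact_mod_cast hW0) h2
  have hN' : NC2 q n' L t0 θ η (Real.log (Module.finrank ℂ W)) :=
    ⟨hN.hq, hN.hn', hN.hL, hN.ht0, hN.hθ, hN.hη, hN.hη0, hdim.trans hN.hlg⟩
  have hfew := (hy.1 W (res ρ W hW.2.1) hirr hnt).1
  have h1 := IRRC (C := C) (res ρ W hW.2.1) hirr hk y hε hε1 hN' hC hfew
  have h2 := card_mono (fun x : C → Fin q → Alt n => ¬ ∀ v ∈ W, ε / 50 * ‖v‖ ^ 2 ≤
        En ρ y v / (2 * k) + EnC ρ x v / (2 * ((Fintype.card C : ℝ) * q)))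
    (fun x : C → Fin q → Alt n => ¬ ∀ v : W, ε / 50 * ‖v‖ ^ 2 ≤
        En (res ρ W hW.2.1) y v / (2 * k) +
          EnC (res ρ W hW.2.1) x v / (2 * ((Fintype.card C : ℝ) * q))) (by
    intro x hx hcon
    apply hx
    intro v hv
    exact hcon ⟨v, hv⟩)
  exact le_trans (Nat.cast_le.mpr h2) h1

/-- most families `x` are good for a given `y` with few exceptional eigenvalues -/
theorem HHG (n k : ℕ) (ρ : Alt n →* (V ≃ₗᵢ[ℂ] V)) (hV : Module.finrank ℂ V ≤ Fintype.card (Alt n))
    (M : Submodule ℂ V) (hM : Inv ρ M)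
    (hnt : ∀ W : Submodule ℂ V, ∀ hW : Irr ρ W, W ≤ M → ∃ g v, res ρ W hW.2.1 g v ≠ v)
    (hk : 1 ≤ k) (hn : 1 ≤ n) {ε η t0 θ : ℝ} (hε : 0 < ε) (hε1 : ε ≤ 1)
    {q n' L : ℕ} (hN : NC2 q n' L t0 θ η (n * Real.log n))
    (hC : Fintype.card C = 4096 * (4 * n')) (y : Fin k → Alt n)
    (hy : FewExceptional n ε η y) :
    (Nat.card {x : C → Fin q → Alt n // ¬ ∀ v ∈ M, ε / 50 * ‖v‖ ^ 2 ≤ En ρ y v / (2 * k) +
        EnC ρ x v / (2 * ((Fintype.card C : ℝ) * q))} : ℝ) ≤
      (2 * Real.exp (3 * Real.sqrt n)) *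
        (((4 * n' : ℕ) : ℝ) * Real.exp (-(t0 * θ)) / (1 / 4) ^ (4 * n') *
        Fintype.card (C → Fin q → Alt n)) := by
  have h := UBG ρ M _ (TYPES ρ M hM)
    (Z := C → Fin q → Alt n) (fun x v => En ρ y v / (2 * k) +
      EnC ρ x v / (2 * ((Fintype.card C : ℝ) * q)))
    (fun x => by
      have h1 := (IsEn.en ρ y).smul (1 / (2 * (k : ℝ))) (by positivity)
      have h2 : IsEn ρ (EnC ρ x) := by
        unfold EnC
        exact IsEn.sum Finset.univ (fun c v => ∑ i, ‖ρ (x c i) v - v‖ ^ 2) fun c =>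
          IsEn.sum Finset.univ (fun i v => ‖ρ (x c i) v - v‖ ^ 2) fun i => IsEn.single _ _
      have h3 := h1.add (h2.smul (1 / (2 * ((Fintype.card C : ℝ) * q))) (by positivity))
      have e : (fun v => En ρ y v / (2 * k) +
          EnC ρ x v / (2 * ((Fintype.card C : ℝ) * q))) =
          (fun v => 1 / (2 * (k : ℝ)) * En ρ y v +
          1 / (2 * ((Fintype.card C : ℝ) * q)) * EnC ρ x v) := by
        funext v
        ring
      rw [e]
      exact h3) (ε / 50)
    (((4 * n' : ℕ) : ℝ) * Real.exp (-(t0 * θ)) / (1 / 4) ^ (4 * n') *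
        Fintype.card (C → Fin q → Alt n)) (by positivity)
    (fun W hW hle => HHW n k ρ hV hk hn hε hε1 hN hC y hy W hW (hnt W hW hle))
  refine h.trans ?_
  exact mul_le_mul_of_nonneg_right (CONJA n) (by positivity)

/-- the case of the regular representation -/
theorem HHC (n k : ℕ) (hk : 1 ≤ k) (hn : 1 ≤ n) {ε η t0 θ : ℝ} (hε : 0 < ε) (hε1 : ε ≤ 1)
    {q n' L : ℕ} (hN : NC2 q n' L t0 θ η (n * Real.log n))
    (hC : Fintype.card C = 4096 * (4 * n')) (y : Fin k → Alt n)
    (hy : FewExceptional n ε η y) :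
    (Nat.card {x : C → Fin q → Alt n // ¬ PGd n ε y x} : ℝ) ≤
      (2 * Real.exp (3 * Real.sqrt n)) *
        (((4 * n' : ℕ) : ℝ) * Real.exp (-(t0 * θ)) / (1 / 4) ^ (4 * n') *
        Fintype.card (C → Fin q → Alt n)) := by
  have hV : Module.finrank ℂ (FA n) ≤ Fintype.card (Alt n) := le_of_eq finrank_euclideanSpace
  exact HHG n k (RR n) hV (HH 0 n) (HH_inv 0 n) (HH0_nt n) hk hn hε hε1 hN hC y hy

/-- the letters of the first part -/
def YY {G : Type} {h k c q : ℕ} (x : Fin (h * k + c * q) → G) (a : Fin h) (i : Fin k) : G :=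
  x (Fin.castAdd (c * q) (finProdFinEquiv (a, i)))

/-- the letters of the second part -/
def XX {G : Type} {h k c q : ℕ} (x : Fin (h * k + c * q) → G) (a : Fin c) (i : Fin q) : G :=
  x (Fin.natAdd (h * k) (finProdFinEquiv (a, i)))

/-- the two parts determine the letters -/
def XY (G : Type) (h k c q : ℕ) :
    (Fin (h * k + c * q) → G) ≃ (Fin h → Fin k → G) × (Fin c → Fin q → G) where
  toFun x := (YY x, XX x)
  invFun p := Fin.append (fun i => p.1 (finProdFinEquiv.symm i).1 (finProdFinEquiv.symm i).2)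
    (fun i => p.2 (finProdFinEquiv.symm i).1 (finProdFinEquiv.symm i).2)
  left_inv x := by
    funext i
    induction i using Fin.addCases with
    | left i =>
      change Fin.append _ _ (Fin.castAdd _ i) = _
      rw [Fin.append_left]
      change x (Fin.castAdd (c * q) (finProdFinEquiv (finProdFinEquiv.symm i))) = _
      rw [Equiv.apply_symm_apply]
    | right i =>
      change Fin.append _ _ (Fin.natAdd _ i) = _
      rw [Fin.append_right]
      change x (Fin.natAdd (h * k) (finProdFinEquiv (finProdFinEquiv.symm i))) = _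
      rw [Equiv.apply_symm_apply]
  right_inv p := by
    refine Prod.ext ?_ ?_
    · funext a i
      unfold YY
      simp only
      rw [Fin.append_left, Equiv.symm_apply_apply]
    · funext a i
      unfold XX
      simp only
      rw [Fin.append_right, Equiv.symm_apply_apply]

lemma En_split {n h k c q : ℕ} (x : Fin (h * k + c * q) → Alt n) (v : FA n) :
    En (RR n) x v = ∑ a, En (RR n) (YY x a) v + EnC (RR n) (XX x) v := by
  unfold En EnC YY XX
  rw [Fin.sum_univ_add]
  congr 1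
  · rw [← finProdFinEquiv.sum_comp, Fintype.sum_prod_type]
  · rw [← finProdFinEquiv.sum_comp, Fintype.sum_prod_type]

/-- good pairs give expansion -/
lemma EXPof {n h k c q : ℕ} (hk : 1 ≤ k) (hcq : 1 ≤ c * q) (h1 : h * k ≤ c * q)
    (h2 : c * q ≤ 2 * (h * k)) {ε : ℝ} (hε : 0 < ε)
    (x : Fin (h * k + c * q) → Alt n) (hx : ∀ a, PGd n ε (YY x a) (XX x)) :
    Expanding (ε / 200) x := by
  have hk0 : (0 : ℝ) < k := by exact_mod_cast hk
  have hcq0 : (0 : ℝ) < (c : ℝ) * q := by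
    have : (0 : ℝ) < ((c * q : ℕ) : ℝ) := by exact_mod_cast hcq
    push_cast at this
    exact this
  have h1' : (h : ℝ) * k ≤ c * q := by exact_mod_cast h1
  have h2' : (c : ℝ) * q ≤ 2 * (h * k) := by exact_mod_cast h2
  have hhk0 : (0 : ℝ) < (h : ℝ) * k := by linarith
  have key : Expanding ((ε / 50 * (2 * (h * k))) / (2 * ((h * k + c * q : ℕ) : ℝ))) x := by
    refine FRALL n 0 (h * k + c * q) (by omega) x _ (by positivity) ?_ ?_
    · intro j hj1 hj2
      omega
    · intro v hv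
      rw [En_split]
      have hs : ∑ a : Fin h, (ε / 50 * ‖v‖ ^ 2) ≤ ∑ a : Fin h, (En (RR n) (YY x a) v / (2 * k) +
          EnC (RR n) (XX x) v / (2 * ((Fintype.card (Fin c) : ℝ) * q))) :=
        Finset.sum_le_sum fun a _ => hx a v hv
      rw [Finset.sum_add_distrib, Finset.sum_const, Finset.sum_const, Finset.card_univ,
        Fintype.card_fin, Fintype.card_fin, nsmul_eq_mul, nsmul_eq_mul, ← Finset.sum_div] at hs
      set A : ℝ := ∑ a, En (RR n) (YY x a) v with hA
      set B : ℝ := EnC (RR n) (XX x) v with hB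
      have hB0 : 0 ≤ B := EnC_nonneg _ _ _
      have h3 := mul_le_mul_of_nonneg_left hs (by positivity : 0 ≤ 2 * (k : ℝ))
      have e1 : 2 * (k : ℝ) * (A / (2 * k) + h * (B / (2 * ((c : ℝ) * q)))) =
          A + (h * k) / (c * q) * B := by
        field_simp
      rw [e1] at h3
      have h4 : (h * k : ℝ) / (c * q) * B ≤ 1 * B := by
        refine mul_le_mul_of_nonneg_right ?_ hB0
        rw [div_le_one hcq0]
        exact h1'
      calc ε / 50 * (2 * (h * k)) * ‖v‖ ^ 2 = 2 * (k : ℝ) * (h * (ε / 50 * ‖v‖ ^ 2)) := by ring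
        _ ≤ _ := h3
        _ ≤ A + B := by linarith
  refine RC14.Expanding.mono key ?_
  push_cast
  rw [div_le_div_iff₀ (by norm_num) (by positivity)]
  nlinarith

end

end Run7.h107
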