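import Pool.Agent.Run7.h107.AGF
import Pool.Agent.Run7.h107.AGE

/-!
The count for one block of letters and the asymptotic statement (helper107, MP_75608d_al).
-/

namespace Run7.h107
open RC14
open Finset Filter Topology Pool.Agent.R236.Exc

section

/-- the bad pairs of families -/
def BadYX (n : ℕ) (ε : ℝ) {h k c q : ℕ} (Y : Fin h → Fin k → Alt n) (X : Fin c → Fin q → Alt n) :
    Prop := ∃ a, ¬ PGd n ε (Y a) X

/-- the count for one block -/
theorem BLK (n h k c q n' L : ℕ) (hk : 1 ≤ k) (hn : 1 ≤ n) (hcq : 1 ≤ c * q)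
    (h1 : h * k ≤ c * q) (h2 : c * q ≤ 2 * (h * k)) {ε η t0 θ p : ℝ} (hε : 0 < ε) (hε1 : ε ≤ 1)
    (hN : NC2 q n' L t0 θ η (n * Real.log n)) (hc : c = 4096 * (4 * n'))
    (hp : (Nat.card {y : Fin k → Alt n // ¬ FewExceptional n ε η y} : ℝ) ≤
      p * (Fintype.card (Alt n) : ℝ) ^ k) :
    (Nat.card {x : Fin (h * k + c * q) → Alt n // ¬ Expanding (ε / 200) x} : ℝ) ≤
      (h * p + h * ((2 * Real.exp (3 * Real.sqrt n)) *
        (((4 * n' : ℕ) : ℝ) * Real.exp (-(t0 * θ)) / (1 / 4) ^ (4 * n')))) *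
        (Fintype.card (Alt n) : ℝ) ^ (h * k + c * q) := by
  classical
  set β : ℝ := (2 * Real.exp (3 * Real.sqrt n)) *
        (((4 * n' : ℕ) : ℝ) * Real.exp (-(t0 * θ)) / (1 / 4) ^ (4 * n')) with hβ
  have hβ0 : 0 ≤ β := by positivity
  have e1 : Nat.card {x : Fin (h * k + c * q) → Alt n // ¬ Expanding (ε / 200) x} ≤
      Nat.card {P : (Fin h → Fin k → Alt n) × (Fin c → Fin q → Alt n) // BadYX n ε P.1 P.2} := by
    have e2 := card_equiv (XY (Alt n) h k c q)
      (fun x => BadYX n ε (YY x) (XX x)) (fun P => BadYX n ε P.1 P.2) (fun x => Iff.rfl)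
    rw [← e2]
    refine card_mono _ _ ?_
    intro x hx
    by_contra hcon
    apply hx
    refine EXPof hk hcq h1 h2 hε x ?_
    intro a
    by_contra ha
    exact hcon ⟨a, ha⟩
  have e3 := card_prod_bound (fun Y : Fin h → Fin k → Alt n => ∀ a, FewExceptional n ε η (Y a))
    (fun Y (X : Fin c → Fin q → Alt n) => BadYX n ε Y X) (h * β) (by positivity) (by
      intro Y hY
      have e4 := card_union (Z := Fin c → Fin q → Alt n) (ι := Fin h) (fun X => BadYX n ε Y X)
        (fun a X => ¬ PGd n ε (Y a) X) (fun X hX => hX)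
      have e5 : ∀ a : Fin h, (Nat.card {X : Fin c → Fin q → Alt n // ¬ PGd n ε (Y a) X} : ℝ) ≤
          β * Fintype.card (Fin c → Fin q → Alt n) := by
        intro a
        have := HHC (C := Fin c) n k hk hn hε hε1 hN (by rw [Fintype.card_fin]; exact hc) (Y a)
          (hY a)
        rw [hβ, mul_assoc (2 * Real.exp (3 * Real.sqrt n))]
        exact this
      calc (Nat.card {X : Fin c → Fin q → Alt n // BadYX n ε Y X} : ℝ)
          ≤ ∑ a : Fin h, (Nat.card {X : Fin c → Fin q → Alt n // ¬ PGd n ε (Y a) X} : ℝ) := by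
            exact_mod_cast e4
        _ ≤ ∑ _a : Fin h, β * Fintype.card (Fin c → Fin q → Alt n) :=
            Finset.sum_le_sum fun a _ => e5 a
        _ = _ := by
            rw [Finset.sum_const, Finset.card_univ, Fintype.card_fin, nsmul_eq_mul]
            ring)
  have e6 : (Nat.card {Y : Fin h → Fin k → Alt n // ¬ ∀ a, FewExceptional n ε η (Y a)} : ℝ) ≤
      h * p * Fintype.card (Fin h → Fin k → Alt n) := by
    have e7 := card_union (Z := Fin h → Fin k → Alt n) (ι := Fin h)
      (fun Y => ¬ ∀ a, FewExceptional n ε η (Y a))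
      (fun a Y => ¬ FewExceptional n ε η (Y a)) (fun Y hY => by
        push Not at hY
        exact hY)
    have e8 : ∀ a : Fin h, (Nat.card {Y : Fin h → Fin k → Alt n //
        ¬ FewExceptional n ε η (Y a)} : ℝ) ≤ p * Fintype.card (Fin h → Fin k → Alt n) := by
      intro a
      refine fibre (Y := Fin k → Alt n) (C := Fin h)
        (fun Y => ¬ FewExceptional n ε η (Y a)) a ?_
      intro Y
      simp only [Function.update_self]
      rw [Fintype.card_fun, Fintype.card_fin]
      push_cast
      exact hp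
    calc (Nat.card {Y : Fin h → Fin k → Alt n // ¬ ∀ a, FewExceptional n ε η (Y a)} : ℝ)
        ≤ ∑ a : Fin h, (Nat.card {Y : Fin h → Fin k → Alt n //
          ¬ FewExceptional n ε η (Y a)} : ℝ) := by exact_mod_cast e7
      _ ≤ ∑ _a : Fin h, p * Fintype.card (Fin h → Fin k → Alt n) :=
          Finset.sum_le_sum fun a _ => e8 a
      _ = _ := by
          rw [Finset.sum_const, Finset.card_univ, Fintype.card_fin, nsmul_eq_mul]
          ring
  have e9 : (Fintype.card (Fin h → Fin k → Alt n) : ℝ) *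
      Fintype.card (Fin c → Fin q → Alt n) = (Fintype.card (Alt n) : ℝ) ^ (h * k + c * q) := by
    rw [Fintype.card_fun, Fintype.card_fun, Fintype.card_fun, Fintype.card_fun]
    simp only [Fintype.card_fin]
    push_cast
    rw [← pow_mul, ← pow_mul, ← pow_add]
    congr 1
    ring
  calc (Nat.card {x : Fin (h * k + c * q) → Alt n // ¬ Expanding (ε / 200) x} : ℝ)
      ≤ Nat.card {P : (Fin h → Fin k → Alt n) × (Fin c → Fin q → Alt n) //
          BadYX n ε P.1 P.2} := by exact_mod_cast e1
    _ ≤ _ := e3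
    _ ≤ h * p * Fintype.card (Fin h → Fin k → Alt n) * Fintype.card (Fin c → Fin q → Alt n) +
        h * β * Fintype.card (Fin h → Fin k → Alt n) *
          Fintype.card (Fin c → Fin q → Alt n) := by gcongr
    _ = (h * p + h * β) * ((Fintype.card (Fin h → Fin k → Alt n) : ℝ) *
          Fintype.card (Fin c → Fin q → Alt n)) := by ring
    _ = _ := by rw [e9]

end

end Run7.h107
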