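import Pool.Agent.Run7.h107.AGG

/-!
The asymptotic statement (helper107, MP_75608d_al).
-/

namespace Run7.h107
open RC14
open Finset Filter Topology Pool.Agent.R236.Exc

section

/-- the number of classes is a small multiple of `log n` -/
noncomputable def nn (δ : ℝ) (n : ℕ) : ℕ := ⌈δ * Real.log n⌉₊

/-- bounds of `4 ^ nn` -/
lemma pow_nn (δ : ℝ) (hδ : 0 < δ) (n : ℕ) (hn : 2 ≤ n) :
    (n : ℝ) ^ (13 / 10 * δ) ≤ (4 : ℝ) ^ nn δ n ∧ (4 : ℝ) ^ nn δ n ≤ 4 * (n : ℝ) ^ (3 / 2 * δ) := by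
  have hn0 : (0 : ℝ) < n := by exact_mod_cast (by omega : 0 < n)
  have hn1 : (1 : ℝ) ≤ n := by exact_mod_cast (by omega : 1 ≤ n)
  have hl : 0 ≤ Real.log n := Real.log_nonneg hn1
  have h4 : Real.log 4 = 2 * Real.log 2 := by
    rw [show (4 : ℝ) = 2 ^ 2 by norm_num, Real.log_pow]
    norm_num
  have h2a := Real.log_two_gt_d9
  have h2b := Real.log_two_lt_d9
  have e1 : ∀ s : ℝ, (n : ℝ) ^ s = Real.exp (s * Real.log n) := by
    intro s
    rw [Real.rpow_def_of_pos hn0, mul_comm]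
  have e2 : (4 : ℝ) ^ nn δ n = Real.exp (nn δ n * Real.log 4) := by
    rw [Real.exp_nat_mul, Real.exp_log (by norm_num)]
  have h5 : δ * Real.log n ≤ nn δ n := Nat.le_ceil _
  have h6 : (nn δ n : ℝ) ≤ δ * Real.log n + 1 :=
    (Nat.ceil_lt_add_one (by positivity)).le
  constructor
  · rw [e1, e2]
    apply Real.exp_le_exp.mpr
    rw [h4]
    calc 13 / 10 * δ * Real.log n = (δ * Real.log n) * (13 / 10) := by ring
      _ ≤ nn δ n * (2 * Real.log 2) := by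
          apply mul_le_mul h5 (by linarith) (by norm_num) (by positivity)
  · have e3 : (4 : ℝ) * (n : ℝ) ^ (3 / 2 * δ) = Real.exp (Real.log 4 + 3 / 2 * δ * Real.log n) := by
      rw [Real.exp_add, Real.exp_log (by norm_num), e1]
    rw [e3, e2]
    apply Real.exp_le_exp.mpr
    have h7 : (nn δ n : ℝ) * Real.log 4 ≤ (δ * Real.log n + 1) * Real.log 4 :=
      mul_le_mul_of_nonneg_right h6 (by rw [h4]; linarith)
    have h8 : (δ * Real.log n) * Real.log 4 ≤ (δ * Real.log n) * (3 / 2) := by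
      apply mul_le_mul_of_nonneg_left _ (by positivity)
      rw [h4]
      linarith
    linarith

/-- the numerical conditions -/
lemma ncond (δ : ℝ) (hδ : 0 < δ) (hδ1 : δ ≤ 1 / 10) : ∀ᶠ n : ℕ in atTop,
    NC2 4 (nn δ n) (2 * nn δ n) ((n : ℝ) ^ (1 - δ)) (1 / 3 * (1 / 4) ^ nn δ n)
      (Real.exp (-(n : ℝ) ^ (1 - δ))) (n * Real.log n) ∧
    (n : ℝ) ^ (3 / 4 : ℝ) / 12 ≤ (n : ℝ) ^ (1 - δ) * (1 / 3 * (1 / 4) ^ nn δ n) := by
  filter_upwards [eventually_ge_atTop 2, ev_loggt (4 / δ), ev_const (3 / 4) 12 (by norm_num),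
    ev_log 0 (3 / 10 * δ) 3 (by positivity)] with n hn hl h12 hlog
  have hn0 : (0 : ℝ) < n := by exact_mod_cast (by omega : 0 < n)
  have hn1 : (1 : ℝ) ≤ n := by exact_mod_cast (by omega : 1 ≤ n)
  obtain ⟨hp1, hp2⟩ := pow_nn δ hδ n hn
  rw [Real.rpow_zero, mul_one] at hlog
  set N := nn δ n with hN
  have h4p : (0 : ℝ) < 4 ^ N := by positivity
  have hinv : (1 / 4 : ℝ) ^ N = 1 / 4 ^ N := by rw [one_div_pow]
  have hn4 : 4 ≤ N := by
    have h1 : (4 : ℝ) ≤ N := by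
      calc (4 : ℝ) = δ * (4 / δ) := by field_simp
        _ ≤ δ * Real.log n := mul_le_mul_of_nonneg_left hl hδ.le
        _ ≤ N := Nat.le_ceil _
    exact_mod_cast h1
  have hlow : (n : ℝ) ^ (3 / 4 : ℝ) / 12 ≤ (n : ℝ) ^ (1 - δ) * (1 / 3 * (1 / 4) ^ N) := by
    rw [hinv]
    have h1 : (n : ℝ) ^ (3 / 4 : ℝ) * (n : ℝ) ^ (3 / 2 * δ) ≤ (n : ℝ) ^ (1 - δ) := by
      rw [← Real.rpow_add hn0]
      exact Real.rpow_le_rpow_of_exponent_le hn1 (by linarith)
    have h2 : (n : ℝ) ^ (1 - δ) * (1 / 3 * (1 / 4 ^ N)) = (n : ℝ) ^ (1 - δ) / (3 * 4 ^ N) := by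
      field_simp
    rw [h2, div_le_div_iff₀ (by norm_num) (by positivity)]
    have h3 : (0 : ℝ) ≤ (n : ℝ) ^ (3 / 4 : ℝ) := by positivity
    calc (n : ℝ) ^ (3 / 4 : ℝ) * (3 * 4 ^ N) ≤
        (n : ℝ) ^ (3 / 4 : ℝ) * (3 * (4 * (n : ℝ) ^ (3 / 2 * δ))) := by gcongr
      _ = 12 * ((n : ℝ) ^ (3 / 4 : ℝ) * (n : ℝ) ^ (3 / 2 * δ)) := by ring
      _ ≤ 12 * (n : ℝ) ^ (1 - δ) := by gcongr
      _ = _ := by ring
  refine ⟨⟨by norm_num, hn4, by omega, by positivity, rfl, ?_, (Real.exp_pos _).le, ?_⟩, hlow⟩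
  · rw [← Real.exp_add]
    have : (n : ℝ) ^ (1 - δ) + -(n : ℝ) ^ (1 - δ) = 0 := by ring
    rw [this, Real.exp_zero]
    refine le_trans ?_ hlow
    rw [le_div_iff₀ (by norm_num)]
    linarith
  · have e1 : ((4 : ℕ) : ℝ) ^ (2 * N) * (n : ℝ) ^ (1 - δ) * (1 / 3 * (1 / 4) ^ N) =
        4 ^ N * (n : ℝ) ^ (1 - δ) / 3 := by
      rw [hinv]
      push_cast
      rw [mul_comm 2 N, pow_mul, pow_two]
      field_simp
    rw [e1, le_div_iff₀ (by norm_num)]
    have h1 : (n : ℝ) ^ (13 / 10 * δ) * (n : ℝ) ^ (1 - δ) = n * (n : ℝ) ^ (3 / 10 * δ) := by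
      rw [← Real.rpow_add hn0]
      conv_rhs => rw [← Real.rpow_one (n : ℝ)]
      rw [Real.rpow_one, ← Real.rpow_one_add' hn0.le (by positivity)]
      congr 1
      ring
    calc n * Real.log n * 3 = n * (3 * Real.log n) := by ring
      _ ≤ n * (n : ℝ) ^ (3 / 10 * δ) := by gcongr
      _ = (n : ℝ) ^ (13 / 10 * δ) * (n : ℝ) ^ (1 - δ) := h1.symm
      _ ≤ 4 ^ N * (n : ℝ) ^ (1 - δ) := by gcongr

/-- the failure probability of the second part -/
lemma fail2 (δ : ℝ) (hδ : 0 < δ) (hδ1 : δ ≤ 1 / 10) : ∀ᶠ n : ℕ in atTop,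
    ∀ s : ℝ, (n : ℝ) ^ (3 / 4 : ℝ) / 12 ≤ s →
      65536 * (nn δ n : ℝ) * ((2 * Real.exp (3 * Real.sqrt n)) *
        (((4 * nn δ n : ℕ) : ℝ) * Real.exp (-s) / (1 / 4) ^ (4 * nn δ n))) ≤ 1 / (n : ℝ) := by
  filter_upwards [eventually_ge_atTop 2, ev_loggt (Real.log (10 ^ 9)), ev_loggt 2,
    ev_log 0 (3 / 4) (6 * 24) (by norm_num), ev_le (1 / 2) (3 / 4) (3 * 24) (by norm_num)]
    with n hn hl hl2 hlog hsq s hs
  have hn0 : (0 : ℝ) < n := by exact_mod_cast (by omega : 0 < n)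
  have hn1 : (1 : ℝ) ≤ n := by exact_mod_cast (by omega : 1 ≤ n)
  obtain ⟨hp1, hp2⟩ := pow_nn δ hδ n hn
  rw [Real.rpow_zero, mul_one] at hlog
  set N := nn δ n with hN
  have h4p : (0 : ℝ) < 4 ^ N := by positivity
  have hlogn : Real.log n ≤ n := by
    have := Real.log_le_sub_one_of_pos hn0
    linarith
  have hNn : (N : ℝ) ≤ n := by
    have h6 : (N : ℝ) ≤ δ * Real.log n + 1 :=
      (Nat.ceil_lt_add_one (by positivity)).le
    have h7 : δ * Real.log n ≤ 1 / 10 * Real.log n := by gcongr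
    linarith
  have h44 : (4 : ℝ) ^ (4 * N) ≤ 256 * n := by
    have h1 : (4 : ℝ) ^ (4 * N) = (4 ^ N) ^ 4 := by rw [mul_comm 4 N, pow_mul]
    rw [h1]
    calc ((4 : ℝ) ^ N) ^ 4 ≤ (4 * (n : ℝ) ^ (3 / 2 * δ)) ^ 4 := by gcongr
      _ = 256 * (n : ℝ) ^ (6 * δ) := by
          rw [mul_pow, ← Real.rpow_natCast ((n : ℝ) ^ (3 / 2 * δ)), ← Real.rpow_mul hn0.le]
          norm_num
          congr 1
          ring
      _ ≤ 256 * (n : ℝ) ^ (1 : ℝ) := by
          gcongr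
          linarith
      _ = 256 * n := by rw [Real.rpow_one]
  have hinv : (1 / 4 : ℝ) ^ (4 * N) = 1 / 4 ^ (4 * N) := by rw [one_div_pow]
  have hsqrt : Real.sqrt n = (n : ℝ) ^ (1 / 2 : ℝ) := Real.sqrt_eq_rpow _
  have hexp : Real.exp (3 * Real.sqrt n) * Real.exp (-s) ≤ 1 / (10 ^ 9 * (n : ℝ) ^ 4) := by
    rw [← Real.exp_add, le_div_iff₀ (by positivity)]
    have h1 : (10 ^ 9 * (n : ℝ) ^ 4 : ℝ) = Real.exp (Real.log (10 ^ 9) + 4 * Real.log n) := by
      rw [Real.exp_add, Real.exp_log (by positivity)]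
      congr 1
      rw [show (4 : ℝ) * Real.log n = ((4 : ℕ) : ℝ) * Real.log n by norm_num, Real.exp_nat_mul,
        Real.exp_log hn0]
    rw [h1, ← Real.exp_add, Real.exp_le_one_iff, hsqrt]
    have h2 : (n : ℝ) ^ (3 / 4 : ℝ) / 12 = (n : ℝ) ^ (3 / 4 : ℝ) / 24 +
        (n : ℝ) ^ (3 / 4 : ℝ) / 24 := by ring
    have h3 : 3 * (n : ℝ) ^ (1 / 2 : ℝ) ≤ (n : ℝ) ^ (3 / 4 : ℝ) / 24 := by
      rw [le_div_iff₀ (by norm_num)]
      linarith
    have h4 : 6 * Real.log n ≤ (n : ℝ) ^ (3 / 4 : ℝ) / 24 := by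
      rw [le_div_iff₀ (by norm_num)]
      linarith
    have h5 : Real.log (10 ^ 9) + 4 * Real.log n ≤ 6 * Real.log n := by linarith
    generalize Real.log (10 ^ 9) + 4 * Real.log n = z at h5 ⊢
    generalize (n : ℝ) ^ (1 / 2 : ℝ) = w at h3 ⊢
    generalize (n : ℝ) ^ (3 / 4 : ℝ) = u at h2 h3 h4 hs
    linarith
  rw [hinv]
  push_cast
  have e1 : 65536 * (N : ℝ) * (2 * Real.exp (3 * Real.sqrt n) *
      (4 * (N : ℝ) * Real.exp (-s) / (1 / 4 ^ (4 * N)))) =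
      524288 * ((N : ℝ) * N * 4 ^ (4 * N)) *
        (Real.exp (3 * Real.sqrt n) * Real.exp (-s)) := by
    field_simp
    ring
  rw [e1]
  calc 524288 * ((N : ℝ) * N * 4 ^ (4 * N)) * (Real.exp (3 * Real.sqrt n) * Real.exp (-s))
      ≤ 524288 * ((n : ℝ) * n * (256 * n)) * (1 / (10 ^ 9 * (n : ℝ) ^ 4)) := by gcongr
    _ = (524288 * 256 / 10 ^ 9) * (1 / (n : ℝ)) := by
        field_simp
    _ ≤ 1 * (1 / (n : ℝ)) := by
        gcongr
        norm_num
    _ = 1 / (n : ℝ) := one_mul _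

/-- the result for all numbers of letters `≥ a log n` -/
theorem AGMAIN (a : ℝ) (ha : 0 < a) : ∃ ε : ℝ, 0 < ε ∧ ∀ᶠ n : ℕ in atTop, ∀ m : ℕ,
    a * Real.log n ≤ m →
    (Nat.card {x : Fin m → Alt n // ¬ Expanding ε x} : ℝ) ≤
      (Real.log n) ^ 2 / n * (Fintype.card (Alt n) : ℝ) ^ m := by
  set δ : ℝ := min (a / 10 ^ 6) (1 / 10) with hδdef
  have hδ : 0 < δ := lt_min (by positivity) (by norm_num)
  have hδ1 : δ ≤ 1 / 10 := min_le_right _ _
  have hδa : δ ≤ a / 10 ^ 6 := min_le_left _ _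
  obtain ⟨k, hk, ε, hε, hε1, B, hB, hgood⟩ := GOODY δ hδ (by linarith)
  refine ⟨ε / 200 / 4, by positivity, ?_⟩
  filter_upwards [hgood, ncond δ hδ hδ1, fail2 δ hδ hδ1, eventually_ge_atTop 2,
    ev_loggt (4 * (65536 * B) + 4), ev_loggt ((k : ℝ) / δ), ev_loggt (2 * 131072 / a)]
    with n h1 h2 h3 hn hl1 hl2 hl3 m hm
  obtain ⟨hN, hlow⟩ := h2
  have hn0 : (0 : ℝ) < n := by exact_mod_cast (by omega : 0 < n)
  have hn1 : (1 : ℝ) ≤ n := by exact_mod_cast (by omega : 1 ≤ n)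
  set N := nn δ n with hNdef
  have h4N : 4 ≤ N := hN.hn'
  have hkN : k ≤ N := by
    have h5 : (k : ℝ) ≤ N := by
      calc (k : ℝ) = δ * (k / δ) := by field_simp
        _ ≤ δ * Real.log n := mul_le_mul_of_nonneg_left hl2 hδ.le
        _ ≤ N := Nat.le_ceil _
    exact_mod_cast h5
  have hk0 : 0 < k := hk
  set c : ℕ := 4096 * (4 * N) with hc
  set h : ℕ := (c * 4) / k with hh
  have hhk1 : h * k ≤ c * 4 := Nat.div_mul_le_self _ _
  have hhk2 : c * 4 ≤ 2 * (h * k) := by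
    have h5 : c * 4 < (h + 1) * k := by
      rw [hh]
      exact Nat.lt_mul_of_div_lt (Nat.lt_succ_self _) hk0
    have h6 : (h + 1) * k = h * k + k := by ring
    omega
  have hNle : (N : ℝ) ≤ δ * Real.log n + 1 := (Nat.ceil_lt_add_one (by
    have := Real.log_nonneg hn1
    positivity)).le
  have hlog0 : 4 ≤ Real.log n := by
    have : 0 ≤ 65536 * B := by positivity
    linarith
  have hh0 : (h : ℝ) ≤ 65536 * N := by
    have h5 : h ≤ c * 4 := Nat.div_le_self _ _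
    have h6 : (h : ℝ) ≤ ((c * 4 : ℕ) : ℝ) := by exact_mod_cast h5
    rw [hc] at h6
    push_cast at h6
    linarith
  have hm0 : h * k + c * 4 ≤ m := by
    have h5 : ((h * k + c * 4 : ℕ) : ℝ) ≤ m := by
      have h6 : ((h * k + c * 4 : ℕ) : ℝ) ≤ ((2 * (c * 4) : ℕ) : ℝ) := by
        exact_mod_cast (by omega : h * k + c * 4 ≤ 2 * (c * 4))
      refine h6.trans (le_trans ?_ hm)
      rw [hc]
      push_cast
      have h7 : 131072 * (δ * Real.log n) ≤ 131072 * (a / 10 ^ 6 * Real.log n) := by gcongr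
      have h8 : 2 * 131072 ≤ a * Real.log n := by
        have := mul_le_mul_of_nonneg_left hl3 ha.le
        have e : a * (2 * 131072 / a) = 2 * 131072 := by field_simp
        linarith
      have h9 : 0 ≤ a * Real.log n := by positivity
      nlinarith
    exact_mod_cast h5
  have hblk := BLK n h k c 4 N (2 * N) hk (by omega) (by omega) hhk1 hhk2 hε hε1 hN hc
    (p := B / n) h1
  have h5 := h3 _ hlow
  set β : ℝ := (2 * Real.exp (3 * Real.sqrt n)) *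
        (((4 * N : ℕ) : ℝ) * Real.exp (-((n : ℝ) ^ (1 - δ) * (1 / 3 * (1 / 4) ^ N))) /
          (1 / 4) ^ (4 * N)) with hβ
  have hβ0 : 0 ≤ β := by positivity
  have hp : (h : ℝ) * (B / n) + h * β ≤ (Real.log n) ^ 2 / n / 2 := by
    have h6 : (h : ℝ) * β ≤ 1 / n := (mul_le_mul_of_nonneg_right hh0 hβ0).trans h5
    have h7 : (N : ℝ) ≤ Real.log n := by
      have : δ * Real.log n ≤ 1 / 10 * Real.log n := by gcongr
      linarith
    have h8 : (h : ℝ) * (B / n) ≤ 65536 * Real.log n * (B / n) := by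
      have : (0 : ℝ) ≤ B / n := by positivity
      refine mul_le_mul_of_nonneg_right ?_ this
      linarith
    have h9 : 65536 * Real.log n * (B / n) + 1 / n = (65536 * B * Real.log n + 1) / n := by
      field_simp
    have h10 : (65536 * B * Real.log n + 1) ≤ (Real.log n) ^ 2 / 2 := by
      have h11 : 0 ≤ 65536 * B := by positivity
      nlinarith [mul_le_mul_of_nonneg_right hl1 (by linarith : 0 ≤ Real.log n)]
    calc (h : ℝ) * (B / n) + h * β ≤ 65536 * Real.log n * (B / n) + 1 / n := by linarith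
      _ = (65536 * B * Real.log n + 1) / n := h9
      _ ≤ ((Real.log n) ^ 2 / 2) / n := by gcongr
      _ = _ := by ring
  have h6 := BLOCKS (h * k + c * 4) m (by omega) hm0 (ε / 200) ((Real.log n) ^ 2 / n / 2)
    (by positivity) (by positivity) (hblk.trans (by gcongr))
  refine h6.trans (le_of_eq ?_)
  ring

end

end Run7.h107
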