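import Pool.Agent.H852R2.TE.S.FIN

/-!
Uniform versions of the starting estimates of the project TE (adapted from the starting files
`H781R2/TE/BPARTE`, `H232R2/TE/RTE`, `H375R2/TE/TRE`): the parameter `δ` may depend on `n`
(helper107, MP_75608d_al).
-/

namespace Run7.h107
open RC14 RC852 TE852 Finset Filter Equiv

/-- character bound on all levels `j ≤ n^{1-2δ}`, uniformly -/
theorem RTu (δ : ℝ) (hδ : 0 < δ) (hδ1 : δ ≤ 1 / 8) (n : ℕ)
    (hn : (12 : ℝ) ≤ (n : ℝ) ^ (δ / 40)) :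
    ∀ j : ℕ, 1 ≤ j → (j : ℝ) ≤ (n : ℝ) ^ (1 - 2 * δ) →
    ∀ (W : Submodule ℂ (V j n)) (hW : Inv (repA j n) W), W ≤ Lvl j n →
    ∀ g : Alt n, nfix (g : Perm (Fin n)) ≤ 2 * FE δ n →
      ‖rchr (repA j n) W hW g‖ ≤ ((n : ℝ) ^ (-(δ / 10))) ^ j * Module.finrank ℂ W := by
  have hn12 : 12 ≤ n := by
    by_contra hcon
    have h1 : (n : ℝ) ≤ 11 := by
      have : n ≤ 11 := by omega
      exact_mod_cast this
    have h2 : (n : ℝ) ^ (δ / 40) ≤ 11 := by
      calc (n : ℝ) ^ (δ / 40) ≤ (11 : ℝ) ^ (δ / 40) :=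
            Real.rpow_le_rpow (Nat.cast_nonneg _) h1 (by positivity)
        _ ≤ (11 : ℝ) ^ (1 : ℝ) :=
            Real.rpow_le_rpow_of_exponent_le (by norm_num) (by linarith)
        _ = 11 := Real.rpow_one _
    linarith
  intro j hj1 hj W hW hL g hg
  have hN12 : (12 : ℝ) ≤ n := by exact_mod_cast hn12
  have hN0 : (0 : ℝ) < n := by linarith
  set N : ℝ := (n : ℝ) with hNdef
  set w : ℝ := N ^ (-(δ / 8)) with hw
  have hw0 : 0 < w := Real.rpow_pos_of_pos hN0 _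
  -- `12 w ≤ N^{-δ/10}`
  have hw12 : 12 * w ≤ N ^ (-(δ / 10)) := by
    have : N ^ (-(δ / 10)) = N ^ (δ / 40) * w := by
      rw [hw, ← Real.rpow_add hN0]; congr 1; ring
    rw [this]
    exact mul_le_mul_of_nonneg_right hn hw0.le
  have hp1 : N ^ (-(δ / 10)) ≤ 1 := Real.rpow_le_one_of_one_le_of_nonpos (by linarith) (by linarith)
  have hw1 : w ≤ 1 / 12 := by linarith
  have e1 : N ^ (1 - 2 * δ) = N * w ^ 16 := by
    rw [hw, ← Real.rpow_natCast, ← Real.rpow_mul hN0.le]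
    nth_rewrite 2 [← Real.rpow_one N]
    rw [← Real.rpow_add hN0]; congr 1; push_cast; ring
  have e2 : N ^ (1 - δ / 2) = N * w ^ 4 := by
    rw [hw, ← Real.rpow_natCast, ← Real.rpow_mul hN0.le]
    nth_rewrite 2 [← Real.rpow_one N]
    rw [← Real.rpow_add hN0]; congr 1; push_cast; ring
  have hw16 : w ^ 16 ≤ 1 / 12 := by
    calc w ^ 16 ≤ w ^ 1 := pow_le_pow_of_le_one hw0.le (by linarith) (by norm_num)
      _ ≤ 1 / 12 := by simpa using hw1
  have hw4 : w ^ 4 ≤ 1 / 12 := by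
    calc w ^ 4 ≤ w ^ 1 := pow_le_pow_of_le_one hw0.le (by linarith) (by norm_num)
      _ ≤ 1 / 12 := by simpa using hw1
  rw [e1] at hj
  have hjN : (j : ℝ) ≤ N / 12 := by nlinarith
  have hjn : j ≤ n := by
    have : (j : ℝ) ≤ n := by linarith
    exact_mod_cast this
  have hj22 : 2 * j + 2 ≤ n := by
    have : (2 * (j : ℝ) + 2) ≤ n := by linarith
    exact_mod_cast this
  have hDc : ((n - j : ℕ) : ℝ) = N - j := by rw [Nat.cast_sub hjn]
  have hD : N / 2 ≤ ((n - j : ℕ) : ℝ) := by rw [hDc]; linarith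
  have hD0 : (0 : ℝ) < ((n - j : ℕ) : ℝ) := by linarith
  have hFE : ((2 * FE δ n : ℕ) : ℝ) ≤ 4 * (N * w ^ 4) := by
    have h1 : (FE δ n : ℝ) ≤ N ^ (1 - δ / 2) + 1 := by
      unfold FE
      exact (Nat.ceil_lt_add_one (by positivity)).le
    have h2 : (1 : ℝ) ≤ N ^ (1 - δ / 2) := Real.one_le_rpow (by linarith) (by linarith)
    rw [← e2]
    push_cast
    linarith
  have hFn : 2 * FE δ n ≤ n - j := by
    have : ((2 * FE δ n : ℕ) : ℝ) ≤ ((n - j : ℕ) : ℝ) := by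
      refine hFE.trans ?_
      rw [hDc]
      nlinarith
    exact_mod_cast this
  have hjD : (j : ℝ) / ((n - j : ℕ) : ℝ) ≤ 2 * w ^ 16 := by
    rw [div_le_iff₀ hD0]
    have : 2 * w ^ 16 * (N / 2) ≤ 2 * w ^ 16 * ((n - j : ℕ) : ℝ) :=
      mul_le_mul_of_nonneg_left hD (by positivity)
    linarith
  have hFD : ((2 * FE δ n : ℕ) : ℝ) / ((n - j : ℕ) : ℝ) ≤ 8 * w ^ 4 := by
    rw [div_le_iff₀ hD0]
    have : 8 * w ^ 4 * (N / 2) ≤ 8 * w ^ 4 * ((n - j : ℕ) : ℝ) :=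
      mul_le_mul_of_nonneg_left hD (by positivity)
    linarith
  have hjD0 : 0 ≤ (j : ℝ) / ((n - j : ℕ) : ℝ) := by positivity
  have hFD0 : 0 ≤ ((2 * FE δ n : ℕ) : ℝ) / ((n - j : ℕ) : ℝ) := by positivity
  have hz0 : 0 ≤ 2 * w := by positivity
  have t1 : ((j : ℝ) / ((n - j : ℕ) : ℝ)) ^ ((j : ℝ) / 2) ≤ (2 * w) ^ j := by
    have := RTEH.rp _ (2 * w) hjD0 hz0 2 j (by norm_num) (hjD.trans ?_)
    · simpa using this
    · have : w ^ 16 ≤ w ^ 2 := pow_le_pow_of_le_one hw0.le (by linarith) (by norm_num)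
      have h3 : (2 * w) ^ 2 = 4 * w ^ 2 := by ring
      rw [h3]
      have : 0 < w ^ 2 := by positivity
      linarith
  have t2 : (((2 * FE δ n : ℕ) : ℝ) / ((n - j : ℕ) : ℝ)) ^ ((j : ℝ) / 4) ≤ (2 * w) ^ j := by
    have := RTEH.rp _ (2 * w) hFD0 hz0 4 j (by norm_num) (hFD.trans ?_)
    · simpa using this
    · have h3 : (2 * w) ^ 4 = 16 * w ^ 4 := by ring
      rw [h3]
      have : 0 < w ^ 4 := by positivity
      linarith
  have t3 : ((j : ℝ) / ((n - j : ℕ) : ℝ)) ^ ((j : ℝ) / 12) ≤ (2 * w) ^ j := by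
    have := RTEH.rp _ (2 * w) hjD0 hz0 12 j (by norm_num) (hjD.trans ?_)
    · simpa using this
    · have : w ^ 16 ≤ w ^ 12 := pow_le_pow_of_le_one hw0.le (by linarith) (by norm_num)
      have h3 : (2 * w) ^ 12 = 4096 * w ^ 12 := by ring
      rw [h3]
      have : 0 < w ^ 12 := by positivity
      linarith
  have a := CH1 j n hj22 W hW hL g
  have b := CNTE j n (2 * FE δ n) hj1 hj22 hFn (g : Perm (Fin n)) hg
  have hX : (0 : ℝ) < Fintype.card (Tup j n) := by exact_mod_cast card_Tup_pos (by omega)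
  have hd : (0 : ℝ) ≤ Module.finrank ℂ W := by positivity
  have key : ((j : ℝ) / ((n - j : ℕ) : ℝ)) ^ ((j : ℝ) / 2) +
          2 ^ j * (((2 * FE δ n : ℕ) : ℝ) / ((n - j : ℕ) : ℝ)) ^ ((j : ℝ) / 4) +
          2 ^ j * ((j : ℝ) / ((n - j : ℕ) : ℝ)) ^ ((j : ℝ) / 12) ≤ (N ^ (-(δ / 10))) ^ j := by
    have h2j : (1 : ℝ) ≤ 2 ^ j := one_le_pow₀ (by norm_num)
    have hpos : 0 ≤ (2 * w) ^ j := by positivity
    have h3 : (3 : ℝ) ≤ 3 ^ j := by
      calc (3 : ℝ) = 3 ^ 1 := by norm_num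
        _ ≤ 3 ^ j := pow_le_pow_right₀ (by norm_num) hj1
    calc _ ≤ 2 ^ j * (2 * w) ^ j + 2 ^ j * (2 * w) ^ j + 2 ^ j * (2 * w) ^ j := by
          have u1 : (2 * w) ^ j ≤ 2 ^ j * (2 * w) ^ j := le_mul_of_one_le_left hpos h2j
          have u2 := mul_le_mul_of_nonneg_left t2 (by positivity : (0 : ℝ) ≤ 2 ^ j)
          have u3 := mul_le_mul_of_nonneg_left t3 (by positivity : (0 : ℝ) ≤ 2 ^ j)
          linarith
      _ = 3 * (2 ^ j * (2 * w) ^ j) := by ring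
      _ ≤ 3 ^ j * (2 ^ j * (2 * w) ^ j) := mul_le_mul_of_nonneg_right h3 (by positivity)
      _ = (12 * w) ^ j := by
          rw [← mul_pow, ← mul_pow]; congr 1; ring
      _ ≤ _ := pow_le_pow_left₀ (by positivity) hw12 j
  have c : ‖rchr (repA j n) W hW g‖ * Fintype.card (Tup j n) ≤
      ((N ^ (-(δ / 10))) ^ j * Module.finrank ℂ W) * Fintype.card (Tup j n) := by
    refine a.trans ?_
    refine (mul_le_mul_of_nonneg_left (b.trans (mul_le_mul_of_nonneg_left key hX.le)) hd).trans ?_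
    apply le_of_eq
    ring
  exact le_of_mul_le_mul_right c hX


/-- the inequality of the constants -/
theorem constsU (δ : ℝ) (hδ : 0 < δ) (n : ℕ) (hn : 2 ≤ n)
    (h : (8 / 7 : ℝ) ^ 128 * 2 ≤ (n : ℝ) ^ (δ * (37 / 1000))) :
    (8 / 7 : ℝ) ^ 128 * (n : ℝ) ^ (δ * (256 / 20000)) * (2 * (n : ℝ) ^ (-(δ / 10))) ≤
      (n : ℝ) ^ (-(δ / 20)) := by
  have hn0 : (0 : ℝ) < n := by
    have : 0 < n := by omega
    exact_mod_cast this
  have hn1 : (1 : ℝ) ≤ n := by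
    have : 1 ≤ n := by omega
    exact_mod_cast this
  calc (8 / 7 : ℝ) ^ 128 * (n : ℝ) ^ (δ * (256 / 20000)) * (2 * (n : ℝ) ^ (-(δ / 10)))
      = ((8 / 7 : ℝ) ^ 128 * 2) * ((n : ℝ) ^ (δ * (256 / 20000)) * (n : ℝ) ^ (-(δ / 10))) := by
        ring
    _ ≤ (n : ℝ) ^ (δ * (37 / 1000)) *
        ((n : ℝ) ^ (δ * (256 / 20000)) * (n : ℝ) ^ (-(δ / 10))) :=
        mul_le_mul_of_nonneg_right h (by positivity)
    _ = (n : ℝ) ^ (δ * (37 / 1000) + (δ * (256 / 20000) + -(δ / 10))) := by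
        rw [Real.rpow_add hn0, Real.rpow_add hn0]
    _ ≤ (n : ℝ) ^ (-(δ / 20)) := Real.rpow_le_rpow_of_exponent_le hn1 (by linarith)

/-- trace bound on the components of the levels `n^s ≤ j ≤ n^{s+δ}`, uniformly -/
theorem TRu (δ s : ℝ) (hδ : 0 < δ) (hδ1 : δ ≤ 1 / 16) (hs : 0 ≤ s) (hs1 : s + 3 * δ ≤ 1)
    (n : ℕ) (hn2 : 2 ≤ n) (h12 : (12 : ℝ) ≤ (n : ℝ) ^ (δ / 40))
    (h87n : (8 / 7 : ℝ) ^ 128 * 2 ≤ (n : ℝ) ^ (δ * (37 / 1000))) :
    ∀ (a q M d : ℕ) (x : Fin a → Alt n) (b : Fin q → Alt n), 1 ≤ a → 1 ≤ q →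
    d ≤ M → NF M d ≤ (n : ℝ) ^ (δ / 20000 * Rr s n) → GoodE δ s (gx (lz x) M) (cb b) →
    ∀ j, Rr s n ≤ j → j ≤ Rr (s + δ) n →
    ∀ (W : Submodule ℂ (V j n)) (hW : Irr (repA j n) W), W ≤ Lvl j n →
      (8 / 7 : ℝ) ^ (2 * LL (Rr s n) j) *
          rtr (SF (V := W) (res (repA j n) W hW.2.1) x b M d ^ (2 * LL (Rr s n) j)) ≤
        ((n : ℝ) ^ (-(δ / 20))) ^ j * Module.finrank ℂ W := by
  have hRT := RTu δ hδ (by linarith) n h12
  have hc := constsU δ hδ n hn2 h87n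
  intro a q M d x b ha hq hdM hNF hG j hj1 hj2 W hW hWL
  have hn0 : (0 : ℝ) < n := by
    have : 0 < n := by omega
    exact_mod_cast this
  have hn1 : (1 : ℝ) ≤ n := by
    have : 1 ≤ n := by omega
    exact_mod_cast this
  obtain ⟨r, hr⟩ : ∃ r, r = Rr s n := ⟨_, rfl⟩
  have hr1 : 1 ≤ r := by
    rw [hr]
    exact Nat.le_floor (by rw [Nat.cast_one]; exact Real.one_le_rpow hn1 hs)
  have hjr : r ≤ j := by rw [hr]; exact hj1
  have hj0 : 1 ≤ j := hr1.trans hjr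
  have hjn : (j : ℝ) ≤ (n : ℝ) ^ (1 - 2 * δ) := by
    calc (j : ℝ) ≤ (Rr (s + δ) n : ℕ) := by exact_mod_cast hj2
      _ ≤ (n : ℝ) ^ (s + δ) := Nat.floor_le (by positivity)
      _ ≤ (n : ℝ) ^ (1 - 2 * δ) := Real.rpow_le_rpow_of_exponent_le hn1 (by linarith)
  have hchar := hRT j hj0 hjn W hW.2.1 hWL
  obtain ⟨β, hβ⟩ : ∃ β, β = ((n : ℝ) ^ (-(δ / 10))) ^ j := ⟨_, rfl⟩
  have hβ0 : 0 ≤ β := by rw [hβ]; positivity
  have key := SFTR ha hq (res (repA j n) W hW.2.1) x b M d (2 * LL (Rr s n) j) hdM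
    (fun h : Alt n => 2 * FE δ n ≤ nfix (h : Equiv.Perm (Fin n))) β hβ0 (by
      intro h hh
      rw [hβ]
      exact hchar h (not_le.1 hh).le)
  have hbad : (Nat.card {w : Fin (2 * LL (Rr s n) j) →
        (Fin (2 * M) → Fin (a + a) × Bool) × (Fin q × Bool) //
      2 * FE δ n ≤ nfix ((bwd (wrd (lz x)) b w : Alt n) : Equiv.Perm (Fin n))} : ℝ) /
        (Fintype.card ((Fin (2 * M) → Fin (a + a) × Bool) × (Fin q × Bool)) : ℝ) ^
          (2 * LL (Rr s n) j) ≤ (1 / (n : ℝ)) ^ j := by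
    have h2 := hG j hj1 hj2
    simp only [TREaux.coe_bwd]
    have hpos : (0 : ℝ) <
        (Fintype.card ((Fin (2 * M) → Fin (a + a) × Bool) × (Fin q × Bool)) : ℝ) := by
      have : Nonempty (Fin q) := ⟨⟨0, hq⟩⟩
      have : Nonempty (Fin (a + a)) := ⟨⟨0, by omega⟩⟩
      exact_mod_cast Fintype.card_pos
    rw [div_le_iff₀ (by positivity)]
    exact h2
  -- the number of blocks
  obtain ⟨J, hJ⟩ : ∃ J, J = 2 * LL (Rr s n) j := ⟨_, rfl⟩
  rw [← hJ] at key hbad ⊢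
  have hJr : J * r ≤ 128 * j := by
    rw [hJ, ← hr]
    unfold LL
    have h3 : j / r * r ≤ j := Nat.div_mul_le_self j r
    nlinarith
  have hJj : J ≤ 128 * j := le_trans (Nat.le_mul_of_pos_right J hr1) hJr
  have h87 : (8 / 7 : ℝ) ^ J ≤ ((8 / 7 : ℝ) ^ 128) ^ j := by
    rw [← pow_mul]
    exact pow_le_pow_right₀ (by norm_num) hJj
  have hNF0 : 0 ≤ NF M d := by unfold NF; positivity
  have hNF2 : NF M d ^ (2 * J) ≤ ((n : ℝ) ^ (δ * (256 / 20000))) ^ j := by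
    calc NF M d ^ (2 * J) ≤ ((n : ℝ) ^ (δ / 20000 * r)) ^ (2 * J) := by
          rw [hr]
          exact pow_le_pow_left₀ hNF0 hNF _
      _ = (n : ℝ) ^ (δ / 20000 * r * ((2 * J : ℕ) : ℝ)) := by
          rw [← Real.rpow_natCast, ← Real.rpow_mul hn0.le]
      _ ≤ (n : ℝ) ^ (δ * (256 / 20000) * (j : ℝ)) := by
          refine Real.rpow_le_rpow_of_exponent_le hn1 ?_
          have h4 : (J : ℝ) * r ≤ 128 * j := by exact_mod_cast hJr
          push_cast
          nlinarith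
      _ = ((n : ℝ) ^ (δ * (256 / 20000))) ^ j := by
          rw [← Real.rpow_natCast, ← Real.rpow_mul hn0.le]
  have hsum : β + (1 / (n : ℝ)) ^ j ≤ (2 * (n : ℝ) ^ (-(δ / 10))) ^ j := by
    have h5 : (1 / (n : ℝ)) ^ j ≤ ((n : ℝ) ^ (-(δ / 10))) ^ j := by
      refine pow_le_pow_left₀ (by positivity) ?_ j
      rw [one_div, ← Real.rpow_neg_one]
      exact Real.rpow_le_rpow_of_exponent_le hn1 (by linarith)
    rw [hβ, mul_pow]
    have h6 : (2 : ℝ) ≤ 2 ^ j := by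
      calc (2 : ℝ) = 2 ^ 1 := by norm_num
        _ ≤ 2 ^ j := pow_le_pow_right₀ (by norm_num) hj0
    have h7 : 0 ≤ ((n : ℝ) ^ (-(δ / 10))) ^ j := by positivity
    nlinarith
  have hfr : (0 : ℝ) ≤ Module.finrank ℂ W := by positivity
  have hX0 : (0 : ℝ) ≤ (Nat.card {w : Fin J →
        (Fin (2 * M) → Fin (a + a) × Bool) × (Fin q × Bool) //
      2 * FE δ n ≤ nfix ((bwd (wrd (lz x)) b w : Alt n) : Equiv.Perm (Fin n))} : ℝ) /
        (Fintype.card ((Fin (2 * M) → Fin (a + a) × Bool) × (Fin q × Bool)) : ℝ) ^ J := by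
    positivity
  calc (8 / 7 : ℝ) ^ J * rtr (SF (V := W) (res (repA j n) W hW.2.1) x b M d ^ J)
      ≤ (8 / 7 : ℝ) ^ J * (NF M d ^ (2 * J) * (β + (1 / (n : ℝ)) ^ j) *
          Module.finrank ℂ W) := by
        refine mul_le_mul_of_nonneg_left (key.trans ?_) (by positivity)
        refine mul_le_mul_of_nonneg_right ?_ hfr
        exact mul_le_mul_of_nonneg_left (add_le_add le_rfl hbad) (by positivity)
    _ ≤ ((8 / 7 : ℝ) ^ 128) ^ j * (((n : ℝ) ^ (δ * (256 / 20000))) ^ j *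
          (2 * (n : ℝ) ^ (-(δ / 10))) ^ j * Module.finrank ℂ W) := by
        refine mul_le_mul h87 ?_ (by positivity) (by positivity)
        refine mul_le_mul_of_nonneg_right ?_ hfr
        exact mul_le_mul hNF2 hsum (by positivity) (by positivity)
    _ = ((8 / 7 : ℝ) ^ 128 * (n : ℝ) ^ (δ * (256 / 20000)) * (2 * (n : ℝ) ^ (-(δ / 10)))) ^ j *
          Module.finrank ℂ W := by
        rw [mul_pow, mul_pow]
        ring
    _ ≤ ((n : ℝ) ^ (-(δ / 20))) ^ j * Module.finrank ℂ W :=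
        mul_le_mul_of_nonneg_right (pow_le_pow_left₀ (by positivity) hc j) hfr


/-- the new letters `b` are good with probability `1 - 1/n`, uniformly in the parameters -/
theorem BPu (δ s : ℝ) (hδ : 0 < δ) (hδ1 : δ ≤ 1 / 16) (hs : 0 ≤ s) (hs1 : s + 3 * δ ≤ 1)
    (n : ℕ) (hn64 : (2 : ℝ) ^ 64 ≤ (n : ℝ)) (hH : (102400 : ℝ) ≤ (n : ℝ) ^ (δ / 2)) :
    ∀ q : ℕ, 1 ≤ q → ∀ (K : Type) [Fintype K] [Nonempty K]
    (g : K → Perm (Fin n)), MixT (Rr s n) g →
    (Nat.card {b : Fin q → Alt n // ¬ GoodE δ s g (cb b)} : ℝ) ≤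
      1 / (n : ℝ) * (Fintype.card (Alt n) : ℝ) ^ q := by
  classical
  intro q hq K _ _ g hg
  have hn0 : (0 : ℝ) < n := lt_of_lt_of_le (by positivity) hn64
  have hn1 : (1 : ℝ) ≤ n := le_trans (by norm_num) hn64
  have hnN : 1 ≤ n := by exact_mod_cast hn1
  -- powers of `n`
  obtain ⟨H, hHd⟩ : ∃ H : ℝ, H = (n : ℝ) ^ (δ / 2) := ⟨_, rfl⟩
  rw [← hHd] at hH
  have hH0 : 0 < H := by linarith
  obtain ⟨y, hyd⟩ : ∃ y : ℝ, y = (n : ℝ) ^ ((1 : ℝ) / 32) := ⟨_, rfl⟩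
  have hy32 : y ^ 32 = n := by
    rw [hyd, ← Real.rpow_natCast, ← Real.rpow_mul hn0.le]
    norm_num
  have hy4 : (4 : ℝ) ≤ y := by
    calc (4 : ℝ) = ((2 : ℝ) ^ 64) ^ ((1 : ℝ) / 32) := by
          rw [← Real.rpow_natCast, ← Real.rpow_mul (by norm_num)]
          norm_num
      _ ≤ (n : ℝ) ^ ((1 : ℝ) / 32) := Real.rpow_le_rpow (by positivity) hn64 (by norm_num)
      _ = y := hyd.symm
  have hHy : H ≤ y := by
    rw [hHd, hyd]
    exact Real.rpow_le_rpow_of_exponent_le hn1 (by linarith)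
  obtain ⟨D, hDd⟩ : ∃ D : ℝ, D = H ^ 2 := ⟨_, rfl⟩
  have hDn : D = (n : ℝ) ^ δ := by
    rw [hDd, hHd, ← Real.rpow_natCast, ← Real.rpow_mul hn0.le]
    congr 1
    push_cast
    ring
  have hD0 : 0 < D := by rw [hDd]; positivity
  have hD1 : 1 ≤ D := by rw [hDd]; nlinarith
  have hHD : 102400 * H ≤ D := by rw [hDd]; nlinarith
  -- the quantity `S = n^s`
  obtain ⟨S, hSd⟩ : ∃ S : ℝ, S = (n : ℝ) ^ s := ⟨_, rfl⟩
  have hS1 : 1 ≤ S := by rw [hSd]; exact Real.one_le_rpow hn1 hs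
  have hSD : (n : ℝ) ^ (s + δ) = S * D := by
    rw [Real.rpow_add hn0, hSd, hDn]
  have hSDn : S * D * D ^ 2 ≤ n := by
    have h1 : S * D * D ^ 2 = (n : ℝ) ^ (s + 3 * δ) := by
      rw [hSd, hDn, ← Real.rpow_natCast, ← Real.rpow_mul hn0.le, ← Real.rpow_add hn0,
        ← Real.rpow_add hn0]
      congr 1
      push_cast
      ring
    rw [h1]
    calc (n : ℝ) ^ (s + 3 * δ) ≤ (n : ℝ) ^ (1 : ℝ) := Real.rpow_le_rpow_of_exponent_le hn1 hs1
      _ = n := Real.rpow_one _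
  -- `r`
  obtain ⟨r, hrd⟩ : ∃ r : ℕ, r = Rr s n := ⟨_, rfl⟩
  have hrS : (r : ℝ) ≤ S := by
    rw [hrd, hSd]
    exact Nat.floor_le (by positivity)
  have hr1 : 1 ≤ r := by
    rw [hrd]
    unfold Rr
    apply Nat.le_floor
    rw [← hSd]
    exact_mod_cast hS1
  have hr1' : (1 : ℝ) ≤ r := by exact_mod_cast hr1
  have hrS2 : S ≤ 2 * r := by
    have h1 : S < r + 1 := by
      rw [hrd, hSd]
      exact Nat.lt_floor_add_one _
    linarith
  -- `F`
  obtain ⟨F, hFd⟩ : ∃ F : ℕ, F = FE δ n := ⟨_, rfl⟩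
  have hnH : (n : ℝ) ^ (1 - δ / 2) = n / H := by
    rw [Real.rpow_sub hn0, Real.rpow_one, hHd]
  have hF0 : (n : ℝ) / H ≤ F := by
    rw [hFd, ← hnH]
    exact Nat.le_ceil _
  have hFn : F ≤ n := by
    rw [hFd]
    unfold FE
    apply Nat.ceil_le.2
    calc (n : ℝ) ^ (1 - δ / 2) ≤ (n : ℝ) ^ (1 : ℝ) :=
          Real.rpow_le_rpow_of_exponent_le hn1 (by linarith)
      _ = n := Real.rpow_one _
  have hnH32 : (n : ℝ) / H ≥ 64 := by
    rw [ge_iff_le, le_div_iff₀ hH0]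
    calc 64 * H ≤ y ^ 3 * y := by
          have h64 : (64 : ℝ) ≤ y ^ 3 := by
            calc (64 : ℝ) = 4 ^ 3 := by norm_num
              _ ≤ y ^ 3 := pow_le_pow_left₀ (by norm_num) hy4 3
          exact mul_le_mul h64 hHy hH0.le (by positivity)
      _ = y ^ 4 := by ring
      _ ≤ y ^ 32 := pow_le_pow_right₀ (by linarith) (by norm_num)
      _ = n := hy32
  obtain ⟨K', hKd⟩ : ∃ K' : ℕ, K' = F / 16 := ⟨_, rfl⟩
  have hK1 : (F : ℝ) < 16 * (K' + 1) := by
    have h5 : F < 16 * (K' + 1) := by omega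
    exact_mod_cast h5
  have hK2 : (n : ℝ) / (32 * H) ≤ K' := by
    have h1 : (n : ℝ) / (32 * H) = n / H / 32 := by
      rw [div_div]
      congr 1
      ring
    rw [h1]
    linarith
  have hK'pos : 1 ≤ K' := by
    have h1 : (0 : ℝ) < n / (32 * H) := by positivity
    have : (0 : ℝ) < K' := lt_of_lt_of_le h1 hK2
    exact_mod_cast this
  have hSD2 : S * D ≤ n / D ^ 2 := by
    rw [le_div_iff₀ (by positivity)]
    exact hSDn
  have hDD : n / D ^ 2 * D ≤ n / (102400 * H) := by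
    rw [div_mul_eq_mul_div, div_le_div_iff₀ (by positivity) (by positivity)]
    calc (n : ℝ) * D * (102400 * H) = (n * D) * (102400 * H) := by ring
      _ ≤ (n * D) * D := by gcongr
      _ = n * D ^ 2 := by ring
  have hrF : 2 * r ≤ F := by
    have h1 : (2 * r : ℝ) ≤ F := by
      refine le_trans ?_ hF0
      have h2 : S ≤ n / D ^ 2 * D := by
        calc S = S * 1 := (mul_one S).symm
          _ ≤ S * D := by gcongr
          _ ≤ n / D ^ 2 := hSD2
          _ = n / D ^ 2 * 1 := (mul_one _).symm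
          _ ≤ n / D ^ 2 * D := by gcongr
      calc (2 * r : ℝ) ≤ 2 * S := by linarith
        _ ≤ 2 * (n / (102400 * H)) := by
          have := h2.trans hDD
          linarith
        _ = (n / H) * (2 / 102400) := by
          field_simp
        _ ≤ (n / H) * 1 := by
          apply mul_le_mul_of_nonneg_left (by norm_num) (by positivity)
        _ = n / H := mul_one _
    exact_mod_cast h1
  have hA0 : (0 : ℝ) < (Fintype.card (Alt n) : ℝ) := by
    have : 0 < Fintype.card (Alt n) := Fintype.card_pos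
    exact_mod_cast this
  have : NeZero q := ⟨by omega⟩
  have hC0 : (0 : ℝ) < (Fintype.card (K × (Fin q × Bool)) : ℝ) := by
    have : 0 < Fintype.card (K × (Fin q × Bool)) := Fintype.card_pos
    exact_mod_cast this
  -- one level
  have hlevel : ∀ j, 1 ≤ j → j ≤ Rr (s + δ) n →
      (Nat.card {b : Fin q → Alt n // ¬ (r ≤ j → (Nat.card {w : Fin (2 * LL r j) →
        K × (Fin q × Bool) // 2 * F ≤ nfix (bwd g (cb b) w)} : ℝ) ≤
      (1 / (n : ℝ)) ^ j * (Fintype.card (K × (Fin q × Bool)) : ℝ) ^ (2 * LL r j))} : ℝ) ≤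
      2 * (1 / (n : ℝ)) ^ 2 * (Fintype.card (Alt n) : ℝ) ^ q := by
    intro j hj1 hj2
    by_cases hrj : r ≤ j
    swap
    · have : IsEmpty {b : Fin q → Alt n // ¬ (r ≤ j → (Nat.card {w : Fin (2 * LL r j) →
        K × (Fin q × Bool) // 2 * F ≤ nfix (bwd g (cb b) w)} : ℝ) ≤
      (1 / (n : ℝ)) ^ j * (Fintype.card (K × (Fin q × Bool)) : ℝ) ^ (2 * LL r j))} :=
        ⟨fun b => b.2 fun h => absurd h hrj⟩
      rw [Nat.card_of_isEmpty, Nat.cast_zero]
      positivity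
    have hj1' : (1 : ℝ) ≤ j := by exact_mod_cast hj1
    have hjSD : (j : ℝ) ≤ S * D := by
      have h5 : (Rr (s + δ) n : ℝ) ≤ (n : ℝ) ^ (s + δ) := Nat.floor_le (by positivity)
      have h6 : (j : ℝ) ≤ Rr (s + δ) n := by exact_mod_cast hj2
      rw [hSD] at h5
      exact h6.trans h5
    obtain ⟨L, hLd⟩ : ∃ L : ℕ, L = j / r + 1 := ⟨_, rfl⟩
    have hJL : 2 * LL r j = 64 * L := by
      unfold LL
      rw [hLd]
      ring
    have hLj : j ≤ r * L := by
      rw [hLd]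
      have := Nat.lt_mul_div_succ j (by omega : 0 < r)
      omega
    have hLr : (L : ℝ) ≤ 2 * D + 1 := by
      rw [hLd]
      push_cast
      have h1 : ((j / r : ℕ) : ℝ) ≤ (j : ℝ) / r := Nat.cast_div_le
      have h2 : (j : ℝ) / r ≤ 2 * D := by
        rw [div_le_iff₀ (by linarith)]
        calc (j : ℝ) ≤ S * D := hjSD
          _ ≤ (2 * r) * D := by gcongr
          _ = 2 * D * r := by ring
      linarith
    have hJD : ((64 * L : ℕ) : ℝ) ≤ 200 * D := by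
      push_cast
      linarith
    have hDN : 400 * D ≤ n := by
      calc 400 * D ≤ D * D := by
            apply mul_le_mul_of_nonneg_right _ hD0.le
            rw [hDd]
            nlinarith
        _ = 1 * D ^ 2 := by ring
        _ ≤ S * D * D ^ 2 := by
            apply mul_le_mul_of_nonneg_right _ (by positivity)
            nlinarith
        _ ≤ n := hSDn
    have hJn : 2 * (64 * L) ≤ n := by
      have h6 : ((2 * (64 * L) : ℕ) : ℝ) ≤ n := by
        push_cast at hJD ⊢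
        linarith
      exact_mod_cast h6
    have hL1 : 1 ≤ L := by rw [hLd]; exact Nat.le_add_left 1 _
    have hF : 4 * ((4 * j + 3) * (3 * (64 * L) + 1) + K') ≤ F := by
      have h5 : (8 * ((4 * j + 3) * (3 * (64 * L) + 1) : ℕ) : ℝ) ≤ F := by
        refine le_trans ?_ hF0
        have hJ1 : (64 : ℝ) ≤ ((64 * L : ℕ) : ℝ) := by
          have : 64 ≤ 64 * L := by omega
          exact_mod_cast this
        push_cast at hJD hJ1 ⊢
        calc (8 : ℝ) * ((4 * j + 3) * (3 * (64 * L) + 1)) ≤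
            8 * ((7 * j) * (4 * (64 * L))) := by
              gcongr
              · linarith
              · linarith
          _ ≤ 8 * ((7 * j) * (4 * (200 * D))) := by gcongr
          _ = 44800 * (j * D) := by ring
          _ ≤ 44800 * ((S * D) * D) := by gcongr
          _ ≤ 44800 * ((n / D ^ 2) * D) := by gcongr
          _ ≤ 44800 * (n / (102400 * H)) := by gcongr
          _ = (n / H) * (44800 / 102400) := by field_simp
          _ ≤ (n / H) * 1 := by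
            apply mul_le_mul_of_nonneg_left (by norm_num) (by positivity)
          _ = n / H := mul_one _
      have h6 : 8 * ((4 * j + 3) * (3 * (64 * L) + 1)) ≤ F := by exact_mod_cast h5
      omega
    have hE := EXPOB2 n q (64 * L) r F (4 * j + 3) K' hq (by omega) hJn hr1 hrF hFn hK'pos
      ⟨2 * j + 1, by ring⟩ g (by rw [hrd]; exact hg) hF
    have hnum1 := BPARTE.numeric1 n y H j (64 * L) K' hy32 hy4 hHy hH0 hK2
      (by exact_mod_cast hJn)
    have hnum2 := BPARTE.numeric2 n y H D j r L F hy32 hHy hH hDd hF0 hr1 hrj hLj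
      (by push_cast at hJD ⊢; linarith)
    have hpairs := BPART.card_pairs (X := Fin q → Alt n)
      (Y := Fin (64 * L) → K × (Fin q × Bool))
      (fun b w => 2 * F ≤ nfix (bwd g (cb b) w))
    have hE' : (Nat.card {p : (Fin q → Alt n) × (Fin (64 * L) → K × (Fin q × Bool)) //
        2 * F ≤ nfix (bwd g (cb p.1) p.2)} : ℝ) ≤ 2 * (1 / (n : ℝ)) ^ (3 * j) *
        ((Fintype.card (Alt n) : ℝ) ^ q *
          (Fintype.card (K × (Fin q × Bool)) : ℝ) ^ (64 * L)) := by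
      refine le_trans hE (mul_le_mul_of_nonneg_right ?_ (by positivity))
      rw [two_mul ((1 / (n : ℝ)) ^ (3 * j))]
      exact add_le_add hnum1 hnum2
    rw [hpairs] at hE'
    push_cast at hE'
    have hnj : (0 : ℝ) < (1 / (n : ℝ)) ^ j := by positivity
    simp only [hrj, forall_const]
    rw [hJL]
    refine le_trans (BPART.markov
      (fun b : Fin q → Alt n => (Nat.card {w : Fin (64 * L) → K × (Fin q × Bool) //
        2 * F ≤ nfix (bwd g (cb b) w)} : ℝ)) (fun b => Nat.cast_nonneg _)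
      ((1 / (n : ℝ)) ^ j * (Fintype.card (K × (Fin q × Bool)) : ℝ) ^ (64 * L))
      (2 * (1 / (n : ℝ)) ^ (2 * j) * (Fintype.card (Alt n) : ℝ) ^ q) (by positivity) ?_) ?_
    · refine le_trans hE' (le_of_eq ?_)
      have e : (1 / (n : ℝ)) ^ (3 * j) = (1 / (n : ℝ)) ^ (2 * j) * (1 / (n : ℝ)) ^ j := by
        rw [← pow_add]
        congr 1
        ring
      rw [e]
      ring
    · apply mul_le_mul_of_nonneg_right _ (by positivity)
      apply mul_le_mul_of_nonneg_left _ (by norm_num)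
      apply pow_le_pow_of_le_one (by positivity)
      · rw [one_div]
        exact inv_le_one_of_one_le₀ hn1
      · omega
  -- union
  have hU := BPART.union_bound' (X := Fin q → Alt n)
    (fun j b => r ≤ j → (Nat.card {w : Fin (2 * LL r j) → K × (Fin q × Bool) //
        2 * F ≤ nfix (bwd g (cb b) w)} : ℝ) ≤
      (1 / (n : ℝ)) ^ j * (Fintype.card (K × (Fin q × Bool)) : ℝ) ^ (2 * LL r j))
    (Rr (s + δ) n) _ hlevel (fun b => ¬ GoodE δ s g (cb b)) (by
      intro b hb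
      unfold GoodE at hb
      push Not at hb
      obtain ⟨j, h1, h2, h3⟩ := hb
      rw [← hrd] at h1 h3
      rw [← hFd] at h3
      refine ⟨j, hr1.trans h1, h2, fun h => ?_⟩
      exact absurd (h h1) (not_le.2 h3))
  refine le_trans hU ?_
  have hm : (Rr (s + δ) n : ℝ) ≤ n / 2 := by
    have h5 : (Rr (s + δ) n : ℝ) ≤ (n : ℝ) ^ (s + δ) := Nat.floor_le (by positivity)
    rw [hSD] at h5
    refine h5.trans (hSD2.trans ?_)
    apply div_le_div_of_nonneg_left hn0.le (by norm_num)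
    rw [hDd]
    have h6 : (1 : ℝ) ≤ H ^ 2 := one_le_pow₀ (by linarith)
    nlinarith
  calc (Rr (s + δ) n : ℝ) * (2 * (1 / (n : ℝ)) ^ 2 * (Fintype.card (Alt n) : ℝ) ^ q) ≤
      n / 2 * (2 * (1 / (n : ℝ)) ^ 2 * (Fintype.card (Alt n) : ℝ) ^ q) := by gcongr
    _ = 1 / (n : ℝ) * (Fintype.card (Alt n) : ℝ) ^ q := by
      field_simp


end Run7.h107
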