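import Pool.Agent.Run7.h107.AGI
import Pool.Agent.Run7.h107.AGF
import Pool.Agent.H995R2.RC.SPEC

/-!
The fresh letters `z` for the components of one level (helper107, MP_75608d_al).
-/

namespace Run7.h107
open RC14 RC852 TE852
open scoped InnerProductSpace ComplexConjugate
open Finset

section
variable {G : Type} [Group G] [Fintype G]
variable {V : Type} [NormedAddCommGroup V] [InnerProductSpace ℂ V] [FiniteDimensional ℂ V]
variable {C : Type} [Fintype C] [DecidableEq C]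

/-- the count in one irreducible representation, for a general projection -/
theorem IRRE (ρ : G →* (V ≃ₗᵢ[ℂ] V)) (hirr : Irr ρ ⊤) {E : Module.End ℂ V} (hE : SymIdem E)
    {ε η t0 θ : ℝ} (hε : 0 < ε) (hε1 : ε ≤ 1) {q n' L : ℕ}
    (hN : NC2 q n' L t0 θ η (Real.log (Module.finrank ℂ V)))
    (hC : Fintype.card C = 4096 * (4 * n')) (htr : rtr E ≤ η * Module.finrank ℂ V)
    (Y : V → ℝ) (hY : ∀ v, ε * ‖v - E v‖ ^ 2 ≤ Y v) :
    (Nat.card {x : C → Fin q → G // ¬ ∀ v : V,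
        ε / 50 * ‖v‖ ^ 2 ≤ Y v + EnC ρ x v / (2 * ((Fintype.card C : ℝ) * q))} : ℝ) ≤
      ((4 * n' : ℕ) : ℝ) * Real.exp (-(t0 * θ)) / (1 / 4) ^ (4 * n') *
        Fintype.card (C → Fin q → G) := by
  have hntV := TREE.nontriv ρ hirr
  have hd : (0 : ℝ) < Module.finrank ℂ V := by exact_mod_cast Module.finrank_pos
  have hn' := hN.hn'
  have hθ0 : 0 < θ := by rw [hN.hθ]; positivity
  have htn : tn E ≤ η := by
    unfold tn
    rw [div_le_iff₀ hd]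
    exact htr
  have h0 : QL q t0 θ 0 E := by
    refine ⟨symIdem_bd hE, ?_⟩
    have h1 := ex_conv (symIdem_bd hE) hN.ht0.le
    rw [pow_zero, one_mul, pow_zero]
    refine h1.trans (Real.exp_le_exp.2 ?_)
    have h2 : (Real.exp t0 - 1) * tn E ≤ (Real.exp t0 - 1) * η :=
      mul_le_mul_of_nonneg_left htn (by linarith [Real.one_le_exp hN.ht0.le])
    have h3 := hN.hη
    have h4 := hN.hη0
    nlinarith
  have hCne : Nonempty C := by
    rw [← Fintype.card_pos_iff, hC]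
    omega
  have hq := hN.hq
  have h1 := EXP0 (C := C) ρ hirr hN.hq hN.ht0 hθ0 hE h0 hN.hlg n' (by omega) hN.hL hC
    (t := (1 / 4) ^ (4 * n')) (by positivity)
  have hev : Even (4 * n') := ⟨2 * n', by ring⟩
  have hn1 : 1 ≤ 4 * n' := by omega
  have hq1 : 1 ≤ q := by omega
  have hκ : (1 / 4 : ℝ) ^ (4 * n') + (1 / 4) ^ (4 * n') + Real.sqrt (3 * θ) ≤
      (91 / 100) ^ (4 * n') := by
    rw [hN.hθ]
    exact num_pow n' hn'
  have h2 : ∀ x : C → Fin q → G, (∀ v : V,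
      ‖E ((Ssum ρ x ^ (4 * n')) v)‖ ≤ Fintype.card (Cf C q (4 * n')) *
          ((1 / 4) ^ (4 * n') + (1 / 4) ^ (4 * n') + Real.sqrt (3 * θ)) * ‖v‖) →
      ∀ v : V, ε / 50 * ‖v‖ ^ 2 ≤ Y v +
          EnC ρ x v / (2 * ((Fintype.card C : ℝ) * q)) := by
    intro x hcon v
    exact COMB ρ hE hq1 x hev hn1 hκ hcon hε hε1 Y hY v
  exact le_trans (Nat.cast_le.mpr (card_mono _ _ fun x hx hcon => hx (h2 x hcon))) h1

/-- the energy of the letters `x` and `b` -/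
noncomputable def Yxb (ρ : G →* (V ≃ₗᵢ[ℂ] V)) {a qb : ℕ} (M d : ℕ) (x : Fin a → G)
    (b : Fin qb → G) (v : V) : ℝ :=
  1 / (qb : ℝ) * En ρ b v + 3 / 2 * ((M : ℝ) / (d + 1)) / a * En ρ x v

omit [Fintype G] [FiniteDimensional ℂ V] in
lemma En_resI (ρ : G →* (V ≃ₗᵢ[ℂ] V)) (W : Submodule ℂ V) (hW : Irr ρ W) {ι : Type} [Fintype ι]
    (y : ι → G) (w : W) : En (res ρ W hW.2.1) y w = En ρ y (w : V) := by
  unfold En
  apply Finset.sum_congr rfl
  intro i _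
  rw [Submodule.coe_norm, Submodule.coe_sub, res_apply]

omit [Fintype G] [FiniteDimensional ℂ V] [DecidableEq C] in
lemma EnC_resI (ρ : G →* (V ≃ₗᵢ[ℂ] V)) (W : Submodule ℂ V) (hW : Irr ρ W) {q : ℕ}
    (y : C → Fin q → G) (w : W) : EnC (res ρ W hW.2.1) y w = EnC ρ y (w : V) := by
  unfold EnC
  apply Finset.sum_congr rfl
  intro i _
  apply Finset.sum_congr rfl
  intro j _
  rw [Submodule.coe_norm, Submodule.coe_sub, res_apply]

/-- one irreducible component -/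
theorem oneS (ρ : G →* (V ≃ₗᵢ[ℂ] V)) (W : Submodule ℂ V) (hW : Irr ρ W) {a qb M d : ℕ}
    (ha : 1 ≤ a) (hqb : 1 ≤ qb) (hd : d ≤ M) (x : Fin a → G) (b : Fin qb → G) (Lw : ℕ)
    {η t0 θ lg : ℝ} {q n' L : ℕ}
    (hη : (8 / 7 : ℝ) ^ (2 * Lw) * rtr (SF (V := W) (res ρ W hW.2.1) x b M d ^ (2 * Lw)) ≤
      η * Module.finrank ℂ W)
    (hN : NC2 q n' L t0 θ η lg) (hlg : Real.log (Module.finrank ℂ W) ≤ lg)
    (hC : Fintype.card C = 4096 * (4 * n')) :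
    (Nat.card {z : C → Fin q → G // ¬ ∀ v ∈ W, 1 / 400 * ‖v‖ ^ 2 ≤
        Yxb ρ M d x b v + EnC ρ z v / (2 * ((Fintype.card C : ℝ) * q))} : ℝ) ≤
      ((4 * n' : ℕ) : ℝ) * Real.exp (-(t0 * θ)) / (1 / 4) ^ (4 * n') *
        Fintype.card (C → Fin q → G) := by
  obtain ⟨h1, h2, h3⟩ := SFEN (V := W) ha hqb (res ρ W hW.2.1) x b M d hd
  obtain ⟨E, hE, htr, hgap⟩ := SPEC (SF (V := W) (res ρ W hW.2.1) x b M d) h1 h2 (7 / 8)
    (by norm_num) (by norm_num)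
  have hN' : NC2 q n' L t0 θ η (Real.log (Module.finrank ℂ W)) :=
    ⟨hN.hq, hN.hn', hN.hL, hN.ht0, hN.hθ, hN.hη, hN.hη0, hlg.trans hN.hlg⟩
  have htrE : rtr E ≤ η * Module.finrank ℂ W := by
    have h4 := htr Lw
    have h5 : (0 : ℝ) < (8 / 7) ^ (2 * Lw) := by positivity
    have h6 : (8 / 7 : ℝ) ^ (2 * Lw) * (7 / 8) ^ (2 * Lw) = 1 := by
      rw [← mul_pow]
      norm_num
    calc rtr E = (8 / 7 : ℝ) ^ (2 * Lw) * ((7 / 8) ^ (2 * Lw) * rtr E) := by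
          rw [← mul_assoc, h6, one_mul]
      _ ≤ (8 / 7 : ℝ) ^ (2 * Lw) *
          rtr (SF (V := W) (res ρ W hW.2.1) x b M d ^ (2 * Lw)) :=
          mul_le_mul_of_nonneg_left h4 h5.le
      _ ≤ _ := hη
  have h7 := IRRE (C := C) (res ρ W hW.2.1) (RC14.AMP1.irr_res ρ W hW) hE
    (ε := 1 / 8) (by norm_num) (by norm_num) hN' hC htrE
    (fun v => Yxb (res ρ W hW.2.1) M d x b v) (fun v => by
      have h8 := hgap v
      have h9 := h3 v
      have e : (1 - 7 / 8 : ℝ) = 1 / 8 := by norm_num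
      rw [e] at h8
      exact h8.trans h9)
  have h8 := card_mono (fun z : C → Fin q → G => ¬ ∀ v ∈ W, 1 / 400 * ‖v‖ ^ 2 ≤
        Yxb ρ M d x b v + EnC ρ z v / (2 * ((Fintype.card C : ℝ) * q)))
    (fun z : C → Fin q → G => ¬ ∀ v : W, 1 / 8 / 50 * ‖v‖ ^ 2 ≤
        Yxb (res ρ W hW.2.1) M d x b v +
          EnC (res ρ W hW.2.1) z v / (2 * ((Fintype.card C : ℝ) * q))) (by
    intro z hz hcon
    apply hz
    intro v hv
    have h9 := hcon ⟨v, hv⟩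
    unfold Yxb at h9 ⊢
    rw [En_resI ρ W hW, En_resI ρ W hW, EnC_resI ρ W hW, Submodule.coe_norm] at h9
    norm_num at h9 ⊢
    exact h9)
  exact le_trans (Nat.cast_le.mpr h8) h7

/-- an invariant subspace -/
theorem lvlS (ρ : G →* (V ≃ₗᵢ[ℂ] V)) (M0 : Submodule ℂ V) (hM : Inv ρ M0) {a qb M d : ℕ}
    (ha : 1 ≤ a) (hqb : 1 ≤ qb) (hd : d ≤ M) (x : Fin a → G) (b : Fin qb → G) (Lw : ℕ)
    {η t0 θ lg : ℝ} {q n' L : ℕ}
    (hη : ∀ (W : Submodule ℂ V) (hW : Irr ρ W), W ≤ M0 →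
      (8 / 7 : ℝ) ^ (2 * Lw) * rtr (SF (V := W) (res ρ W hW.2.1) x b M d ^ (2 * Lw)) ≤
      η * Module.finrank ℂ W)
    (hN : NC2 q n' L t0 θ η lg)
    (hlg : ∀ W : Submodule ℂ V, Irr ρ W → W ≤ M0 → Real.log (Module.finrank ℂ W) ≤ lg)
    (hC : Fintype.card C = 4096 * (4 * n')) :
    (Nat.card {z : C → Fin q → G // ¬ ∀ v ∈ M0, 1 / 400 * ‖v‖ ^ 2 ≤
        Yxb ρ M d x b v + EnC ρ z v / (2 * ((Fintype.card C : ℝ) * q))} : ℝ) ≤
      Nat.card (ConjClasses G) * (((4 * n' : ℕ) : ℝ) * Real.exp (-(t0 * θ)) /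
        (1 / 4) ^ (4 * n') * Fintype.card (C → Fin q → G)) := by
  refine UBG ρ M0 _ (TYPES ρ M0 hM)
    (Z := C → Fin q → G) (fun z v => Yxb ρ M d x b v +
      EnC ρ z v / (2 * ((Fintype.card C : ℝ) * q)))
    (fun z => ?_) (1 / 400)
    (((4 * n' : ℕ) : ℝ) * Real.exp (-(t0 * θ)) / (1 / 4) ^ (4 * n') *
        Fintype.card (C → Fin q → G)) (by positivity)
    (fun W hW hle => oneS ρ W hW ha hqb hd x b Lw (hη W hW hle) hN (hlg W hW hle) hC)
  have h1 := (IsEn.en ρ b).smul (1 / (qb : ℝ)) (by positivity)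
  have h2 := (IsEn.en ρ x).smul (3 / 2 * ((M : ℝ) / (d + 1)) / a) (by positivity)
  have h3 : IsEn ρ (EnC ρ z) := by
    unfold EnC
    exact IsEn.sum Finset.univ (fun c v => ∑ i, ‖ρ (z c i) v - v‖ ^ 2) fun c =>
      IsEn.sum Finset.univ (fun i v => ‖ρ (z c i) v - v‖ ^ 2) fun i => IsEn.single _ _
  have h4 := (h1.add h2).add (h3.smul (1 / (2 * ((Fintype.card C : ℝ) * q))) (by positivity))
  have e : (fun v => Yxb ρ M d x b v + EnC ρ z v / (2 * ((Fintype.card C : ℝ) * q))) =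
      (fun v => 1 / (qb : ℝ) * En ρ b v + 3 / 2 * ((M : ℝ) / (d + 1)) / a * En ρ x v +
        1 / (2 * ((Fintype.card C : ℝ) * q)) * EnC ρ z v) := by
    funext v
    unfold Yxb
    ring
  rw [e]
  exact h4

end

end Run7.h107
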