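import Pool.Agent.Run7.h107.AGK

/-!
One round, uniformly in the parameters (helper107, MP_75608d_al).
-/

namespace Run7.h107
open RC14 RC852 TE852 Finset Filter Equiv

/-- the letters of a family in classes -/
def zCl {G : Type} {c q : ℕ} (z : Fin (c * q) → G) (a : Fin c) (i : Fin q) : G :=
  z (finProdFinEquiv (a, i))

lemma EnC_zCl {G : Type} [Group G] {V : Type} [NormedAddCommGroup V] [InnerProductSpace ℂ V]
    (ρ : G →* (V ≃ₗᵢ[ℂ] V)) {c q : ℕ} (z : Fin (c * q) → G) (v : V) :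
    EnC ρ (zCl z) v = En ρ z v := by
  unfold En EnC zCl
  rw [← finProdFinEquiv.sum_comp, Fintype.sum_prod_type]

/-- reindexing of the letters -/
def zEq (G : Type) (c q : ℕ) : (Fin (c * q) → G) ≃ (Fin c → Fin q → G) where
  toFun z := zCl z
  invFun p := fun i => p (finProdFinEquiv.symm i).1 (finProdFinEquiv.symm i).2
  left_inv z := by
    funext i
    change z (finProdFinEquiv (finProdFinEquiv.symm i)) = _
    rw [Equiv.apply_symm_apply]
  right_inv p := by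
    funext a i
    change p (finProdFinEquiv.symm (finProdFinEquiv (a, i))).1
      (finProdFinEquiv.symm (finProdFinEquiv (a, i))).2 = _
    rw [Equiv.symm_apply_apply]

/-- numbers: the powers of `n` -/
lemma pw_conds (δ : ℝ) (n : ℕ) (hn : 2 ≤ n) (hD : 520 ≤ δ * Real.log n) :
    (12 : ℝ) ≤ (n : ℝ) ^ (δ / 40) ∧ (8 / 7 : ℝ) ^ 128 * 2 ≤ (n : ℝ) ^ (δ * (37 / 1000)) ∧
      (102400 : ℝ) ≤ (n : ℝ) ^ (δ / 2) := by
  have hn0 : (0 : ℝ) < n := by exact_mod_cast (by omega : 0 < n)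
  have e1 : ∀ s : ℝ, (n : ℝ) ^ s = Real.exp (Real.log n * s) := fun s =>
    Real.rpow_def_of_pos hn0 s
  refine ⟨?_, ?_, ?_⟩
  · rw [e1]
    have h1 := Real.add_one_le_exp (Real.log n * (δ / 40))
    linarith
  · rw [e1]
    have h1 : (8 / 7 : ℝ) ^ 128 ≤ Real.exp (128 / 7) := by
      have h2 : (8 / 7 : ℝ) ≤ Real.exp (1 / 7) := by
        have := Real.add_one_le_exp (1 / 7 : ℝ)
        linarith
      calc (8 / 7 : ℝ) ^ 128 ≤ (Real.exp (1 / 7)) ^ 128 :=
            pow_le_pow_left₀ (by norm_num) h2 128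
        _ = Real.exp (128 / 7) := by
            rw [← Real.exp_nat_mul]
            congr 1
            norm_num
    have h2 : (2 : ℝ) ≤ Real.exp (7 / 10) := by
      have h3 := Real.log_two_lt_d9
      rw [← Real.log_le_iff_le_exp (by norm_num)]
      linarith
    calc (8 / 7 : ℝ) ^ 128 * 2 ≤ Real.exp (128 / 7) * Real.exp (7 / 10) := by
          gcongr
      _ = Real.exp (128 / 7 + 7 / 10) := (Real.exp_add _ _).symm
      _ ≤ _ := by
          apply Real.exp_le_exp.2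
          linarith
  · rw [e1]
    have h1 : (2 : ℝ) ≤ Real.exp 1 := by linarith [Real.exp_one_gt_d9]
    calc (102400 : ℝ) ≤ 2 ^ 17 := by norm_num
      _ ≤ (Real.exp 1) ^ 17 := pow_le_pow_left₀ (by norm_num) h1 17
      _ = Real.exp 17 := by
          rw [← Real.exp_nat_mul]
          congr 1
          norm_num
      _ ≤ _ := by
          apply Real.exp_le_exp.2
          linarith

/-- the combination of the two ranges of levels -/
lemma combU (n r R a : ℕ) (ha : 1 ≤ a) (c κ : ℝ) (hκ : 0 < κ) (hκ1 : κ ≤ 1)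
    (M d : ℕ) (hMd : (M : ℝ) / (d + 1) ≤ 1 / κ) (cc : ℕ) (hcc : 1 ≤ cc)
    (x : Fin a → Alt n) (b : Fin 1 → Alt n) (z : Fin (cc * 4) → Alt n) (hx : Good1 n r c x)
    (hz : ∀ j, r ≤ j → j ≤ R → ∀ v ∈ Lvl j n,
        1 / 400 * ‖v‖ ^ 2 ≤ Yxb (repA j n) M d x b v +
          EnC (repA j n) (zCl z) v / (2 * ((Fintype.card (Fin cc) : ℝ) * ((4 : ℕ) : ℝ)))) :
    Good1 n R (min c (κ / 600)) (Fin.append x (Fin.append b z)) := by
  intro j hj1 hj2 v hv
  rw [En_append, En_append]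
  have hb := En_nonneg (repA j n) b v
  have hz0 := En_nonneg (repA j n) z v
  have hx0 := En_nonneg (repA j n) x v
  have hv0 : 0 ≤ ‖v‖ ^ 2 := by positivity
  rcases le_total j r with h | h
  · have h1 := hx j hj1 h v hv
    have h2 : min c (κ / 600) * ‖v‖ ^ 2 ≤ c * ‖v‖ ^ 2 :=
      mul_le_mul_of_nonneg_right (min_le_left _ _) hv0
    linarith
  · have h1 := hz j h hj2 v hv
    rw [EnC_zCl, Fintype.card_fin] at h1
    unfold Yxb at h1
    set A : ℝ := En (repA j n) x v with hA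
    set B : ℝ := En (repA j n) b v with hB
    set Z : ℝ := En (repA j n) z v with hZ
    have hk0 : 0 < 1 / κ := by positivity
    have hk1 : 1 ≤ 1 / κ := by
      rw [le_div_iff₀ hκ]
      linarith
    have ha1 : (1 : ℝ) ≤ a := by exact_mod_cast ha
    have hcc1 : (1 : ℝ) ≤ cc := by exact_mod_cast hcc
    have h2 : 3 / 2 * ((M : ℝ) / (d + 1)) / a ≤ 3 / 2 * (1 / κ) := by
      rw [div_le_iff₀ (by positivity)]
      have h3 : 3 / 2 * ((M : ℝ) / (d + 1)) ≤ 3 / 2 * (1 / κ) := by gcongr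
      have h4 : 3 / 2 * (1 / κ) * 1 ≤ 3 / 2 * (1 / κ) * (a : ℝ) := by gcongr
      linarith
    have h3 : 3 / 2 * ((M : ℝ) / (d + 1)) / a * A ≤ 3 / 2 * (1 / κ) * A :=
      mul_le_mul_of_nonneg_right h2 hx0
    have h4 : Z / (2 * ((cc : ℝ) * ((4 : ℕ) : ℝ))) ≤ Z := by
      rw [div_le_iff₀ (by positivity)]
      push_cast
      nlinarith
    have h5 : 1 / (((1 : ℕ) : ℝ)) * B = B := by norm_num
    rw [h5] at h1
    have h6 : 1 / 400 * ‖v‖ ^ 2 ≤ 3 / 2 * (1 / κ) * (A + (B + Z)) := by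
      have h7 : B ≤ 3 / 2 * (1 / κ) * B := by nlinarith
      have h8 : Z ≤ 3 / 2 * (1 / κ) * Z := by nlinarith
      nlinarith
    calc min c (κ / 600) * ‖v‖ ^ 2 ≤ κ / 600 * ‖v‖ ^ 2 :=
          mul_le_mul_of_nonneg_right (min_le_right _ _) hv0
      _ = 2 / 3 * κ * (1 / 400 * ‖v‖ ^ 2) := by ring
      _ ≤ 2 / 3 * κ * (3 / 2 * (1 / κ) * (A + (B + Z))) := by
          exact mul_le_mul_of_nonneg_left h6 (by positivity)
      _ = A + (B + Z) := by field_simp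

/-- numerical conditions for the fresh letters of a round -/
def NumZ (δ : ℝ) (n n' j : ℕ) : Prop :=
  NC2 4 n' (2 * n') (δ / 20 * (j * Real.log n)) (1 / 3 * (1 / 4) ^ n')
      (((n : ℝ) ^ (-(δ / 20))) ^ j) (j * Real.log n) ∧
    (2 * Real.exp (3 * Real.sqrt n)) *
        (((4 * n' : ℕ) : ℝ) * Real.exp (-(δ / 20 * (j * Real.log n) * (1 / 3 * (1 / 4) ^ n'))) /
          (1 / 4) ^ (4 * n')) ≤ 1 / (2 * (n : ℝ) ^ 2)

/-- one round -/
theorem ROUNDu (δ s : ℝ) (hδ : 0 < δ) (hδ1 : δ ≤ 1 / 16) (hs : 0 ≤ s) (hs1 : s + 3 * δ ≤ 1)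
    (n : ℕ) (hn64 : (2 : ℝ) ^ 64 ≤ (n : ℝ)) (hD : 520 ≤ δ * Real.log n)
    (hr2 : Rr s n + 2 ≤ n) (a : ℕ) (ha : 1 ≤ a) (c κ : ℝ) (hc : 0 < c) (hκ0 : 0 < κ)
    (hκ1 : κ ≤ 1) (hκ : κ * (1 - Real.log κ) ≤ δ / 20000 / (2 * a / c + 1))
    (n' : ℕ) (hn' : 1 ≤ n')
    (hNC : ∀ j, Rr s n ≤ j → j ≤ Rr (s + δ) n → NumZ δ n n' j)
    (x : Fin a → Alt n) (hx : Good1 n (Rr s n) c x) :
    (Nat.card {w : Fin (1 + 4096 * (4 * n') * 4) → Alt n //
        ¬ Good1 n (Rr (s + δ) n) (min c (κ / 600)) (Fin.append x w)} : ℝ) ≤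
      2 / (n : ℝ) * Fintype.card (Fin (1 + 4096 * (4 * n') * 4) → Alt n) := by
  classical
  have hn0 : (0 : ℝ) < n := lt_of_lt_of_le (by positivity) hn64
  have hn3 : 3 ≤ n := by
    have : (3 : ℝ) ≤ n := le_trans (by norm_num) hn64
    exact_mod_cast this
  have hnn : n ≠ 0 := by omega
  obtain ⟨h12, h87, h1024⟩ := pw_conds δ n (by omega) hD
  have hr := RX.Rr_pos s hs n (by omega)
  have ha0 : (0 : ℝ) < a := by exact_mod_cast ha
  obtain ⟨M, d, hd, hM, hNF, hMd⟩ := PARu (2 * a / c) (δ / 20000) (by positivity) (by positivity)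
    κ hκ0 hκ1 hκ n hn3 (Rr s n) hr
  have hmix : MixT (Rr s n) (gx (lz x) M) := by
    apply MIXE n (Rr s n) a hr2 ha c hc x hx M
    rw [mul_div_right_comm]
    exact hM
  set cc : ℕ := 4096 * (4 * n') with hcc
  have hcc1 : 1 ≤ cc := by omega
  set A : ℝ := (Fintype.card (Alt n) : ℝ) with hA
  have hA0 : 0 < A := by rw [hA]; exact_mod_cast Fintype.card_pos
  rw [RX.card_append]
  have : Nonempty (Fin (a + a)) := ⟨⟨0, by omega⟩⟩
  have hb := BPu δ s hδ hδ1 hs hs1 n hn64 h1024 1 le_rfl (Fin (2 * M) → Fin (a + a) × Bool)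
    (gx (lz x) M) hmix
  refine (card_prod_bound (fun b : Fin 1 → Alt n => GoodE δ s (gx (lz x) M) (cb b))
    (fun b z => ¬ Good1 n (Rr (s + δ) n) (min c (κ / 600)) (Fin.append x (Fin.append b z)))
    (1 / (n : ℝ)) (by positivity) ?_).trans ?_
  · intro b hgb
    -- the bad letters `z`
    have hTR := TRu δ s hδ hδ1 hs hs1 n (by omega) h12 h87 a 1 M d x b ha le_rfl hd hNF hgb
    have hlev : ∀ j : ℕ, Rr s n ≤ j → j ≤ Rr (s + δ) n →
        (Nat.card {z : Fin cc → Fin 4 → Alt n // ¬ ∀ v ∈ Lvl j n, 1 / 400 * ‖v‖ ^ 2 ≤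
          Yxb (repA j n) M d x b v +
            EnC (repA j n) z v / (2 * ((Fintype.card (Fin cc) : ℝ) * ((4 : ℕ) : ℝ)))} : ℝ) ≤
        1 / (2 * (n : ℝ) ^ 2) * Fintype.card (Fin cc → Fin 4 → Alt n) := by
      intro j hj1 hj2
      obtain ⟨hN1, hN2⟩ := hNC j hj1 hj2
      have h1 := lvlS (C := Fin cc) (repA j n) (Lvl j n) (Lvl_inv j n) ha le_rfl hd x b
        (LL (Rr s n) j) (fun W hW hWL => hTR j hj1 hj2 W hW hWL) hN1 (fun W hW hWL => by
          have hW0 : 0 < Module.finrank ℂ W := by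
            have : Nontrivial W := by
              rw [Submodule.nontrivial_iff_ne_bot]
              exact hW.1
            exact Module.finrank_pos
          have h2 : (Module.finrank ℂ W : ℝ) ≤ (n : ℝ) ^ j := by
            exact_mod_cast finrank_le_pow W
          calc Real.log (Module.finrank ℂ W) ≤ Real.log ((n : ℝ) ^ j) :=
                Real.log_le_log (by exact_mod_cast hW0) h2
            _ = j * Real.log n := Real.log_pow _ _) (by rw [Fintype.card_fin])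
      refine h1.trans ?_
      have hX0 : (0 : ℝ) ≤ Fintype.card (Fin cc → Fin 4 → Alt n) := Nat.cast_nonneg _
      have h3 : (Nat.card (ConjClasses (Alt n)) : ℝ) *
          (((4 * n' : ℕ) : ℝ) * Real.exp (-(δ / 20 * (j * Real.log n) * (1 / 3 * (1 / 4) ^ n'))) /
            (1 / 4) ^ (4 * n')) ≤ 1 / (2 * (n : ℝ) ^ 2) := by
        refine le_trans ?_ hN2
        exact mul_le_mul_of_nonneg_right (CONJA n) (by positivity)
      have h4 := mul_le_mul_of_nonneg_right h3 hX0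
      refine le_trans (le_of_eq ?_) h4
      ring
    have h5 : Nat.card {z : Fin (cc * 4) → Alt n // ¬ Good1 n (Rr (s + δ) n) (min c (κ / 600))
          (Fin.append x (Fin.append b z))} ≤
        Nat.card {z : Fin cc → Fin 4 → Alt n // ¬ ∀ j, Rr s n ≤ j → j ≤ Rr (s + δ) n →
          ∀ v ∈ Lvl j n, 1 / 400 * ‖v‖ ^ 2 ≤ Yxb (repA j n) M d x b v +
            EnC (repA j n) z v / (2 * ((Fintype.card (Fin cc) : ℝ) * ((4 : ℕ) : ℝ)))} := by
      have h6 := card_equiv (zEq (Alt n) cc 4)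
        (fun z => ¬ ∀ j, Rr s n ≤ j → j ≤ Rr (s + δ) n →
          ∀ v ∈ Lvl j n, 1 / 400 * ‖v‖ ^ 2 ≤ Yxb (repA j n) M d x b v +
            EnC (repA j n) (zCl z) v / (2 * ((Fintype.card (Fin cc) : ℝ) * ((4 : ℕ) : ℝ))))
        (fun z => ¬ ∀ j, Rr s n ≤ j → j ≤ Rr (s + δ) n →
          ∀ v ∈ Lvl j n, 1 / 400 * ‖v‖ ^ 2 ≤ Yxb (repA j n) M d x b v +
            EnC (repA j n) z v / (2 * ((Fintype.card (Fin cc) : ℝ) * ((4 : ℕ) : ℝ))))
        (fun z => Iff.rfl)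
      rw [← h6]
      refine card_mono (fun z : Fin (cc * 4) → Alt n =>
        ¬ Good1 n (Rr (s + δ) n) (min c (κ / 600)) (Fin.append x (Fin.append b z)))
        (fun z => ¬ ∀ j, Rr s n ≤ j → j ≤ Rr (s + δ) n →
          ∀ v ∈ Lvl j n, 1 / 400 * ‖v‖ ^ 2 ≤ Yxb (repA j n) M d x b v +
            EnC (repA j n) (zCl z) v / (2 * ((Fintype.card (Fin cc) : ℝ) * ((4 : ℕ) : ℝ)))) ?_
      intro z hz hcon
      exact hz (combU n (Rr s n) (Rr (s + δ) n) a ha c κ hκ0 hκ1 M d hMd cc hcc1 x b z hx hcon)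
    -- union bound over the levels
    have h7 := card_union (Z := Fin cc → Fin 4 → Alt n) (ι := Fin (n + 1))
      (fun z => ¬ ∀ j, Rr s n ≤ j → j ≤ Rr (s + δ) n →
          ∀ v ∈ Lvl j n, 1 / 400 * ‖v‖ ^ 2 ≤ Yxb (repA j n) M d x b v +
            EnC (repA j n) z v / (2 * ((Fintype.card (Fin cc) : ℝ) * ((4 : ℕ) : ℝ))))
      (fun j z => ¬ (Rr s n ≤ (j : ℕ) → (j : ℕ) ≤ Rr (s + δ) n →
          ∀ v ∈ Lvl (j : ℕ) n, 1 / 400 * ‖v‖ ^ 2 ≤ Yxb (repA (j : ℕ) n) M d x b v +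
            EnC (repA (j : ℕ) n) z v / (2 * ((Fintype.card (Fin cc) : ℝ) * ((4 : ℕ) : ℝ)))))
      (fun z hz => by
        push Not at hz
        obtain ⟨j, hj1, hj2, v, hv, hvv⟩ := hz
        have hjn : j < n + 1 := by
          have h8 : (Rr (s + δ) n : ℝ) ≤ (n : ℝ) ^ (s + δ) := Nat.floor_le (by positivity)
          have h9 : (n : ℝ) ^ (s + δ) ≤ (n : ℝ) ^ (1 : ℝ) :=
            Real.rpow_le_rpow_of_exponent_le (by exact_mod_cast (by omega : 1 ≤ n)) (by linarith)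
          rw [Real.rpow_one] at h9
          have h10 : Rr (s + δ) n ≤ n := by exact_mod_cast h8.trans h9
          omega
        refine ⟨⟨j, hjn⟩, fun hcon => ?_⟩
        have h11 := hcon hj1 hj2 v hv
        exact absurd h11 (not_le.2 hvv))
    have h8 : ∀ j : Fin (n + 1), (Nat.card {z : Fin cc → Fin 4 → Alt n //
        ¬ (Rr s n ≤ (j : ℕ) → (j : ℕ) ≤ Rr (s + δ) n →
          ∀ v ∈ Lvl (j : ℕ) n, 1 / 400 * ‖v‖ ^ 2 ≤ Yxb (repA (j : ℕ) n) M d x b v +
            EnC (repA (j : ℕ) n) z v /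
              (2 * ((Fintype.card (Fin cc) : ℝ) * ((4 : ℕ) : ℝ))))} : ℝ) ≤
        1 / (2 * (n : ℝ) ^ 2) * Fintype.card (Fin cc → Fin 4 → Alt n) := by
      intro j
      by_cases hj : Rr s n ≤ (j : ℕ) ∧ (j : ℕ) ≤ Rr (s + δ) n
      · refine le_trans (Nat.cast_le.2 ?_) (hlev j hj.1 hj.2)
        refine card_mono (fun z : Fin cc → Fin 4 → Alt n =>
          ¬ (Rr s n ≤ (j : ℕ) → (j : ℕ) ≤ Rr (s + δ) n →
          ∀ v ∈ Lvl (j : ℕ) n, 1 / 400 * ‖v‖ ^ 2 ≤ Yxb (repA (j : ℕ) n) M d x b v +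
            EnC (repA (j : ℕ) n) z v /
              (2 * ((Fintype.card (Fin cc) : ℝ) * ((4 : ℕ) : ℝ)))))
          (fun z => ¬ ∀ v ∈ Lvl (j : ℕ) n, 1 / 400 * ‖v‖ ^ 2 ≤
            Yxb (repA (j : ℕ) n) M d x b v + EnC (repA (j : ℕ) n) z v /
              (2 * ((Fintype.card (Fin cc) : ℝ) * ((4 : ℕ) : ℝ)))) ?_
        intro z hz hcon
        exact hz fun _ _ => hcon
      · have h9 : Nat.card {z : Fin cc → Fin 4 → Alt n //
            ¬ (Rr s n ≤ (j : ℕ) → (j : ℕ) ≤ Rr (s + δ) n →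
          ∀ v ∈ Lvl (j : ℕ) n, 1 / 400 * ‖v‖ ^ 2 ≤ Yxb (repA (j : ℕ) n) M d x b v +
            EnC (repA (j : ℕ) n) z v /
              (2 * ((Fintype.card (Fin cc) : ℝ) * ((4 : ℕ) : ℝ))))} = 0 := by
          rw [Nat.card_eq_zero]
          left
          refine ⟨fun z => z.2 fun h1 h2 => absurd ⟨h1, h2⟩ hj⟩
        rw [h9, Nat.cast_zero]
        positivity
    have h9 : (Nat.card {z : Fin (cc * 4) → Alt n // ¬ Good1 n (Rr (s + δ) n) (min c (κ / 600))
          (Fin.append x (Fin.append b z))} : ℝ) ≤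
        ∑ _j : Fin (n + 1), 1 / (2 * (n : ℝ) ^ 2) * Fintype.card (Fin cc → Fin 4 → Alt n) := by
      refine le_trans (Nat.cast_le.2 (h5.trans h7)) ?_
      rw [Nat.cast_sum]
      exact Finset.sum_le_sum fun j _ => h8 j
    refine h9.trans ?_
    rw [Finset.sum_const, Finset.card_univ, Fintype.card_fin, nsmul_eq_mul]
    have h10 : (Fintype.card (Fin cc → Fin 4 → Alt n) : ℝ) =
        Fintype.card (Fin (cc * 4) → Alt n) := by
      exact_mod_cast (Fintype.card_congr (zEq (Alt n) cc 4)).symm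
    rw [h10, ← mul_assoc]
    refine mul_le_mul_of_nonneg_right ?_ (Nat.cast_nonneg _)
    rw [mul_one_div, div_le_div_iff₀ (by positivity) hn0]
    push_cast
    have h11 : (1 : ℝ) ≤ n := by exact_mod_cast (by omega : 1 ≤ n)
    nlinarith
  · rw [Fintype.card_fun, Fintype.card_fun, Fintype.card_fin, Fintype.card_fin,
      Fintype.card_fun, Fintype.card_fin]
    push_cast
    rw [← hA]
    calc _ ≤ (1 / (n : ℝ) * A ^ 1) * A ^ (cc * 4) + 1 / (n : ℝ) * A ^ 1 * A ^ (cc * 4) := by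
          gcongr
      _ = 2 / (n : ℝ) * A ^ (1 + cc * 4) := by rw [pow_add]; ring

end Run7.h107
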