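import Pool.Agent.Run7.h107.AGL

/-!
The numerical conditions of the rounds (helper107, MP_75608d_al).
-/

namespace Run7.h107
open RC14 RC852 TE852 Finset Filter Equiv

/-- the parameters `δ_i` -/
noncomputable def dl (i : ℕ) : ℝ := (2 / 3) ^ i / 16

/-- the exponents `s_i = 1 - 3 δ_i` -/
noncomputable def sl (i : ℕ) : ℝ := 1 - 3 * dl i

lemma dl_pos (i : ℕ) : 0 < dl i := by unfold dl; positivity

lemma dl_le (i : ℕ) : dl i ≤ 1 / 16 := by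
  unfold dl
  have : (2 / 3 : ℝ) ^ i ≤ 1 := pow_le_one₀ (by norm_num) (by norm_num)
  linarith

lemma dl_succ (i : ℕ) : dl (i + 1) = 2 / 3 * dl i := by
  unfold dl
  rw [pow_succ]
  ring

lemma sl_succ (i : ℕ) : sl (i + 1) = sl i + dl i := by
  unfold sl
  rw [dl_succ]
  ring

lemma sl_ge (i : ℕ) : 13 / 16 ≤ sl i := by
  unfold sl
  have := dl_le i
  linarith

lemma sl_zero : sl 0 = 13 / 16 := by
  unfold sl dl
  norm_num

lemma dl_mono {i j : ℕ} (h : i ≤ j) : dl j ≤ dl i := by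
  unfold dl
  have : (2 / 3 : ℝ) ^ j ≤ (2 / 3) ^ i := pow_le_pow_of_le_one (by norm_num) (by norm_num) h
  linarith

/-- powers of the number of classes -/
lemma dl_bounds (i : ℕ) (ℓ : ℝ) (hℓ : 1 ≤ dl i * ℓ) :
    (4 : ℝ) ^ i ≤ ℓ ^ 4 ∧ (256 : ℝ) ^ i ≤ ℓ ^ 14 := by
  have h1 : ((3 / 2 : ℝ)) ^ i ≤ ℓ := by
    have h2 : (2 / 3 : ℝ) ^ i * (3 / 2) ^ i = 1 := by
      rw [← mul_pow]
      norm_num
    unfold dl at hℓ
    have h3 : (0 : ℝ) < (3 / 2) ^ i := by positivity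
    have h4 : (3 / 2 : ℝ) ^ i * 1 ≤ (3 / 2) ^ i * ((2 / 3) ^ i / 16 * ℓ) :=
      mul_le_mul_of_nonneg_left hℓ h3.le
    have h5 : (3 / 2 : ℝ) ^ i * ((2 / 3) ^ i / 16 * ℓ) = ((2 / 3 : ℝ) ^ i * (3 / 2) ^ i) * (ℓ / 16) := by
      ring
    rw [h5, h2] at h4
    linarith
  have h3 : (0 : ℝ) ≤ (3 / 2) ^ i := by positivity
  constructor
  · calc (4 : ℝ) ^ i ≤ ((3 / 2) ^ 4) ^ i := pow_le_pow_left₀ (by norm_num) (by norm_num) i
      _ = ((3 / 2) ^ i) ^ 4 := by rw [← pow_mul, ← pow_mul, mul_comm]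
      _ ≤ ℓ ^ 4 := pow_le_pow_left₀ h3 h1 4
  · calc (256 : ℝ) ^ i ≤ ((3 / 2) ^ 14) ^ i := pow_le_pow_left₀ (by norm_num) (by norm_num) i
      _ = ((3 / 2) ^ i) ^ 14 := by rw [← pow_mul, ← pow_mul, mul_comm]
      _ ≤ ℓ ^ 14 := pow_le_pow_left₀ h3 h1 14

/-- the failure bound, an asymptotic inequality -/
lemma fail_num : ∀ᶠ n : ℕ in atTop, ∀ (P T : ℝ), 1 ≤ P → P ≤ 2 ^ 40 * (Real.log n) ^ 14 →
    (n : ℝ) ^ (3 / 4 : ℝ) ≤ T →
    (2 * Real.exp (3 * Real.sqrt n)) * (P * Real.exp (-T) * P) ≤ 1 / (2 * (n : ℝ) ^ 2) := by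
  filter_upwards [eventually_ge_atTop 2, ev_loggt 1, ev_log 0 (3 / 4) (30 * 3) (by norm_num),
    ev_le (1 / 2) (3 / 4) (3 * 3) (by norm_num), ev_const (3 / 4) (60 * 3) (by norm_num)]
    with n hn hl hlog hsq hcst P T hP1 hP hT
  have hn0 : (0 : ℝ) < n := by exact_mod_cast (by omega : 0 < n)
  rw [Real.rpow_zero, mul_one] at hlog
  have hsqrt : Real.sqrt n = (n : ℝ) ^ (1 / 2 : ℝ) := Real.sqrt_eq_rpow _
  set ℓ : ℝ := Real.log n with hℓ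
  have hℓ0 : 0 < ℓ := by linarith
  have hPe : P ≤ Real.exp (28 + 14 * ℓ) := by
    have h1 : (2 : ℝ) ^ 40 ≤ Real.exp 28 := by
      have h2 : Real.log ((2 : ℝ) ^ 40) ≤ 28 := by
        rw [Real.log_pow]
        have := Real.log_two_lt_d9
        push_cast
        linarith
      rw [← Real.log_le_iff_le_exp (by positivity)]
      exact h2
    have h2 : ℓ ^ 14 ≤ Real.exp (14 * ℓ) := by
      have h3 : ℓ ≤ Real.exp ℓ := by linarith [Real.add_one_le_exp ℓ]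
      calc ℓ ^ 14 ≤ (Real.exp ℓ) ^ 14 := pow_le_pow_left₀ hℓ0.le h3 14
        _ = Real.exp (14 * ℓ) := by
            rw [← Real.exp_nat_mul]
            congr 1
    calc P ≤ 2 ^ 40 * ℓ ^ 14 := hP
      _ ≤ Real.exp 28 * Real.exp (14 * ℓ) := by gcongr
      _ = _ := (Real.exp_add _ _).symm
  have h2e : (2 : ℝ) ≤ Real.exp 1 := by linarith [Real.exp_one_gt_d9]
  have hn2 : (n : ℝ) ^ 2 = Real.exp (2 * ℓ) := by
    rw [show (2 : ℝ) * ℓ = ((2 : ℕ) : ℝ) * ℓ by norm_num, Real.exp_nat_mul, hℓ,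
      Real.exp_log hn0]
  have hP0 : 0 ≤ P := by linarith
  rw [le_div_iff₀ (by positivity), hn2]
  calc (2 * Real.exp (3 * Real.sqrt n)) * (P * Real.exp (-T) * P) * (2 * Real.exp (2 * ℓ))
      ≤ (Real.exp 1 * Real.exp (3 * Real.sqrt n)) *
        (Real.exp (28 + 14 * ℓ) * Real.exp (-T) * Real.exp (28 + 14 * ℓ)) *
          (Real.exp 1 * Real.exp (2 * ℓ)) := by gcongr
    _ = Real.exp (1 + 3 * Real.sqrt n + ((28 + 14 * ℓ) + -T + (28 + 14 * ℓ)) + (1 + 2 * ℓ)) := by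
        simp only [← Real.exp_add]
    _ ≤ 1 := by
        rw [Real.exp_le_one_iff, hsqrt]
        linarith

/-- the conditions for the fresh letters of the rounds -/
theorem NUMZ : ∀ᶠ n : ℕ in atTop, ∀ i : ℕ, 520 ≤ dl i * Real.log n →
    ∀ j : ℕ, Rr (sl i) n ≤ j → NumZ (dl i) n (i + 5) j := by
  filter_upwards [eventually_ge_atTop 2, ev_loggt 1, fail_num, ev_log 0 (1 / 64) 10 (by norm_num),
    ev_const (3 / 4) 1 (by norm_num)]
    with n hn hl hfail hlog hone i hi j hj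
  have hn0 : (0 : ℝ) < n := by exact_mod_cast (by omega : 0 < n)
  have hn1 : (1 : ℝ) ≤ n := by exact_mod_cast (by omega : 1 ≤ n)
  rw [Real.rpow_zero, mul_one] at hlog
  set ℓ : ℝ := Real.log n with hℓ
  have hℓ0 : 0 < ℓ := by linarith
  set δ : ℝ := dl i with hδd
  have hδ0 : 0 < δ := dl_pos i
  obtain ⟨h4i, h256⟩ := dl_bounds i ℓ (by linarith)
  have hjr : (n : ℝ) ^ (13 / 16 : ℝ) / 2 ≤ j := by
    have h1 : (n : ℝ) ^ (13 / 16 : ℝ) ≤ (n : ℝ) ^ sl i :=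
      Real.rpow_le_rpow_of_exponent_le hn1 (sl_ge i)
    have h2 : (n : ℝ) ^ sl i < Rr (sl i) n + 1 := by
      unfold Rr
      exact Nat.lt_floor_add_one _
    have h3 : (1 : ℝ) ≤ Rr (sl i) n := by
      exact_mod_cast RX.Rr_pos (sl i) (by have := sl_ge i; linarith) n (by omega)
    have h4 : (Rr (sl i) n : ℝ) ≤ j := by exact_mod_cast hj
    linarith
  have hj0 : (0 : ℝ) < j := lt_of_lt_of_le (by positivity) hjr
  -- the main quantity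
  have hT : (n : ℝ) ^ (3 / 4 : ℝ) ≤ δ / 20 * (j * ℓ) * (1 / 3 * (1 / 4) ^ (i + 5)) := by
    have e1 : δ / 20 * (j * ℓ) * (1 / 3 * (1 / 4) ^ (i + 5)) =
        (δ * ℓ) * j / (61440 * 4 ^ i) := by
      rw [pow_add, one_div_pow]
      field_simp
      norm_num
    rw [e1, le_div_iff₀ (by positivity)]
    have h1 : (n : ℝ) ^ (3 / 4 : ℝ) * (61440 * 4 ^ i) ≤ (n : ℝ) ^ (3 / 4 : ℝ) * (61440 * ℓ ^ 4) := by
      gcongr
    refine h1.trans ?_
    have h2 : (10 * ℓ) ^ 4 ≤ (n : ℝ) ^ (1 / 16 : ℝ) := by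
      calc (10 * ℓ) ^ 4 ≤ ((n : ℝ) ^ (1 / 64 : ℝ)) ^ 4 := pow_le_pow_left₀ (by positivity) hlog 4
        _ = (n : ℝ) ^ (1 / 16 : ℝ) := by
            rw [← Real.rpow_natCast, ← Real.rpow_mul hn0.le]
            norm_num
    have h3 : (n : ℝ) ^ (3 / 4 : ℝ) * (n : ℝ) ^ (1 / 16 : ℝ) = (n : ℝ) ^ (13 / 16 : ℝ) := by
      rw [← Real.rpow_add hn0]
      norm_num
    have h4 : (n : ℝ) ^ (3 / 4 : ℝ) * (10 * ℓ) ^ 4 ≤ (n : ℝ) ^ (13 / 16 : ℝ) := by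
      rw [← h3]
      gcongr
    have h5 : (0 : ℝ) ≤ (n : ℝ) ^ (3 / 4 : ℝ) * ℓ ^ 4 := by positivity
    have h6 : 10000 * ((n : ℝ) ^ (3 / 4 : ℝ) * ℓ ^ 4) ≤ 2 * j := by
      have e2 : (n : ℝ) ^ (3 / 4 : ℝ) * (10 * ℓ) ^ 4 = 10000 * ((n : ℝ) ^ (3 / 4 : ℝ) * ℓ ^ 4) := by
        ring
      linarith
    have h7 : 520 * (j : ℝ) ≤ δ * ℓ * j := mul_le_mul_of_nonneg_right hi hj0.le
    have e3 : (n : ℝ) ^ (3 / 4 : ℝ) * (61440 * ℓ ^ 4) =
        61440 * ((n : ℝ) ^ (3 / 4 : ℝ) * ℓ ^ 4) := by ring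
    rw [e3]
    linarith
  have hT1 : 1 ≤ δ / 20 * (j * ℓ) * (1 / 3 * (1 / 4) ^ (i + 5)) := hone.trans hT
  refine ⟨⟨by norm_num, by omega, by omega, by positivity, rfl, ?_, by positivity, ?_⟩, ?_⟩
  · have e1 : ((n : ℝ) ^ (-(δ / 20))) ^ j = Real.exp (-(δ / 20 * (j * ℓ))) := by
      rw [Real.rpow_def_of_pos hn0, ← Real.exp_nat_mul]
      congr 1
      ring
    rw [e1, ← Real.exp_add]
    have e2 : δ / 20 * (j * ℓ) + -(δ / 20 * (j * ℓ)) = 0 := by ring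
    rw [e2, Real.exp_zero]
    exact hT1
  · have e1 : ((4 : ℕ) : ℝ) ^ (2 * (i + 5)) * (δ / 20 * (j * ℓ)) * (1 / 3 * (1 / 4) ^ (i + 5)) =
        (4 ^ (i + 5) * δ / 60) * (j * ℓ) := by
      push_cast
      rw [mul_comm 2 (i + 5), pow_mul, one_div_pow]
      field_simp
      norm_num
    rw [e1]
    have h1 : 1 ≤ (4 : ℝ) ^ (i + 5) * δ / 60 := by
      rw [hδd]
      unfold dl
      have e2 : (4 : ℝ) ^ (i + 5) * ((2 / 3) ^ i / 16) / 60 = (8 / 3) ^ i * (1024 / 960) := by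
        rw [pow_add]
        have : (8 / 3 : ℝ) ^ i = 4 ^ i * (2 / 3) ^ i := by
          rw [← mul_pow]
          norm_num
        rw [this]
        ring
      rw [e2]
      have h2 : (1 : ℝ) ≤ (8 / 3) ^ i := one_le_pow₀ (by norm_num)
      linarith
    have h2 : 0 ≤ (j : ℝ) * ℓ := by positivity
    nlinarith
  · set T : ℝ := δ / 20 * (j * ℓ) * (1 / 3 * (1 / 4) ^ (i + 5)) with hTd
    set P : ℝ := 4 ^ (4 * (i + 5)) with hPd
    have hP1 : 1 ≤ P := by rw [hPd]; exact one_le_pow₀ (by norm_num)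
    have hP2 : P ≤ 2 ^ 40 * ℓ ^ 14 := by
      have e1 : P = 2 ^ 40 * 256 ^ i := by
        rw [hPd, show 4 * (i + 5) = 4 * i + 20 by ring, pow_add, pow_mul]
        norm_num
        ring
      rw [e1]
      gcongr
    have h1 := hfail P T hP1 hP2 hT
    refine le_trans ?_ h1
    have e1 : (1 / 4 : ℝ) ^ (4 * (i + 5)) = 1 / P := by rw [hPd, one_div_pow]
    rw [e1]
    have e2 : (((4 * (i + 5) : ℕ) : ℝ) * Real.exp (-T) / (1 / P)) =
        ((4 * (i + 5) : ℕ) : ℝ) * Real.exp (-T) * P := by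
      field_simp
    rw [e2]
    have h3 : ((4 * (i + 5) : ℕ) : ℝ) ≤ P := by
      rw [hPd]
      have h4 : (4 * (i + 5)) < 4 ^ (4 * (i + 5)) := Nat.lt_pow_self (by norm_num)
      exact_mod_cast h4.le
    have h4 : (0 : ℝ) ≤ Real.exp (-T) * P := by positivity
    have h5 : (0 : ℝ) ≤ 2 * Real.exp (3 * Real.sqrt n) := by positivity
    refine mul_le_mul_of_nonneg_left ?_ h5
    rw [mul_assoc, mul_assoc]
    exact mul_le_mul_of_nonneg_right h3 h4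

end Run7.h107
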