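import Pool.Agent.Run7.h107.AGM

/-!
The induction over the rounds (helper107, MP_75608d_al).
-/

namespace Run7.h107
open RC14 RC852 TE852 Finset Filter Equiv

/-- the number of letters after `i` rounds -/
def la (a0 : ℕ) : ℕ → ℕ
  | 0 => a0
  | i + 1 => la a0 i + (1 + 4096 * (4 * (i + 5)) * 4)

lemma la_le' (a0 Q i : ℕ) (h1 : a0 ≤ Q) (h2 : 400000 ≤ Q) : la a0 i ≤ Q * (i + 1) ^ 2 := by
  induction i with
  | zero =>
    have : la a0 0 = a0 := by rw [la]
    rw [this]
    simpa using h1
  | succ i ih =>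
    rw [la]
    have h3 : Q * (i + 1 + 1) ^ 2 = Q * (i + 1) ^ 2 + Q * (2 * i + 3) := by ring
    have h4 : 400000 * (2 * i + 3) ≤ Q * (2 * i + 3) := Nat.mul_le_mul_right _ h2
    have h5 : 1 + 4096 * (4 * (i + 5)) * 4 ≤ 400000 * (2 * i + 3) := by
      have e1 : 1 + 4096 * (4 * (i + 5)) * 4 = 65536 * i + 327681 := by ring
      have e2 : 400000 * (2 * i + 3) = 800000 * i + 1200000 := by ring
      rw [e1, e2]
      have h6 : 65536 * i ≤ 800000 * i := Nat.mul_le_mul_right _ (by norm_num)
      exact Nat.add_le_add h6 (by norm_num)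
    rw [h3]
    exact Nat.add_le_add ih (h5.trans h4)

lemma la_le (a0 i : ℕ) : la a0 i ≤ (a0 + 400000) * (i + 1) ^ 2 :=
  la_le' a0 _ i (Nat.le_add_right _ _) (Nat.le_add_left _ _)

lemma la_ge (a0 i : ℕ) (h : 1 ≤ a0) : 1 ≤ la a0 i := by
  cases i with
  | zero =>
    rw [la]
    exact h
  | succ i =>
    rw [la]
    have : 1 ≤ 1 + 4096 * (4 * (i + 5)) * 4 := Nat.le_add_right _ _
    exact this.trans (Nat.le_add_left _ _)

lemma kap_mono {u0 u : ℝ} (h0 : 0 < u0) (h : u0 ≤ u) (h1 : u ≤ 1) : kap u0 ≤ kap u := by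
  have hu : 0 < u := h0.trans_le h
  have hl : Real.log u ≤ 0 := Real.log_nonpos hu.le h1
  have hll : Real.log u0 ≤ Real.log u := Real.log_le_log h0 h
  unfold kap
  rw [div_le_div_iff₀ (by linarith) (by linarith)]
  have h2 : 0 ≤ 4 * (2 - Real.log u) := by linarith
  calc u0 * (4 * (2 - Real.log u)) ≤ u * (4 * (2 - Real.log u)) :=
        mul_le_mul_of_nonneg_right h h2
    _ ≤ u * (4 * (2 - Real.log u0)) := by
        apply mul_le_mul_of_nonneg_left _ hu.le
        linarith

/-- the loss of one round -/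
lemma GAPN (a0 : ℕ) (ha0 : 1 ≤ a0) : ∃ K0 : ℝ, 1 ≤ K0 ∧ ∀ K : ℝ, K0 ≤ K → ∀ i : ℕ,
    Real.exp (-(K * ((i : ℝ) + 2) ^ 2)) ≤
      kap (dl i / 20000 / (2 * (la a0 i : ℝ) / Real.exp (-(K * ((i : ℝ) + 1) ^ 2)) + 1)) / 600 := by
  set G : ℝ := 14 + Real.log (a0 + 400000) with hG
  have hA0 : (0 : ℝ) < a0 + 400000 := by positivity
  have hlA : 0 ≤ Real.log ((a0 : ℝ) + 400000) := Real.log_nonneg (by
    have : (0 : ℝ) ≤ a0 := Nat.cast_nonneg _
    linarith)
  refine ⟨13 + 2 * G, by linarith, fun K hK i => ?_⟩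
  have hi0 : (0 : ℝ) ≤ i := Nat.cast_nonneg _
  have hK0 : 0 < K := by linarith
  set c : ℝ := Real.exp (-(K * ((i : ℝ) + 1) ^ 2)) with hc
  have hc0 : 0 < c := Real.exp_pos _
  have hc1 : c ≤ 1 := by
    rw [hc, Real.exp_le_one_iff]
    have : 0 ≤ K * ((i : ℝ) + 1) ^ 2 := by positivity
    linarith
  have hla1 : (1 : ℝ) ≤ la a0 i := by exact_mod_cast la_ge a0 i ha0
  set a : ℝ := (la a0 i : ℝ) with ha
  have hδ0 := dl_pos i
  have hδ1 := dl_le i
  set δ : ℝ := dl i with hδ
  set u : ℝ := δ / 20000 / (2 * a / c + 1) with hu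
  set u0 : ℝ := δ * c / (60000 * a) with hu0
  have hu00 : 0 < u0 := by positivity
  have h1 : u0 ≤ u := by
    rw [hu, hu0, div_div, div_le_div_iff₀ (by positivity) (by positivity)]
    have h2 : (1 : ℝ) ≤ a / c := by
      rw [le_div_iff₀ hc0]
      linarith
    have h3 : 2 * a / c + 1 ≤ 3 * (a / c) := by
      have : 2 * a / c = 2 * (a / c) := by ring
      rw [this]
      linarith
    calc δ * c * (20000 * (2 * a / c + 1)) ≤ δ * c * (20000 * (3 * (a / c))) := by gcongr
      _ = δ * (60000 * a) := by field_simp; ring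
  have h2 : u ≤ 1 := by
    rw [hu]
    have h3 : δ / 20000 ≤ 1 := by linarith
    have h4 : 1 ≤ 2 * a / c + 1 := by
      have : 0 ≤ 2 * a / c := by positivity
      linarith
    rw [div_le_one (by linarith)]
    linarith
  have h3 := kap_mono hu00 h1 h2
  refine le_trans ?_ (div_le_div_of_nonneg_right h3 (by norm_num))
  -- logarithms
  have hu01 : u0 ≤ 1 := h1.trans h2
  set y : ℝ := -Real.log u0 with hy
  have hy0 : 0 ≤ y := by
    have := Real.log_nonpos hu00.le hu01
    linarith
  have hkap : kap u0 / 600 = Real.exp (-(y + Real.log (2400 * (2 + y)))) := by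
    unfold kap
    have e1 : Real.exp (-(y + Real.log (2400 * (2 + y)))) = u0 / (2400 * (2 + y)) := by
      rw [neg_add, Real.exp_add, Real.exp_neg (Real.log _), Real.exp_log (by positivity), hy,
        neg_neg, Real.exp_log hu00]
      rfl
    rw [e1]
    have e2 : 2 - Real.log u0 = 2 + y := by rw [hy]; ring
    rw [e2]
    field_simp
    norm_num
  rw [hkap]
  apply Real.exp_le_exp.2
  -- the bound of `y`
  have hyb : y ≤ K * ((i : ℝ) + 1) ^ 2 + G * ((i : ℝ) + 1) := by
    have e1 : y = K * ((i : ℝ) + 1) ^ 2 + Real.log (60000 * a / δ) := by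
      rw [hy, hu0]
      have e2 : δ * c / (60000 * a) = c / (60000 * a / δ) := by field_simp
      rw [e2, Real.log_div hc0.ne' (by positivity), hc, Real.log_exp]
      ring
    rw [e1]
    have h4 : 60000 * a / δ ≤ Real.exp 14 * (((a0 : ℝ) + 400000) * Real.exp (i * 3)) := by
      have h5 : a ≤ (a0 + 400000) * ((i : ℝ) + 1) ^ 2 := by
        rw [ha]
        exact_mod_cast la_le a0 i
      have h6 : ((i : ℝ) + 1) ^ 2 ≤ Real.exp (i * 2) := by
        have h7 : (i : ℝ) + 1 ≤ Real.exp i := Real.add_one_le_exp _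
        calc ((i : ℝ) + 1) ^ 2 ≤ (Real.exp i) ^ 2 := pow_le_pow_left₀ (by positivity) h7 2
          _ = Real.exp (i * 2) := by
              rw [← Real.exp_nat_mul]
              congr 1
              push_cast
              ring
      have h7 : 1 / δ ≤ 16 * Real.exp i := by
        rw [hδ]
        unfold dl
        have e3 : (1 : ℝ) / ((2 / 3) ^ i / 16) = 16 * (3 / 2) ^ i := by
          have : (3 / 2 : ℝ) ^ i = 1 / (2 / 3) ^ i := by
            rw [← one_div_pow]
            norm_num
          rw [this]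
          field_simp
        rw [e3]
        have h8 : (3 / 2 : ℝ) ^ i ≤ Real.exp i := by
          have h9 : (3 / 2 : ℝ) ≤ Real.exp 1 := by linarith [Real.exp_one_gt_d9]
          calc (3 / 2 : ℝ) ^ i ≤ (Real.exp 1) ^ i := pow_le_pow_left₀ (by norm_num) h9 i
            _ = Real.exp i := by rw [← Real.exp_nat_mul, mul_one]
        linarith
      have h8 : (960000 : ℝ) ≤ Real.exp 14 := by
        have h9 : (2.7 : ℝ) ≤ Real.exp 1 := by linarith [Real.exp_one_gt_d9]
        calc (960000 : ℝ) ≤ 2.7 ^ 14 := by norm_num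
          _ ≤ (Real.exp 1) ^ 14 := pow_le_pow_left₀ (by norm_num) h9 14
          _ = Real.exp 14 := by
              rw [← Real.exp_nat_mul]
              norm_num
      have e4 : Real.exp ((i : ℝ) * 3) = Real.exp (i * 2) * Real.exp i := by
        rw [← Real.exp_add]
        congr 1
        ring
      calc 60000 * a / δ = 60000 * a * (1 / δ) := by ring
        _ ≤ 60000 * ((a0 + 400000) * Real.exp (i * 2)) * (16 * Real.exp i) := by
            have : a ≤ (a0 + 400000) * Real.exp (i * 2) :=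
              h5.trans (mul_le_mul_of_nonneg_left h6 hA0.le)
            gcongr
        _ = 960000 * (((a0 : ℝ) + 400000) * Real.exp (i * 3)) := by rw [e4]; ring
        _ ≤ _ := by gcongr
    have h5 := Real.log_le_log (by positivity) h4
    rw [Real.log_mul (Real.exp_pos _).ne' (by positivity), Real.log_exp,
      Real.log_mul hA0.ne' (Real.exp_pos _).ne', Real.log_exp] at h5
    nlinarith
  have hG1 : 14 ≤ G := by linarith
  have hlog : Real.log (2400 * (2 + y)) ≤ 10 + (2 + K + G) / 8 + 2 * i := by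
    have h4 : 2400 * (2 + y) ≤ 2400 * ((2 + K + G) * ((i : ℝ) + 1) ^ 2) := by
      have hi1 : (i : ℝ) + 1 ≤ ((i : ℝ) + 1) ^ 2 := by nlinarith
      have hi2 : 1 ≤ ((i : ℝ) + 1) ^ 2 := by nlinarith
      have hi3 : G * ((i : ℝ) + 1) ≤ G * ((i : ℝ) + 1) ^ 2 :=
        mul_le_mul_of_nonneg_left hi1 (by linarith)
      have : 2 + y ≤ (2 + K + G) * ((i : ℝ) + 1) ^ 2 := by
        have e : (2 + K + G) * ((i : ℝ) + 1) ^ 2 = 2 * ((i : ℝ) + 1) ^ 2 +
          K * ((i : ℝ) + 1) ^ 2 + G * ((i : ℝ) + 1) ^ 2 := by ring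
        rw [e]
        linarith
      linarith
    have h5 := Real.log_le_log (by positivity) h4
    have h6 : Real.log (2400 * ((2 + K + G) * ((i : ℝ) + 1) ^ 2)) =
        Real.log 2400 + (Real.log (2 + K + G) + 2 * Real.log ((i : ℝ) + 1)) := by
      rw [Real.log_mul (by norm_num) (by positivity), Real.log_mul (by positivity) (by positivity),
        Real.log_pow]
      norm_num
    have h7 : Real.log 2400 ≤ 8 := by
      have h9 : (2.7 : ℝ) ≤ Real.exp 1 := by linarith [Real.exp_one_gt_d9]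
      rw [Real.log_le_iff_le_exp (by norm_num)]
      calc (2400 : ℝ) ≤ 2.7 ^ 8 := by norm_num
        _ ≤ (Real.exp 1) ^ 8 := pow_le_pow_left₀ (by norm_num) h9 8
        _ = Real.exp 8 := by
            rw [← Real.exp_nat_mul]
            norm_num
    have h8 : Real.log (2 + K + G) ≤ (2 + K + G) / 8 + 2 := by
      have h9 := Real.log_le_sub_one_of_pos (show (0 : ℝ) < (2 + K + G) / 8 by positivity)
      rw [Real.log_div (by positivity) (by norm_num)] at h9
      have h10 : Real.log 8 ≤ 3 := by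
        have e : Real.log 8 = 3 * Real.log 2 := by
          rw [show (8 : ℝ) = 2 ^ 3 by norm_num, Real.log_pow]
          norm_num
        have := Real.log_two_lt_d9
        linarith
      linarith
    have h9 : Real.log ((i : ℝ) + 1) ≤ i := by
      have := Real.log_le_sub_one_of_pos (show (0 : ℝ) < (i : ℝ) + 1 by positivity)
      linarith
    linarith
  nlinarith

/-- the gap on the low levels after `i` rounds, uniformly -/
theorem INDU : ∃ a0 : ℕ, 1 ≤ a0 ∧ ∃ K : ℝ, 1 ≤ K ∧ ∃ B : ℝ, 0 ≤ B ∧ ∀ᶠ n : ℕ in atTop,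
    ∀ i : ℕ, 520 ≤ dl i * Real.log n →
      (Nat.card {x : Fin (la a0 i) → Alt n //
          ¬ Good1 n (Rr (sl i) n) (Real.exp (-(K * ((i : ℝ) + 1) ^ 2))) x} : ℝ) ≤
        (B + 2 * i) / (n : ℝ) * (Fintype.card (Alt n) : ℝ) ^ (la a0 i) := by
  obtain ⟨a0, ha0, c, hc, B, hB, hev⟩ := TEMAIN (13 / 16) (by norm_num)
  obtain ⟨K0, hK01, hK0⟩ := GAPN a0 ha0
  set K : ℝ := max K0 (-Real.log c) with hK
  have hKK0 : K0 ≤ K := le_max_left _ _
  have hKc : -Real.log c ≤ K := le_max_right _ _
  refine ⟨a0, ha0, K, by linarith, B, hB, ?_⟩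
  have hn64 : ∀ᶠ n : ℕ in atTop, (2 : ℝ) ^ 64 ≤ (n : ℝ) := by
    filter_upwards [eventually_ge_atTop (2 ^ 64)] with n hn
    exact_mod_cast hn
  filter_upwards [hev, NUMZ, hn64] with n h1 h2 h3
  have hn0 : (0 : ℝ) < n := lt_of_lt_of_le (by positivity) h3
  have hn4 : (4 : ℝ) ≤ n := le_trans (by norm_num) h3
  have hn4' : 4 ≤ n := by exact_mod_cast hn4
  have hn1 : (1 : ℝ) ≤ n := by linarith
  intro i
  induction i with
  | zero =>
    intro _
    rw [sl_zero]
    have h4 := card_mono (fun x : Fin a0 → Alt n =>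
      ¬ Good1 n (Rr (13 / 16) n) (Real.exp (-(K * (((0 : ℕ) : ℝ) + 1) ^ 2))) x)
      (fun x => ¬ Good1 n (Rr (13 / 16) n) c x) (by
        intro x hx hcon
        apply hx
        intro j hj1 hj2 v hv
        refine le_trans ?_ (hcon j hj1 hj2 v hv)
        refine mul_le_mul_of_nonneg_right ?_ (by positivity)
        have h5 : Real.exp (-(K * (((0 : ℕ) : ℝ) + 1) ^ 2)) = Real.exp (-K) := by
          congr 1
          push_cast
          ring
        rw [h5]
        calc Real.exp (-K) ≤ Real.exp (Real.log c) := Real.exp_le_exp.2 (by linarith)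
          _ = c := Real.exp_log hc)
    have h5 : (Nat.card {x : Fin a0 → Alt n //
        ¬ Good1 n (Rr (13 / 16) n) (Real.exp (-(K * (((0 : ℕ) : ℝ) + 1) ^ 2))) x} : ℝ) ≤
        (Nat.card {x : Fin a0 → Alt n // ¬ Good1 n (Rr (13 / 16) n) c x} : ℝ) := by
      exact_mod_cast h4
    refine le_trans h5 (h1.trans (le_of_eq ?_))
    push_cast
    have : la a0 0 = a0 := by rw [la]
    rw [this]
    ring
  | succ i ih =>
    intro hD
    have hl0 : 0 < Real.log n := Real.log_pos (by linarith)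
    have hDi : 520 ≤ dl i * Real.log n := by
      refine hD.trans ?_
      exact mul_le_mul_of_nonneg_right (dl_mono (Nat.le_succ i)) hl0.le
    have ih' := ih hDi
    have hs0 : 0 ≤ sl i := by
      have := sl_ge i
      linarith
    have hs1 : sl i + 3 * dl i ≤ 1 := by
      unfold sl
      linarith
    have hr2 : Rr (sl i) n + 2 ≤ n := by
      have h4 : (Rr (sl i) n : ℝ) ≤ (n : ℝ) ^ (sl i) := Nat.floor_le (by positivity)
      have h5 : (n : ℝ) ^ (sl i) ≤ n / 2 := by
        have e1 : (n : ℝ) ^ (sl i) = n * Real.exp (-(3 * (dl i * Real.log n))) := by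
          unfold sl
          rw [Real.rpow_def_of_pos hn0]
          have : Real.log n * (1 - 3 * dl i) = Real.log n + -(3 * (dl i * Real.log n)) := by ring
          rw [this, Real.exp_add, Real.exp_log hn0]
        rw [e1]
        have h6 : Real.exp (-(3 * (dl i * Real.log n))) ≤ 1 / 2 := by
          rw [Real.exp_neg, ← one_div]
          apply one_div_le_one_div_of_le (by norm_num)
          have := Real.add_one_le_exp (3 * (dl i * Real.log n))
          linarith
        calc (n : ℝ) * Real.exp (-(3 * (dl i * Real.log n))) ≤ n * (1 / 2) := by gcongr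
          _ = n / 2 := by ring
      have h6 : (Rr (sl i) n : ℝ) + 2 ≤ n := by linarith
      exact_mod_cast h6
    set c' : ℝ := Real.exp (-(K * ((i : ℝ) + 1) ^ 2)) with hc'
    have hc'0 : 0 < c' := Real.exp_pos _
    have ha1 := la_ge a0 i ha0
    set u : ℝ := dl i / 20000 / (2 * (la a0 i : ℝ) / c' + 1) with hu
    have hδ0 := dl_pos i
    have hδ1 := dl_le i
    have hu0 : 0 < u := by rw [hu]; positivity
    have hu1 : u ≤ 1 := by
      rw [hu, div_le_one (by positivity)]
      have h4 : 0 ≤ 2 * (la a0 i : ℝ) / c' := by positivity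
      linarith
    obtain ⟨hk0, hk1, hk2⟩ := kap_spec u hu0 hu1
    have hgap := hK0 K hKK0 i
    rw [← hc', ← hu] at hgap
    have hround := fun x hx => ROUNDu (dl i) (sl i) hδ0 hδ1 hs0 hs1 n h3 hDi hr2 (la a0 i) ha1 c'
      (kap u) hc'0 hk0 hk1 hk2 (i + 5) (by omega) (fun j hj1 _ => h2 i hDi j hj1) x hx
    rw [← sl_succ] at hround
    set A : ℝ := (Fintype.card (Alt n) : ℝ) with hA
    have hA0 : 0 < A := by rw [hA]; exact_mod_cast Fintype.card_pos
    have hexp : Real.exp (-(K * (((i + 1 : ℕ) : ℝ) + 1) ^ 2)) ≤ c' := by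
      clear hround
      rw [hc']
      apply Real.exp_le_exp.2
      push_cast
      have hK1 : 0 ≤ K := by linarith
      have hi0 : (0 : ℝ) ≤ i := Nat.cast_nonneg _
      have h7 : ((i : ℝ) + 1) ^ 2 ≤ ((i : ℝ) + 1 + 1) ^ 2 :=
        pow_le_pow_left₀ (by positivity) (by linarith) 2
      have h8 := mul_le_mul_of_nonneg_left h7 hK1
      linarith
    set w : ℕ := 1 + 4096 * (4 * (i + 5)) * 4 with hw
    have hlaw : la a0 (i + 1) = la a0 i + w := by rw [hw, la]
    set c'' : ℝ := Real.exp (-(K * (((i + 1 : ℕ) : ℝ) + 1) ^ 2)) with hc''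
    have hc''1 : c'' ≤ min c' (kap u / 600) := by
      refine le_min ?_ ?_
      · rw [hc'']
        exact hexp
      · refine le_trans (le_of_eq ?_) hgap
        rw [hc'']
        congr 1
        push_cast
        ring
    rw [hlaw]
    have hcardA : (Nat.card {x : Fin (la a0 i + w) → Alt n //
        ¬ Good1 n (Rr (sl (i + 1)) n) c'' x} : ℝ) =
        (Nat.card {p : (Fin (la a0 i) → Alt n) × (Fin w → Alt n) //
          ¬ Good1 n (Rr (sl (i + 1)) n) c'' (Fin.append p.1 p.2)} : ℝ) :=
      RX.card_append (fun x : Fin (la a0 i + w) → Alt n => ¬ Good1 n (Rr (sl (i + 1)) n) c'' x)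
    rw [hcardA]
    refine (card_prod_bound (fun x : Fin (la a0 i) → Alt n => Good1 n (Rr (sl i) n) c' x)
      (fun x z => ¬ Good1 n (Rr (sl (i + 1)) n) c'' (Fin.append x z)) (2 / (n : ℝ))
      (by positivity) ?_).trans ?_
    · intro x hx
      refine le_trans (Nat.cast_le.2 ?_) (hround x hx)
      refine card_mono (fun z : Fin w → Alt n => ¬ Good1 n (Rr (sl (i + 1)) n) c''
        (Fin.append x z)) (fun z => ¬ Good1 n (Rr (sl (i + 1)) n) (min c' (kap u / 600))
        (Fin.append x z)) ?_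
      intro z hz hcon
      apply hz
      intro j hj1 hj2 v hv
      refine le_trans ?_ (hcon j hj1 hj2 v hv)
      exact mul_le_mul_of_nonneg_right hc''1 (by positivity)
    · rw [Fintype.card_fun, Fintype.card_fun, Fintype.card_fin, Fintype.card_fin]
      push_cast
      rw [← hA]
      calc _ ≤ ((B + 2 * i) / (n : ℝ) * A ^ (la a0 i)) * A ^ w +
            2 / (n : ℝ) * A ^ (la a0 i) * A ^ w := by gcongr
        _ = (B + 2 * ((i : ℝ) + 1)) / (n : ℝ) * A ^ (la a0 i + w) := by
            rw [pow_add]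
            ring

end Run7.h107
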