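import Pool.Agent.Run7.h107.AGN
import Pool.Agent.R236.ExcD

/-!
The parameters of the final step, uniformly in the exponent (helper107, MP_75608d_al).
-/

namespace Run7.h107
open RC14 RC852 TE852 Finset Filter Equiv Pool.Agent.R236.Exc

/-- the numerical conditions, for a given `u` -/
theorem paramsU (n r : ℕ) (u : ℝ) (hu : 99 ≤ u) (hn : 1000 ≤ n) (hl : 8 ≤ Real.log n)
    (hY1 : 2 * C0 * Real.log n ≤ n / u ^ 2) (hY2 : 8 * C0 ≤ n / u ^ 2) (hr : r = ⌊(n : ℝ) / u⌋₊) :
    ∃ (N m : ℕ), 100 ≤ N ∧ 2 * (12096 * N) ≤ n ∧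
      (∀ j, N * j ≤ n → j ≤ r) ∧ r + 2 ≤ n ∧
      m ≤ n / 2 ∧ m ≤ r ∧ m + 2 ≤ n ∧
      (Fintype.card (Tup m n) : ℝ) ≤ Real.exp (3 * (n / u ^ 2 / C0)) ∧
      2 * Real.exp (n / u ^ 2 / C0) ≤ ((n / 2).descFactorial m : ℝ) ∧
      n / u ^ 2 / C0 ≤ 1 / (2 * 336 * 12096 * (N : ℝ) ^ 2) * n := by
  have hnr : (1000 : ℝ) ≤ n := by exact_mod_cast hn
  have hn0 : (0 : ℝ) < n := by linarith
  have hC0 : (0 : ℝ) < C0 := by norm_num [C0]
  have hC1 : (8 : ℝ) ≤ C0 := by norm_num [C0]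
  have hC2 : (72576 : ℝ) ≤ C0 := by norm_num [C0]
  have hu0 : 0 < u := by linarith
  set s : ℝ := n / u with hs
  set Y : ℝ := n / u ^ 2 with hY
  have hY0 : 0 < Y := by positivity
  have hus : u * s = n := by
    rw [hs]
    field_simp
  have hYu : Y * u ^ 2 = n := by
    rw [hY]
    field_simp
  have hYs : Y * u = s := by
    rw [hY, hs]
    field_simp
  have hb : 4 * Y ≤ s := by
    rw [← hYs, mul_comm]
    exact mul_le_mul_of_nonneg_left (by linarith) hY0.le
  have hc : 4 * s ≤ n := by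
    rw [← hus]
    exact mul_le_mul_of_nonneg_right (by linarith) (by positivity)
  have hs4 : 4 ≤ s := by linarith
  have he : 24192 * 3 * u ≤ n := by
    have h1 : 24192 * 3 * u ≤ Y * u := mul_le_mul_of_nonneg_right (by linarith) hu0.le
    linarith
  have hr1 : (r : ℝ) ≤ s := by
    rw [hr]
    exact Nat.floor_le (by positivity)
  have hr2 : s - 1 < r := by
    have := Nat.lt_floor_add_one s
    rw [hr]
    linarith
  have hr3 : s / 2 ≤ r := by linarith
  have hrpos : (0 : ℝ) < r := by linarith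
  have hrpos' : 0 < r := by exact_mod_cast hrpos
  set N : ℕ := n / r + 1 with hN
  have hdiv : ((n / r : ℕ) : ℝ) ≤ n / r := Nat.cast_div_le
  have hN3 : (N : ℝ) ≤ 3 * u := by
    have h1 : (n : ℝ) / r ≤ 2 * u := by
      rw [div_le_iff₀ hrpos, ← hus]
      nlinarith
    rw [hN]
    push_cast
    linarith
  have hN100 : 100 ≤ N := by
    have h1 : 99 ≤ n / r := by
      rw [Nat.le_div_iff_mul_le hrpos']
      have : ((99 * r : ℕ) : ℝ) ≤ n := by
        push_cast
        calc (99 : ℝ) * r ≤ u * s := by gcongr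
          _ = n := hus
      exact_mod_cast this
    omega
  set X : ℝ := Y / C0 with hX
  have hX8 : 8 ≤ X := by
    rw [hX, le_div_iff₀ hC0]
    linarith
  set m : ℕ := ⌈(2 * X + 2) / Real.log n⌉₊ with hm
  have hl0 : 0 < Real.log n := by linarith
  have hm1 : (2 * X + 2) / Real.log n ≤ m := Nat.le_ceil _
  have hm2 : (m : ℝ) ≤ (2 * X + 2) / Real.log n + 1 := by
    have := Nat.ceil_lt_add_one (show 0 ≤ (2 * X + 2) / Real.log n by positivity)
    linarith
  have hXY : X ≤ Y / 8 := by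
    rw [hX]
    gcongr
  have hmr' : (m : ℝ) ≤ X := by
    have h1 : (2 * X + 2) / Real.log n ≤ (2 * X + 2) / 8 := by
      apply div_le_div_of_nonneg_left (by linarith) (by norm_num) hl
    linarith
  have hmr : (m : ℝ) ≤ r := by linarith
  have hmr2 : m ≤ r := by exact_mod_cast hmr
  have hr4 : (r : ℝ) * 4 ≤ n := by linarith
  have hr4' : r * 4 ≤ n := by exact_mod_cast hr4
  have hmlog : 2 * X + 2 ≤ m * Real.log n := by
    rwa [div_le_iff₀ hl0] at hm1
  have hmlog2 : m * Real.log n ≤ 3 * X := by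
    have : (m : ℝ) * Real.log n ≤ ((2 * X + 2) / Real.log n + 1) * Real.log n := by gcongr
    have e : ((2 * X + 2) / Real.log n + 1) * Real.log n = 2 * X + 2 + Real.log n := by
      field_simp
    rw [e] at this
    have h2 : Real.log n + 2 ≤ X := by
      rw [hX, le_div_iff₀ hC0]
      have h4 : 0 ≤ C0 * (Real.log n - 2) := mul_nonneg hC0.le (by linarith)
      linarith
    linarith
  refine ⟨N, m, hN100, ?_, ?_, by omega, by omega, hmr2, by omega,
    ?_, ?_, ?_⟩
  · have : ((2 * (12096 * N) : ℕ) : ℝ) ≤ n := by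
      push_cast
      linarith
    exact_mod_cast this
  · intro j hj
    by_contra hcon
    push Not at hcon
    have h1 : N * (r + 1) ≤ N * j := Nat.mul_le_mul_left _ hcon
    have h2 : n < (n / r + 1) * r := by
      have := Nat.lt_div_mul_add hrpos' (a := n)
      nlinarith
    have h3 : N * (r + 1) = N * r + N := by ring
    rw [← hN] at h2
    omega
  · have h1 : Fintype.card (Tup m n) ≤ n ^ m := by
      have : Fintype.card (Tup m n) = n.descFactorial m := by
        simp only [Tup, Fintype.card_embedding_eq, Fintype.card_fin]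
      rw [this]
      exact Nat.descFactorial_le_pow n m
    calc (Fintype.card (Tup m n) : ℝ) ≤ (n : ℝ) ^ m := by exact_mod_cast h1
      _ = Real.exp (m * Real.log n) := by
          rw [Real.exp_nat_mul, Real.exp_log hn0]
      _ ≤ _ := Real.exp_le_exp.mpr hmlog2
  · have h1 : (n / 2 + 1 - m) ^ m ≤ (n / 2).descFactorial m := Nat.pow_sub_le_descFactorial _ _
    have h2 : n ≤ 4 * (n / 2 + 1 - m) := by omega
    have h3' : (n : ℝ) / 4 ≤ ((n / 2 + 1 - m : ℕ) : ℝ) := by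
      rw [div_le_iff₀ (by norm_num)]
      have : (n : ℝ) ≤ ((4 * (n / 2 + 1 - m) : ℕ) : ℝ) := by exact_mod_cast h2
      push_cast at this ⊢
      linarith
    have hlog4 : Real.log n / 2 ≤ Real.log (n / 4) := by
      rw [Real.log_div hn0.ne' (by norm_num)]
      have : Real.log 4 ≤ 3 := by
        have := Real.log_le_sub_one_of_pos (show (0 : ℝ) < 4 by norm_num)
        linarith
      linarith
    have hlog2 : Real.log 2 ≤ 1 := by
      have := Real.log_le_sub_one_of_pos (show (0 : ℝ) < 2 by norm_num)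
      linarith
    calc 2 * Real.exp X = Real.exp (Real.log 2 + X) := by
          rw [Real.exp_add, Real.exp_log (by norm_num)]
      _ ≤ Real.exp (m * Real.log (n / 4)) := by
          apply Real.exp_le_exp.mpr
          have : (m : ℝ) * (Real.log n / 2) ≤ m * Real.log (n / 4) := by gcongr
          linarith
      _ = ((n : ℝ) / 4) ^ m := by
          rw [Real.exp_nat_mul, Real.exp_log (by positivity)]
      _ ≤ ((n / 2 + 1 - m : ℕ) : ℝ) ^ m := by gcongr
      _ ≤ _ := by exact_mod_cast h1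
  · have hN0 : (0 : ℝ) < N := by
      have : (100 : ℝ) ≤ N := by exact_mod_cast hN100
      linarith
    rw [div_mul_eq_mul_div, one_mul, le_div_iff₀ (by positivity), hX, div_mul_eq_mul_div,
      div_le_iff₀ hC0]
    have h1 : (N : ℝ) ^ 2 ≤ 9 * u ^ 2 := by
      have := pow_le_pow_left₀ hN0.le hN3 2
      nlinarith
    have h2 : Y * (2 * 336 * 12096 * (N : ℝ) ^ 2) ≤ Y * (2 * 336 * 12096 * (9 * u ^ 2)) := by
      gcongr
    have h3 : Y * (2 * 336 * 12096 * (9 * u ^ 2)) = Y * u ^ 2 * C0 := by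
      rw [C0]
      ring
    rw [h3, hYu] at h2
    exact h2

/-- few exceptional eigenvalues after `i ≥ 4` rounds -/
theorem GOODU : ∃ a0 : ℕ, 1 ≤ a0 ∧ ∃ K : ℝ, 1 ≤ K ∧ ∃ B : ℝ, 0 ≤ B ∧ ∀ᶠ n : ℕ in atTop,
    ∀ i : ℕ, 4 ≤ i → 520 ≤ dl i * Real.log n →
      (Nat.card {x : Fin (la a0 i) → Alt n //
          ¬ FewExceptional n (Real.exp (-(K * ((i : ℝ) + 1) ^ 2)) / (100 * (la a0 i : ℕ)))
            (Real.exp (-((n : ℝ) ^ (1 - 6 * dl i) / C0 / 2)) * Real.exp 1) x} : ℝ) ≤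
        (B + 2 * i) / (n : ℝ) * (Fintype.card (Alt n) : ℝ) ^ (la a0 i) := by
  obtain ⟨a0, ha0, K, hK, B, hB, hev⟩ := INDU
  refine ⟨a0, ha0, K, hK, B, hB, ?_⟩
  have hC0 : (0 : ℝ) < C0 := by norm_num [C0]
  filter_upwards [hev, eventually_ge_atTop 1000, ev_loggt 8,
    ev_log 0 (1 / 2) (2 * C0) (by norm_num), ev_const (1 / 2) (8 * C0) (by norm_num)]
    with n h1 hn hl hlog hcst i hi4 hi
  rw [Real.rpow_zero, mul_one] at hlog
  have hn0 : (0 : ℝ) < n := by
    have : (1000 : ℝ) ≤ n := by exact_mod_cast hn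
    linarith
  have hn1 : (1 : ℝ) ≤ n := by
    have : (1000 : ℝ) ≤ n := by exact_mod_cast hn
    linarith
  refine le_trans (Nat.cast_le.2 ?_) (h1 i hi)
  refine card_mono (fun x : Fin (la a0 i) → Alt n =>
    ¬ FewExceptional n (Real.exp (-(K * ((i : ℝ) + 1) ^ 2)) / (100 * (la a0 i : ℕ)))
            (Real.exp (-((n : ℝ) ^ (1 - 6 * dl i) / C0 / 2)) * Real.exp 1) x)
    (fun x => ¬ Good1 n (Rr (sl i) n) (Real.exp (-(K * ((i : ℝ) + 1) ^ 2))) x) ?_
  intro x hx hgood
  apply hx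
  have hδ0 := dl_pos i
  have hδ1 : dl i ≤ 1 / 16 := dl_le i
  set δ : ℝ := dl i with hδ
  set u : ℝ := (n : ℝ) ^ (3 * δ) with hu
  have hu0 : 0 < u := by positivity
  have hu99 : 99 ≤ u := by
    rw [hu, Real.rpow_def_of_pos hn0]
    have h2 := Real.add_one_le_exp (Real.log n * (3 * δ))
    have h3 : Real.log n * (3 * δ) = 3 * (δ * Real.log n) := by ring
    rw [h3] at h2 ⊢
    linarith
  have hYe : (n : ℝ) ^ (1 - 6 * δ) = n / u ^ 2 := by
    rw [hu, ← Real.rpow_natCast, ← Real.rpow_mul hn0.le, Real.rpow_sub hn0, Real.rpow_one]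
    congr 2
    push_cast
    ring
  have hse : (n : ℝ) ^ sl i = n / u := by
    unfold sl
    rw [← hδ, hu, Real.rpow_sub hn0, Real.rpow_one]
  have hYhalf : (n : ℝ) ^ (1 / 2 : ℝ) ≤ n / u ^ 2 := by
    rw [← hYe]
    exact Real.rpow_le_rpow_of_exponent_le hn1 (by linarith)
  obtain ⟨N, m, hN, hNn, hNj, hr, hm, hmr, hmn, hT, hF, hXN⟩ :=
    paramsU n (Rr (sl i) n) u hu99 hn hl (hlog.trans hYhalf) (hcst.trans hYhalf)
      (by unfold Rr; rw [hse])
  have hc1 : Real.exp (-(K * ((i : ℝ) + 1) ^ 2)) ≤ 1 := by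
    rw [Real.exp_le_one_iff]
    have : 0 ≤ K * ((i : ℝ) + 1) ^ 2 := by positivity
    linarith
  have hX1 : 1 ≤ (n : ℝ) / u ^ 2 / C0 := by
    rw [le_div_iff₀ hC0]
    have := hcst.trans hYhalf
    linarith
  exact few_of_good n (la a0 i) (la_ge a0 i ha0) (Rr (sl i) n) (Real.exp (-(K * ((i : ℝ) + 1) ^ 2)))
    (Real.exp (-((n : ℝ) ^ (1 - 6 * δ) / C0 / 2)) * Real.exp 1) (Real.exp_pos _) hc1 x hgood
    N m (n / u ^ 2 / C0) hX1 hN hNn hn hNj hr hm hmr hmn hT hF (by rw [hYe]) hXN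

end Run7.h107
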