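import Pool.Agent.Run7.h107.AGO
import Pool.Agent.Run7.h107.AGG

/-!
The final step, uniformly in the exponent (helper107, MP_75608d_al).
-/

namespace Run7.h107
open RC14 RC852 TE852 Finset Filter Equiv Pool.Agent.R236.Exc

/-- `(log log n)² = o(log n)` -/
lemma evLL (Q ε : ℝ) (hε : 0 < ε) : ∀ᶠ n : ℕ in atTop,
    Q * (Real.log (Real.log n)) ^ 2 ≤ ε * Real.log n := by
  filter_upwards [ev_loggt ((16 * Q / ε) ^ 2), ev_loggt 1] with n h1 h2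
  set ℓ : ℝ := Real.log n with hℓ
  have hℓ0 : 0 < ℓ := by linarith
  have hL0 : 0 ≤ Real.log ℓ := Real.log_nonneg h2
  have h3 : Real.log ℓ ≤ ℓ ^ (1 / 4 : ℝ) / (1 / 4) := Real.log_le_rpow_div hℓ0.le (by norm_num)
  have h4 : (Real.log ℓ) ^ 2 ≤ 16 * Real.sqrt ℓ := by
    calc (Real.log ℓ) ^ 2 ≤ (ℓ ^ (1 / 4 : ℝ) / (1 / 4)) ^ 2 := pow_le_pow_left₀ hL0 h3 2
      _ = 16 * (ℓ ^ (1 / 4 : ℝ)) ^ 2 := by ring
      _ = 16 * Real.sqrt ℓ := by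
          rw [← Real.rpow_natCast, ← Real.rpow_mul hℓ0.le, Real.sqrt_eq_rpow]
          norm_num
  by_cases hQ : Q ≤ 0
  · have h5 : Q * (Real.log ℓ) ^ 2 ≤ 0 := mul_nonpos_of_nonpos_of_nonneg hQ (by positivity)
    have h6 : 0 ≤ ε * ℓ := by positivity
    linarith
  push Not at hQ
  have h5 : 16 * Q / ε ≤ Real.sqrt ℓ := Real.le_sqrt_of_sq_le h1
  rw [div_le_iff₀ hε] at h5
  have h6 : Real.sqrt ℓ * Real.sqrt ℓ = ℓ := Real.mul_self_sqrt hℓ0.le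
  have h7 : 0 ≤ Real.sqrt ℓ := Real.sqrt_nonneg _
  calc Q * (Real.log ℓ) ^ 2 ≤ Q * (16 * Real.sqrt ℓ) := by gcongr
    _ = (16 * Q) * Real.sqrt ℓ := by ring
    _ ≤ (Real.sqrt ℓ * ε) * Real.sqrt ℓ := by gcongr
    _ = ε * (Real.sqrt ℓ * Real.sqrt ℓ) := by ring
    _ = ε * ℓ := by rw [h6]

lemma ev_loglog (C : ℝ) : ∀ᶠ n : ℕ in atTop, C ≤ Real.log (Real.log n) :=
  (Real.tendsto_log_atTop.comp (Real.tendsto_log_atTop.comp
    tendsto_natCast_atTop_atTop)).eventually_ge_atTop C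

/-- the number of rounds is at most `3 log log n` -/
lemma i_le (i : ℕ) (ℓ : ℝ) (hℓ : 1 ≤ dl i * ℓ) (hL : 2 ≤ Real.log ℓ) :
    (i : ℝ) + 1 ≤ 3 * Real.log ℓ := by
  have hl0 : 0 < ℓ := by
    by_contra hcon
    push Not at hcon
    have := mul_nonpos_of_nonneg_of_nonpos (dl_pos i).le hcon
    linarith
  have h1 : ((3 / 2 : ℝ)) ^ i ≤ ℓ := by
    have h2 : (2 / 3 : ℝ) ^ i * (3 / 2) ^ i = 1 := by
      rw [← mul_pow]
      norm_num
    unfold dl at hℓ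
    have h3 : (0 : ℝ) < (3 / 2) ^ i := by positivity
    have h4 : (3 / 2 : ℝ) ^ i * 1 ≤ (3 / 2) ^ i * ((2 / 3) ^ i / 16 * ℓ) :=
      mul_le_mul_of_nonneg_left hℓ h3.le
    have h5 : (3 / 2 : ℝ) ^ i * ((2 / 3) ^ i / 16 * ℓ) = ((2 / 3 : ℝ) ^ i * (3 / 2) ^ i) * (ℓ / 16) := by
      ring
    rw [h5, h2] at h4
    linarith
  have h2 := Real.log_le_log (by positivity) h1
  rw [Real.log_pow] at h2
  have h3 : (2 / 5 : ℝ) ≤ Real.log (3 / 2) := by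
    have h4 : Real.log (3 / 2) = -Real.log (2 / 3) := by
      rw [← Real.log_inv]
      norm_num
    have h5 : Real.exp (2 / 5) ≤ 3 / 2 := by
      have h6 : Real.exp (2 / 5) ^ 5 ≤ (3 / 2 : ℝ) ^ 5 := by
        rw [← Real.exp_nat_mul]
        have h7 : ((5 : ℕ) : ℝ) * (2 / 5) = ((2 : ℕ) : ℝ) * 1 := by norm_num
        rw [h7, Real.exp_nat_mul]
        have h8 := Real.exp_one_lt_d9
        calc (Real.exp 1) ^ 2 ≤ (2.7182818286 : ℝ) ^ 2 :=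
              pow_le_pow_left₀ (Real.exp_pos _).le h8.le 2
          _ ≤ (3 / 2) ^ 5 := by norm_num
      exact le_of_pow_le_pow_left₀ (by norm_num) (by norm_num) h6
    rw [Real.le_log_iff_exp_le (by norm_num)]
    exact h5
  have h4 : (i : ℝ) * (2 / 5) ≤ i * Real.log (3 / 2) :=
    mul_le_mul_of_nonneg_left h3 (Nat.cast_nonneg _)
  linarith

/-- the number of classes in the last step -/
noncomputable def nP (a0 i n : ℕ) : ℕ :=
  ⌈6 * dl i * Real.log n⌉₊ + ⌈Real.log (Real.log n)⌉₊ + (a0 + 7) * (i + 1) ^ 2 + 22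

/-- bounds of `nP` -/
lemma nP_bounds (a0 : ℕ) : ∀ᶠ n : ℕ in atTop, ∀ i : ℕ, 520 ≤ dl i * Real.log n →
    6 * dl i * Real.log n + Real.log (Real.log n) + 22 ≤ nP a0 i n ∧
    (nP a0 i n : ℝ) ≤ 6 * dl i * Real.log n +
      10 * ((a0 : ℝ) + 7) * (Real.log (Real.log n)) ^ 2 := by
  filter_upwards [ev_loglog 4] with n hL i hi
  set ℓ : ℝ := Real.log n with hℓ
  set L : ℝ := Real.log ℓ with hLd
  have hiL := i_le i ℓ (by linarith) (by linarith)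
  have e1 : (nP a0 i n : ℝ) = (⌈6 * dl i * ℓ⌉₊ : ℝ) + (⌈L⌉₊ : ℝ) +
      ((a0 : ℝ) + 7) * ((i : ℝ) + 1) ^ 2 + 22 := by
    unfold nP
    push_cast
    rfl
  have hpos : 0 ≤ 6 * dl i * ℓ := by linarith
  have h1 : 6 * dl i * ℓ ≤ (⌈6 * dl i * ℓ⌉₊ : ℝ) := Nat.le_ceil _
  have h2 : L ≤ (⌈L⌉₊ : ℝ) := Nat.le_ceil _
  have h3 : (⌈6 * dl i * ℓ⌉₊ : ℝ) ≤ 6 * dl i * ℓ + 1 := (Nat.ceil_lt_add_one hpos).le
  have h4 : (⌈L⌉₊ : ℝ) ≤ L + 1 := (Nat.ceil_lt_add_one (by linarith)).le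
  have ha : (0 : ℝ) ≤ a0 := Nat.cast_nonneg _
  have hi0 : (0 : ℝ) ≤ i := Nat.cast_nonneg _
  rw [e1]
  constructor
  · have : 0 ≤ ((a0 : ℝ) + 7) * ((i : ℝ) + 1) ^ 2 := by positivity
    linarith
  · have h5 : ((i : ℝ) + 1) ^ 2 ≤ (3 * L) ^ 2 := pow_le_pow_left₀ (by positivity) hiL 2
    have h6 : ((a0 : ℝ) + 7) * ((i : ℝ) + 1) ^ 2 ≤ ((a0 : ℝ) + 7) * (3 * L) ^ 2 := by gcongr
    have h7 : L + 24 ≤ ((a0 : ℝ) + 7) * L ^ 2 := by
      have h8 : 7 * L ^ 2 ≤ ((a0 : ℝ) + 7) * L ^ 2 := by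
        have : 0 ≤ L ^ 2 := by positivity
        nlinarith
      nlinarith
    have e2 : ((a0 : ℝ) + 7) * (3 * L) ^ 2 = 9 * (((a0 : ℝ) + 7) * L ^ 2) := by ring
    have e3 : 10 * ((a0 : ℝ) + 7) * L ^ 2 = 10 * (((a0 : ℝ) + 7) * L ^ 2) := by ring
    rw [e3]
    linarith

/-- bounds of `4 ^ nP` -/
lemma pow_nP (a0 : ℕ) : ∀ᶠ n : ℕ in atTop, ∀ i : ℕ, 4 ≤ i → 520 ≤ dl i * Real.log n →
    12 * C0 * (Real.log n) * (n : ℝ) ^ (6 * dl i) ≤ (4 : ℝ) ^ nP a0 i n ∧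
    (4 : ℝ) ^ nP a0 i n ≤ (n : ℝ) ^ (3 / 20 : ℝ) := by
  filter_upwards [nP_bounds a0, eventually_ge_atTop 2, ev_loggt 2,
    evLL (10 * ((a0 : ℝ) + 7)) (1 / 100) (by norm_num)] with n hb hn hl hLL i hi4 hi
  obtain ⟨h1, h2⟩ := hb i hi
  have hn0 : (0 : ℝ) < n := by exact_mod_cast (by omega : 0 < n)
  have h4 : Real.log 4 = 2 * Real.log 2 := by
    rw [show (4 : ℝ) = 2 ^ 2 by norm_num, Real.log_pow]
    norm_num
  have h2a := Real.log_two_gt_d9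
  have h2b := Real.log_two_lt_d9
  set ℓ : ℝ := Real.log n with hℓ
  have hℓ0 : 0 < ℓ := by linarith
  have e1 : ∀ s : ℝ, (n : ℝ) ^ s = Real.exp (s * ℓ) := by
    intro s
    rw [Real.rpow_def_of_pos hn0, mul_comm]
  have e2 : (4 : ℝ) ^ nP a0 i n = Real.exp (nP a0 i n * Real.log 4) := by
    rw [Real.exp_nat_mul, Real.exp_log (by norm_num)]
  have hδ : dl i ≤ 1 / 81 := by
    refine (dl_mono hi4).trans ?_
    unfold dl
    norm_num
  have hN0 : (0 : ℝ) ≤ nP a0 i n := Nat.cast_nonneg _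
  constructor
  · have h5 : 12 * C0 ≤ Real.exp 22 := by
      have h9 : (2.7 : ℝ) ≤ Real.exp 1 := by linarith [Real.exp_one_gt_d9]
      calc 12 * C0 ≤ (2.7 : ℝ) ^ 22 := by norm_num [C0]
        _ ≤ (Real.exp 1) ^ 22 := pow_le_pow_left₀ (by norm_num) h9 22
        _ = Real.exp 22 := by
            rw [← Real.exp_nat_mul]
            norm_num
    have h6 : 12 * C0 * ℓ * (n : ℝ) ^ (6 * dl i) ≤
        Real.exp 22 * Real.exp (Real.log ℓ) * Real.exp (6 * dl i * ℓ) := by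
      rw [Real.exp_log hℓ0, e1]
      gcongr
    refine h6.trans ?_
    rw [← Real.exp_add, ← Real.exp_add, e2]
    apply Real.exp_le_exp.mpr
    have h7 : (nP a0 i n : ℝ) * 1 ≤ nP a0 i n * Real.log 4 :=
      mul_le_mul_of_nonneg_left (by rw [h4]; linarith) hN0
    linarith
  · rw [e1, e2]
    apply Real.exp_le_exp.mpr
    have h6 : 6 * dl i * ℓ ≤ 6 / 81 * ℓ := by
      have : dl i * ℓ ≤ 1 / 81 * ℓ := by gcongr
      linarith
    have h7 : (nP a0 i n : ℝ) ≤ (6 / 81 + 1 / 100) * ℓ := by linarith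
    have h8 : (nP a0 i n : ℝ) * Real.log 4 ≤ (6 / 81 + 1 / 100) * ℓ * (7 / 5) :=
      mul_le_mul h7 (by rw [h4]; linarith) (by rw [h4]; linarith) (by positivity)
    linarith

/-- the numerical conditions of the last step -/
lemma ncondU (a0 : ℕ) : ∀ᶠ n : ℕ in atTop, ∀ i : ℕ, 4 ≤ i → 520 ≤ dl i * Real.log n →
    NC2 4 (nP a0 i n) (2 * nP a0 i n) ((n : ℝ) ^ (1 - 6 * dl i) / C0 / 2 - 1)
      (1 / 3 * (1 / 4) ^ nP a0 i n)
      (Real.exp (-((n : ℝ) ^ (1 - 6 * dl i) / C0 / 2)) * Real.exp 1) (n * Real.log n) ∧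
    (n : ℝ) ^ (3 / 4 : ℝ) / 12 ≤
      ((n : ℝ) ^ (1 - 6 * dl i) / C0 / 2 - 1) * (1 / 3 * (1 / 4) ^ nP a0 i n) := by
  filter_upwards [pow_nP a0, eventually_ge_atTop 2, ev_loggt 4, ev_const (3 / 4) 12 (by norm_num),
    ev_const (1 / 2) (8 * C0) (by norm_num), ev_const (1 / 60) C0 (by norm_num)]
    with n hp hn hl h12 hC8 hC60 i hi4 hi
  obtain ⟨hp1, hp2⟩ := hp i hi4 hi
  have hC0 : (0 : ℝ) < C0 := by norm_num [C0]
  have hn0 : (0 : ℝ) < n := by exact_mod_cast (by omega : 0 < n)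
  have hn1 : (1 : ℝ) ≤ n := by exact_mod_cast (by omega : 1 ≤ n)
  have hδ : dl i ≤ 1 / 81 := by
    refine (dl_mono hi4).trans ?_
    unfold dl
    norm_num
  have hδ0 := dl_pos i
  set Y : ℝ := (n : ℝ) ^ (1 - 6 * dl i) with hY
  set N := nP a0 i n with hN
  have hY0 : 0 < Y := by positivity
  have hYh : (n : ℝ) ^ (1 / 2 : ℝ) ≤ Y := Real.rpow_le_rpow_of_exponent_le hn1 (by linarith)
  set t0 : ℝ := Y / C0 / 2 - 1 with ht0
  have ht0l : Y / (4 * C0) ≤ t0 := by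
    have h1 : 8 ≤ Y / C0 := by
      rw [le_div_iff₀ hC0]
      linarith
    have e1 : Y / (4 * C0) = Y / C0 / 4 := by
      field_simp
    rw [e1, ht0]
    linarith
  have ht0p : 0 < t0 := lt_of_lt_of_le (by positivity) ht0l
  have h4p : (0 : ℝ) < 4 ^ N := by positivity
  have hinv : (1 / 4 : ℝ) ^ N = 1 / 4 ^ N := by rw [one_div_pow]
  have hn4 : 4 ≤ N := by
    rw [hN]
    unfold nP
    omega
  have hlow : (n : ℝ) ^ (3 / 4 : ℝ) / 12 ≤ t0 * (1 / 3 * (1 / 4) ^ N) := by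
    rw [hinv]
    have h2 : t0 * (1 / 3 * (1 / 4 ^ N)) = t0 / (3 * 4 ^ N) := by
      field_simp
    rw [h2, div_le_div_iff₀ (by norm_num) (by positivity)]
    have h3 : (n : ℝ) ^ (3 / 4 : ℝ) * (n : ℝ) ^ (3 / 20 : ℝ) * (n : ℝ) ^ (1 / 60 : ℝ) ≤ Y := by
      rw [← Real.rpow_add hn0, ← Real.rpow_add hn0]
      exact Real.rpow_le_rpow_of_exponent_le hn1 (by linarith)
    have h4 : (n : ℝ) ^ (3 / 4 : ℝ) * 4 ^ N * C0 ≤ Y := by
      refine le_trans ?_ h3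
      gcongr
    have h5 : Y ≤ t0 * (4 * C0) := by
      rwa [div_le_iff₀ (by positivity)] at ht0l
    have h6 : (n : ℝ) ^ (3 / 4 : ℝ) * 4 ^ N * C0 ≤ (4 * t0) * C0 := by linarith
    have h7 : (n : ℝ) ^ (3 / 4 : ℝ) * 4 ^ N ≤ 4 * t0 := le_of_mul_le_mul_right h6 hC0
    linarith
  refine ⟨⟨by norm_num, hn4, by omega, ht0p, rfl, ?_, by positivity, ?_⟩, hlow⟩
  · rw [← mul_assoc, ← Real.exp_add, ← Real.exp_add]
    have : t0 + -(Y / C0 / 2) + 1 = 0 := by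
      rw [ht0]
      ring
    rw [this, Real.exp_zero]
    refine le_trans ?_ hlow
    rw [le_div_iff₀ (by norm_num)]
    linarith
  · have e1 : ((4 : ℕ) : ℝ) ^ (2 * N) * t0 * (1 / 3 * (1 / 4) ^ N) = 4 ^ N * t0 / 3 := by
      rw [hinv]
      push_cast
      rw [mul_comm 2 N, pow_mul, pow_two]
      field_simp
    rw [e1, le_div_iff₀ (by norm_num)]
    have h1 : (n : ℝ) ^ (6 * dl i) * Y = n := by
      rw [hY, ← Real.rpow_add hn0]
      norm_num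
    have h5 : Y ≤ t0 * (4 * C0) := by
      rwa [div_le_iff₀ (by positivity)] at ht0l
    have h6 : (n * Real.log n * 3) * (4 * C0) ≤ (4 ^ N * t0) * (4 * C0) := by
      calc (n * Real.log n * 3) * (4 * C0) = 12 * C0 * Real.log n * n := by ring
        _ = (12 * C0 * Real.log n * (n : ℝ) ^ (6 * dl i)) * Y := by
            rw [mul_assoc (12 * C0 * Real.log n), h1]
        _ ≤ 4 ^ N * Y := by gcongr
        _ ≤ 4 ^ N * (t0 * (4 * C0)) := by gcongr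
        _ = _ := by ring
    exact le_of_mul_le_mul_right h6 (by positivity)

/-- the failure probability of the last step -/
lemma fail2U (a0 : ℕ) : ∀ᶠ n : ℕ in atTop, ∀ i : ℕ, 4 ≤ i → 520 ≤ dl i * Real.log n →
    ∀ s : ℝ, (n : ℝ) ^ (3 / 4 : ℝ) / 12 ≤ s →
      65536 * (nP a0 i n : ℝ) * ((2 * Real.exp (3 * Real.sqrt n)) *
        (((4 * nP a0 i n : ℕ) : ℝ) * Real.exp (-s) / (1 / 4) ^ (4 * nP a0 i n))) ≤
          1 / (n : ℝ) := by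
  filter_upwards [pow_nP a0, eventually_ge_atTop 2, ev_loggt (Real.log (10 ^ 9)), ev_loggt 2,
    ev_log 0 (3 / 4) (6 * 24) (by norm_num), ev_le (1 / 2) (3 / 4) (3 * 24) (by norm_num)]
    with n hp hn hl hl2 hlog hsq i hi4 hi s hs
  obtain ⟨hp1, hp2⟩ := hp i hi4 hi
  have hn0 : (0 : ℝ) < n := by exact_mod_cast (by omega : 0 < n)
  have hn1 : (1 : ℝ) ≤ n := by exact_mod_cast (by omega : 1 ≤ n)
  rw [Real.rpow_zero, mul_one] at hlog
  set N := nP a0 i n with hN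
  have h4p : (0 : ℝ) < 4 ^ N := by positivity
  have hNn : (N : ℝ) ≤ n := by
    have h1 : (N : ℝ) ≤ 4 ^ N := by
      exact_mod_cast (Nat.lt_pow_self (a := 4) (n := N) (by norm_num)).le
    have h2 : (n : ℝ) ^ (3 / 20 : ℝ) ≤ (n : ℝ) ^ (1 : ℝ) :=
      Real.rpow_le_rpow_of_exponent_le hn1 (by norm_num)
    rw [Real.rpow_one] at h2
    linarith
  have h44 : (4 : ℝ) ^ (4 * N) ≤ n := by
    have h1 : (4 : ℝ) ^ (4 * N) = (4 ^ N) ^ 4 := by rw [mul_comm 4 N, pow_mul]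
    rw [h1]
    calc ((4 : ℝ) ^ N) ^ 4 ≤ ((n : ℝ) ^ (3 / 20 : ℝ)) ^ 4 := by gcongr
      _ = (n : ℝ) ^ (3 / 5 : ℝ) := by
          rw [← Real.rpow_natCast, ← Real.rpow_mul hn0.le]
          norm_num
      _ ≤ (n : ℝ) ^ (1 : ℝ) := Real.rpow_le_rpow_of_exponent_le hn1 (by norm_num)
      _ = n := by rw [Real.rpow_one]
  have hinv : (1 / 4 : ℝ) ^ (4 * N) = 1 / 4 ^ (4 * N) := by rw [one_div_pow]
  have hsqrt : Real.sqrt n = (n : ℝ) ^ (1 / 2 : ℝ) := Real.sqrt_eq_rpow _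
  have hexp : Real.exp (3 * Real.sqrt n) * Real.exp (-s) ≤ 1 / (10 ^ 9 * (n : ℝ) ^ 4) := by
    rw [← Real.exp_add, le_div_iff₀ (by positivity)]
    have h1 : (10 ^ 9 * (n : ℝ) ^ 4 : ℝ) = Real.exp (Real.log (10 ^ 9) + 4 * Real.log n) := by
      rw [Real.exp_add, Real.exp_log (by positivity)]
      congr 1
      rw [show (4 : ℝ) * Real.log n = ((4 : ℕ) : ℝ) * Real.log n by norm_num, Real.exp_nat_mul,
        Real.exp_log hn0]
    rw [h1, ← Real.exp_add, Real.exp_le_one_iff, hsqrt]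
    have h2 : (n : ℝ) ^ (3 / 4 : ℝ) / 12 = (n : ℝ) ^ (3 / 4 : ℝ) / 24 +
        (n : ℝ) ^ (3 / 4 : ℝ) / 24 := by ring
    have h3 : 3 * (n : ℝ) ^ (1 / 2 : ℝ) ≤ (n : ℝ) ^ (3 / 4 : ℝ) / 24 := by
      rw [le_div_iff₀ (by norm_num)]
      linarith
    have h4 : 6 * Real.log n ≤ (n : ℝ) ^ (3 / 4 : ℝ) / 24 := by
      rw [le_div_iff₀ (by norm_num)]
      linarith
    have h5 : Real.log (10 ^ 9) + 4 * Real.log n ≤ 6 * Real.log n := by linarith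
    generalize Real.log (10 ^ 9) + 4 * Real.log n = z at h5 ⊢
    generalize (n : ℝ) ^ (1 / 2 : ℝ) = w at h3 ⊢
    generalize (n : ℝ) ^ (3 / 4 : ℝ) = u at h2 h3 h4 hs
    linarith
  rw [hinv]
  push_cast
  have e1 : 65536 * (N : ℝ) * (2 * Real.exp (3 * Real.sqrt n) *
      (4 * (N : ℝ) * Real.exp (-s) / (1 / 4 ^ (4 * N)))) =
      524288 * ((N : ℝ) * N * 4 ^ (4 * N)) *
        (Real.exp (3 * Real.sqrt n) * Real.exp (-s)) := by
    field_simp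
    ring
  rw [e1]
  calc 524288 * ((N : ℝ) * N * 4 ^ (4 * N)) * (Real.exp (3 * Real.sqrt n) * Real.exp (-s))
      ≤ 524288 * ((n : ℝ) * n * n) * (1 / (10 ^ 9 * (n : ℝ) ^ 4)) := by gcongr
    _ = (524288 / 10 ^ 9) * (1 / (n : ℝ)) := by
        field_simp
    _ ≤ 1 * (1 / (n : ℝ)) := by
        gcongr
        norm_num
    _ = 1 / (n : ℝ) := one_mul _

end Run7.h107
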