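import Pool.Agent.Run7.h107.AGP
import Pool.Agent.H880R2.RC.BLOCKS

/-!
Gaps for all numbers of letters above a threshold, after `i` rounds (helper107, MP_75608d_al).
-/

namespace Run7.h107
open RC14 RC852 TE852 Finset Filter Equiv Pool.Agent.R236.Exc

lemma log32 : (2 / 5 : ℝ) ≤ Real.log (3 / 2) := by
  have h5 : Real.exp (2 / 5) ≤ 3 / 2 := by
    have h6 : Real.exp (2 / 5) ^ 5 ≤ (3 / 2 : ℝ) ^ 5 := by
      rw [← Real.exp_nat_mul]
      have h7 : ((5 : ℕ) : ℝ) * (2 / 5) = ((2 : ℕ) : ℝ) * 1 := by norm_num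
      rw [h7, Real.exp_nat_mul]
      have h8 := Real.exp_one_lt_d9
      calc (Real.exp 1) ^ 2 ≤ (2.7182818286 : ℝ) ^ 2 :=
            pow_le_pow_left₀ (Real.exp_pos _).le h8.le 2
        _ ≤ (3 / 2) ^ 5 := by norm_num
    exact le_of_pow_le_pow_left₀ (by norm_num) (by norm_num) h6
  rw [Real.le_log_iff_exp_le (by norm_num)]
  exact h5

lemma numA (A x : ℝ) (hA : 7 ≤ A) (hx : 0 ≤ x) : 6 * x ≤ 10 * A * x := by nlinarith

lemma numB (B i L : ℝ) (hB : 0 ≤ B) (hi : i + 1 ≤ 3 * L) (hL : 4 ≤ L) :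
    B + 2 * i ≤ (B + 6) * L ^ 2 := by
  have h8 : B + 2 * i ≤ B + 6 * L := by linarith
  have h1 : 1 ≤ L ^ 2 := by nlinarith
  have h2 : L ≤ L ^ 2 := by nlinarith
  have h3 : B * 1 ≤ B * L ^ 2 := mul_le_mul_of_nonneg_left h1 hB
  have e : (B + 6) * L ^ 2 = B * L ^ 2 + 6 * L ^ 2 := by ring
  rw [e]
  linarith

lemma numC (B ℓ L : ℝ) (hℓ : 1 ≤ ℓ) (hL : 4 ≤ L)
    (h : (2 * 65536 * (B + 6) + 2) * L ^ 2 ≤ 1 * ℓ) :
    65536 * (B + 6) * L ^ 2 * ℓ + 1 ≤ ℓ ^ 2 / 2 := by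
  have h11 : (2 * 65536 * (B + 6) + 2) * L ^ 2 * ℓ ≤ 1 * ℓ * ℓ :=
    mul_le_mul_of_nonneg_right h (by linarith)
  have h12 : 1 ≤ L ^ 2 * ℓ := by
    have : 1 ≤ L ^ 2 := by nlinarith
    nlinarith
  nlinarith

theorem BLKU : ∃ K : ℝ, 1 ≤ K ∧ ∃ Q : ℝ, 1 ≤ Q ∧ ∀ᶠ n : ℕ in atTop, ∀ i : ℕ, 4 ≤ i →
    520 ≤ dl i * Real.log n → ∀ m : ℕ,
    Q * (dl i * Real.log n + (Real.log (Real.log n)) ^ 2) ≤ m →
    (Nat.card {x : Fin m → Alt n // ¬ Expanding (Real.exp (-(K * ((i : ℝ) + 1) ^ 2))) x} : ℝ) ≤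
      (Real.log n) ^ 2 / n * (Fintype.card (Alt n) : ℝ) ^ m := by
  obtain ⟨a0, ha0, K, hK, B, hB, hev⟩ := GOODU
  have ha0r : (0 : ℝ) ≤ a0 := Nat.cast_nonneg _
  set A : ℝ := (a0 : ℝ) + 7 with hA
  have hA7 : 7 ≤ A := by linarith
  refine ⟨K + Real.log (80000 * ((a0 : ℝ) + 400000)) + 2, ?_, 1310720 * A, by linarith, ?_⟩
  · have : 0 ≤ Real.log (80000 * ((a0 : ℝ) + 400000)) := Real.log_nonneg (by linarith)
    linarith
  filter_upwards [hev, ncondU a0, fail2U a0, nP_bounds a0, eventually_ge_atTop 2,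
    evLL (10 * A) (1 / 4) (by norm_num), evLL (2 * 65536 * (B + 6) + 2) 1 (by norm_num),
    ev_loglog 4, ev_loggt 1]
    with n h1 h2 h3 hb hn hLL1 hLL2 hL4 hl1 i hi4 hi m hm
  obtain ⟨hN, hlow⟩ := h2 i hi4 hi
  obtain ⟨hN1, hN2⟩ := hb i hi
  have h1i := h1 i hi4 hi
  have hn0 : (0 : ℝ) < n := by exact_mod_cast (by omega : 0 < n)
  have hn1 : (1 : ℝ) ≤ n := by exact_mod_cast (by omega : 1 ≤ n)
  have hiL := i_le i (Real.log n) (by linarith) (by linarith)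
  have hi0 : (0 : ℝ) ≤ i := Nat.cast_nonneg _
  have h5 := h3 i hi4 hi _ hlow
  clear h1 h2 h3 hb hev
  have hNge : (a0 + 7) * (i + 1) ^ 2 ≤ nP a0 i n := by
    unfold nP
    omega
  obtain ⟨N, hNdef⟩ : ∃ N, N = nP a0 i n := ⟨_, rfl⟩
  rw [← hNdef] at hN hlow hN1 hN2 h5 hNge
  set ℓ : ℝ := Real.log n with hℓ
  set L : ℝ := Real.log ℓ with hLd
  have hkle : la a0 i ≤ (a0 + 400000) * (i + 1) ^ 2 := la_le a0 i
  have hk : 1 ≤ la a0 i := la_ge a0 i ha0
  obtain ⟨k, hkdef⟩ : ∃ k, k = la a0 i := ⟨_, rfl⟩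
  rw [← hkdef] at hk hkle h1i
  have hk0 : 0 < k := hk
  obtain ⟨c, hc⟩ : ∃ c, c = 4096 * (4 * N) := ⟨_, rfl⟩
  have hkc : k ≤ c * 4 := by
    have h6 : (a0 + 400000) * (i + 1) ^ 2 ≤ (65536 * (a0 + 7)) * (i + 1) ^ 2 :=
      Nat.mul_le_mul_right _ (by omega)
    have h8 : (65536 * (a0 + 7)) * (i + 1) ^ 2 = 65536 * ((a0 + 7) * (i + 1) ^ 2) := by ring
    have h9 : c * 4 = 65536 * N := by rw [hc]; ring
    rw [h9]
    calc k ≤ _ := hkle
      _ ≤ _ := h6
      _ = _ := h8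
      _ ≤ 65536 * N := Nat.mul_le_mul_left _ hNge
  obtain ⟨h, hh⟩ : ∃ h, h = (c * 4) / k := ⟨_, rfl⟩
  have hhk1 : h * k ≤ c * 4 := by rw [hh]; exact Nat.div_mul_le_self _ _
  have hh1 : 1 ≤ h := by rw [hh]; exact (Nat.one_le_div_iff hk0).2 hkc
  have hhk2 : c * 4 ≤ 2 * (h * k) := by
    have h5 : c * 4 < (h + 1) * k := by
      rw [hh]
      exact Nat.lt_mul_of_div_lt (Nat.lt_succ_self _) hk0
    have h6 : (h + 1) * k = h * k + k := by ring
    have h7 : k ≤ h * k := Nat.le_mul_of_pos_left k hh1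
    omega
  have hh0 : (h : ℝ) ≤ 65536 * N := by
    have h6' : h ≤ c * 4 := by rw [hh]; exact Nat.div_le_self _ _
    have h6 : (h : ℝ) ≤ ((c * 4 : ℕ) : ℝ) := by exact_mod_cast h6'
    rw [hc] at h6
    push_cast at h6
    linarith
  have hδ : dl i ≤ 1 / 81 := by
    refine (dl_mono hi4).trans ?_
    unfold dl
    norm_num
  have hδ0 := dl_pos i
  have hm0 : h * k + c * 4 ≤ m := by
    have h5' : ((h * k + c * 4 : ℕ) : ℝ) ≤ m := by
      have h6 : ((h * k + c * 4 : ℕ) : ℝ) ≤ ((2 * (c * 4) : ℕ) : ℝ) := by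
        exact_mod_cast (by omega : h * k + c * 4 ≤ 2 * (c * 4))
      refine h6.trans (le_trans ?_ hm)
      rw [hc]
      push_cast
      have h7 : 6 * (dl i * ℓ) ≤ 10 * A * (dl i * ℓ) := numA A _ hA7 (by linarith)
      have e : 1310720 * A * (dl i * ℓ + L ^ 2) = 131072 * (10 * A * (dl i * ℓ) + 10 * A * L ^ 2) := by
        ring
      rw [e]
      linarith
    exact_mod_cast h5'
  have hc1 : Real.exp (-(K * ((i : ℝ) + 1) ^ 2)) ≤ 1 := by
    rw [Real.exp_le_one_iff]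
    have : 0 ≤ K * ((i : ℝ) + 1) ^ 2 := by positivity
    linarith
  have hkr : (1 : ℝ) ≤ k := by exact_mod_cast hk
  set ε : ℝ := Real.exp (-(K * ((i : ℝ) + 1) ^ 2)) / (100 * (k : ℕ)) with hε
  have hε0 : 0 < ε := by positivity
  have hε1 : ε ≤ 1 := by
    rw [hε, div_le_one (by positivity)]
    linarith
  have hblk := BLK n h k c 4 N (2 * N) hk (by omega) (by omega) hhk1 hhk2 hε0 hε1 hN hc
    (p := (B + 2 * i) / n) h1i
  set β : ℝ := (2 * Real.exp (3 * Real.sqrt n)) *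
        (((4 * N : ℕ) : ℝ) * Real.exp (-(((n : ℝ) ^ (1 - 6 * dl i) / C0 / 2 - 1) *
          (1 / 3 * (1 / 4) ^ N))) / (1 / 4) ^ (4 * N)) with hβ
  have hβ0 : 0 ≤ β := by positivity
  have hp : (h : ℝ) * ((B + 2 * i) / n) + h * β ≤ ℓ ^ 2 / n / 2 := by
    have h6 : (h : ℝ) * β ≤ 1 / n := (mul_le_mul_of_nonneg_right hh0 hβ0).trans h5
    have h7 : (N : ℝ) ≤ ℓ := by
      have h8 : dl i * ℓ ≤ 1 / 81 * ℓ := by gcongr
      have h9 : 6 * dl i * ℓ = 6 * (dl i * ℓ) := by ring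
      linarith
    have hiL' : (B + 2 * (i : ℝ)) ≤ (B + 6) * L ^ 2 := numB B i L hB hiL hL4
    have hBi : 0 ≤ B + 2 * (i : ℝ) := by linarith
    have h8 : (h : ℝ) * ((B + 2 * i) / n) ≤ 65536 * ℓ * ((B + 6) * L ^ 2 / n) := by
      have : (0 : ℝ) ≤ (B + 2 * i) / n := by positivity
      have h9 : (h : ℝ) ≤ 65536 * ℓ := by linarith
      have h10 : (B + 2 * (i : ℝ)) / n ≤ (B + 6) * L ^ 2 / n := by gcongr
      exact mul_le_mul h9 h10 this (by linarith)
    have h9 : 65536 * ℓ * ((B + 6) * L ^ 2 / n) + 1 / n =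
        (65536 * (B + 6) * L ^ 2 * ℓ + 1) / n := by
      field_simp
    have h10 : 65536 * (B + 6) * L ^ 2 * ℓ + 1 ≤ ℓ ^ 2 / 2 := numC B ℓ L hl1 hL4 hLL2
    calc (h : ℝ) * ((B + 2 * i) / n) + h * β
        ≤ 65536 * ℓ * ((B + 6) * L ^ 2 / n) + 1 / n := by linarith
      _ = (65536 * (B + 6) * L ^ 2 * ℓ + 1) / n := h9
      _ ≤ (ℓ ^ 2 / 2) / n := by gcongr
      _ = _ := by ring
  have h6 := BLOCKS (h * k + c * 4) m (by omega) hm0 (ε / 200) (ℓ ^ 2 / n / 2)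
    (by positivity) (by positivity) (hblk.trans (by gcongr))
  have hgap : Real.exp (-((K + Real.log (80000 * ((a0 : ℝ) + 400000)) + 2) *
      ((i : ℝ) + 1) ^ 2)) ≤ ε / 200 / 4 := by
    have hla : (k : ℝ) ≤ (a0 + 400000) * ((i : ℝ) + 1) ^ 2 := by
      exact_mod_cast hkle
    set w : ℝ := ((i : ℝ) + 1) ^ 2 with hw
    have hw1 : 1 ≤ w := by nlinarith
    set G : ℝ := Real.log (80000 * ((a0 : ℝ) + 400000)) with hG
    have hG0 : 0 ≤ G := Real.log_nonneg (by linarith)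
    have h7 : 80000 * (k : ℝ) ≤ Real.exp (G * w + 2 * w) := by
      have h8 : 80000 * (k : ℝ) ≤ (80000 * ((a0 : ℝ) + 400000)) * w := by linarith
      have h9 : w ≤ Real.exp (2 * w) := by
        have := Real.add_one_le_exp (2 * w)
        linarith
      have h10 : (80000 * ((a0 : ℝ) + 400000)) = Real.exp G :=
        (Real.exp_log (by linarith)).symm
      have h11 : Real.exp G ≤ Real.exp (G * w) := by
        apply Real.exp_le_exp.2
        nlinarith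
      calc 80000 * (k : ℝ) ≤ (80000 * ((a0 : ℝ) + 400000)) * w := h8
        _ = Real.exp G * w := by rw [h10]
        _ ≤ Real.exp (G * w) * Real.exp (2 * w) := by gcongr
        _ = _ := (Real.exp_add _ _).symm
    have e1 : ε / 200 / 4 = Real.exp (-(K * w)) / (80000 * (k : ℝ)) := by
      rw [hε]
      field_simp
      norm_num
    rw [e1, le_div_iff₀ (by positivity)]
    calc Real.exp (-((K + G + 2) * w)) * (80000 * (k : ℝ))
        ≤ Real.exp (-((K + G + 2) * w)) * Real.exp (G * w + 2 * w) := by gcongr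
      _ = Real.exp (-(K * w)) := by
          rw [← Real.exp_add]
          congr 1
          ring
  have h7 := card_mono (fun x : Fin m → Alt n => ¬ Expanding (Real.exp (-((K +
    Real.log (80000 * ((a0 : ℝ) + 400000)) + 2) * ((i : ℝ) + 1) ^ 2))) x)
    (fun x => ¬ Expanding (ε / 200 / 4) x) (fun x hx hE => hx (Expanding.mono hE hgap))
  refine le_trans (Nat.cast_le.2 h7) (h6.trans (le_of_eq ?_))
  ring

/-- the main theorem -/
theorem MAINU : ∃ C : ℝ, 1 ≤ C ∧ ∀ᶠ n : ℕ in atTop, ∀ m : ℕ,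
    C * (Real.log (Real.log n)) ^ 2 ≤ m →
    (Nat.card {x : Fin m → Alt n //
      ¬ Expanding (Real.exp (-(C * (Real.log (2 + Real.log n / m)) ^ 2))) x} : ℝ) ≤
      (Real.log n) ^ 2 / n * (Fintype.card (Alt n) : ℝ) ^ m := by
  obtain ⟨K, hK, Q, hQ, hev⟩ := BLKU
  have hlQ : 0 ≤ Real.log (2 * Q) := Real.log_nonneg (by linarith)
  set T : ℝ := 8 + 4 * Real.log (2 * Q) with hT
  have hT8 : 8 ≤ T := by linarith
  have hKT : 0 ≤ K * T ^ 2 := by positivity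
  refine ⟨K * T ^ 2 + 1560 * Q, by linarith, ?_⟩
  filter_upwards [hev, ev_loggt (520 * 81), ev_loglog 1] with n h1 hl hL m hm
  set ℓ : ℝ := Real.log n with hℓ
  set L : ℝ := Real.log ℓ with hLd
  have hℓ0 : 0 < ℓ := by linarith
  have hL2 : 1 ≤ L ^ 2 := by nlinarith
  have hmC : 1560 * Q * L ^ 2 ≤ m := by
    refine le_trans ?_ hm
    have : 0 ≤ K * T ^ 2 * L ^ 2 := by positivity
    linarith
  have hmQ : 1560 * Q ≤ m := by
    have : 1560 * Q * 1 ≤ 1560 * Q * L ^ 2 := by gcongr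
    linarith
  have hm0 : (0 : ℝ) < m := by linarith
  -- the choice of `i`
  have hex : ∃ i : ℕ, 4 ≤ i ∧ 2 * Q * (dl i * ℓ) ≤ m := by
    have h2 : Tendsto (fun i : ℕ => (2 / 3 : ℝ) ^ i) atTop (nhds 0) :=
      tendsto_pow_atTop_nhds_zero_of_lt_one (by norm_num) (by norm_num)
    have h3 : ∀ᶠ i : ℕ in atTop, (2 / 3 : ℝ) ^ i < m * 8 / (Q * ℓ) :=
      h2.eventually_lt_const (by positivity)
    obtain ⟨i, hi1, hi2⟩ := (h3.and (eventually_ge_atTop 4)).exists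
    refine ⟨i, hi2, ?_⟩
    rw [lt_div_iff₀ (by positivity)] at hi1
    unfold dl
    have e : 2 * Q * ((2 / 3) ^ i / 16 * ℓ) = ((2 / 3) ^ i * (Q * ℓ)) / 8 := by ring
    rw [e]
    linarith
  classical
  set i : ℕ := Nat.find hex with hi
  obtain ⟨hi4, him⟩ := Nat.find_spec hex
  rw [← hi] at hi4 him
  set w : ℝ := Real.log (2 + ℓ / m) with hw
  have hw2 : Real.log 2 ≤ w := by
    apply Real.log_le_log (by norm_num)
    have : 0 ≤ ℓ / m := by positivity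
    linarith
  have hlog2 := Real.log_two_gt_d9
  have hkey : 520 ≤ dl i * ℓ ∧ (i : ℝ) + 1 ≤ T * w := by
    by_cases h4 : i = 4
    · rw [h4]
      constructor
      · have : dl 4 = 1 / 81 := by unfold dl; norm_num
        rw [this]
        linarith
      · have : 8 * Real.log 2 ≤ T * w := mul_le_mul hT8 hw2 (by linarith) (by linarith)
        push_cast
        linarith
    · obtain ⟨j, hj⟩ : ∃ j, i = j + 1 := ⟨i - 1, by omega⟩
      have hnot := Nat.find_min hex (m := j) (by rw [← hi]; omega)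
      have hj4 : 4 ≤ j := by omega
      have hjm : (m : ℝ) < 2 * Q * (dl j * ℓ) := by
        by_contra hcon
        push Not at hcon
        exact hnot ⟨hj4, hcon⟩
      constructor
      · rw [hj, dl_succ]
        have h5 : 1560 * Q ≤ 2 * Q * (dl j * ℓ) := by linarith
        have h6 : 0 < Q := by linarith
        have h7 : 1560 * Q ≤ (2 * (dl j * ℓ)) * Q := by linarith
        have h8 := le_of_mul_le_mul_right h7 h6
        linarith
      · have h5 : (3 / 2 : ℝ) ^ j ≤ 2 * Q * (2 + ℓ / m) := by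
          have h6 : (2 / 3 : ℝ) ^ j * (3 / 2) ^ j = 1 := by
            rw [← mul_pow]
            norm_num
          unfold dl at hjm
          have h7 : (0 : ℝ) < (3 / 2) ^ j := by positivity
          have h8 : (3 / 2 : ℝ) ^ j * m ≤ (3 / 2) ^ j * (2 * Q * ((2 / 3) ^ j / 16 * ℓ)) := by
            gcongr
          have h9 : (3 / 2 : ℝ) ^ j * (2 * Q * ((2 / 3) ^ j / 16 * ℓ)) =
              ((2 / 3 : ℝ) ^ j * (3 / 2) ^ j) * (Q * ℓ / 8) := by ring
          rw [h9, h6, one_mul, ← le_div_iff₀ hm0] at h8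
          refine h8.trans ?_
          have h10 : Q * ℓ / 8 / m = Q / 8 * (ℓ / m) := by ring
          rw [h10]
          have h11 : 0 ≤ ℓ / m := by positivity
          have h12 : 0 ≤ Q * (ℓ / m) := by positivity
          nlinarith
        have h6 := Real.log_le_log (by positivity) h5
        rw [Real.log_pow, Real.log_mul (by positivity) (by positivity)] at h6
        have h3 : (2 / 5 : ℝ) ≤ Real.log (3 / 2) := log32
        have h7 : (j : ℝ) * (2 / 5) ≤ j * Real.log (3 / 2) :=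
          mul_le_mul_of_nonneg_left h3 (Nat.cast_nonneg _)
        have h8 : (j : ℝ) ≤ 5 / 2 * (Real.log (2 * Q) + w) := by linarith
        have h9 : 1 ≤ 3 / 2 * w := by linarith
        have h10 : Real.log (2 * Q) * 1 ≤ Real.log (2 * Q) * (3 / 2 * w) :=
          mul_le_mul_of_nonneg_left h9 hlQ
        have h11 : 0 ≤ Real.log (2 * Q) * w := mul_nonneg hlQ (by linarith)
        rw [hj, hT]
        push_cast
        have e : (8 + 4 * Real.log (2 * Q)) * w = 8 * w + 4 * (Real.log (2 * Q) * w) := by ring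
        rw [e]
        linarith
  obtain ⟨hk1, hk2⟩ := hkey
  have h2 := h1 i hi4 hk1 m (by
    have h3 : Q * L ^ 2 ≤ m / 2 := by
      have : 0 ≤ Q * L ^ 2 := by positivity
      linarith
    have e : Q * (dl i * ℓ + L ^ 2) = (2 * Q * (dl i * ℓ)) / 2 + Q * L ^ 2 := by ring
    rw [e]
    linarith)
  refine le_trans (Nat.cast_le.2 ?_) h2
  refine card_mono (fun x : Fin m → Alt n =>
    ¬ Expanding (Real.exp (-((K * T ^ 2 + 1560 * Q) * w ^ 2))) x)
    (fun x => ¬ Expanding (Real.exp (-(K * ((i : ℝ) + 1) ^ 2))) x)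
    (fun x hx hE => hx (Expanding.mono hE ?_))
  apply Real.exp_le_exp.2
  apply neg_le_neg
  have h3 : ((i : ℝ) + 1) ^ 2 ≤ (T * w) ^ 2 := pow_le_pow_left₀ (by positivity) hk2 2
  have h4 : K * ((i : ℝ) + 1) ^ 2 ≤ K * (T * w) ^ 2 := by gcongr
  have h5 : 0 ≤ 1560 * Q * w ^ 2 := by positivity
  have e : (K * T ^ 2 + 1560 * Q) * w ^ 2 = K * (T * w) ^ 2 + 1560 * Q * w ^ 2 := by ring
  rw [e]
  linarith

end Run7.h107
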