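import Pool.Agent.Run7.h107.BASE

/-!
Energy inequalities and the bound for one irreducible representation
(helper107, MP_bc5a73_al).
-/

namespace Run7.h107
open RC14
open scoped InnerProductSpace
open Finset

section
variable {G : Type} [Group G]
variable {V : Type} [NormedAddCommGroup V] [InnerProductSpace ℂ V] [FiniteDimensional ℂ V]

omit [FiniteDimensional ℂ V] in
lemma rho_inv_sub (ρ : G →* (V ≃ₗᵢ[ℂ] V)) (g : G) (v : V) : ‖ρ g⁻¹ v - v‖ = ‖ρ g v - v‖ := by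
  have h : v = ρ g⁻¹ (ρ g v) := by
    rw [map_inv]
    exact ((ρ g).symm_apply_apply v).symm
  have h2 : ρ g⁻¹ v - v = ρ g⁻¹ (v - ρ g v) := by
    rw [map_sub, ← h]
  rw [h2, (ρ g⁻¹).norm_map, norm_sub_rev]

omit [FiniteDimensional ℂ V] in
/-- energy of one conjugate of the base operator -/
lemma T0_cj_energy (ρ : G →* (V ≃ₗᵢ[ℂ] V)) (x g : G) (v : V) :
    ‖v‖ ^ 2 - (⟪cj ρ (T0 ρ x) g v, v⟫_ℂ).re ≤
      1 / 2 * ‖ρ x v - v‖ ^ 2 + 4 * (‖v‖ ^ 2 - (⟪op ρ g⁻¹ v, v⟫_ℂ).re) := by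
  obtain ⟨w, hw⟩ : ∃ w, w = ρ g⁻¹ v := ⟨_, rfl⟩
  have h1 : ‖w‖ = ‖v‖ := by rw [hw]; exact (ρ g⁻¹).norm_map v
  rw [cj_quad, ← hw, ← h1, T0_energy, h1]
  have h2 : ‖w - v‖ ^ 2 = 2 * (‖v‖ ^ 2 - (⟪op ρ g⁻¹ v, v⟫_ℂ).re) := by
    rw [op_apply, hw, norm_rho_sub]
    ring
  have h3 : ‖ρ x w - w‖ ≤ ‖ρ x v - v‖ + 2 * ‖w - v‖ := by
    have h4 : ρ x w - w = (ρ x v - v) + (ρ x (w - v) - (w - v)) := by
      rw [map_sub]
      abel
    rw [h4]
    refine (norm_add_le _ _).trans ?_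
    have h5 := norm_sub_le (ρ x (w - v)) (w - v)
    rw [(ρ x).norm_map] at h5
    linarith
  have h4 : ‖ρ x w - w‖ ^ 2 ≤ (‖ρ x v - v‖ + 2 * ‖w - v‖) ^ 2 :=
    pow_le_pow_left₀ (norm_nonneg _) h3 2
  nlinarith [sq_nonneg (‖ρ x v - v‖ - 2 * ‖w - v‖)]

variable [Fintype G]

/-- energy of a chunk -/
theorem chEn (ρ : G →* (V ≃ₗᵢ[ℂ] V)) {q : ℕ} (hq : 1 ≤ q) (L : ℕ) (x : G)
    (z : Fin L → Fin q → G) (v : V) :
    ‖v‖ ^ 2 - (⟪AA ρ (T0 ρ x) L z v, v⟫_ℂ).re ≤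
      1 / 2 * ‖ρ x v - v‖ ^ 2 + 8 / (q : ℝ) * ∑ r, En ρ (z r) v := by
  obtain ⟨μ, hμ0, hμ1, hA, hB⟩ := MU ρ q L hq z
  have e1 : ‖v‖ ^ 2 - (⟪AA ρ (T0 ρ x) L z v, v⟫_ℂ).re =
      ∑ g, μ g * (‖v‖ ^ 2 - (⟪cj ρ (T0 ρ x) g v, v⟫_ℂ).re) := by
    rw [hA (T0 ρ x), DISPaux.re_avg]
    simp only [mul_sub, Finset.sum_sub_distrib, ← Finset.sum_mul, hμ1, one_mul]
  have e2 : ∑ g, μ g * (‖v‖ ^ 2 - (⟪cj ρ (T0 ρ x) g v, v⟫_ℂ).re) ≤
      ∑ g, μ g * (1 / 2 * ‖ρ x v - v‖ ^ 2 + 4 * (‖v‖ ^ 2 - (⟪op ρ g⁻¹ v, v⟫_ℂ).re)) :=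
    Finset.sum_le_sum fun g _ => mul_le_mul_of_nonneg_left (T0_cj_energy ρ x g v) (hμ0 g)
  have e3 : ∑ g, μ g * (1 / 2 * ‖ρ x v - v‖ ^ 2 + 4 * (‖v‖ ^ 2 - (⟪op ρ g⁻¹ v, v⟫_ℂ).re)) =
      1 / 2 * ‖ρ x v - v‖ ^ 2 + 4 * (‖v‖ ^ 2 -
        (⟪(List.ofFn fun s => TQ ρ (z s) * TQ ρ (z s)).prod v, v⟫_ℂ).re) := by
    rw [← hB, DISPaux.re_avg]
    have h1 : ∀ g, μ g * (1 / 2 * ‖ρ x v - v‖ ^ 2 + 4 * (‖v‖ ^ 2 - (⟪op ρ g⁻¹ v, v⟫_ℂ).re)) =
        μ g * (1 / 2 * ‖ρ x v - v‖ ^ 2 + 4 * ‖v‖ ^ 2) - 4 * (μ g * (⟪op ρ g⁻¹ v, v⟫_ℂ).re) := by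
      intro g; ring
    rw [Finset.sum_congr rfl fun g _ => h1 g, Finset.sum_sub_distrib, ← Finset.sum_mul, hμ1,
      ← Finset.mul_sum]
    ring
  have e4 := ZENO L (fun s => TQ ρ (z s) * TQ ρ (z s)) (fun s => (TQ2 ρ hq (z s)).1)
    (fun s w => (TQ2 ρ hq (z s)).2.1 w) (fun s w => (TQ2 ρ hq (z s)).2.2.1 w) v
  have e5 : ∑ s, (‖v‖ ^ 2 - (⟪(TQ ρ (z s) * TQ ρ (z s)) v, v⟫_ℂ).re) ≤
      ∑ s, En ρ (z s) v / q :=
    Finset.sum_le_sum fun s _ => (TQ2 ρ hq (z s)).2.2.2 v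
  have e6 : ∑ s, En ρ (z s) v / (q : ℝ) = 1 / (q : ℝ) * ∑ r, En ρ (z r) v := by
    rw [Finset.mul_sum]
    refine Finset.sum_congr rfl fun s _ => ?_
    ring
  rw [e1]
  refine e2.trans ?_
  rw [e3]
  have e7 : 8 / (q : ℝ) * ∑ r, En ρ (z r) v = 8 * (1 / (q : ℝ) * ∑ r, En ρ (z r) v) := by ring
  rw [e7, ← e6]
  linarith

omit [Fintype G] [FiniteDimensional ℂ V] in
/-- the energy form of `0 ≤ A ≤ 1` at a displaced vector -/
lemma Bd.disp {A : Module.End ℂ V} (hA : Bd A 1) (v w : V) :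
    ‖w‖ ^ 2 - (⟪A w, w⟫_ℂ).re ≤ 2 * (‖v‖ ^ 2 - (⟪A v, v⟫_ℂ).re) + 2 * ‖w - v‖ ^ 2 := by
  -- the form `Q(u) = ‖u‖² - ⟨Au,u⟩` is nonnegative and at most `‖u‖²`
  set u : V := w - v with hu
  have hw : w = v + u := by rw [hu]; abel
  set Q : V → V → ℂ := fun a b => ⟪a, b⟫_ℂ - ⟪A a, b⟫_ℂ with hQ
  have hQd : ∀ a, (Q a a).re = ‖a‖ ^ 2 - (⟪A a, a⟫_ℂ).re := by
    intro a
    rw [hQ]
    simp only [Complex.sub_re]
    congr 1
    exact @inner_self_eq_norm_sq ℂ V _ _ _ a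
  have hQ0 : ∀ a, 0 ≤ (Q a a).re := by
    intro a
    rw [hQd]
    have := (hA.2 a).2
    linarith
  have hQ1 : ∀ a, (Q a a).re ≤ ‖a‖ ^ 2 := by
    intro a
    rw [hQd]
    have := (hA.2 a).1
    linarith
  have e1 : (Q w w).re = (Q v v).re + (Q u u).re + ((Q v u).re + (Q u v).re) := by
    rw [hw, hQ]
    simp only [map_add, inner_add_left, inner_add_right, Complex.sub_re, Complex.add_re]
    ring
  have e2 : (Q (v - u) (v - u)).re = (Q v v).re + (Q u u).re - ((Q v u).re + (Q u v).re) := by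
    rw [hQ]
    simp only [map_sub, inner_sub_left, inner_sub_right, Complex.sub_re]
    ring
  have h1 := hQ0 (v - u)
  have h2 := hQ1 u
  have h3 := hQ0 u
  rw [← hQd w, ← hQd v]
  linarith

omit [Fintype G] [FiniteDimensional ℂ V] in
/-- energy of a conjugate of `0 ≤ A ≤ 1` -/
lemma Bd.cj_energy {A : Module.End ℂ V} (hA : Bd A 1) (ρ : G →* (V ≃ₗᵢ[ℂ] V)) (u : G) (v : V) :
    ‖v‖ ^ 2 - (⟪RC14.cj ρ A u v, v⟫_ℂ).re ≤
      2 * (‖v‖ ^ 2 - (⟪A v, v⟫_ℂ).re) + 2 * ‖ρ u v - v‖ ^ 2 := by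
  have h := hA.disp v (ρ u⁻¹ v)
  rw [(ρ u⁻¹).norm_map, rho_inv_sub] at h
  rw [cj_quad]
  exact h

/-- the letters of one chunk, with a final conjugation -/
abbrev Ch (G : Type) (q L : ℕ) : Type := (G × (Fin L → Fin q → G)) × G

/-- energy of the letters of the chunks -/
noncomputable def FE (ρ : G →* (V ≃ₗᵢ[ℂ] V)) {q L t : ℕ} (a : Fin t → Ch G q L) (v : V) : ℝ :=
  1 / (t : ℝ) * ∑ i, (‖ρ (a i).1.1 v - v‖ ^ 2 + 16 / (q : ℝ) * ∑ r, En ρ ((a i).1.2 r) v +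
    2 * ‖ρ (a i).2 v - v‖ ^ 2)

/-- the average of the conjugated chunk operators -/
noncomputable def TA (ρ : G →* (V ≃ₗᵢ[ℂ] V)) {q L t : ℕ} (a : Fin t → Ch G q L) :
    Module.End ℂ V :=
  ((1 / (t : ℝ) : ℝ) : ℂ) • ∑ i, cj ρ (AA ρ (T0 ρ (a i).1.1) L (a i).1.2) (a i).2

omit [Fintype G] [FiniteDimensional ℂ V] in
lemma TA_bd (ρ : G →* (V ≃ₗᵢ[ℂ] V)) {q L t : ℕ} (hq : 1 ≤ q) (ht : 1 ≤ t)
    (a : Fin t → Ch G q L) : Bd (TA ρ a) 1 := by
  have h1 := (Bd.sum Finset.univ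
    (fun i => cj ρ (AA ρ (T0 ρ (a i).1.1) L (a i).1.2) (a i).2) (a := 1)
    fun i _ => ((T0_bd ρ _).AA ρ hq L _).cj ρ _).smul (t := 1 / (t : ℝ)) (by positivity)
  have ht0 : (t : ℝ) ≠ 0 := by exact_mod_cast (by omega : t ≠ 0)
  have e : 1 / (t : ℝ) * (((Finset.univ : Finset (Fin t)).card : ℝ) * 1) = 1 := by
    rw [Finset.card_univ, Fintype.card_fin]
    field_simp
  rw [e] at h1
  exact h1

theorem TA_energy (ρ : G →* (V ≃ₗᵢ[ℂ] V)) {q L t : ℕ} (hq : 1 ≤ q) (ht : 1 ≤ t)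
    (a : Fin t → Ch G q L) (v : V) :
    ‖v‖ ^ 2 - (⟪TA ρ a v, v⟫_ℂ).re ≤ FE ρ a v := by
  have ht0 : (t : ℝ) ≠ 0 := by exact_mod_cast (by omega : t ≠ 0)
  have h1 : ‖v‖ ^ 2 - (⟪TA ρ a v, v⟫_ℂ).re = 1 / (t : ℝ) * ∑ i, (‖v‖ ^ 2 -
      (⟪cj ρ (AA ρ (T0 ρ (a i).1.1) L (a i).1.2) (a i).2 v, v⟫_ℂ).re) := by
    unfold TA
    rw [LinearMap.smul_apply, inner_smul_left, Complex.conj_ofReal, Complex.re_ofReal_mul,
      LinearMap.sum_apply, sum_inner, Complex.re_sum, Finset.sum_sub_distrib, Finset.sum_const,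
      Finset.card_univ, Fintype.card_fin, nsmul_eq_mul]
    field_simp
  rw [h1]
  unfold FE
  refine mul_le_mul_of_nonneg_left (Finset.sum_le_sum fun i _ => ?_) (by positivity)
  have h2 := ((T0_bd ρ (a i).1.1).AA ρ hq L (a i).1.2).cj_energy ρ (a i).2 v
  have h3 := chEn ρ hq L (a i).1.1 (a i).1.2 v
  have h4 : 16 / (q : ℝ) * ∑ r, En ρ ((a i).1.2 r) v =
      2 * (8 / (q : ℝ) * ∑ r, En ρ ((a i).1.2 r) v) := by ring
  rw [h4]
  linarith

omit [Fintype G] [FiniteDimensional ℂ V] in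
lemma FE_nonneg (ρ : G →* (V ≃ₗᵢ[ℂ] V)) {q L t : ℕ} (a : Fin t → Ch G q L) (v : V) :
    0 ≤ FE ρ a v := by
  unfold FE
  refine mul_nonneg (by positivity) (Finset.sum_nonneg fun i _ => ?_)
  have : 0 ≤ ∑ r, En ρ ((a i).1.2 r) v := Finset.sum_nonneg fun r _ => RC14.En_nonneg _ _ _
  positivity

/-- cardinality of a subset of a product -/
lemma card_prod_le {A B : Type} [Fintype A] [Fintype B] (P : A × B → Prop) (bad : A → Prop)
    (α β : ℝ) (hβ0 : 0 ≤ β)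
    (hα : (Nat.card {a : A // bad a} : ℝ) ≤ α * Fintype.card A)
    (hβ : ∀ a, ¬ bad a → (Nat.card {b : B // P (a, b)} : ℝ) ≤ β * Fintype.card B) :
    (Nat.card {p : A × B // P p} : ℝ) ≤ (α + β) * (Fintype.card A * Fintype.card B) := by
  classical
  have e1 : (Nat.card {p : A × B // P p} : ℝ) = ∑ a : A, (Nat.card {b : B // P (a, b)} : ℝ) := by
    have h1 : (Nat.card {p : A × B // P p} : ℝ) = ∑ p : A × B, if P p then (1 : ℝ) else 0 := by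
      rw [Nat.card_eq_fintype_card, Fintype.card_subtype, Finset.card_filter]
      push_cast
      rfl
    rw [h1, Fintype.sum_prod_type]
    refine Finset.sum_congr rfl fun a _ => ?_
    rw [Nat.card_eq_fintype_card, Fintype.card_subtype, Finset.card_filter]
    push_cast
    rfl
  have e2 : (Nat.card {a : A // bad a} : ℝ) = ∑ a : A, if bad a then (1 : ℝ) else 0 := by
    rw [Nat.card_eq_fintype_card, Fintype.card_subtype, Finset.card_filter]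
    push_cast
    rfl
  rw [e1]
  have h3 : ∀ a : A, (Nat.card {b : B // P (a, b)} : ℝ) ≤
      (if bad a then (1 : ℝ) else 0) * Fintype.card B + β * Fintype.card B := by
    intro a
    have h0 : 0 ≤ β * (Fintype.card B : ℝ) := by positivity
    by_cases h : bad a
    · rw [if_pos h, one_mul]
      have : Nat.card {b : B // P (a, b)} ≤ Fintype.card B := by
        rw [Nat.card_eq_fintype_card]
        exact Fintype.card_subtype_le _
      have h5 : (Nat.card {b : B // P (a, b)} : ℝ) ≤ Fintype.card B := by exact_mod_cast this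
      linarith
    · rw [if_neg h, zero_mul, zero_add]
      exact hβ a h
  refine (Finset.sum_le_sum fun a _ => h3 a).trans ?_
  rw [Finset.sum_add_distrib, ← Finset.sum_mul, ← e2, Finset.sum_const, Finset.card_univ,
    nsmul_eq_mul]
  have h4 := mul_le_mul_of_nonneg_right hα (Nat.cast_nonneg (Fintype.card B) : (0 : ℝ) ≤ _)
  nlinarith [h4]

/-- the bound for one irreducible representation -/
theorem AMPQ {D : ℝ} (hD : QRd G D) (hD0 : 0 < D) (ρ : G →* (V ≃ₗᵢ[ℂ] V)) (hirr : Irr ρ ⊤)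
    (hnt : ∃ g v, ρ g v ≠ v) {l : ℝ} (hl : 0 < l) (hl1 : l ≤ 1 / 10) {q : ℕ} (hq : 2 ≤ q)
    (L : ℕ) (hB : Real.exp (62 / 100 * (l * q ^ L)) + Real.exp (l * q ^ L) *
          (100 / D + 80000 * L * q * Real.exp (2 * (l * q ^ L)) / (D * l ^ 2)) ≤
      Real.exp (65 / 100 * (l * q ^ L)))
    {t : ℕ} (ht : 1 ≤ t) (ht2 : 320 ≤ l * q ^ L * t) {p : ℕ} (hp : 2 ≤ p) (R : ℕ)
    (hd : (Module.finrank ℂ V : ℝ) < Real.exp (l * q ^ L * t * (p : ℝ) ^ R / 160)) :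
    (Nat.card {a : (Fin t → Ch G q L) × (Fin R → Fin p → G) // ¬ ∀ v : V,
        1 * ‖v‖ ^ 2 ≤ 12 * FE ρ a.1 v + 10 / (p : ℝ) * ∑ r, En ρ (a.2 r) v} : ℝ) ≤
      (Real.exp (-(l * q ^ L * t / 20)) + R * Real.exp (-(l * q ^ L * t * p / 640))) *
        (Fintype.card (Fin t → Ch G q L) * Fintype.card (Fin R → Fin p → G)) := by
  classical
  have hntV := TREE.nontriv ρ hirr
  have hd0 : (0 : ℝ) < Module.finrank ℂ V := by exact_mod_cast Module.finrank_pos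
  set Λ : ℝ := l * q ^ L with hΛ
  have hΛ0 : 0 < Λ := by
    have : (0 : ℝ) < q := by exact_mod_cast (by omega : 0 < q)
    positivity
  have ht0 : (0 : ℝ) < t := by exact_mod_cast ht
  set N : ℝ := (Fintype.card G : ℝ) with hN
  have hN0 : 0 < N := by rw [hN]; exact_mod_cast Fintype.card_pos
  set bad : (Fin t → Ch G q L) → Prop := fun a =>
    Real.exp (7 / 10 * (Λ * t)) * Module.finrank ℂ V < rtr (ex (((Λ * t : ℝ) : ℂ) • TA ρ a))
    with hbad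
  -- the sum over the chunks
  have hTA : ∀ a : Fin t → Ch G q L, ((Λ * t : ℝ) : ℂ) • TA ρ a =
      ∑ i, cj ρ ((Λ : ℂ) • AA ρ (T0 ρ (a i).1.1) L (a i).1.2) (a i).2 := by
    intro a
    unfold TA
    simp only [PSBaux.cj_smul]
    rw [smul_smul, ← Finset.smul_sum]
    congr 1
    push_cast
    have : (t : ℂ) ≠ 0 := by exact_mod_cast ht0.ne'
    field_simp
  have hcardCh : (Fintype.card (Fin t → Ch G q L) : ℝ) = (N * N ^ (L * q) * N) ^ t := by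
    rw [Fintype.card_fun, Fintype.card_fin, Fintype.card_prod, Fintype.card_prod,
      Fintype.card_fun, Fintype.card_fin, Fintype.card_fun, Fintype.card_fin]
    push_cast
    rw [← hN, ← pow_mul, mul_comm q L]
  have hsum : ∑ a : Fin t → Ch G q L, rtr (ex (((Λ * t : ℝ) : ℂ) • TA ρ a)) ≤
      Module.finrank ℂ V * (Real.exp (65 / 100 * Λ)) ^ t * (N * N ^ (L * q) * N) ^ t := by
    have h1 := AWt ρ hirr (fun ω : G × (Fin L → Fin q → G) =>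
      (Λ : ℂ) • AA ρ (T0 ρ ω.1) L ω.2)
      (fun ω => PSBaux.smul_symm _ ((T0_bd ρ _).AA ρ (by omega) L _).1 _) t
    have h2 : ∑ ω : G × (Fin L → Fin q → G), tn (ex ((Λ : ℂ) • AA ρ (T0 ρ ω.1) L ω.2)) ≤
        N * N ^ (L * q) * Real.exp (65 / 100 * Λ) := by
      rw [Fintype.sum_prod_type]
      refine (chunkE hD hD0 ρ hirr hnt hl hl1 hq L).trans ?_
      exact mul_le_mul_of_nonneg_left hB (by positivity)
    have h3 : 0 ≤ ∑ ω : G × (Fin L → Fin q → G), tn (ex ((Λ : ℂ) • AA ρ (T0 ρ ω.1) L ω.2)) :=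
      Finset.sum_nonneg fun ω _ => div_nonneg (AW.rtr_ex_nonneg _
        (PSBaux.smul_symm _ ((T0_bd ρ _).AA ρ (by omega) L _).1 _)) (Nat.cast_nonneg _)
    have h4 : ∑ a : Fin t → Ch G q L, rtr (ex (((Λ * t : ℝ) : ℂ) • TA ρ a)) ≤
        Module.finrank ℂ V * (N * (N * N ^ (L * q) * Real.exp (65 / 100 * Λ))) ^ t := by
      simp only [hTA]
      refine h1.trans ?_
      refine mul_le_mul_of_nonneg_left ?_ hd0.le
      exact pow_le_pow_left₀ (by positivity) (mul_le_mul_of_nonneg_left h2 hN0.le) t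
    refine h4.trans (le_of_eq ?_)
    rw [mul_pow, mul_pow, mul_pow, mul_pow, mul_pow]
    ring
  have hα : (Nat.card {a : Fin t → Ch G q L // bad a} : ℝ) ≤
      Real.exp (-(Λ * t / 20)) * Fintype.card (Fin t → Ch G q L) := by
    have e2 : (Nat.card {a : Fin t → Ch G q L // bad a} : ℝ) =
        ∑ a : Fin t → Ch G q L, if bad a then (1 : ℝ) else 0 := by
      rw [Nat.card_eq_fintype_card, Fintype.card_subtype, Finset.card_filter]
      push_cast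
      rfl
    have h1 : ∀ a : Fin t → Ch G q L, (if bad a then (1 : ℝ) else 0) *
        (Real.exp (7 / 10 * (Λ * t)) * Module.finrank ℂ V) ≤
        rtr (ex (((Λ * t : ℝ) : ℂ) • TA ρ a)) := by
      intro a
      split_ifs with h
      · rw [one_mul]; exact h.le
      · rw [zero_mul]
        exact AW.rtr_ex_nonneg _ (PSBaux.smul_symm _ (TA_bd ρ (by omega) ht a).1 _)
    have h2 := (Finset.sum_le_sum fun a (_ : a ∈ (univ : Finset (Fin t → Ch G q L))) =>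
      h1 a).trans hsum
    rw [← Finset.sum_mul, ← e2] at h2
    have h3 : 0 < Real.exp (7 / 10 * (Λ * t)) * (Module.finrank ℂ V : ℝ) := by positivity
    rw [← le_div_iff₀ h3] at h2
    refine h2.trans (le_of_eq ?_)
    rw [hcardCh, ← Real.exp_nat_mul]
    have h4 : Real.exp (-(Λ * t / 20)) =
        Real.exp (t * (65 / 100 * Λ)) / Real.exp (7 / 10 * (Λ * t)) := by
      rw [← Real.exp_sub]
      congr 1
      ring
    rw [h4]
    field_simp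
  have hβ : ∀ a, ¬ bad a → (Nat.card {b : Fin R → Fin p → G // ¬ ∀ v : V,
        1 * ‖v‖ ^ 2 ≤ 12 * FE ρ a v + 10 / (p : ℝ) * ∑ r, En ρ (b r) v} : ℝ) ≤
      (R * Real.exp (-(Λ * t * p / 640))) * Fintype.card (Fin R → Fin p → G) := by
    intro a ha
    rw [hbad] at ha
    push Not at ha
    have hTAb := TA_bd ρ (by omega : 1 ≤ q) ht a
    obtain ⟨E, hE, htr, hgap⟩ := CUT (TA ρ a) hTAb.1
      (fun v => by have := (hTAb.2 v).2; rwa [one_mul] at this) (4 / 5) (by norm_num)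
      (Λ * t) (by positivity)
    have hτ : rtr E ≤ Real.exp (-(Λ * t / 10)) * Module.finrank ℂ V := by
      have h1 := htr.trans ha
      have h2 : Real.exp (-(Λ * t / 10)) =
          Real.exp (7 / 10 * (Λ * t)) / Real.exp (Λ * t * (4 / 5)) := by
        rw [← Real.exp_sub]
        congr 1
        ring
      rw [h2, div_mul_eq_mul_div, le_div_iff₀ (Real.exp_pos _), mul_comm]
      exact h1
    have hR := TREE ρ hirr E hE p R hp (Λ * t / 10) (by linarith) hτ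
      (lt_of_lt_of_eq hd (by congr 1; ring))
    refine le_trans ?_ (hR.trans (le_of_eq ?_))
    · refine Nat.cast_le.mpr (card_mono _ _ fun z hz hcon => hz fun v => ?_)
      have h1 := hcon v
      have h2 := DISP ρ E hE p R (by omega) z v
      have h3 := hgap v
      have h4 := TA_energy ρ (by omega : 1 ≤ q) ht a v
      have h5 := FE_nonneg ρ a v
      have hp0 : (0 : ℝ) < p := by exact_mod_cast (by omega : 0 < p)
      have h6 : 0 ≤ ∑ r, En ρ (z r) v := Finset.sum_nonneg fun r _ => RC14.En_nonneg ρ _ v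
      have h9 : 10 / (p : ℝ) * ∑ r, En ρ (z r) v = 10 * (1 / (p : ℝ) * ∑ r, En ρ (z r) v) := by
        ring
      have h10 : 8 / (p : ℝ) * ∑ r, En ρ (z r) v = 8 * (1 / (p : ℝ) * ∑ r, En ρ (z r) v) := by
        ring
      have h11 : 0 ≤ 1 / (p : ℝ) * ∑ r, En ρ (z r) v := by positivity
      rw [h10] at h2
      rw [h9]
      linarith
    · rw [Fintype.card_fun, Fintype.card_fin, Fintype.card_fun, Fintype.card_fin]
      push_cast
      rw [← hN, ← pow_mul, mul_comm p R]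
      congr 3
      ring
  have := card_prod_le (A := Fin t → Ch G q L) (B := Fin R → Fin p → G)
    (fun a => ¬ ∀ v : V, 1 * ‖v‖ ^ 2 ≤ 12 * FE ρ a.1 v + 10 / (p : ℝ) * ∑ r, En ρ (a.2 r) v)
    bad _ _ (by positivity) hα hβ
  exact this

end

end Run7.h107
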