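import Mathlib

/-!
Counting sequences with many bad letters (helper107, MP_bc5a73_al).
-/

namespace Run7.h107
open Finset

section
variable {Y : Type}

open Classical in
/-- the number of bad letters of a sequence; whether a letter is bad may depend on the
previous letters -/
noncomputable def nb (F : (j : ℕ) → (Fin j → Y) → Y → Prop) : (j : ℕ) → (Fin j → Y) → ℕ
  | 0, _ => 0
  | j + 1, z => nb F j (fun i => z i.castSucc) +
      (if F j (fun i => z i.castSucc) (z (Fin.last j)) then 1 else 0)

lemma sum_snoc {Y M : Type} [Fintype Y] [AddCommMonoid M] {j : ℕ} (f : (Fin (j + 1) → Y) → M) :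
    ∑ z : Fin (j + 1) → Y, f z = ∑ z : Fin j → Y, ∑ y : Y, f (Fin.snoc z y) := by
  rw [← Fintype.sum_prod_type',
    ← (Fin.snocEquiv (fun _ : Fin (j + 1) => Y)).sum_comp,
    ← (Equiv.prodComm (Fin j → Y) Y).sum_comp]
  rfl

variable [Fintype Y]

lemma cardsub (P : Y → Prop) [DecidablePred P] :
    (Nat.card {y : Y // P y} : ℝ) = ∑ y : Y, if P y then (1 : ℝ) else 0 := by
  rw [Nat.card_eq_fintype_card, Fintype.card_subtype, Finset.card_filter]
  push_cast
  rfl

/-- generating function -/
theorem nb_gen (F : (j : ℕ) → (Fin j → Y) → Y → Prop) {η t : ℝ} (ht : 1 ≤ t)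
    (hη : 0 ≤ η) (q : ℕ)
    (hF : ∀ j < q, ∀ z : Fin j → Y, (Nat.card {y // F j z y} : ℝ) ≤ η * Fintype.card Y) :
    ∑ z : Fin q → Y, t ^ (nb F q z) ≤ ((Fintype.card Y : ℝ) * (1 + t * η)) ^ q := by
  classical
  induction q with
  | zero => simp [nb]
  | succ q ih =>
    rw [sum_snoc]
    have h1 : ∀ z : Fin q → Y, ∑ y : Y, t ^ (nb F (q + 1) (Fin.snoc z y : Fin (q + 1) → Y)) ≤
        ((Fintype.card Y : ℝ) * (1 + t * η)) * t ^ (nb F q z) := by
      intro z
      have h2 : ∀ y : Y, t ^ (nb F (q + 1) (Fin.snoc z y : Fin (q + 1) → Y)) =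
          t ^ (nb F q z) * (1 + (t - 1) * (if F q z y then (1 : ℝ) else 0)) := by
        intro y
        have h3 : nb F (q + 1) (Fin.snoc z y : Fin (q + 1) → Y) =
            nb F q z + (if F q z y then 1 else 0) := by
          simp only [nb, Fin.snoc_last, Fin.snoc_castSucc]
        rw [h3, pow_add]
        split_ifs <;> simp
      simp only [h2]
      rw [← Finset.mul_sum, Finset.sum_add_distrib, ← Finset.mul_sum, ← cardsub,
        Finset.sum_const, Finset.card_univ, nsmul_eq_mul, mul_one, mul_comm]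
      refine mul_le_mul_of_nonneg_right ?_ (by positivity)
      have h4 := hF q (Nat.lt_succ_self q) z
      have h5 := mul_le_mul_of_nonneg_left h4 (by linarith : 0 ≤ t - 1)
      have h6 : 0 ≤ η * (Fintype.card Y : ℝ) := by positivity
      nlinarith
    refine (Finset.sum_le_sum fun z _ => h1 z).trans ?_
    rw [← Finset.mul_sum, pow_succ, mul_comm]
    refine mul_le_mul_of_nonneg_right (ih fun j hj => hF j (by omega)) (by positivity)

/-- few sequences have many bad letters -/
theorem nb_tail (F : (j : ℕ) → (Fin j → Y) → Y → Prop) {η : ℝ} (hη : 0 < η) (q k : ℕ)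
    (hq : 1 ≤ q) (hqη : q * η ≤ 1)
    (hF : ∀ j < q, ∀ z : Fin j → Y, (Nat.card {y // F j z y} : ℝ) ≤ η * Fintype.card Y) :
    (Nat.card {z : Fin q → Y // k ≤ nb F q z} : ℝ) ≤
      3 * (q * η) ^ k * (Fintype.card Y : ℝ) ^ q := by
  classical
  have hq0 : (0 : ℝ) < q := by exact_mod_cast hq
  have hqη0 : 0 < q * η := by positivity
  set t : ℝ := 1 / (q * η) with ht
  have ht1 : 1 ≤ t := by
    rw [ht, le_div_iff₀ hqη0]
    linarith
  have h1 := nb_gen F ht1 hη.le q hF
  have h2 : t ^ k * (Nat.card {z : Fin q → Y // k ≤ nb F q z} : ℝ) ≤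
      ∑ z : Fin q → Y, t ^ (nb F q z) := by
    rw [cardsub, Finset.mul_sum]
    refine Finset.sum_le_sum fun z _ => ?_
    split_ifs with h
    · rw [mul_one]
      exact pow_le_pow_right₀ ht1 h
    · rw [mul_zero]
      positivity
  have h3 : (1 + t * η) ^ q ≤ 3 := by
    have e1 : t * η = 1 / q := by rw [ht]; field_simp
    rw [e1]
    calc (1 + 1 / (q : ℝ)) ^ q ≤ (Real.exp (1 / q)) ^ q := by
          refine pow_le_pow_left₀ (by positivity) ?_ q
          linarith [Real.add_one_le_exp (1 / (q : ℝ))]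
      _ = Real.exp 1 := by
          rw [← Real.exp_nat_mul]
          congr 1
          field_simp
      _ ≤ 3 := by
          have := Real.exp_one_lt_d9
          linarith
  have h4 := h2.trans h1
  rw [mul_pow] at h4
  have h5 : (Fintype.card Y : ℝ) ^ q * (1 + t * η) ^ q ≤ (Fintype.card Y : ℝ) ^ q * 3 :=
    mul_le_mul_of_nonneg_left h3 (by positivity)
  have h6 : t ^ k * (q * η) ^ k = 1 := by
    rw [← mul_pow, ht]
    rw [one_div, inv_mul_cancel₀ hqη0.ne', one_pow]
  have h7 := mul_le_mul_of_nonneg_left (h4.trans h5) (by positivity : 0 ≤ (q * η) ^ k)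
  calc (Nat.card {z : Fin q → Y // k ≤ nb F q z} : ℝ)
      = (t ^ k * (q * η) ^ k) * (Nat.card {z : Fin q → Y // k ≤ nb F q z} : ℝ) := by
        rw [h6, one_mul]
    _ = (q * η) ^ k * (t ^ k * (Nat.card {z : Fin q → Y // k ≤ nb F q z} : ℝ)) := by ring
    _ ≤ (q * η) ^ k * ((Fintype.card Y : ℝ) ^ q * 3) := h7
    _ = _ := by ring

/-- a Markov type bound for a nonnegative function -/
lemma markov {Z : Type} [Fintype Z] (f : Z → ℝ) (hf : ∀ z, 0 ≤ f z) {T S : ℝ} (hT : 0 < T)
    (hS : ∑ z, f z ≤ S) : (Nat.card {z : Z // T < f z} : ℝ) ≤ S / T := by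
  classical
  rw [cardsub, le_div_iff₀ hT, Finset.sum_mul]
  refine (Finset.sum_le_sum fun z _ => ?_).trans hS
  split_ifs with h
  · rw [one_mul]; exact h.le
  · rw [zero_mul]; exact hf z

/-- a subset of a product described by a condition on one coordinate, the others being fixed -/
lemma fibre {C : Type} [Fintype C] [DecidableEq C] (P : (C → Y) → Prop) (c : C) {η : ℝ}
    (h : ∀ x : C → Y, (Nat.card {y : Y // P (Function.update x c y)} : ℝ) ≤
      η * Fintype.card Y) :
    (Nat.card {x : C → Y // P x} : ℝ) ≤ η * Fintype.card (C → Y) := by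
  classical
  rcases isEmpty_or_nonempty Y with hY | hY
  · have : IsEmpty (C → Y) := ⟨fun x => hY.elim (x c)⟩
    simp
  have hc : (0 : ℝ) < Fintype.card Y := by exact_mod_cast Fintype.card_pos
  -- double counting
  have h1 : ∑ x : C → Y, ∑ y : Y, (if P (Function.update x c y) then (1 : ℝ) else 0) =
      Fintype.card Y * ∑ x : C → Y, (if P x then (1 : ℝ) else 0) := by
    rw [← Fintype.sum_prod_type']
    have h2 : ∑ p : (C → Y) × Y, (if P (Function.update p.1 c p.2) then (1 : ℝ) else 0) =
        ∑ p : (C → Y) × Y, (if P p.1 then (1 : ℝ) else 0) := by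
      refine Fintype.sum_equiv
        { toFun := fun p => (Function.update p.1 c p.2, p.1 c)
          invFun := fun p => (Function.update p.1 c p.2, p.1 c)
          left_inv := ?_
          right_inv := ?_ } _ _ fun p => rfl
      · rintro ⟨x, y⟩
        simp
      · rintro ⟨x, y⟩
        simp
    rw [h2, Fintype.sum_prod_type]
    rw [Finset.mul_sum]
    refine Finset.sum_congr rfl fun x _ => ?_
    change ∑ _y : Y, (if P x then (1 : ℝ) else 0) = _
    rw [Finset.sum_const, Finset.card_univ, nsmul_eq_mul]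
  have h3 : ∑ x : C → Y, ∑ y : Y, (if P (Function.update x c y) then (1 : ℝ) else 0) ≤
      ∑ _x : C → Y, η * Fintype.card Y := by
    refine Finset.sum_le_sum fun x _ => ?_
    rw [← cardsub]
    exact h x
  rw [h1, ← cardsub, Finset.sum_const, Finset.card_univ, nsmul_eq_mul] at h3
  have h4 : (Fintype.card Y : ℝ) * (Nat.card {x : C → Y // P x} : ℝ) ≤
      (Fintype.card Y : ℝ) * (η * Fintype.card (C → Y)) := by
    refine h3.trans (le_of_eq ?_)
    ring
  exact le_of_mul_le_mul_left h4 hc

end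

end Run7.h107
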