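import Pool.Agent.Run7.h107.FLAM
import Pool.Agent.Run7.h107.BADC

/-!
One level of the tree in the first range of the parameter, with bad letters
(helper107, MP_bc5a73_al).
-/

namespace Run7.h107
open RC14
open scoped InnerProductSpace
open Finset

section
variable {G : Type} [Group G]
variable {V : Type} [NormedAddCommGroup V] [InnerProductSpace ℂ V] [FiniteDimensional ℂ V]

lemma rtr_mul_self (A : Module.End ℂ V) (hA : A.IsSymmetric) :
    hs (ex A) = rtr (ex (((2 : ℝ) : ℂ) • A)) := by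
  unfold hs
  rw [HSL.adjoint_symm _ (ex_symm A hA)]
  have h1 : ((2 : ℝ) : ℂ) • A = (2 : ℕ) • A := by
    rw [← Nat.cast_smul_eq_nsmul ℂ]
    norm_num
  rw [h1, ex_nsmul, pow_two]

open Classical in
/-- the sum over the good letters -/
noncomputable def XG (ρ : G →* (V ≃ₗᵢ[ℂ] V)) (A : Module.End ℂ V) (a ξ : ℝ) :
    (j : ℕ) → (Fin j → G) → Module.End ℂ V
  | 0, _ => 0
  | j + 1, z =>
    if tn (ex (XG ρ A a ξ j fun i => z i.castSucc)) * FL A a + ξ <
        tn (ex (XG ρ A a ξ j (fun i => z i.castSucc) + cj ρ ((a : ℂ) • A) (z (Fin.last j))))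
    then XG ρ A a ξ j fun i => z i.castSucc
    else XG ρ A a ξ j (fun i => z i.castSucc) + cj ρ ((a : ℂ) • A) (z (Fin.last j))

/-- bad letters -/
def FA1 (ρ : G →* (V ≃ₗᵢ[ℂ] V)) (A : Module.End ℂ V) (a ξ : ℝ) (j : ℕ) (z : Fin j → G)
    (y : G) : Prop :=
  tn (ex (XG ρ A a ξ j z)) * FL A a + ξ <
    tn (ex (XG ρ A a ξ j z + cj ρ ((a : ℂ) • A) y))

/-- the flags of the good letters -/
lemma XG_flags (ρ : G →* (V ≃ₗᵢ[ℂ] V)) (A : Module.End ℂ V) (a ξ : ℝ) :
    ∀ (j : ℕ) (z : Fin j → G), ∃ g : Fin j → ℝ, (∀ i, g i = 0 ∨ g i = 1) ∧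
      XG ρ A a ξ j z = ∑ i, ((g i : ℝ) : ℂ) • cj ρ ((a : ℂ) • A) (z i) ∧
      ∑ i, (1 - g i) = nb (FA1 ρ A a ξ) j z
  | 0, z => ⟨fun _ => 0, fun i => i.elim0, by simp [XG], by simp [nb]⟩
  | j + 1, z => by
    classical
    obtain ⟨g, h1, h2, h3⟩ := XG_flags ρ A a ξ j fun i => z i.castSucc
    by_cases hb : FA1 ρ A a ξ j (fun i => z i.castSucc) (z (Fin.last j))
    · refine ⟨Fin.snoc g 0, ?_, ?_, ?_⟩
      · intro i
        refine Fin.lastCases ?_ (fun i => ?_) i
        · left; exact Fin.snoc_last _ _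
        · rw [Fin.snoc_castSucc (α := fun _ => ℝ)]; exact h1 i
      · rw [Fin.sum_univ_castSucc, Fin.snoc_last (α := fun _ => ℝ)]
        simp only [Fin.snoc_castSucc (α := fun _ => ℝ), Complex.ofReal_zero, zero_smul, add_zero]
        rw [← h2, XG]
        exact if_pos hb
      · rw [Fin.sum_univ_castSucc, Fin.snoc_last (α := fun _ => ℝ)]
        simp only [Fin.snoc_castSucc (α := fun _ => ℝ)]
        rw [h3, nb, if_pos hb]
        push_cast
        ring
    · refine ⟨Fin.snoc g 1, ?_, ?_, ?_⟩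
      · intro i
        refine Fin.lastCases ?_ (fun i => ?_) i
        · right; exact Fin.snoc_last _ _
        · rw [Fin.snoc_castSucc (α := fun _ => ℝ)]; exact h1 i
      · rw [Fin.sum_univ_castSucc, Fin.snoc_last (α := fun _ => ℝ)]
        simp only [Fin.snoc_castSucc (α := fun _ => ℝ), Complex.ofReal_one, one_smul]
        rw [← h2, XG]
        exact if_neg hb
      · rw [Fin.sum_univ_castSucc, Fin.snoc_last (α := fun _ => ℝ)]
        simp only [Fin.snoc_castSucc (α := fun _ => ℝ)]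
        rw [h3, nb, if_neg hb]
        push_cast
        ring

/-- partial sums of conjugates are controlled by `FL` -/
lemma sub_FL [Nontrivial V] {A : Module.End ℂ V} {x : ℝ} (hA : Bd A x)
    (ρ : G →* (V ≃ₗᵢ[ℂ] V)) {j : ℕ} (z : Fin j → G) (w : Fin j → ℝ) (hw : ∀ i, 0 ≤ w i)
    {c N s : ℝ} (hN : 0 < N) (hc : 0 ≤ c) (hs' : ∑ i, w i ≤ N) (hs : c * N ≤ s) :
    tn (ex (∑ i, ((w i : ℝ) : ℂ) • cj ρ ((c : ℂ) • A) (z i))) ≤ FL A s := by
  have h1 : ∑ i, ((w i : ℝ) : ℂ) • cj ρ ((c : ℂ) • A) (z i) =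
      ∑ i, ((w i / N : ℝ) : ℂ) • cj ρ (((c * N : ℝ) : ℂ) • A) (z i) := by
    refine Finset.sum_congr rfl fun i _ => ?_
    rw [PSBaux.cj_smul, PSBaux.cj_smul, smul_smul, smul_smul]
    congr 1
    push_cast
    have : (N : ℂ) ≠ 0 := by exact_mod_cast hN.ne'
    field_simp
  have hcN : 0 ≤ c * N := by positivity
  rw [h1]
  refine SA _ _ (fun i _ => div_nonneg (hw i) hN.le) ?_ _
    (fun i => PSBaux.cj_symm ρ _ (PSBaux.smul_symm _ hA.1 _) _)
    (FL_one_le hA (hcN.trans hs)) ?_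
  · rw [← Finset.sum_div, div_le_one hN]
    exact hs'
  · intro i _ _
    have h2 : tn (ex (cj ρ (((c * N : ℝ) : ℂ) • A) (z i))) = FL A (c * N) := by
      rw [PSBaux.cj_smul]
      exact FL_cj ρ A (z i) (c * N)
    rw [h2]
    exact FL_mono hA hs

variable [Fintype G]

/-- Chebyshev for one letter -/
lemma cheb2 {D : ℝ} (hD : QRd G D) (hD0 : 0 ≤ D) (ρ : G →* (V ≃ₗᵢ[ℂ] V)) (hirr : Irr ρ ⊤)
    (X A : Module.End ℂ V) (hX : X.IsSymmetric) (hA : A.IsSymmetric) {ξ : ℝ} (hξ : 0 < ξ)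
    {E : ℝ} (h1 : tn (ex (((2 : ℝ) : ℂ) • X)) * tn (ex (((2 : ℝ) : ℂ) • A)) ≤ E) :
    D * ξ ^ 2 * (Nat.card {z : G // tn (ex X) * tn (ex A) + ξ < tn (ex (X + cj ρ A z))} : ℝ) ≤
      E * Fintype.card G := by
  classical
  have hnt := TREE.nontriv ρ hirr
  have hd : (0 : ℝ) < Module.finrank ℂ V := by exact_mod_cast Module.finrank_pos
  set d : ℝ := (Module.finrank ℂ V : ℝ) with hdd
  have h0 := HS2 hD ρ hirr (ex X) (ex A) (ex_symm X hX) (ex_symm A hA) hD0
  rw [rtr_mul_self X hX, rtr_mul_self A hA] at h0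
  have h2 : ∀ z : G, ξ ^ 2 * (if tn (ex X) * tn (ex A) + ξ < tn (ex (X + cj ρ A z))
      then (1 : ℝ) else 0) ≤
      (rtr (ex X * cj ρ (ex A) z) - rtr (ex X) * rtr (ex A) / d) ^ 2 / d ^ 2 := by
    intro z
    split_ifs with h
    · rw [mul_one, ← div_pow]
      refine pow_le_pow_left₀ hξ.le ?_ 2
      have h3 := GT X (cj ρ A z) hX (AW.cj_symm ρ A hA z)
      rw [ex_conj] at h3
      have h4 : tn (ex (X + cj ρ A z)) ≤ rtr (ex X * cj ρ (ex A) z) / d :=
        div_le_div_of_nonneg_right h3 hd.le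
      have h5 : (rtr (ex X * cj ρ (ex A) z) - rtr (ex X) * rtr (ex A) / d) / d =
          rtr (ex X * cj ρ (ex A) z) / d - tn (ex X) * tn (ex A) := by
        unfold tn
        rw [← hdd]
        field_simp
      rw [h5]
      linarith
    · rw [mul_zero]
      positivity
  rw [cardsub]
  calc D * ξ ^ 2 * ∑ z : G, (if tn (ex X) * tn (ex A) + ξ < tn (ex (X + cj ρ A z))
      then (1 : ℝ) else 0)
      = D * ∑ z : G, ξ ^ 2 * (if tn (ex X) * tn (ex A) + ξ < tn (ex (X + cj ρ A z))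
      then (1 : ℝ) else 0) := by rw [← Finset.mul_sum]; ring
    _ ≤ D * ∑ z : G, (rtr (ex X * cj ρ (ex A) z) - rtr (ex X) * rtr (ex A) / d) ^ 2 / d ^ 2 :=
        mul_le_mul_of_nonneg_left (Finset.sum_le_sum fun z _ => h2 z) hD0
    _ = (D * ∑ z : G, (rtr (ex X * cj ρ (ex A) z) - rtr (ex X) * rtr (ex A) / d) ^ 2) / d ^ 2 := by
        rw [← Finset.sum_div]
        ring
    _ ≤ (Fintype.card G * rtr (ex (((2 : ℝ) : ℂ) • X)) * rtr (ex (((2 : ℝ) : ℂ) • A))) / d ^ 2 :=
        div_le_div_of_nonneg_right h0 (by positivity)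
    _ = (tn (ex (((2 : ℝ) : ℂ) • X)) * tn (ex (((2 : ℝ) : ℂ) • A))) * Fintype.card G := by
        unfold tn
        rw [← hdd]
        field_simp
    _ ≤ _ := mul_le_mul_of_nonneg_right h1 (Nat.cast_nonneg _)

/-- one level, first range -/
theorem ASTEP {D : ℝ} (hD : QRd G D) (hD0 : 0 < D) (ρ : G →* (V ≃ₗᵢ[ℂ] V)) (hirr : Irr ρ ⊤)
    (A : Module.End ℂ V) (hA : Bd A 1) {α μ ξ E : ℝ} (hα : 0 ≤ α) (hμ : 0 ≤ μ) (hξ : 0 < ξ)
    (h1 : FL A α ≤ Real.exp (α * μ)) (h8 : FL A (8 * α) ^ 2 ≤ E) (q K : ℕ) (hK : 1 ≤ K)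
    (hqK : 8 * K ≤ q) (hη : q * (E / (D * ξ ^ 2)) ≤ 1) :
    (Nat.card {z : Fin q → G // ¬ FL (PC ρ z A) (2 * α) ≤
        Real.exp (2 * α * (4 / 3 * μ) + q * ξ)} : ℝ) ≤
      3 * (q * (E / (D * ξ ^ 2))) ^ K * (Fintype.card G : ℝ) ^ q := by
  have hntV := TREE.nontriv ρ hirr
  have hq0 : (0 : ℝ) < q := by exact_mod_cast (by omega : 0 < q)
  have hK0 : (0 : ℝ) < K := by exact_mod_cast hK
  have hqK' : 8 * (K : ℝ) ≤ q := by exact_mod_cast hqK
  have hq8 : (8 : ℝ) ≤ q := by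
    have : (1 : ℝ) ≤ K := by exact_mod_cast hK
    linarith
  have h81 : 1 ≤ FL A (8 * α) := FL_one_le hA (by positivity)
  have hE : 0 < E := by nlinarith
  have hηpos : 0 < E / (D * ξ ^ 2) := by positivity
  set a : ℝ := 8 * α / (3 * q) with ha
  have ha0 : 0 ≤ a := by positivity
  have haq : a * q = 8 / 3 * α := by rw [ha]; field_simp
  have haα : a ≤ α := by nlinarith
  -- few bad letters
  have hbad : ∀ j < q, ∀ z : Fin j → G, (Nat.card {y // FA1 ρ A a ξ j z y} : ℝ) ≤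
      E / (D * ξ ^ 2) * Fintype.card G := by
    intro j hj z
    obtain ⟨g, hg1, hg2, hg3⟩ := XG_flags ρ A a ξ j z
    have hXs : (XG ρ A a ξ j z).IsSymmetric := by
      rw [hg2]
      exact PSBaux.sum_symm _ _ fun i _ => PSBaux.smul_symm _
        (PSBaux.cj_symm ρ _ (PSBaux.smul_symm _ hA.1 _) _) _
    have hg0 : ∀ i, 0 ≤ g i := fun i => by rcases hg1 i with h | h <;> rw [h] <;> norm_num
    have hgle : ∑ i, g i ≤ q := by
      calc ∑ i, g i ≤ ∑ _i : Fin j, (1 : ℝ) := by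
            refine Finset.sum_le_sum fun i _ => ?_
            rcases hg1 i with h | h <;> rw [h] <;> norm_num
        _ = j := by simp
        _ ≤ q := by exact_mod_cast hj.le
    have e1 : tn (ex (((2 : ℝ) : ℂ) • XG ρ A a ξ j z)) ≤ FL A (8 * α) := by
      have e2 : ((2 : ℝ) : ℂ) • XG ρ A a ξ j z =
          ∑ i, ((g i : ℝ) : ℂ) • cj ρ (((2 * a : ℝ) : ℂ) • A) (z i) := by
        rw [hg2, Finset.smul_sum]
        refine Finset.sum_congr rfl fun i _ => ?_
        rw [PSBaux.cj_smul, PSBaux.cj_smul, smul_smul, smul_smul, smul_smul]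
        congr 1
        push_cast
        ring
      rw [e2]
      exact sub_FL hA ρ z g hg0 hq0 (by positivity) hgle (by nlinarith)
    have e3 : tn (ex (((2 : ℝ) : ℂ) • ((a : ℂ) • A))) ≤ FL A (8 * α) := by
      rw [smul_smul, ← Complex.ofReal_mul]
      exact FL_mono hA (by nlinarith)
    have e4 : 0 ≤ tn (ex (((2 : ℝ) : ℂ) • ((a : ℂ) • A))) := by
      have : 1 ≤ tn (ex (((2 : ℝ) : ℂ) • ((a : ℂ) • A))) := by
        rw [smul_smul, ← Complex.ofReal_mul]
        exact FL_one_le hA (by positivity)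
      linarith
    have e5 := cheb2 hD hD0.le ρ hirr (XG ρ A a ξ j z) ((a : ℂ) • A) hXs
      (PSBaux.smul_symm _ hA.1 _) hξ (E := E) (by
        refine le_trans ?_ h8
        rw [sq]
        exact mul_le_mul e1 e3 e4 (by linarith))
    have e6 : (Nat.card {y // FA1 ρ A a ξ j z y} : ℝ) = (Nat.card {y : G //
        tn (ex (XG ρ A a ξ j z)) * tn (ex ((a : ℂ) • A)) + ξ <
          tn (ex (XG ρ A a ξ j z + cj ρ ((a : ℂ) • A) y))} : ℝ) := rfl
    rw [e6, div_mul_eq_mul_div, le_div_iff₀ (by positivity), mul_comm]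
    exact e5
  have htail := nb_tail (FA1 ρ A a ξ) hηpos q K (by omega) hη hbad
  refine le_trans (Nat.cast_le.mpr (card_mono _ _ fun z hz => ?_)) htail
  by_contra hcon
  push Not at hcon
  apply hz
  obtain ⟨g, hg1, hg2, hg3⟩ := XG_flags ρ A a ξ q z
  have hg0 : ∀ i, 0 ≤ g i := fun i => by rcases hg1 i with h | h <;> rw [h] <;> norm_num
  have hg0' : ∀ i, 0 ≤ 1 - g i := fun i => by rcases hg1 i with h | h <;> rw [h] <;> norm_num
  -- growth of the good sum
  have hFa : FL A a ≤ Real.exp (a * μ) := FL_TH hA ha0 haα h1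
  have hFa1 : 1 ≤ FL A a := FL_one_le hA ha0
  have hgrow : ∀ (j : ℕ) (z : Fin j → G),
      tn (ex (XG ρ A a ξ j z)) ≤ (FL A a * (1 + ξ)) ^ j := by
    intro j
    induction j with
    | zero =>
      intro z
      rw [XG, ex_zero, pow_zero]
      unfold tn rtr
      rw [LinearMap.trace_one]
      have hd : (0 : ℝ) < Module.finrank ℂ V := by exact_mod_cast Module.finrank_pos
      rw [Complex.natCast_re, div_self hd.ne']
    | succ j ih =>
      intro z
      have h2 := ih fun i => z i.castSucc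
      have h3 : 1 ≤ FL A a * (1 + ξ) := by nlinarith
      have h4 : 1 ≤ (FL A a * (1 + ξ)) ^ j := one_le_pow₀ h3
      rw [XG]
      split_ifs with hb
      · rw [pow_succ]
        nlinarith
      · push Not at hb
        refine hb.trans ?_
        have h5 : tn (ex (XG ρ A a ξ j fun i => z i.castSucc)) * FL A a ≤
            (FL A a * (1 + ξ)) ^ j * FL A a := mul_le_mul_of_nonneg_right h2 (by linarith)
        have h6 : ξ ≤ (FL A a * (1 + ξ)) ^ j * FL A a * ξ := by
          have : 1 ≤ (FL A a * (1 + ξ)) ^ j * FL A a := by nlinarith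
          nlinarith
        rw [pow_succ]
        nlinarith
  set M : ℝ := Real.exp (2 * α * (4 / 3 * μ) + q * ξ) with hM
  have hM1 : 1 ≤ M := Real.one_le_exp (by positivity)
  have hgood : tn (ex (XG ρ A a ξ q z)) ≤ M := by
    refine (hgrow q z).trans ?_
    have h2 : FL A a * (1 + ξ) ≤ Real.exp (a * μ + ξ) := by
      rw [Real.exp_add]
      exact mul_le_mul hFa (by linarith [Real.add_one_le_exp ξ]) (by positivity)
        (Real.exp_pos _).le
    calc (FL A a * (1 + ξ)) ^ q ≤ (Real.exp (a * μ + ξ)) ^ q :=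
          pow_le_pow_left₀ (by positivity) h2 q
      _ = M := by
          rw [← Real.exp_nat_mul, hM]
          congr 1
          have : (q : ℝ) * (a * μ + ξ) = (a * q) * μ + q * ξ := by ring
          rw [this, haq]
          ring
  have hbadsum : tn (ex (∑ i, ((1 - g i : ℝ) : ℂ) •
      cj ρ (((8 * α / q : ℝ) : ℂ) • A) (z i))) ≤ M := by
    refine (sub_FL hA ρ z (fun i => 1 - g i) hg0' hK0 (by positivity) ?_ (s := α) ?_).trans ?_
    · rw [hg3]
      exact_mod_cast hcon.le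
    · rw [div_mul_eq_mul_div, div_le_iff₀ hq0]
      nlinarith
    · refine h1.trans (Real.exp_le_exp.2 ?_)
      have : 0 ≤ α * μ := by positivity
      have : 0 ≤ (q : ℝ) * ξ := by positivity
      linarith
  -- decomposition
  set B : Bool → Module.End ℂ V := fun b => if b then XG ρ A a ξ q z else
    ∑ i, ((1 - g i : ℝ) : ℂ) • cj ρ (((8 * α / q : ℝ) : ℂ) • A) (z i) with hB
  set w : Bool → ℝ := fun b => if b then 3 / 4 else 1 / 4 with hw
  have hdec : ((2 * α : ℝ) : ℂ) • PC ρ z A = ∑ b ∈ (univ : Finset Bool), ((w b : ℝ) : ℂ) • B b := by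
    rw [Fintype.sum_bool]
    simp only [hB, hw, if_true, Bool.false_eq_true, if_false]
    rw [hg2, Finset.smul_sum, Finset.smul_sum, ← Finset.sum_add_distrib]
    unfold PC
    rw [Fintype.card_fin, smul_smul, Finset.smul_sum]
    refine Finset.sum_congr rfl fun i _ => ?_
    simp only [PSBaux.cj_smul, smul_smul]
    rw [← add_smul]
    congr 1
    rw [ha]
    push_cast
    have : (q : ℂ) ≠ 0 := by exact_mod_cast hq0.ne'
    field_simp
    ring
  unfold FL
  rw [hdec]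
  refine SA _ _ ?_ ?_ _ ?_ hM1 ?_
  · intro b _
    cases b <;> simp [hw] <;> norm_num
  · rw [Fintype.sum_bool]
    simp only [hw, if_true, Bool.false_eq_true, if_false]
    norm_num
  · intro b
    cases b
    · simp only [hB, Bool.false_eq_true, if_false]
      exact PSBaux.sum_symm _ _ fun i _ => PSBaux.smul_symm _
        (PSBaux.cj_symm ρ _ (PSBaux.smul_symm _ hA.1 _) _) _
    · simp only [hB, if_true]
      rw [hg2]
      exact PSBaux.sum_symm _ _ fun i _ => PSBaux.smul_symm _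
        (PSBaux.cj_symm ρ _ (PSBaux.smul_symm _ hA.1 _) _) _
  · intro b _ _
    cases b
    · simp only [hB, Bool.false_eq_true, if_false]
      exact hbadsum
    · simp only [hB, if_true]
      exact hgood

end

end Run7.h107
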