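import Pool.Agent.Run7.h107.ABSM
import Pool.Agent.Run7.h107.AGH
import Pool.Agent.H84R2.Bab.G

/-!
Logarithmic diameter for all generating sets of finite simple groups which contain
`O(log log |G|)` random elements (helper107, MP_dee5d6_al).
-/

namespace Run7.h107
open RC14 Filter Topology
open Finset
open Pool.Agent.H84R2.Bab

/-- a spectral gap gives vertex expansion -/
theorem VE_of_Exp {G : Type} [Group G] [Fintype G] {m : ℕ} {x : Fin m → G} {ε : ℝ}
    (hm : 0 < m) (hε : 0 ≤ ε) (h : Expanding ε x) : VE G x (ε / 2) := by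
  classical
  intro A hA
  set B : Set G := {g : G | g ∉ A ∧ ∃ a ∈ A, ∃ i : Fin m, g = a * x i ∨ g = a * (x i)⁻¹} with hB
  have hcB : Nat.card {g : G // g ∉ A ∧ ∃ a ∈ A, ∃ i : Fin m, g = a * x i ∨ g = a * (x i)⁻¹} =
      Nat.card B := rfl
  rw [hcB]
  set b : ℝ := (Nat.card B : ℝ) with hb
  set a : ℝ := (Nat.card A : ℝ) with ha
  have hN : (0 : ℝ) < Fintype.card G := cG_pos
  set N : ℝ := (Fintype.card G : ℝ) with hNdef
  have hmR : (0 : ℝ) < m := by exact_mod_cast hm
  have ha0 : 0 ≤ a := Nat.cast_nonneg _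
  have haN : 2 * a ≤ N := by
    rw [Nat.card_eq_fintype_card (α := G)] at hA
    have h0 : ((2 * Nat.card A : ℕ) : ℝ) ≤ ((Fintype.card G : ℕ) : ℝ) := Nat.cast_le.mpr hA
    push_cast at h0
    exact h0
  set α : ℝ := a / N with hα
  have hαN : α * N = a := div_mul_cancel₀ a hN.ne'
  have hα0 : 0 ≤ α := div_nonneg ha0 hN.le
  have hα2 : α ≤ 1 / 2 := by
    rw [hα, div_le_iff₀ hN]
    linarith
  set I : G → ℝ := fun g => if g ∈ A then (1 : ℝ) else 0 with hI
  have hIs : ∑ g, I g = a := sum_ind A
  have hf0 : ∑ g, (I g - α) = 0 := by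
    rw [Finset.sum_sub_distrib, hIs, Finset.sum_const, Finset.card_univ, nsmul_eq_mul]
    linarith [hαN]
  have h1 := h.2 (fun g => I g - α) hf0
  have hI2 : ∀ g, I g ^ 2 = I g := by
    intro g
    simp only [hI]
    split_ifs <;> norm_num
  have hsq : ∑ g, (I g - α) ^ 2 = a * (1 - α) := by
    have e : ∀ g, (I g - α) ^ 2 = I g * (1 - 2 * α) + α ^ 2 := by
      intro g
      have := hI2 g
      nlinarith
    simp only [e]
    rw [Finset.sum_add_distrib, ← Finset.sum_mul, hIs, Finset.sum_const, Finset.card_univ,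
      nsmul_eq_mul]
    nlinarith [hαN]
  have hw : ∀ g, walk x (fun g => I g - α) g = walk x I g - α := by
    intro g
    unfold walk
    have e : ∑ i : Fin m, ((I (g * x i) - α) + (I (g * (x i)⁻¹) - α)) =
        ∑ i : Fin m, (I (g * x i) + I (g * (x i)⁻¹)) - m * (2 * α) := by
      have e2 : ∀ i : Fin m, (I (g * x i) - α) + (I (g * (x i)⁻¹) - α) =
        (I (g * x i) + I (g * (x i)⁻¹)) - 2 * α := fun i => by ring
      simp only [e2]
      rw [Finset.sum_sub_distrib, Finset.sum_const, Finset.card_univ, Fintype.card_fin,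
        nsmul_eq_mul]
    rw [e]
    field_simp
  have hsh : ∀ y : G, ∑ g, I (g * y) = a := by
    intro y
    rw [← hIs]
    exact Fintype.sum_equiv (Equiv.mulRight y) _ _ fun g => rfl
  have hws : ∑ g, walk x I g = a := by
    unfold walk
    rw [← Finset.sum_div, Finset.sum_comm]
    simp only [Finset.sum_add_distrib, hsh]
    rw [Finset.sum_const, Finset.card_univ, Fintype.card_fin, nsmul_eq_mul]
    field_simp
    ring
  have hcross : ∑ g, (I g - α) * walk x (fun g => I g - α) g =
      ∑ g, I g * walk x I g - α * a := by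
    have e : ∀ g, (I g - α) * walk x (fun g => I g - α) g =
        I g * walk x I g - α * I g - α * walk x I g + α ^ 2 := by
      intro g
      rw [hw]
      ring
    simp only [e]
    rw [Finset.sum_add_distrib, Finset.sum_sub_distrib, Finset.sum_sub_distrib, ← Finset.mul_sum,
      ← Finset.mul_sum, hIs, hws, Finset.sum_const, Finset.card_univ, nsmul_eq_mul]
    nlinarith [hαN]
  rw [hcross, hsq] at h1
  -- the boundary
  have hbd : ∀ y : G, (∃ i, y = x i ∨ y = (x i)⁻¹) →
      ∑ g, I g * (1 - I (g * y)) ≤ b := by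
    intro y hy
    have e1 : ∑ g, I g * (1 - I (g * y)) = ∑ g, I (g * y⁻¹) * (1 - I g) := by
      refine Fintype.sum_equiv (Equiv.mulRight y) _ _ fun g => ?_
      simp [Equiv.coe_mulRight, mul_assoc]
    rw [e1, hb, ← sum_ind B]
    refine Finset.sum_le_sum fun g _ => ?_
    by_cases hg : g ∈ A
    · have : I g = 1 := if_pos hg
      rw [this]
      split_ifs <;> norm_num
    · by_cases hg2 : g * y⁻¹ ∈ A
      · have hgB : g ∈ B := by
          refine ⟨hg, g * y⁻¹, hg2, ?_⟩
          obtain ⟨i, hi | hi⟩ := hy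
          · exact ⟨i, Or.inl (by rw [hi]; group)⟩
          · exact ⟨i, Or.inr (by rw [hi]; group)⟩
        rw [if_pos hgB]
        have e2 : I g = 0 := if_neg hg
        have e3 : I (g * y⁻¹) = 1 := if_pos hg2
        rw [e2, e3]
        norm_num
      · have e3 : I (g * y⁻¹) = 0 := if_neg hg2
        rw [e3, zero_mul]
        split_ifs <;> norm_num
  have hfin : a - ∑ g, I g * walk x I g ≤ b := by
    have e : a - ∑ g, I g * walk x I g =
        (∑ i : Fin m, (∑ g, I g * (1 - I (g * x i)) + ∑ g, I g * (1 - I (g * (x i)⁻¹)))) /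
          (2 * m) := by
      have e1 : ∀ y : G, ∑ g, I g * (1 - I (g * y)) = a - ∑ g, I g * I (g * y) := by
        intro y
        simp only [mul_sub, mul_one]
        rw [Finset.sum_sub_distrib, hIs]
      simp only [e1]
      have e2 : ∑ g, I g * walk x I g =
          (∑ i : Fin m, (∑ g, I g * I (g * x i) + ∑ g, I g * I (g * (x i)⁻¹))) / (2 * m) := by
        unfold walk
        simp only [mul_div_assoc', Finset.mul_sum, mul_add]
        rw [← Finset.sum_div, Finset.sum_comm]
        simp only [Finset.sum_add_distrib]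
      rw [e2]
      have e3 : ∑ i : Fin m, (a - ∑ g, I g * I (g * x i) + (a - ∑ g, I g * I (g * (x i)⁻¹))) =
          2 * m * a - ∑ i : Fin m, (∑ g, I g * I (g * x i) + ∑ g, I g * I (g * (x i)⁻¹)) := by
        have e4 : ∀ i : Fin m, (a - ∑ g, I g * I (g * x i) + (a - ∑ g, I g * I (g * (x i)⁻¹))) =
            2 * a - (∑ g, I g * I (g * x i) + ∑ g, I g * I (g * (x i)⁻¹)) := fun i => by ring
        simp only [e4]
        rw [Finset.sum_sub_distrib, Finset.sum_const, Finset.card_univ, Fintype.card_fin,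
          nsmul_eq_mul]
        ring
      rw [e3]
      field_simp
    rw [e, div_le_iff₀ (by positivity)]
    calc ∑ i : Fin m, (∑ g, I g * (1 - I (g * x i)) + ∑ g, I g * (1 - I (g * (x i)⁻¹)))
        ≤ ∑ i : Fin m, (b + b) := Finset.sum_le_sum fun i _ =>
          add_le_add (hbd _ ⟨i, Or.inl rfl⟩) (hbd _ ⟨i, Or.inr rfl⟩)
      _ = b * (2 * m) := by
          rw [Finset.sum_const, Finset.card_univ, Fintype.card_fin, nsmul_eq_mul]
          ring
  have h3 : ε / 2 * a ≤ ε * a * (1 - α) := by
    have : 0 ≤ ε * a * (1 / 2 - α) := by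
      have : 0 ≤ 1 / 2 - α := by linarith
      positivity
    linarith
  nlinarith

/-- vertex expansion gives logarithmic word length -/
theorem Len_of_VE {G : Type} [Group G] [Fintype G] {m : ℕ} {x : Fin m → G} {c : ℝ} (hc : 0 < c)
    (h : VE G x c) {S : Set G} (hS : ∀ i, x i ∈ S) {t : ℕ}
    (ht : (Fintype.card G : ℝ) < (1 + c) ^ t) (g : G) : Len S (2 * t) g := by
  classical
  set Bl : ℕ → Set G := fun s => {g | Len S s g} with hBl
  have hgrow : ∀ s, (1 + c) ^ s ≤ (Nat.card (Bl s) : ℝ) ∨
      Nat.card G < 2 * Nat.card (Bl s) := by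
    intro s
    induction s with
    | zero =>
      left
      rw [pow_zero]
      have : 0 < Nat.card (Bl 0) := by
        have : Nonempty (Bl 0) := ⟨⟨1, Len.one⟩⟩
        exact Nat.card_pos
      exact_mod_cast this
    | succ s ih =>
      have hsub : Bl s ⊆ Bl (s + 1) := fun y hy => Len.mono hy (Nat.le_succ s)
      have hle : Nat.card (Bl s) ≤ Nat.card (Bl (s + 1)) :=
        Nat.card_mono (Set.toFinite _) hsub
      rcases ih with ih | ih
      · by_cases h2 : 2 * Nat.card (Bl s) ≤ Nat.card G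
        · left
          have h3 := h (Bl s) h2
          set B : Set G := {g : G | g ∉ Bl s ∧ ∃ a ∈ Bl s, ∃ i : Fin m, g = a * x i ∨
            g = a * (x i)⁻¹} with hB
          have h4 : Nat.card (Bl s) + Nat.card B ≤ Nat.card (Bl (s + 1)) := by
            have hdisj : Disjoint (Bl s) B := by
              rw [Set.disjoint_left]
              intro y hy hy2
              exact hy2.1 hy
            have hun : Bl s ∪ B ⊆ Bl (s + 1) := by
              rintro y (hy | hy)
              · exact hsub hy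
              · obtain ⟨-, a, ha, i, hi | hi⟩ := hy
                · rw [hi]
                  exact Len.mul ha (Len.of_mem (hS i))
                · rw [hi]
                  exact Len.mul ha (Len.of_inv_mem (by rw [inv_inv]; exact hS i))
            have h5 : (Bl s ∪ B).ncard = (Bl s).ncard + B.ncard :=
              Set.ncard_union_eq hdisj (Set.toFinite _) (Set.toFinite _)
            have h6 := Set.ncard_le_ncard hun (Set.toFinite _)
            rw [h5] at h6
            simpa only [Nat.card_coe_set_eq] using h6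
          have h3' : c * (Nat.card (Bl s) : ℝ) ≤ (Nat.card B : ℝ) := h3
          have h7 : ((Nat.card (Bl s) : ℝ) + Nat.card B) ≤ Nat.card (Bl (s + 1)) := by
            exact_mod_cast h4
          calc (1 + c) ^ (s + 1) = (1 + c) ^ s * (1 + c) := pow_succ _ _
            _ ≤ (Nat.card (Bl s) : ℝ) * (1 + c) := by
                refine mul_le_mul_of_nonneg_right ih (by linarith)
            _ ≤ _ := by linarith
        · right
          omega
      · right
        omega
  have h1 : Nat.card G < 2 * Nat.card (Bl t) := by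
    rcases hgrow t with h1 | h1
    · exfalso
      have h2 : Nat.card (Bl t) ≤ Nat.card G := Nat.card_le_card_of_injective _
        (Subtype.val_injective (p := fun g => g ∈ Bl t))
      rw [Nat.card_eq_fintype_card (α := G)] at h2
      have h3 : (Nat.card (Bl t) : ℝ) ≤ Fintype.card G := by exact_mod_cast h2
      linarith
    · exact h1
  -- two balls meet
  have h2 : ∃ u ∈ Bl t, ∃ v ∈ Bl t, g * u = v := by
    by_contra hcon
    push Not at hcon
    have hdisj : Disjoint ((fun u => g * u) '' Bl t) (Bl t) := by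
      rw [Set.disjoint_left]
      rintro y ⟨u, hu, rfl⟩ hy
      exact hcon u hu _ hy rfl
    have h5 : ((fun u => g * u) '' Bl t ∪ Bl t).ncard =
        ((fun u => g * u) '' Bl t).ncard + (Bl t).ncard :=
      Set.ncard_union_eq hdisj (Set.toFinite _) (Set.toFinite _)
    rw [Set.ncard_image_of_injective _ (mul_right_injective g)] at h5
    have h6 : ((fun u => g * u) '' Bl t ∪ Bl t).ncard ≤ Nat.card G := by
      rw [← Set.ncard_univ]
      exact Set.ncard_le_ncard (Set.subset_univ _) (Set.toFinite _)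
    rw [h5] at h6
    rw [Nat.card_coe_set_eq] at h1
    omega
  obtain ⟨u, hu, v, hv, huv⟩ := h2
  have : g = v * u⁻¹ := by rw [← huv]; group
  rw [this, two_mul]
  exact Len.mul hv (Len.inv hu)

/-- vertex expansion gives logarithmic diameter -/
theorem diam_of_VE {G : Type} [Group G] [Fintype G] {m : ℕ} {x : Fin m → G} {c : ℝ} (hc : 0 < c)
    (hc1 : c ≤ 1) (h : VE G x c) {S : Set G} (hS : ∀ i, x i ∈ S)
    (hlog : 1 ≤ Real.log (Fintype.card G)) :
    ((Necf73648.cayleyGraph S).diam : ℝ) ≤ 8 / c * Real.log (Fintype.card G) := by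
  have hN : (0 : ℝ) < Fintype.card G := cG_pos
  set ℓ : ℝ := Real.log (Fintype.card G) with hℓ
  set t : ℕ := ⌊2 * ℓ / c⌋₊ + 1 with ht
  have h0 : c / 2 ≤ Real.log (1 + c) := by
    have h1 := Real.one_sub_inv_le_log_of_pos (show (0 : ℝ) < 1 + c by linarith)
    have h2 : c / 2 ≤ 1 - (1 + c)⁻¹ := by
      rw [← one_div, div_le_iff₀ (by norm_num : (0 : ℝ) < 2)]
      rw [sub_mul, div_mul_eq_mul_div, one_mul, le_sub_iff_add_le, ← le_sub_iff_add_le',
        div_le_iff₀ (by linarith)]
      nlinarith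
    linarith
  have h1 : ℓ < t * Real.log (1 + c) := by
    have h2 : 2 * ℓ / c < t := by
      rw [ht]
      push_cast
      exact Nat.lt_floor_add_one _
    have h3 : ℓ < t * (c / 2) := by
      rw [div_lt_iff₀ hc] at h2
      linarith
    exact h3.trans_le (mul_le_mul_of_nonneg_left h0 (Nat.cast_nonneg _))
  have h2 : (Fintype.card G : ℝ) < (1 + c) ^ t := by
    rw [← Real.log_lt_log_iff hN (by positivity), Real.log_pow]
    exact h1
  have h3 := g1 S (d := 2 * t) (fun y => Len_of_VE hc h hS h2 y)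
  have h4 : ((Necf73648.cayleyGraph S).diam : ℝ) ≤ 2 * t := by exact_mod_cast h3
  refine h4.trans ?_
  have h5 : (t : ℝ) ≤ 2 * ℓ / c + 1 := by
    rw [ht]
    push_cast
    have := Nat.floor_le (show 0 ≤ 2 * ℓ / c by positivity)
    linarith
  have h6 : (1 : ℝ) ≤ ℓ / c := by
    rw [le_div_iff₀ hc]
    linarith
  have e1 : 2 * ℓ / c = 2 * (ℓ / c) := by ring
  have e2 : 8 / c * ℓ = 8 * (ℓ / c) := by ring
  rw [e1] at h5
  rw [e2]
  linarith

/-- expansion is invariant under isomorphism -/
theorem VE_equiv {G H : Type} [Group G] [Group H] (e : G ≃* H) {m : ℕ} {x : Fin m → G} {c : ℝ}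
    (h : VE H (fun i => e (x i)) c) : VE G x c := by
  intro A hA
  have h1 : Nat.card (e '' A : Set H) = Nat.card A := by
    rw [Nat.card_coe_set_eq, Nat.card_coe_set_eq, Set.ncard_image_of_injective _ e.injective]
  have h2 := h (e '' A) (by rw [h1, ← Nat.card_congr e.toEquiv]; exact hA)
  rw [h1] at h2
  refine h2.trans (le_of_eq ?_)
  congr 1
  refine Nat.card_congr ((e.symm.toEquiv).subtypeEquiv fun g => ?_)
  obtain ⟨g, rfl⟩ := e.surjective g
  have e0 : e.symm.toEquiv (e g) = g := e.symm_apply_apply g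
  rw [e0]
  have e1 : e g ∈ e '' A ↔ g ∈ A := e.injective.mem_set_image
  rw [e1]
  refine and_congr_right fun _ => ⟨?_, ?_⟩
  · rintro ⟨_, ⟨a, ha, rfl⟩, i, hi⟩
    refine ⟨a, ha, i, ?_⟩
    rcases hi with hi | hi
    · left
      rw [← map_mul] at hi
      exact e.injective hi
    · right
      rw [← map_inv, ← map_mul] at hi
      exact e.injective hi
  · rintro ⟨a, ha, i, hi⟩
    refine ⟨e a, ⟨a, ha, rfl⟩, i, ?_⟩
    rcases hi with hi | hi
    · left
      rw [hi, map_mul]
    · right
      rw [hi, map_mul, map_inv]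

/-- the alternating groups -/
theorem alt_case : ∃ c : ℝ, 0 < c ∧ c ≤ 1 ∧ ∀ δ : ℝ, 0 < δ → ∀ᶠ n : ℕ in atTop, ∀ m : ℕ,
    Real.log n ≤ m →
    (1 - δ) * (Nat.card (Alt n) : ℝ) ^ m ≤
      (Nat.card {x : Fin m → Alt n // VE (Alt n) x c} : ℝ) := by
  obtain ⟨ε, hε, hev⟩ := AGMAIN 1 one_pos
  refine ⟨min (ε / 2) 1, lt_min (by positivity) one_pos, min_le_right _ _, fun δ hδ => ?_⟩
  have hlim : ∀ᶠ n : ℕ in atTop, (Real.log n) ^ 2 / (n : ℝ) ≤ δ := by
    have h1 : Tendsto (fun n : ℕ => Real.log (n : ℝ) ^ 2 / (n : ℝ)) atTop (𝓝 0) := by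
      have h2 := (Real.tendsto_pow_log_div_mul_add_atTop 1 0 2 one_ne_zero).comp
        (tendsto_natCast_atTop_atTop (R := ℝ))
      refine h2.congr fun n => ?_
      simp
    exact h1.eventually (ge_mem_nhds hδ) 
  filter_upwards [hev, hlim, eventually_ge_atTop 3] with n hn hn2 hn3 m hm
  have hm0 : 0 < m := by
    have h1 : (0 : ℝ) < Real.log n := Real.log_pos (by exact_mod_cast (by omega : 1 < n))
    exact_mod_cast h1.trans_le hm
  have h1 := hn m (by linarith)
  have h2 := card_compl (fun x : Fin m → Alt n => VE (Alt n) x (min (ε / 2) 1))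
  rw [h2, Fintype.card_fun, Fintype.card_fin]
  push_cast
  have h3 : Nat.card {x : Fin m → Alt n // ¬ VE (Alt n) x (min (ε / 2) 1)} ≤
      Nat.card {x : Fin m → Alt n // ¬ Expanding ε x} := by
    refine card_mono (fun x : Fin m → Alt n => ¬ VE (Alt n) x (min (ε / 2) 1))
      (fun x => ¬ Expanding ε x) ?_
    intro x hx hcon
    exact hx (VE_mono (VE_of_Exp hm0 hε.le hcon) (min_le_left _ _))
  have h4 : (Nat.card {x : Fin m → Alt n // ¬ VE (Alt n) x (min (ε / 2) 1)} : ℝ) ≤
      (Nat.card {x : Fin m → Alt n // ¬ Expanding ε x} : ℝ) := by exact_mod_cast h3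
  have h5 : (0 : ℝ) ≤ (Fintype.card (Alt n) : ℝ) ^ m := by positivity
  have h6 := mul_le_mul_of_nonneg_right hn2 h5
  rw [Nat.card_eq_fintype_card (α := Alt n)]
  linarith

theorem n_le_log_card {n : ℕ} (hn : 100 ≤ n) : (n : ℝ) ≤ Real.log (Nat.card (Alt n)) := by
  have hn0 : (0 : ℝ) < n := by exact_mod_cast (by omega : 0 < n)
  have hl : (4 : ℝ) ≤ Real.log n := by
    rw [Real.le_log_iff_exp_le hn0]
    have h1 : Real.exp 4 = Real.exp 1 ^ 4 := by rw [← Real.exp_nat_mul]; norm_num
    have h2 := Real.exp_one_lt_d9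
    have h3 : Real.exp 1 ^ 4 ≤ 2.7182818286 ^ 4 :=
      pow_le_pow_left₀ (Real.exp_pos 1).le h2.le 4
    have h4 : (100 : ℝ) ≤ n := by exact_mod_cast hn
    rw [h1]
    norm_num at h3 ⊢
    linarith
  have hnt : Nontrivial (Fin n) := Fin.nontrivial_iff_two_le.2 (by omega)
  have h1 : 2 * Nat.card (Alt n) = n.factorial := by
    rw [two_mul_nat_card_alternatingGroup, Nat.card_perm, Nat.card_eq_fintype_card,
      Fintype.card_fin]
  have h3 : (n : ℝ) ^ n / n.factorial ≤ Real.exp n := Real.pow_div_factorial_le_exp _ hn0.le n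
  have hf : (0 : ℝ) < n.factorial := by exact_mod_cast Nat.factorial_pos n
  rw [div_le_iff₀ hf] at h3
  have h4 : (n : ℝ) * Real.log n ≤ n + Real.log n.factorial := by
    have h5 := Real.log_le_log (by positivity) h3
    rwa [Real.log_mul (Real.exp_pos _).ne' hf.ne', Real.log_exp, Real.log_pow] at h5
  have hG0 : (0 : ℝ) < Nat.card (Alt n) := by
    have : 0 < Nat.card (Alt n) := by
      have := Nat.factorial_pos n
      omega
    exact_mod_cast this
  have h7 : Real.log n.factorial = Real.log 2 + Real.log (Nat.card (Alt n)) := by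
    rw [← Real.log_mul two_ne_zero hG0.ne', ← h1]
    push_cast
    rfl
  have h8 : Real.log 2 ≤ 1 := by
    have := Real.log_two_lt_d9
    linarith
  have h9 : (100 : ℝ) ≤ n := by exact_mod_cast hn
  nlinarith

/-- the minimal dimension and the expansion of the groups other than the alternating ones -/
theorem lie_case {δ A : ℝ} (hδ : 0 < δ) (hA : 0 ≤ A) : ∃ N : ℕ,
    ∀ (G : Type) [Group G] [Finite G] [IsSimpleGroup G],
      (∃ a b : G, a * b ≠ b * a) → N ≤ Nat.card G →
      (Nat.card (ConjClasses G) : ℝ) ≤ (minDim G : ℝ) ^ A → ∀ m : ℕ,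
      10 ^ 10 * (1 + A) * Real.log (Real.log (Nat.card G)) ≤ m →
      (1 - δ) * (Nat.card G : ℝ) ^ m ≤
        (Nat.card {x : Fin m → G // VE G x (1 / 200000)} : ℝ) := by
  obtain ⟨N, hN⟩ := absolute_main hδ
  refine ⟨max N ⌈Real.exp (18 * 2 ^ 3)⌉₊, ?_⟩
  intro G _ _ _ hna hcard hk m hm
  classical
  let _i : Fintype G := Fintype.ofFinite G
  refine hN G hna ((le_max_left _ _).trans hcard) m (le_trans ?_ hm)
  have h1 : Real.exp (18 * 2 ^ 3) ≤ Nat.card G :=
    (Nat.le_ceil _).trans (by exact_mod_cast (le_max_right _ _).trans hcard)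
  have h2 : 18 * 2 ^ 3 ≤ Real.log (Nat.card G) := by
    rw [← Real.log_exp (18 * 2 ^ 3)]
    exact Real.log_le_log (Real.exp_pos _) h1
  have h3 := minDim_lower hna
  rw [← Nat.card_eq_fintype_card] at h3
  have hD0 : (0 : ℝ) ≤ minDim G := Nat.cast_nonneg _
  have h4 : (2 : ℝ) ≤ minDim G := by
    by_contra hc
    push Not at hc
    have h5 : (minDim G : ℝ) ^ 3 < 2 ^ 3 := pow_lt_pow_left₀ hc hD0 (by norm_num)
    linarith
  have h5 : 0 < Real.log (minDim G) := Real.log_pos (by linarith)
  have h6 : Real.log (Nat.card (ConjClasses G)) / Real.log (minDim G) ≤ A := by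
    rw [div_le_iff₀ h5, ← Real.log_rpow (by linarith)]
    refine Real.log_le_log ?_ hk
    have : 0 < Nat.card (ConjClasses G) := Nat.card_pos
    exact_mod_cast this
  have h7 : 0 ≤ Real.log (Real.log (Nat.card G)) := Real.log_nonneg (by linarith)
  refine mul_le_mul_of_nonneg_right ?_ h7
  linarith

/-- all generating sets which contain `O(log log |G|)` random elements -/
theorem BABmain : ∃ C : ℝ, 0 < C ∧ ∀ δ A : ℝ, 0 < δ → 0 ≤ A → ∃ N : ℕ,
    ∀ (G : Type) [Group G] [Finite G] [IsSimpleGroup G],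
      (∃ a b : G, a * b ≠ b * a) → N ≤ Nat.card G →
      ((∃ n : ℕ, Nonempty (G ≃* alternatingGroup (Fin n))) ∨
        (Nat.card (ConjClasses G) : ℝ) ≤ (minDim G : ℝ) ^ A) → ∀ m : ℕ,
      10 ^ 10 * (1 + A) * Real.log (Real.log (Nat.card G)) ≤ m →
      (1 - δ) * (Nat.card G : ℝ) ^ m ≤
        (Nat.card {x : Fin m → G // ∀ S : Set G, (∀ i, x i ∈ S) →
          Subgroup.closure S = ⊤ ∧
            ((Necf73648.cayleyGraph S).diam : ℝ) ≤ C * Real.log (Nat.card G)} : ℝ) := by
  obtain ⟨c, hc, hc1, halt⟩ := alt_case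
  set c' : ℝ := min c (1 / 200000) with hc'
  have hc'0 : 0 < c' := lt_min hc (by norm_num)
  have hc'1 : c' ≤ 1 := (min_le_left _ _).trans hc1
  refine ⟨8 / c', by positivity, fun δ A hδ hA => ?_⟩
  obtain ⟨N1, hN1⟩ := lie_case hδ hA
  obtain ⟨n0, hn0⟩ := eventually_atTop.mp (halt δ hδ)
  refine ⟨max (max N1 3) ((max n0 100).factorial + 1), ?_⟩
  intro G _ _ _ hna hcard hG m hm
  classical
  let _i : Fintype G := Fintype.ofFinite G
  have hcN1 : N1 ≤ Nat.card G := (le_max_left _ _).trans ((le_max_left _ _).trans hcard)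
  have hc3 : 3 ≤ Nat.card G := (le_max_right _ _).trans ((le_max_left _ _).trans hcard)
  have hcf : (max n0 100).factorial + 1 ≤ Nat.card G := (le_max_right _ _).trans hcard
  have hlog : 1 ≤ Real.log (Fintype.card G) := by
    rw [Real.le_log_iff_exp_le cG_pos]
    have h2 := Real.exp_one_lt_d9
    rw [Nat.card_eq_fintype_card] at hc3
    have h3 : (3 : ℝ) ≤ Fintype.card G := by exact_mod_cast hc3
    linarith
  -- expansion is enough
  suffices hve : (1 - δ) * (Nat.card G : ℝ) ^ m ≤
      (Nat.card {x : Fin m → G // VE G x c'} : ℝ) by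
    refine hve.trans ?_
    have h1 := card_mono (fun x : Fin m → G => VE G x c') (fun x => ∀ S : Set G, (∀ i, x i ∈ S) →
          Subgroup.closure S = ⊤ ∧
            ((Necf73648.cayleyGraph S).diam : ℝ) ≤ 8 / c' * Real.log (Nat.card G)) ?_
    · exact_mod_cast h1
    · intro x hx S hS
      refine ⟨?_, ?_⟩
      · rw [eq_top_iff]
        intro g _
        have hex : ∃ t : ℕ, (Fintype.card G : ℝ) < (1 + c') ^ t :=
          pow_unbounded_of_one_lt _ (by linarith)
        obtain ⟨t, ht⟩ := hex
        obtain ⟨l, -, hl2, hl3⟩ := Len_of_VE hc'0 hx hS ht g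
        rw [← hl3]
        refine Subgroup.list_prod_mem _ fun y hy => ?_
        rcases hl2 y hy with h | h
        · exact Subgroup.subset_closure h
        · exact (Subgroup.inv_mem_iff _).mp (Subgroup.subset_closure h)
      · rw [Nat.card_eq_fintype_card]
        exact diam_of_VE hc'0 hc'1 hx hS hlog
  rcases hG with ⟨n, ⟨e⟩⟩ | hk
  · -- alternating groups
    have hcn : Nat.card G = Nat.card (Alt n) := Nat.card_congr e.toEquiv
    have hn : max n0 100 < n := by
      by_contra hcon
      push Not at hcon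
      have h1 : Nat.card (Alt n) ≤ n.factorial := by
        have h2 : Nat.card (Alt n) ≤ Nat.card (Equiv.Perm (Fin n)) :=
          Nat.card_le_card_of_injective _ (Subtype.val_injective)
        rwa [Nat.card_perm, Nat.card_fin] at h2
      have h2 := Nat.factorial_le hcon
      omega
    have hnn0 : n0 ≤ n := (le_max_left _ _).trans hn.le
    have hn100 : 100 ≤ n := (le_max_right _ _).trans hn.le
    have h1 := n_le_log_card hn100
    have h2 : Real.log n ≤ Real.log (Real.log (Nat.card G)) := by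
      rw [hcn]
      exact Real.log_le_log (by exact_mod_cast (by omega : 0 < n)) h1
    have h3 : 0 ≤ Real.log n := Real.log_nonneg (by exact_mod_cast (by omega : 1 ≤ n))
    have h4 : Real.log n ≤ m := by
      refine le_trans ?_ hm
      have h5 : 1 * Real.log (Real.log (Nat.card G)) ≤
          10 ^ 10 * (1 + A) * Real.log (Real.log (Nat.card G)) :=
        mul_le_mul_of_nonneg_right (by linarith) (h3.trans h2)
      linarith
    have h5 := hn0 n hnn0 m h4
    rw [hcn]
    refine h5.trans ?_
    have h6 : Nat.card {x : Fin m → Alt n // VE (Alt n) x c} ≤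
        Nat.card {x : Fin m → G // VE G x c'} := by
      refine Nat.card_le_card_of_injective (fun y => ⟨fun i => e.symm (y.1 i), ?_⟩) ?_
      · refine VE_mono (VE_equiv e ?_) (min_le_left _ _)
        have e1 : (fun i => e (e.symm (y.1 i))) = y.1 := funext fun i => e.apply_symm_apply _
        rw [e1]
        exact y.2
      · intro y z hyz
        have h7 := congrArg Subtype.val hyz
        apply Subtype.ext
        funext i
        exact e.symm.injective (congrFun h7 i)
    exact_mod_cast h6
  · refine (hN1 G hna hcN1 hk m hm).trans ?_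
    have h1 := card_mono (fun x : Fin m → G => VE G x (1 / 200000)) (fun x => VE G x c')
      (fun x hx => VE_mono hx (min_le_right _ _))
    exact_mod_cast h1

end Run7.h107
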