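import Pool.Agent.Run7.h107.BAB
import Pool.Agent.Run7.h107.AGQ

/-!
Diameter of `A_n` for all generating sets which contain few random elements (helper107,
MP_dee5d6_al).
-/

namespace Run7.h107
open RC14 Filter Topology
open Finset
open Pool.Agent.H84R2.Bab

theorem log_card_Alt_le {n : ℕ} (hn : 2 ≤ n) :
    Real.log (Fintype.card (Alt n)) ≤ n * Real.log n := by
  have hnt : Nontrivial (Fin n) := Fin.nontrivial_iff_two_le.2 hn
  have h1 : 2 * Nat.card (Alt n) = n.factorial := by
    rw [two_mul_nat_card_alternatingGroup, Nat.card_perm, Nat.card_eq_fintype_card,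
      Fintype.card_fin]
  have h2 : Fintype.card (Alt n) ≤ n ^ n := by
    rw [← Nat.card_eq_fintype_card]
    have := Nat.factorial_le_pow n
    omega
  have h3 : (0 : ℝ) < Fintype.card (Alt n) := cG_pos
  calc Real.log (Fintype.card (Alt n)) ≤ Real.log ((n : ℝ) ^ n) := by
        refine Real.log_le_log h3 ?_
        exact_mod_cast h2
    _ = n * Real.log n := Real.log_pow _ _

/-- expansion gives generation and small diameter for all larger sets -/
theorem good_of_exp {n m : ℕ} (hn : 100 ≤ n) (hm : 0 < m) {x : Fin m → Alt n} {ε : ℝ} (hε : 0 < ε)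
    (hε1 : ε ≤ 1) (h : Expanding ε x) (S : Set (Alt n)) (hS : ∀ i, x i ∈ S) :
    Subgroup.closure S = ⊤ ∧
      ((Necf73648.cayleyGraph S).diam : ℝ) ≤ 16 * (1 / ε) * (n * Real.log n) := by
  constructor
  · rw [eq_top_iff, ← h.1]
    refine Subgroup.closure_mono ?_
    rintro _ ⟨i, rfl⟩
    exact hS i
  · have h1 : VE (Alt n) x (ε / 2) := VE_of_Exp hm hε.le h
    have h2 : (1 : ℝ) ≤ Real.log (Fintype.card (Alt n)) := by
      have := n_le_log_card hn
      rw [Nat.card_eq_fintype_card] at this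
      have h3 : (100 : ℝ) ≤ n := by exact_mod_cast hn
      linarith
    have h3 := diam_of_VE (by positivity : 0 < ε / 2) (by linarith) h1 hS h2
    refine h3.trans ?_
    have h4 : 8 / (ε / 2) = 16 * (1 / ε) := by field_simp; norm_num
    rw [h4]
    exact mul_le_mul_of_nonneg_left (log_card_Alt_le (by omega)) (by positivity)

/-- all generating sets of `A_n` which contain `C (log log n)²` random elements -/
theorem BACmain : ∃ C : ℝ, 1 ≤ C ∧ ∀ᶠ n : ℕ in atTop, ∀ m : ℕ,
    C * (Real.log (Real.log n)) ^ 2 ≤ m →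
    (Nat.card {x : Fin m → Alt n // ¬ ∀ S : Set (Alt n), (∀ i, x i ∈ S) →
      Subgroup.closure S = ⊤ ∧ ((Necf73648.cayleyGraph S).diam : ℝ) ≤
        C * (n * Real.log n) * Real.exp (C * (Real.log (2 + Real.log n / m)) ^ 2)} : ℝ) ≤
      (Real.log n) ^ 2 / n * (Fintype.card (Alt n) : ℝ) ^ m := by
  obtain ⟨C, hC, hev⟩ := MAINU
  refine ⟨16 * C, by linarith, ?_⟩
  filter_upwards [hev, eventually_ge_atTop 100] with n hn hn1 m hm
  have hn1R : (100 : ℝ) ≤ n := by exact_mod_cast hn1
  have hmC : C * (Real.log (Real.log n)) ^ 2 ≤ m := by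
    refine le_trans ?_ hm
    have : 0 ≤ (Real.log (Real.log n)) ^ 2 := sq_nonneg _
    nlinarith
  have hlog : (4 : ℝ) ≤ Real.log n := by
    rw [Real.le_log_iff_exp_le (by linarith)]
    have h1 : Real.exp 4 = Real.exp 1 ^ 4 := by rw [← Real.exp_nat_mul]; norm_num
    have h2 := Real.exp_one_lt_d9
    have h3 : Real.exp 1 ^ 4 ≤ 2.7182818286 ^ 4 :=
      pow_le_pow_left₀ (Real.exp_pos 1).le h2.le 4
    rw [h1]
    norm_num at h3 ⊢
    linarith
  have hm0 : 0 < m := by
    have h1 : 0 < Real.log (Real.log n) := Real.log_pos (by linarith)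
    have h2 : (0 : ℝ) < m := lt_of_lt_of_le (by positivity) hm
    exact_mod_cast h2
  refine le_trans ?_ (hn m hmC)
  set E : ℝ := C * (Real.log (2 + Real.log n / m)) ^ 2 with hE
  have hE0 : 0 ≤ E := by positivity
  have h1 := card_mono (fun x : Fin m → Alt n => ¬ ∀ S : Set (Alt n), (∀ i, x i ∈ S) →
      Subgroup.closure S = ⊤ ∧ ((Necf73648.cayleyGraph S).diam : ℝ) ≤
        16 * C * (n * Real.log n) * Real.exp (16 * C * (Real.log (2 + Real.log n / m)) ^ 2))
      (fun x => ¬ Expanding (Real.exp (-E)) x) ?_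
  · exact_mod_cast h1
  · intro x hx hcon
    refine hx fun S hS => ?_
    have h2 := good_of_exp hn1 hm0 (Real.exp_pos (-E)) (Real.exp_le_one_iff.2 (by linarith)) hcon S hS
    refine ⟨h2.1, h2.2.trans ?_⟩
    have e1 : 1 / Real.exp (-E) = Real.exp E := by rw [Real.exp_neg, one_div, inv_inv]
    have e2 : Real.exp E ≤ Real.exp (16 * C * (Real.log (2 + Real.log n / m)) ^ 2) := by
      refine Real.exp_le_exp.2 ?_
      have : 0 ≤ C * (Real.log (2 + Real.log n / m)) ^ 2 := hE0
      nlinarith
    have hnl : 0 ≤ (n : ℝ) * Real.log n := by positivity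
    rw [e1]
    calc 16 * Real.exp E * (n * Real.log n)
        ≤ 16 * Real.exp (16 * C * (Real.log (2 + Real.log n / m)) ^ 2) * (n * Real.log n) := by
          gcongr
      _ = 16 * (n * Real.log n) * Real.exp (16 * C * (Real.log (2 + Real.log n / m)) ^ 2) := by
          ring
      _ ≤ 16 * C * (n * Real.log n) *
          Real.exp (16 * C * (Real.log (2 + Real.log n / m)) ^ 2) := by
          refine mul_le_mul_of_nonneg_right ?_ (Real.exp_pos _).le
          refine mul_le_mul_of_nonneg_right ?_ hnl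
          linarith

end Run7.h107
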