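import Pool.Agent.Run7.h107.PH1

/-!
Base operators, expectation over a chunk, averages over independent chunks, spectral cut
(helper107, MP_bc5a73_al).
-/

namespace Run7.h107
open RC14
open scoped InnerProductSpace
open Finset

section
variable {G : Type} [Group G]
variable {V : Type} [NormedAddCommGroup V] [InnerProductSpace ℂ V] [FiniteDimensional ℂ V]

/-- the base operator `(2 + ρ(x) + ρ(x)⁻¹) / 4` -/
noncomputable def T0 (ρ : G →* (V ≃ₗᵢ[ℂ] V)) (x : G) : Module.End ℂ V :=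
  ((1 / 4 : ℝ) : ℂ) • ((2 : ℂ) • (1 : Module.End ℂ V) + (op ρ x + op ρ x⁻¹))

omit [FiniteDimensional ℂ V] in
lemma re_op_inv (ρ : G →* (V ≃ₗᵢ[ℂ] V)) (x : G) (v : V) :
    (⟪ρ x⁻¹ v, v⟫_ℂ).re = (⟪ρ x v, v⟫_ℂ).re := by
  rw [TYPESaux ρ x v, ← inner_conj_symm, Complex.conj_re]
where
  TYPESaux (ρ : G →* (V ≃ₗᵢ[ℂ] V)) (x : G) (v : V) : ⟪ρ x⁻¹ v, v⟫_ℂ = ⟪v, ρ x v⟫_ℂ := by
    have h : v = ρ x⁻¹ (ρ x v) := by
      rw [map_inv]
      exact ((ρ x).symm_apply_apply v).symm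
    conv_lhs => rw [h]
    rw [← h]
    conv_lhs => rw [h]
    rw [← h]
    have h2 : ⟪ρ x⁻¹ v, ρ x⁻¹ (ρ x v)⟫_ℂ = ⟪v, ρ x v⟫_ℂ := (ρ x⁻¹).inner_map_map _ _
    rw [← h] at h2
    exact h2

omit [FiniteDimensional ℂ V] in
lemma norm_rho_sub (ρ : G →* (V ≃ₗᵢ[ℂ] V)) (x : G) (v : V) :
    ‖ρ x v - v‖ ^ 2 = 2 * ‖v‖ ^ 2 - 2 * (⟪ρ x v, v⟫_ℂ).re := by
  have h := norm_sub_sq (𝕜 := ℂ) (ρ x v) v
  rw [(ρ x).norm_map] at h
  have h2 : RCLike.re ⟪ρ x v, v⟫_ℂ = (⟪ρ x v, v⟫_ℂ).re := rfl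
  rw [h2] at h
  linarith

omit [FiniteDimensional ℂ V] in
lemma T0_quad (ρ : G →* (V ≃ₗᵢ[ℂ] V)) (x : G) (v : V) :
    (⟪T0 ρ x v, v⟫_ℂ).re = 1 / 2 * ‖v‖ ^ 2 + 1 / 2 * (⟪ρ x v, v⟫_ℂ).re := by
  unfold T0
  rw [LinearMap.smul_apply, inner_smul_left, Complex.conj_ofReal, Complex.re_ofReal_mul,
    LinearMap.add_apply, LinearMap.add_apply, inner_add_left, inner_add_left, Complex.add_re,
    Complex.add_re, op_apply, op_apply, re_op_inv, LinearMap.smul_apply, inner_smul_left,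
    Module.End.one_apply, inner_self_eq_norm_sq_to_K]
  have : ((starRingEnd ℂ) (2 : ℂ) * (RCLike.ofReal ‖v‖ : ℂ) ^ 2).re = 2 * ‖v‖ ^ 2 := by
    have h2 : (starRingEnd ℂ) (2 : ℂ) = ((2 : ℝ) : ℂ) := by
      have := Complex.conj_ofReal 2
      simpa using this
    rw [h2, Complex.re_ofReal_mul]
    norm_cast
  rw [this]
  ring

omit [FiniteDimensional ℂ V] in
lemma T0_energy (ρ : G →* (V ≃ₗᵢ[ℂ] V)) (x : G) (v : V) :
    ‖v‖ ^ 2 - (⟪T0 ρ x v, v⟫_ℂ).re = 1 / 4 * ‖ρ x v - v‖ ^ 2 := by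
  rw [T0_quad, norm_rho_sub]
  ring

omit [FiniteDimensional ℂ V] in
lemma T0_bd (ρ : G →* (V ≃ₗᵢ[ℂ] V)) (x : G) : Bd (T0 ρ x) 1 := by
  constructor
  · unfold T0
    refine PSBaux.smul_symm _ ?_ _
    intro v w
    have h1 : ∀ (g : G) (v w : V), ⟪ρ g v, w⟫_ℂ = ⟪v, ρ g⁻¹ w⟫_ℂ := by
      intro g v w
      have h2 : w = ρ g (ρ g⁻¹ w) := by
        rw [map_inv]
        exact ((ρ g).apply_symm_apply w).symm
      conv_lhs => rw [h2]
      exact (ρ g).inner_map_map _ _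
    have h2 : (starRingEnd ℂ) (2 : ℂ) = 2 := by
      have := Complex.conj_ofReal 2
      simpa using this
    simp only [LinearMap.add_apply, LinearMap.smul_apply, Module.End.one_apply, op_apply,
      inner_add_left, inner_add_right, inner_smul_left, inner_smul_right, h1, inv_inv, h2]
    ring
  · intro v
    have h1 := T0_energy ρ x v
    have h2 : ‖ρ x v - v‖ ^ 2 ≤ (‖v‖ + ‖v‖) ^ 2 := by
      refine pow_le_pow_left₀ (norm_nonneg _) ?_ 2
      have := norm_sub_le (ρ x v) v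
      rwa [(ρ x).norm_map] at this
    have h3 : 0 ≤ ‖ρ x v - v‖ ^ 2 := by positivity
    constructor
    · nlinarith
    · linarith

lemma rtr_add (A B : Module.End ℂ V) : rtr (A + B) = rtr A + rtr B := by
  unfold rtr
  rw [map_add, Complex.add_re]

lemma rtr_smul (t : ℝ) (A : Module.End ℂ V) : rtr ((t : ℂ) • A) = t * rtr A := by
  unfold rtr
  rw [map_smul, smul_eq_mul, Complex.re_ofReal_mul]

lemma rtr_quad {n : ℕ} (b : OrthonormalBasis (Fin n) ℂ V) (A : Module.End ℂ V) :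
    rtr A = ∑ i, (⟪A (b i), b i⟫_ℂ).re := by
  unfold rtr
  rw [LinearMap.trace_eq_sum_inner _ b, Complex.re_sum]
  exact Finset.sum_congr rfl fun i _ => by rw [← inner_conj_symm, Complex.conj_re]

lemma T0_rtr (ρ : G →* (V ≃ₗᵢ[ℂ] V)) (x : G) :
    rtr (T0 ρ x) = 1 / 2 * Module.finrank ℂ V + 1 / 2 * rtr (op ρ x) := by
  rw [rtr_quad (stdOrthonormalBasis ℂ V), rtr_quad (stdOrthonormalBasis ℂ V) (op ρ x)]
  simp only [T0_quad, (stdOrthonormalBasis ℂ V).norm_eq_one, op_apply]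
  rw [Finset.sum_add_distrib, ← Finset.mul_sum, ← Finset.mul_sum]
  simp

/-- convexity: the exponential trace of `0 ≤ E ≤ 1` -/
lemma ex_conv [Nontrivial V] {E : Module.End ℂ V} (hE : Bd E 1) {l : ℝ} (hl : 0 ≤ l) :
    tn (ex ((l : ℂ) • E)) ≤ Real.exp ((Real.exp l - 1) * tn E) := by
  obtain ⟨n, b, μ, h1, -⟩ := EXB.diag E hE.1
  have hn : Module.finrank ℂ V = n := by
    rw [Module.finrank_eq_card_basis b.toBasis, Fintype.card_fin]
  have hd : (0 : ℝ) < Module.finrank ℂ V := by exact_mod_cast Module.finrank_pos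
  have hμ : ∀ i, 0 ≤ μ i ∧ μ i ≤ 1 := by
    intro i
    have h3 := hE.2 (b i)
    rw [h1, inner_smul_left, Complex.conj_ofReal, Complex.re_ofReal_mul,
      inner_self_eq_norm_sq_to_K, b.norm_eq_one] at h3
    simpa using h3
  have h2 : ∀ i, ex ((l : ℂ) • E) (b i) = ((Real.exp (l * μ i) : ℝ) : ℂ) • b i := by
    intro i
    have h3 : ((l : ℂ) • E) (b i) = ((l * μ i : ℝ) : ℂ) • b i := by
      rw [LinearMap.smul_apply, h1, smul_smul, Complex.ofReal_mul]
    rw [ex_eig _ _ _ h3, Complex.ofReal_exp]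
  have h3 : rtr (ex ((l : ℂ) • E)) ≤ Module.finrank ℂ V + (Real.exp l - 1) * rtr E := by
    rw [EXB.tr_eig b _ _ h2, EXB.tr_eig b E μ h1, Finset.mul_sum, hn]
    have h4 : (n : ℝ) = ∑ _i : Fin n, (1 : ℝ) := by simp
    rw [h4, ← Finset.sum_add_distrib]
    refine Finset.sum_le_sum fun i _ => ?_
    have h5 := convexOn_exp.2 (Set.mem_univ (0 : ℝ)) (Set.mem_univ l)
      (by linarith [(hμ i).2] : 0 ≤ 1 - μ i) (hμ i).1 (by ring)
    simp only [smul_eq_mul, mul_zero, zero_add, Real.exp_zero, mul_one] at h5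
    rw [mul_comm l (μ i)]
    linarith
  have h4 : tn (ex ((l : ℂ) • E)) ≤ 1 + (Real.exp l - 1) * tn E := by
    unfold tn
    rw [div_le_iff₀ hd]
    refine h3.trans (le_of_eq ?_)
    field_simp
  exact h4.trans (by linarith [Real.add_one_le_exp ((Real.exp l - 1) * tn E)])

/-- spectral projection of a symmetric operator `T ≤ 1` onto the eigenvalues `≥ θ` -/
theorem CUT (T : Module.End ℂ V) (hT : T.IsSymmetric)
    (hT1 : ∀ v, (⟪T v, v⟫_ℂ).re ≤ ‖v‖ ^ 2) (θ : ℝ) (hθ1 : θ < 1) (t : ℝ) (ht : 0 ≤ t) :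
    ∃ E : Module.End ℂ V, SymIdem E ∧ Real.exp (t * θ) * rtr E ≤ rtr (ex ((t : ℂ) • T)) ∧
      ∀ v, (1 - θ) * ‖v - E v‖ ^ 2 ≤ ‖v‖ ^ 2 - (⟪T v, v⟫_ℂ).re := by
  classical
  set n := Module.finrank ℂ V with hn
  set b := hT.eigenvectorBasis hn.symm with hb
  set μ := hT.eigenvalues hn.symm with hμ
  have hTb : ∀ i, T (b i) = (μ i : ℂ) • b i := fun i => hT.apply_eigenvectorBasis hn.symm i
  have hexb : ∀ i, ex ((t : ℂ) • T) (b i) = ((Real.exp (t * μ i) : ℝ) : ℂ) • b i := by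
    intro i
    have h3 : ((t : ℂ) • T) (b i) = ((t * μ i : ℝ) : ℂ) • b i := by
      rw [LinearMap.smul_apply, hTb, smul_smul, Complex.ofReal_mul]
    rw [ex_eig _ _ _ h3, Complex.ofReal_exp]
  set E : Module.End ℂ V := b.toBasis.constr ℂ (fun i => if θ ≤ μ i then b i else 0) with hE
  have hEb : ∀ i, E (b i) = if θ ≤ μ i then b i else 0 := by
    intro i
    have := b.toBasis.constr_basis ℂ (fun i => if θ ≤ μ i then b i else 0) i
    rwa [OrthonormalBasis.coe_toBasis] at this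
  have hinner : ∀ i v, ⟪b i, E v⟫_ℂ = if θ ≤ μ i then ⟪b i, v⟫_ℂ else 0 := by
    intro i v
    conv_lhs => rw [← b.sum_repr v]
    rw [map_sum, inner_sum]
    simp only [map_smul, hEb, inner_smul_right]
    rw [Finset.sum_eq_single i]
    · split_ifs with h
      · rw [b.inner_eq_one i, mul_one, b.repr_apply_apply]
      · simp
    · intro j _ hji
      split_ifs with h
      · rw [b.inner_eq_zero (Ne.symm hji), mul_zero]
      · simp
    · simp
  have hEsym : E.IsSymmetric := by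
    intro v w
    rw [← b.sum_inner_mul_inner (E v) w, ← b.sum_inner_mul_inner v (E w)]
    apply Finset.sum_congr rfl
    intro i _
    rw [hinner i w, ← inner_conj_symm (E v) (b i), hinner i v]
    split_ifs with h
    · rw [inner_conj_symm]
    · simp
  have hEidem : E * E = E := by
    apply b.toBasis.ext
    intro i
    rw [OrthonormalBasis.coe_toBasis, Module.End.mul_apply, hEb]
    split_ifs with h
    · rw [hEb, if_pos h]
    · simp
  have hnorm : ∀ w : V, ‖w‖ ^ 2 = ∑ i, ‖⟪b i, w⟫_ℂ‖ ^ 2 := fun w =>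
    (b.sum_sq_norm_inner_right w).symm
  have hTre : ∀ v : V, (⟪T v, v⟫_ℂ).re = ∑ i, μ i * ‖⟪b i, v⟫_ℂ‖ ^ 2 := by
    intro v
    rw [← b.sum_inner_mul_inner (T v) v, Complex.re_sum]
    apply Finset.sum_congr rfl
    intro i _
    rw [hT v (b i), hTb, inner_smul_right, mul_assoc, ← inner_conj_symm v (b i),
      mul_comm (starRingEnd ℂ _) _,
      Complex.mul_conj, ← Complex.ofReal_mul, Complex.ofReal_re, Complex.normSq_eq_norm_sq]
  have hμ1 : ∀ i, μ i ≤ 1 := by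
    intro i
    have h := hT1 (b i)
    rw [hTb, inner_smul_left, b.inner_eq_one i, b.norm_eq_one i] at h
    simpa using h
  refine ⟨E, ⟨hEsym, hEidem⟩, ?_, ?_⟩
  · rw [rtr_quad b, EXB.tr_eig b _ _ hexb, Finset.mul_sum]
    refine Finset.sum_le_sum fun i _ => ?_
    rw [hEb]
    split_ifs with h
    · rw [b.inner_eq_one i, Complex.one_re, mul_one]
      exact Real.exp_le_exp.2 (mul_le_mul_of_nonneg_left h ht)
    · rw [inner_zero_left, Complex.zero_re, mul_zero]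
      exact (Real.exp_pos _).le
  · intro v
    rw [hnorm (v - E v), hnorm v, hTre v, ← Finset.sum_sub_distrib, Finset.mul_sum]
    apply Finset.sum_le_sum
    intro i _
    rw [inner_sub_right, hinner]
    split_ifs with h
    · have h1 := hμ1 i
      simp only [sub_self, norm_zero]
      have h2 : 0 ≤ ‖⟪b i, v⟫_ℂ‖ ^ 2 := by positivity
      nlinarith
    · push Not at h
      rw [sub_zero]
      have h2 : 0 ≤ ‖⟪b i, v⟫_ℂ‖ ^ 2 := by positivity
      nlinarith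

variable [Fintype G]

/-- in a nontrivial irreducible representation the sum of an orbit vanishes -/
lemma sum_zero (ρ : G →* (V ≃ₗᵢ[ℂ] V)) (hirr : Irr ρ ⊤) (hnt : ∃ g v, ρ g v ≠ v) (w : V) :
    ∑ g : G, ρ g w = 0 := by
  set U : Submodule ℂ V :=
    { carrier := {v | ∀ g, ρ g v = v}
      add_mem' := fun {a b} ha hb g => by rw [map_add, ha g, hb g]
      zero_mem' := fun g => map_zero _
      smul_mem' := fun c a ha g => by rw [map_smul, ha g] } with hU
  have hUm : ∀ v, v ∈ U ↔ ∀ g, ρ g v = v := fun v => Iff.rfl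
  have hinv : Inv ρ U := by
    intro g v hv
    rw [(hUm v).1 hv g]
    exact hv
  have hmem : ∑ g : G, ρ g w ∈ U := by
    rw [hUm]
    intro h
    rw [map_sum, ← Equiv.sum_comp (Equiv.mulLeft h) fun g => ρ g w]
    refine Finset.sum_congr rfl fun g _ => ?_
    rw [Equiv.coe_mulLeft, map_mul]
    rfl
  rcases hirr.2.2 U le_top hinv with h | h
  · rw [h] at hmem
    exact (Submodule.mem_bot ℂ).mp hmem
  · obtain ⟨g, v, hgv⟩ := hnt
    have : v ∈ U := by rw [h]; trivial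
    exact absurd ((hUm v).1 this g) hgv

/-- second moment of the normalised character -/
theorem char2 {D : ℝ} (hD : QRd G D) (hD0 : 0 ≤ D) (ρ : G →* (V ≃ₗᵢ[ℂ] V)) (hirr : Irr ρ ⊤)
    (hnt : ∃ g v, ρ g v ≠ v) : D * ∑ x : G, tn (op ρ x) ^ 2 ≤ Fintype.card G := by
  have hntV := TREE.nontriv ρ hirr
  have hd : (0 : ℝ) < Module.finrank ℂ V := by exact_mod_cast Module.finrank_pos
  set b := stdOrthonormalBasis ℂ V with hb
  have h1 : ∀ x : G, tn (op ρ x) ^ 2 ≤
      (∑ i, ‖⟪b i, ρ x (b i)⟫_ℂ‖ ^ 2) / Module.finrank ℂ V := by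
    intro x
    have h2 : |rtr (op ρ x)| ≤ ∑ i, ‖⟪b i, ρ x (b i)⟫_ℂ‖ := by
      unfold rtr
      rw [LinearMap.trace_eq_sum_inner _ b]
      exact (Complex.abs_re_le_norm _).trans (norm_sum_le _ _)
    have h3 : (∑ i, ‖⟪b i, ρ x (b i)⟫_ℂ‖) ^ 2 ≤
        Module.finrank ℂ V * ∑ i, ‖⟪b i, ρ x (b i)⟫_ℂ‖ ^ 2 := by
      have := sq_sum_le_card_mul_sum_sq (s := (univ : Finset (Fin (Module.finrank ℂ V))))
        (f := fun i => ‖⟪b i, ρ x (b i)⟫_ℂ‖)
      rwa [Finset.card_univ, Fintype.card_fin] at this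
    unfold tn
    rw [div_pow, div_le_div_iff₀ (by positivity) hd]
    have h4 : rtr (op ρ x) ^ 2 ≤ (∑ i, ‖⟪b i, ρ x (b i)⟫_ℂ‖) ^ 2 := by
      rw [← sq_abs]
      exact pow_le_pow_left₀ (abs_nonneg _) h2 2
    nlinarith [mul_le_mul_of_nonneg_right (h4.trans h3) hd.le]
  have h2 : ∀ i, D * ∑ x : G, ‖⟪b i, ρ x (b i)⟫_ℂ‖ ^ 2 ≤ Fintype.card G := by
    intro i
    have := QR2 hD ρ (b i) (b i) (sum_zero ρ hirr hnt _)
    rwa [b.norm_eq_one, one_pow, mul_one, mul_one] at this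
  calc D * ∑ x : G, tn (op ρ x) ^ 2
      ≤ D * ∑ x : G, (∑ i, ‖⟪b i, ρ x (b i)⟫_ℂ‖ ^ 2) / Module.finrank ℂ V :=
        mul_le_mul_of_nonneg_left (Finset.sum_le_sum fun x _ => h1 x) hD0
    _ = (∑ i, D * ∑ x : G, ‖⟪b i, ρ x (b i)⟫_ℂ‖ ^ 2) / Module.finrank ℂ V := by
        rw [← Finset.sum_div, Finset.sum_comm, ← Finset.mul_sum, mul_div_assoc]
    _ ≤ (∑ _i : Fin (Module.finrank ℂ V), (Fintype.card G : ℝ)) / Module.finrank ℂ V :=
        div_le_div_of_nonneg_right (Finset.sum_le_sum fun i _ => h2 i) hd.le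
    _ = _ := by
        rw [Finset.sum_const, Finset.card_univ, Fintype.card_fin, nsmul_eq_mul]
        field_simp

open Classical in
/-- expectation of the exponential trace of a chunk -/
theorem chunkE {D : ℝ} (hD : QRd G D) (hD0 : 0 < D) (ρ : G →* (V ≃ₗᵢ[ℂ] V)) (hirr : Irr ρ ⊤)
    (hnt : ∃ g v, ρ g v ≠ v) {l : ℝ} (hl : 0 < l) (hl1 : l ≤ 1 / 10) {q : ℕ} (hq : 2 ≤ q)
    (L : ℕ) :
    ∑ x : G, ∑ z : Fin L → Fin q → G,
        tn (ex (((l * q ^ L : ℝ) : ℂ) • AA ρ (T0 ρ x) L z)) ≤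
      (Fintype.card G : ℝ) * (Fintype.card G : ℝ) ^ (L * q) *
        (Real.exp (62 / 100 * (l * q ^ L)) + Real.exp (l * q ^ L) *
          (100 / D + 80000 * L * q * Real.exp (2 * (l * q ^ L)) / (D * l ^ 2))) := by
  have hntV := TREE.nontriv ρ hirr
  have hd : (0 : ℝ) < Module.finrank ℂ V := by exact_mod_cast Module.finrank_pos
  set N : ℝ := (Fintype.card G : ℝ) with hN
  have hN0 : 0 ≤ N := Nat.cast_nonneg _
  set Λ : ℝ := l * q ^ L with hΛ
  have hΛ0 : 0 ≤ Λ := by positivity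
  set ξ : ℝ := l / 200 with hξ
  have hξ0 : 0 < ξ := by positivity
  set θ : ℝ := 61 / 100 * l with hθ
  have hθ0 : 0 ≤ θ := by positivity
  have hThr : Thr q θ ξ L ≤ 62 / 100 * Λ := by
    unfold Thr
    rw [hθ, hξ, hΛ]
    nlinarith
  -- upper bound for every family
  have hup : ∀ (x : G) (z : Fin L → Fin q → G),
      tn (ex ((Λ : ℂ) • AA ρ (T0 ρ x) L z)) ≤ Real.exp Λ := by
    intro x z
    have h1 := (((T0_bd ρ x).AA ρ (by omega) L z).smul hΛ0).ex_tn.2
    rwa [mul_one] at h1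
  have hx : ∀ x : G, ∑ z : Fin L → Fin q → G, tn (ex ((Λ : ℂ) • AA ρ (T0 ρ x) L z)) ≤
      N ^ (L * q) * Real.exp (62 / 100 * Λ) + Real.exp Λ *
        (N ^ (L * q) * (100 * tn (op ρ x) ^ 2) +
          80000 * L * q * Real.exp (2 * Λ) / (D * l ^ 2) * N ^ (L * q)) := by
    intro x
    have hsum1 : ∑ _z : Fin L → Fin q → G, (1 : ℝ) = N ^ (L * q) := by
      rw [Finset.sum_const, Finset.card_univ, Fintype.card_fun, Fintype.card_fin,
        Fintype.card_fun, Fintype.card_fin, nsmul_eq_mul, mul_one]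
      push_cast
      rw [← hN, ← pow_mul, mul_comm q L]
    by_cases hgood : tn (op ρ x) ≤ 1 / 10
    · have hT : tn (T0 ρ x) ≤ 55 / 100 := by
        unfold tn at hgood ⊢
        rw [T0_rtr, div_le_iff₀ hd]
        rw [div_le_iff₀ hd] at hgood
        linarith
      have hM : tn (ex ((l : ℂ) • T0 ρ x)) ≤ Real.exp θ := by
        refine (ex_conv (T0_bd ρ x) hl.le).trans (Real.exp_le_exp.2 ?_)
        have h1 := Real.abs_exp_sub_one_sub_id_le (x := l) (by rw [abs_of_pos hl]; linarith)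
        have h2 := (abs_le.mp h1).2
        have h3 : Real.exp l - 1 ≤ 11 / 10 * l := by nlinarith
        have h4 : 0 ≤ Real.exp l - 1 := by linarith [Real.add_one_le_exp l]
        calc (Real.exp l - 1) * tn (T0 ρ x) ≤ (Real.exp l - 1) * (55 / 100) :=
              mul_le_mul_of_nonneg_left hT h4
          _ ≤ _ := by rw [hθ]; nlinarith
      have h1 := treeP hD hD0.le ρ hirr (T0 ρ x) (T0_bd ρ x) hl.le hξ0 hθ0 hM hq L
      rw [← hΛ, ← hN] at h1
      have h2 : ∑ z : Fin L → Fin q → G, (if Real.exp (Thr q θ ξ L) <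
          tn (ex ((Λ : ℂ) • AA ρ (T0 ρ x) L z)) then (1 : ℝ) else 0) ≤
          80000 * L * q * Real.exp (2 * Λ) / (D * l ^ 2) * N ^ (L * q) := by
        have h3 : 0 < D * ξ ^ 2 := by positivity
        rw [mul_comm] at h1
        rw [← le_div_iff₀ h3] at h1
        refine h1.trans (le_of_eq ?_)
        rw [hξ]
        field_simp
        ring
      have h3 : ∀ z : Fin L → Fin q → G, tn (ex ((Λ : ℂ) • AA ρ (T0 ρ x) L z)) ≤
          1 * Real.exp (62 / 100 * Λ) + Real.exp Λ * (if Real.exp (Thr q θ ξ L) <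
            tn (ex ((Λ : ℂ) • AA ρ (T0 ρ x) L z)) then (1 : ℝ) else 0) := by
        intro z
        split_ifs with h
        · have := hup x z
          have h5 := Real.exp_pos (62 / 100 * Λ)
          linarith
        · push Not at h
          have h5 := Real.exp_le_exp.2 hThr
          linarith
      refine (Finset.sum_le_sum fun z _ => h3 z).trans ?_
      rw [Finset.sum_add_distrib, ← Finset.sum_mul, ← Finset.mul_sum, hsum1]
      have h4 : 0 ≤ N ^ (L * q) * (100 * tn (op ρ x) ^ 2) := by positivity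
      have h5 := mul_le_mul_of_nonneg_left h2 (Real.exp_pos Λ).le
      have h6 := mul_nonneg (Real.exp_pos Λ).le h4
      rw [mul_add]
      linarith
    · push Not at hgood
      have h1 : 1 ≤ 100 * tn (op ρ x) ^ 2 := by nlinarith
      have h2 : ∑ z : Fin L → Fin q → G, tn (ex ((Λ : ℂ) • AA ρ (T0 ρ x) L z)) ≤
          Real.exp Λ * N ^ (L * q) := by
        rw [← hsum1, Finset.mul_sum]
        exact Finset.sum_le_sum fun z _ => by rw [mul_one]; exact hup x z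
      have h3 : 0 ≤ N ^ (L * q) * Real.exp (62 / 100 * Λ) := by positivity
      have h4 : 0 ≤ 80000 * L * q * Real.exp (2 * Λ) / (D * l ^ 2) * N ^ (L * q) := by positivity
      have h5 : N ^ (L * q) ≤ N ^ (L * q) * (100 * tn (op ρ x) ^ 2) := by
        have : 0 ≤ N ^ (L * q) := by positivity
        nlinarith
      have h6 : Real.exp Λ * N ^ (L * q) ≤ Real.exp Λ *
        (N ^ (L * q) * (100 * tn (op ρ x) ^ 2) +
          80000 * L * q * Real.exp (2 * Λ) / (D * l ^ 2) * N ^ (L * q)) :=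
        mul_le_mul_of_nonneg_left (by linarith) (Real.exp_pos _).le
      linarith
  refine (Finset.sum_le_sum fun x _ => hx x).trans ?_
  have hc := char2 hD hD0.le ρ hirr hnt
  have hc2 : ∑ x : G, tn (op ρ x) ^ 2 ≤ N / D := by
    rw [le_div_iff₀ hD0, mul_comm]
    exact hc
  simp only [mul_add, Finset.sum_add_distrib, ← Finset.mul_sum]
  rw [Finset.sum_const, Finset.sum_const, Finset.card_univ, nsmul_eq_mul, nsmul_eq_mul, ← hN]
  have h7 : Real.exp Λ * (N ^ (L * q) * (100 * ∑ i : G, tn (op ρ i) ^ 2)) ≤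
      Real.exp Λ * (N ^ (L * q) * (100 * (N / D))) := by gcongr
  have h8 : Real.exp Λ * (N ^ (L * q) * (100 * (N / D))) =
      N * N ^ (L * q) * (Real.exp Λ * (100 / D)) := by
    field_simp
  rw [h8] at h7
  nlinarith [h7]

/-- `t` independent random conjugates of independent random operators -/
theorem AWt {Ω : Type} [Fintype Ω] (ρ : G →* (V ≃ₗᵢ[ℂ] V)) (hirr : Irr ρ ⊤)
    (X : Ω → Module.End ℂ V) (hX : ∀ ω, (X ω).IsSymmetric) (t : ℕ) :
    ∑ a : Fin t → Ω × G, rtr (ex (∑ i, cj ρ (X (a i).1) (a i).2)) ≤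
      Module.finrank ℂ V * ((Fintype.card G : ℝ) * ∑ ω, tn (ex (X ω))) ^ t := by
  have hntV := TREE.nontriv ρ hirr
  induction t with
  | zero =>
    rw [Fintype.sum_unique, Finset.univ_eq_empty, Finset.sum_empty, ex_zero, pow_zero, mul_one]
    unfold rtr
    rw [LinearMap.trace_one]
    simp
  | succ t ih =>
    have h1 : ∑ a : Fin (t + 1) → Ω × G, rtr (ex (∑ i, cj ρ (X (a i).1) (a i).2)) =
        ∑ p : (Ω × G) × (Fin t → Ω × G),
          rtr (ex ((∑ i, cj ρ (X (p.2 i).1) (p.2 i).2) + cj ρ (X p.1.1) p.1.2)) := by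
      refine (Fintype.sum_equiv (Fin.consEquiv fun _ => Ω × G) _ _ fun p => ?_).symm
      rw [Fin.sum_univ_succ, add_comm]
      rfl
    rw [h1, Fintype.sum_prod_type, Finset.sum_comm]
    have h2 : ∀ ω, 0 ≤ tn (ex (X ω)) := fun ω =>
      div_nonneg (AW.rtr_ex_nonneg _ (hX ω)) (Nat.cast_nonneg _)
    have h3 : 0 ≤ (Fintype.card G : ℝ) * ∑ ω, tn (ex (X ω)) :=
      mul_nonneg (Nat.cast_nonneg _) (Finset.sum_nonneg fun ω _ => h2 ω)
    calc ∑ a : Fin t → Ω × G, ∑ p : Ω × G,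
          rtr (ex ((∑ i, cj ρ (X (a i).1) (a i).2) + cj ρ (X p.1) p.2))
        ≤ ∑ a : Fin t → Ω × G, ((Fintype.card G : ℝ) * ∑ ω, tn (ex (X ω))) *
            rtr (ex (∑ i, cj ρ (X (a i).1) (a i).2)) := by
          refine Finset.sum_le_sum fun a _ => ?_
          rw [Fintype.sum_prod_type, Finset.mul_sum, Finset.sum_mul]
          refine Finset.sum_le_sum fun ω _ => ?_
          exact AW ρ hirr _ (X ω) (AW.sum_symm _ _ fun i _ => AW.cj_symm ρ _ (hX _) _) (hX ω)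
      _ = ((Fintype.card G : ℝ) * ∑ ω, tn (ex (X ω))) *
            ∑ a : Fin t → Ω × G, rtr (ex (∑ i, cj ρ (X (a i).1) (a i).2)) :=
          (Finset.mul_sum _ _ _).symm
      _ ≤ ((Fintype.card G : ℝ) * ∑ ω, tn (ex (X ω))) *
            (Module.finrank ℂ V * ((Fintype.card G : ℝ) * ∑ ω, tn (ex (X ω))) ^ t) :=
          mul_le_mul_of_nonneg_left ih h3
      _ = _ := by ring

end

end Run7.h107
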