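import Pool.Agent.Run7.h107.BDA
import Pool.Agent.Run7.h107.BAC
import Pool.Agent.Results.MP_75608d_al.GapAllTuples

/-!
Numerical part of the diameter theorem for sets which contain few random elements of `A_n`,
uniformly in the number of rounds (helper107, MP_dee5d6_al).
-/

namespace Run7.h107.BD
open RC14 Finset Equiv Filter Topology Run7.h624.DM
open Run7.h107

lemma evS (Q : ℝ) : ∀ᶠ n : ℕ in atTop,
    Q * (Real.log (Real.log n)) ^ 2 ≤ Real.sqrt (Real.log n) := by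
  have h1 := (isLittleO_log_rpow_rpow_atTop (2 : ℝ)
    (show (0 : ℝ) < 1 / 2 by norm_num)).bound (c := 1 / (|Q| + 1)) (by positivity)
  have h2 := (Real.tendsto_log_atTop.comp
    (tendsto_natCast_atTop_atTop (R := ℝ))).eventually h1
  filter_upwards [h2, RC14.ev_loggt 1] with n hn hl
  simp only [Function.comp] at hn
  have h3 : (0 : ℝ) ≤ (Real.log n) ^ (1 / 2 : ℝ) := by positivity
  rw [Real.norm_of_nonneg h3, Real.rpow_two, Real.norm_of_nonneg (sq_nonneg _),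
    div_mul_eq_mul_div, one_mul, le_div_iff₀ (by positivity)] at hn
  rw [Real.sqrt_eq_rpow]
  have h4 : Q ≤ |Q| + 1 := (le_abs_self Q).trans (by linarith)
  have h5 : 0 ≤ (Real.log (Real.log n)) ^ 2 := sq_nonneg _
  nlinarith

lemma exp_dl (i : ℕ) (ℓ : ℝ) (hℓ : 0 < ℓ) (hi : (i : ℝ) ≤ Real.log ℓ) :
    Real.sqrt ℓ / 16 ≤ dl i * ℓ := by
  have h1 : (3 / 2 : ℝ) ^ i ≤ Real.sqrt ℓ := by
    have h2 : (3 / 2 : ℝ) ≤ Real.exp (1 / 2) := by
      have := Real.add_one_le_exp (1 / 2 : ℝ)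
      linarith
    calc (3 / 2 : ℝ) ^ i ≤ Real.exp (1 / 2) ^ i := pow_le_pow_left₀ (by norm_num) h2 i
      _ = Real.exp (i * (1 / 2)) := (Real.exp_nat_mul _ _).symm
      _ ≤ Real.exp (Real.log ℓ * (1 / 2)) := by
          apply Real.exp_le_exp.2
          linarith
      _ = Real.sqrt ℓ := by rw [Real.sqrt_eq_rpow, Real.rpow_def_of_pos hℓ]
  have h3 : (2 / 3 : ℝ) ^ i * (3 / 2) ^ i = 1 := by
    rw [← mul_pow]
    norm_num
  have h4 : Real.sqrt ℓ * Real.sqrt ℓ = ℓ := Real.mul_self_sqrt hℓ.le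
  have h5 : (0 : ℝ) < (2 / 3) ^ i := by positivity
  have h7 : 0 ≤ Real.sqrt ℓ := Real.sqrt_nonneg _
  have h6 : Real.sqrt ℓ ≤ (2 / 3) ^ i * ℓ := by
    calc Real.sqrt ℓ = Real.sqrt ℓ * ((2 / 3) ^ i * (3 / 2) ^ i) := by rw [h3, mul_one]
      _ ≤ Real.sqrt ℓ * ((2 / 3) ^ i * Real.sqrt ℓ) := by gcongr
      _ = (2 / 3) ^ i * (Real.sqrt ℓ * Real.sqrt ℓ) := by ring
      _ = _ := by rw [h4]
  unfold dl
  have e : (2 / 3 : ℝ) ^ i / 16 * ℓ = (2 / 3) ^ i * ℓ / 16 := by ring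
  rw [e]
  linarith

/-- the conditions hold for all small numbers of rounds -/
theorem BigU {κ : ℝ} (hκ : 0 < κ) (C : ℝ) (t : ℕ) (K : ℝ) (hK : 0 ≤ K) : ∀ᶠ n : ℕ in atTop,
    ∀ i : ℕ, 2 ≤ i → (i : ℝ) ≤ Real.log (Real.log n) → ∀ ε : ℝ,
    Real.exp (-(K * (Real.log (Real.log n)) ^ 2)) ≤ ε → Big (3 * dl i) κ ε C t n := by
  obtain ⟨M, hM⟩ : ∃ M : ℝ, M = 50 + |C| + 8 * (((max t 4 : ℕ) : ℝ) + 2) + 3 / κ := ⟨_, rfl⟩
  have hC0 := abs_nonneg C
  have hκ3 : 0 ≤ 3 / κ := by positivity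
  have ht0 : (0 : ℝ) ≤ ((max t 4 : ℕ) : ℝ) := Nat.cast_nonneg _
  have hM50 : 50 ≤ M := by
    rw [hM]
    linarith
  filter_upwards [eventually_ge_atTop 3, RC14.ev_loggt 1, ev_loglog 1,
    evS ((Real.log M + 2 + K) * (16 / 3)),
    ev_pow (show (0 : ℝ) < 1 by norm_num) (4500 / κ),
    ev_pow (show (0 : ℝ) < 1 / 2 by norm_num) (400 / κ),
    ev_pow (show (0 : ℝ) < 1 / 2 by norm_num) ((max t 4 : ℕ) : ℝ),
    ev_pow (show (0 : ℝ) < 1 / 2 by norm_num) 180]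
    with n h1 hl hL hS h2 h3 h4 h5 i hi2 hi ε hε
  obtain ⟨ℓ, hℓ⟩ : ∃ ℓ, ℓ = Real.log n := ⟨_, rfl⟩
  obtain ⟨L, hLd⟩ : ∃ L, L = Real.log ℓ := ⟨_, rfl⟩
  rw [← hℓ] at hl hL hS hi hε
  rw [← hLd] at hL hS hi hε
  have hn0 : (0 : ℝ) < n := by exact_mod_cast (by omega : 0 < n)
  have hn1 : (1 : ℝ) ≤ n := by exact_mod_cast (by omega : 1 ≤ n)
  have hℓ0 : 0 < ℓ := by linarith
  have hd := exp_dl i ℓ hℓ0 (by rw [← hLd]; exact hi)
  have hdl : dl i ≤ 1 / 36 := by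
    refine (dl_mono hi2).trans ?_
    unfold dl
    norm_num
  have hdl0 := dl_pos i
  have hε0 : 0 < ε := lt_of_lt_of_le (Real.exp_pos _) hε
  set E : ℝ := Real.exp (K * L ^ 2) with hE
  have hE1 : 1 ≤ E := by
    rw [hE, Real.one_le_exp_iff]
    positivity
  have hεE : 1 / ε ≤ E := by
    have h6 : 1 / ε ≤ 1 / Real.exp (-(K * L ^ 2)) :=
      one_div_le_one_div_of_le (Real.exp_pos _) hε
    rw [Real.exp_neg, one_div, one_div, inv_inv] at h6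
    rw [one_div]
    exact h6
  set a : ℝ := (n : ℝ) ^ (3 * dl i) with ha
  have hlogM : 0 ≤ Real.log M := Real.log_nonneg (by linarith)
  have haM : M * ℓ ^ 2 * E ≤ a := by
    have e1 : M * ℓ ^ 2 * E = Real.exp (Real.log M + 2 * L + K * L ^ 2) := by
      rw [Real.exp_add, Real.exp_add, Real.exp_log (by linarith), ← hE]
      congr 2
      have h7 : (2 : ℝ) * L = ((2 : ℕ) : ℝ) * L := by norm_num
      rw [h7, Real.exp_nat_mul, hLd, Real.exp_log hℓ0]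
    have e2 : a = Real.exp (ℓ * (3 * dl i)) := by
      rw [ha, Real.rpow_def_of_pos hn0, hℓ]
    rw [e1, e2]
    apply Real.exp_le_exp.2
    have hL2 : 1 ≤ L ^ 2 := by nlinarith
    have h6 : Real.log M * 1 ≤ Real.log M * L ^ 2 := mul_le_mul_of_nonneg_left hL2 hlogM
    have h7 : L ≤ L ^ 2 := by nlinarith
    have h8 : (Real.log M + 2 + K) * (16 / 3) * L ^ 2 =
        16 / 3 * ((Real.log M + 2 + K) * L ^ 2) := by ring
    rw [h8] at hS
    have h9 : (Real.log M + 2 + K) * L ^ 2 = Real.log M * L ^ 2 + 2 * L ^ 2 + K * L ^ 2 := by ring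
    have h10 : ℓ * (3 * dl i) = 3 * (dl i * ℓ) := by ring
    rw [h10]
    linarith
  have hℓ2 : 1 ≤ ℓ ^ 2 := one_le_pow₀ hl
  have hX1 : 1 ≤ ℓ ^ 2 * E := one_le_mul_of_one_le_of_one_le hℓ2 hE1
  have hX2 : ℓ * E ≤ ℓ ^ 2 * E := by
    have : ℓ ≤ ℓ ^ 2 := by nlinarith
    exact mul_le_mul_of_nonneg_right this (by linarith)
  obtain ⟨X, hX⟩ : ∃ X, X = ℓ ^ 2 * E := ⟨_, rfl⟩
  have haX : M * X ≤ a := by
    rw [hX, ← mul_assoc]
    exact haM
  rw [← hX] at hX1 hX2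
  have haM1 : M ≤ a := by
    have : M * 1 ≤ M * X := mul_le_mul_of_nonneg_left hX1 (by linarith)
    linarith
  have ha1 : 1 ≤ a := by linarith
  have ha2 : (n : ℝ) ^ (2 * (3 * dl i)) = a ^ 2 := by
    rw [ha, ← Real.rpow_natCast, ← Real.rpow_mul hn0.le]
    congr 1
    push_cast
    ring
  have haa : a ≤ a ^ 2 := by nlinarith
  have hhalf : (n : ℝ) ^ (1 / 2 : ℝ) ≤ (n : ℝ) ^ (1 - 4 * (3 * dl i)) :=
    Real.rpow_le_rpow_of_exponent_le hn1 (by linarith)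
  have hhalf2 : (n : ℝ) ^ (1 / 2 : ℝ) ≤ (n : ℝ) ^ (1 - 3 * dl i) :=
    Real.rpow_le_rpow_of_exponent_le hn1 (by linarith)
  rw [Real.rpow_one, div_le_iff₀ hκ] at h2
  rw [div_le_iff₀ hκ] at h3
  refine ⟨h1, by rw [← hℓ]; exact hl, by linarith, ?_, ?_, by linarith, ?_, ?_, ?_, by linarith,
    by linarith⟩
  · have := mul_le_mul_of_nonneg_left hhalf hκ.le
    linarith
  · rw [ha2]
    have h6 : 3 / κ ≤ a := by
      have : 3 / κ ≤ M := by
        rw [hM]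
        linarith
      linarith
    rw [div_le_iff₀ hκ] at h6
    have h7 : κ * a ≤ κ * a ^ 2 := mul_le_mul_of_nonneg_left haa hκ.le
    linarith
  · have h11 : (TT t ε n : ℝ) ≤ 8 * ((max t 4 : ℕ) + 2) * Real.log n / ε + 1 := by
      unfold TT
      exact (Nat.ceil_lt_add_one (by rw [← hℓ]; positivity)).le
    rw [← hℓ] at h11
    refine h11.trans ?_
    have h12 : 8 * (((max t 4 : ℕ) : ℝ) + 2) * ℓ / ε = 8 * (((max t 4 : ℕ) : ℝ) + 2) * (ℓ * (1 / ε)) := by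
      ring
    rw [h12]
    have h13 : ℓ * (1 / ε) ≤ X := le_trans (mul_le_mul_of_nonneg_left hεE hℓ0.le) hX2
    have h14 : 8 * (((max t 4 : ℕ) : ℝ) + 2) * (ℓ * (1 / ε)) ≤ 8 * (((max t 4 : ℕ) : ℝ) + 2) * X :=
      mul_le_mul_of_nonneg_left h13 (by linarith)
    have h15 : M * X = (50 + |C| + 3 / κ) * X + 8 * (((max t 4 : ℕ) : ℝ) + 2) * X := by
      rw [hM]
      ring
    have h16 : 1 * 1 ≤ (50 + |C| + 3 / κ) * X :=
      mul_le_mul (by linarith) hX1 (by norm_num) (by linarith)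
    linarith
  · rw [← hℓ]
    have h6 : C * ℓ ^ 2 ≤ |C| * ℓ ^ 2 := mul_le_mul_of_nonneg_right (le_abs_self C) (by positivity)
    have h7 : ℓ ^ 2 ≤ X := by
      rw [hX]
      exact le_mul_of_one_le_right (by positivity) hE1
    have h8 : |C| * ℓ ^ 2 ≤ |C| * X := mul_le_mul_of_nonneg_left h7 hC0
    have h9 : |C| * X ≤ M * X := by
      refine mul_le_mul_of_nonneg_right ?_ (by linarith)
      rw [hM]
      linarith
    linarith
  · rw [ha2, ← hℓ]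
    have h6 : 16 / ε * ℓ = 16 * (ℓ * (1 / ε)) := by ring
    rw [h6]
    have h13 : ℓ * (1 / ε) ≤ X := le_trans (mul_le_mul_of_nonneg_left hεE hℓ0.le) hX2
    have h9 : 16 * X ≤ M * X := mul_le_mul_of_nonneg_right (by linarith) (by linarith)
    linarith

end Run7.h107.BD
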