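import Pool.Agent.Run7.h107.BDB

/-!
Diameter of `A_n` for all generating sets which contain few random elements, for all numbers of
random elements above a constant (helper107, MP_dee5d6_al).
-/

namespace Run7.h107.BD
open RC14 Finset Equiv Filter Topology
open Run7.h107
open Pool.Agent.H84R2.Bab

/-- a property of the first `k` entries -/
lemma ext_count {n k m : ℕ} (h : k ≤ m) (P : (Fin k → Alt n) → Prop)
    (R : (Fin m → Alt n) → Prop) (hPR : ∀ x : Fin m → Alt n, P (fun a => x (Fin.castLE h a)) → R x)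
    (b : ℝ) (hb : (Nat.card {y : Fin k → Alt n // ¬ P y} : ℝ) ≤
      b * (Fintype.card (Alt n) : ℝ) ^ k) :
    (Nat.card {x : Fin m → Alt n // ¬ R x} : ℝ) ≤ b * (Fintype.card (Alt n) : ℝ) ^ m := by
  obtain ⟨j, rfl⟩ := Nat.exists_eq_add_of_le h
  have h1 : Nat.card {x : Fin (k + j) → Alt n // ¬ R x} ≤
      Nat.card ({y : Fin k → Alt n // ¬ P y} × (Fin j → Alt n)) := by
    refine Nat.card_le_card_of_injective (fun x => (⟨fun a => x.1 (Fin.castLE h a),
      fun hP => x.2 (hPR x.1 hP)⟩, fun a => x.1 (Fin.natAdd k a))) ?_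
    intro x y hxy
    rw [Prod.mk.injEq] at hxy
    obtain ⟨h2, h3⟩ := hxy
    have h4 := congrArg Subtype.val h2
    apply Subtype.ext
    funext a
    refine Fin.addCases (fun b => ?_) (fun b => ?_) a
    · exact congrFun h4 b
    · exact congrFun h3 b
  rw [Nat.card_prod, Nat.card_fun, Nat.card_eq_fintype_card (α := Alt n),
    Nat.card_eq_fintype_card (α := Fin j), Fintype.card_fin] at h1
  have h2 : (Nat.card {x : Fin (k + j) → Alt n // ¬ R x} : ℝ) ≤
      (Nat.card {y : Fin k → Alt n // ¬ P y} : ℝ) * (Fintype.card (Alt n) : ℝ) ^ j := by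
    exact_mod_cast h1
  refine h2.trans ?_
  rw [pow_add, ← mul_assoc]
  exact mul_le_mul_of_nonneg_right hb (by positivity)

/-- short words give generation and small diameter of all larger sets -/
lemma good_of_Dm {n k : ℕ} {δ : ℝ} {y : Fin k → Alt n} (h : Run7.h624.DM.Dm δ n y)
    (S : Set (Alt n)) (hS : ∀ i, y i ∈ S) :
    Subgroup.closure S = ⊤ ∧ ((Necf73648.cayleyGraph S).diam : ℝ) ≤ (n : ℝ) ^ (1 + δ) := by
  have h1 : ∀ g : Alt n, Len S ⌊(n : ℝ) ^ (1 + δ)⌋₊ g := by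
    intro g
    obtain ⟨w, h2, h3, h4⟩ := h g
    refine ⟨w, h2, fun z hz => ?_, h4⟩
    obtain ⟨i, hi | hi⟩ := h3 z hz
    · left
      rw [hi]
      exact hS i
    · right
      rw [hi, inv_inv]
      exact hS i
  constructor
  · rw [eq_top_iff]
    intro g _
    obtain ⟨w, -, h3, h4⟩ := h1 g
    rw [← h4]
    refine Subgroup.list_prod_mem _ fun z hz => ?_
    rcases h3 z hz with h5 | h5
    · exact Subgroup.subset_closure h5
    · exact (Subgroup.inv_mem_iff _).1 (Subgroup.subset_closure h5)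
  · have h2 := g1 S h1
    calc ((Necf73648.cayleyGraph S).diam : ℝ) ≤ (⌊(n : ℝ) ^ (1 + δ)⌋₊ : ℝ) := by exact_mod_cast h2
      _ ≤ _ := Nat.floor_le (by positivity)

/-- the exponent after `i` rounds -/
lemma dl_exp (i : ℕ) (u : ℝ) (hu : 6 ≤ u) (hi : u ≤ i + 1) :
    30 * dl i ≤ Real.exp (-(u / 6)) := by
  have h1 : Real.exp (2 / 5) ≤ 3 / 2 := (Real.le_log_iff_exp_le (by norm_num)).1 log32
  have h2 : (2 / 3 : ℝ) ≤ Real.exp (-(2 / 5)) := by
    rw [Real.exp_neg]
    have := inv_anti₀ (Real.exp_pos (2 / 5)) h1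
    norm_num at this ⊢
    exact this
  have h3 : (2 / 3 : ℝ) ^ i ≤ Real.exp (i * (-(2 / 5))) := by
    rw [Real.exp_nat_mul]
    exact pow_le_pow_left₀ (by norm_num) h2 i
  have h4 : (15 / 8 : ℝ) ≤ Real.exp 1 := by
    have := Real.add_one_le_exp (1 : ℝ)
    linarith
  have e : 30 * dl i = 15 / 8 * (2 / 3) ^ i := by
    unfold dl
    ring
  rw [e]
  calc 15 / 8 * (2 / 3 : ℝ) ^ i ≤ Real.exp 1 * Real.exp (i * (-(2 / 5))) := by gcongr
    _ = Real.exp (1 + i * (-(2 / 5))) := (Real.exp_add _ _).symm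
    _ ≤ _ := by
      apply Real.exp_le_exp.2
      linarith

/-- all generating sets of `A_n` which contain `m ≥ C` random elements -/
theorem BDmain : ∃ C : ℝ, 1 ≤ C ∧ ∀ ϑ : ℝ, 0 < ϑ → ∀ᶠ n : ℕ in atTop, ∀ m : ℕ, C ≤ m →
    (Nat.card {x : Fin m → Alt n // ¬ ∀ S : Set (Alt n), (∀ i, x i ∈ S) →
      Subgroup.closure S = ⊤ ∧ ((Necf73648.cayleyGraph S).diam : ℝ) ≤
        C * (n * Real.log n) * (n : ℝ) ^ Real.exp (-(Real.sqrt m / C)) *
          Real.exp (C * (Real.log (2 + Real.log n / m)) ^ 2)} : ℝ) ≤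
      ϑ * (Fintype.card (Alt n) : ℝ) ^ m := by
  classical
  obtain ⟨C1, hC1, hev⟩ := BACmain
  obtain ⟨a0, ha0, K, hK, B, hB, hind⟩ := INDU
  have ha0r : (0 : ℝ) ≤ a0 := Nat.cast_nonneg _
  obtain ⟨Q, hQ⟩ : ∃ Q : ℝ, Q = (a0 : ℝ) + 400000 := ⟨_, rfl⟩
  have hQ1 : 1 ≤ Q := by rw [hQ]; linarith
  obtain ⟨D, hD⟩ : ∃ D : ℝ, D = 2 * (Q + C1) := ⟨_, rfl⟩
  have hD4 : 4 ≤ D := by rw [hD]; linarith
  have hDQ : 4 * Q ≤ D ^ 2 := by
    rw [hD]
    nlinarith
  have hDC : 2 * C1 ≤ D := by rw [hD]; linarith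
  have hDC2 : C1 ≤ D ^ 2 := by nlinarith
  obtain ⟨C, hC⟩ : ∃ C : ℝ, C = 100 * D ^ 2 := ⟨_, rfl⟩
  have hD2 : 16 ≤ D ^ 2 := by nlinarith
  have hCC1 : C1 ≤ C := by rw [hC]; linarith
  have hC1' : 1 ≤ C := by linarith
  refine ⟨C, hC1', fun ϑ hϑ => ?_⟩
  obtain ⟨η, hη⟩ : ∃ η : ℝ, η = min ϑ 1 / 4 := ⟨_, rfl⟩
  have hη0 : 0 < η := by
    rw [hη]
    have : 0 < min ϑ 1 := lt_min hϑ one_pos
    positivity
  have hη1 : η ≤ 1 := by
    have : min ϑ 1 ≤ 1 := min_le_right _ _
    rw [hη]; linarith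
  have hηϑ : 4 * η ≤ ϑ := by
    have : min ϑ 1 ≤ ϑ := min_le_left _ _
    rw [hη]; linarith
  obtain ⟨κ, hκ, C2, t, n0, hprob⟩ := prob2 η hη0 hη1
  filter_upwards [hev, hind, BigU hκ C2 t (K + 2 * Q) (by linarith), ev_loglog 2,
    RC14.ev_loggt 1, eventually_ge_atTop 3, eventually_ge_atTop n0,
    RC14.ev_log 0 1 ((B + 2) / (2 * η)) one_pos, RC14.ev_log 0 (1 / 2) (1 / ϑ + 1) (by norm_num),
    evS (520 * 16)]
    with n h1 h2 h3 hL hl hn3 hn0 hlog1 hlog2 hS m hm
  rw [Real.rpow_zero, mul_one] at hlog1 hlog2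
  rw [Real.rpow_one] at hlog1
  obtain ⟨ℓ, hℓ⟩ : ∃ ℓ, ℓ = Real.log n := ⟨_, rfl⟩
  obtain ⟨L, hLd⟩ : ∃ L, L = Real.log ℓ := ⟨_, rfl⟩
  rw [← hℓ] at hl hlog1 hlog2 h1 h3 hL hS h2 ⊢
  rw [← hLd] at hL h1 h3 hS
  have hnR : (0 : ℝ) < n := by exact_mod_cast (by omega : 0 < n)
  have hn1 : (1 : ℝ) ≤ n := by exact_mod_cast (by omega : 1 ≤ n)
  have hℓ0 : 0 < ℓ := by linarith
  have hA : (0 : ℝ) < (Fintype.card (Alt n) : ℝ) := by exact_mod_cast Fintype.card_pos
  have hm0 : (0 : ℝ) < m := by linarith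
  have hpw1 : 1 ≤ (n : ℝ) ^ Real.exp (-(Real.sqrt m / C)) :=
    Real.one_le_rpow hn1 (Real.exp_pos _).le
  have hlg0 : 0 ≤ (Real.log (2 + ℓ / m)) ^ 2 := sq_nonneg _
  by_cases hcase : C1 * L ^ 2 ≤ m
  · -- many letters
    have h4 : ℓ ^ 2 / n ≤ ϑ := by
      have h5 : ℓ / ϑ ≤ (n : ℝ) ^ (1 / 2 : ℝ) := by
        refine le_trans ?_ hlog2
        rw [div_eq_mul_one_div, mul_comm]
        refine mul_le_mul_of_nonneg_right (by linarith) hℓ0.le
      have h5' : ℓ ≤ (n : ℝ) ^ (1 / 2 : ℝ) := by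
        refine le_trans ?_ hlog2
        have : 0 ≤ 1 / ϑ * ℓ := by positivity
        linarith
      have h6 : (n : ℝ) ^ (1 / 2 : ℝ) * (n : ℝ) ^ (1 / 2 : ℝ) = n := by
        rw [← Real.rpow_add hnR]
        norm_num
      rw [div_le_iff₀ hϑ] at h5
      rw [div_le_iff₀ hnR]
      calc ℓ ^ 2 = ℓ * ℓ := by ring
        _ ≤ ((n : ℝ) ^ (1 / 2 : ℝ) * ϑ) * (n : ℝ) ^ (1 / 2 : ℝ) := by
            apply mul_le_mul h5 h5' hℓ0.le (by positivity)
        _ = ϑ * ((n : ℝ) ^ (1 / 2 : ℝ) * (n : ℝ) ^ (1 / 2 : ℝ)) := by ring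
        _ = ϑ * n := by rw [h6]
    have h7 := h1 m hcase
    refine le_trans ?_ (h7.trans (mul_le_mul_of_nonneg_right h4 (by positivity)))
    have h8 := RC14.card_mono (fun x : Fin m → Alt n => ¬ ∀ S : Set (Alt n), (∀ i, x i ∈ S) →
      Subgroup.closure S = ⊤ ∧ ((Necf73648.cayleyGraph S).diam : ℝ) ≤
        C * (n * ℓ) * (n : ℝ) ^ Real.exp (-(Real.sqrt m / C)) *
          Real.exp (C * (Real.log (2 + ℓ / m)) ^ 2))
      (fun x : Fin m → Alt n => ¬ ∀ S : Set (Alt n), (∀ i, x i ∈ S) →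
      Subgroup.closure S = ⊤ ∧ ((Necf73648.cayleyGraph S).diam : ℝ) ≤
        C1 * (n * ℓ) * Real.exp (C1 * (Real.log (2 + ℓ / m)) ^ 2)) (by
        intro x hx hcon
        refine hx fun S hSS => ⟨(hcon S hSS).1, (hcon S hSS).2.trans ?_⟩
        have e1 : C1 * (n * ℓ) ≤ C * (n * ℓ) * (n : ℝ) ^ Real.exp (-(Real.sqrt m / C)) := by
          have h9 : C1 * (n * ℓ) ≤ C * (n * ℓ) := mul_le_mul_of_nonneg_right hCC1 (by positivity)
          exact h9.trans (le_mul_of_one_le_right (by positivity) hpw1)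
        have e2 : Real.exp (C1 * (Real.log (2 + ℓ / m)) ^ 2) ≤
            Real.exp (C * (Real.log (2 + ℓ / m)) ^ 2) :=
          Real.exp_le_exp.2 (mul_le_mul_of_nonneg_right hCC1 hlg0)
        exact mul_le_mul e1 e2 (Real.exp_pos _).le (by positivity))
    exact_mod_cast h8
  · -- few letters
    push Not at hcase
    clear h1
    obtain ⟨u, hu⟩ : ∃ u : ℝ, u = Real.sqrt m / D := ⟨_, rfl⟩
    have hsq : Real.sqrt m * Real.sqrt m = m := Real.mul_self_sqrt hm0.le
    have hsm : 6 * D ≤ Real.sqrt m := by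
      apply Real.le_sqrt_of_sq_le
      rw [hC] at hm
      nlinarith
    have hD0 : 0 < D := by linarith
    have hu6 : 6 ≤ u := by
      rw [hu, le_div_iff₀ hD0]
      exact hsm
    have hu0 : 0 ≤ u := by linarith
    have huD : u * D = Real.sqrt m := by
      rw [hu]
      exact div_mul_cancel₀ _ hD0.ne'
    have hL0 : 0 < L := by linarith
    have hsmL : Real.sqrt m ≤ C1 * L := by
      rw [Real.sqrt_le_left (by positivity)]
      have : C1 * L ^ 2 ≤ C1 * C1 * L ^ 2 := by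
        have h5 : C1 * 1 ≤ C1 * C1 := mul_le_mul_of_nonneg_left hC1 (by linarith)
        have h6 : 0 ≤ L ^ 2 := by positivity
        nlinarith
      nlinarith
    have huL : u ≤ L / 2 := by
      have h5 : u * (2 * C1) ≤ u * D := mul_le_mul_of_nonneg_left hDC hu0
      have h6 : (2 * u) * C1 ≤ L * C1 := by
        rw [huD] at h5
        linarith
      have h7 := le_of_mul_le_mul_right h6 (by linarith : 0 < C1)
      linarith
    obtain ⟨i, hi⟩ : ∃ i : ℕ, i = ⌊u⌋₊ := ⟨_, rfl⟩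
    have hiu : (i : ℝ) ≤ u := by rw [hi]; exact Nat.floor_le hu0
    have hui : u ≤ i + 1 := by rw [hi]; exact (Nat.lt_floor_add_one u).le
    have hi2 : 2 ≤ i := by
      rw [hi]
      apply Nat.le_floor
      push_cast
      linarith
    have hi1L : (i : ℝ) + 1 ≤ L := by linarith
    have hi0 : (0 : ℝ) ≤ i := Nat.cast_nonneg _
    obtain ⟨k, hk⟩ : ∃ k, k = la a0 i := ⟨_, rfl⟩
    have hk1 : 1 ≤ k := by rw [hk]; exact la_ge a0 i ha0
    have hkle : (k : ℝ) ≤ Q * ((i : ℝ) + 1) ^ 2 := by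
      have := la_le a0 i
      rw [← hk] at this
      rw [hQ]
      exact_mod_cast this
    have hkm : k + 1 ≤ m := by
      have h5 : ((k + 1 : ℕ) : ℝ) ≤ m := by
        push_cast
        have h6 : ((i : ℝ) + 1) ^ 2 ≤ 2 * u ^ 2 + 2 := by nlinarith
        have h7 : u ^ 2 * D ^ 2 = m := by
          rw [← mul_pow, huD, sq, hsq]
        have h8 : u ^ 2 * (4 * Q) ≤ m := by
          rw [← h7]
          exact mul_le_mul_of_nonneg_left hDQ (by positivity)
        have h9 : Q * ((i : ℝ) + 1) ^ 2 ≤ Q * (2 * u ^ 2 + 2) :=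
          mul_le_mul_of_nonneg_left h6 (by linarith)
        have h10 : 25 * (4 * Q) ≤ C := by rw [hC]; linarith
        linarith
      exact_mod_cast h5
    have hkR : (1 : ℝ) ≤ k := by exact_mod_cast hk1
    have hk0 : (0 : ℝ) < k := by linarith
    -- the gap
    obtain ⟨ε, hε⟩ : ∃ ε : ℝ, ε = Real.exp (-(K * ((i : ℝ) + 1) ^ 2)) / (2 * k) := ⟨_, rfl⟩
    have hε0 : 0 < ε := by rw [hε]; positivity
    have hexp1 : Real.exp (-(K * ((i : ℝ) + 1) ^ 2)) ≤ 1 := by
      rw [Real.exp_le_one_iff]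
      have : 0 ≤ K * ((i : ℝ) + 1) ^ 2 := by positivity
      linarith
    have hε2 : ε ≤ 2 := by
      rw [hε, div_le_iff₀ (by positivity)]
      linarith
    have hiL2 : ((i : ℝ) + 1) ^ 2 ≤ L ^ 2 := pow_le_pow_left₀ (by positivity) hi1L 2
    have hεL : Real.exp (-((K + 2 * Q) * L ^ 2)) ≤ ε := by
      rw [hε, le_div_iff₀ (by positivity)]
      have h5 : 2 * (k : ℝ) ≤ Real.exp (2 * Q * L ^ 2) := by
        have h6 := Real.add_one_le_exp (2 * Q * L ^ 2)
        have h7 : Q * ((i : ℝ) + 1) ^ 2 ≤ Q * L ^ 2 := mul_le_mul_of_nonneg_left hiL2 (by linarith)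
        linarith
      have h8 : Real.exp (-(K * L ^ 2)) ≤ Real.exp (-(K * ((i : ℝ) + 1) ^ 2)) := by
        apply Real.exp_le_exp.2
        apply neg_le_neg
        exact mul_le_mul_of_nonneg_left hiL2 (by linarith)
      calc Real.exp (-((K + 2 * Q) * L ^ 2)) * (2 * k)
          ≤ Real.exp (-((K + 2 * Q) * L ^ 2)) * Real.exp (2 * Q * L ^ 2) := by gcongr
        _ = Real.exp (-(K * L ^ 2)) := by
            rw [← Real.exp_add]
            congr 1
            ring
        _ ≤ _ := h8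
    have hBig := h3 i hi2 (by linarith) ε hεL
    have hdl0 := dl_pos i
    have hdl36 : dl i ≤ 1 / 36 := by
      refine (dl_mono hi2).trans ?_
      unfold dl
      norm_num
    have h520 : 520 ≤ dl i * ℓ := by
      have h5 := exp_dl i ℓ hℓ0 (by rw [← hLd]; linarith)
      have h6 : 520 * 16 * 1 ≤ 520 * 16 * L ^ 2 := by
        have : 1 ≤ L ^ 2 := by nlinarith
        linarith
      linarith
    have hsl : sl i = 1 - 3 * dl i := rfl
    have hRr : TE852.Rr (sl i) n + 2 ≤ n := by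
      have h5 : (TE852.Rr (sl i) n : ℝ) ≤ (n : ℝ) ^ (1 - 3 * dl i) := by
        unfold TE852.Rr
        rw [hsl]
        exact Nat.floor_le (by positivity)
      have h6 : (n : ℝ) ^ (1 - 3 * dl i) * (n : ℝ) ^ (3 * dl i) = n := by
        rw [← Real.rpow_add hnR]
        nth_rewrite 2 [← Real.rpow_one (n : ℝ)]
        congr 1
        ring
      have h7 : (n : ℝ) ^ (1 - 3 * dl i) * 25 ≤ n := by
        refine le_trans ?_ h6.le
        exact mul_le_mul_of_nonneg_left hBig.k (by positivity)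
      have h8 : (3 : ℝ) ≤ n := by exact_mod_cast hn3
      have h9 : (TE852.Rr (sl i) n : ℝ) + 2 ≤ n := by linarith
      exact_mod_cast h9
    have hb := h2 i h520
    have hb2 : (#{y : Fin k → Alt n | ¬ ∀ r ≤ ⌊(n : ℝ) ^ (1 - 3 * dl i)⌋₊,
        Run7.h624.DM.TGap r ε y} : ℝ) ≤ η * (Fintype.card (Alt n) : ℝ) ^ k := by
      have h5 : (#{y : Fin k → Alt n | ¬ ∀ r ≤ ⌊(n : ℝ) ^ (1 - 3 * dl i)⌋₊,
          Run7.h624.DM.TGap r ε y} : ℝ) ≤
          Nat.card {y : Fin k → Alt n // ¬ Good1 n (TE852.Rr (sl i) n)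
            (Real.exp (-(K * ((i : ℝ) + 1) ^ 2))) y} := by
        rw [← Fintype.card_subtype, ← Nat.card_eq_fintype_card]
        refine Nat.cast_le.2 (RC14.card_mono _ _ fun y hy hg => hy ?_)
        intro r hr
        have h6 := Pool.Agent.Results.MP_75608d_al.GapAllTuples.gap_of_good n (TE852.Rr (sl i) n) k hRr
          hk1 _ y hg
        rw [← hε] at h6
        exact h6.2 r hr
      refine h5.trans ?_
      rw [← hk] at hb
      refine hb.trans ?_
      refine mul_le_mul_of_nonneg_right ?_ (by positivity)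
      rw [div_le_iff₀ hnR]
      have h7 : L ≤ ℓ := by
        rw [hLd]
        have := Real.log_le_sub_one_of_pos hℓ0
        linarith
      have h8 : B + 2 * i ≤ (B + 2) * ℓ := by
        have h9 : B * 1 ≤ B * ℓ := mul_le_mul_of_nonneg_left hl hB
        linarith
      have h10 : (B + 2) / (2 * η) * ℓ = (B + 2) * ℓ / (2 * η) := by ring
      rw [h10, div_le_iff₀ (by positivity)] at hlog1
      have h11 : (n : ℝ) * (2 * η) = 2 * (η * n) := by ring
      have h12 : 0 < η * n := by positivity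
      have h13 : B + 2 * i ≤ 2 * (η * n) := by linarith
      have h14 : (B + 2 * (i : ℝ)) ≤ η * n := by
        have h15 : 2 * (B + 2 * (i : ℝ)) ≤ (B + 2) * ℓ := by
          have h16 : 4 * (i : ℝ) ≤ 2 * ℓ := by linarith
          have h17 : B * 2 ≤ B * ℓ := by
            refine mul_le_mul_of_nonneg_left ?_ hB
            linarith
          linarith
        linarith
      exact h14
    have hP := hprob (3 * dl i) ε n (by positivity) (by linarith) hε0 hε2 hn0 hBig k hk1 η hb2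
    have hPn : (Nat.card {x : Fin (k + 1) → Alt n // ¬ Run7.h624.DM.Dm (10 * (3 * dl i)) n x} : ℝ) ≤
        (2 * η + η) * (Fintype.card (Alt n) : ℝ) ^ (k + 1) := by
      rw [Nat.card_eq_fintype_card, Fintype.card_subtype]
      exact hP
    have hfin := ext_count hkm (fun y => Run7.h624.DM.Dm (10 * (3 * dl i)) n y)
      (fun x : Fin m → Alt n => ∀ S : Set (Alt n), (∀ i, x i ∈ S) →
        Subgroup.closure S = ⊤ ∧ ((Necf73648.cayleyGraph S).diam : ℝ) ≤
        C * (n * ℓ) * (n : ℝ) ^ Real.exp (-(Real.sqrt m / C)) *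
          Real.exp (C * (Real.log (2 + ℓ / m)) ^ 2)) (by
        intro x hx S hSS
        have h5 := good_of_Dm hx S (fun a => hSS _)
        refine ⟨h5.1, h5.2.trans ?_⟩
        have h6 : 10 * (3 * dl i) ≤ Real.exp (-(Real.sqrt m / C)) := by
          have h7 := dl_exp i u hu6 hui
          have h8 : Real.exp (-(u / 6)) ≤ Real.exp (-(Real.sqrt m / C)) := by
            apply Real.exp_le_exp.2
            apply neg_le_neg
            rw [← huD, hC]
            have h9 : u * D / (100 * D ^ 2) = u / (100 * D) := by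
              field_simp
            rw [h9]
            exact div_le_div_of_nonneg_left hu0 (by norm_num) (by linarith)
          linarith
        have h7 : (n : ℝ) ^ (1 + 10 * (3 * dl i)) ≤
            n * (n : ℝ) ^ Real.exp (-(Real.sqrt m / C)) := by
          rw [Real.rpow_add hnR, Real.rpow_one]
          refine mul_le_mul_of_nonneg_left ?_ hnR.le
          exact Real.rpow_le_rpow_of_exponent_le hn1 h6
        refine h7.trans ?_
        have h8 : 1 ≤ Real.exp (C * (Real.log (2 + ℓ / m)) ^ 2) := by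
          rw [Real.one_le_exp_iff]
          exact mul_nonneg (by linarith) hlg0
        have h9 : 1 ≤ C * ℓ := one_le_mul_of_one_le_of_one_le hC1' hl
        calc (n : ℝ) * (n : ℝ) ^ Real.exp (-(Real.sqrt m / C))
            ≤ (C * ℓ) * (n * (n : ℝ) ^ Real.exp (-(Real.sqrt m / C))) :=
              le_mul_of_one_le_left (by positivity) h9
          _ = C * (n * ℓ) * (n : ℝ) ^ Real.exp (-(Real.sqrt m / C)) := by ring
          _ ≤ _ := le_mul_of_one_le_right (by positivity) h8) (2 * η + η) hPn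
    refine hfin.trans ?_
    refine mul_le_mul_of_nonneg_right ?_ (by positivity)
    linarith

end Run7.h107.BD
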