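import Pool.Agent.Run7.h107.BDC

/-!
Gap of the Schreier graphs on `r`-tuples for `r ≤ n ^ (1 - exp (-√m / C))`, for `m ≥ C` letters
(helper107, MP_838239_al).
-/

namespace Run7.h107.BD
open RC14 Finset Equiv Filter Topology
open Run7.h107
open Pool.Agent.Results.MP_75608d_al

lemma good1_ext {n k m R : ℕ} (h : k ≤ m) {c : ℝ} {x : Fin m → Alt n}
    (hx : Good1 n R c (fun a => x (Fin.castLE h a))) : Good1 n R c x := by
  intro j h1 h2 v hv
  refine (hx j h1 h2 v hv).trans ?_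
  unfold En
  have e1 : ∑ i : Fin k, ‖repA j n (x (Fin.castLEEmb h i)) v - v‖ ^ 2 =
      ∑ i ∈ (Finset.univ : Finset (Fin k)).map (Fin.castLEEmb h),
        ‖repA j n (x i) v - v‖ ^ 2 := by
    rw [Finset.sum_map]
  have e2 : ∑ i : Fin k, ‖repA j n (x (Fin.castLE h i)) v - v‖ ^ 2 =
      ∑ i : Fin k, ‖repA j n (x (Fin.castLEEmb h i)) v - v‖ ^ 2 := rfl
  rw [e2, e1]
  exact Finset.sum_le_sum_of_subset_of_nonneg (Finset.subset_univ _)
    (fun i _ _ => sq_nonneg _)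

lemma good1_mono {n k R R' : ℕ} (h : R' ≤ R) {c : ℝ} {x : Fin k → Alt n}
    (hx : Good1 n R c x) : Good1 n R' c x :=
  fun j h1 h2 v hv => hx j h1 (h2.trans h) v hv

/-- gap up to the level `n ^ (1 - exp (-√m / C))` for `m` letters -/
theorem TUPmain : ∃ C : ℝ, 1 ≤ C ∧ ∀ᶠ n : ℕ in atTop, ∀ m : ℕ, C ≤ m →
    C * m ≤ (Real.log (Real.log n)) ^ 2 →
    (Nat.card {x : Fin m → Alt n // ¬ GapAllTuples.GapUpTo n
        ⌊(n : ℝ) ^ (1 - Real.exp (-(Real.sqrt m / C)))⌋₊ (Real.exp (-(C * m))) x} : ℝ) ≤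
      C * Real.sqrt m / n * (Fintype.card (Alt n) : ℝ) ^ m := by
  classical
  obtain ⟨a0, ha0, K, hK, B, hB, hind⟩ := INDU
  have ha0r : (0 : ℝ) ≤ a0 := Nat.cast_nonneg _
  obtain ⟨Q, hQ⟩ : ∃ Q : ℝ, Q = (a0 : ℝ) + 400000 := ⟨_, rfl⟩
  have hQ1 : 1 ≤ Q := by rw [hQ]; linarith
  obtain ⟨D, hD⟩ : ∃ D : ℝ, D = 4 * Q := ⟨_, rfl⟩
  have hD4 : 4 ≤ D := by rw [hD]; linarith
  have hDQ : 4 * Q ≤ D ^ 2 := by
    rw [hD]
    nlinarith
  have hD2 : 16 ≤ D ^ 2 := by nlinarith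
  obtain ⟨C, hC⟩ : ∃ C : ℝ, C = 100 * D ^ 2 + (4 * K + 2) + (B + 2) := ⟨_, rfl⟩
  have hC36 : 36 * D ^ 2 ≤ C := by rw [hC]; linarith
  have hC6D : 6 * D ≤ C := by
    rw [hC]
    nlinarith
  have hC1 : 1 ≤ C := by linarith
  refine ⟨C, hC1, ?_⟩
  filter_upwards [hind, ev_loglog 2, RC14.ev_loggt 1, eventually_ge_atTop 3, evS (520 * 16)]
    with n h2 hL hl hn3 hS m hm hmL
  obtain ⟨ℓ, hℓ⟩ : ∃ ℓ, ℓ = Real.log n := ⟨_, rfl⟩
  obtain ⟨L, hLd⟩ : ∃ L, L = Real.log ℓ := ⟨_, rfl⟩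
  rw [← hℓ] at hl hL hS h2 hmL
  rw [← hLd] at hL hS hmL
  have hnR : (0 : ℝ) < n := by exact_mod_cast (by omega : 0 < n)
  have hn1 : (1 : ℝ) ≤ n := by exact_mod_cast (by omega : 1 ≤ n)
  have hℓ0 : 0 < ℓ := by linarith
  have hA : (0 : ℝ) < (Fintype.card (Alt n) : ℝ) := by exact_mod_cast Fintype.card_pos
  have hm1 : (1 : ℝ) ≤ m := by linarith
  have hm0 : (0 : ℝ) < m := by linarith
  have hL0 : 0 < L := by linarith
  obtain ⟨u, hu⟩ : ∃ u : ℝ, u = Real.sqrt m / D := ⟨_, rfl⟩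
  have hsq : Real.sqrt m * Real.sqrt m = m := Real.mul_self_sqrt hm0.le
  have hs1 : 1 ≤ Real.sqrt m := by
    rw [Real.one_le_sqrt]
    exact hm1
  have hD0 : 0 < D := by linarith
  have hsm : 6 * D ≤ Real.sqrt m := by
    apply Real.le_sqrt_of_sq_le
    nlinarith
  have hu6 : 6 ≤ u := by
    rw [hu, le_div_iff₀ hD0]
    exact hsm
  have hu0 : 0 ≤ u := by linarith
  have huD : u * D = Real.sqrt m := by
    rw [hu]
    exact div_mul_cancel₀ _ hD0.ne'
  have hsmL : Real.sqrt m ≤ L := by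
    rw [Real.sqrt_le_left hL0.le]
    have : 1 * (m : ℝ) ≤ C * m := mul_le_mul_of_nonneg_right hC1 hm0.le
    linarith
  have huL : u ≤ L / 2 := by
    have h5 : u * 2 ≤ u * D := mul_le_mul_of_nonneg_left (by linarith) hu0
    linarith
  obtain ⟨i, hi⟩ : ∃ i : ℕ, i = ⌊u⌋₊ := ⟨_, rfl⟩
  have hiu : (i : ℝ) ≤ u := by rw [hi]; exact Nat.floor_le hu0
  have hui : u ≤ i + 1 := by rw [hi]; exact (Nat.lt_floor_add_one u).le
  have hi1L : (i : ℝ) + 1 ≤ L := by linarith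
  have hi0 : (0 : ℝ) ≤ i := Nat.cast_nonneg _
  obtain ⟨k, hk⟩ : ∃ k, k = la a0 i := ⟨_, rfl⟩
  have hkle : (k : ℝ) ≤ Q * ((i : ℝ) + 1) ^ 2 := by
    have := la_le a0 i
    rw [← hk] at this
    rw [hQ]
    exact_mod_cast this
  have hi2 : ((i : ℝ) + 1) ^ 2 ≤ 2 * u ^ 2 + 2 := by nlinarith
  have huDm : u ^ 2 * D ^ 2 = m := by
    rw [← mul_pow, huD, sq, hsq]
  have hkm : k ≤ m := by
    have h5 : ((k : ℕ) : ℝ) ≤ m := by
      have h8 : u ^ 2 * (4 * Q) ≤ m := by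
        rw [← huDm]
        exact mul_le_mul_of_nonneg_left hDQ (by positivity)
      have h9 : Q * ((i : ℝ) + 1) ^ 2 ≤ Q * (2 * u ^ 2 + 2) :=
        mul_le_mul_of_nonneg_left hi2 (by linarith)
      have h10 : 25 * (4 * Q) ≤ C := by linarith
      linarith
    exact_mod_cast h5
  have hm0' : 1 ≤ m := by exact_mod_cast hm1
  have hdl0 := dl_pos i
  have h520 : 520 ≤ dl i * ℓ := by
    have h5 := exp_dl i ℓ hℓ0 (by rw [← hLd]; linarith)
    have h6 : 520 * 16 * 1 ≤ 520 * 16 * L ^ 2 := by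
      have : 1 ≤ L ^ 2 := by nlinarith
      linarith
    linarith
  have hsl : sl i = 1 - 3 * dl i := rfl
  have hn25 : 25 ≤ (n : ℝ) ^ (3 * dl i) := by
    rw [Real.rpow_def_of_pos hnR, ← hℓ]
    have h5 := Real.add_one_le_exp (ℓ * (3 * dl i))
    have h6 : ℓ * (3 * dl i) = 3 * (dl i * ℓ) := by ring
    rw [h6] at h5 ⊢
    linarith
  have hRr : TE852.Rr (sl i) n + 2 ≤ n := by
    have h5 : (TE852.Rr (sl i) n : ℝ) ≤ (n : ℝ) ^ (1 - 3 * dl i) := by
      unfold TE852.Rr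
      rw [hsl]
      exact Nat.floor_le (by positivity)
    have h6 : (n : ℝ) ^ (1 - 3 * dl i) * (n : ℝ) ^ (3 * dl i) = n := by
      rw [← Real.rpow_add hnR]
      nth_rewrite 2 [← Real.rpow_one (n : ℝ)]
      congr 1
      ring
    have h7 : (n : ℝ) ^ (1 - 3 * dl i) * 25 ≤ n := by
      refine le_trans ?_ h6.le
      exact mul_le_mul_of_nonneg_left hn25 (by positivity)
    have h8 : (3 : ℝ) ≤ n := by exact_mod_cast hn3
    have h9 : (TE852.Rr (sl i) n : ℝ) + 2 ≤ n := by linarith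
    exact_mod_cast h9
  obtain ⟨R, hR⟩ : ∃ R : ℕ, R = ⌊(n : ℝ) ^ (1 - Real.exp (-(Real.sqrt m / C)))⌋₊ := ⟨_, rfl⟩
  have hRR : R ≤ TE852.Rr (sl i) n := by
    rw [hR]
    unfold TE852.Rr
    apply Nat.floor_le_floor
    apply Real.rpow_le_rpow_of_exponent_le hn1
    rw [hsl]
    have h7 := dl_exp i u hu6 hui
    have h8 : Real.exp (-(u / 6)) ≤ Real.exp (-(Real.sqrt m / C)) := by
      apply Real.exp_le_exp.2
      apply neg_le_neg
      rw [← huD, div_le_div_iff₀ (by linarith) (by norm_num)]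
      have h9 : u * (6 * D) ≤ u * C := mul_le_mul_of_nonneg_left hC6D hu0
      linarith
    linarith
  have hgap : Real.exp (-(C * m)) ≤ Real.exp (-(K * ((i : ℝ) + 1) ^ 2)) / (2 * m) := by
    rw [le_div_iff₀ (by positivity)]
    have h5 : 2 * (m : ℝ) ≤ Real.exp (2 * m) := by
      have := Real.add_one_le_exp (2 * (m : ℝ))
      linarith
    have h6 : ((i : ℝ) + 1) ^ 2 ≤ 4 * m := by
      have h7 : u ^ 2 * 1 ≤ u ^ 2 * D ^ 2 := mul_le_mul_of_nonneg_left (by linarith) (by positivity)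
      linarith
    have h7 : K * ((i : ℝ) + 1) ^ 2 ≤ K * (4 * m) := mul_le_mul_of_nonneg_left h6 (by linarith)
    calc Real.exp (-(C * m)) * (2 * m) ≤ Real.exp (-(C * m)) * Real.exp (2 * m) := by gcongr
      _ = Real.exp (-(C * m) + 2 * m) := (Real.exp_add _ _).symm
      _ ≤ Real.exp (-(K * ((i : ℝ) + 1) ^ 2)) := by
          apply Real.exp_le_exp.2
          have h8 : (4 * K + 2) * m ≤ C * m := by
            refine mul_le_mul_of_nonneg_right ?_ hm0.le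
            rw [hC]
            linarith
          linarith
  have hb := h2 i h520
  rw [← hk] at hb
  rw [← hR]
  have hfin := ext_count hkm (fun y => Good1 n (TE852.Rr (sl i) n)
      (Real.exp (-(K * ((i : ℝ) + 1) ^ 2))) y)
    (fun x : Fin m → Alt n => GapAllTuples.GapUpTo n R (Real.exp (-(C * m))) x) (by
      intro x hx
      have h5 := good1_mono hRR (good1_ext hkm hx)
      have h6 := GapAllTuples.gap_of_good n R m (by omega) hm0' _ x h5
      refine ⟨fun f hf h0 => (h6.1 f hf h0).trans ?_, fun r hr f h0 => (h6.2 r hr f h0).trans ?_⟩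
      · refine mul_le_mul_of_nonneg_right (by linarith) (Finset.sum_nonneg fun _ _ => sq_nonneg _)
      · refine mul_le_mul_of_nonneg_right (by linarith) (Finset.sum_nonneg fun _ _ => sq_nonneg _))
    ((B + 2 * i) / n) hb
  refine hfin.trans ?_
  refine mul_le_mul_of_nonneg_right ?_ (by positivity)
  refine div_le_div_of_nonneg_right ?_ hnR.le
  have h5 : (i : ℝ) ≤ Real.sqrt m := by
    have h6 : u * 1 ≤ u * D := mul_le_mul_of_nonneg_left (by linarith) hu0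
    linarith
  have h6 : B * 1 ≤ B * Real.sqrt m := mul_le_mul_of_nonneg_left hs1 hB
  have h7 : (B + 2) * Real.sqrt m ≤ C * Real.sqrt m := by
    refine mul_le_mul_of_nonneg_right ?_ (by linarith)
    rw [hC]
    nlinarith
  linarith

end Run7.h107.BD
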