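import Pool.Agent.Run7.h107.BDC
import Pool.Agent.H100R2.EX.MARG

/-!
Generating sets of the symmetric group which contain few random elements (helper107,
MP_7b6720_al).
-/

namespace Run7.h107.BE
open Finset Equiv Filter Topology
open RC14 (Alt)
open Pool.Agent.H84R2.Bab

lemma pigeon {m k : ℕ} (h : 2 * k + 1 ≤ m) (σ : Fin m → ℤˣ) :
    ∃ e : Fin (k + 1) ↪ Fin m, ∀ a b, σ (e a) = σ (e b) := by
  classical
  have h1 : Fintype.card ℤˣ * k < Fintype.card (Fin m) := by
    rw [Fintype.card_fin, Fintype.card_units_int]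
    omega
  obtain ⟨s, hs⟩ := Fintype.exists_lt_card_fiber_of_mul_lt_card σ h1
  obtain ⟨T, hT, hTc⟩ := Finset.exists_subset_card_eq (Nat.succ_le_of_lt hs)
  have h2 : ∀ a, σ (T.orderEmbOfFin hTc a) = s := fun a =>
    (Finset.mem_filter.1 (hT (Finset.orderEmbOfFin_mem T hTc a))).2
  exact ⟨(T.orderEmbOfFin hTc).toEmbedding, fun a b => (h2 a).trans (h2 b).symm⟩

/-- uniform quotients -/
lemma shift_count {A : Type} [Group A] [Fintype A] {m k : ℕ} (e : Fin (k + 1) ↪ Fin m)
    (P : (Fin k → A) → Prop) (b : ℝ)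
    (hb : (Nat.card {u : Fin k → A // P u} : ℝ) ≤ b * (Fintype.card A : ℝ) ^ k) :
    (Nat.card {z : Fin m → A // P fun a => z (e a.succ) * (z (e 0))⁻¹} : ℝ) ≤
      b * (Fintype.card A : ℝ) ^ m := by
  classical
  let T : (Fin m → A) ≃ (Fin m → A) :=
    { toFun := fun z i => if i = e 0 then z i else z i * (z (e 0))⁻¹
      invFun := fun z i => if i = e 0 then z i else z i * z (e 0)
      left_inv := by
        intro z
        funext i
        by_cases h : i = e 0
        · simp [h]
        · simp [h]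
      right_inv := by
        intro z
        funext i
        by_cases h : i = e 0
        · simp [h]
        · simp [h] }
  have hne : ∀ a : Fin k, e a.succ ≠ e 0 := fun a h =>
    Fin.succ_ne_zero a (e.injective h)
  have h1 : Nat.card {z : Fin m → A // P fun a => z (e a.succ) * (z (e 0))⁻¹} =
      Nat.card {z : Fin m → A // P fun a => z (((Fin.succEmb k).trans e) a)} := by
    refine Nat.card_congr (T.subtypeEquiv fun z => ?_)
    have e1 : (fun a : Fin k => T z (((Fin.succEmb k).trans e) a)) =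
        fun a => z (e a.succ) * (z (e 0))⁻¹ := by
      funext a
      have h2 := hne a
      show (if e a.succ = e 0 then z (e a.succ) else z (e a.succ) * (z (e 0))⁻¹) = _
      rw [if_neg h2]
    rw [e1]
  have hM := RC852.MARG (A := A) ((Fin.succEmb k).trans e) P
  rw [Fintype.card_fin, Fintype.card_fin] at hM
  have hA : (0 : ℝ) < (Fintype.card A : ℝ) := by
    exact_mod_cast Fintype.card_pos
  have hM' : (Nat.card {z : Fin m → A // P fun a => z (((Fin.succEmb k).trans e) a)} : ℝ) *
      (Fintype.card A : ℝ) ^ k =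
      (Nat.card {u : Fin k → A // P u} : ℝ) * (Fintype.card A : ℝ) ^ m := by
    exact_mod_cast hM
  rw [h1]
  have hAk : (0 : ℝ) < (Fintype.card A : ℝ) ^ k := by positivity
  rw [← mul_le_mul_iff_of_pos_right hAk, hM']
  calc (Nat.card {u : Fin k → A // P u} : ℝ) * (Fintype.card A : ℝ) ^ m
      ≤ (b * (Fintype.card A : ℝ) ^ k) * (Fintype.card A : ℝ) ^ m := by gcongr
    _ = b * (Fintype.card A : ℝ) ^ m * (Fintype.card A : ℝ) ^ k := by ring

/-- from tuples of `A_n` to tuples of `S_n` -/
lemma sym_count {n m k : ℕ} (hn : 2 ≤ n) (hk : 2 * k + 1 ≤ m) (P : (Fin k → Alt n) → Prop)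
    (R : (Fin m → Perm (Fin n)) → Prop)
    (hPR : ∀ (x : Fin m → Perm (Fin n)) (e : Fin (k + 1) ↪ Fin m) (y : Fin k → Alt n),
      (∀ a, (y a : Perm (Fin n)) = x (e a.succ) * (x (e 0))⁻¹) → P y → R x)
    (b : ℝ) (hb : (Nat.card {y : Fin k → Alt n // ¬ P y} : ℝ) ≤
      b * (Fintype.card (Alt n) : ℝ) ^ k) :
    (Nat.card {x : Fin m → Perm (Fin n) // ¬ R x} : ℝ) ≤ b * (n.factorial : ℝ) ^ m := by
  classical
  have hnt : Nontrivial (Fin n) := Fin.nontrivial_iff_two_le.2 hn
  obtain ⟨t, ht⟩ : ∃ t : ℤˣ → Perm (Fin n), ∀ s, Perm.sign (t s) = s := by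
    have hsur := Perm.sign_surjective (Fin n)
    exact ⟨fun s => (hsur s).choose, fun s => (hsur s).choose_spec⟩
  choose e he using fun σ : Fin m → ℤˣ => pigeon hk σ
  -- the tuples with given signs
  let Z : (Fin m → ℤˣ) → Type := fun σ =>
    {z : Fin m → Alt n // ¬ P fun a => z (e σ a.succ) * (z (e σ 0))⁻¹}
  have hmem : ∀ x : Perm (Fin n), x * (t (Perm.sign x))⁻¹ ∈ alternatingGroup (Fin n) := by
    intro x
    rw [Perm.mem_alternatingGroup, Perm.sign_mul, Perm.sign_inv, ht]
    exact Int.units_mul_self _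
  have h1 : Nat.card {x : Fin m → Perm (Fin n) // ¬ R x} ≤ Nat.card (Σ σ, Z σ) := by
    refine Nat.card_le_card_of_injective (fun x => ⟨fun i => Perm.sign (x.1 i),
      ⟨fun i => ⟨x.1 i * (t (Perm.sign (x.1 i)))⁻¹, hmem _⟩, fun hP => x.2 ?_⟩⟩) ?_
    · refine hPR x.1 (e fun i => Perm.sign (x.1 i)) _ (fun a => ?_) hP
      have h2 : Perm.sign (x.1 (e (fun i => Perm.sign (x.1 i)) a.succ)) =
          Perm.sign (x.1 (e (fun i => Perm.sign (x.1 i)) 0)) :=
        he (fun i => Perm.sign (x.1 i)) a.succ 0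
      push_cast
      rw [← h2]
      group
    · intro x y hxy
      have h3 := congrArg (fun p : Σ σ, Z σ => p.1) hxy
      have h4 : ∀ i, ((x.1 i * (t (Perm.sign (x.1 i)))⁻¹ : Perm (Fin n))) =
          y.1 i * (t (Perm.sign (y.1 i)))⁻¹ := by
        intro i
        exact congrArg (fun p : Σ σ, Z σ => ((p.2.1 i : Alt n) : Perm (Fin n))) hxy
      apply Subtype.ext
      funext i
      have h5 := congrFun h3 i
      simp only at h5
      have h6 := h4 i
      rw [h5] at h6
      exact mul_right_cancel h6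
  have h2 : (Nat.card (Σ σ, Z σ) : ℝ) ≤ b * (n.factorial : ℝ) ^ m := by
    rw [Nat.card_sigma]
    push_cast
    have h3 : ∀ σ : Fin m → ℤˣ, (Nat.card (Z σ) : ℝ) ≤ b * (Fintype.card (Alt n) : ℝ) ^ m :=
      fun σ => shift_count (e σ) (fun y => ¬ P y) b hb
    refine (Finset.sum_le_sum fun σ _ => h3 σ).trans (le_of_eq ?_)
    rw [Finset.sum_const, Finset.card_univ, nsmul_eq_mul, Fintype.card_fun, Fintype.card_fin,
      Fintype.card_units_int]
    have h4 : (2 * Fintype.card (Alt n) : ℝ) = n.factorial := by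
      have : 2 * Fintype.card (Alt n) = n.factorial := by
        rw [two_mul_card_alternatingGroup, Fintype.card_perm, Fintype.card_fin]
      exact_mod_cast this
    rw [← h4, mul_pow]
    push_cast
    ring
  have h3 : (Nat.card {x : Fin m → Perm (Fin n) // ¬ R x} : ℝ) ≤ Nat.card (Σ σ, Z σ) := by
    exact_mod_cast h1
  exact h3.trans h2

/-- word lengths from the diameter -/
lemma len_of_diam {G : Type} [Group G] [Finite G] {S : Set G} (hS : Subgroup.closure S = ⊤)
    (g : G) : Len S (Necf73648.cayleyGraph S).diam g := by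
  have h1 : (Necf73648.cayleyGraph S).Connected := by
    rw [SimpleGraph.connected_iff]
    refine ⟨fun u v => ?_, ⟨1⟩⟩
    obtain ⟨ℓ, l, -, hl2, hl3⟩ := g_exists_len S (x := u⁻¹ * v) (by
      rw [hS]; exact Subgroup.mem_top _)
    obtain ⟨w, -⟩ := g_walk S l hl2 u
    rw [hl3, mul_inv_cancel_left] at w
    exact w.reachable
  exact (g2 S hS g).mono (SimpleGraph.dist_le_diam
    (SimpleGraph.connected_iff_ediam_ne_top.1 h1))

/-- words in quotients -/
lemma len_lift {n k d : ℕ} {y : Fin k → Alt n} {A : Set (Perm (Fin n))}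
    (hy : ∀ a, Len A 2 (y a : Perm (Fin n))) {g : Alt n} (h : Len (Set.range y) d g) :
    Len A (d * 2) (g : Perm (Fin n)) := by
  obtain ⟨l, h1, h2, h3⟩ := h
  have key : ∀ l : List (Alt n), (∀ z ∈ l, z ∈ Set.range y ∨ z⁻¹ ∈ Set.range y) →
      Len A (l.length * 2) (l.prod : Perm (Fin n)) := by
    intro l
    induction l with
    | nil =>
      intro _
      simpa using (Len.one : Len A 0 (1 : Perm (Fin n)))
    | cons z l ih =>
      intro h
      have h4 := ih fun w hw => h w (List.mem_cons_of_mem _ hw)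
      have h5 : Len A 2 (z : Perm (Fin n)) := by
        rcases h z List.mem_cons_self with ⟨a, ha⟩ | ⟨a, ha⟩
        · rw [← ha]
          exact hy a
        · have h6 := (hy a).inv
          rw [ha] at h6
          simpa using h6
      have h6 := h5.mul h4
      rw [List.prod_cons, List.length_cons]
      have e1 : (l.length + 1) * 2 = 2 + l.length * 2 := by ring
      rw [e1]
      simpa using h6
  rw [← h3]
  exact (key l h2).mono (Nat.mul_le_mul_right 2 h1)

end Run7.h107.BE
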