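import Pool.Agent.Run7.h107.BE

/-!
Word lengths in the symmetric group for all generating sets which contain few random elements
(helper107, MP_7b6720_al).
-/

namespace Run7.h107.BE
open Finset Equiv Filter Topology
open RC14 (Alt)
open Pool.Agent.H84R2.Bab

lemma exists_odd {n : ℕ} (hn : 2 ≤ n) {A : Set (Perm (Fin n))} (h : Subgroup.closure A = ⊤) :
    ∃ s ∈ A, Perm.sign s = -1 := by
  by_contra hcon
  push Not at hcon
  have hnt : Nontrivial (Fin n) := Fin.nontrivial_iff_two_le.2 hn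
  have h1 : Subgroup.closure A ≤ alternatingGroup (Fin n) := by
    rw [Subgroup.closure_le]
    intro s hs
    rw [SetLike.mem_coe, Perm.mem_alternatingGroup]
    rcases Int.units_eq_one_or (Perm.sign s) with h2 | h2
    · exact h2
    · exact absurd h2 (hcon s hs)
  obtain ⟨t, ht⟩ := Perm.sign_surjective (Fin n) (-1)
  have h2 : t ∈ alternatingGroup (Fin n) := h1 (by rw [h]; exact Subgroup.mem_top t)
  rw [Perm.mem_alternatingGroup, ht] at h2
  exact absurd h2 (by decide)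

lemma num_log (ℓ k m : ℝ) (hℓ : 0 ≤ ℓ) (hk : 0 < k) (hm : 0 < m) (h : m ≤ 3 * k) :
    (Real.log (2 + ℓ / k)) ^ 2 ≤ 7 * (Real.log (2 + ℓ / m)) ^ 2 := by
  have h1 : ℓ / k ≤ 3 * (ℓ / m) := by
    rw [div_le_iff₀ hk]
    have e : 3 * (ℓ / m) * k = ℓ * (3 * k) / m := by ring
    rw [e, le_div_iff₀ hm]
    exact mul_le_mul_of_nonneg_left h hℓ
  have h2 : 0 ≤ ℓ / m := by positivity
  have h3 : 0 ≤ ℓ / k := by positivity
  have h4 : Real.log (2 + ℓ / k) ≤ Real.log 3 + Real.log (2 + ℓ / m) := by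
    rw [← Real.log_mul (by norm_num) (by positivity)]
    apply Real.log_le_log (by positivity)
    linarith
  have h5 : Real.log 2 ≤ Real.log (2 + ℓ / m) := by
    apply Real.log_le_log (by norm_num)
    linarith
  have h6 : 5 * Real.log 3 ≤ 8 * Real.log 2 := by
    have h7 : Real.log ((3 : ℝ) ^ 5) ≤ Real.log ((2 : ℝ) ^ 8) :=
      Real.log_le_log (by norm_num) (by norm_num)
    rw [Real.log_pow, Real.log_pow] at h7
    push_cast at h7
    exact h7
  have h8 : 0 ≤ Real.log (2 + ℓ / k) := Real.log_nonneg (by linarith)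
  have h9 : 0 < Real.log 2 := Real.log_pos (by norm_num)
  set w := Real.log (2 + ℓ / m) with hw
  have h10 : Real.log (2 + ℓ / k) ≤ 13 / 5 * w := by linarith
  have h11 : (Real.log (2 + ℓ / k)) ^ 2 ≤ (13 / 5 * w) ^ 2 := pow_le_pow_left₀ h8 h10 2
  have h12 : 0 ≤ w ^ 2 := sq_nonneg w
  nlinarith

/-- all generating sets of `S_n` which contain `m ≥ C` random elements -/
theorem SYMmain : ∃ C : ℝ, 1 ≤ C ∧ ∀ ϑ : ℝ, 0 < ϑ → ∀ᶠ n : ℕ in atTop, ∀ m : ℕ, C ≤ m →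
    (Nat.card {x : Fin m → Perm (Fin n) // ¬ ∀ A : Set (Perm (Fin n)), (∀ i, x i ∈ A) →
      Subgroup.closure A = ⊤ → ∀ g : Perm (Fin n), ∃ l : List (Perm (Fin n)),
        (l.length : ℝ) ≤ C * (n * Real.log n) * (n : ℝ) ^ Real.exp (-(Real.sqrt m / C)) *
          Real.exp (C * (Real.log (2 + Real.log n / m)) ^ 2) ∧
        (∀ y ∈ l, y ∈ A ∨ y⁻¹ ∈ A) ∧ l.prod = g} : ℝ) ≤
      ϑ * (n.factorial : ℝ) ^ m := by
  obtain ⟨C0, hC0, hmain⟩ := BD.BDmain
  refine ⟨7 * C0, by linarith, fun ϑ hϑ => ?_⟩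
  filter_upwards [hmain ϑ hϑ, eventually_ge_atTop 3, RC14.ev_loggt 1] with n h1 hn3 hl m hm
  obtain ⟨ℓ, hℓ⟩ : ∃ ℓ, ℓ = Real.log n := ⟨_, rfl⟩
  rw [← hℓ] at hl h1 ⊢
  have hn1 : (1 : ℝ) ≤ n := by exact_mod_cast (by omega : 1 ≤ n)
  have hm7 : 7 ≤ m := by
    have : (7 : ℝ) ≤ m := by linarith
    exact_mod_cast this
  obtain ⟨k, hk⟩ : ∃ k, k = (m - 1) / 2 := ⟨_, rfl⟩
  have hk1 : 2 * k + 1 ≤ m := by omega
  have hk3 : m ≤ 3 * k := by omega
  have hk3r : (m : ℝ) ≤ 3 * k := by exact_mod_cast hk3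
  have hm0 : (0 : ℝ) < m := by linarith
  have hk0 : (0 : ℝ) < k := by linarith
  have hkC : C0 ≤ k := by linarith
  have hb := h1 k hkC
  obtain ⟨D0, hD0⟩ : ∃ D0 : ℝ, D0 = C0 * (n * ℓ) * (n : ℝ) ^ Real.exp (-(Real.sqrt k / C0)) *
      Real.exp (C0 * (Real.log (2 + ℓ / k)) ^ 2) := ⟨_, rfl⟩
  rw [← hD0] at hb
  have hp1 : 1 ≤ (n : ℝ) ^ Real.exp (-(Real.sqrt k / C0)) :=
    Real.one_le_rpow hn1 (Real.exp_pos _).le
  have he1 : 1 ≤ Real.exp (C0 * (Real.log (2 + ℓ / k)) ^ 2) := by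
    rw [Real.one_le_exp_iff]
    have : 0 ≤ (Real.log (2 + ℓ / k)) ^ 2 := sq_nonneg _
    positivity
  have hnl : 1 ≤ (n : ℝ) * ℓ := one_le_mul_of_one_le_of_one_le hn1 hl
  have hcn : 1 ≤ C0 * (n * ℓ) := one_le_mul_of_one_le_of_one_le hC0 hnl
  have hD1 : 1 ≤ D0 := by
    rw [hD0]
    exact one_le_mul_of_one_le_of_one_le (one_le_mul_of_one_le_of_one_le hcn hp1) he1
  have hfinal : 3 * D0 ≤ 7 * C0 * (n * ℓ) * (n : ℝ) ^ Real.exp (-(Real.sqrt m / (7 * C0))) *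
      Real.exp (7 * C0 * (Real.log (2 + ℓ / m)) ^ 2) := by
    have e1 : (n : ℝ) ^ Real.exp (-(Real.sqrt k / C0)) ≤
        (n : ℝ) ^ Real.exp (-(Real.sqrt m / (7 * C0))) := by
      apply Real.rpow_le_rpow_of_exponent_le hn1
      apply Real.exp_le_exp.2
      apply neg_le_neg
      rw [div_le_div_iff₀ (by linarith) (by linarith)]
      have h2 : Real.sqrt m ≤ 7 * Real.sqrt k := by
        rw [Real.sqrt_le_left (by positivity), mul_pow, Real.sq_sqrt hk0.le]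
        linarith
      have h3 : Real.sqrt m * C0 ≤ (7 * Real.sqrt k) * C0 :=
        mul_le_mul_of_nonneg_right h2 (by linarith)
      linarith
    have e2 : Real.exp (C0 * (Real.log (2 + ℓ / k)) ^ 2) ≤
        Real.exp (7 * C0 * (Real.log (2 + ℓ / m)) ^ 2) := by
      apply Real.exp_le_exp.2
      have h2 := num_log ℓ k m (by linarith) hk0 hm0 hk3r
      have h3 := mul_le_mul_of_nonneg_left h2 (show 0 ≤ C0 by linarith)
      linarith
    have e3 : 3 * (C0 * (n * ℓ)) ≤ 7 * C0 * (n * ℓ) := by linarith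
    rw [hD0]
    calc 3 * (C0 * (n * ℓ) * (n : ℝ) ^ Real.exp (-(Real.sqrt k / C0)) *
          Real.exp (C0 * (Real.log (2 + ℓ / k)) ^ 2))
        = 3 * (C0 * (n * ℓ)) * (n : ℝ) ^ Real.exp (-(Real.sqrt k / C0)) *
          Real.exp (C0 * (Real.log (2 + ℓ / k)) ^ 2) := by ring
      _ ≤ 7 * C0 * (n * ℓ) * (n : ℝ) ^ Real.exp (-(Real.sqrt m / (7 * C0))) *
          Real.exp (7 * C0 * (Real.log (2 + ℓ / m)) ^ 2) := by
        have h7 : 0 ≤ 7 * C0 * (n * ℓ) := by positivity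
        gcongr
  refine sym_count (by omega) hk1 _ _ ?_ ϑ hb
  intro x e y hy hP A hA hcl g
  obtain ⟨hc, hd⟩ := hP (Set.range y) (fun i => ⟨i, rfl⟩)
  have hy2 : ∀ a, Len A 2 (y a : Perm (Fin n)) := by
    intro a
    rw [hy a]
    exact (Len.of_mem (hA (e a.succ))).mul (Len.of_mem (hA (e 0))).inv
  have heven : ∀ g : Alt n, Len A ((Necf73648.cayleyGraph (Set.range y)).diam * 2)
      (g : Perm (Fin n)) := fun g => len_lift hy2 (len_of_diam hc g)
  obtain ⟨s, hs, hsign⟩ := exists_odd (by omega) hcl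
  have hlen : Len A ((Necf73648.cayleyGraph (Set.range y)).diam * 2 + 1) g := by
    rcases Int.units_eq_one_or (Perm.sign g) with hg | hg
    · exact (heven ⟨g, Perm.mem_alternatingGroup.2 hg⟩).mono (by omega)
    · have h2 : g * s⁻¹ ∈ alternatingGroup (Fin n) := by
        rw [Perm.mem_alternatingGroup, Perm.sign_mul, Perm.sign_inv, hg, hsign]
        decide
      have h3 := (heven ⟨g * s⁻¹, h2⟩).mul (Len.of_mem hs)
      rwa [inv_mul_cancel_right] at h3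
  obtain ⟨l, hl1, hl2, hl3⟩ := hlen
  refine ⟨l, ?_, hl2, hl3⟩
  refine le_trans ?_ hfinal
  have h4 : (l.length : ℝ) ≤ (Necf73648.cayleyGraph (Set.range y)).diam * 2 + 1 := by
    exact_mod_cast hl1
  linarith

end Run7.h107.BE
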