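import Pool.Agent.Run7.h107.ASTEP

/-!
One level of the tree: blocks of letters (second range of the parameter), and the last range
(helper107, MP_bc5a73_al).
-/

namespace Run7.h107
open RC14
open scoped InnerProductSpace
open Finset

section
variable {G : Type} [Group G] [Fintype G]
variable {V : Type} [NormedAddCommGroup V] [InnerProductSpace ℂ V] [FiniteDimensional ℂ V]

/-- Markov bound for one block -/
theorem CSTEP (ρ : G →* (V ≃ₗᵢ[ℂ] V)) (hirr : Irr ρ ⊤)
    (A : Module.End ℂ V) (hA : A.IsSymmetric) {t θ : ℝ} (T : ℝ)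
    (q : ℕ) (hq : 1 ≤ q) (h : FL A (t / q) ≤ Real.exp (t / q * θ)) :
    (Nat.card {z : Fin q → G // Real.exp (T + t * θ) < FL (PC ρ z A) t} : ℝ) ≤
      Real.exp (-T) * (Fintype.card G : ℝ) ^ q := by
  have hntV := TREE.nontriv ρ hirr
  have hd : (0 : ℝ) < Module.finrank ℂ V := by exact_mod_cast Module.finrank_pos
  have hq0 : (0 : ℝ) < q := by exact_mod_cast hq
  have hqc : (q : ℂ) ≠ 0 := by exact_mod_cast hq0.ne'
  have h1 := AWQ ρ hirr (((t / q : ℝ) : ℂ) • A) (PSBaux.smul_symm _ hA _) q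
  have h2 : ∀ z : Fin q → G, FL (PC ρ z A) t =
      rtr (ex (∑ i, cj ρ (((t / q : ℝ) : ℂ) • A) (z i))) / Module.finrank ℂ V := by
    intro z
    unfold FL tn PC
    rw [Fintype.card_fin, smul_smul]
    simp only [PSBaux.cj_smul]
    rw [← Finset.smul_sum]
    congr 4
    push_cast
    field_simp
  have h3 : ∑ z : Fin q → G, FL (PC ρ z A) t ≤
      (Fintype.card G : ℝ) ^ q * Real.exp (t * θ) := by
    simp only [h2]
    rw [← Finset.sum_div, div_le_iff₀ hd]
    refine h1.trans ?_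
    have h4 : (rtr (ex (((t / q : ℝ) : ℂ) • A)) / Module.finrank ℂ V) ^ q ≤ Real.exp (t * θ) := by
      have h5 : 0 ≤ rtr (ex (((t / q : ℝ) : ℂ) • A)) / Module.finrank ℂ V :=
        div_nonneg (AW.rtr_ex_nonneg _ (PSBaux.smul_symm _ hA _)) hd.le
      calc _ ≤ (Real.exp (t / q * θ)) ^ q := pow_le_pow_left₀ h5 h q
        _ = _ := by
          rw [← Real.exp_nat_mul]
          congr 1
          field_simp
    have h6 := mul_le_mul_of_nonneg_left h4
      (by positivity : 0 ≤ (Fintype.card G : ℝ) ^ q * Module.finrank ℂ V)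
    linarith
  have h4 := markov (fun z : Fin q → G => FL (PC ρ z A) t) (fun z => by
    rw [h2]
    exact div_nonneg (AW.rtr_ex_nonneg _ (PSBaux.sum_symm _ _ fun i _ =>
      PSBaux.cj_symm ρ _ (PSBaux.smul_symm _ hA _) _)) hd.le)
    (Real.exp_pos (T + t * θ)) h3
  refine h4.trans (le_of_eq ?_)
  rw [Real.exp_add, Real.exp_neg]
  have e1 := (Real.exp_pos T).ne'
  have e2 := (Real.exp_pos (t * θ)).ne'
  field_simp

/-- bad blocks -/
def FB1 (ρ : G →* (V ≃ₗᵢ[ℂ] V)) (A : Module.End ℂ V) (t M : ℝ) (r : ℕ) (j : ℕ)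
    (_z : Fin j → (Fin r → G)) (y : Fin r → G) : Prop := M < FL (PC ρ y A) t

open Classical in
lemma nb_indep {Y : Type} (P : Y → Prop) : ∀ (j : ℕ) (z : Fin j → Y),
    (nb (fun _ _ y => P y) j z : ℝ) = ∑ i, if P (z i) then (1 : ℝ) else 0
  | 0, z => by simp [nb]
  | j + 1, z => by
    rw [Fin.sum_univ_castSucc, nb]
    push_cast
    rw [nb_indep P j fun i => z i.castSucc]

/-- one level, second range: `b` blocks of `r` letters -/
theorem BSTEP (ρ : G →* (V ≃ₗᵢ[ℂ] V)) (hirr : Irr ρ ⊤)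
    (A : Module.End ℂ V) (hA : Bd A 1) {α μ l ν T : ℝ} (hl : 0 ≤ l)
    (h1 : FL A α ≤ Real.exp (α * μ)) (hl1 : FL A l ≤ Real.exp (l * ν)) (r b K : ℕ)
    (hr : 1 ≤ r) (hlr : 4 * l / r ≤ α) (hK : 1 ≤ K) (hbK : 4 * K ≤ b)
    (hT : T + 4 * l * μ ≤ l * ν) (hη : b * Real.exp (-T) ≤ 1) :
    (Nat.card {z : Fin b → Fin r → G // ¬ FL (PC ρ (fun p : Fin b × Fin r => z p.1 p.2) A)
        (2 * l) ≤ Real.exp (l * ν)} : ℝ) ≤
      3 * (b * Real.exp (-T)) ^ K * ((Fintype.card G : ℝ) ^ r) ^ b := by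
  classical
  have hntV := TREE.nontriv ρ hirr
  have hr0 : (0 : ℝ) < r := by exact_mod_cast hr
  have hb0 : (0 : ℝ) < b := by exact_mod_cast (by omega : 0 < b)
  have hK0 : (0 : ℝ) < K := by exact_mod_cast hK
  have hbK' : 4 * (K : ℝ) ≤ b := by exact_mod_cast hbK
  have : Nonempty (Fin r) := ⟨⟨0, by omega⟩⟩
  have : Nonempty (Fin b) := ⟨⟨0, by omega⟩⟩
  set M : ℝ := Real.exp (T + 4 * l * μ) with hM
  set P : (Fin r → G) → Prop := fun y => M < FL (PC ρ y A) (4 * l) with hP
  have hbad : (Nat.card {y : Fin r → G // P y} : ℝ) ≤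
      Real.exp (-T) * Fintype.card (Fin r → G) := by
    have h2 := CSTEP ρ hirr A hA.1 (t := 4 * l) (θ := μ) T r hr
      (FL_TH hA (by positivity) hlr h1)
    rw [Fintype.card_fun, Fintype.card_fin]
    push_cast
    exact h2
  have htail := nb_tail (fun _ _ y => P y) (Real.exp_pos (-T)) b K (by omega) hη
    (fun j _ z => hbad)
  rw [Fintype.card_fun, Fintype.card_fin] at htail
  push_cast at htail
  refine le_trans (Nat.cast_le.mpr (card_mono _ _ fun z hz => ?_)) htail
  by_contra hcon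
  push Not at hcon
  apply hz
  have hnb : ∑ i, (if P (z i) then (1 : ℝ) else 0) ≤ K := by
    rw [← nb_indep P b z]
    exact_mod_cast hcon.le
  set M' : ℝ := Real.exp (l * ν) with hM'
  have hM'1 : 1 ≤ M' := (FL_one_le hA hl).trans hl1
  have hMM : M ≤ M' := Real.exp_le_exp.2 hT
  have hs : ∀ β, (PC ρ (z β) A).IsSymmetric := fun β => (hA.PC ρ (z β)).1
  -- the good blocks
  have hgood : tn (ex (∑ β, (((if P (z β) then 0 else 1 / (b : ℝ)) : ℝ) : ℂ) •
      (((4 * l : ℝ) : ℂ) • PC ρ (z β) A))) ≤ M' := by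
    refine SA _ _ ?_ ?_ _ (fun β => PSBaux.smul_symm _ (hs β) _) hM'1 ?_
    · intro β _
      split_ifs <;> positivity
    · calc ∑ β, (if P (z β) then 0 else 1 / (b : ℝ)) ≤ ∑ _β : Fin b, 1 / (b : ℝ) := by
            refine Finset.sum_le_sum fun β _ => ?_
            split_ifs
            · positivity
            · exact le_rfl
        _ = 1 := by
            rw [Finset.sum_const, Finset.card_univ, Fintype.card_fin, nsmul_eq_mul]
            field_simp
        _ ≤ 1 := le_rfl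
    · intro β _ hβ
      have h3 : ¬ P (z β) := by
        intro h4
        rw [if_pos h4] at hβ
        exact hβ rfl
      rw [hP] at h3
      push Not at h3
      exact h3.trans hMM
  -- the bad blocks
  have hbadb : tn (ex (∑ β, (((if P (z β) then 1 / (K : ℝ) else 0) : ℝ) : ℂ) •
      (((4 * l * K / b : ℝ) : ℂ) • PC ρ (z β) A))) ≤ M' := by
    refine SA _ _ ?_ ?_ _ (fun β => PSBaux.smul_symm _ (hs β) _) hM'1 ?_
    · intro β _
      split_ifs <;> positivity
    · have h3 : ∑ β, (if P (z β) then 1 / (K : ℝ) else 0) =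
          (∑ β, (if P (z β) then (1 : ℝ) else 0)) / K := by
        rw [Finset.sum_div]
        refine Finset.sum_congr rfl fun β _ => ?_
        split_ifs <;> simp
      rw [h3, div_le_one hK0]
      exact hnb
    · intro β _ _
      have h3 : 4 * l * K / b ≤ l := by
        rw [div_le_iff₀ hb0]
        nlinarith
      exact ((FL_PC_le hA ρ (z β) (by positivity)).trans (FL_mono hA h3)).trans hl1
  -- decomposition
  set B : Bool → Module.End ℂ V := fun c => if c then
      ∑ β, (((if P (z β) then 0 else 1 / (b : ℝ)) : ℝ) : ℂ) •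
        (((4 * l : ℝ) : ℂ) • PC ρ (z β) A) else
      ∑ β, (((if P (z β) then 1 / (K : ℝ) else 0) : ℝ) : ℂ) •
        (((4 * l * K / b : ℝ) : ℂ) • PC ρ (z β) A) with hB
  have hdec : ((2 * l : ℝ) : ℂ) • PC ρ (fun p : Fin b × Fin r => z p.1 p.2) A =
      ∑ c ∈ (univ : Finset Bool), ((1 / 2 : ℝ) : ℂ) • B c := by
    rw [Fintype.sum_bool]
    simp only [hB, if_true, Bool.false_eq_true, if_false]
    rw [Finset.smul_sum, Finset.smul_sum, ← Finset.sum_add_distrib]
    have e1 : PC ρ (fun p : Fin b × Fin r => z p.1 p.2) A =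
        ((1 / (b : ℝ) : ℝ) : ℂ) • ∑ β, PC ρ (z β) A := by
      unfold PC
      rw [Fintype.card_prod, Fintype.card_fin, Fintype.card_fin, ← Finset.smul_sum, smul_smul,
        Fintype.sum_prod_type]
      congr 1
      push_cast
      have h3 : (b : ℂ) ≠ 0 := by exact_mod_cast hb0.ne'
      have h4 : (r : ℂ) ≠ 0 := by exact_mod_cast hr0.ne'
      field_simp
    rw [e1, smul_smul, Finset.smul_sum]
    refine Finset.sum_congr rfl fun β _ => ?_
    have h3 : (b : ℂ) ≠ 0 := by exact_mod_cast hb0.ne'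
    have h4 : (K : ℂ) ≠ 0 := by exact_mod_cast hK0.ne'
    split_ifs
    · rw [Complex.ofReal_zero, zero_smul, smul_zero, zero_add, smul_smul, smul_smul]
      congr 1
      push_cast
      field_simp
      ring
    · rw [Complex.ofReal_zero, zero_smul, smul_zero, add_zero, smul_smul, smul_smul]
      congr 1
      push_cast
      field_simp
      ring
  unfold FL
  rw [hdec]
  refine SA _ _ (fun _ _ => by norm_num) (by rw [Fintype.sum_bool]; norm_num) _ ?_ hM'1 ?_
  · intro c
    cases c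
    · simp only [hB, Bool.false_eq_true, if_false]
      exact PSBaux.sum_symm _ _ fun β _ => PSBaux.smul_symm _ (PSBaux.smul_symm _ (hs β) _) _
    · simp only [hB, if_true]
      exact PSBaux.sum_symm _ _ fun β _ => PSBaux.smul_symm _ (PSBaux.smul_symm _ (hs β) _) _
  · intro c _ _
    cases c
    · simp only [hB, Bool.false_eq_true, if_false]
      exact hbadb
    · simp only [hB, if_true]
      exact hgood

/-- the same with one index -/
theorem BSTEP' (ρ : G →* (V ≃ₗᵢ[ℂ] V)) (hirr : Irr ρ ⊤)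
    (A : Module.End ℂ V) (hA : Bd A 1) {α μ l ν T : ℝ} (hl : 0 ≤ l)
    (h1 : FL A α ≤ Real.exp (α * μ)) (hl1 : FL A l ≤ Real.exp (l * ν)) (r b K : ℕ)
    (hr : 1 ≤ r) (hlr : 4 * l / r ≤ α) (hK : 1 ≤ K) (hbK : 4 * K ≤ b)
    (hT : T + 4 * l * μ ≤ l * ν) (hη : b * Real.exp (-T) ≤ 1) :
    (Nat.card {z : Fin (b * r) → G // ¬ FL (PC ρ z A) (2 * l) ≤ Real.exp (l * ν)} : ℝ) ≤
      3 * (b * Real.exp (-T)) ^ K * (Fintype.card G : ℝ) ^ (b * r) := by
  have h := BSTEP ρ hirr A hA hl h1 hl1 r b K hr hlr hK hbK hT hη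
  rw [← pow_mul, mul_comm r b] at h
  refine le_trans (le_of_eq ?_) h
  congr 1
  refine card_equiv ((Equiv.arrowCongr (finProdFinEquiv (m := b) (n := r)).symm
    (Equiv.refl G)).trans (Equiv.curry (Fin b) (Fin r) G)) _ _ fun z => ?_
  have e1 : PC ρ (fun p : Fin b × Fin r => ((Equiv.arrowCongr
      (finProdFinEquiv (m := b) (n := r)).symm
      (Equiv.refl G)).trans (Equiv.curry (Fin b) (Fin r) G)) z p.1 p.2) A = PC ρ z A := by
    unfold PC
    rw [Fintype.card_prod, Fintype.card_fin, Fintype.card_fin, Fintype.card_fin,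
      ← finProdFinEquiv.sum_comp]
    push_cast
    rfl
  rw [e1]

end

end Run7.h107
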