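import Pool.Agent.Run7.h107.BADC

/-!
Random sequences of classes: most positions carry a class which occurs only once
(helper107, MP_bc5a73_al).
-/

namespace Run7.h107
open Finset

section
variable {C : Type} [Fintype C] [DecidableEq C]

/-- repeated letters -/
def FR (j : ℕ) (z : Fin j → C) (y : C) : Prop := ∃ i, z i = y

omit [Fintype C] in
lemma nb_FR : ∀ (n : ℕ) (c : Fin n → C),
    nb (FR (C := C)) n c = (univ.filter fun k : Fin n => ∃ j, j < k ∧ c j = c k).card
  | 0, c => by simp [nb]
  | n + 1, c => by
    classical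
    have h1 : (univ.filter fun k : Fin (n + 1) => ∃ j, j < k ∧ c j = c k).card =
        ∑ k : Fin (n + 1), if (∃ j, j < k ∧ c j = c k) then 1 else 0 := by
      rw [Finset.card_filter]
    have h2 : (univ.filter fun k : Fin n => ∃ j, j < k ∧ c j.castSucc = c k.castSucc).card =
        ∑ k : Fin n, if (∃ j, j < k ∧ c j.castSucc = c k.castSucc) then 1 else 0 := by
      rw [Finset.card_filter]
    rw [h1, Fin.sum_univ_castSucc, nb, nb_FR n fun k => c k.castSucc, h2]
    congr 1
    · refine Finset.sum_congr rfl fun k _ => ?_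
      have h3 : (∃ j, j < k ∧ c j.castSucc = c k.castSucc) ↔
          (∃ j, j < k.castSucc ∧ c j = c k.castSucc) := by
        constructor
        · rintro ⟨j, hj, h⟩
          exact ⟨j.castSucc, by simpa using hj, h⟩
        · rintro ⟨j, hj, h⟩
          have hj' : j ≠ Fin.last n := by
            rintro rfl
            exact absurd hj (not_lt.mpr (Fin.le_last _))
          refine ⟨j.castPred hj', ?_, ?_⟩
          · rw [← Fin.castSucc_lt_castSucc_iff, Fin.castSucc_castPred]
            exact hj
          · rw [Fin.castSucc_castPred]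
            exact h
      simp only [h3]
    · have h3 : FR n (fun k => c k.castSucc) (c (Fin.last n)) ↔
          (∃ j, j < Fin.last n ∧ c j = c (Fin.last n)) := by
        constructor
        · rintro ⟨j, h⟩
          exact ⟨j.castSucc, Fin.castSucc_lt_last j, h⟩
        · rintro ⟨j, hj, h⟩
          refine ⟨j.castPred hj.ne, ?_⟩
          change c (j.castPred hj.ne).castSucc = _
          rw [Fin.castSucc_castPred]
          exact h
      simp only [h3]

/-- positions whose class occurs only once -/
def Jc {n : ℕ} (c : Fin n → C) (k : Fin n) : Bool := decide (∀ j, j ≠ k → c j ≠ c k)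

omit [Fintype C] in
lemma Jc_iff {n : ℕ} (c : Fin n → C) (k : Fin n) :
    Jc c k = true ↔ ∀ j, j ≠ k → c j ≠ c k := by
  unfold Jc
  rw [decide_eq_true_iff]

omit [Fintype C] in
/-- few repetitions leave many single classes -/
lemma single_count (n : ℕ) (c : Fin n → C) :
    n ≤ (∑ k, if Jc c k = true then 1 else 0) + 2 * nb (FR (C := C)) n c := by
  classical
  rw [nb_FR]
  set R : Finset (Fin n) := univ.filter fun k : Fin n => ∃ j, j < k ∧ c j = c k with hR
  set S : Finset (Fin n) := univ.filter fun k : Fin n => Jc c k = true with hS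
  set R' : Finset (Fin n) := univ.filter fun k : Fin n => k ∉ R ∧ ∃ j, k < j ∧ c j = c k with hR'
  have hSc : (∑ k, if Jc c k = true then 1 else 0) = S.card := by
    rw [hS, Finset.card_filter]
  rw [hSc]
  have hcover : (univ : Finset (Fin n)) ⊆ S ∪ (R ∪ R') := by
    intro k _
    by_contra hcon
    simp only [Finset.mem_union, not_or] at hcon
    obtain ⟨h1, h2, h3⟩ := hcon
    apply h1
    rw [hS, Finset.mem_filter]
    refine ⟨mem_univ _, ?_⟩
    rw [Jc_iff]
    intro j hjk hc
    rcases lt_or_gt_of_ne hjk with h | h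
    · exact h2 (by rw [hR, Finset.mem_filter]; exact ⟨mem_univ _, j, h, hc⟩)
    · exact h3 (by rw [hR', Finset.mem_filter]; exact ⟨mem_univ _, h2, j, h, hc⟩)
  have hinj : R'.card ≤ R.card := by
    have hex : ∀ k ∈ R', ∃ j, k < j ∧ c j = c k := by
      intro k hk
      rw [hR', Finset.mem_filter] at hk
      exact hk.2.2
    choose! f hf1 hf2 using hex
    refine Finset.card_le_card_of_injOn f ?_ ?_
    · intro k hk
      have hk' : k ∈ R' := hk
      simp only [hR, Finset.coe_filter, mem_univ, true_and]
      exact ⟨k, hf1 k hk', (hf2 k hk').symm⟩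
    · intro k hk k' hk' hff
      have hk1 : k ∈ R' := hk
      have hk2 : k' ∈ R' := hk'
      have h1 : c k = c k' := by
        rw [← hf2 k hk1, ← hf2 k' hk2, hff]
      rw [hR', Finset.mem_filter] at hk1 hk2
      by_contra hne
      rcases lt_or_gt_of_ne hne with h | h
      · exact hk2.2.1 (by rw [hR, Finset.mem_filter]; exact ⟨mem_univ _, k, h, h1⟩)
      · exact hk1.2.1 (by rw [hR, Finset.mem_filter]; exact ⟨mem_univ _, k', h, h1.symm⟩)
  have h1 := Finset.card_le_card hcover
  rw [Finset.card_univ, Fintype.card_fin] at h1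
  have h2 := Finset.card_union_le S (R ∪ R')
  have h3 := Finset.card_union_le R R'
  omega

/-- most sequences have many single classes -/
theorem cls_count (n' L : ℕ) (hn' : 1 ≤ n') (hL : 2 * L ≤ 4 * n')
    (hC : Fintype.card C = 4096 * (4 * n')) :
    (Nat.card {c : Fin (4 * n') → C // (∑ k, if Jc c k = true then 1 else 0) < L} : ℝ) ≤
      (1 / 4) ^ (4 * n') * (Fintype.card C : ℝ) ^ (4 * n') := by
  classical
  set n := 4 * n' with hn
  have hn0 : (0 : ℝ) < n := by exact_mod_cast (by omega : 0 < n)
  have hC' : (Fintype.card C : ℝ) = 4096 * n := by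
    rw [hC]
    push_cast
    ring
  have h1 := nb_gen (Y := C) FR (η := 1 / 4096) (t := 4096) (by norm_num) (by norm_num) n (by
    intro j hj z
    have h2 : Nat.card {y : C // FR j z y} ≤ j := by
      have h3 : Nat.card {y : C // FR j z y} ≤ Nat.card (Fin j) := by
        refine Nat.card_le_card_of_surjective
          (fun i : Fin j => (⟨z i, i, rfl⟩ : {y : C // FR j z y})) ?_
        rintro ⟨y, i, hi⟩
        exact ⟨i, Subtype.ext hi⟩
      simpa using h3
    rw [hC']
    have h3 : (Nat.card {y : C // FR j z y} : ℝ) ≤ j := by exact_mod_cast h2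
    have h4 : (j : ℝ) ≤ n := by exact_mod_cast hj.le
    linarith)
  have h2 : (Nat.card {c : Fin n → C // (∑ k, if Jc c k = true then 1 else 0) < L} : ℝ) *
      4096 ^ n' ≤ ∑ c : Fin n → C, (4096 : ℝ) ^ (nb (FR (C := C)) n c) := by
    rw [cardsub, Finset.sum_mul]
    refine Finset.sum_le_sum fun c _ => ?_
    split_ifs with h
    · rw [one_mul]
      refine pow_le_pow_right₀ (by norm_num) ?_
      have := single_count n c
      omega
    · rw [zero_mul]
      positivity
  have h3 := h2.trans h1
  have h4 : (4096 : ℝ) ^ n' = 8 ^ n := by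
    rw [hn, pow_mul]
    norm_num
  rw [h4] at h3
  have h5 : ((Fintype.card C : ℝ) * (1 + 4096 * (1 / 4096))) ^ n =
      ((1 / 4) ^ n * (Fintype.card C : ℝ) ^ n) * 8 ^ n := by
    rw [← mul_pow, ← mul_pow]
    congr 1
    ring
  rw [h5] at h3
  exact le_of_mul_le_mul_right h3 (by positivity)

end

end Run7.h107
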