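import Pool.Agent.Run7.h107.SET

/-!
Random letters: the count of non-expanding families (helper107, MP_bc5a73_al).
-/

namespace Run7.h107
open RC14
open scoped InnerProductSpace
open Finset

section
variable {G : Type} [Group G] [Fintype G]

/-- positions of the letters -/
abbrev Ix (q L t p R : ℕ) : Type := (Fin t × ((Unit ⊕ (Fin L × Fin q)) ⊕ Unit)) ⊕ (Fin R × Fin p)

/-- reading off the structured letters -/
def ev (G : Type) (q L t p R : ℕ) :
    (Ix q L t p R → G) ≃ (Fin t → Ch G q L) × (Fin R → Fin p → G) where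
  toFun x := (fun i => ((x (Sum.inl (i, Sum.inl (Sum.inl ()))),
    fun r s => x (Sum.inl (i, Sum.inl (Sum.inr (r, s))))), x (Sum.inl (i, Sum.inr ()))),
    fun r s => x (Sum.inr (r, s)))
  invFun y := fun j => match j with
    | Sum.inl (i, Sum.inl (Sum.inl _)) => (y.1 i).1.1
    | Sum.inl (i, Sum.inl (Sum.inr (r, s))) => (y.1 i).1.2 r s
    | Sum.inl (i, Sum.inr _) => (y.1 i).2
    | Sum.inr (r, s) => y.2 r s
  left_inv x := by
    funext j
    rcases j with ⟨i, (_ | ⟨r, s⟩) | _⟩ | ⟨r, s⟩ <;> rfl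
  right_inv y := rfl

lemma card_Ix (q L t p R : ℕ) : Fintype.card (Ix q L t p R) = t * (L * q + 2) + R * p := by
  simp only [Fintype.card_sum, Fintype.card_prod, Fintype.card_fin, Fintype.card_unit]
  ring

/-- the number of non-expanding families of `m` letters -/
theorem CORE {D : ℝ} (hD : QRd G D) (hD0 : 0 < D)
    {l : ℝ} (hl : 0 < l) (hl1 : l ≤ 1 / 10) {q : ℕ} (hq : 2 ≤ q)
    (L : ℕ) (hB : Real.exp (62 / 100 * (l * q ^ L)) + Real.exp (l * q ^ L) *
          (100 / D + 80000 * L * q * Real.exp (2 * (l * q ^ L)) / (D * l ^ 2)) ≤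
      Real.exp (65 / 100 * (l * q ^ L)))
    {t : ℕ} (ht : 1 ≤ t) (ht2 : 320 ≤ l * q ^ L * t) {p : ℕ} (hp : 2 ≤ p) (R : ℕ)
    (hd : (Fintype.card G : ℝ) < Real.exp (l * q ^ L * t * (p : ℝ) ^ R / 160))
    (m : ℕ) (hm : t * (L * q + 2) + R * p ≤ m) :
    (Nat.card {x : Fin m → G // ¬ VE G x (1 / (144 + 768 * L + 40 * R))} : ℝ) ≤
      (Nat.card (ConjClasses G) : ℕ) *
      (Real.exp (-(l * q ^ L * t / 20)) + R * Real.exp (-(l * q ^ L * t * p / 640))) *
        (Fintype.card G : ℝ) ^ m := by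
  classical
  set n := t * (L * q + 2) + R * p with hn
  have hcard : Fintype.card (Ix q L t p R ⊕ Fin (m - n)) = Fintype.card (Fin m) := by
    rw [Fintype.card_sum, card_Ix, Fintype.card_fin, Fintype.card_fin]
    omega
  let e : (Ix q L t p R ⊕ Fin (m - n)) ≃ Fin m := Fintype.equivOfCardEq hcard
  let F : (Fin m → G) ≃ (Ix q L t p R → G) × (Fin (m - n) → G) :=
    (Equiv.arrowCongr e.symm (Equiv.refl G)).trans (Equiv.sumArrowEquivProdArrow _ _ _)
  have hF : ∀ (x : Fin m → G) (j : Ix q L t p R), (F x).1 j = x (e (Sum.inl j)) := fun x j => rfl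
  set Bd' : (Fin t → Ch G q L) × (Fin R → Fin p → G) → Prop := fun a =>
    ¬ ∀ v ∈ L0 G, 1 * ‖v‖ ^ 2 ≤ Phi (Rg G) a v with hBd'
  have hUB := UB hD hD0 hl hl1 hq L hB ht ht2 hp R hd
  have h1 : Nat.card {x : Fin m → G // ¬ VE G x (1 / (144 + 768 * L + 40 * R))} ≤
      Nat.card {x : Fin m → G // Bd' (ev G q L t p R (F x).1)} := by
    refine card_mono _ _ fun x hx hcon => hx ?_
    refine VE_of_energy x (by omega : 1 ≤ q) ht (by omega : 1 ≤ p)
      (ev G q L t p R (F x).1).1 (ev G q L t p R (F x).1).2 ?_ ?_ ?_ ?_ hcon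
    · exact fun i => ⟨_, hF x _⟩
    · exact fun i r s => ⟨_, hF x _⟩
    · exact fun i => ⟨_, hF x _⟩
    · exact fun r s => ⟨_, hF x _⟩
  have h2 : Nat.card {x : Fin m → G // Bd' (ev G q L t p R (F x).1)} =
      Nat.card {a : (Fin t → Ch G q L) × (Fin R → Fin p → G) // Bd' a} *
        Fintype.card (Fin (m - n) → G) := by
    have h3 : Nat.card {x : Fin m → G // Bd' (ev G q L t p R (F x).1)} =
        Nat.card {y : ((Fin t → Ch G q L) × (Fin R → Fin p → G)) × (Fin (m - n) → G) //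
          Bd' y.1} := by
      refine card_equiv (F.trans (Equiv.prodCongr (ev G q L t p R) (Equiv.refl _))) _ _
        fun x => ?_
      exact Iff.rfl
    rw [h3, ← Nat.card_eq_fintype_card, ← Nat.card_prod]
    refine Nat.card_congr ⟨fun y => (⟨y.1.1, y.2⟩, y.1.2), fun y => ⟨(y.1.1, y.2), y.1.2⟩,
      fun y => rfl, fun y => rfl⟩
  have h4 : (Fintype.card (Fin t → Ch G q L) * Fintype.card (Fin R → Fin p → G) : ℝ) *
      Fintype.card (Fin (m - n) → G) = (Fintype.card G : ℝ) ^ m := by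
    have h5 : Fintype.card (Fin m → G) =
        (Fintype.card (Fin t → Ch G q L) * Fintype.card (Fin R → Fin p → G)) *
          Fintype.card (Fin (m - n) → G) := by
      rw [← Fintype.card_prod, ← Fintype.card_prod]
      exact Fintype.card_congr (F.trans (Equiv.prodCongr (ev G q L t p R) (Equiv.refl _)))
    rw [Fintype.card_fun, Fintype.card_fin] at h5
    have h6 : ((Fintype.card G ^ m : ℕ) : ℝ) =
        (((Fintype.card (Fin t → Ch G q L) * Fintype.card (Fin R → Fin p → G)) *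
          Fintype.card (Fin (m - n) → G) : ℕ) : ℝ) := by rw [h5]
    rw [Nat.cast_mul, Nat.cast_mul] at h6
    rw [← h6]
    push_cast
    rfl
  calc (Nat.card {x : Fin m → G // ¬ VE G x (1 / (144 + 768 * L + 40 * R))} : ℝ)
      ≤ (Nat.card {a : (Fin t → Ch G q L) × (Fin R → Fin p → G) // Bd' a} : ℝ) *
        Fintype.card (Fin (m - n) → G) := by
        rw [← Nat.cast_mul, ← h2]
        exact_mod_cast h1
    _ ≤ ((Nat.card (ConjClasses G) : ℕ) * bB G l q L t p R) * Fintype.card (Fin (m - n) → G) :=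
        mul_le_mul_of_nonneg_right hUB (Nat.cast_nonneg _)
    _ = _ := by
        unfold bB
        rw [← h4]
        ring

end

end Run7.h107
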