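import Pool.Agent.Run7.h107.UNI
import Pool.Agent.Run7.h107.CLS

/-!
Powers of the walk operator as averages over configurations (helper107, MP_bc5a73_al).
-/

namespace Run7.h107
open RC14
open scoped InnerProductSpace ComplexConjugate
open Finset

section
/-- expansion of a product of sums -/
lemma PR_expand {M Ω : Type} [Semiring M] [Fintype Ω] : ∀ (n : ℕ) (g : Fin n → Ω → M),
    PR n (fun k => ∑ ω, g k ω) = ∑ τ : Fin n → Ω, PR n (fun k => g k (τ k))
  | 0, g => by simp [PR]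
  | n + 1, g => by
    rw [sum_snoc, PR, PR_expand n fun k => g k.castSucc, Finset.sum_mul]
    refine Finset.sum_congr rfl fun τ _ => ?_
    rw [Finset.mul_sum]
    refine Finset.sum_congr rfl fun ω _ => ?_
    rw [PR]
    simp only [Fin.snoc_castSucc, Fin.snoc_last]

lemma PR_const {M : Type} [Monoid M] (a : M) : ∀ n : ℕ, PR n (fun _ => a) = a ^ n
  | 0 => by simp [PR]
  | n + 1 => by rw [PR, PR_const a n, pow_succ]

variable {G : Type} [Group G]
variable {V : Type} [NormedAddCommGroup V] [InnerProductSpace ℂ V] [FiniteDimensional ℂ V]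
variable {C : Type} [Fintype C] [DecidableEq C]

/-- the sum of all letters and their inverses -/
noncomputable def Ssum (ρ : G →* (V ≃ₗᵢ[ℂ] V)) {q : ℕ} (x : C → Fin q → G) :
    Module.End ℂ V := ∑ ω : C × Bool, ∑ i : Fin q, op ρ (sg ω.2 (x ω.1 i))

/-- configurations -/
abbrev Cf (C : Type) (q n : ℕ) : Type := (Fin n → C × Bool) × (Fin n → Fin q)

/-- the operator of a configuration -/
noncomputable def Wc (ρ : G →* (V ≃ₗᵢ[ℂ] V)) {q : ℕ} (x : C → Fin q → G) (n : ℕ)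
    (θ : Cf C q n) : Module.End ℂ V :=
  Wn ρ x n (fun k => (θ.1 k).1) (Jc fun k => (θ.1 k).1) (fun k => (θ.1 k).2) θ.2

omit [FiniteDimensional ℂ V] [Fintype C] [DecidableEq C] in
lemma fop_sum (ρ : G →* (V ≃ₗᵢ[ℂ] V)) {q : ℕ} (hq : 1 ≤ q) (J σ : Bool) (y : Fin q → G) :
    ∑ i, fop ρ J σ i y = ∑ i, op ρ (sg σ (y i)) := by
  unfold fop
  split_ifs
  · rw [Finset.sum_const, Finset.card_univ, Fintype.card_fin]
    unfold MQ
    rw [Fintype.card_fin, ← Nat.cast_smul_eq_nsmul ℂ, smul_smul]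
    have h1 : (q : ℂ) * ((1 / (q : ℝ) : ℝ) : ℂ) = 1 := by
      push_cast
      have : (q : ℂ) ≠ 0 := by exact_mod_cast (by omega : q ≠ 0)
      field_simp
    rw [h1, one_smul]
  · rfl

omit [FiniteDimensional ℂ V] in
/-- powers of the walk operator -/
lemma Ssum_pow (ρ : G →* (V ≃ₗᵢ[ℂ] V)) {q : ℕ} (hq : 1 ≤ q) (x : C → Fin q → G) (n : ℕ) :
    Ssum ρ x ^ n = ∑ θ : Cf C q n, Wc ρ x n θ := by
  rw [← PR_const]
  unfold Ssum
  rw [PR_expand n (fun _ (ω : C × Bool) => ∑ i : Fin q, op ρ (sg ω.2 (x ω.1 i))),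
    Fintype.sum_prod_type]
  refine Finset.sum_congr rfl fun τ _ => ?_
  have h1 : (fun k => ∑ i : Fin q, op ρ (sg (τ k).2 (x (τ k).1 i))) =
      fun k => ∑ i : Fin q, fop ρ (Jc (fun k => (τ k).1) k) (τ k).2 i (x (τ k).1) := by
    funext k
    rw [fop_sum ρ hq]
  rw [h1, PR_expand n (fun k (i : Fin q) => fop ρ (Jc (fun k => (τ k).1) k) (τ k).2 i
    (x (τ k).1))]
  rfl

omit [FiniteDimensional ℂ V] in
lemma Wc_norm (ρ : G →* (V ≃ₗᵢ[ℂ] V)) {q : ℕ} (hq : 1 ≤ q) (x : C → Fin q → G) (n : ℕ)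
    (θ : Cf C q n) (v : V) : ‖Wc ρ x n θ v‖ ≤ ‖v‖ :=
  (Wn_CC ρ hq x n _ _ _ _).norm_le v

/-- good configurations -/
def Gd {q n : ℕ} (L : ℕ) (θ : Cf C q n) : Prop := L ≤ cnt (Jc fun k => (θ.1 k).1)

/-- the number of configurations with few single classes -/
lemma Gd_count {q : ℕ} (n' L : ℕ) (hn' : 1 ≤ n') (hL : 2 * L ≤ 4 * n')
    (hC : Fintype.card C = 4096 * (4 * n')) :
    (Nat.card {θ : Cf C q (4 * n') // ¬ Gd L θ} : ℝ) ≤
      (1 / 4) ^ (4 * n') * Fintype.card (Cf C q (4 * n')) := by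
  set n := 4 * n' with hn
  have h1 := cls_count (C := C) n' L hn' hL hC
  rw [← hn] at h1
  have h2 : Nat.card {θ : Cf C q n // ¬ Gd L θ} =
      Nat.card {c : Fin n → C // (∑ k, if Jc c k = true then 1 else 0) < L} *
        Fintype.card ((Fin n → Bool) × (Fin n → Fin q)) := by
    have h3 : Nat.card {θ : Cf C q n // ¬ Gd L θ} =
        Nat.card {p : (Fin n → C) × ((Fin n → Bool) × (Fin n → Fin q)) //
          (∑ k, if Jc p.1 k = true then 1 else 0) < L} := by
      refine card_equiv (((Equiv.arrowProdEquivProdArrow (Fin n) (fun _ => C)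
        (fun _ => Bool)).prodCongr
        (Equiv.refl (Fin n → Fin q))).trans (Equiv.prodAssoc _ _ _)) _ _ fun θ => ?_
      unfold Gd cnt
      rw [not_le]
      exact Iff.rfl
    rw [h3, ← Nat.card_eq_fintype_card, ← Nat.card_prod]
    refine Nat.card_congr ⟨fun y => (⟨y.1.1, y.2⟩, y.1.2), fun y => ⟨(y.1.1, y.2), y.1.2⟩,
      fun y => rfl, fun y => rfl⟩
  rw [h2]
  push_cast
  have h4 : (Fintype.card (Cf C q n) : ℝ) = (Fintype.card C : ℝ) ^ n *
      Fintype.card ((Fin n → Bool) × (Fin n → Fin q)) := by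
    have h5 : Fintype.card (Cf C q n) = Fintype.card C ^ n *
        Fintype.card ((Fin n → Bool) × (Fin n → Fin q)) := by
      simp only [Fintype.card_prod, Fintype.card_fun, Fintype.card_fin, Fintype.card_bool]
      ring
    rw [h5]
    push_cast
    ring
  rw [h4, ← mul_assoc]
  exact mul_le_mul_of_nonneg_right h1 (Nat.cast_nonneg _)

variable [Fintype G]

open Classical in
/-- most families of letters have few bad configurations, hence a small power of the walk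
operator -/
theorem EXPD (ρ : G →* (V ≃ₗᵢ[ℂ] V)) (M : Submodule ℂ V) (hM : Inv ρ M)
    (hnt : ∀ W : Submodule ℂ V, ∀ hW : Irr ρ W, W ≤ M → ∃ g v, res ρ W hW.2.1 g v ≠ v)
    {D : ℝ} (hQ : QRd G D) {s n0 n1 n2 K : ℕ} (hP : PP D s n0 n1 n2 K)
    (hd : Real.log (Module.finrank ℂ V) ≤ ((4 * K * 512 : ℕ) : ℝ) ^ n2 * Real.log D)
    (n' : ℕ) (hn' : 1 ≤ n') (hL : 2 * (s + (n0 + n1) + n2) ≤ 4 * n')
    (hC : Fintype.card C = 4096 * (4 * n')) {t : ℝ} (ht : 0 < t) :
    (Nat.card {x : C → Fin (4 * K * 512) → G // ¬ ∀ v ∈ M,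
        ‖(Ssum ρ x ^ (4 * n')) v‖ ≤ Fintype.card (Cf C (4 * K * 512) (4 * n')) *
          ((1 / 4) ^ (4 * n') + t + Real.sqrt (3 * (1 / 2) ^ n1)) * ‖v‖} : ℝ) ≤
      (Nat.card (ConjClasses G) : ℕ) * (((4 * n' : ℕ) : ℝ) *
        (6 * Real.exp (-(K * Real.log D / 4)))) / t *
        Fintype.card (C → Fin (4 * K * 512) → G) := by
  have hK := hP.hK
  set q : ℕ := 4 * K * 512 with hq
  have hq1 : 1 ≤ q := by omega
  set n : ℕ := 4 * n' with hn
  set B : ℝ := (Nat.card (ConjClasses G) : ℕ) * (n * (6 * Real.exp (-(K * Real.log D / 4))) *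
        Fintype.card (C → Fin q → G)) with hB
  have hB0 : 0 ≤ B := by positivity
  set bad : (C → Fin q → G) → Cf C q n → Prop := fun x θ =>
    Gd (s + (n0 + n1) + n2) θ ∧ ¬ ∀ v ∈ M,
        (1 - 3 * (1 / 2) ^ n1) * ‖v‖ ^ 2 ≤ ‖v‖ ^ 2 - ‖Wc ρ x n θ v‖ ^ 2 with hbad
  have hCf : (0 : ℝ) < Fintype.card (Cf C q n) := by
    have : Nonempty C := by
      rw [← Fintype.card_pos_iff, hC]
      omega
    have : Nonempty (Fin q) := ⟨⟨0, by omega⟩⟩
    exact_mod_cast Fintype.card_pos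
  -- each good configuration is bad for few families of letters
  have h1 : ∀ θ : Cf C q n, ∑ x : C → Fin q → G, (if bad x θ then (1 : ℝ) else 0) ≤ B := by
    intro θ
    rw [← cardsub]
    by_cases hθ : Gd (s + (n0 + n1) + n2) θ
    · have h2 := UNI (C := C) ρ M hM hnt hQ hP hd n (fun k => (θ.1 k).1)
        (Jc fun k => (θ.1 k).1) (fun k => (θ.1 k).2) θ.2 (by
          intro k hk j hj
          exact (Jc_iff _ _).mp hk j hj.ne) hθ
      refine le_trans (Nat.cast_le.mpr (card_mono _ _ fun x hx => ?_)) h2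
      exact hx.2
    · have h2 : Nat.card {x : C → Fin q → G // bad x θ} = 0 := by
        rw [Nat.card_eq_zero]
        left
        exact ⟨fun x => hθ x.2.1⟩
      rw [h2]
      exact_mod_cast hB0
  have h2 : ∑ x : C → Fin q → G, ∑ θ : Cf C q n, (if bad x θ then (1 : ℝ) else 0) ≤
      Fintype.card (Cf C q n) * B := by
    rw [Finset.sum_comm]
    refine (Finset.sum_le_sum fun θ _ => h1 θ).trans (le_of_eq ?_)
    rw [Finset.sum_const, Finset.card_univ, nsmul_eq_mul]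
  have h3 := markov (fun x : C → Fin q → G => ∑ θ : Cf C q n, (if bad x θ then (1 : ℝ) else 0))
    (fun x => Finset.sum_nonneg fun θ _ => by split_ifs <;> norm_num)
    (T := t * Fintype.card (Cf C q n)) (by positivity) h2
  have h4 : Fintype.card (Cf C q n) * B / (t * Fintype.card (Cf C q n)) =
      (Nat.card (ConjClasses G) : ℕ) * ((n : ℝ) *
        (6 * Real.exp (-(K * Real.log D / 4)))) / t *
        Fintype.card (C → Fin q → G) := by
    rw [hB]
    field_simp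
  rw [h4] at h3
  refine le_trans (Nat.cast_le.mpr (card_mono _ _ fun x hx => ?_)) h3
  by_contra hcon
  push Not at hcon
  apply hx
  intro v hv
  rw [Ssum_pow ρ hq1 x n, LinearMap.sum_apply]
  set δ : ℝ := Real.sqrt (3 * (1 / 2) ^ n1) with hδ
  have hδ0 : 0 ≤ δ := Real.sqrt_nonneg _
  have h5 : ∀ θ : Cf C q n, ‖Wc ρ x n θ v‖ ≤ (if ¬ Gd (s + (n0 + n1) + n2) θ then (1 : ℝ) else 0) *
      ‖v‖ + (if bad x θ then (1 : ℝ) else 0) * ‖v‖ + δ * ‖v‖ := by
    intro θ
    have hW := Wc_norm ρ hq1 x n θ v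
    have hv0 : 0 ≤ ‖v‖ := norm_nonneg v
    have hδv : 0 ≤ δ * ‖v‖ := by positivity
    by_cases c1 : Gd (s + (n0 + n1) + n2) θ
    · by_cases c2 : bad x θ
      · rw [if_neg (not_not.mpr c1), if_pos c2]
        linarith
      · rw [if_neg (not_not.mpr c1), if_neg c2, zero_mul, zero_add, zero_add]
        have c3 : ∀ v ∈ M, (1 - 3 * (1 / 2) ^ n1) * ‖v‖ ^ 2 ≤
            ‖v‖ ^ 2 - ‖Wc ρ x n θ v‖ ^ 2 := by
          by_contra hc
          exact c2 ⟨c1, hc⟩
        have c4 := c3 v hv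
        have c5 : ‖Wc ρ x n θ v‖ ^ 2 ≤ (δ * ‖v‖) ^ 2 := by
          rw [mul_pow, hδ, Real.sq_sqrt (by positivity)]
          linarith
        exact abs_le_of_sq_le_sq' c5 hδv |>.2
    · rw [if_pos c1]
      have : 0 ≤ (if bad x θ then (1 : ℝ) else 0) * ‖v‖ := by split_ifs <;> simp
      linarith
  refine (norm_sum_le _ _).trans ((Finset.sum_le_sum fun θ _ => h5 θ).trans ?_)
  rw [Finset.sum_add_distrib, Finset.sum_add_distrib, ← Finset.sum_mul, ← Finset.sum_mul,
    Finset.sum_const, Finset.card_univ, nsmul_eq_mul, ← cardsub]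
  have h6 := Gd_count (C := C) (q := q) n' (s + (n0 + n1) + n2) hn' hL hC
  rw [← hn] at h6
  have h7 := mul_le_mul_of_nonneg_right h6 (norm_nonneg v)
  have h8 := mul_le_mul_of_nonneg_right hcon (norm_nonneg v)
  calc _ ≤ (1 / 4) ^ n * (Fintype.card (Cf C q n) : ℝ) * ‖v‖ +
        t * Fintype.card (Cf C q n) * ‖v‖ + Fintype.card (Cf C q n) * (δ * ‖v‖) := by
        linarith
    _ = _ := by ring

end

end Run7.h107
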