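import Pool.Agent.Run7.h107.SET

/-!
A Jordan type bound: a nontrivial representation of dimension `d` of a finite nonabelian
simple group `G` satisfies `log |G| ≤ 18 d³` (helper107, MP_bc5a73_al).
-/

namespace Run7.h107
open RC14
open scoped InnerProductSpace
open Finset

section
variable {G : Type} [Group G]
variable {V : Type} [NormedAddCommGroup V] [InnerProductSpace ℂ V] [FiniteDimensional ℂ V]

lemma hs_mul_le (A B : Module.End ℂ V) : hs (A * B) ≤ hs A * hs B := by
  rw [hs_eq_sum (stdOrthonormalBasis ℂ V), hs_eq_sum (stdOrthonormalBasis ℂ V) B, Finset.mul_sum]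
  exact Finset.sum_le_sum fun i _ => norm_sq_le_hs A _

/-- Hilbert-Schmidt norm -/
noncomputable def nH (A : Module.End ℂ V) : ℝ := ‖eH A‖

lemma nH_nonneg (A : Module.End ℂ V) : 0 ≤ nH A := norm_nonneg _

lemma nH_sq (A : Module.End ℂ V) : nH A ^ 2 = hs A := eH_norm A

lemma nH_mul (A B : Module.End ℂ V) : nH (A * B) ≤ nH A * nH B := by
  have h : nH (A * B) ^ 2 ≤ (nH A * nH B) ^ 2 := by
    rw [mul_pow, nH_sq, nH_sq, nH_sq]
    exact hs_mul_le A B
  exact (pow_le_pow_iff_left₀ (nH_nonneg _) (mul_nonneg (nH_nonneg _) (nH_nonneg _))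
    two_ne_zero).mp h

lemma nH_sub (A B : Module.End ℂ V) : nH (A - B) ≤ nH A + nH B := by
  unfold nH
  rw [map_sub]
  exact norm_sub_le _ _

lemma nH_op_mul (ρ : G →* (V ≃ₗᵢ[ℂ] V)) (g : G) (A : Module.End ℂ V) :
    nH (op ρ g * A) = nH A := by
  refine (pow_left_inj₀ (nH_nonneg _) (nH_nonneg _) two_ne_zero).mp ?_
  rw [nH_sq, nH_sq, hs_eq_sum (stdOrthonormalBasis ℂ V), hs_eq_sum (stdOrthonormalBasis ℂ V)]
  refine Finset.sum_congr rfl fun i _ => ?_
  rw [Module.End.mul_apply, op_apply, LinearIsometryEquiv.norm_map]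

lemma nH_mul_op (ρ : G →* (V ≃ₗᵢ[ℂ] V)) (g : G) (A : Module.End ℂ V) :
    nH (A * op ρ g) = nH A := by
  refine (pow_left_inj₀ (nH_nonneg _) (nH_nonneg _) two_ne_zero).mp ?_
  rw [nH_sq, nH_sq, hs_eq_sum (stdOrthonormalBasis ℂ V),
    hs_eq_sum ((stdOrthonormalBasis ℂ V).map (ρ g))]
  refine Finset.sum_congr rfl fun i _ => ?_
  rw [Module.End.mul_apply, op_apply, OrthonormalBasis.map_apply]

/-- distance from the identity -/
noncomputable def dg (ρ : G →* (V ≃ₗᵢ[ℂ] V)) (g : G) : ℝ := nH (op ρ g - 1)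

lemma dg_conj (ρ : G →* (V ≃ₗᵢ[ℂ] V)) (g k : G) : dg ρ (k * g * k⁻¹) = dg ρ g := by
  unfold dg
  have h : op ρ (k * g * k⁻¹) - 1 = op ρ k * ((op ρ g - 1) * op ρ k⁻¹) := by
    rw [sub_mul, mul_sub, one_mul, ← op_mul, ← op_mul, ← op_mul, mul_inv_cancel, op_one,
      mul_assoc]
  rw [h, nH_op_mul, nH_mul_op]

lemma dg_comm (ρ : G →* (V ≃ₗᵢ[ℂ] V)) (g h : G) :
    dg ρ (g * h * (h * g)⁻¹) ≤ 2 * dg ρ g * dg ρ h := by
  unfold dg
  have h1 : op ρ (g * h * (h * g)⁻¹) - 1 =
      ((op ρ g - 1) * (op ρ h - 1) - (op ρ h - 1) * (op ρ g - 1)) * op ρ (h * g)⁻¹ := by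
    have h2 : (op ρ g - 1) * (op ρ h - 1) - (op ρ h - 1) * (op ρ g - 1) =
        op ρ (g * h) - op ρ (h * g) := by
      rw [op_mul, op_mul]
      noncomm_ring
    rw [h2, sub_mul, ← op_mul, ← op_mul, mul_inv_cancel, op_one]
  rw [h1, nH_mul_op]
  refine (nH_sub _ _).trans ?_
  have h2 := nH_mul (op ρ g - 1) (op ρ h - 1)
  have h3 := nH_mul (op ρ h - 1) (op ρ g - 1)
  nlinarith

/-- in a finite nonabelian simple group acting nontrivially, nonidentity elements are far
from the identity -/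
theorem dg_lower [Fintype G] [IsSimpleGroup G] (hna : ∃ a b : G, a * b ≠ b * a)
    (ρ : G →* (V ≃ₗᵢ[ℂ] V)) (hnt : ∃ g v, ρ g v ≠ v) (g : G) (hg : g ≠ 1) :
    1 / 2 ≤ dg ρ g := by
  classical
  -- faithfulness
  have hfaith : ∀ x : G, dg ρ x = 0 → x = 1 := by
    intro x hx
    have h1 : op ρ x = 1 := by
      unfold dg nH at hx
      rw [norm_eq_zero] at hx
      have h2 : op ρ x - 1 = 0 := by
        apply eH.injective
        rw [hx, map_zero]
      exact sub_eq_zero.mp h2
    have h2 : x ∈ ρ.ker := by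
      rw [MonoidHom.mem_ker]
      refine LinearIsometryEquiv.ext fun v => ?_
      have := congrArg (fun A : Module.End ℂ V => A v) h1
      exact this
    rcases (inferInstance : (ρ.ker).Normal).eq_bot_or_eq_top with h | h
    · rw [h] at h2
      exact (Subgroup.mem_bot).mp h2
    · exfalso
      obtain ⟨y, v, hy⟩ := hnt
      have : y ∈ ρ.ker := by rw [h]; trivial
      rw [MonoidHom.mem_ker] at this
      exact hy (by rw [this]; rfl)
  obtain ⟨a, ha, hmin⟩ := Finset.exists_min_image (Finset.univ.filter fun x : G => x ≠ 1)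
    (dg ρ) ⟨g, by simp [hg]⟩
  have ha1 : a ≠ 1 := (Finset.mem_filter.mp ha).2
  have hmin' : ∀ x : G, x ≠ 1 → dg ρ a ≤ dg ρ x := fun x hx => hmin x (by simp [hx])
  refine le_trans ?_ (hmin' g hg)
  by_contra hlt
  push Not at hlt
  have hpos : 0 < dg ρ a := lt_of_le_of_ne (nH_nonneg _) fun h => ha1 (hfaith a h.symm)
  -- `a` commutes with its conjugates
  have hcomm : ∀ k : G, a * (k * a * k⁻¹) = (k * a * k⁻¹) * a := by
    intro k
    by_contra hne
    have h1 : a * (k * a * k⁻¹) * ((k * a * k⁻¹) * a)⁻¹ ≠ 1 := by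
      intro h2
      exact hne (mul_inv_eq_one.mp h2)
    have h2 := hmin' _ h1
    have h3 := dg_comm ρ a (k * a * k⁻¹)
    rw [dg_conj] at h3
    nlinarith
  set C : Subgroup G := Subgroup.centralizer {x | ∃ k : G, x = k * a * k⁻¹} with hC
  have hCm : ∀ x, x ∈ C ↔ ∀ k : G, (k * a * k⁻¹) * x = x * (k * a * k⁻¹) := by
    intro x
    rw [hC, Subgroup.mem_centralizer_iff]
    constructor
    · intro h k
      exact h _ ⟨k, rfl⟩
    · rintro h _ ⟨k, rfl⟩
      exact h k
  have hCn : C.Normal := by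
    refine ⟨fun x hx y => ?_⟩
    rw [hCm] at hx ⊢
    intro k
    have h1 := hx (y⁻¹ * k)
    have h2 : y⁻¹ * k * a * (y⁻¹ * k)⁻¹ = y⁻¹ * (k * a * k⁻¹) * y := by group
    rw [h2] at h1
    calc k * a * k⁻¹ * (y * x * y⁻¹) = y * (y⁻¹ * (k * a * k⁻¹) * y * x) * y⁻¹ := by group
      _ = y * (x * (y⁻¹ * (k * a * k⁻¹) * y)) * y⁻¹ := by rw [h1]
      _ = _ := by group
  have haC : a ∈ C := by
    rw [hCm]
    intro k
    exact (hcomm k).symm
  have hCtop : C = ⊤ := by
    rcases hCn.eq_bot_or_eq_top with h | h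
    · rw [h] at haC
      exact absurd (Subgroup.mem_bot.mp haC) ha1
    · exact h
  have haZ : a ∈ Subgroup.center G := by
    rw [Subgroup.mem_center_iff]
    intro x
    have hx : x ∈ C := by rw [hCtop]; trivial
    rw [hCm] at hx
    have := hx 1
    simpa using this.symm
  have hZtop : Subgroup.center G = ⊤ := by
    rcases (inferInstance : (Subgroup.center G).Normal).eq_bot_or_eq_top with h | h
    · rw [h] at haZ
      exact absurd (Subgroup.mem_bot.mp haZ) ha1
    · exact h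
  obtain ⟨x, y, hxy⟩ := hna
  have : y ∈ Subgroup.center G := by rw [hZtop]; trivial
  exact hxy (Subgroup.mem_center_iff.mp this x)

/-- grid of integers -/
abbrev Grid (d : ℕ) : Type := {z : ℤ // z ∈ Finset.Icc (-(4 * d : ℤ)) (4 * d : ℤ)}

lemma card_Grid (d : ℕ) : Fintype.card (Grid d) = 8 * d + 1 := by
  have : Fintype.card (Grid d) = (Finset.Icc (-(4 * d : ℤ)) (4 * d : ℤ)).card :=
    Fintype.card_coe _
  rw [this, Int.card_Icc]
  omega

/-- the Jordan type bound -/
theorem jordan [Fintype G] [IsSimpleGroup G] (hna : ∃ a b : G, a * b ≠ b * a)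
    (ρ : G →* (V ≃ₗᵢ[ℂ] V)) (hnt : ∃ g v, ρ g v ≠ v) :
    Real.log (Fintype.card G) ≤ 18 * (Module.finrank ℂ V : ℝ) ^ 3 := by
  classical
  set d : ℕ := Module.finrank ℂ V with hd
  have hd1 : 1 ≤ d := by
    by_contra hc
    push Not at hc
    have h0 : Module.finrank ℂ V = 0 := by omega
    obtain ⟨g, v, hgv⟩ := hnt
    have : Subsingleton V := Module.finrank_zero_iff.mp h0
    exact hgv (Subsingleton.elim _ _)
  have hdR : (1 : ℝ) ≤ d := by exact_mod_cast hd1
  set b := stdOrthonormalBasis ℂ V with hb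
  -- entries
  set en : G → Fin d → Fin d → ℂ := fun g i j => ⟪b i, ρ g (b j)⟫_ℂ with hen
  have hen1 : ∀ g i j, ‖en g i j‖ ≤ 1 := by
    intro g i j
    have h := norm_inner_le_norm (𝕜 := ℂ) (b i) (ρ g (b j))
    rwa [(ρ g).norm_map, b.norm_eq_one, b.norm_eq_one, mul_one] at h
  -- grid
  have hfl : ∀ x : ℝ, |x| ≤ 1 → ⌊4 * d * x⌋ ∈ Finset.Icc (-(4 * d : ℤ)) (4 * d : ℤ) := by
    intro x hx
    rw [Finset.mem_Icc]
    obtain ⟨h1, h2⟩ := abs_le.mp hx
    constructor
    · rw [Int.le_floor]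
      push_cast
      nlinarith
    · have h3 : (⌊4 * d * x⌋ : ℝ) ≤ 4 * d * x := Int.floor_le _
      have h4 : (⌊4 * d * x⌋ : ℝ) ≤ ((4 * d : ℤ) : ℝ) := by
        push_cast
        nlinarith
      exact_mod_cast h4
  let F : G → (Fin d → Fin d → Grid d × Grid d) := fun g i j =>
    (⟨⌊4 * d * (en g i j).re⌋, hfl _ ((Complex.abs_re_le_norm _).trans (hen1 g i j))⟩,
      ⟨⌊4 * d * (en g i j).im⌋, hfl _ ((Complex.abs_im_le_norm _).trans (hen1 g i j))⟩)
  have hflo : ∀ x y : ℝ, ⌊4 * d * x⌋ = ⌊4 * d * y⌋ → (x - y) ^ 2 ≤ 1 / (16 * d ^ 2) := by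
    intro x y h
    have h1 := Int.abs_sub_lt_one_of_floor_eq_floor h
    have h2 : |4 * d * x - 4 * d * y| = 4 * d * |x - y| := by
      rw [← mul_sub, abs_mul, abs_of_pos (by linarith : (0 : ℝ) < 4 * d)]
    rw [h2] at h1
    rw [le_div_iff₀ (by positivity), ← sq_abs]
    have h3 : 0 ≤ |x - y| := abs_nonneg _
    have h4 : (4 * d * |x - y|) ^ 2 ≤ 1 := by
      have : 0 ≤ 4 * d * |x - y| := by positivity
      nlinarith
    nlinarith
  have hFinj : Function.Injective F := by
    intro g h hgh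
    by_contra hne
    have h1 : h⁻¹ * g ≠ 1 := by
      intro hc
      exact hne (inv_mul_eq_one.mp hc).symm
    have h2 := dg_lower hna ρ hnt (h⁻¹ * g) h1
    have h3 : dg ρ (h⁻¹ * g) = nH (op ρ g - op ρ h) := by
      unfold dg
      rw [← nH_op_mul ρ h]
      congr 1
      rw [mul_sub, ← op_mul, mul_one]
      congr 2
      group
    have h4 : nH (op ρ g - op ρ h) ^ 2 ≤ 1 / 8 := by
      rw [nH_sq, hs_eq_sum b]
      have h5 : ∀ j, ‖(op ρ g - op ρ h) (b j)‖ ^ 2 ≤ d * (1 / (8 * d ^ 2)) := by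
        intro j
        rw [← b.sum_sq_norm_inner_right ((op ρ g - op ρ h) (b j))]
        calc ∑ i, ‖⟪b i, (op ρ g - op ρ h) (b j)⟫_ℂ‖ ^ 2
            ≤ ∑ _i : Fin d, 1 / (8 * (d : ℝ) ^ 2) := by
              refine Finset.sum_le_sum fun i _ => ?_
              have h6 : ⟪b i, (op ρ g - op ρ h) (b j)⟫_ℂ = en g i j - en h i j := by
                rw [LinearMap.sub_apply, inner_sub_right]
                rfl
              have h7 := congrFun (congrFun hgh i) j
              have h8 : ⌊4 * d * (en g i j).re⌋ = ⌊4 * d * (en h i j).re⌋ :=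
                congrArg (fun p : Grid d × Grid d => (p.1 : ℤ)) h7
              have h9 : ⌊4 * d * (en g i j).im⌋ = ⌊4 * d * (en h i j).im⌋ :=
                congrArg (fun p : Grid d × Grid d => (p.2 : ℤ)) h7
              rw [h6, ← Complex.normSq_eq_norm_sq, Complex.normSq_apply, Complex.sub_re,
                Complex.sub_im]
              have h10 := hflo _ _ h8
              have h11 := hflo _ _ h9
              have h12 : 1 / (8 * (d : ℝ) ^ 2) = 1 / (16 * d ^ 2) + 1 / (16 * d ^ 2) := by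
                field_simp
                norm_num
              rw [h12]
              nlinarith
          _ = _ := by simp
      calc ∑ j, ‖(op ρ g - op ρ h) (b j)‖ ^ 2 ≤ ∑ _j : Fin d, (d : ℝ) * (1 / (8 * d ^ 2)) :=
            Finset.sum_le_sum fun j _ => h5 j
        _ = 1 / 8 := by
            simp
            field_simp
    rw [h3] at h2
    nlinarith [nH_nonneg (op ρ g - op ρ h)]
  have hcard := Fintype.card_le_of_injective F hFinj
  have hFc : Fintype.card (Fin d → Fin d → Grid d × Grid d) = (8 * d + 1) ^ (2 * d ^ 2) := by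
    rw [Fintype.card_fun, Fintype.card_fun, Fintype.card_prod, card_Grid, Fintype.card_fin, ← pow_two,
      ← pow_mul, ← pow_mul]
    congr 1
    ring
  rw [hFc] at hcard
  have h1 : (Fintype.card G : ℝ) ≤ (9 * d : ℝ) ^ (2 * d ^ 2) := by
    have h2 : (Fintype.card G : ℝ) ≤ (((8 * d + 1) ^ (2 * d ^ 2) : ℕ) : ℝ) := by
      exact_mod_cast hcard
    refine h2.trans ?_
    push_cast
    exact pow_le_pow_left₀ (by positivity) (by linarith) _
  have hGpos : (0 : ℝ) < Fintype.card G := cG_pos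
  calc Real.log (Fintype.card G) ≤ Real.log ((9 * d : ℝ) ^ (2 * d ^ 2)) :=
        Real.log_le_log hGpos h1
    _ = (2 * d ^ 2 : ℕ) * Real.log (9 * d) := Real.log_pow _ _
    _ ≤ (2 * d ^ 2 : ℕ) * (9 * d) := by
        refine mul_le_mul_of_nonneg_left ?_ (Nat.cast_nonneg _)
        have := Real.log_le_sub_one_of_pos (by positivity : (0 : ℝ) < 9 * d)
        linarith
    _ = _ := by push_cast; ring

/-- the Jordan type bound for an invariant subspace -/
theorem jordan_sub [Fintype G] [IsSimpleGroup G] (hna : ∃ a b : G, a * b ≠ b * a)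
    (ρ : G →* (V ≃ₗᵢ[ℂ] V)) (W : Submodule ℂ V) (hW : Inv ρ W)
    (hnt : ∃ g v, res ρ W hW g v ≠ v) :
    Real.log (Fintype.card G) ≤ 18 * (Module.finrank ℂ W : ℝ) ^ 3 :=
  jordan hna (res ρ W hW) hnt

end

/-! ### the least dimension of a nontrivial representation -/

/-- the least dimension of a nontrivial complex linear representation of `G` -/
noncomputable def minDim (G : Type) [Group G] : ℕ :=
  sInf {d : ℕ | ∃ ρ : G →* Matrix.GeneralLinearGroup (Fin d) ℂ, ∃ g : G, ρ g ≠ 1}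

section
variable {G : Type} [Group G]

/-- a unitary representation gives a matrix representation -/
lemma minDim_le {V : Type} [NormedAddCommGroup V] [InnerProductSpace ℂ V]
    [FiniteDimensional ℂ V] (ρ : G →* (V ≃ₗᵢ[ℂ] V)) (hnt : ∃ g v, ρ g v ≠ v) :
    minDim G ≤ Module.finrank ℂ V := by
  refine Nat.sInf_le ?_
  set b := (stdOrthonormalBasis ℂ V).toBasis with hb
  let o : G →* Module.End ℂ V :=
    { toFun := op ρ
      map_one' := op_one ρ
      map_mul' := op_mul ρ }
  let M : G →* Matrix (Fin (Module.finrank ℂ V)) (Fin (Module.finrank ℂ V)) ℂ :=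
    ((LinearMap.toMatrixAlgEquiv b : Module.End ℂ V →* _)).comp o
  refine ⟨M.toHomUnits, ?_⟩
  obtain ⟨g, v, hgv⟩ := hnt
  refine ⟨g, fun h => hgv ?_⟩
  have h1 : M g = 1 := congrArg Units.val h
  have h2 : op ρ g = 1 := by
    apply (LinearMap.toMatrixAlgEquiv b).injective
    rw [map_one]
    exact h1
  have := congrArg (fun A : Module.End ℂ V => A v) h2
  exact this

theorem QRd_minDim : QRd G (minDim G) := fun V _ _ _ ρ hnt => by
  exact_mod_cast minDim_le ρ hnt

variable [Fintype G]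

/-- a nontrivial linear representation of dimension `d` gives a nontrivial unitary one of
dimension at most `d` -/
lemma exists_unitary (d : ℕ) (ρ : G →* Matrix.GeneralLinearGroup (Fin d) ℂ)
    (hnt : ∃ g, ρ g ≠ 1) :
    ∃ (W : Submodule ℂ (FG G)) (hW : Inv (Rg G) W), Module.finrank ℂ W ≤ d ∧
      ∃ g v, res (Rg G) W hW g v ≠ v := by
  classical
  obtain ⟨g0, hg0⟩ := hnt
  have h1 : ∃ i j, (ρ g0 : Matrix (Fin d) (Fin d) ℂ) i j ≠ (1 : Matrix (Fin d) (Fin d) ℂ) i j := by
    by_contra hcon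
    push Not at hcon
    apply hg0
    apply Units.ext
    ext i j
    exact hcon i j
  obtain ⟨i, j, hij⟩ := h1
  -- the coefficient map
  let Φ : (Fin d → ℂ) →ₗ[ℂ] FG G :=
    { toFun := fun w => WithLp.toLp 2 fun g => ((ρ g : Matrix (Fin d) (Fin d) ℂ).mulVec w) i
      map_add' := fun a b => by
        ext g
        simp [Matrix.mulVec_add]
      map_smul' := fun c a => by
        ext g
        simp [Matrix.mulVec_smul] }
  have hΦ : ∀ w g, Φ w g = ((ρ g : Matrix (Fin d) (Fin d) ℂ).mulVec w) i := fun w g => rfl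
  have heq : ∀ (h : G) (w : Fin d → ℂ), Rg G h (Φ w) =
      Φ ((ρ h : Matrix (Fin d) (Fin d) ℂ).mulVec w) := by
    intro h w
    ext g
    rw [Rg_apply, hΦ, hΦ, Matrix.mulVec_mulVec, map_mul]
    rfl
  have hInv : Inv (Rg G) (LinearMap.range Φ) := by
    rintro h _ ⟨w, rfl⟩
    exact ⟨_, (heq h w).symm⟩
  refine ⟨LinearMap.range Φ, hInv, ?_, ?_⟩
  · have := LinearMap.finrank_range_le Φ
    simpa using this
  · refine ⟨g0, ⟨Φ (Pi.single j 1), _, rfl⟩, fun hcon => hij ?_⟩
    have h2 : Rg G g0 (Φ (Pi.single j 1)) = Φ (Pi.single j 1) := congrArg Subtype.val hcon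
    have h3 := congrArg (fun f : FG G => f 1) h2
    simp only [Rg_apply, hΦ, one_mul, map_one] at h3
    rw [Matrix.mulVec_single_one] at h3
    have h4 : ((1 : Matrix.GeneralLinearGroup (Fin d) ℂ) : Matrix (Fin d) (Fin d) ℂ).mulVec
        (Pi.single j 1) i = (1 : Matrix (Fin d) (Fin d) ℂ) i j := by
      rw [Matrix.mulVec_single_one]
      rfl
    rw [h4] at h3
    exact h3

/-- the Jordan type bound for the least dimension -/
theorem minDim_lower [IsSimpleGroup G] (hna : ∃ a b : G, a * b ≠ b * a) :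
    Real.log (Fintype.card G) ≤ 18 * (minDim G : ℝ) ^ 3 := by
  classical
  have hne : {d : ℕ | ∃ ρ : G →* Matrix.GeneralLinearGroup (Fin d) ℂ, ∃ g : G, ρ g ≠ 1}.Nonempty := by
    -- the regular representation is nontrivial
    have hnt : ∃ g v, Rg G g v ≠ v := by
      obtain ⟨a, b, hab⟩ := hna
      have ha : a ≠ 1 := by
        rintro rfl
        exact hab (by simp)
      refine ⟨a, EuclideanSpace.single 1 1, fun h => ?_⟩
      have h2 := congrArg (fun f : FG G => f 1) h
      simp only [Rg_apply, one_mul] at h2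
      rw [PiLp.single_apply, PiLp.single_apply, if_neg ha, if_pos rfl] at h2
      exact zero_ne_one h2
    by_contra hcon
    rw [Set.not_nonempty_iff_eq_empty] at hcon
    set b := (stdOrthonormalBasis ℂ (FG G)).toBasis with hb
    let o : G →* Module.End ℂ (FG G) :=
      { toFun := op (Rg G)
        map_one' := op_one (Rg G)
        map_mul' := op_mul (Rg G) }
    let M : G →* Matrix (Fin (Module.finrank ℂ (FG G))) (Fin (Module.finrank ℂ (FG G))) ℂ :=
      ((LinearMap.toMatrixAlgEquiv b : Module.End ℂ (FG G) →* _)).comp o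
    have : Module.finrank ℂ (FG G) ∈
        {d : ℕ | ∃ ρ : G →* Matrix.GeneralLinearGroup (Fin d) ℂ, ∃ g : G, ρ g ≠ 1} := by
      refine ⟨M.toHomUnits, ?_⟩
      obtain ⟨g, v, hgv⟩ := hnt
      refine ⟨g, fun h => hgv ?_⟩
      have h1 : M g = 1 := congrArg Units.val h
      have h2 : op (Rg G) g = 1 := by
        apply (LinearMap.toMatrixAlgEquiv b).injective
        rw [map_one]
        exact h1
      have := congrArg (fun A : Module.End ℂ (FG G) => A v) h2
      exact this
    rw [hcon] at this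
    exact this
  obtain ⟨ρ, hρ⟩ := Nat.sInf_mem hne
  obtain ⟨W, hW, hdim, hnt⟩ := exists_unitary _ ρ hρ
  have h1 := jordan_sub hna (Rg G) W hW hnt
  refine h1.trans ?_
  have h2 : (Module.finrank ℂ W : ℝ) ≤ minDim G := by exact_mod_cast hdim
  have h3 : (0 : ℝ) ≤ Module.finrank ℂ W := Nat.cast_nonneg _
  have := pow_le_pow_left₀ h3 h2 3
  linarith

end

end Run7.h107
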