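import Pool.Agent.Run7.h107.NUM
import Pool.Agent.Run7.h107.JORDAN

/-!
Final form for finite simple groups (helper107, MP_bc5a73_al).
-/

namespace Run7.h107
open RC14

/-- counting form of `NUM`: proportion of expanding families -/
theorem NUM_good {G : Type} [Group G] [Fintype G] {D : ℝ} (hD : QRd G D)
    (hD0 : Real.exp 80 ≤ D) (hN : Real.log (Fintype.card G) ≤ D ^ 4) {δ : ℝ} (hδ : 1 / D ≤ δ)
    (L : ℕ) (hL : 1 ≤ L)
    (m : ℕ) (hm : 100000 * L * ((1 + Real.log (Nat.card (ConjClasses G)) / Real.log D) *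
        (Real.log D) ^ (1 / (L : ℝ)) +
        (Real.log (Fintype.card G) / Real.log D) ^ (1 / (L : ℝ))) ≤ m) :
    (1 - δ) * (Fintype.card G : ℝ) ^ m ≤ (Nat.card {x : Fin m → G // VE G x (1 / (1000 * L))} : ℝ) := by
  have h1 := NUM hD hD0 hN L hL m hm
  have h2 := card_compl (fun x : Fin m → G => VE G x (1 / (1000 * L)))
  rw [h2, Fintype.card_fun, Fintype.card_fin]
  push_cast
  have h3 : 0 ≤ (Fintype.card G : ℝ) ^ m := by positivity
  have h4 := mul_le_mul_of_nonneg_right hδ h3
  linarith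

/-- random Cayley graphs of finite simple groups, in terms of the least dimension of a
nontrivial representation and the number of conjugacy classes -/
theorem simple_main {δ : ℝ} (hδ : 0 < δ) : ∃ N : ℕ,
      ∀ (G : Type) [Group G] [Finite G] [IsSimpleGroup G],
        (∃ a b : G, a * b ≠ b * a) → N ≤ Nat.card G → ∀ L m : ℕ, 1 ≤ L →
        100000 * L * ((1 + Real.log (Nat.card (ConjClasses G)) / Real.log (minDim G)) *
          (Real.log (minDim G)) ^ (1 / (L : ℝ)) +
          (Real.log (Nat.card G) / Real.log (minDim G)) ^ (1 / (L : ℝ))) ≤ m →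
        (1 - δ) * (Nat.card G : ℝ) ^ m ≤
          (Nat.card {x : Fin m → G // VE G x (1 / (1000 * L))} : ℝ) := by
  set B : ℝ := max (Real.exp 80) (1 / δ) with hB
  have hB1 : Real.exp 80 ≤ B := le_max_left _ _
  have hB2 : 1 / δ ≤ B := le_max_right _ _
  have hBpos : 0 < B := (Real.exp_pos _).trans_le hB1
  refine ⟨⌈Real.exp (18 * B ^ 3)⌉₊, ?_⟩
  intro G _ _ _ hna hcard L m hL hm
  letI : Fintype G := Fintype.ofFinite G
  have hGpos : (0 : ℝ) < Fintype.card G := cG_pos
  have h1 : Real.exp (18 * B ^ 3) ≤ Fintype.card G := by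
    rw [Nat.card_eq_fintype_card] at hcard
    exact (Nat.le_ceil _).trans (by exact_mod_cast hcard)
  have h2 : 18 * B ^ 3 ≤ Real.log (Fintype.card G) := by
    rw [← Real.log_exp (18 * B ^ 3)]
    exact Real.log_le_log (Real.exp_pos _) h1
  have h3 := minDim_lower hna
  have hD0 : (0 : ℝ) ≤ minDim G := Nat.cast_nonneg _
  have h4 : B ≤ minDim G := by
    by_contra hc
    push Not at hc
    have h5 : (minDim G : ℝ) ^ 3 < B ^ 3 := pow_lt_pow_left₀ hc hD0 (by norm_num)
    linarith
  have hDpos : (0 : ℝ) < minDim G := hBpos.trans_le h4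
  have h5 : Real.log (Fintype.card G) ≤ (minDim G : ℝ) ^ 4 := by
    have h6 : (18 : ℝ) ≤ minDim G := by
      have := Real.add_one_le_exp (80 : ℝ)
      linarith
    have h7 : 18 * (minDim G : ℝ) ^ 3 ≤ (minDim G : ℝ) * (minDim G : ℝ) ^ 3 :=
      mul_le_mul_of_nonneg_right h6 (by positivity)
    have h8 : (minDim G : ℝ) * (minDim G : ℝ) ^ 3 = (minDim G : ℝ) ^ 4 := by ring
    linarith
  have h6 : 1 / (minDim G : ℝ) ≤ δ := by
    rw [div_le_iff₀ hDpos]
    rw [div_le_iff₀ hδ] at hB2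
    nlinarith
  rw [Nat.card_eq_fintype_card]
  rw [Nat.card_eq_fintype_card (α := G)] at hm
  exact NUM_good QRd_minDim (hB1.trans h4) h5 h6 L hL m hm

end Run7.h107
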