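import Pool.Agent.Run7.h107.EXPD

/-!
From the power of the walk operator to vertex expansion (helper107, MP_bc5a73_al).
-/

namespace Run7.h107
open RC14
open scoped InnerProductSpace ComplexConjugate
open Finset

section
variable {G : Type} [Group G]
variable {V : Type} [NormedAddCommGroup V] [InnerProductSpace ℂ V] [FiniteDimensional ℂ V]

omit [FiniteDimensional ℂ V] in
/-- moments of a symmetric operator at a unit vector -/
lemma sym_pow (S : Module.End ℂ V) (hS : S.IsSymmetric) (v : V) (hv : ‖v‖ = 1)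
    (h0 : 0 ≤ (⟪S v, v⟫_ℂ).re) :
    ∀ j : ℕ, (⟪S v, v⟫_ℂ).re ^ (2 ^ j) ≤ (⟪(S ^ (2 ^ j)) v, v⟫_ℂ).re
  | 0 => by simp
  | j + 1 => by
    have ih := sym_pow S hS v hv h0 j
    set m := 2 ^ j with hm
    have hSm : (S ^ m).IsSymmetric := by
      clear ih hm
      induction m with
      | zero => intro v w; simp
      | succ m ih =>
        intro v w
        rw [pow_succ, Module.End.mul_apply, Module.End.mul_apply, ih, hS]
        rw [← Module.End.mul_apply, ← Module.End.mul_apply, ← pow_succ', ← pow_succ]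
    have h1 : (⟪(S ^ (2 ^ (j + 1))) v, v⟫_ℂ).re = ‖(S ^ m) v‖ ^ 2 := by
      have e1 : (2 : ℕ) ^ (j + 1) = m + m := by rw [pow_succ]; ring
      rw [e1, pow_add, Module.End.mul_apply, hSm, inner_self_eq_norm_sq_to_K]
      norm_cast
    have h2 : (⟪(S ^ m) v, v⟫_ℂ).re ≤ ‖(S ^ m) v‖ := by
      have := re_inner_le_norm (𝕜 := ℂ) ((S ^ m) v) v
      rwa [hv, mul_one] at this
    have h3 : 0 ≤ (⟪S v, v⟫_ℂ).re ^ m := by positivity
    rw [h1]
    have e2 : (2 : ℕ) ^ (j + 1) = m * 2 := by rw [pow_succ]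
    rw [e2, pow_mul]
    exact pow_le_pow_left₀ h3 (ih.trans h2) 2

variable {C : Type} [Fintype C] [DecidableEq C]

omit [FiniteDimensional ℂ V] in
lemma rho_inner (ρ : G →* (V ≃ₗᵢ[ℂ] V)) (g : G) (v w : V) : ⟪ρ g v, w⟫_ℂ = ⟪v, ρ g⁻¹ w⟫_ℂ := by
  have h2 : w = ρ g (ρ g⁻¹ w) := by
    rw [map_inv]
    exact ((ρ g).apply_symm_apply w).symm
  conv_lhs => rw [h2]
  exact (ρ g).inner_map_map _ _

omit [FiniteDimensional ℂ V] [DecidableEq C] in
lemma Ssum_symm (ρ : G →* (V ≃ₗᵢ[ℂ] V)) {q : ℕ} (x : C → Fin q → G) :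
    (Ssum ρ x).IsSymmetric := by
  have h1 : Ssum ρ x = ∑ c : C, ∑ i : Fin q, (op ρ (x c i) + op ρ (x c i)⁻¹) := by
    unfold Ssum
    rw [Fintype.sum_prod_type]
    refine Finset.sum_congr rfl fun c _ => ?_
    rw [Fintype.sum_bool, ← Finset.sum_add_distrib]
    refine Finset.sum_congr rfl fun i _ => ?_
    simp [sg]
  rw [h1]
  refine PSBaux.sum_symm _ _ fun c _ => PSBaux.sum_symm _ _ fun i _ => ?_
  intro v w
  rw [LinearMap.add_apply, LinearMap.add_apply, inner_add_left, inner_add_right, op_apply,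
    op_apply, op_apply, op_apply, rho_inner, rho_inner, inv_inv, add_comm]

omit [FiniteDimensional ℂ V] [DecidableEq C] in
/-- energies of all letters -/
lemma Ssum_energy (ρ : G →* (V ≃ₗᵢ[ℂ] V)) {q : ℕ} (x : C → Fin q → G) (v : V) :
    ∑ ω : C × Bool, ∑ i : Fin q, ‖ρ (sg ω.2 (x ω.1 i)) v - v‖ ^ 2 =
      2 * (Fintype.card C * 2 * q) * ‖v‖ ^ 2 - 2 * (⟪Ssum ρ x v, v⟫_ℂ).re := by
  have h1 : (⟪Ssum ρ x v, v⟫_ℂ).re =
      ∑ ω : C × Bool, ∑ i : Fin q, (⟪ρ (sg ω.2 (x ω.1 i)) v, v⟫_ℂ).re := by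
    unfold Ssum
    rw [LinearMap.sum_apply, sum_inner, Complex.re_sum]
    refine Finset.sum_congr rfl fun ω _ => ?_
    rw [LinearMap.sum_apply, sum_inner, Complex.re_sum]
    rfl
  rw [h1, Finset.mul_sum]
  simp only [Finset.mul_sum]
  have h2 : 2 * ((Fintype.card C : ℝ) * 2 * q) * ‖v‖ ^ 2 =
      ∑ ω : C × Bool, ∑ i : Fin q, 2 * ‖v‖ ^ 2 := by
    rw [Finset.sum_const, Finset.card_univ, Fintype.card_prod, Fintype.card_bool,
      Finset.sum_const, Finset.card_univ, Fintype.card_fin, nsmul_eq_mul, nsmul_eq_mul]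
    push_cast
    ring
  rw [h2, ← Finset.sum_sub_distrib]
  refine Finset.sum_congr rfl fun ω _ => ?_
  rw [← Finset.sum_sub_distrib]
  refine Finset.sum_congr rfl fun i _ => ?_
  rw [norm_rho_sub]

variable [Fintype G]

/-- a small power of the walk operator gives vertex expansion -/
theorem VE_of_pow {m : ℕ} (y : Fin m → G) {q : ℕ} (x : C → Fin q → G) (hq : 1 ≤ q)
    (hC : 1 ≤ Fintype.card C) (hx : ∀ c i, ∃ j, x c i = y j) (j : ℕ) {κ ε : ℝ}
    (hκ0 : 0 ≤ κ) (hκ1 : κ ≤ 1) (hε : ε ≤ (1 - κ) ^ (2 ^ j))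
    (h : ∀ v ∈ L0 G, ‖(Ssum (Rg G) x ^ (2 ^ j)) v‖ ≤
      Fintype.card (Cf C q (2 ^ j)) * ε * ‖v‖) :
    VE G y (κ / 2) := by
  classical
  set N : ℝ := Fintype.card C * 2 * q with hN
  have hq0 : (0 : ℝ) < q := by exact_mod_cast hq
  have hC0 : (0 : ℝ) < Fintype.card C := by exact_mod_cast hC
  have hN0 : 0 < N := by positivity
  have hCf : (Fintype.card (Cf C q (2 ^ j)) : ℝ) = N ^ (2 ^ j) := by
    simp only [Fintype.card_prod, Fintype.card_fun, Fintype.card_fin, Fintype.card_bool]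
    push_cast
    rw [hN, mul_pow ((Fintype.card C : ℝ) * 2) (q : ℝ), mul_pow (Fintype.card C : ℝ) 2]
  -- spectral bound
  have hspec : ∀ v ∈ L0 G, (⟪Ssum (Rg G) x v, v⟫_ℂ).re ≤ N * (1 - κ) * ‖v‖ ^ 2 := by
    -- unit vectors
    have key : ∀ v ∈ L0 G, ‖v‖ = 1 → (⟪Ssum (Rg G) x v, v⟫_ℂ).re ≤ N * (1 - κ) := by
      intro v hv hv1
      by_cases h0 : 0 ≤ (⟪Ssum (Rg G) x v, v⟫_ℂ).re
      · have h1 := sym_pow _ (Ssum_symm (Rg G) x) v hv1 h0 j
        have h2 : (⟪(Ssum (Rg G) x ^ (2 ^ j)) v, v⟫_ℂ).re ≤ ‖(Ssum (Rg G) x ^ (2 ^ j)) v‖ := by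
          have := re_inner_le_norm (𝕜 := ℂ) ((Ssum (Rg G) x ^ (2 ^ j)) v) v
          rwa [hv1, mul_one] at this
        have h3 := h v hv
        rw [hv1, mul_one, hCf] at h3
        have h4 : (⟪Ssum (Rg G) x v, v⟫_ℂ).re ^ (2 ^ j) ≤ (N * (1 - κ)) ^ (2 ^ j) := by
          rw [mul_pow]
          exact (h1.trans (h2.trans h3)).trans (mul_le_mul_of_nonneg_left hε (by positivity))
        exact le_of_pow_le_pow_left₀ (by positivity) (mul_nonneg hN0.le (by linarith)) h4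
      · push Not at h0
        have : 0 ≤ N * (1 - κ) := mul_nonneg hN0.le (by linarith)
        linarith
    intro v hv
    rcases eq_or_ne v 0 with h0 | h0
    · rw [h0]
      simp
    · have hvp : 0 < ‖v‖ := norm_pos_iff.mpr h0
      have h1 := key (((‖v‖⁻¹ : ℝ) : ℂ) • v) ((L0 G).smul_mem _ hv) (by
        rw [norm_smul, Complex.norm_real, norm_inv, norm_norm, inv_mul_cancel₀ hvp.ne'])
      rw [map_smul, inner_smul_left, inner_smul_right, Complex.conj_ofReal, ← mul_assoc,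
        ← Complex.ofReal_mul, Complex.re_ofReal_mul] at h1
      have h2 : ‖v‖⁻¹ * ‖v‖⁻¹ * (⟪Ssum (Rg G) x v, v⟫_ℂ).re =
          (⟪Ssum (Rg G) x v, v⟫_ℂ).re / ‖v‖ ^ 2 := by
        field_simp
      rw [h2, div_le_iff₀ (by positivity)] at h1
      exact h1
  -- vertex expansion
  intro A hA
  set B : Set G := {g : G | g ∉ A ∧ ∃ a ∈ A, ∃ i : Fin m, g = a * y i ∨ g = a * (y i)⁻¹} with hB
  have hcB : Nat.card {g : G // g ∉ A ∧ ∃ a ∈ A, ∃ i : Fin m, g = a * y i ∨ g = a * (y i)⁻¹} =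
      Nat.card B := rfl
  rw [hcB]
  set b : ℝ := (Nat.card B : ℝ) with hb
  have hb0 : 0 ≤ b := Nat.cast_nonneg _
  have hE : ∑ ω : C × Bool, ∑ i : Fin q, ‖Rg G (sg ω.2 (x ω.1 i)) (cind A) - cind A‖ ^ 2 ≤
      N * (2 * b) := by
    have h1 : ∑ ω : C × Bool, ∑ i : Fin q, (2 * b) = N * (2 * b) := by
      rw [Finset.sum_const, Finset.card_univ, Fintype.card_prod, Fintype.card_bool,
        Finset.sum_const, Finset.card_univ, Fintype.card_fin, nsmul_eq_mul, nsmul_eq_mul]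
      push_cast
      rw [hN]
      ring
    rw [← h1]
    refine Finset.sum_le_sum fun ω _ => Finset.sum_le_sum fun i _ => ?_
    obtain ⟨k, hk⟩ := hx ω.1 i
    refine cind_disp A B _ fun g hg hg2 => ?_
    obtain ⟨a, ha, h⟩ := hg2
    refine ⟨hg, a, ha, k, ?_⟩
    unfold sg at h
    rw [hk] at h
    split_ifs at h
    · exact h
    · rw [inv_inv] at h
      exact h.symm
  rw [Ssum_energy, ← hN] at hE
  have h1 := hspec (cind A) (cind_mem A)
  have h2 : κ * ‖cind A‖ ^ 2 ≤ b := by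
    have h3 : N * (κ * ‖cind A‖ ^ 2) ≤ N * b := by nlinarith
    exact le_of_mul_le_mul_left h3 hN0
  rw [cind_norm] at h2
  have hG := cG_pos (G := G)
  have h3 : (Nat.card A : ℝ) ^ 2 / Fintype.card G ≤ Nat.card A / 2 := by
    rw [div_le_iff₀ hG]
    have h3 : 2 * (Nat.card A : ℝ) ≤ Fintype.card G := by
      rw [← Nat.card_eq_fintype_card]
      exact_mod_cast hA
    have h4 : (0 : ℝ) ≤ Nat.card A := Nat.cast_nonneg _
    nlinarith
  have h5 : κ * ((Nat.card A : ℝ) / 2) ≤ κ * ((Nat.card A : ℝ) -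
      (Nat.card A : ℝ) ^ 2 / Fintype.card G) := mul_le_mul_of_nonneg_left (by linarith) hκ0
  linarith
where
  le_of_pow_le_pow_left₀ {a b : ℝ} {n : ℕ} (hn : 0 < n) (hb : 0 ≤ b) (h : a ^ n ≤ b ^ n) :
      a ≤ b := by
    by_contra hc
    push Not at hc
    have := pow_lt_pow_left₀ hc hb hn.ne'
    linarith

/-- the count of non-expanding families of `m` letters -/
theorem MAINX {D : ℝ} (hQ : QRd G D) {s n0 n1 n2 K : ℕ} (hP : PP D s n0 n1 n2 K)
    (hd : Real.log (Fintype.card G) ≤ ((4 * K * 512 : ℕ) : ℝ) ^ n2 * Real.log D)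
    (j : ℕ) (hj : 2 ≤ j) (hL : 2 * (s + (n0 + n1) + n2) ≤ 2 ^ j)
    {t κ : ℝ} (ht : 0 < t) (hκ0 : 0 ≤ κ) (hκ1 : κ ≤ 1)
    (hε : (1 / 4) ^ (2 ^ j) + t + Real.sqrt (3 * (1 / 2) ^ n1) ≤ (1 - κ) ^ (2 ^ j))
    (m : ℕ) (hm : 4096 * 2 ^ j * (4 * K * 512) ≤ m) :
    (Nat.card {y : Fin m → G // ¬ VE G y (κ / 2)} : ℝ) ≤
      (Nat.card (ConjClasses G) : ℕ) * (((2 ^ j : ℕ) : ℝ) *
        (6 * Real.exp (-(K * Real.log D / 4)))) / t * (Fintype.card G : ℝ) ^ m := by
  classical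
  have hK := hP.hK
  obtain ⟨j', rfl⟩ : ∃ j', j = 2 + j' := ⟨j - 2, by omega⟩
  set n' : ℕ := 2 ^ j' with hn'
  have hn'1 : 1 ≤ n' := Nat.one_le_two_pow
  have hn4 : 2 ^ (2 + j') = 4 * n' := by rw [pow_add, hn']; norm_num
  set q : ℕ := 4 * K * 512 with hq
  let C : Type := Fin (4096 * (4 * n'))
  have hC : Fintype.card C = 4096 * (4 * n') := Fintype.card_fin _
  have hfr : Module.finrank ℂ (FG G) = Fintype.card G := finrank_euclideanSpace
  have hX := EXPD (C := C) (Rg G) (L0 G) L0_inv L0_nt hQ hP (by rw [hfr]; exact hd) n' hn'1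
    (by rw [← hn4]; exact hL) hC ht
  rw [← hq] at hX
  rw [hn4] at hε hm
  -- reindexing the letters
  set n := Fintype.card (C × Fin q) with hn
  have hnm : n ≤ m := by
    rw [hn, Fintype.card_prod, hC, Fintype.card_fin]
    calc 4096 * (4 * n') * q = 4096 * (4 * n') * q := rfl
      _ ≤ m := hm
  have hcard : Fintype.card ((C × Fin q) ⊕ Fin (m - n)) = Fintype.card (Fin m) := by
    rw [Fintype.card_sum, Fintype.card_fin, Fintype.card_fin, ← hn]
    omega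
  let e : ((C × Fin q) ⊕ Fin (m - n)) ≃ Fin m := Fintype.equivOfCardEq hcard
  let F : (Fin m → G) ≃ (C → Fin q → G) × (Fin (m - n) → G) :=
    ((Equiv.arrowCongr e.symm (Equiv.refl G)).trans (Equiv.sumArrowEquivProdArrow _ _ _)).trans
      (Equiv.prodCongr (Equiv.curry C (Fin q) G) (Equiv.refl _))
  have hF : ∀ (y : Fin m → G) (c : C) (i : Fin q), (F y).1 c i = y (e (Sum.inl (c, i))) :=
    fun y c i => rfl
  set Bd' : (C → Fin q → G) → Prop := fun x => ¬ ∀ v ∈ L0 G,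
        ‖(Ssum (Rg G) x ^ (4 * n')) v‖ ≤ Fintype.card (Cf C q (4 * n')) *
          ((1 / 4) ^ (4 * n') + t + Real.sqrt (3 * (1 / 2) ^ n1)) * ‖v‖ with hBd'
  have h1 : Nat.card {y : Fin m → G // ¬ VE G y (κ / 2)} ≤
      Nat.card {y : Fin m → G // Bd' (F y).1} := by
    refine card_mono _ _ fun y hy hcon => hy ?_
    refine VE_of_pow y (F y).1 (by omega : 1 ≤ q) (by rw [hC]; omega) ?_ (2 + j') hκ0 hκ1
      (ε := (1 / 4) ^ (4 * n') + t + Real.sqrt (3 * (1 / 2) ^ n1)) ?_ ?_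
    · exact fun c i => ⟨_, hF y c i⟩
    · rw [hn4]; exact hε
    · rw [hn4]; exact hcon
  have h2 : Nat.card {y : Fin m → G // Bd' (F y).1} =
      Nat.card {x : C → Fin q → G // Bd' x} * Fintype.card (Fin (m - n) → G) := by
    have h3 : Nat.card {y : Fin m → G // Bd' (F y).1} =
        Nat.card {p : (C → Fin q → G) × (Fin (m - n) → G) // Bd' p.1} :=
      card_equiv F _ _ fun y => Iff.rfl
    rw [h3, ← Nat.card_eq_fintype_card, ← Nat.card_prod]
    refine Nat.card_congr ⟨fun y => (⟨y.1.1, y.2⟩, y.1.2), fun y => ⟨(y.1.1, y.2), y.1.2⟩,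
      fun y => rfl, fun y => rfl⟩
  have h4 : (Fintype.card (C → Fin q → G) : ℝ) * Fintype.card (Fin (m - n) → G) =
      (Fintype.card G : ℝ) ^ m := by
    have h5 : Fintype.card (Fin m → G) =
        Fintype.card (C → Fin q → G) * Fintype.card (Fin (m - n) → G) := by
      rw [← Fintype.card_prod]
      exact Fintype.card_congr F
    rw [Fintype.card_fun, Fintype.card_fin] at h5
    have h6 : ((Fintype.card G ^ m : ℕ) : ℝ) =
        ((Fintype.card (C → Fin q → G) * Fintype.card (Fin (m - n) → G) : ℕ) : ℝ) := by rw [h5]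
    rw [Nat.cast_mul] at h6
    rw [← h6]
    push_cast
    rfl
  calc (Nat.card {y : Fin m → G // ¬ VE G y (κ / 2)} : ℝ)
      ≤ (Nat.card {x : C → Fin q → G // Bd' x} : ℝ) * Fintype.card (Fin (m - n) → G) := by
        rw [← Nat.cast_mul, ← h2]
        exact_mod_cast h1
    _ ≤ ((Nat.card (ConjClasses G) : ℕ) * (((4 * n' : ℕ) : ℝ) *
        (6 * Real.exp (-(K * Real.log D / 4)))) / t *
        Fintype.card (C → Fin q → G)) * Fintype.card (Fin (m - n) → G) :=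
        mul_le_mul_of_nonneg_right hX (Nat.cast_nonneg _)
    _ = _ := by
        rw [← h4, hn4]
        ring

end

end Run7.h107
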