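import Pool.Agent.Run7.h107.BASE

/-!
The normalised exponential trace `FL A t = tr exp(tA) / dim` (helper107, MP_bc5a73_al).
-/

namespace Run7.h107
open RC14
open scoped InnerProductSpace
open Finset

section
variable {V : Type} [NormedAddCommGroup V] [InnerProductSpace ℂ V] [FiniteDimensional ℂ V]

/-- normalised exponential trace -/
noncomputable def FL (A : Module.End ℂ V) (t : ℝ) : ℝ := tn (ex ((t : ℂ) • A))

/-- `FL` in terms of the eigenvalues -/
lemma FL_eig {A : Module.End ℂ V} {a : ℝ} (hA : Bd A a) :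
    ∃ (n : ℕ) (μ : Fin n → ℝ), Module.finrank ℂ V = n ∧ (∀ i, 0 ≤ μ i ∧ μ i ≤ a) ∧
      ∀ t : ℝ, FL A t = ∑ i, (1 / (n : ℝ)) * Real.exp (t * μ i) := by
  obtain ⟨n, b, μ, h1, -⟩ := EXB.diag A hA.1
  have hn : Module.finrank ℂ V = n := by
    rw [Module.finrank_eq_card_basis b.toBasis, Fintype.card_fin]
  refine ⟨n, μ, hn, ?_, ?_⟩
  · intro i
    have h3 := hA.2 (b i)
    rw [h1, inner_smul_left, Complex.conj_ofReal, Complex.re_ofReal_mul,
      inner_self_eq_norm_sq_to_K, b.norm_eq_one] at h3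
    simpa using h3
  · intro t
    have h2 : ∀ i, ex ((t : ℂ) • A) (b i) = ((Real.exp (t * μ i) : ℝ) : ℂ) • b i := by
      intro i
      have h3 : ((t : ℂ) • A) (b i) = ((t * μ i : ℝ) : ℂ) • b i := by
        rw [LinearMap.smul_apply, h1, smul_smul, Complex.ofReal_mul]
      rw [ex_eig _ _ _ h3, Complex.ofReal_exp]
    unfold FL tn
    rw [EXB.tr_eig b _ _ h2, hn, Finset.sum_div]
    refine Finset.sum_congr rfl fun i _ => ?_
    ring

lemma FL_mono {A : Module.End ℂ V} {a : ℝ} (hA : Bd A a) {s t : ℝ} (hst : s ≤ t) :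
    FL A s ≤ FL A t := by
  obtain ⟨n, μ, -, h1, h2⟩ := FL_eig hA
  rw [h2, h2]
  refine Finset.sum_le_sum fun i _ => ?_
  refine mul_le_mul_of_nonneg_left (Real.exp_le_exp.2 ?_) (by positivity)
  exact mul_le_mul_of_nonneg_right hst (h1 i).1

lemma FL_one_le [Nontrivial V] {A : Module.End ℂ V} {a : ℝ} (hA : Bd A a) {t : ℝ} (ht : 0 ≤ t) :
    1 ≤ FL A t := (hA.smul ht).ex_tn.1

lemma FL_le_exp [Nontrivial V] {A : Module.End ℂ V} (hA : Bd A 1) {t : ℝ} (ht : 0 ≤ t) :
    FL A t ≤ Real.exp t := by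
  have := (hA.smul ht).ex_tn.2
  rwa [mul_one] at this

/-- power means -/
lemma FL_TH [Nontrivial V] {A : Module.End ℂ V} {x : ℝ} (hA : Bd A x) {a b θ : ℝ} (ha : 0 ≤ a)
    (hab : a ≤ b) (h : FL A b ≤ Real.exp (b * θ)) : FL A a ≤ Real.exp (a * θ) := by
  obtain ⟨n, μ, hn, h1, h2⟩ := FL_eig hA
  have hd : 0 < Module.finrank ℂ V := Module.finrank_pos
  have hn0 : (0 : ℝ) < n := by
    rw [hn] at hd
    exact_mod_cast hd
  rcases eq_or_lt_of_le ha with ha0 | ha0
  · rw [← ha0, h2]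
    simp only [zero_mul, Real.exp_zero, mul_one]
    rw [Finset.sum_const, Finset.card_univ, Fintype.card_fin, nsmul_eq_mul]
    exact le_of_eq (by field_simp)
  · have hb0 : 0 < b := ha0.trans_le hab
    have h3 := Real.rpow_arith_mean_le_arith_mean_rpow Finset.univ (fun _ : Fin n => 1 / (n : ℝ))
      (fun i => Real.exp (a * μ i)) (fun _ _ => by positivity) (by
        rw [Finset.sum_const, Finset.card_univ, Fintype.card_fin, nsmul_eq_mul]
        field_simp) (fun i _ => (Real.exp_pos _).le) (p := b / a) (by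
        rw [le_div_iff₀ ha0]; linarith)
    have h4 : ∀ i, Real.exp (a * μ i) ^ (b / a) = Real.exp (b * μ i) := by
      intro i
      rw [← Real.exp_mul]
      congr 1
      field_simp
    simp only [h4] at h3
    rw [← h2, ← h2] at h3
    have h5 : FL A a ^ (b / a) ≤ Real.exp (b * θ) := h3.trans h
    have h6 : 1 ≤ FL A a := FL_one_le hA ha
    have h7 : (FL A a ^ (b / a)) ^ (a / b) ≤ (Real.exp (b * θ)) ^ (a / b) :=
      Real.rpow_le_rpow (by positivity) h5 (by positivity)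
    rw [← Real.rpow_mul (by linarith), ← Real.exp_mul] at h7
    have e1 : b / a * (a / b) = 1 := by field_simp
    have e2 : b * θ * (a / b) = a * θ := by field_simp
    rw [e1, e2, Real.rpow_one] at h7
    exact h7

/-- sub-averages -/
lemma SA [Nontrivial V] {ι : Type*} (s : Finset ι) (w : ι → ℝ) (hw : ∀ i ∈ s, 0 ≤ w i)
    (hw1 : ∑ i ∈ s, w i ≤ 1) (B : ι → Module.End ℂ V) (hB : ∀ i, (B i).IsSymmetric) {M : ℝ}
    (hM1 : 1 ≤ M) (hM : ∀ i ∈ s, w i ≠ 0 → tn (ex (B i)) ≤ M) :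
    tn (ex (∑ i ∈ s, (w i : ℂ) • B i)) ≤ M := by
  classical
  have hd : (0 : ℝ) < Module.finrank ℂ V := by exact_mod_cast Module.finrank_pos
  have h1 := KL (Finset.insertNone s) (fun o : Option ι => o.elim (1 - ∑ i ∈ s, w i) w) (by
      intro o ho
      cases o with
      | none => simpa using hw1
      | some i => exact hw i (by simpa using ho)) (by
      rw [Finset.sum_insertNone]
      simp) (fun o : Option ι => o.elim 0 B) (by
      intro o
      cases o with
      | none => intro v w; simp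
      | some i => exact hB i)
  rw [Finset.sum_insertNone, Finset.sum_insertNone] at h1
  simp only [Option.elim_none, Option.elim_some, smul_zero, zero_add] at h1
  have h2 : rtr (ex (0 : Module.End ℂ V)) = Module.finrank ℂ V := by
    rw [ex_zero]
    unfold rtr
    rw [LinearMap.trace_one]
    simp
  rw [h2] at h1
  unfold tn
  rw [div_le_iff₀ hd]
  refine h1.trans ?_
  have h3 : ∑ i ∈ s, w i * rtr (ex (B i)) ≤ ∑ i ∈ s, w i * (M * Module.finrank ℂ V) := by
    refine Finset.sum_le_sum fun i hi => ?_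
    by_cases h0 : w i = 0
    · rw [h0, zero_mul, zero_mul]
    · refine mul_le_mul_of_nonneg_left ?_ (hw i hi)
      have := hM i hi h0
      unfold tn at this
      rwa [div_le_iff₀ hd] at this
  rw [← Finset.sum_mul] at h3
  have h4 : (1 - ∑ i ∈ s, w i) * (Module.finrank ℂ V : ℝ) ≤
      (1 - ∑ i ∈ s, w i) * (M * Module.finrank ℂ V) := by
    refine mul_le_mul_of_nonneg_left ?_ (by linarith)
    nlinarith
  linarith

variable {G : Type} [Group G]

lemma FL_cj (ρ : G →* (V ≃ₗᵢ[ℂ] V)) (A : Module.End ℂ V) (g : G) (t : ℝ) :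
    FL (cj ρ A g) t = FL A t := by
  unfold FL tn
  rw [← PSBaux.cj_smul, PSBaux.rtr_ex_cj]

/-- average of conjugates -/
noncomputable def PC (ρ : G →* (V ≃ₗᵢ[ℂ] V)) {ι : Type} [Fintype ι] (z : ι → G)
    (A : Module.End ℂ V) : Module.End ℂ V :=
  ((1 / (Fintype.card ι : ℝ) : ℝ) : ℂ) • ∑ i, cj ρ A (z i)

omit [FiniteDimensional ℂ V] in
lemma Bd.PC {A : Module.End ℂ V} {a : ℝ} (hA : Bd A a) (ρ : G →* (V ≃ₗᵢ[ℂ] V)) {ι : Type}
    [Fintype ι] [Nonempty ι] (z : ι → G) : Bd (PC ρ z A) a := by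
  have h1 := (Bd.sum Finset.univ (fun i => RC14.cj ρ A (z i)) (a := a)
    fun i _ => hA.cj ρ (z i)).smul (t := 1 / (Fintype.card ι : ℝ)) (by positivity)
  have hq0 : (Fintype.card ι : ℝ) ≠ 0 := by exact_mod_cast Fintype.card_ne_zero
  have e : 1 / (Fintype.card ι : ℝ) * (((Finset.univ : Finset ι).card : ℝ) * a) = a := by
    rw [Finset.card_univ]
    field_simp
  rw [e] at h1
  exact h1

lemma FL_PC_le [Nontrivial V] {A : Module.End ℂ V} {a : ℝ} (hA : Bd A a)
    (ρ : G →* (V ≃ₗᵢ[ℂ] V)) {ι : Type} [Fintype ι] [Nonempty ι] (z : ι → G) {t : ℝ}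
    (ht : 0 ≤ t) : FL (PC ρ z A) t ≤ FL A t := by
  have hq0 : (Fintype.card ι : ℝ) ≠ 0 := by exact_mod_cast Fintype.card_ne_zero
  have h1 : (t : ℂ) • PC ρ z A =
      ∑ i, ((1 / (Fintype.card ι : ℝ) : ℝ) : ℂ) • ((t : ℂ) • cj ρ A (z i)) := by
    unfold PC
    rw [smul_comm, Finset.smul_sum, Finset.smul_sum]
  unfold FL
  rw [h1]
  refine SA _ _ (fun _ _ => by positivity) ?_ _
    (fun i => PSBaux.smul_symm _ (PSBaux.cj_symm ρ _ hA.1 _) _) (FL_one_le hA ht) ?_
  · rw [Finset.sum_const, Finset.card_univ, nsmul_eq_mul]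
    exact le_of_eq (by field_simp)
  · intro i _ _
    exact le_of_eq (FL_cj ρ A (z i) t)

/-- the quadratic form from the exponential trace -/
lemma FL_norm [Nontrivial V] {A : Module.End ℂ V} {a : ℝ} (hA : Bd A a) {l θ ν : ℝ}
    (hl : 0 < l) (h : FL A l ≤ Real.exp (l * θ))
    (hd : Real.log (Module.finrank ℂ V) ≤ l * ν) (v : V) :
    (⟪A v, v⟫_ℂ).re ≤ (ν + θ) * ‖v‖ ^ 2 := by
  have hd0 : (0 : ℝ) < Module.finrank ℂ V := by exact_mod_cast Module.finrank_pos
  -- unit vectors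
  have key : ∀ w : V, ‖w‖ = 1 → (⟪A w, w⟫_ℂ).re ≤ ν + θ := by
    intro w hw
    have hs := PSBaux.smul_symm A hA.1 l
    have h1 := (ex_jensen _ hs w hw).trans (ex_le_tr _ hs w hw)
    rw [LinearMap.smul_apply, inner_smul_left, Complex.conj_ofReal, Complex.re_ofReal_mul] at h1
    have h2 : rtr (ex ((l : ℂ) • A)) ≤ Real.exp (l * (ν + θ)) := by
      unfold FL tn at h
      rw [div_le_iff₀ hd0] at h
      refine h.trans ?_
      have h3 : (Module.finrank ℂ V : ℝ) ≤ Real.exp (l * ν) := by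
        rw [← Real.exp_log hd0]
        exact Real.exp_le_exp.2 hd
      rw [mul_add, add_comm, Real.exp_add]
      exact mul_le_mul_of_nonneg_left h3 (Real.exp_pos _).le
    have h3 := Real.exp_le_exp.1 (h1.trans h2)
    exact le_of_mul_le_mul_left h3 hl
  rcases eq_or_ne v 0 with h0 | h0
  · rw [h0]
    simp
  · have hv : 0 < ‖v‖ := norm_pos_iff.mpr h0
    have h1 := key (((‖v‖⁻¹ : ℝ) : ℂ) • v) (by
      rw [norm_smul, Complex.norm_real, norm_inv, norm_norm, inv_mul_cancel₀ hv.ne'])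
    rw [map_smul, inner_smul_left, inner_smul_right, Complex.conj_ofReal, ← mul_assoc,
      ← Complex.ofReal_mul, Complex.re_ofReal_mul] at h1
    have h2 : ‖v‖⁻¹ * ‖v‖⁻¹ * (⟪A v, v⟫_ℂ).re = (⟪A v, v⟫_ℂ).re / ‖v‖ ^ 2 := by
      field_simp
    rw [h2, div_le_iff₀ (by positivity)] at h1
    exact h1

end

end Run7.h107
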