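import Pool.Agent.Run7.h107.QR

/-!
The conjugation action on endomorphisms as a unitary representation, and the second moment
of the trace of a product with a random conjugate (helper107, MP_bc5a73_al).
-/

namespace Run7.h107
open RC14
open scoped InnerProductSpace
open Finset

section
variable {G : Type} [Group G]
variable {V : Type} [NormedAddCommGroup V] [InnerProductSpace ℂ V] [FiniteDimensional ℂ V]

/-- endomorphisms as a Hilbert space -/
abbrev HSp (V : Type) [NormedAddCommGroup V] [InnerProductSpace ℂ V]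
    [FiniteDimensional ℂ V] : Type :=
  PiLp 2 (fun _ : Fin (Module.finrank ℂ V) => V)

/-- the identification -/
noncomputable def eH : Module.End ℂ V ≃ₗ[ℂ] HSp V :=
  ((stdOrthonormalBasis ℂ V).toBasis.constr ℂ).symm.trans
    (WithLp.linearEquiv 2 ℂ (Fin (Module.finrank ℂ V) → V)).symm

lemma eH_apply (A : Module.End ℂ V) (i : Fin (Module.finrank ℂ V)) :
    (eH A) i = A (stdOrthonormalBasis ℂ V i) := by
  unfold eH
  rw [LinearEquiv.trans_apply]
  change ((stdOrthonormalBasis ℂ V).toBasis.constr ℂ).symm A i = _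
  obtain ⟨f, rfl⟩ := ((stdOrthonormalBasis ℂ V).toBasis.constr ℂ).surjective A
  rw [LinearEquiv.symm_apply_apply]
  have := Module.Basis.constr_basis (stdOrthonormalBasis ℂ V).toBasis ℂ f i
  rw [OrthonormalBasis.coe_toBasis] at this
  exact this.symm

lemma eH_inner (A B : Module.End ℂ V) :
    ⟪eH A, eH B⟫_ℂ = LinearMap.trace ℂ V (LinearMap.adjoint A * B) := by
  rw [PiLp.inner_apply, LinearMap.trace_eq_sum_inner _ (stdOrthonormalBasis ℂ V)]
  refine Finset.sum_congr rfl fun i _ => ?_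
  rw [eH_apply, eH_apply, Module.End.mul_apply, LinearMap.adjoint_inner_right]

lemma eH_norm (A : Module.End ℂ V) : ‖eH A‖ ^ 2 = hs A := by
  rw [hs_eq_sum (stdOrthonormalBasis ℂ V), PiLp.norm_sq_eq_of_L2]
  exact Finset.sum_congr rfl fun i _ => by rw [eH_apply]

lemma hs_cj (ρ : G →* (V ≃ₗᵢ[ℂ] V)) (A : Module.End ℂ V) (z : G) : hs (cj ρ A z) = hs A := by
  have h1 : hs (cj ρ A z) = hs (op ρ z * A) := by
    rw [hs_eq_sum (stdOrthonormalBasis ℂ V),
      hs_eq_sum ((stdOrthonormalBasis ℂ V).map (ρ z⁻¹))]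
    refine Finset.sum_congr rfl fun i _ => ?_
    rw [OrthonormalBasis.map_apply]
    rfl
  rw [h1, hs_eq_sum (stdOrthonormalBasis ℂ V), hs_eq_sum (stdOrthonormalBasis ℂ V)]
  refine Finset.sum_congr rfl fun i _ => ?_
  rw [Module.End.mul_apply, op_apply, LinearIsometryEquiv.norm_map]

lemma cj_one (ρ : G →* (V ≃ₗᵢ[ℂ] V)) (A : Module.End ℂ V) : cj ρ A 1 = A := by
  unfold cj
  rw [inv_one, op_one, one_mul, mul_one]

lemma cj_mul (ρ : G →* (V ≃ₗᵢ[ℂ] V)) (A : Module.End ℂ V) (g z : G) :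
    cj ρ A (g * z) = cj ρ (cj ρ A z) g := by
  simp only [cj, op_mul, mul_inv_rev, mul_assoc]

/-- conjugation as a linear equivalence -/
noncomputable def cjE (ρ : G →* (V ≃ₗᵢ[ℂ] V)) (z : G) : Module.End ℂ V ≃ₗ[ℂ] Module.End ℂ V where
  toFun A := cj ρ A z
  invFun A := cj ρ A z⁻¹
  map_add' A B := by
    unfold cj
    rw [mul_add, add_mul]
  map_smul' c A := by
    simp only [cj, mul_smul_comm, smul_mul_assoc, RingHom.id_apply]
  left_inv A := by
    change cj ρ (cj ρ A z) z⁻¹ = A
    rw [← cj_mul, inv_mul_cancel, cj_one]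
  right_inv A := by
    change cj ρ (cj ρ A z⁻¹) z = A
    rw [← cj_mul, mul_inv_cancel, cj_one]

/-- the conjugation representation -/
noncomputable def cjR (ρ : G →* (V ≃ₗᵢ[ℂ] V)) : G →* (HSp V ≃ₗᵢ[ℂ] HSp V) where
  toFun z :=
    { toLinearEquiv := (eH.symm.trans (cjE ρ z)).trans eH
      norm_map' := fun f => by
        obtain ⟨A, rfl⟩ := eH.surjective f
        have h : ((eH.symm.trans (cjE ρ z)).trans eH) (eH A) = eH (cj ρ A z) := by
          rw [LinearEquiv.trans_apply, LinearEquiv.trans_apply, LinearEquiv.symm_apply_apply]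
          rfl
        rw [h]
        have h2 : ‖eH (cj ρ A z)‖ ^ 2 = ‖eH A‖ ^ 2 := by rw [eH_norm, eH_norm, hs_cj]
        exact (pow_left_inj₀ (norm_nonneg _) (norm_nonneg _) two_ne_zero).mp h2 }
  map_one' := by
    refine LinearIsometryEquiv.ext fun f => ?_
    obtain ⟨A, rfl⟩ := eH.surjective f
    change eH (cj ρ (eH.symm (eH A)) 1) = eH A
    rw [cj_one, LinearEquiv.symm_apply_apply]
  map_mul' g z := by
    refine LinearIsometryEquiv.ext fun f => ?_
    obtain ⟨A, rfl⟩ := eH.surjective f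
    change eH (cj ρ (eH.symm (eH A)) (g * z)) =
      eH (cj ρ (eH.symm (eH (cj ρ (eH.symm (eH A)) z))) g)
    rw [LinearEquiv.symm_apply_apply, LinearEquiv.symm_apply_apply, cj_mul]

lemma cjR_apply (ρ : G →* (V ≃ₗᵢ[ℂ] V)) (z : G) (A : Module.End ℂ V) :
    cjR ρ z (eH A) = eH (cj ρ A z) := by
  change eH (cj ρ (eH.symm (eH A)) z) = eH (cj ρ A z)
  rw [LinearEquiv.symm_apply_apply]

variable [Fintype G]

/-- second moment of the trace of a product with a random conjugate -/
theorem HS2 {D : ℝ} (hD : QRd G D) (ρ : G →* (V ≃ₗᵢ[ℂ] V)) (hirr : Irr ρ ⊤)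
    (M N : Module.End ℂ V) (hM : M.IsSymmetric) (hN : N.IsSymmetric) (hD0 : 0 ≤ D) :
    D * ∑ z : G, (rtr (M * cj ρ N z) - rtr M * rtr N / Module.finrank ℂ V) ^ 2 ≤
      Fintype.card G * hs M * hs N := by
  have hnt := TREE.nontriv ρ hirr
  have hd : (0 : ℝ) < Module.finrank ℂ V := by exact_mod_cast Module.finrank_pos
  have hdc : (Module.finrank ℂ V : ℂ) ≠ 0 := by exact_mod_cast hd.ne'
  set c : ℂ := ((rtr N / Module.finrank ℂ V : ℝ) : ℂ) with hc
  set N' : Module.End ℂ V := N - c • 1 with hN'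
  have htrN : LinearMap.trace ℂ V N = (rtr N : ℂ) := AW.trace_real N hN
  have htrN' : LinearMap.trace ℂ V N' = 0 := by
    rw [hN', map_sub, map_smul, LinearMap.trace_one, htrN, hc, smul_eq_mul]
    push_cast
    field_simp
    ring
  have hsum : ∑ z : G, cjR ρ z (eH N') = 0 := by
    simp only [cjR_apply]
    rw [← map_sum, SCHUR_avg ρ hirr, htrN']
    simp
  have h1 := QR2 hD (cjR ρ) (eH N') (eH M) hsum
  rw [eH_norm, eH_norm] at h1
  have hcjN' : ∀ z, cj ρ N' z = cj ρ N z - c • 1 := by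
    intro z
    have h2 : cj ρ (1 : Module.End ℂ V) z = 1 := by
      unfold cj
      rw [mul_one, ← op_mul, mul_inv_cancel, op_one]
    have h3 := map_sub (cjE ρ z) N (c • 1)
    have h4 := map_smul (cjE ρ z) c 1
    rw [h4] at h3
    change cj ρ (N - c • 1) z = cj ρ N z - c • cj ρ 1 z at h3
    rw [hN', h3, h2]
  have hterm : ∀ z, (rtr (M * cj ρ N z) - rtr M * rtr N / Module.finrank ℂ V) ^ 2 ≤
      ‖⟪eH M, cjR ρ z (eH N')⟫_ℂ‖ ^ 2 := by
    intro z
    rw [cjR_apply, eH_inner, HSL.adjoint_symm M hM, hcjN', mul_sub, mul_smul_comm, mul_one,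
      map_sub, map_smul, smul_eq_mul]
    have h2 : rtr (M * cj ρ N z) - rtr M * rtr N / Module.finrank ℂ V =
        (LinearMap.trace ℂ V (M * cj ρ N z) - c * LinearMap.trace ℂ V M).re := by
      rw [Complex.sub_re, hc, Complex.re_ofReal_mul]
      unfold rtr
      ring
    rw [h2, ← sq_abs]
    exact pow_le_pow_left₀ (abs_nonneg _) (Complex.abs_re_le_norm _) 2
  have hhs : hs N' ≤ hs N := by
    have h2 : hs N' = hs N - (rtr N) ^ 2 / Module.finrank ℂ V := by
      have hN's : N'.IsSymmetric := by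
        intro v w
        rw [hN', LinearMap.sub_apply, LinearMap.sub_apply, inner_sub_left, inner_sub_right, hN v w,
          LinearMap.smul_apply, LinearMap.smul_apply, inner_smul_left, inner_smul_right, hc,
          Complex.conj_ofReal]
        rfl
      unfold hs
      rw [HSL.adjoint_symm N' hN's, HSL.adjoint_symm N hN]
      have h3 : N' * N' = N * N - c • N - c • N + (c * c) • 1 := by
        rw [hN', sub_mul, mul_sub, mul_sub, mul_smul_comm, smul_mul_assoc, smul_mul_assoc,
          mul_smul_comm, mul_one, one_mul, one_mul, smul_smul]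
        abel
      rw [h3]
      unfold rtr
      rw [map_add, map_sub, map_sub, map_smul, map_smul, LinearMap.trace_one, htrN, hc]
      simp only [smul_eq_mul, Complex.add_re, Complex.sub_re, ← Complex.ofReal_mul,
        ← Complex.ofReal_natCast, Complex.ofReal_re]
      field_simp
      ring
    rw [h2]
    have : 0 ≤ (rtr N) ^ 2 / Module.finrank ℂ V := by positivity
    linarith
  calc D * ∑ z : G, (rtr (M * cj ρ N z) - rtr M * rtr N / Module.finrank ℂ V) ^ 2
      ≤ D * ∑ z : G, ‖⟪eH M, cjR ρ z (eH N')⟫_ℂ‖ ^ 2 :=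
        mul_le_mul_of_nonneg_left (Finset.sum_le_sum fun z _ => hterm z) hD0
    _ ≤ Fintype.card G * hs M * hs N' := h1
    _ ≤ Fintype.card G * hs M * hs N :=
        mul_le_mul_of_nonneg_left hhs (mul_nonneg (Nat.cast_nonneg _) (hs_nonneg _))

end

end Run7.h107
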