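import Pool.Agent.Run7.h107.CORE

/-!
Choice of the parameters (helper107, MP_bc5a73_al).
-/

namespace Run7.h107
open RC14
open Finset

/-- choice of a depth and a branching number -/
lemma choose_par (X : ℝ) (hX : 1 ≤ X) (L : ℕ) (hL : 1 ≤ L) :
    ∃ L' q : ℕ, 1 ≤ L' ∧ L' ≤ L ∧ 2 ≤ q ∧ X ≤ (q : ℝ) ^ L' ∧ (q : ℝ) ^ L' ≤ 4 * X ^ 2 ∧
      (L' : ℝ) * q ≤ 2 * L * X ^ (1 / (L : ℝ)) ∧ (2 : ℝ) ^ L' ≤ 2 * X := by
  obtain ⟨K, hK1, hK2⟩ := exists_nat_pow_near hX (one_lt_two : (1 : ℝ) < 2)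
  have hL0 : (0 : ℝ) < L := by exact_mod_cast hL
  have hX1 : 1 ≤ X ^ (1 / (L : ℝ)) := Real.one_le_rpow hX (by positivity)
  have hKX : (2 : ℝ) ^ (K + 1) ≤ 2 * X := by rw [pow_succ]; linarith
  by_cases h : K + 1 ≤ L
  · refine ⟨K + 1, 2, by omega, h, le_rfl, ?_, ?_, ?_, hKX⟩
    · exact_mod_cast hK2.le
    · push_cast
      nlinarith
    · have h1 : ((K + 1 : ℕ) : ℝ) ≤ L := by exact_mod_cast h
      push_cast at h1 ⊢
      nlinarith
  · push Not at h
    have h2 : (2 : ℝ) ^ L ≤ X := (pow_le_pow_right₀ one_le_two (by omega)).trans hK1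
    set y : ℝ := X ^ (1 / (L : ℝ)) with hy
    have hyL : y ^ L = X := by
      rw [hy, ← Real.rpow_natCast, ← Real.rpow_mul (by linarith), one_div,
        inv_mul_cancel₀ hL0.ne', Real.rpow_one]
    have hy2 : 2 ≤ y := by
      by_contra hc
      push Not at hc
      have : y ^ L < 2 ^ L := pow_lt_pow_left₀ hc (by linarith) (by omega)
      linarith
    have hc1 : y ≤ (⌈y⌉₊ : ℝ) := Nat.le_ceil y
    have hc2 : (⌈y⌉₊ : ℝ) ≤ 2 * y := by
      have := Nat.ceil_lt_add_one (by linarith : 0 ≤ y)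
      linarith
    refine ⟨L, ⌈y⌉₊, hL, le_rfl, ?_, ?_, ?_, ?_, ?_⟩
    · exact_mod_cast hy2.trans hc1
    · rw [← hyL]
      exact pow_le_pow_left₀ (by linarith) hc1 L
    · calc ((⌈y⌉₊ : ℕ) : ℝ) ^ L ≤ (2 * y) ^ L := pow_le_pow_left₀ (Nat.cast_nonneg _) hc2 L
        _ = 2 ^ L * X := by rw [mul_pow, hyL]
        _ ≤ X * X := mul_le_mul_of_nonneg_right h2 (by linarith)
        _ ≤ 4 * X ^ 2 := by nlinarith
    · nlinarith
    · linarith

/-- the numerical condition on the first phase -/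
lemma hB_num {Λ : ℝ} (hΛ : 10 ≤ Λ) (L q : ℕ) (hL : 1 ≤ L) (hq : 2 ≤ q)
    (h1 : (q : ℝ) ^ L ≤ 400 * Λ ^ 2) (h2 : (2 : ℝ) ^ L ≤ 20 * Λ) :
    Real.exp (62 / 100 * Λ) + Real.exp Λ *
          (100 / Real.exp (8 * Λ) + 80000 * L * q * Real.exp (2 * Λ) /
            (Real.exp (8 * Λ) * (Λ / (q : ℝ) ^ L) ^ 2)) ≤
      Real.exp (65 / 100 * Λ) := by
  have hΛ0 : 0 < Λ := by linarith
  have hq1 : (1 : ℝ) ≤ q := by exact_mod_cast (by omega : 1 ≤ q)
  have hqL0 : 0 < (q : ℝ) ^ L := by positivity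
  have hqq : (q : ℝ) ≤ (q : ℝ) ^ L := by
    calc (q : ℝ) = (q : ℝ) ^ 1 := (pow_one _).symm
      _ ≤ _ := pow_le_pow_right₀ hq1 hL
  have hLL : (L : ℝ) ≤ 2 ^ L := by
    exact_mod_cast Nat.lt_two_pow_self.le
  have hL20 : (L : ℝ) ≤ 20 * Λ := hLL.trans h2
  -- e^{40} is large
  have he1 : (27 / 10 : ℝ) ≤ Real.exp 1 := by
    have := Real.exp_one_gt_d9
    linarith
  have he40 : (3 * 10 ^ 16 : ℝ) ≤ Real.exp 40 := by
    have h3 : Real.exp 40 = Real.exp 1 ^ 40 := by
      rw [← Real.exp_nat_mul]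
      norm_num
    rw [h3]
    calc (3 * 10 ^ 16 : ℝ) ≤ (27 / 10 : ℝ) ^ 40 := by norm_num
      _ ≤ _ := pow_le_pow_left₀ (by norm_num) he1 40
  have he4 : (3 * 10 ^ 16 : ℝ) ≤ Real.exp (4 * Λ) :=
    he40.trans (Real.exp_le_exp.2 (by linarith))
  have he7 : (3 * 10 ^ 16 : ℝ) ≤ Real.exp (7 * Λ) :=
    he40.trans (Real.exp_le_exp.2 (by linarith))
  have hpow : Λ ^ 5 ≤ 120 * Real.exp Λ := by
    have := Real.pow_div_factorial_le_exp (x := Λ) hΛ0.le 5
    rw [div_le_iff₀ (by positivity)] at this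
    norm_num [Nat.factorial] at this
    linarith
  have hA : Real.exp Λ * (100 / Real.exp (8 * Λ)) ≤ 1 / 2 := by
    have h3 : Real.exp (8 * Λ) = Real.exp Λ * Real.exp (7 * Λ) := by
      rw [← Real.exp_add]; congr 1; ring
    rw [h3]
    have h4 : Real.exp Λ * (100 / (Real.exp Λ * Real.exp (7 * Λ))) = 100 / Real.exp (7 * Λ) := by
      have := (Real.exp_pos Λ).ne'
      field_simp
    rw [h4, div_le_iff₀ (Real.exp_pos _)]
    linarith
  have hC : Real.exp Λ * (80000 * L * q * Real.exp (2 * Λ) /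
            (Real.exp (8 * Λ) * (Λ / (q : ℝ) ^ L) ^ 2)) ≤ 1 / 2 := by
    have h3 : Real.exp (8 * Λ) = Real.exp Λ * Real.exp (2 * Λ) * Real.exp Λ * Real.exp (4 * Λ) := by
      rw [← Real.exp_add, ← Real.exp_add, ← Real.exp_add]; congr 1; ring
    rw [h3]
    have h4 : Real.exp Λ * (80000 * L * q * Real.exp (2 * Λ) /
            (Real.exp Λ * Real.exp (2 * Λ) * Real.exp Λ * Real.exp (4 * Λ) *
              (Λ / (q : ℝ) ^ L) ^ 2)) =
        80000 * L * q * ((q : ℝ) ^ L) ^ 2 / (Real.exp Λ * Real.exp (4 * Λ) * Λ ^ 2) := by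
      have e1 := (Real.exp_pos Λ).ne'
      have e2 := (Real.exp_pos (2 * Λ)).ne'
      have e3 := (Real.exp_pos (4 * Λ)).ne'
      field_simp
    rw [h4, div_le_iff₀ (by positivity)]
    calc 80000 * (L : ℝ) * q * ((q : ℝ) ^ L) ^ 2
        ≤ 80000 * (20 * Λ) * (400 * Λ ^ 2) * (400 * Λ ^ 2) ^ 2 := by
          have h5 : (q : ℝ) ≤ 400 * Λ ^ 2 := hqq.trans h1
          gcongr
      _ = 1024 * 10 ^ 11 * (Λ ^ 5 * Λ ^ 2) := by ring
      _ ≤ 1024 * 10 ^ 11 * ((120 * Real.exp Λ) * Λ ^ 2) := by gcongr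
      _ = (122880 * 10 ^ 11) * (Real.exp Λ * Λ ^ 2) := by ring
      _ ≤ (1 / 2 * Real.exp (4 * Λ)) * (Real.exp Λ * Λ ^ 2) := by
          refine mul_le_mul_of_nonneg_right ?_ (by positivity)
          linarith
      _ = _ := by ring
  have hD : Real.exp (62 / 100 * Λ) + 1 ≤ Real.exp (65 / 100 * Λ) := by
    have h3 : Real.exp (65 / 100 * Λ) = Real.exp (62 / 100 * Λ) * Real.exp (3 / 100 * Λ) := by
      rw [← Real.exp_add]; congr 1; ring
    rw [h3]
    have h4 := Real.add_one_le_exp (62 / 100 * Λ)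
    have h5 := Real.add_one_le_exp (3 / 100 * Λ)
    have h6 : 0 < Real.exp (62 / 100 * Λ) := Real.exp_pos _
    nlinarith
  rw [mul_add]
  linarith

lemma VE_mono {G : Type} [Group G] {m : ℕ} {x : Fin m → G} {ε ε' : ℝ} (h : VE G x ε)
    (hle : ε' ≤ ε) : VE G x ε' := fun A hA =>
  (mul_le_mul_of_nonneg_right hle (Nat.cast_nonneg _)).trans (h A hA)

/-- the general bound with explicit parameters -/
theorem NUM {G : Type} [Group G] [Fintype G] {D : ℝ} (hD : QRd G D)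
    (hD0 : Real.exp 80 ≤ D) (hN : Real.log (Fintype.card G) ≤ D ^ 4) (L : ℕ) (hL : 1 ≤ L)
    (m : ℕ) (hm : 100000 * L * ((1 + Real.log (Nat.card (ConjClasses G)) / Real.log D) *
        (Real.log D) ^ (1 / (L : ℝ)) +
        (Real.log (Fintype.card G) / Real.log D) ^ (1 / (L : ℝ))) ≤ m) :
    (Nat.card {x : Fin m → G // ¬ VE G x (1 / (1000 * L))} : ℝ) ≤
      1 / D * (Fintype.card G : ℝ) ^ m := by
  have hDpos : 0 < D := (Real.exp_pos _).trans_le hD0
  set ℓ : ℝ := Real.log D with hℓ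
  have hℓ80 : 80 ≤ ℓ := by
    rw [hℓ, ← Real.log_exp 80]
    exact Real.log_le_log (Real.exp_pos _) hD0
  have hDexp : D = Real.exp ℓ := (Real.exp_log hDpos).symm
  set Λ : ℝ := ℓ / 8 with hΛ
  have hΛ10 : 10 ≤ Λ := by linarith
  have hL0 : (0 : ℝ) < L := by exact_mod_cast hL
  have hL1 : (1 : ℝ) ≤ L := by exact_mod_cast hL
  set N : ℝ := (Fintype.card G : ℝ) with hNdef
  have hN1 : 1 ≤ N := by rw [hNdef]; exact_mod_cast Fintype.card_pos
  have hlogN : 0 ≤ Real.log N := Real.log_nonneg hN1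
  set k : ℝ := ((Nat.card (ConjClasses G) : ℕ) : ℝ) with hk
  have hk1 : 1 ≤ k := by
    rw [hk]
    have : 0 < Nat.card (ConjClasses G) := Nat.card_pos
    exact_mod_cast this
  have hlogk : 0 ≤ Real.log k := Real.log_nonneg hk1
  -- phase one
  obtain ⟨L', q, hL'1, hL'L, hq2, hq3, hq4, hq5, hq6⟩ :=
    choose_par (10 * Λ) (by linarith) L hL
  -- phase two
  have hX : 1 ≤ 1 + Real.log N / ℓ := by
    have : 0 ≤ Real.log N / ℓ := by positivity
    linarith
  obtain ⟨R, p, hR1, hRL, hp2, hp3, -, hp5, hp6⟩ := choose_par (1 + Real.log N / ℓ) hX L hL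
  set t : ℕ := ⌈2560 * (Real.log k + 6 * ℓ) / ℓ⌉₊ with ht
  have ht1 : 2560 * (Real.log k + 6 * ℓ) / ℓ ≤ t := Nat.le_ceil _
  have ht2 : (t : ℝ) ≤ 2560 * (Real.log k + 6 * ℓ) / ℓ + 1 :=
    (Nat.ceil_lt_add_one (by positivity)).le
  have hΛt : 320 * (Real.log k + 6 * ℓ) ≤ Λ * t := by
    have h1 := mul_le_mul_of_nonneg_left ht1 (by linarith : 0 ≤ Λ)
    have h2 : Λ * (2560 * (Real.log k + 6 * ℓ) / ℓ) = 320 * (Real.log k + 6 * ℓ) := by
      rw [hΛ]
      field_simp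
      ring
    linarith
  have ht0 : 1 ≤ t := by
    by_contra hc
    push Not at hc
    have : t = 0 := by omega
    rw [this] at hΛt
    push_cast at hΛt
    linarith
  have hqL : 0 < (q : ℝ) ^ L' := by
    have : (0 : ℝ) < q := by exact_mod_cast (by omega : 0 < q)
    positivity
  set l : ℝ := Λ / (q : ℝ) ^ L' with hl
  have hlq : l * (q : ℝ) ^ L' = Λ := by rw [hl]; field_simp
  have hl0 : 0 < l := by rw [hl]; positivity
  have hl1 : l ≤ 1 / 10 := by
    rw [hl, div_le_iff₀ hqL]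
    linarith
  have hDΛ : D = Real.exp (8 * Λ) := by rw [hDexp, hΛ]; congr 1; ring
  have hcore := CORE hD hDpos hl0 hl1 hq2 L' (by
      rw [hlq, hDΛ, hl]
      refine hB_num hΛ10 L' q hL'1 hq2 (hq4.trans (le_of_eq ?_)) (hq6.trans (le_of_eq ?_))
      · ring
      · ring) ht0 (by rw [hlq]; linarith) hp2 R (by
      rw [hlq, ← hNdef]
      have h1 : Real.log N < Λ * t * (p : ℝ) ^ R / 160 := by
        have h2 : 320 * (6 * ℓ) ≤ Λ * t := by linarith
        have h3 : (320 * (6 * ℓ)) * (1 + Real.log N / ℓ) ≤ Λ * t * (p : ℝ) ^ R :=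
          mul_le_mul h2 hp3 (by linarith) (by positivity)
        have h4 : (320 * (6 * ℓ)) * (1 + Real.log N / ℓ) = 1920 * ℓ + 1920 * Real.log N := by
          field_simp
          ring
        rw [lt_div_iff₀ (by norm_num)]
        linarith
      calc N = Real.exp (Real.log N) := (Real.exp_log (by linarith)).symm
        _ < _ := Real.exp_lt_exp.2 h1) m (by
      -- the number of letters
      have h1 : (L' : ℝ) * q ≤ 5 / 2 * (L * ℓ ^ (1 / (L : ℝ))) := by
        refine hq5.trans ?_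
        have h2 : (10 * Λ) ^ (1 / (L : ℝ)) ≤ 5 / 4 * ℓ ^ (1 / (L : ℝ)) := by
          have h3 : 10 * Λ = 5 / 4 * ℓ := by rw [hΛ]; ring
          rw [h3, Real.mul_rpow (by norm_num) (by linarith)]
          refine mul_le_mul_of_nonneg_right ?_ (by positivity)
          calc (5 / 4 : ℝ) ^ (1 / (L : ℝ)) ≤ (5 / 4 : ℝ) ^ (1 : ℝ) :=
                Real.rpow_le_rpow_of_exponent_le (by norm_num) (by
                  rw [div_le_one hL0]; exact hL1)
            _ = _ := Real.rpow_one _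
        have h4 : 2 * (L : ℝ) * (10 * Λ) ^ (1 / (L : ℝ)) ≤
            2 * (L : ℝ) * (5 / 4 * ℓ ^ (1 / (L : ℝ))) :=
          mul_le_mul_of_nonneg_left h2 (by positivity)
        linarith
      have h2 : 1 ≤ ℓ ^ (1 / (L : ℝ)) := Real.one_le_rpow (by linarith) (by positivity)
      have h3 : (L' : ℝ) * q + 2 ≤ 9 / 2 * (L * ℓ ^ (1 / (L : ℝ))) := by nlinarith
      have h4 : (t : ℝ) ≤ 15361 * (1 + Real.log k / ℓ) := by
        refine ht2.trans ?_
        have h5 : 2560 * (Real.log k + 6 * ℓ) / ℓ = 2560 * (Real.log k / ℓ) + 15360 := by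
          field_simp
          ring
        have h6 : 0 ≤ Real.log k / ℓ := by positivity
        rw [h5]
        linarith
      have h5 : (t : ℝ) * (L' * q + 2) ≤
          (15361 * (1 + Real.log k / ℓ)) * (9 / 2 * (L * ℓ ^ (1 / (L : ℝ)))) := by
        have : 0 ≤ Real.log k / ℓ := by positivity
        exact mul_le_mul h4 h3 (by positivity) (by positivity)
      have h6 : (R : ℝ) * p ≤ 2 * L * (1 + (Real.log N / ℓ) ^ (1 / (L : ℝ))) := by
        refine hp5.trans ?_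
        refine mul_le_mul_of_nonneg_left ?_ (by positivity)
        have h7 : 0 ≤ Real.log N / ℓ := by positivity
        have h8 := NNReal.rpow_add_le_add_rpow (1 : NNReal) ⟨Real.log N / ℓ, h7⟩
          (by positivity : 0 ≤ 1 / (L : ℝ)) (by rw [div_le_one hL0]; exact hL1)
        rw [NNReal.one_rpow] at h8
        exact_mod_cast h8
      have h7 : ((t * (L' * q + 2) + R * p : ℕ) : ℝ) ≤ m := by
        push_cast
        have h8 : 0 ≤ (Real.log N / ℓ) ^ (1 / (L : ℝ)) := by positivity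
        have h9 : 0 ≤ Real.log k / ℓ := by positivity
        have h10 : 2 * (L : ℝ) ≤ 2 * ((1 + Real.log k / ℓ) * (L * ℓ ^ (1 / (L : ℝ)))) := by
          have : 1 * ((L : ℝ) * 1) ≤ (1 + Real.log k / ℓ) * (L * ℓ ^ (1 / (L : ℝ))) := by
            refine mul_le_mul (by linarith) ?_ (by positivity) (by linarith)
            exact mul_le_mul_of_nonneg_left h2 hL0.le
          linarith
        set P : ℝ := (1 + Real.log k / ℓ) * (L * ℓ ^ (1 / (L : ℝ))) with hP
        have hP0 : 0 ≤ P := by rw [hP]; positivity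
        have h11 : 15361 * (1 + Real.log k / ℓ) * (9 / 2 * (L * ℓ ^ (1 / (L : ℝ)))) =
            (15361 * (9 / 2)) * P := by rw [hP]; ring
        have h12 : 100000 * (L : ℝ) * ((1 + Real.log k / ℓ) * ℓ ^ (1 / (L : ℝ)) +
            (Real.log N / ℓ) ^ (1 / (L : ℝ))) =
            100000 * P + 100000 * (L * (Real.log N / ℓ) ^ (1 / (L : ℝ))) := by rw [hP]; ring
        rw [h12] at hm
        rw [h11] at h5
        have h13 : 0 ≤ (L : ℝ) * (Real.log N / ℓ) ^ (1 / (L : ℝ)) := by positivity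
        linarith
      exact_mod_cast h7)
  rw [hlq] at hcore
  -- monotonicity in the expansion constant
  have hmono : (Nat.card {x : Fin m → G // ¬ VE G x (1 / (1000 * L))} : ℝ) ≤
      (Nat.card {x : Fin m → G // ¬ VE G x (1 / (144 + 768 * L' + 40 * R))} : ℝ) := by
    refine Nat.cast_le.mpr (card_mono _ _ fun x hx hcon => hx (VE_mono hcon ?_))
    refine one_div_le_one_div_of_le (by positivity) ?_
    have h1 : (L' : ℝ) ≤ L := by exact_mod_cast hL'L
    have h2 : (R : ℝ) ≤ L := by exact_mod_cast hRL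
    linarith
  refine hmono.trans (hcore.trans ?_)
  refine mul_le_mul_of_nonneg_right ?_ (by positivity)
  -- the failure probability
  have hp' : (2 : ℝ) ≤ p := by exact_mod_cast hp2
  have hΛt0 : 0 ≤ Λ * t := by positivity
  have h1 : Real.exp (-(Λ * t / 20)) ≤ Real.exp (-(Λ * t / 320)) :=
    Real.exp_le_exp.2 (by linarith)
  have h2 : Real.exp (-(Λ * t * p / 640)) ≤ Real.exp (-(Λ * t / 320)) :=
    Real.exp_le_exp.2 (by nlinarith)
  have h3 : Real.exp (-(Λ * t / 20)) + R * Real.exp (-(Λ * t * p / 640)) ≤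
      (1 + R) * Real.exp (-(Λ * t / 320)) := by
    have h4 : (R : ℝ) * Real.exp (-(Λ * t * p / 640)) ≤ R * Real.exp (-(Λ * t / 320)) :=
      mul_le_mul_of_nonneg_left h2 (Nat.cast_nonneg _)
    linarith
  have h4 : Real.exp (-(Λ * t / 320)) ≤ 1 / (k * D ^ 6) := by
    have h5 : Real.exp (-(Λ * t / 320)) ≤ Real.exp (-(Real.log k + 6 * ℓ)) :=
      Real.exp_le_exp.2 (by linarith)
    refine h5.trans (le_of_eq ?_)
    rw [Real.exp_neg, Real.exp_add, Real.exp_log (by linarith), one_div, hDexp,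
      ← Real.exp_nat_mul]
    norm_num
  have h5 : (1 : ℝ) + R ≤ 2 * (1 + D ^ 4) := by
    have h6 : (1 : ℝ) + R ≤ 2 ^ R := by
      have : R + 1 ≤ 2 ^ R := Nat.lt_two_pow_self
      have h7 : ((R + 1 : ℕ) : ℝ) ≤ ((2 ^ R : ℕ) : ℝ) := by exact_mod_cast this
      push_cast at h7
      linarith
    refine h6.trans (hp6.trans ?_)
    have h7 : Real.log N / ℓ ≤ Real.log N := div_le_self hlogN (by linarith)
    linarith
  have hD2 : 2 ≤ D := by
    have := Real.add_one_le_exp (80 : ℝ)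
    linarith
  calc k * (Real.exp (-(Λ * t / 20)) + R * Real.exp (-(Λ * t * p / 640)))
      ≤ k * ((1 + R) * Real.exp (-(Λ * t / 320))) := mul_le_mul_of_nonneg_left h3 (by linarith)
    _ ≤ k * ((2 * (1 + D ^ 4)) * (1 / (k * D ^ 6))) := by
        refine mul_le_mul_of_nonneg_left ?_ (by linarith)
        exact mul_le_mul h5 h4 (Real.exp_pos _).le (by positivity)
    _ = 2 * (1 + D ^ 4) / D ^ 6 := by
        have : k ≠ 0 := by linarith
        field_simp
    _ ≤ 1 / D := by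
        rw [div_le_div_iff₀ (by positivity) hDpos]
        have h6 : 1 ≤ D ^ 4 := one_le_pow₀ (by linarith)
        have h9 : (4 : ℝ) ≤ D := by
          have := Real.add_one_le_exp (80 : ℝ)
          linarith
        have h10 : 0 ≤ D ^ 5 := by positivity
        have h11 := mul_le_mul_of_nonneg_right h9 h10
        have h12 : D * D ^ 5 = D ^ 6 := by ring
        have h13 : 2 * (1 + D ^ 4) * D ≤ 4 * D ^ 4 * D :=
          mul_le_mul_of_nonneg_right (by linarith) hDpos.le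
        have h14 : 4 * D ^ 4 * D = 4 * D ^ 5 := by ring
        linarith

end Run7.h107
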