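import Pool.Agent.Run7.h107.FINX
import Pool.Agent.Run7.h107.FIN

/-!
Choice of the parameters for absolute expansion with `O(log log |G|)` letters
(helper107, MP_bc5a73_al).
-/

namespace Run7.h107
open RC14
open Finset

/-- the expansion constant `κ = 10⁻⁵` -/
lemma kappa_num {n1 J : ℕ} (h1 : 100 ≤ n1) (hJ1 : n1 ≤ J) (hJ : J ≤ 12129 * n1) :
    (1 / 4 : ℝ) ^ J + (3 / 4) ^ n1 + Real.sqrt (3 * (1 / 2) ^ n1) ≤ (1 - 1 / 100000) ^ J := by
  have e1 : (1 / 4 : ℝ) ^ J ≤ (3 / 4) ^ n1 := by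
    calc (1 / 4 : ℝ) ^ J ≤ (1 / 4) ^ n1 := pow_le_pow_of_le_one (by norm_num) (by norm_num) hJ1
      _ ≤ _ := pow_le_pow_left₀ (by norm_num) (by norm_num) n1
  have e2 : Real.sqrt (3 * (1 / 2 : ℝ) ^ n1) ≤ (3 / 4) ^ n1 := by
    rw [Real.sqrt_le_left (by positivity), ← pow_mul, mul_comm n1 2, pow_mul]
    have h3 : (3 : ℝ) ≤ (9 / 8) ^ n1 := by
      calc (3 : ℝ) ≤ (9 / 8) ^ 10 := by norm_num
        _ ≤ _ := pow_le_pow_right₀ (by norm_num) (by omega)
    have h4 : ((3 / 4 : ℝ) ^ 2) ^ n1 = (9 / 8) ^ n1 * (1 / 2) ^ n1 := by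
      rw [← mul_pow]
      norm_num
    rw [h4]
    exact mul_le_mul_of_nonneg_right h3 (by positivity)
  have e3 : (3 : ℝ) * (3 / 4) ^ n1 ≤ (7 / 8) ^ n1 := by
    have h3 : (3 : ℝ) ≤ (7 / 6) ^ n1 := by
      calc (3 : ℝ) ≤ (7 / 6) ^ 10 := by norm_num
        _ ≤ _ := pow_le_pow_right₀ (by norm_num) (by omega)
    have h4 : (7 / 8 : ℝ) ^ n1 = (7 / 6) ^ n1 * (3 / 4) ^ n1 := by
      rw [← mul_pow]
      norm_num
    rw [h4]
    exact mul_le_mul_of_nonneg_right h3 (by positivity)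
  have e4 : (7 / 8 : ℝ) ^ n1 ≤ (1 - 1 / 100000) ^ J := by
    have h3 : (7 / 8 : ℝ) ≤ (1 - 1 / 100000) ^ 12129 := by
      have := one_add_mul_le_pow (a := (-(1 / 100000) : ℝ)) (by norm_num) 12129
      have h4 : (1 : ℝ) + -(1 / 100000) = 1 - 1 / 100000 := by ring
      rw [h4] at this
      refine le_trans ?_ this
      norm_num
    calc (7 / 8 : ℝ) ^ n1 ≤ ((1 - 1 / 100000) ^ 12129) ^ n1 :=
          pow_le_pow_left₀ (by norm_num) h3 n1
      _ = (1 - 1 / 100000 : ℝ) ^ (12129 * n1) := by rw [← pow_mul]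
      _ ≤ _ := pow_le_pow_of_le_one (by norm_num) (by norm_num) hJ
  linarith

/-- powers against exponentials -/
lemma pow6_num {y : ℝ} (hy : 10 ^ 20 ≤ y) : 9 * 43008 ^ 3 * 4096 * (y / 8) ^ 6 ≤ Real.exp y := by
  have hy0 : 0 < y := by linarith
  have := Real.pow_div_factorial_le_exp (x := y) hy0.le 7
  refine le_trans ?_ this
  rw [le_div_iff₀ (by positivity)]
  have h1 : (7 : ℕ).factorial = 5040 := by norm_num [Nat.factorial]
  rw [h1]
  have h2 : (y / 8) ^ 6 = y ^ 6 / 262144 := by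
    rw [div_pow]
    norm_num
  rw [h2]
  have h3 : y ^ 7 = y * y ^ 6 := by ring
  rw [h3]
  have h4 : (9 * 43008 ^ 3 * 4096 * (y ^ 6 / 262144) * ((5040 : ℕ) : ℝ)) =
      (9 * 43008 ^ 3 * 4096 / 262144 * 5040) * y ^ 6 := by push_cast; ring
  rw [h4]
  refine mul_le_mul_of_nonneg_right ?_ (by positivity)
  refine le_trans ?_ hy
  norm_num

/-- absolute expansion, first case -/
theorem NUMX1 {G : Type} [Group G] [Fintype G] {D : ℝ} (hQ : QRd G D)
    (hD0 : Real.exp (2 ^ 200000) ≤ D) (hN : Real.log (Fintype.card G) ≤ D ^ 4)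
    (hDN : Real.log D ≤ Real.log (Fintype.card G))
    (hC : Real.log (Nat.card (ConjClasses G)) / Real.log D ≤ Real.exp (Real.log D / 32))
    (m : ℕ) (hm : 10 ^ 10 * (1 + Real.log (Nat.card (ConjClasses G)) / Real.log D) *
        Real.log (Real.log (Fintype.card G)) ≤ m) :
    (Nat.card {x : Fin m → G // ¬ VE G x (1 / 200000)} : ℝ) ≤
      1 / D * (Fintype.card G : ℝ) ^ m := by
  have hDpos : 0 < D := (Real.exp_pos _).trans_le hD0
  set ℓ : ℝ := Real.log D with hℓ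
  have hℓbig : (2 : ℝ) ^ 200000 ≤ ℓ := by
    rw [hℓ, ← Real.log_exp (2 ^ 200000)]
    exact Real.log_le_log (Real.exp_pos _) hD0
  have hℓ100 : (2 : ℝ) ^ 100 ≤ ℓ :=
    (pow_le_pow_right₀ (by norm_num) (by norm_num : 100 ≤ 200000)).trans hℓbig
  have hℓ20 : (10 : ℝ) ^ 22 ≤ ℓ := le_trans (by norm_num) hℓ100
  have hℓ1 : (10 ^ 6 : ℝ) ≤ ℓ := le_trans (by norm_num) hℓ20
  have hbig : ∀ a : ℕ, ℓ < 2 ^ a → 200000 ≤ a := by
    intro a h
    by_contra hc
    push Not at hc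
    have h1 : (2 : ℝ) ^ a ≤ 2 ^ 200000 := pow_le_pow_right₀ (by norm_num) hc.le
    exact absurd (h.trans_le (h1.trans hℓbig)) (lt_irrefl _)
  clear hℓbig hℓ100 hD0
  have hDexp : D = Real.exp ℓ := (Real.exp_log hDpos).symm
  set Λ : ℝ := Real.log (Fintype.card G) with hΛ
  have hΛ1 : 1 ≤ Λ := by linarith
  set k : ℝ := ((Nat.card (ConjClasses G) : ℕ) : ℝ) with hk
  have hk1 : 1 ≤ k := by
    rw [hk]
    have : 0 < Nat.card (ConjClasses G) := Nat.card_pos
    exact_mod_cast this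
  have hlogk : 0 ≤ Real.log k := Real.log_nonneg hk1
  set C0 : ℝ := Real.log k / ℓ with hC0
  have hC00 : 0 ≤ C0 := by positivity
  -- n0
  obtain ⟨n0, hn01, hn02⟩ := exists_nat_pow_near (by linarith : (1 : ℝ) ≤ ℓ / 64)
    (one_lt_two : (1 : ℝ) < 2)
  -- n2
  obtain ⟨a, ha1, ha2⟩ := exists_nat_pow_near hΛ1 (one_lt_two : (1 : ℝ) < 2)
  set n2 : ℕ := a + 1 with hn2
  set n1 : ℕ := n2 / 1000 with hn1
  have hn0a : n0 ≤ a := by
    by_contra hc
    push Not at hc
    have h1 : (2 : ℝ) ^ (a + 1) ≤ 2 ^ n0 := pow_le_pow_right₀ (by norm_num) (by omega)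
    have h2 : ℓ / 64 ≤ Λ := by linarith
    linarith
  have ha200 : 200000 ≤ a + 1 := hbig (a + 1) (hDN.trans_lt ha2)
  have hn1100 : 100 ≤ n1 := by omega
  have ha100 : 100 ≤ a := by omega
  clear ha200 hbig
  set s : ℕ := n0 + n1 + 2 with hs
  -- K
  set K : ℕ := ⌈4 * (C0 + 4)⌉₊ with hK
  have hK1 : 4 * (C0 + 4) ≤ K := Nat.le_ceil _
  have hK2 : (K : ℝ) ≤ 4 * (C0 + 4) + 1 := (Nat.ceil_lt_add_one (by positivity)).le
  have hK0 : 1 ≤ K := by
    have : (0 : ℝ) < K := by linarith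
    exact_mod_cast this
  -- the parameters are admissible
  have h2n1 : (2 : ℝ) ^ n1 ≤ Real.exp (ℓ / 200) := by
    have h1 : ((2 : ℝ) ^ n1) ^ 1000 ≤ (Real.exp (ℓ / 200)) ^ 1000 := by
      rw [← pow_mul, ← Real.exp_nat_mul]
      have e1 : (2 : ℝ) ^ (n1 * 1000) ≤ 2 ^ n2 := pow_le_pow_right₀ (by norm_num) (by omega)
      have e2 : (2 : ℝ) ^ n2 ≤ 2 * Λ := by rw [hn2, pow_succ]; linarith
      have e3 : 2 * Λ ≤ Real.exp ((1000 : ℕ) * (ℓ / 200)) := by
        have e4 : Real.exp ((1000 : ℕ) * (ℓ / 200)) = D * D ^ 4 := by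
          rw [hDexp, ← Real.exp_nat_mul, ← Real.exp_add]
          congr 1
          push_cast
          ring
        rw [e4]
        have e5 : (2 : ℝ) ≤ D := by
          rw [hDexp]
          linarith [Real.add_one_le_exp ℓ]
        have e6 : 0 ≤ D ^ 4 := by positivity
        nlinarith
      linarith
    by_contra hc
    push Not at hc
    have := pow_lt_pow_left₀ hc (Real.exp_pos _).le (by norm_num : (1000 : ℕ) ≠ 0)
    linarith
  have hP : PP D s n0 n1 n2 K := by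
    refine ⟨?_, hK0, le_refl _, by linarith, ?_, ?_, by omega, by omega⟩
    · rw [hDexp]
      exact Real.one_lt_exp_iff.2 (by linarith)
    · rw [pow_succ] at hn02
      linarith
    · have hq : ((4 * K * 512 : ℕ) : ℝ) ≤ 43008 * Real.exp (ℓ / 32) := by
        push_cast
        have h1 : (1 : ℝ) ≤ Real.exp (ℓ / 32) := Real.one_le_exp (by positivity)
        have h2 : (K : ℝ) ≤ 21 * Real.exp (ℓ / 32) := by
          have : 4 * (C0 + 4) + 1 ≤ 21 * Real.exp (ℓ / 32) := by linarith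
          linarith
        linarith
      have h64s : (64 : ℝ) ^ s ≤ 4096 * (ℓ / 64) ^ 6 * Real.exp (ℓ / 32) := by
        have e1 : (64 : ℝ) ^ s = 4096 * (2 ^ n0) ^ 6 * (2 ^ n1) ^ 6 := by
          rw [hs, pow_add, pow_add, ← pow_mul, ← pow_mul, mul_comm n0 6, mul_comm n1 6, pow_mul,
            pow_mul]
          norm_num
          ring
        rw [e1]
        have e2 : ((2 : ℝ) ^ n0) ^ 6 ≤ (ℓ / 64) ^ 6 := pow_le_pow_left₀ (by positivity) hn01 6
        have e3 : ((2 : ℝ) ^ n1) ^ 6 ≤ Real.exp (ℓ / 32) := by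
          calc ((2 : ℝ) ^ n1) ^ 6 ≤ (Real.exp (ℓ / 200)) ^ 6 :=
                pow_le_pow_left₀ (by positivity) h2n1 6
            _ = Real.exp (6 * (ℓ / 200)) := by rw [← Real.exp_nat_mul]; norm_num
            _ ≤ _ := Real.exp_le_exp.2 (by linarith)
        gcongr
      calc 9 * ((4 * K * 512 : ℕ) : ℝ) ^ 3 * 64 ^ s
          ≤ 9 * (43008 * Real.exp (ℓ / 32)) ^ 3 * (4096 * (ℓ / 64) ^ 6 * Real.exp (ℓ / 32)) := by
            gcongr
        _ = (9 * 43008 ^ 3 * 4096 * (ℓ / 8 / 8) ^ 6) *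
              (Real.exp (ℓ / 32) ^ 3 * Real.exp (ℓ / 32)) := by
            have : ℓ / 8 / 8 = ℓ / 64 := by ring
            rw [this]
            ring
        _ ≤ Real.exp (ℓ / 8) * (Real.exp (ℓ / 32) ^ 3 * Real.exp (ℓ / 32)) := by
            refine mul_le_mul_of_nonneg_right (pow6_num ?_) (by positivity)
            linarith
        _ = Real.exp (ℓ / 4) := by
            rw [← Real.exp_nat_mul, ← Real.exp_add, ← Real.exp_add]
            congr 1
            push_cast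
            ring
  -- j
  have hXpos : (1 : ℝ) ≤ ((2 * (s + (n0 + n1) + n2) : ℕ) : ℝ) := by
    have : 1 ≤ 2 * (s + (n0 + n1) + n2) := by omega
    exact_mod_cast this
  obtain ⟨j', hj1, hj2⟩ := exists_nat_pow_near hXpos (one_lt_two : (1 : ℝ) < 2)
  have hj1' : 2 ^ j' ≤ 2 * (s + (n0 + n1) + n2) := by exact_mod_cast hj1
  have hj2' : 2 * (s + (n0 + n1) + n2) < 2 ^ (j' + 1) := by exact_mod_cast hj2
  have hjs : 2 ^ (j' + 1) = 2 * 2 ^ j' := by rw [pow_succ]; ring
  have hj3 : 2 ≤ j' + 1 := by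
    by_contra hc
    push Not at hc
    have : j' = 0 := by omega
    rw [this] at hj2'
    omega
  set J : ℕ := 2 ^ (j' + 1) with hJ
  have hJ1 : n1 ≤ J := by omega
  have hJ2 : J ≤ 12129 * n1 := by omega
  have hJ3 : J ≤ 24 * n2 := by omega
  -- the theorem
  have hmain := MAINX hQ hP (by
      -- log |G| ≤ q^n2 log D
      rw [← hΛ, ← hℓ]
      have h1 : (2 : ℝ) ^ n2 ≤ ((4 * K * 512 : ℕ) : ℝ) ^ n2 := by
        refine pow_le_pow_left₀ (by norm_num) ?_ n2
        have : 2 ≤ 4 * K * 512 := by omega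
        exact_mod_cast this
      have h2 : (0 : ℝ) ≤ ((4 * K * 512 : ℕ) : ℝ) ^ n2 := by positivity
      nlinarith) (j' + 1) hj3 hj2'.le (t := (3 / 4) ^ n1) (κ := 1 / 100000) (by positivity)
      (by norm_num) (by norm_num) (kappa_num hn1100 hJ1 hJ2) m (by
      -- number of letters
      have hloglog : (a : ℝ) ≤ 3 / 2 * Real.log Λ := by
        have h1 : (a : ℝ) * Real.log 2 ≤ Real.log Λ := by
          rw [← Real.log_pow]
          exact Real.log_le_log (by positivity) ha1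
        have h2 := Real.log_two_gt_d9
        have h3 : (0 : ℝ) ≤ a := Nat.cast_nonneg _
        nlinarith
      have ha0 : (100 : ℝ) ≤ a := by exact_mod_cast ha100
      have h1 : (n2 : ℝ) ≤ 2 * Real.log Λ := by
        rw [hn2]
        push_cast
        linarith
      have h2 : (J : ℝ) ≤ 48 * Real.log Λ := by
        have h3 : (J : ℝ) ≤ 24 * n2 := by exact_mod_cast hJ3
        linarith
      have h3 : (K : ℝ) ≤ 17 * (1 + C0) := by linarith
      have h4 : ((4096 * J * (4 * K * 512) : ℕ) : ℝ) ≤ m := by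
        push_cast
        have hl0 : 0 ≤ Real.log Λ := Real.log_nonneg hΛ1
        have h5 : (J : ℝ) * K ≤ (48 * Real.log Λ) * (17 * (1 + C0)) :=
          mul_le_mul h2 h3 (Nat.cast_nonneg _) (by positivity)
        have h6 : 0 ≤ (1 + C0) * Real.log Λ := by positivity
        nlinarith
      exact_mod_cast h4)
  have hκ2 : (1 / 100000 : ℝ) / 2 = 1 / 200000 := by norm_num
  rw [hκ2] at hmain
  refine hmain.trans (mul_le_mul_of_nonneg_right ?_ (by positivity))
  -- the failure probability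
  have h1 : Real.exp (-(K * Real.log D / 4)) ≤ 1 / (k * D ^ 4) := by
    have h2 : Real.exp (-(K * Real.log D / 4)) ≤ Real.exp (-(Real.log k + 4 * ℓ)) := by
      apply Real.exp_le_exp.2
      have h3 : C0 * ℓ = Real.log k := by rw [hC0]; field_simp
      rw [← hℓ]
      nlinarith
    refine h2.trans (le_of_eq ?_)
    rw [Real.exp_neg, Real.exp_add, Real.exp_log (by linarith), one_div, hDexp,
      ← Real.exp_nat_mul]
    norm_num
  have hkpos : 0 < k := by linarith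
  have h43 : (1 : ℝ) / (3 / 4) ^ n1 ≤ 2 ^ n1 := by
    rw [one_div, ← inv_pow]
    exact pow_le_pow_left₀ (by norm_num) (by norm_num) n1
  have hJr : (J : ℝ) ≤ 12129 * 2 ^ n1 := by
    have h3 : (J : ℝ) ≤ 12129 * n1 := by exact_mod_cast hJ2
    have h4 : (n1 : ℝ) ≤ 2 ^ n1 := by exact_mod_cast Nat.lt_two_pow_self.le
    linarith
  have h2D : (2 : ℝ) ^ n1 ≤ D := by
    rw [hDexp]
    exact h2n1.trans (Real.exp_le_exp.2 (by linarith))
  have hDbig : (72774 : ℝ) ≤ D := by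
    rw [hDexp]
    linarith [Real.add_one_le_exp ℓ]
  calc k * (((J : ℕ) : ℝ) * (6 * Real.exp (-(K * Real.log D / 4)))) / (3 / 4) ^ n1
      = k * ((J : ℝ) * (6 * Real.exp (-(K * Real.log D / 4)))) * (1 / (3 / 4) ^ n1) := by ring
    _ ≤ k * ((12129 * 2 ^ n1) * (6 * (1 / (k * D ^ 4)))) * 2 ^ n1 := by gcongr
    _ = 72774 * (2 ^ n1 * 2 ^ n1) / D ^ 4 := by
        field_simp
        ring
    _ ≤ D * (D * D) / D ^ 4 := by gcongr
    _ = 1 / D := by field_simp

end Run7.h107
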