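import Pool.Agent.Run7.h107.STEP

/-!
The first phase: trees of conjugates, concentration (helper107, MP_bc5a73_al).
-/

namespace Run7.h107
open RC14
open scoped InnerProductSpace
open Finset

section
variable {G : Type} [Group G] [Fintype G]
variable {V : Type} [NormedAddCommGroup V] [InnerProductSpace ℂ V] [FiniteDimensional ℂ V]

omit [Fintype G] in
/-- the exponential trace of the two-fold average is at most that of the sums of conjugates -/
theorem PS_le (ρ : G →* (V ≃ₗᵢ[ℂ] V)) {q : ℕ} (hq : 1 ≤ q) (z : Fin q → G)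
    (A : Module.End ℂ V) (hA : A.IsSymmetric) (t : ℝ) :
    rtr (ex (((q * t : ℝ) : ℂ) • PS ρ z (PS ρ z A))) ≤
      1 / 2 * rtr (ex (SC ρ ((t : ℂ) • A) z)) + 1 / 2 * rtr (ex (SC ρ ((t : ℂ) • A) z⁻¹)) := by
  have hq0 : (0 : ℝ) < q := by exact_mod_cast hq
  have hqc : (q : ℂ) ≠ 0 := by exact_mod_cast hq0.ne'
  set A' : Module.End ℂ V := (t : ℂ) • A with hA'
  have hA's : A'.IsSymmetric := PSBaux.smul_symm A hA _
  refine (PS_jensen ρ hq z (PS ρ z A) (PS_symm ρ z A hA) (q * t)).trans ?_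
  set B : Bool → Module.End ℂ V := fun b => if b then SC ρ A' z else SC ρ A' z⁻¹ with hB
  have hsum : ((q * t : ℝ) : ℂ) • PS ρ z A =
      ∑ b ∈ (univ : Finset Bool), ((1 / 2 : ℝ) : ℂ) • B b := by
    rw [Fintype.sum_bool]
    simp only [hB, if_true, Bool.false_eq_true, if_false]
    unfold PS SC
    rw [← smul_add, ← Finset.sum_add_distrib, smul_smul]
    simp only [hA', PSBaux.cj_smul, ← smul_add, Pi.inv_apply]
    rw [← Finset.smul_sum, smul_smul]
    congr 1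
    push_cast
    field_simp
  have h2 := KL univ (fun _ : Bool => (1 / 2 : ℝ)) (fun _ _ => by norm_num) (by norm_num) B
    (fun b => by
      simp only [hB]
      split_ifs
      · exact PSBaux.sum_symm _ _ fun i _ => PSBaux.cj_symm ρ _ hA's _
      · exact PSBaux.sum_symm _ _ fun i _ => PSBaux.cj_symm ρ _ hA's _)
  rw [← hsum, Fintype.sum_bool] at h2
  simpa only [hB, if_true, Bool.false_eq_true, if_false] using h2

open Classical in
/-- one level of the tree: concentration -/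
theorem stepPS {D : ℝ} (hD : QRd G D) (hD0 : 0 ≤ D) (ρ : G →* (V ≃ₗᵢ[ℂ] V)) (hirr : Irr ρ ⊤)
    (A : Module.End ℂ V) (hA : Bd A 1) {l : ℝ} (hl : 0 ≤ l) {ξ : ℝ} (hξ : 0 < ξ) {M : ℝ}
    (hM1 : 1 ≤ M) (hM : tn (ex ((l : ℂ) • A)) ≤ M) {q : ℕ} (hq : 1 ≤ q) :
    D * ξ ^ 2 * ∑ z : Fin q → G, (if (M * (1 + ξ)) ^ q <
        tn (ex (((q * l : ℝ) : ℂ) • PS ρ z (PS ρ z A))) then (1 : ℝ) else 0) ≤
      2 * q * Real.exp (2 * l * q) * (Fintype.card G : ℝ) ^ q := by
  have hnt := TREE.nontriv ρ hirr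
  have hd : (0 : ℝ) < Module.finrank ℂ V := by exact_mod_cast Module.finrank_pos
  have hA' : Bd ((l : ℂ) • A) l := by
    have := hA.smul hl
    rwa [mul_one] at this
  have h1 := stepq hD hD0 ρ hirr _ hl hA' hξ hM1 hM q
  have h2 : ∑ z : Fin q → G, (if (M * (1 + ξ)) ^ q < tn (ex (SC ρ ((l : ℂ) • A) z⁻¹))
      then (1 : ℝ) else 0) = ∑ z : Fin q → G,
      (if (M * (1 + ξ)) ^ q < tn (ex (SC ρ ((l : ℂ) • A) z)) then (1 : ℝ) else 0) :=
    Fintype.sum_equiv (Equiv.inv (Fin q → G)) _ _ fun z => rfl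
  have h3 : ∀ z : Fin q → G, (if (M * (1 + ξ)) ^ q <
        tn (ex (((q * l : ℝ) : ℂ) • PS ρ z (PS ρ z A))) then (1 : ℝ) else 0) ≤
      (if (M * (1 + ξ)) ^ q < tn (ex (SC ρ ((l : ℂ) • A) z)) then (1 : ℝ) else 0) +
      (if (M * (1 + ξ)) ^ q < tn (ex (SC ρ ((l : ℂ) • A) z⁻¹)) then (1 : ℝ) else 0) := by
    intro z
    have h4 := PS_le ρ hq z A hA.1 l
    have h5 : tn (ex (((q * l : ℝ) : ℂ) • PS ρ z (PS ρ z A))) ≤
        1 / 2 * tn (ex (SC ρ ((l : ℂ) • A) z)) + 1 / 2 * tn (ex (SC ρ ((l : ℂ) • A) z⁻¹)) := by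
      unfold tn
      rw [div_le_iff₀ hd]
      refine h4.trans (le_of_eq ?_)
      field_simp
    by_cases ha : (M * (1 + ξ)) ^ q < tn (ex (SC ρ ((l : ℂ) • A) z))
    · rw [if_pos ha]
      split_ifs <;> norm_num
    · by_cases hb : (M * (1 + ξ)) ^ q < tn (ex (SC ρ ((l : ℂ) • A) z⁻¹))
      · rw [if_pos hb]
        split_ifs <;> norm_num
      · push Not at ha hb
        rw [if_neg (by push Not; linarith), if_neg (by push Not; exact ha),
          if_neg (by push Not; exact hb)]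
        norm_num
  have h6 := Finset.sum_le_sum fun z (_ : z ∈ (univ : Finset (Fin q → G))) => h3 z
  rw [Finset.sum_add_distrib, h2] at h6
  have h7 := mul_le_mul_of_nonneg_left h6 (by positivity : 0 ≤ D * ξ ^ 2)
  refine h7.trans ?_
  rw [mul_add]
  refine (add_le_add h1 h1).trans (le_of_eq ?_)
  ring

/-- thresholds -/
noncomputable def Thr (q : ℕ) (θ ξ : ℝ) (s : ℕ) : ℝ := (q : ℝ) ^ s * (θ + 2 * ξ) - 2 * ξ

lemma Thr_zero (q : ℕ) (θ ξ : ℝ) : Thr q θ ξ 0 = θ := by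
  unfold Thr
  ring

lemma Thr_nonneg {q : ℕ} (hq : 1 ≤ q) {θ ξ : ℝ} (hθ : 0 ≤ θ) (hξ : 0 ≤ ξ) (s : ℕ) :
    0 ≤ Thr q θ ξ s := by
  unfold Thr
  have h1 : (1 : ℝ) ≤ (q : ℝ) ^ s := one_le_pow₀ (by exact_mod_cast hq)
  nlinarith

lemma Thr_succ {q : ℕ} (hq : 2 ≤ q) {θ ξ : ℝ} (hξ : 0 ≤ ξ) (s : ℕ) :
    q * (Thr q θ ξ s + ξ) ≤ Thr q θ ξ (s + 1) := by
  unfold Thr
  have h1 : (2 : ℝ) ≤ q := by exact_mod_cast hq
  rw [pow_succ]
  nlinarith

open Classical in
/-- concentration for the whole tree -/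
theorem treeP {D : ℝ} (hD : QRd G D) (hD0 : 0 ≤ D) (ρ : G →* (V ≃ₗᵢ[ℂ] V)) (hirr : Irr ρ ⊤)
    (E : Module.End ℂ V) (hE : Bd E 1) {l : ℝ} (hl : 0 ≤ l) {ξ θ : ℝ} (hξ : 0 < ξ) (hθ : 0 ≤ θ)
    (hM : tn (ex ((l : ℂ) • E)) ≤ Real.exp θ) {q : ℕ} (hq : 2 ≤ q) (s : ℕ) :
    D * ξ ^ 2 * ∑ z : Fin s → Fin q → G, (if Real.exp (Thr q θ ξ s) <
        tn (ex (((l * q ^ s : ℝ) : ℂ) • AA ρ E s z)) then (1 : ℝ) else 0) ≤
      2 * s * q * Real.exp (2 * (l * q ^ s)) * (Fintype.card G : ℝ) ^ (s * q) := by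
  have hq2 : (2 : ℝ) ≤ q := by exact_mod_cast hq
  induction s with
  | zero =>
    have h0 : ∀ z : Fin 0 → Fin q → G, ¬ (Real.exp (Thr q θ ξ 0) <
        tn (ex (((l * q ^ 0 : ℝ) : ℂ) • AA ρ E 0 z))) := by
      intro z
      push Not
      rw [Thr_zero, pow_zero, mul_one]
      exact hM
    rw [Finset.sum_eq_zero fun z _ => if_neg (h0 z), mul_zero]
    simp
  | succ s ih =>
    set N : ℝ := (Fintype.card G : ℝ) with hN
    have hN0 : 0 ≤ N := Nat.cast_nonneg _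
    have e1 : ∑ z : Fin (s + 1) → Fin q → G, (if Real.exp (Thr q θ ξ (s + 1)) <
        tn (ex (((l * q ^ (s + 1) : ℝ) : ℂ) • AA ρ E (s + 1) z)) then (1 : ℝ) else 0) =
        ∑ z : Fin s → Fin q → G, ∑ y : Fin q → G, (if Real.exp (Thr q θ ξ (s + 1)) <
          tn (ex (((q * (l * q ^ s) : ℝ) : ℂ) • PS ρ y (PS ρ y (AA ρ E s z))))
          then (1 : ℝ) else 0) := by
      rw [← Fintype.sum_prod_type',
        ← (Fin.snocEquiv (fun _ : Fin (s + 1) => Fin q → G)).sum_comp,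
        ← (Equiv.prodComm (Fin s → Fin q → G) (Fin q → G)).sum_comp]
      refine Finset.sum_congr rfl fun p _ => ?_
      have e0 : (Fin.snocEquiv fun _ : Fin (s + 1) => Fin q → G)
          (Equiv.prodComm (Fin s → Fin q → G) (Fin q → G) p) =
          (Fin.snoc p.1 p.2 : Fin (s + 1) → Fin q → G) := rfl
      have e3 : AA ρ E (s + 1) (Fin.snoc p.1 p.2 : Fin (s + 1) → Fin q → G) =
          PS ρ p.2 (PS ρ p.2 (AA ρ E s p.1)) := by
        simp only [AA, Fin.snoc_last, Fin.snoc_castSucc]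
      have e4 : l * (q : ℝ) ^ (s + 1) = q * (l * q ^ s) := by rw [pow_succ]; ring
      rw [e0, e3, e4]
    have e2 : ∀ z : Fin s → Fin q → G, D * ξ ^ 2 * ∑ y : Fin q → G,
        (if Real.exp (Thr q θ ξ (s + 1)) <
          tn (ex (((q * (l * q ^ s) : ℝ) : ℂ) • PS ρ y (PS ρ y (AA ρ E s z))))
          then (1 : ℝ) else 0) ≤
        D * ξ ^ 2 * (N ^ q * (if Real.exp (Thr q θ ξ s) <
          tn (ex (((l * q ^ s : ℝ) : ℂ) • AA ρ E s z)) then (1 : ℝ) else 0)) +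
          2 * q * Real.exp (2 * (l * q ^ (s + 1))) * N ^ q := by
      intro z
      by_cases hz : Real.exp (Thr q θ ξ s) < tn (ex (((l * q ^ s : ℝ) : ℂ) • AA ρ E s z))
      · rw [if_pos hz, mul_one]
        have h1 : (∑ y : Fin q → G, if Real.exp (Thr q θ ξ (s + 1)) <
          tn (ex (((q * (l * q ^ s) : ℝ) : ℂ) • PS ρ y (PS ρ y (AA ρ E s z))))
            then (1 : ℝ) else 0) ≤ ∑ _g : Fin q → G, (1 : ℝ) :=
          Finset.sum_le_sum fun g _ => by split_ifs <;> norm_num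
        have h2 : (∑ _g : Fin q → G, (1 : ℝ)) = N ^ q := by simp [hN]
        rw [h2] at h1
        have h3 := mul_le_mul_of_nonneg_left h1 (by positivity : 0 ≤ D * ξ ^ 2)
        have h4 : 0 ≤ 2 * q * Real.exp (2 * (l * q ^ (s + 1))) * N ^ q := by positivity
        linarith
      · rw [if_neg hz, mul_zero, mul_zero, zero_add]
        push Not at hz
        have hT := Thr_nonneg (by omega : 1 ≤ q) hθ hξ.le s
        have hc := stepPS hD hD0 ρ hirr (AA ρ E s z) (hE.AA ρ (by omega) s z)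
          (by positivity : 0 ≤ l * (q : ℝ) ^ s) hξ (Real.one_le_exp hT) hz (by omega : 1 ≤ q)
        have e5 : 2 * (l * (q : ℝ) ^ s) * q = 2 * (l * q ^ (s + 1)) := by rw [pow_succ]; ring
        rw [e5] at hc
        refine le_trans (mul_le_mul_of_nonneg_left (Finset.sum_le_sum fun g _ => ?_)
          (by positivity)) hc
        have h5 : (Real.exp (Thr q θ ξ s) * (1 + ξ)) ^ q ≤ Real.exp (Thr q θ ξ (s + 1)) := by
          have h6 : 1 + ξ ≤ Real.exp ξ := by linarith [Real.add_one_le_exp ξ]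
          calc (Real.exp (Thr q θ ξ s) * (1 + ξ)) ^ q
              ≤ (Real.exp (Thr q θ ξ s) * Real.exp ξ) ^ q := by
                gcongr
            _ = Real.exp (q * (Thr q θ ξ s + ξ)) := by
                rw [← Real.exp_add, ← Real.exp_nat_mul]
            _ ≤ _ := Real.exp_le_exp.2 (Thr_succ hq hξ.le s)
        split_ifs with ha hb hb
        · exact le_rfl
        · exact absurd (lt_of_le_of_lt h5 ha) hb
        · exact zero_le_one
        · exact le_rfl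
    rw [e1, Finset.mul_sum]
    refine (Finset.sum_le_sum fun z _ => e2 z).trans ?_
    rw [Finset.sum_add_distrib, ← Finset.mul_sum, ← Finset.mul_sum, Finset.sum_const,
      Finset.card_univ, Fintype.card_fun, Fintype.card_fin, Fintype.card_fun, Fintype.card_fin,
      nsmul_eq_mul]
    have h7 : D * ξ ^ 2 * (N ^ q * ∑ z : Fin s → Fin q → G, (if Real.exp (Thr q θ ξ s) <
          tn (ex (((l * q ^ s : ℝ) : ℂ) • AA ρ E s z)) then (1 : ℝ) else 0)) ≤
        N ^ q * (2 * s * q * Real.exp (2 * (l * q ^ s)) * N ^ (s * q)) := by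
      calc _ = N ^ q * (D * ξ ^ 2 * ∑ z : Fin s → Fin q → G, (if Real.exp (Thr q θ ξ s) <
          tn (ex (((l * q ^ s : ℝ) : ℂ) • AA ρ E s z)) then (1 : ℝ) else 0)) := by ring
        _ ≤ _ := mul_le_mul_of_nonneg_left ih (by positivity)
    have h8 : Real.exp (2 * (l * q ^ s)) ≤ Real.exp (2 * (l * q ^ (s + 1))) := by
      apply Real.exp_le_exp.2
      have : l * (q : ℝ) ^ s ≤ l * q ^ (s + 1) := by
        refine mul_le_mul_of_nonneg_left (pow_le_pow_right₀ (by linarith) (Nat.le_succ s)) hl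
      linarith
    refine (add_le_add_left h7 _).trans ?_
    have h9 : N ^ q * (2 * s * q * Real.exp (2 * (l * q ^ s)) * N ^ (s * q)) ≤
        N ^ q * (2 * s * q * Real.exp (2 * (l * q ^ (s + 1))) * N ^ (s * q)) := by
      gcongr
    refine (add_le_add_left h9 _).trans (le_of_eq ?_)
    have e6 : (((Fintype.card G ^ q) ^ s : ℕ) : ℝ) = N ^ (s * q) := by
      push_cast
      rw [← hN, ← pow_mul, mul_comm q s]
    rw [e6, Nat.succ_mul, pow_add]
    push_cast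
    ring

end

end Run7.h107
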