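import Pool.Agent.Run7.h107.TRPH

/-!
The invariants of the levels and their preservation (helper107, MP_bc5a73_al).
-/

namespace Run7.h107
open RC14
open scoped InnerProductSpace ComplexConjugate
open Finset

/-- conditions on the parameters -/
structure PP (D : ℝ) (s n0 n1 n2 K : ℕ) : Prop where
  hD : 1 < D
  hK : 1 ≤ K
  hs : n0 + n1 + 2 ≤ s
  h01 : 64 * (2 : ℝ) ^ n0 ≤ Real.log D
  h02 : Real.log D ≤ 128 * (2 : ℝ) ^ n0
  hH : 9 * ((4 * K * 512 : ℕ) : ℝ) ^ 3 * 64 ^ s ≤ Real.exp (Real.log D / 4)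
  hn1 : 1 ≤ n1
  hn2 : 1 ≤ n2

section
variable {G : Type} [Group G]
variable {V : Type} [NormedAddCommGroup V] [InnerProductSpace ℂ V] [FiniteDimensional ℂ V]

/-- `μ_j` -/
noncomputable def mu (s j : ℕ) : ℝ := 2 * (1 / 8) ^ s * (3 / 2) ^ j

/-- property of the levels in the first two ranges -/
def Qab (D : ℝ) (s n0 : ℕ) (j : ℕ) (A : Module.End ℂ V) : Prop :=
  Bd A 1 ∧ FL A (2 ^ j) ≤ Real.exp (2 ^ j * mu s j) ∧
    FL A (Real.log D * 2 ^ (j - n0)) ≤ Real.exp (Real.log D)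

/-- property of the levels in the last range -/
def Qc (D : ℝ) (n1 q : ℕ) (i : ℕ) (A : Module.End ℂ V) : Prop :=
  Bd A 1 ∧ FL A ((q : ℝ) ^ i * Real.log D * 2 ^ n1) ≤
    Real.exp (Real.log D * (q : ℝ) ^ i * (2 - (1 / 2) ^ i))

/-- final property -/
def Qf (n1 : ℕ) (A : Module.End ℂ V) : Prop :=
  Bd A 1 ∧ ∀ v, (⟪A v, v⟫_ℂ).re ≤ 3 * (1 / 2) ^ n1 * ‖v‖ ^ 2

/-- the invariant at level `ℓ` -/
def QQ (D : ℝ) (s n0 n1 n2 K : ℕ) (ℓ : ℕ) (A : Module.End ℂ V) : Prop :=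
  if ℓ < s then QT A ℓ
  else if ℓ < s + (n0 + n1) then Qab D s n0 (ℓ - s) A
  else if ℓ < s + (n0 + n1) + n2 then Qc D n1 (4 * K * 512) (ℓ - (s + (n0 + n1))) A
  else Qf n1 A

/-- the step at level `ℓ` -/
noncomputable def stp (ρ : G →* (V ≃ₗᵢ[ℂ] V)) (s ℓ : ℕ) (A : Module.End ℂ V) {q : ℕ}
    (y : Fin q → G) : Module.End ℂ V :=
  if ℓ < s then MQ ρ y * A * MQ ρ y⁻¹ else PC ρ y A

lemma Qab_cj {D : ℝ} {s n0 j : ℕ} {A : Module.End ℂ V} (h : Qab D s n0 j A)
    (ρ : G →* (V ≃ₗᵢ[ℂ] V)) (g : G) : Qab D s n0 j (cj ρ A g) := by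
  obtain ⟨h1, h2, h3⟩ := h
  exact ⟨h1.cj ρ g, by rwa [FL_cj], by rwa [FL_cj]⟩

lemma Qc_cj {D : ℝ} {n1 q i : ℕ} {A : Module.End ℂ V} (h : Qc D n1 q i A)
    (ρ : G →* (V ≃ₗᵢ[ℂ] V)) (g : G) : Qc D n1 q i (cj ρ A g) := by
  obtain ⟨h1, h2⟩ := h
  exact ⟨h1.cj ρ g, by rwa [FL_cj]⟩

lemma Qf_cj {n1 : ℕ} {A : Module.End ℂ V} (h : Qf n1 A)
    (ρ : G →* (V ≃ₗᵢ[ℂ] V)) (g : G) : Qf n1 (cj ρ A g) := by
  obtain ⟨h1, h2⟩ := h
  refine ⟨h1.cj ρ g, fun v => ?_⟩
  rw [cj_quad]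
  have := h2 (ρ g⁻¹ v)
  rwa [(ρ g⁻¹).norm_map] at this

lemma QQ_cj {D : ℝ} {s n0 n1 n2 K ℓ : ℕ} {A : Module.End ℂ V} (h : QQ D s n0 n1 n2 K ℓ A)
    (ρ : G →* (V ≃ₗᵢ[ℂ] V)) (g : G) : QQ D s n0 n1 n2 K ℓ (cj ρ A g) := by
  unfold QQ at h ⊢
  split_ifs at h ⊢ with h1 h2 h3
  · exact QT_cj h ρ g
  · exact Qab_cj h ρ g
  · exact Qc_cj h ρ g
  · exact Qf_cj h ρ g

lemma QQ_bd {D : ℝ} {s n0 n1 n2 K ℓ : ℕ} {A : Module.End ℂ V} (h : QQ D s n0 n1 n2 K ℓ A) :
    Bd A 1 := by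
  unfold QQ at h
  split_ifs at h with h1 h2 h3
  · exact QT_bd h
  · exact h.1
  · exact h.1
  · exact h.1

lemma QQ_zero {D : ℝ} {s n0 n1 n2 K : ℕ} (hP : PP D s n0 n1 n2 K) :
    QQ D s n0 n1 n2 K 0 (1 : Module.End ℂ V) := by
  unfold QQ
  have := hP.hs
  rw [if_pos (by omega)]
  exact QT_zero

lemma QQ_last {D : ℝ} {s n0 n1 n2 K ℓ : ℕ} {A : Module.End ℂ V} (h : QQ D s n0 n1 n2 K ℓ A)
    (hℓ : s + (n0 + n1) + n2 ≤ ℓ) : Qf n1 A := by
  unfold QQ at h
  rwa [if_neg (by omega), if_neg (by omega), if_neg (by omega)] at h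

/-- transition to the first range -/
lemma Qab_of_QT [Nontrivial V] {D : ℝ} {s n0 : ℕ} (hD : 1 < D) {A : Module.End ℂ V}
    (h : QT A s) : Qab D s n0 0 A := by
  have hb := QT_bd h
  have hL : 0 ≤ Real.log D := Real.log_nonneg hD.le
  refine ⟨hb, ?_, ?_⟩
  · have := QT_FL h
    unfold mu
    simpa using this
  · have := FL_le_exp hb hL
    simpa using this

lemma Qc_of_Qab {D : ℝ} {s n0 n1 q : ℕ} {A : Module.End ℂ V} (h : Qab D s n0 (n0 + n1) A) :
    Qc D n1 q 0 A := by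
  obtain ⟨h1, -, h3⟩ := h
  refine ⟨h1, ?_⟩
  have e1 : n0 + n1 - n0 = n1 := by omega
  rw [e1] at h3
  have e2 : Real.log D * (q : ℝ) ^ 0 * (2 - (1 / 2) ^ 0) = Real.log D := by norm_num
  rw [e2, pow_zero, one_mul]
  exact h3

lemma Qf_of_Qc [Nontrivial V] {D : ℝ} (hD : 1 < D) {n1 n2 q : ℕ} (hq : 1 ≤ q)
    {A : Module.End ℂ V} (hd : Real.log (Module.finrank ℂ V) ≤ (q : ℝ) ^ n2 * Real.log D)
    (h : Qc D n1 q n2 A) : Qf n1 A := by
  obtain ⟨h1, h2⟩ := h
  have hL : 0 < Real.log D := Real.log_pos hD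
  have hq0 : (0 : ℝ) < q := by exact_mod_cast hq
  refine ⟨h1, fun v => ?_⟩
  have h3 : (2 : ℝ) ^ n1 * (1 / 2) ^ n1 = 1 := by
    rw [← mul_pow]
    norm_num
  have h4 := FL_norm h1 (l := (q : ℝ) ^ n2 * Real.log D * 2 ^ n1)
    (θ := (1 / 2) ^ n1 * (2 - (1 / 2) ^ n2)) (ν := (1 / 2) ^ n1) (by positivity) (by
      refine h2.trans (le_of_eq ?_)
      congr 1
      have : (q : ℝ) ^ n2 * Real.log D * 2 ^ n1 * ((1 / 2) ^ n1 * (2 - (1 / 2) ^ n2)) =
          (q : ℝ) ^ n2 * Real.log D * (2 - (1 / 2) ^ n2) * (2 ^ n1 * (1 / 2) ^ n1) := by ring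
      rw [this, h3]
      ring) (by
      refine hd.trans (le_of_eq ?_)
      have : (q : ℝ) ^ n2 * Real.log D * 2 ^ n1 * (1 / 2) ^ n1 =
          (q : ℝ) ^ n2 * Real.log D * (2 ^ n1 * (1 / 2) ^ n1) := by ring
      rw [this, h3]
      ring) v
  refine h4.trans (mul_le_mul_of_nonneg_right ?_ (by positivity))
  have h5 : (0 : ℝ) ≤ (1 / 2) ^ n2 := by positivity
  have h6 : (0 : ℝ) ≤ (1 / 2) ^ n1 := by positivity
  nlinarith

variable [Fintype G]

/-- step in the last range -/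
lemma Qc_step {D : ℝ} (ρ : G →* (V ≃ₗᵢ[ℂ] V)) (hirr : Irr ρ ⊤) (hD : 1 < D)
    {n1 q i K : ℕ} (hK : 1 ≤ K) (hqK : 2 * K ≤ q) {A : Module.End ℂ V} (h : Qc D n1 q i A) :
    (Nat.card {y : Fin q → G // ¬ Qc D n1 q (i + 1) (PC ρ y A)} : ℝ) ≤
      Real.exp (-(K * Real.log D / 4)) * (Fintype.card G : ℝ) ^ q := by
  have hntV := TREE.nontriv ρ hirr
  obtain ⟨h1, h2⟩ := h
  have hL : 0 < Real.log D := Real.log_pos hD
  have hq1 : 1 ≤ q := by omega
  have hq0 : (0 : ℝ) < q := by exact_mod_cast hq1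
  have hqK' : 2 * (K : ℝ) ≤ q := by exact_mod_cast hqK
  have hK1 : (1 : ℝ) ≤ K := by exact_mod_cast hK
  have : Nonempty (Fin q) := ⟨⟨0, by omega⟩⟩
  have h3 : (2 : ℝ) ^ n1 * (1 / 2) ^ n1 = 1 := by
    rw [← mul_pow]
    norm_num
  have e0 : (q : ℝ) ^ (i + 1) * Real.log D * 2 ^ n1 / q = (q : ℝ) ^ i * Real.log D * 2 ^ n1 := by
    rw [pow_succ]
    field_simp
  have hC := CSTEP ρ hirr A h1.1 (t := (q : ℝ) ^ (i + 1) * Real.log D * 2 ^ n1)
    (θ := (1 / 2) ^ n1 * (2 - (1 / 2) ^ i)) (K * Real.log D / 4) q hq1 (by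
      rw [e0]
      refine h2.trans (le_of_eq ?_)
      congr 1
      have : (q : ℝ) ^ i * Real.log D * 2 ^ n1 * ((1 / 2) ^ n1 * (2 - (1 / 2) ^ i)) =
          (q : ℝ) ^ i * Real.log D * (2 - (1 / 2) ^ i) * (2 ^ n1 * (1 / 2) ^ n1) := by ring
      rw [this, h3]
      ring)
  refine le_trans (Nat.cast_le.mpr (card_mono _ _ fun y hy => ?_)) hC
  by_contra hcon
  push Not at hcon
  apply hy
  refine ⟨h1.PC ρ y, hcon.trans (Real.exp_le_exp.2 ?_)⟩
  have e1 : (q : ℝ) ^ (i + 1) * Real.log D * 2 ^ n1 * ((1 / 2) ^ n1 * (2 - (1 / 2) ^ i)) =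
      Real.log D * (q : ℝ) ^ (i + 1) * (2 - (1 / 2) ^ i) := by
    have : (q : ℝ) ^ (i + 1) * Real.log D * 2 ^ n1 * ((1 / 2) ^ n1 * (2 - (1 / 2) ^ i)) =
          (q : ℝ) ^ (i + 1) * Real.log D * (2 - (1 / 2) ^ i) * (2 ^ n1 * (1 / 2) ^ n1) := by ring
    rw [this, h3]
    ring
  rw [e1]
  have e2 : (K : ℝ) / 4 ≤ (q : ℝ) ^ (i + 1) * (1 / 2) ^ (i + 1) := by
    rw [← mul_pow]
    have h5 : 1 ≤ (q : ℝ) * (1 / 2) := by linarith
    calc (K : ℝ) / 4 ≤ ((q : ℝ) * (1 / 2)) ^ 1 := by rw [pow_one]; linarith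
      _ ≤ _ := pow_le_pow_right₀ h5 (by omega)
  have e3 : (1 / 2 : ℝ) ^ i = 2 * (1 / 2) ^ (i + 1) := by rw [pow_succ]; ring
  rw [e3]
  have e4 := mul_le_mul_of_nonneg_left e2 hL.le
  nlinarith

/-- step in the first two ranges -/
lemma Qab_step {D : ℝ} (hQ : QRd G D) (ρ : G →* (V ≃ₗᵢ[ℂ] V)) (hirr : Irr ρ ⊤)
    {s n0 n1 n2 K j : ℕ} (hP : PP D s n0 n1 n2 K) (hj : j < n0 + n1) {A : Module.End ℂ V}
    (h : Qab D s n0 j A) :
    (Nat.card {y : Fin (4 * K * 512) → G // ¬ Qab D s n0 (j + 1) (PC ρ y A)} : ℝ) ≤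
      6 * Real.exp (-(K * Real.log D / 4)) * (Fintype.card G : ℝ) ^ (4 * K * 512) := by
  have hntV := TREE.nontriv ρ hirr
  obtain ⟨h1, h2, h3⟩ := h
  have hL : 0 < Real.log D := Real.log_pos hP.hD
  have hD0 : 0 < D := by linarith [hP.hD]
  have hK := hP.hK
  have hK1 : (1 : ℝ) ≤ K := by exact_mod_cast hK
  have hH := hP.hH
  have h01 := hP.h01
  have h02 := hP.h02
  set L : ℝ := Real.log D with hLd
  have hDexp : D = Real.exp L := (Real.exp_log hD0).symm
  set q : ℕ := 4 * K * 512 with hq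
  have hqr : (q : ℝ) = 2048 * K := by rw [hq]; push_cast; ring
  have hq0 : (0 : ℝ) < q := by rw [hqr]; positivity
  have : Nonempty (Fin q) := ⟨⟨0, by omega⟩⟩
  have h8s : (0 : ℝ) < (1 / 8) ^ s := by positivity
  have hmu : ∀ i, 2 * (1 / 8 : ℝ) ^ s ≤ mu s i := by
    intro i
    unfold mu
    have : (1 : ℝ) ≤ (3 / 2) ^ i := one_le_pow₀ (by norm_num)
    nlinarith
  have hmu0 : ∀ i, 0 ≤ mu s i := fun i => by unfold mu; positivity
  have h64 : (1 : ℝ) ≤ 64 ^ s := one_le_pow₀ (by norm_num)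
  have hq1 : (1 : ℝ) ≤ q := by rw [hqr]; linarith
  have hq3 : (q : ℝ) ≤ (q : ℝ) ^ 3 := by
    calc (q : ℝ) = (q : ℝ) ^ 1 := (pow_one _).symm
      _ ≤ _ := pow_le_pow_right₀ hq1 (by norm_num)
  -- the first estimate
  set ξ : ℝ := (1 / 8) ^ s / (3 * q) with hξ
  have hξ0 : 0 < ξ := by positivity
  have hqξ : q * ξ = (1 / 8) ^ s / 3 := by rw [hξ]; field_simp
  have hF8 : FL A (8 * 2 ^ j) ≤ Real.exp (L / 8) := by
    have e1 : (8 : ℝ) * 2 ^ j ≤ 8 * 2 ^ n0 * 2 ^ (j - n0) := by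
      have : (2 : ℝ) ^ j ≤ 2 ^ n0 * 2 ^ (j - n0) := by
        rw [← pow_add]
        exact pow_le_pow_right₀ (by norm_num) (by omega)
      linarith
    have e2 : (8 : ℝ) * 2 ^ n0 * 2 ^ (j - n0) ≤ L * 2 ^ (j - n0) := by
      refine mul_le_mul_of_nonneg_right ?_ (by positivity)
      have : (0 : ℝ) < 2 ^ n0 := by positivity
      linarith
    have e3 : L * (2 : ℝ) ^ (j - n0) * (1 / 2) ^ (j - n0) = L := by
      rw [mul_assoc, ← mul_pow]
      norm_num
    have e4 := FL_TH h1 (by positivity) e2 (θ := (1 / 2) ^ (j - n0)) (by rw [e3]; exact h3)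
    refine (FL_mono h1 e1).trans (e4.trans (Real.exp_le_exp.2 ?_))
    have e5 : (8 : ℝ) * 2 ^ n0 * 2 ^ (j - n0) * (1 / 2) ^ (j - n0) = 8 * 2 ^ n0 := by
      rw [mul_assoc, ← mul_pow]
      norm_num
    rw [e5]
    linarith
  have hE : FL A (8 * 2 ^ j) ^ 2 ≤ Real.exp (L / 4) := by
    have e1 : Real.exp (L / 4) = Real.exp (L / 8) ^ 2 := by
      rw [← Real.exp_nat_mul]
      congr 1
      push_cast
      ring
    rw [e1]
    have : 0 ≤ FL A (8 * 2 ^ j) := by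
      have := FL_one_le h1 (by positivity : (0 : ℝ) ≤ 8 * 2 ^ j)
      linarith
    exact pow_le_pow_left₀ this hF8 2
  have hηA : q * (Real.exp (L / 4) / (D * ξ ^ 2)) ≤ Real.exp (-(L / 4)) := by
    have e1 : q * (Real.exp (L / 4) / (D * ξ ^ 2)) =
        (9 * (q : ℝ) ^ 3 * 64 ^ s) * (Real.exp (L / 4) / D) := by
      have e2 : (64 : ℝ) ^ s = 1 / ((1 / 8 : ℝ) ^ s) ^ 2 := by
        rw [← pow_mul, mul_comm s 2, pow_mul, one_div, ← inv_pow]
        norm_num
      rw [e2, hξ]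
      field_simp
      ring
    rw [e1, hDexp]
    calc (9 * (q : ℝ) ^ 3 * 64 ^ s) * (Real.exp (L / 4) / Real.exp L)
        ≤ Real.exp (L / 4) * (Real.exp (L / 4) / Real.exp L) :=
          mul_le_mul_of_nonneg_right hH (by positivity)
      _ = Real.exp (-(L / 2)) := by
          rw [← Real.exp_sub, ← Real.exp_add]
          congr 1
          ring
      _ ≤ _ := Real.exp_le_exp.2 (by linarith)
  have hle1 : Real.exp (-(L / 4)) ≤ 1 := by
    rw [Real.exp_le_one_iff]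
    linarith
  have hA := ASTEP hQ hD0 ρ hirr A h1 (α := 2 ^ j) (μ := mu s j) (ξ := ξ) (E := Real.exp (L / 4))
    (by positivity) (hmu0 j) hξ0 h2 hE q K hK (by omega) (hηA.trans hle1)
  have hpK : Real.exp (-(L / 4)) ^ K = Real.exp (-(K * L / 4)) := by
    rw [← Real.exp_nat_mul]
    congr 1
    ring
  have hA2 : (Nat.card {z : Fin q → G // ¬ FL (PC ρ z A) (2 * 2 ^ j) ≤
        Real.exp (2 * 2 ^ j * (4 / 3 * mu s j) + q * ξ)} : ℝ) ≤
      3 * Real.exp (-(K * L / 4)) * (Fintype.card G : ℝ) ^ q := by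
    refine hA.trans ?_
    rw [← hpK]
    have : 0 ≤ q * (Real.exp (L / 4) / (D * ξ ^ 2)) := by positivity
    gcongr
  have hgoodA : ∀ y : Fin q → G, FL (PC ρ y A) (2 * 2 ^ j) ≤
        Real.exp (2 * 2 ^ j * (4 / 3 * mu s j) + q * ξ) →
      FL (PC ρ y A) (2 ^ (j + 1)) ≤ Real.exp (2 ^ (j + 1) * mu s (j + 1)) := by
    intro y hy
    have e1 : (2 : ℝ) ^ (j + 1) = 2 * 2 ^ j := by rw [pow_succ]; ring
    rw [e1]
    refine hy.trans (Real.exp_le_exp.2 ?_)
    have e2 : mu s (j + 1) = 3 / 2 * mu s j := by unfold mu; rw [pow_succ]; ring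
    rw [e2, hqξ]
    have e3 := hmu j
    have e4 : (1 : ℝ) ≤ 2 ^ j := one_le_pow₀ (by norm_num)
    have e5 : mu s j ≤ 2 ^ j * mu s j := le_mul_of_one_le_left (hmu0 j) e4
    nlinarith
  -- the second estimate
  by_cases hjn : j < n0
  · -- nothing to prove
    refine le_trans (Nat.cast_le.mpr (card_mono _ _ fun y hy => ?_)) (hA2.trans ?_)
    · intro hcon
      apply hy
      have hb := h1.PC ρ y
      refine ⟨hb, hgoodA y hcon, ?_⟩
      have e1 : j + 1 - n0 = 0 := by omega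
      rw [e1, pow_zero, mul_one]
      exact FL_le_exp hb hL.le
    · have : 0 ≤ Real.exp (-(K * L / 4)) * (Fintype.card G : ℝ) ^ q := by positivity
      nlinarith
  · push Not at hjn
    obtain ⟨i, hi⟩ : ∃ i, j = n0 + i := ⟨j - n0, by omega⟩
    have ei : j - n0 = i := by omega
    have ei1 : j + 1 - n0 = i + 1 := by omega
    rw [ei] at h3
    have hin : i < n1 := by omega
    have e3 : L * (2 : ℝ) ^ i * (1 / 2) ^ i = L := by
      rw [mul_assoc, ← mul_pow]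
      norm_num
    have hmuj : mu s j * 2 ^ i ≤ 1 / 8 := by
      unfold mu
      have hs := hP.hs
      have f1 : (1 / 8 : ℝ) ^ s ≤ (1 / 8) ^ (n0 + n1 + 2) :=
        pow_le_pow_of_le_one (by norm_num) (by norm_num) hs
      have f2 : (3 / 2 : ℝ) ^ j ≤ (3 / 2) ^ (n0 + n1) :=
        pow_le_pow_right₀ (by norm_num) hj.le
      have f3 : (2 : ℝ) ^ i ≤ 2 ^ (n0 + n1) := pow_le_pow_right₀ (by norm_num) (by omega)
      calc 2 * (1 / 8 : ℝ) ^ s * (3 / 2) ^ j * 2 ^ i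
          ≤ 2 * (1 / 8 : ℝ) ^ (n0 + n1 + 2) * (3 / 2) ^ (n0 + n1) * 2 ^ (n0 + n1) := by gcongr
        _ = 1 / 32 * (3 / 8) ^ (n0 + n1) := by
            rw [pow_add (1 / 8 : ℝ) (n0 + n1) 2]
            have : (3 / 8 : ℝ) ^ (n0 + n1) =
                (1 / 8) ^ (n0 + n1) * (3 / 2) ^ (n0 + n1) * 2 ^ (n0 + n1) := by
              rw [← mul_pow, ← mul_pow]
              norm_num
            rw [this]
            ring
        _ ≤ 1 / 32 * 1 := by
            refine mul_le_mul_of_nonneg_left ?_ (by norm_num)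
            exact pow_le_one₀ (by norm_num) (by norm_num)
        _ ≤ 1 / 8 := by norm_num
    have hb4 : ((4 * K : ℕ) : ℝ) * Real.exp (-(L / 2)) ≤ Real.exp (-(L / 4)) := by
      have f1 : ((4 * K : ℕ) : ℝ) ≤ Real.exp (L / 4) := by
        refine le_trans ?_ hH
        have f2 : ((4 * K : ℕ) : ℝ) ≤ q := by
          rw [hq]
          push_cast
          nlinarith
        nlinarith [mul_le_mul (by linarith : (1 : ℝ) * (q : ℝ) ≤ 9 * (q : ℝ) ^ 3) h64
          zero_le_one (by positivity)]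
      calc ((4 * K : ℕ) : ℝ) * Real.exp (-(L / 2)) ≤ Real.exp (L / 4) * Real.exp (-(L / 2)) :=
            mul_le_mul_of_nonneg_right f1 (Real.exp_pos _).le
        _ = _ := by
            rw [← Real.exp_add]
            congr 1
            ring
    have hB := BSTEP' ρ hirr A h1 (α := 2 ^ j) (μ := mu s j) (l := L * 2 ^ i)
      (ν := (1 / 2) ^ i) (T := L / 2) (by positivity) h2 (by rw [e3]; exact h3) 512 (4 * K) K
      (by norm_num) (by
        push_cast
        rw [hi, pow_add, div_le_iff₀ (by norm_num)]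
        have : (0 : ℝ) < 2 ^ i := by positivity
        nlinarith) hK (by omega) (by
        rw [e3]
        have : 4 * (L * 2 ^ i) * mu s j = 4 * L * (mu s j * 2 ^ i) := by ring
        rw [this]
        nlinarith) (hb4.trans hle1)
    rw [e3] at hB
    have hB2 : (Nat.card {z : Fin q → G // ¬ FL (PC ρ z A) (2 * (L * 2 ^ i)) ≤ Real.exp L} : ℝ) ≤
        3 * Real.exp (-(K * L / 4)) * (Fintype.card G : ℝ) ^ q := by
      refine hB.trans ?_
      rw [← hpK]
      have : 0 ≤ ((4 * K : ℕ) : ℝ) * Real.exp (-(L / 2)) := by positivity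
      have f1 := pow_le_pow_left₀ this hb4 K
      have f2 : (0 : ℝ) ≤ (Fintype.card G : ℝ) ^ q := by positivity
      nlinarith [mul_le_mul_of_nonneg_right f1 f2]
    have hun := card_union (Z := Fin q → G) (ι := Bool)
      (fun y => ¬ Qab D s n0 (j + 1) (PC ρ y A))
      (fun c y => if c then ¬ FL (PC ρ y A) (2 * 2 ^ j) ≤
        Real.exp (2 * 2 ^ j * (4 / 3 * mu s j) + q * ξ) else
        ¬ FL (PC ρ y A) (2 * (L * 2 ^ i)) ≤ Real.exp L) (by
      intro y hy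
      by_contra hcon
      push Not at hcon
      have c1 := hcon true
      have c2 := hcon false
      simp only [if_true, Bool.false_eq_true, if_false, not_lt] at c1 c2
      apply hy
      refine ⟨h1.PC ρ y, hgoodA y c1, ?_⟩
      rw [ei1]
      have f1 : Real.log D * 2 ^ (i + 1) = 2 * (L * 2 ^ i) := by rw [pow_succ, hLd]; ring
      rw [f1]
      exact c2)
    rw [Fintype.sum_bool] at hun
    simp only [if_true, Bool.false_eq_true, if_false] at hun
    have hun' : (Nat.card {y : Fin q → G // ¬ Qab D s n0 (j + 1) (PC ρ y A)} : ℝ) ≤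
        (Nat.card {z : Fin q → G // ¬ FL (PC ρ z A) (2 * 2 ^ j) ≤
        Real.exp (2 * 2 ^ j * (4 / 3 * mu s j) + q * ξ)} : ℝ) +
        (Nat.card {z : Fin q → G // ¬ FL (PC ρ z A) (2 * (L * 2 ^ i)) ≤ Real.exp L} : ℝ) := by
      exact_mod_cast hun
    linarith

/-- the step for the invariants -/
theorem QQ_step {D : ℝ} (hQ : QRd G D) (ρ : G →* (V ≃ₗᵢ[ℂ] V)) (hirr : Irr ρ ⊤)
    (hnt : ∃ g v, ρ g v ≠ v) {s n0 n1 n2 K : ℕ} (hP : PP D s n0 n1 n2 K)
    (hd : Real.log (Module.finrank ℂ V) ≤ ((4 * K * 512 : ℕ) : ℝ) ^ n2 * Real.log D)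
    {ℓ : ℕ} {A : Module.End ℂ V} (h : QQ D s n0 n1 n2 K ℓ A) :
    (Nat.card {y : Fin (4 * K * 512) → G // ¬ QQ D s n0 n1 n2 K (ℓ + 1) (stp ρ s ℓ A y)} : ℝ) ≤
      6 * Real.exp (-(K * Real.log D / 4)) * (Fintype.card G : ℝ) ^ (4 * K * 512) := by
  have hntV := TREE.nontriv ρ hirr
  have hL : 0 < Real.log D := Real.log_pos hP.hD
  have hD0 : 0 < D := by linarith [hP.hD]
  have hK := hP.hK
  have hn1 := hP.hn1
  have hn2 := hP.hn2
  have hH := hP.hH
  set q : ℕ := 4 * K * 512 with hq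
  have hpos : 0 ≤ Real.exp (-(K * Real.log D / 4)) * (Fintype.card G : ℝ) ^ q := by positivity
  have : Nonempty (Fin q) := ⟨⟨0, by omega⟩⟩
  by_cases c1 : ℓ < s
  · -- trace phase
    unfold QQ at h
    rw [if_pos c1] at h
    have hη : q * ((q : ℝ) ^ 2 / D) ≤ Real.exp (-(Real.log D / 4)) := by
      have f1 : (q : ℝ) ^ 3 ≤ Real.exp (Real.log D / 4) := by
        refine le_trans ?_ hH
        have h64 : (1 : ℝ) ≤ 64 ^ s := one_le_pow₀ (by norm_num)
        have f2 : (0 : ℝ) ≤ (q : ℝ) ^ 3 := by positivity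
        nlinarith [mul_le_mul_of_nonneg_left h64 f2]
      have f2 : q * ((q : ℝ) ^ 2 / D) = (q : ℝ) ^ 3 / D := by ring
      rw [f2, div_le_iff₀ hD0]
      have f3 : Real.exp (-(Real.log D / 4)) * D = Real.exp (3 * Real.log D / 4) := by
        nth_rewrite 2 [← Real.exp_log hD0]
        rw [← Real.exp_add]
        congr 1
        ring
      rw [f3]
      exact f1.trans (Real.exp_le_exp.2 (by linarith))
    have hle1 : Real.exp (-(Real.log D / 4)) ≤ 1 := by
      rw [Real.exp_le_one_iff]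
      linarith
    have hT := QT_step hQ hD0 ρ hirr hnt h q K (by omega) (by omega) (hη.trans hle1)
    have hT2 : 3 * (q * ((q : ℝ) ^ 2 / D)) ^ K * (Fintype.card G : ℝ) ^ q ≤
        6 * Real.exp (-(K * Real.log D / 4)) * (Fintype.card G : ℝ) ^ q := by
      have f1 : (q * ((q : ℝ) ^ 2 / D)) ^ K ≤ Real.exp (-(K * Real.log D / 4)) := by
        calc (q * ((q : ℝ) ^ 2 / D)) ^ K ≤ (Real.exp (-(Real.log D / 4))) ^ K :=
              pow_le_pow_left₀ (by positivity) hη K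
          _ = _ := by
              rw [← Real.exp_nat_mul]
              congr 1
              ring
      have f2 : (0 : ℝ) ≤ (Fintype.card G : ℝ) ^ q := by positivity
      nlinarith [mul_le_mul_of_nonneg_right f1 f2]
    refine le_trans (Nat.cast_le.mpr (card_mono _ _ fun y hy => ?_)) (hT.trans hT2)
    intro hcon
    apply hy
    unfold stp
    rw [if_pos c1]
    unfold QQ
    by_cases c2 : ℓ + 1 < s
    · rw [if_pos c2]
      exact hcon
    · have c3 : ℓ + 1 = s := by omega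
      rw [if_neg c2, if_pos (by omega), c3]
      rw [c3] at hcon
      have c4 : s - s = 0 := by omega
      rw [c4]
      exact Qab_of_QT hP.hD hcon
  · by_cases c2 : ℓ < s + (n0 + n1)
    · unfold QQ at h
      rw [if_neg c1, if_pos c2] at h
      refine le_trans (Nat.cast_le.mpr (card_mono _ _ fun y hy => ?_))
        (Qab_step hQ ρ hirr hP (by omega : ℓ - s < n0 + n1) h)
      intro hcon
      apply hy
      unfold stp
      rw [if_neg c1]
      unfold QQ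
      rw [if_neg (by omega)]
      by_cases c3 : ℓ + 1 < s + (n0 + n1)
      · rw [if_pos c3]
        have c4 : ℓ + 1 - s = ℓ - s + 1 := by omega
        rw [c4]
        exact hcon
      · rw [if_neg c3, if_pos (by omega)]
        have c4 : ℓ + 1 - (s + (n0 + n1)) = 0 := by omega
        have c5 : ℓ - s + 1 = n0 + n1 := by omega
        rw [c4]
        rw [c5] at hcon
        exact Qc_of_Qab hcon
    · by_cases c3 : ℓ < s + (n0 + n1) + n2
      · unfold QQ at h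
        rw [if_neg c1, if_neg c2, if_pos c3] at h
        refine le_trans (Nat.cast_le.mpr (card_mono _ _ fun y hy => ?_))
          ((Qc_step ρ hirr hP.hD hK (by omega) h).trans (by linarith))
        intro hcon
        apply hy
        unfold stp
        rw [if_neg c1]
        unfold QQ
        rw [if_neg (by omega), if_neg (by omega)]
        by_cases c4 : ℓ + 1 < s + (n0 + n1) + n2
        · rw [if_pos c4]
          have c5 : ℓ + 1 - (s + (n0 + n1)) = ℓ - (s + (n0 + n1)) + 1 := by omega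
          rw [c5]
          exact hcon
        · rw [if_neg c4]
          have c5 : ℓ - (s + (n0 + n1)) + 1 = n2 := by omega
          rw [c5] at hcon
          exact Qf_of_Qc hP.hD (by omega) hd hcon
      · -- final range
        have hempty : Nat.card {y : Fin q → G //
            ¬ QQ D s n0 n1 n2 K (ℓ + 1) (stp ρ s ℓ A y)} = 0 := by
          rw [Nat.card_eq_zero]
          left
          refine ⟨fun y => y.2 ?_⟩
          unfold stp
          rw [if_neg c1]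
          have h' := QQ_last h (by omega)
          unfold QQ
          rw [if_neg (by omega), if_neg (by omega), if_neg (by omega)]
          refine ⟨h'.1.PC ρ y.1, fun v => ?_⟩
          unfold PC
          rw [LinearMap.smul_apply, inner_smul_left, Complex.conj_ofReal, Complex.re_ofReal_mul,
            LinearMap.sum_apply, sum_inner, Complex.re_sum]
          have hq0 : (0 : ℝ) < Fintype.card (Fin q) := by exact_mod_cast Fintype.card_pos
          calc 1 / (Fintype.card (Fin q) : ℝ) * ∑ i, (⟪cj ρ A (y.1 i) v, v⟫_ℂ).re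
              ≤ 1 / (Fintype.card (Fin q) : ℝ) * ∑ _i : Fin q, 3 * (1 / 2) ^ n1 * ‖v‖ ^ 2 := by
                refine mul_le_mul_of_nonneg_left (Finset.sum_le_sum fun i _ => ?_) (by positivity)
                exact (Qf_cj h' ρ (y.1 i)).2 v
            _ = _ := by
                rw [Finset.sum_const, Finset.card_univ, nsmul_eq_mul]
                field_simp
        rw [hempty]
        push_cast
        positivity

end

end Run7.h107
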