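import Pool.Agent.H14R2.RD.AMP4

/-!
Second moment estimates in quasirandom groups (helper107, MP_bc5a73_al).
-/

namespace Run7.h107
open RC14
open scoped InnerProductSpace
open Finset

/-- every unitary representation on which the group acts nontrivially has dimension
at least `D` -/
def QRd (G : Type) [Group G] (D : ℝ) : Prop :=
  ∀ (V : Type) [NormedAddCommGroup V] [InnerProductSpace ℂ V] [FiniteDimensional ℂ V]
    (ρ : G →* (V ≃ₗᵢ[ℂ] V)), (∃ g v, ρ g v ≠ v) → D ≤ Module.finrank ℂ V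

section
variable {G : Type} [Group G] [Fintype G]
variable {U : Type} [NormedAddCommGroup U] [InnerProductSpace ℂ U] [FiniteDimensional ℂ U]

/-- the sum of the rank one operators of the vectors `π g w` -/
noncomputable def rk (π : G →* (U ≃ₗᵢ[ℂ] U)) (w : U) : Module.End ℂ U :=
  ∑ g : G, ((innerₛₗ ℂ (π g w))).smulRight (π g w)

omit [FiniteDimensional ℂ U] in
lemma rk_apply (π : G →* (U ≃ₗᵢ[ℂ] U)) (w u : U) :
    rk π w u = ∑ g : G, ⟪π g w, u⟫_ℂ • π g w := by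
  simp [rk, LinearMap.sum_apply]

omit [FiniteDimensional ℂ U] in
lemma rk_symm (π : G →* (U ≃ₗᵢ[ℂ] U)) (w : U) : (rk π w).IsSymmetric := by
  intro u v
  rw [rk_apply, rk_apply, sum_inner, inner_sum]
  refine Finset.sum_congr rfl fun g _ => ?_
  rw [inner_smul_left, inner_smul_right, inner_conj_symm, mul_comm]

omit [FiniteDimensional ℂ U] in
lemma rk_com (π : G →* (U ≃ₗᵢ[ℂ] U)) (w u : U) (h : G) :
    rk π w (π h u) = π h (rk π w u) := by
  rw [rk_apply, rk_apply, map_sum, ← Equiv.sum_comp (Equiv.mulLeft h)]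
  refine Finset.sum_congr rfl fun g _ => ?_
  have h1 : π (h * g) w = π h (π g w) := by rw [map_mul]; rfl
  rw [Equiv.coe_mulLeft, map_smul, h1, (π h).inner_map_map]

omit [FiniteDimensional ℂ U] in
lemma rk_quad (π : G →* (U ≃ₗᵢ[ℂ] U)) (w u : U) :
    (⟪rk π w u, u⟫_ℂ).re = ∑ g : G, ‖⟪u, π g w⟫_ℂ‖ ^ 2 := by
  rw [rk_apply, sum_inner, Complex.re_sum]
  refine Finset.sum_congr rfl fun g _ => ?_
  rw [inner_smul_left, inner_conj_symm, ← inner_conj_symm (π g w) u, Complex.mul_conj,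
    Complex.normSq_eq_norm_sq, Complex.ofReal_re]

/-- second moment of the matrix coefficients -/
theorem QR2 {D : ℝ} (hD : QRd G D) (π : G →* (U ≃ₗᵢ[ℂ] U)) (w u : U)
    (hw : ∑ g : G, π g w = 0) :
    D * ∑ g : G, ‖⟪u, π g w⟫_ℂ‖ ^ 2 ≤ Fintype.card G * ‖u‖ ^ 2 * ‖w‖ ^ 2 := by
  classical
  obtain ⟨n, b, ν, hν, -⟩ := EXB.diag (rk π w) (rk_symm π w)
  have hq := EXB.quad b (rk π w) ν hν
  rcases le_or_gt D 0 with hD0 | hD0
  · have h1 : 0 ≤ ∑ g : G, ‖⟪u, π g w⟫_ℂ‖ ^ 2 := Finset.sum_nonneg fun g _ => by positivity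
    have h2 : 0 ≤ (Fintype.card G : ℝ) * ‖u‖ ^ 2 * ‖w‖ ^ 2 := by positivity
    nlinarith
  rcases Nat.eq_zero_or_pos n with hn | hn
  · subst hn
    have h1 := hq u
    rw [rk_quad] at h1
    rw [h1]
    simp only [Finset.univ_eq_empty, Finset.sum_empty, mul_zero]
    positivity
  haveI : Nonempty (Fin n) := ⟨⟨0, hn⟩⟩
  obtain ⟨i, -, hi⟩ := Finset.exists_max_image (Finset.univ : Finset (Fin n)) ν
    Finset.univ_nonempty
  have hle : ∑ g : G, ‖⟪u, π g w⟫_ℂ‖ ^ 2 ≤ ν i * ‖u‖ ^ 2 := by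
    rw [← rk_quad, hq u, ← b.sum_sq_norm_inner_right u, Finset.mul_sum]
    exact Finset.sum_le_sum fun j _ => mul_le_mul_of_nonneg_right (hi j (mem_univ j))
      (by positivity)
  rcases le_or_gt (ν i) 0 with hν0 | hν0
  · have h1 : 0 ≤ ∑ g : G, ‖⟪u, π g w⟫_ℂ‖ ^ 2 := Finset.sum_nonneg fun g _ => by positivity
    have h2 : ν i * ‖u‖ ^ 2 ≤ 0 := mul_nonpos_of_nonpos_of_nonneg hν0 (by positivity)
    have h3 : ∑ g : G, ‖⟪u, π g w⟫_ℂ‖ ^ 2 = 0 := le_antisymm (hle.trans h2) h1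
    rw [h3, mul_zero]
    positivity
  -- the top eigenspace
  set E : Submodule ℂ U := Module.End.eigenspace (rk π w) ((ν i : ℝ) : ℂ) with hE
  have hEmem : ∀ v, v ∈ E ↔ rk π w v = ((ν i : ℝ) : ℂ) • v := fun v => by
    rw [hE, Module.End.mem_eigenspace_iff]
  have hinv : Inv π E := by
    intro g v hv
    rw [hEmem] at hv ⊢
    rw [rk_com, hv, map_smul]
  have hnt : ∃ g, ∃ v : E, res π E hinv g v ≠ v := by
    by_contra hcon
    push Not at hcon
    have hb : b i ∈ E := by rw [hEmem]; exact hν i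
    have h1 : ∀ g, π g (b i) = b i := by
      intro g
      have := congrArg Subtype.val (hcon g ⟨b i, hb⟩)
      simpa using this
    have h2 : ∀ g, ⟪π g w, b i⟫_ℂ = ⟪w, b i⟫_ℂ := by
      intro g
      conv_lhs => rw [← h1 g]
      exact (π g).inner_map_map _ _
    have h3 : (Fintype.card G : ℂ) * ⟪w, b i⟫_ℂ = 0 := by
      calc (Fintype.card G : ℂ) * ⟪w, b i⟫_ℂ = ∑ g : G, ⟪π g w, b i⟫_ℂ := by
            simp [h2]
        _ = ⟪∑ g : G, π g w, b i⟫_ℂ := by rw [sum_inner]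
        _ = 0 := by rw [hw, inner_zero_left]
    have hc : (Fintype.card G : ℂ) ≠ 0 := by
      exact_mod_cast Fintype.card_ne_zero
    have h4 : ⟪w, b i⟫_ℂ = 0 := (mul_eq_zero.mp h3).resolve_left hc
    have h5 : rk π w (b i) = 0 := by
      rw [rk_apply]
      refine Finset.sum_eq_zero fun g _ => ?_
      rw [h2, h4, zero_smul]
    rw [hν i] at h5
    rcases smul_eq_zero.mp h5 with h | h
    · exact hν0.ne' (by exact_mod_cast h)
    · exact b.orthonormal.ne_zero i h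
  have hdim : D ≤ Module.finrank ℂ E := hD E (res π E hinv) hnt
  -- Bessel
  have hbes : (Module.finrank ℂ E : ℝ) * ν i ≤ Fintype.card G * ‖w‖ ^ 2 := by
    set e := stdOrthonormalBasis ℂ E with he
    have hon : Orthonormal ℂ (fun j => (e j : U)) := by
      have := e.orthonormal
      rw [orthonormal_iff_ite] at this ⊢
      intro a c
      rw [← this a c]
      rfl
    have h1 : ∀ j, ∑ g : G, ‖⟪(e j : U), π g w⟫_ℂ‖ ^ 2 = ν i := by
      intro j
      have hj := (hEmem (e j : U)).mp (e j).2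
      rw [← rk_quad, hj, inner_smul_left, Complex.conj_ofReal, Complex.re_ofReal_mul,
        inner_self_eq_norm_sq_to_K]
      have h2 : ‖(e j : U)‖ = 1 := by
        have := hon.1 j
        exact this
      rw [h2]
      simp
    have h2 : (Module.finrank ℂ E : ℝ) * ν i = ∑ j, ∑ g : G, ‖⟪(e j : U), π g w⟫_ℂ‖ ^ 2 := by
      simp [h1]
    rw [h2, Finset.sum_comm]
    have h3 : ∀ g : G, ∑ j, ‖⟪(e j : U), π g w⟫_ℂ‖ ^ 2 ≤ ‖w‖ ^ 2 := by
      intro g
      have := hon.sum_inner_products_le (x := π g w) (s := Finset.univ)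
      rwa [(π g).norm_map] at this
    calc ∑ g : G, ∑ j, ‖⟪(e j : U), π g w⟫_ℂ‖ ^ 2 ≤ ∑ _g : G, ‖w‖ ^ 2 :=
          Finset.sum_le_sum fun g _ => h3 g
      _ = _ := by simp
  have h1 : D * ν i ≤ Fintype.card G * ‖w‖ ^ 2 :=
    (mul_le_mul_of_nonneg_right hdim hν0.le).trans hbes
  calc D * ∑ g : G, ‖⟪u, π g w⟫_ℂ‖ ^ 2 ≤ D * (ν i * ‖u‖ ^ 2) :=
        mul_le_mul_of_nonneg_left hle hD0.le
    _ = (D * ν i) * ‖u‖ ^ 2 := by ring
    _ ≤ (Fintype.card G * ‖w‖ ^ 2) * ‖u‖ ^ 2 := mul_le_mul_of_nonneg_right h1 (by positivity)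
    _ = _ := by ring

end

end Run7.h107
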