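import Pool.Agent.Run7.h107.AMP
import Pool.Agent.H92R2.RC.TYPES

/-!
The right regular representation, the union bound, and vertex expansion
(helper107, MP_bc5a73_al).
-/

namespace Run7.h107
open RC14
open scoped InnerProductSpace
open Finset

section
variable {G : Type} [Group G] [Fintype G]

/-- functions on `G` -/
abbrev FG (G : Type) [Fintype G] : Type := EuclideanSpace ℂ G

/-- right regular representation `(R(g) f)(h) = f(h g)` -/
noncomputable def Rg (G : Type) [Group G] [Fintype G] : G →* (FG G ≃ₗᵢ[ℂ] FG G) where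
  toFun g := LinearIsometryEquiv.piLpCongrLeft 2 ℂ ℂ (Equiv.mulRight g⁻¹)
  map_one' := by
    ext f a
    simp only [LinearIsometryEquiv.piLpCongrLeft_apply, Equiv.piCongrLeft'_apply]
    simp
    rfl
  map_mul' g h := by
    ext f a
    change f.ofLp ((Equiv.mulRight (g * h)⁻¹).symm a) =
      f.ofLp ((Equiv.mulRight h⁻¹).symm ((Equiv.mulRight g⁻¹).symm a))
    simp [mul_assoc]

lemma Rg_apply (g : G) (f : FG G) (h : G) : Rg G g f h = f (h * g) := by
  simp [Rg, LinearIsometryEquiv.piLpCongrLeft_apply, Equiv.piCongrLeft']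

/-- functions of mean zero -/
def L0 (G : Type) [Group G] [Fintype G] : Submodule ℂ (FG G) where
  carrier := {f | ∑ g, f g = 0}
  zero_mem' := by simp
  add_mem' := by
    intro f g hf hg
    simp only [Set.mem_setOf_eq, PiLp.add_apply, Finset.sum_add_distrib] at *
    rw [hf, hg, add_zero]
  smul_mem' := by
    intro c f hf
    simp only [Set.mem_setOf_eq, PiLp.smul_apply, smul_eq_mul, ← Finset.mul_sum] at *
    rw [hf, mul_zero]

lemma mem_L0 {f : FG G} : f ∈ L0 G ↔ ∑ g, f g = 0 := Iff.rfl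

lemma L0_inv : Inv (Rg G) (L0 G) := by
  intro g f hf
  rw [mem_L0] at hf ⊢
  simp only [Rg_apply]
  rw [← hf]
  exact Fintype.sum_equiv (Equiv.mulRight g) _ _ fun h => rfl

lemma L0_nt (W : Submodule ℂ (FG G)) (hW : Irr (Rg G) W) (hle : W ≤ L0 G) :
    ∃ g v, res (Rg G) W hW.2.1 g v ≠ v := by
  by_contra hcon
  push Not at hcon
  apply hW.1
  rw [Submodule.eq_bot_iff]
  intro w hw
  have h1 : ∀ g h : G, w (h * g) = w h := by
    intro g h
    have h2 := congrArg Subtype.val (hcon g ⟨w, hw⟩)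
    have h3 : Rg G g w = w := h2
    rw [← Rg_apply, h3]
  have h2 : ∀ g : G, w g = w 1 := fun g => by
    have := h1 g 1
    rwa [one_mul] at this
  have h3 := mem_L0.mp (hle hw)
  simp only [h2] at h3
  rw [Finset.sum_const, Finset.card_univ, nsmul_eq_mul] at h3
  have hc : (Fintype.card G : ℂ) ≠ 0 := by exact_mod_cast Fintype.card_ne_zero
  have h4 : w 1 = 0 := (mul_eq_zero.mp h3).resolve_left hc
  ext g
  rw [h2, h4]
  rfl

/-- energies on a subspace -/
lemma En_res {V : Type} [NormedAddCommGroup V] [InnerProductSpace ℂ V]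
    (ρ : G →* (V ≃ₗᵢ[ℂ] V)) (W : Submodule ℂ V) (hW : Inv ρ W) {ι : Type} [Fintype ι]
    (y : ι → G) (v : W) : En (res ρ W hW) y v = En ρ y (v : V) := rfl

lemma FE_res {V : Type} [NormedAddCommGroup V] [InnerProductSpace ℂ V]
    (ρ : G →* (V ≃ₗᵢ[ℂ] V)) (W : Submodule ℂ V) (hW : Inv ρ W) {q L t : ℕ}
    (a : Fin t → Ch G q L) (v : W) : FE (res ρ W hW) a v = FE ρ a (v : V) := rfl

lemma FE_isEn {V : Type} [NormedAddCommGroup V] [InnerProductSpace ℂ V]
    (ρ : G →* (V ≃ₗᵢ[ℂ] V)) {q L t : ℕ} (a : Fin t → Ch G q L) : IsEn ρ (FE ρ a) := by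
  have h1 : IsEn ρ (fun v => 1 / (t : ℝ) * ∑ i, (‖ρ (a i).1.1 v - v‖ ^ 2 +
      16 / (q : ℝ) * ∑ r, En ρ ((a i).1.2 r) v + 2 * ‖ρ (a i).2 v - v‖ ^ 2)) := by
    refine IsEn.smul _ (by positivity) (IsEn.sum _ _ fun i => ?_)
    refine IsEn.add (IsEn.add (IsEn.single ρ _) (IsEn.smul _ (by positivity)
      (IsEn.sum _ _ fun r => IsEn.en ρ _))) (IsEn.smul _ (by norm_num) (IsEn.single ρ _))
  exact h1

/-- the energy of all letters -/
noncomputable def Phi {V : Type} [NormedAddCommGroup V] [InnerProductSpace ℂ V]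
    (ρ : G →* (V ≃ₗᵢ[ℂ] V)) {q L t p R : ℕ}
    (a : (Fin t → Ch G q L) × (Fin R → Fin p → G)) (v : V) : ℝ :=
  12 * FE ρ a.1 v + 10 / (p : ℝ) * ∑ r, En ρ (a.2 r) v

lemma Phi_isEn {V : Type} [NormedAddCommGroup V] [InnerProductSpace ℂ V]
    (ρ : G →* (V ≃ₗᵢ[ℂ] V)) {q L t p R : ℕ}
    (a : (Fin t → Ch G q L) × (Fin R → Fin p → G)) : IsEn ρ (Phi ρ a) := by
  have h1 : IsEn ρ (fun v => 12 * FE ρ a.1 v + 10 / (p : ℝ) * ∑ r, En ρ (a.2 r) v) :=
    IsEn.add (IsEn.smul _ (by norm_num) (FE_isEn _ _)) (IsEn.smul _ (by positivity)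
      (IsEn.sum _ _ fun r => IsEn.en _ _))
  exact h1

/-- the bound on the number of bad families, for one type -/
noncomputable def bB (G : Type) [Fintype G] (l : ℝ) (q L t p R : ℕ) : ℝ :=
  (Real.exp (-(l * q ^ L * t / 20)) + R * Real.exp (-(l * q ^ L * t * p / 640))) *
        (Fintype.card (Fin t → Ch G q L) * Fintype.card (Fin R → Fin p → G))

/-- the bound for one irreducible subspace -/
theorem AMPW {V : Type} [NormedAddCommGroup V] [InnerProductSpace ℂ V] [FiniteDimensional ℂ V]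
    (ρ : G →* (V ≃ₗᵢ[ℂ] V)) {D : ℝ} (hD : QRd G D) (hD0 : 0 < D)
    (W : Submodule ℂ V) (hW : Irr ρ W) (hnt : ∃ g v, res ρ W hW.2.1 g v ≠ v)
    {l : ℝ} (hl : 0 < l) (hl1 : l ≤ 1 / 10) {q : ℕ} (hq : 2 ≤ q)
    (L : ℕ) (hB : Real.exp (62 / 100 * (l * q ^ L)) + Real.exp (l * q ^ L) *
          (100 / D + 80000 * L * q * Real.exp (2 * (l * q ^ L)) / (D * l ^ 2)) ≤
      Real.exp (65 / 100 * (l * q ^ L)))
    {t : ℕ} (ht : 1 ≤ t) (ht2 : 320 ≤ l * q ^ L * t) {p : ℕ} (hp : 2 ≤ p) (R : ℕ)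
    (hd : (Module.finrank ℂ W : ℝ) < Real.exp (l * q ^ L * t * (p : ℝ) ^ R / 160)) :
    (Nat.card {a : (Fin t → Ch G q L) × (Fin R → Fin p → G) // ¬ ∀ v ∈ W,
        1 * ‖v‖ ^ 2 ≤ Phi ρ a v} : ℝ) ≤ bB G l q L t p R := by
  have h := AMPQ hD hD0 (res ρ W hW.2.1) (AMP1.irr_res ρ W hW)
    hnt hl hl1 hq L hB ht ht2 hp R hd
  refine le_trans (Nat.cast_le.mpr (card_mono _ _ ?_)) h
  intro a ha hcon
  apply ha
  intro v hv
  exact hcon ⟨v, hv⟩

/-- the union bound over the types of irreducible representations -/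
theorem UBV {V : Type} [NormedAddCommGroup V] [InnerProductSpace ℂ V] [FiniteDimensional ℂ V]
    (ρ : G →* (V ≃ₗᵢ[ℂ] V)) (M : Submodule ℂ V) (hM : Inv ρ M)
    (hnt : ∀ W : Submodule ℂ V, ∀ hW : Irr ρ W, W ≤ M → ∃ g v, res ρ W hW.2.1 g v ≠ v)
    {D : ℝ} (hD : QRd G D) (hD0 : 0 < D)
    {l : ℝ} (hl : 0 < l) (hl1 : l ≤ 1 / 10) {q : ℕ} (hq : 2 ≤ q)
    (L : ℕ) (hB : Real.exp (62 / 100 * (l * q ^ L)) + Real.exp (l * q ^ L) *
          (100 / D + 80000 * L * q * Real.exp (2 * (l * q ^ L)) / (D * l ^ 2)) ≤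
      Real.exp (65 / 100 * (l * q ^ L)))
    {t : ℕ} (ht : 1 ≤ t) (ht2 : 320 ≤ l * q ^ L * t) {p : ℕ} (hp : 2 ≤ p) (R : ℕ)
    (hd : (Module.finrank ℂ V : ℝ) < Real.exp (l * q ^ L * t * (p : ℝ) ^ R / 160)) :
    (Nat.card {a : (Fin t → Ch G q L) × (Fin R → Fin p → G) // ¬ ∀ v ∈ M,
        1 * ‖v‖ ^ 2 ≤ Phi ρ a v} : ℝ) ≤
      (Nat.card (ConjClasses G) : ℕ) * bB G l q L t p R := by
  have hbB : 0 ≤ bB G l q L t p R := by
    unfold bB
    positivity
  have key : ∀ W : Submodule ℂ V, Irr ρ W → W ≤ M →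
      (Nat.card {a : (Fin t → Ch G q L) × (Fin R → Fin p → G) // ¬ ∀ v ∈ W,
        1 * ‖v‖ ^ 2 ≤ Phi ρ a v} : ℝ) ≤ bB G l q L t p R := by
    intro W hW hle
    have hfr : (Module.finrank ℂ W : ℝ) ≤ Module.finrank ℂ V := by
      exact_mod_cast Submodule.finrank_le W
    exact AMPW ρ hD hD0 W hW (hnt W hW hle) hl hl1 hq L hB ht ht2 hp R
      (lt_of_le_of_lt hfr hd)
  exact UBG ρ M (Nat.card (ConjClasses G)) (TYPES ρ M hM)
    (fun a => Phi ρ a) (fun a => Phi_isEn _ a) 1 _ hbB key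

/-- the union bound for the regular representation -/
theorem UB {D : ℝ} (hD : QRd G D) (hD0 : 0 < D)
    {l : ℝ} (hl : 0 < l) (hl1 : l ≤ 1 / 10) {q : ℕ} (hq : 2 ≤ q)
    (L : ℕ) (hB : Real.exp (62 / 100 * (l * q ^ L)) + Real.exp (l * q ^ L) *
          (100 / D + 80000 * L * q * Real.exp (2 * (l * q ^ L)) / (D * l ^ 2)) ≤
      Real.exp (65 / 100 * (l * q ^ L)))
    {t : ℕ} (ht : 1 ≤ t) (ht2 : 320 ≤ l * q ^ L * t) {p : ℕ} (hp : 2 ≤ p) (R : ℕ)
    (hd : (Fintype.card G : ℝ) < Real.exp (l * q ^ L * t * (p : ℝ) ^ R / 160)) :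
    (Nat.card {a : (Fin t → Ch G q L) × (Fin R → Fin p → G) // ¬ ∀ v ∈ L0 G,
        1 * ‖v‖ ^ 2 ≤ Phi (Rg G) a v} : ℝ) ≤
      (Nat.card (ConjClasses G) : ℕ) * bB G l q L t p R := by
  refine UBV (Rg G) (L0 G) L0_inv L0_nt hD hD0 hl hl1 hq L hB ht ht2 hp R ?_
  have h2 : Module.finrank ℂ (FG G) = Fintype.card G := finrank_euclideanSpace
  rw [h2]
  exact hd

/-! ### vertex expansion -/

/-- the Cayley graph of the letters `x` is `ε`-vertex-expanding -/
def VE (G : Type) [Group G] {m : ℕ} (x : Fin m → G) (ε : ℝ) : Prop :=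
  ∀ A : Set G, 2 * Nat.card A ≤ Nat.card G →
    ε * (Nat.card A : ℝ) ≤
      (Nat.card {g : G // g ∉ A ∧ ∃ a ∈ A, ∃ i : Fin m, g = a * x i ∨ g = a * (x i)⁻¹} : ℝ)

/-- the centred indicator function -/
noncomputable def cind (A : Set G) : FG G :=
  WithLp.toLp 2 fun g => by
    classical exact (((if g ∈ A then (1 : ℝ) else 0) -
      (Nat.card A : ℝ) / Fintype.card G : ℝ) : ℂ)

open Classical in
lemma cind_apply (A : Set G) (g : G) :
    cind A g = (((if g ∈ A then (1 : ℝ) else 0) - (Nat.card A : ℝ) / Fintype.card G : ℝ) : ℂ) := by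
  unfold cind
  rfl

open Classical in
lemma sum_ind (A : Set G) : ∑ g : G, (if g ∈ A then (1 : ℝ) else 0) = Nat.card A := by
  rw [Nat.card_eq_fintype_card, ← Finset.sum_filter, Finset.sum_const, nsmul_eq_mul, mul_one,
    ← Set.toFinset_card]
  congr 2
  ext g
  simp

omit [Group G] in
lemma cG_pos [Nonempty G] : (0 : ℝ) < Fintype.card G := by exact_mod_cast Fintype.card_pos

lemma cind_mem (A : Set G) : cind A ∈ L0 G := by
  classical
  rw [mem_L0]
  simp only [cind_apply]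
  rw [← Complex.ofReal_sum, Finset.sum_sub_distrib, sum_ind, Finset.sum_const, Finset.card_univ,
    nsmul_eq_mul]
  have := cG_pos (G := G)
  field_simp
  simp

lemma cind_norm (A : Set G) :
    ‖cind A‖ ^ 2 = (Nat.card A : ℝ) - (Nat.card A : ℝ) ^ 2 / Fintype.card G := by
  classical
  rw [EuclideanSpace.norm_sq_eq]
  have h1 : ∀ g, ‖(cind A) g‖ ^ 2 = (if g ∈ A then (1 : ℝ) else 0) *
      (1 - 2 * ((Nat.card A : ℝ) / Fintype.card G)) + ((Nat.card A : ℝ) / Fintype.card G) ^ 2 := by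
    intro g
    rw [cind_apply, Complex.norm_real, Real.norm_eq_abs, sq_abs]
    split_ifs <;> ring
  simp only [h1]
  rw [Finset.sum_add_distrib, ← Finset.sum_mul, sum_ind, Finset.sum_const, Finset.card_univ,
    nsmul_eq_mul]
  have := cG_pos (G := G)
  field_simp
  ring

/-- displacement of the indicator function by a letter -/
lemma cind_disp (A : Set G) (B : Set G) (y : G)
    (hB : ∀ g, g ∉ A → (∃ a ∈ A, g = a * y ∨ g = a * y⁻¹) → g ∈ B) :
    ‖Rg G y (cind A) - cind A‖ ^ 2 ≤ 2 * Nat.card B := by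
  classical
  rw [EuclideanSpace.norm_sq_eq]
  have h1 : ∀ g, ‖(Rg G y (cind A) - cind A) g‖ ^ 2 ≤
      (if g * y ∈ B then (1 : ℝ) else 0) + (if g ∈ B then (1 : ℝ) else 0) := by
    intro g
    have e : (Rg G y (cind A) - cind A) g = (((if g * y ∈ A then (1 : ℝ) else 0) -
        (if g ∈ A then (1 : ℝ) else 0) : ℝ) : ℂ) := by
      rw [PiLp.sub_apply, Rg_apply, cind_apply, cind_apply, ← Complex.ofReal_sub]
      congr 1
      ring
    rw [e, Complex.norm_real, Real.norm_eq_abs, sq_abs]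
    by_cases ha : g ∈ A
    · by_cases hb : g * y ∈ A
      · rw [if_pos hb, if_pos ha]
        split_ifs <;> norm_num
      · have : g * y ∈ B := hB _ hb ⟨g, ha, Or.inl rfl⟩
        rw [if_neg hb, if_pos ha, if_pos this]
        split_ifs <;> norm_num
    · by_cases hb : g * y ∈ A
      · have : g ∈ B := hB _ ha ⟨g * y, hb, Or.inr (by group)⟩
        rw [if_pos hb, if_neg ha, if_pos this]
        split_ifs <;> norm_num
      · rw [if_neg hb, if_neg ha]
        split_ifs <;> norm_num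
  refine (Finset.sum_le_sum fun g _ => h1 g).trans ?_
  rw [Finset.sum_add_distrib, sum_ind]
  have h2 : ∑ g : G, (if g * y ∈ B then (1 : ℝ) else 0) = Nat.card B := by
    rw [← sum_ind B]
    exact Fintype.sum_equiv (Equiv.mulRight y) _ _ fun g => rfl
  rw [h2]
  linarith

/-- a family of letters with an energy inequality is expanding -/
theorem VE_of_energy {m : ℕ} (x : Fin m → G) {q L t p R : ℕ} (hq : 1 ≤ q) (ht : 1 ≤ t)
    (hp : 1 ≤ p) (a : Fin t → Ch G q L) (z : Fin R → Fin p → G)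
    (ha1 : ∀ i, ∃ j, (a i).1.1 = x j) (ha2 : ∀ i r s, ∃ j, (a i).1.2 r s = x j)
    (ha3 : ∀ i, ∃ j, (a i).2 = x j) (hz : ∀ r s, ∃ j, z r s = x j)
    (h : ∀ v ∈ L0 G, 1 * ‖v‖ ^ 2 ≤ Phi (Rg G) (a, z) v) :
    VE G x (1 / (144 + 768 * L + 40 * R)) := by
  classical
  intro A hA
  set B : Set G := {g : G | g ∉ A ∧ ∃ a ∈ A, ∃ i : Fin m, g = a * x i ∨ g = a * (x i)⁻¹} with hB
  have hcB : Nat.card {g : G // g ∉ A ∧ ∃ a ∈ A, ∃ i : Fin m, g = a * x i ∨ g = a * (x i)⁻¹} =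
      Nat.card B := rfl
  rw [hcB]
  set b : ℝ := (Nat.card B : ℝ) with hb
  have hb0 : 0 ≤ b := Nat.cast_nonneg _
  have hj : ∀ j, ‖Rg G (x j) (cind A) - cind A‖ ^ 2 ≤ 2 * b := by
    intro j
    refine cind_disp A B (x j) fun g hg hg2 => ?_
    obtain ⟨a, ha, h⟩ := hg2
    exact ⟨hg, a, ha, j, h⟩
  have hEn : ∀ {k : ℕ} (y : Fin k → G), (∀ s, ∃ j, y s = x j) →
      En (Rg G) y (cind A) ≤ k * (2 * b) := by
    intro k y hy
    unfold En
    calc ∑ i, ‖Rg G (y i) (cind A) - cind A‖ ^ 2 ≤ ∑ _i : Fin k, 2 * b := by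
          refine Finset.sum_le_sum fun i _ => ?_
          obtain ⟨j, hj'⟩ := hy i
          rw [hj']
          exact hj j
      _ = _ := by simp
  have hq0 : (0 : ℝ) < q := by exact_mod_cast hq
  have hp0 : (0 : ℝ) < p := by exact_mod_cast hp
  have ht0 : (0 : ℝ) < t := by exact_mod_cast ht
  have hFE : FE (Rg G) a (cind A) ≤ 2 * b * (3 + 16 * L) := by
    unfold FE
    rw [one_div, inv_mul_le_iff₀ ht0]
    calc _ ≤ ∑ _i : Fin t, 2 * b * (3 + 16 * L) := by
          refine Finset.sum_le_sum fun i _ => ?_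
          obtain ⟨j1, h1⟩ := ha1 i
          obtain ⟨j3, h3⟩ := ha3 i
          have h2 : ∑ r, En (Rg G) ((a i).1.2 r) (cind A) ≤ L * (q * (2 * b)) := by
            calc _ ≤ ∑ _r : Fin L, (q : ℝ) * (2 * b) :=
                  Finset.sum_le_sum fun r _ => hEn _ fun s => ha2 i r s
              _ = _ := by simp
          have h4 : 16 / (q : ℝ) * ∑ r, En (Rg G) ((a i).1.2 r) (cind A) ≤ 16 * L * (2 * b) := by
            calc _ ≤ 16 / (q : ℝ) * (L * (q * (2 * b))) :=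
                  mul_le_mul_of_nonneg_left h2 (by positivity)
              _ = _ := by field_simp
          have h5 := hj j1
          have h6 := hj j3
          rw [← h1] at h5
          rw [← h3] at h6
          linarith
      _ = _ := by simp
  have hR : 10 / (p : ℝ) * ∑ r, En (Rg G) (z r) (cind A) ≤ 20 * R * b := by
    have h2 : ∑ r, En (Rg G) (z r) (cind A) ≤ R * (p * (2 * b)) := by
      calc _ ≤ ∑ _r : Fin R, (p : ℝ) * (2 * b) :=
            Finset.sum_le_sum fun r _ => hEn _ fun s => hz r s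
        _ = _ := by simp
    calc _ ≤ 10 / (p : ℝ) * (R * (p * (2 * b))) := mul_le_mul_of_nonneg_left h2 (by positivity)
      _ = _ := by field_simp; ring
  have h1 := h (cind A) (cind_mem A)
  unfold Phi at h1
  rw [one_mul, cind_norm] at h1
  simp only at h1
  have hG := cG_pos (G := G)
  have h2 : (Nat.card A : ℝ) ^ 2 / Fintype.card G ≤ Nat.card A / 2 := by
    rw [div_le_iff₀ hG]
    have h3 : 2 * (Nat.card A : ℝ) ≤ Fintype.card G := by
      rw [← Nat.card_eq_fintype_card]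
      exact_mod_cast hA
    have h4 : (0 : ℝ) ≤ Nat.card A := Nat.cast_nonneg _
    nlinarith
  have h5 : (Nat.card A : ℝ) ≤ (144 + 768 * L + 40 * R) * b := by linarith
  have h6 : (0 : ℝ) < 144 + 768 * L + 40 * R := by positivity
  rw [one_div, inv_mul_le_iff₀ h6]
  exact h5

end

end Run7.h107
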