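import Pool.Agent.Run7.h107.QPRED

/-!
Sequences of positions, fresh and repeated classes of letters (helper107, MP_bc5a73_al).
-/

namespace Run7.h107
open RC14
open scoped InnerProductSpace ComplexConjugate
open Finset

section
variable {G : Type} [Group G]
variable {V : Type} [NormedAddCommGroup V] [InnerProductSpace ℂ V] [FiniteDimensional ℂ V]

/-- product of a sequence of endomorphisms -/
def PR {M : Type} [Monoid M] : (n : ℕ) → (Fin n → M) → M
  | 0, _ => 1
  | n + 1, f => PR n (fun k => f k.castSucc) * f (Fin.last n)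

/-- a letter or its inverse -/
def sg (b : Bool) (g : G) : G := if b then g else g⁻¹

/-- the operator at a position: the average over the class if the flag is set -/
noncomputable def fop (ρ : G →* (V ≃ₗᵢ[ℂ] V)) {q : ℕ} (J : Bool) (σ : Bool) (i : Fin q)
    (y : Fin q → G) : Module.End ℂ V :=
  if J then MQ ρ (fun i' => sg σ (y i')) else op ρ (sg σ (y i))

/-- number of flags -/
def cnt {n : ℕ} (J : Fin n → Bool) : ℕ := ∑ k, if J k = true then 1 else 0

lemma cnt_succ {n : ℕ} (J : Fin (n + 1) → Bool) :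
    cnt J = cnt (fun k => J k.castSucc) + if J (Fin.last n) = true then 1 else 0 := by
  unfold cnt
  rw [Fin.sum_univ_castSucc]

variable {C : Type} [Fintype C] [DecidableEq C]

/-- the state after `n` positions -/
noncomputable def St (ρ : G →* (V ≃ₗᵢ[ℂ] V)) (s : ℕ) {q : ℕ} (x : C → Fin q → G) :
    (n : ℕ) → (Fin n → C) → (Fin n → Bool) → (Fin n → Bool) → (Fin n → Fin q) →
      Module.End ℂ V
  | 0, _, _, _, _ => 1
  | n + 1, c, J, σ, i =>
    if J (Fin.last n) = true then
      stp ρ s (cnt fun k => J k.castSucc)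
        (St ρ s x n (fun k => c k.castSucc) (fun k => J k.castSucc) (fun k => σ k.castSucc)
          (fun k => i k.castSucc))
        (fun i' => (sg (σ (Fin.last n)) (x (c (Fin.last n)) i'))⁻¹)
    else cj ρ (St ρ s x n (fun k => c k.castSucc) (fun k => J k.castSucc)
          (fun k => σ k.castSucc) (fun k => i k.castSucc))
        (sg (σ (Fin.last n)) (x (c (Fin.last n)) (i (Fin.last n))))⁻¹

/-- the product of the operators -/
noncomputable def Wn (ρ : G →* (V ≃ₗᵢ[ℂ] V)) {q : ℕ} (x : C → Fin q → G)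
    (n : ℕ) (c : Fin n → C) (J σ : Fin n → Bool) (i : Fin n → Fin q) : Module.End ℂ V :=
  PR n fun k => fop ρ (J k) (σ k) (i k) (x (c k))

omit [Fintype C] [DecidableEq C] [FiniteDimensional ℂ V] in
lemma Wn_succ (ρ : G →* (V ≃ₗᵢ[ℂ] V)) {q : ℕ} (x : C → Fin q → G)
    (n : ℕ) (c : Fin (n + 1) → C) (J σ : Fin (n + 1) → Bool) (i : Fin (n + 1) → Fin q) :
    Wn ρ x (n + 1) c J σ i =
      Wn ρ x n (fun k => c k.castSucc) (fun k => J k.castSucc) (fun k => σ k.castSucc)
          (fun k => i k.castSucc) *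
        fop ρ (J (Fin.last n)) (σ (Fin.last n)) (i (Fin.last n)) (x (c (Fin.last n))) := rfl

omit [Fintype C] [DecidableEq C] in
/-- the state depends only on the classes which occur -/
lemma St_congr (ρ : G →* (V ≃ₗᵢ[ℂ] V)) (s : ℕ) {q : ℕ} (x x' : C → Fin q → G) :
    ∀ (n : ℕ) (c : Fin n → C) (J σ : Fin n → Bool) (i : Fin n → Fin q),
      (∀ k, x (c k) = x' (c k)) → St ρ s x n c J σ i = St ρ s x' n c J σ i
  | 0, _, _, _, _, _ => rfl
  | n + 1, c, J, σ, i, h => by
    rw [St, St, St_congr ρ s x x' n (fun k => c k.castSucc) _ _ _ fun k => h k.castSucc,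
      h (Fin.last n)]

/-- convexity of the quadratic form -/
lemma quad_conv {A : Module.End ℂ V} (hA : Bd A 1) {ι : Type} [Fintype ι] [Nonempty ι]
    (u : ι → V) :
    (⟪A (((1 / (Fintype.card ι : ℝ) : ℝ) : ℂ) • ∑ i, u i),
      ((1 / (Fintype.card ι : ℝ) : ℝ) : ℂ) • ∑ i, u i⟫_ℂ).re ≤
      1 / (Fintype.card ι : ℝ) * ∑ i, (⟪A (u i), u i⟫_ℂ).re := by
  obtain ⟨n, b, μ, h1, -⟩ := EXB.diag A hA.1
  have hq0 : (0 : ℝ) < Fintype.card ι := by exact_mod_cast Fintype.card_pos
  have hμ : ∀ i, 0 ≤ μ i := by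
    intro i
    have h3 := (hA.2 (b i)).1
    rw [h1, inner_smul_left, Complex.conj_ofReal, Complex.re_ofReal_mul,
      inner_self_eq_norm_sq_to_K, b.norm_eq_one] at h3
    simpa using h3
  rw [EXB.quad b A μ h1]
  simp only [EXB.quad b A μ h1]
  rw [Finset.sum_comm, Finset.mul_sum]
  refine Finset.sum_le_sum fun l _ => ?_
  rw [← Finset.mul_sum, mul_left_comm]
  refine mul_le_mul_of_nonneg_left ?_ (hμ l)
  rw [inner_smul_right, inner_sum, norm_mul, Complex.norm_real,
    Real.norm_of_nonneg (by positivity), mul_pow]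
  have h2 : ‖∑ i, ⟪b l, u i⟫_ℂ‖ ^ 2 ≤ Fintype.card ι * ∑ i, ‖⟪b l, u i⟫_ℂ‖ ^ 2 := by
    have h3 : ‖∑ i, ⟪b l, u i⟫_ℂ‖ ^ 2 ≤ (∑ i, ‖⟪b l, u i⟫_ℂ‖) ^ 2 :=
      pow_le_pow_left₀ (norm_nonneg _) (norm_sum_le _ _) 2
    have h4 := sq_sum_le_card_mul_sum_sq (s := (univ : Finset ι)) (f := fun i => ‖⟪b l, u i⟫_ℂ‖)
    rw [Finset.card_univ] at h4
    exact h3.trans h4
  calc (1 / (Fintype.card ι : ℝ)) ^ 2 * ‖∑ i, ⟪b l, u i⟫_ℂ‖ ^ 2
      ≤ (1 / (Fintype.card ι : ℝ)) ^ 2 * (Fintype.card ι * ∑ i, ‖⟪b l, u i⟫_ℂ‖ ^ 2) :=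
        mul_le_mul_of_nonneg_left h2 (by positivity)
    _ = _ := by field_simp

lemma stp_quad (ρ : G →* (V ≃ₗᵢ[ℂ] V)) (s ℓ : ℕ) {A : Module.End ℂ V} (hA : Bd A 1) {q : ℕ}
    [Nonempty (Fin q)] (z : Fin q → G) (v : V) :
    (⟪A (MQ ρ z v), MQ ρ z v⟫_ℂ).re ≤ (⟪stp ρ s ℓ A (fun i => (z i)⁻¹) v, v⟫_ℂ).re := by
  unfold stp
  split_ifs with h
  · have e1 : ((fun i => (z i)⁻¹) : Fin q → G)⁻¹ = z := by
      funext i
      simp
    have e2 : ∀ w u : V, ⟪MQ ρ (fun i => (z i)⁻¹) w, u⟫_ℂ = ⟪w, MQ ρ z u⟫_ℂ := by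
      intro w u
      rw [← LinearMap.adjoint_inner_right, adj_MQ, e1]
    rw [Module.End.mul_apply, Module.End.mul_apply, e2, e1]
  · have h1 := quad_conv hA (fun i => op ρ (z i) v)
    have e1 : MQ ρ z v = ((1 / (Fintype.card (Fin q) : ℝ) : ℝ) : ℂ) • ∑ i, op ρ (z i) v := by
      unfold MQ
      rw [LinearMap.smul_apply, LinearMap.sum_apply]
    rw [e1]
    refine h1.trans (le_of_eq ?_)
    unfold PC
    rw [LinearMap.smul_apply, inner_smul_left, Complex.conj_ofReal, Complex.re_ofReal_mul,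
      LinearMap.sum_apply, sum_inner, Complex.re_sum]
    congr 1
    refine Finset.sum_congr rfl fun i _ => ?_
    rw [cj_quad, inv_inv, op_apply]

omit [Fintype C] [DecidableEq C] in
/-- the state dominates the product -/
lemma St_dom (ρ : G →* (V ≃ₗᵢ[ℂ] V)) (s : ℕ) {q : ℕ} [Nonempty (Fin q)] (x : C → Fin q → G) :
    ∀ (n : ℕ) (c : Fin n → C) (J σ : Fin n → Bool) (i : Fin n → Fin q),
      Bd (St ρ s x n c J σ i) 1 ∧
      ∀ v, ‖Wn ρ x n c J σ i v‖ ^ 2 ≤ (⟪St ρ s x n c J σ i v, v⟫_ℂ).re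
  | 0, _, _, _, _ => by
    refine ⟨QT_bd QT_zero, fun v => ?_⟩
    unfold Wn
    rw [PR, St, Module.End.one_apply, inner_self_eq_norm_sq_to_K]
    norm_cast
  | n + 1, c, J, σ, i => by
    obtain ⟨h1, h2⟩ := St_dom ρ s x n (fun k => c k.castSucc) (fun k => J k.castSucc)
      (fun k => σ k.castSucc) (fun k => i k.castSucc)
    have hstep : ∀ z : Fin q → G, ∀ ℓ, Bd (stp ρ s ℓ (St ρ s x n (fun k => c k.castSucc)
        (fun k => J k.castSucc) (fun k => σ k.castSucc) (fun k => i k.castSucc)) z) 1 := by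
      intro z ℓ
      unfold stp
      split_ifs with h
      · refine ⟨?_, fun v => ?_⟩
        · intro v w
          rw [Module.End.mul_apply, Module.End.mul_apply, Module.End.mul_apply,
            Module.End.mul_apply, ← LinearMap.adjoint_inner_right, adj_MQ, h1.1,
            ← LinearMap.adjoint_inner_right, adj_MQ, inv_inv]
        · rw [Module.End.mul_apply, Module.End.mul_apply, ← LinearMap.adjoint_inner_right, adj_MQ]
          have h3 := h1.2 (MQ ρ z⁻¹ v)
          refine ⟨h3.1, h3.2.trans ?_⟩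
          rw [one_mul, one_mul]
          exact pow_le_pow_left₀ (norm_nonneg _) (MQ_norm ρ _ v) 2
      · exact h1.PC ρ z
    constructor
    · rw [St]
      split_ifs with hJ
      · exact hstep _ _
      · exact h1.cj ρ _
    · intro v
      rw [Wn_succ, St, Module.End.mul_apply]
      refine (h2 _).trans ?_
      unfold fop
      split_ifs with hJ
      · exact stp_quad ρ s _ h1 (fun i' => sg (σ (Fin.last n)) (x (c (Fin.last n)) i')) v
      · rw [cj_quad, inv_inv, op_apply]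

variable [Fintype G]

/-- the count of bad families of letters for one sequence of positions -/
theorem St_count {D : ℝ} (hQ : QRd G D) (ρ : G →* (V ≃ₗᵢ[ℂ] V)) (hirr : Irr ρ ⊤)
    (hnt : ∃ g v, ρ g v ≠ v) {s n0 n1 n2 K : ℕ} (hP : PP D s n0 n1 n2 K)
    (hd : Real.log (Module.finrank ℂ V) ≤ ((4 * K * 512 : ℕ) : ℝ) ^ n2 * Real.log D) :
    ∀ (n : ℕ) (c : Fin n → C) (J σ : Fin n → Bool) (i : Fin n → Fin (4 * K * 512)),
      (∀ k, J k = true → ∀ j, j < k → c j ≠ c k) →
      (Nat.card {x : C → Fin (4 * K * 512) → G //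
        ¬ QQ D s n0 n1 n2 K (cnt J) (St ρ s x n c J σ i)} : ℝ) ≤
      n * (6 * Real.exp (-(K * Real.log D / 4))) *
        Fintype.card (C → Fin (4 * K * 512) → G)
  | 0, c, J, σ, i, _ => by
    have h0 : Nat.card {x : C → Fin (4 * K * 512) → G //
        ¬ QQ D s n0 n1 n2 K (cnt J) (St ρ s x 0 c J σ i)} = 0 := by
      rw [Nat.card_eq_zero]
      left
      refine ⟨fun ⟨x, hx⟩ => hx ?_⟩
      have e1 : cnt J = 0 := by simp [cnt]
      rw [e1]
      exact QQ_zero hP
    rw [h0]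
    simp
  | n + 1, c, J, σ, i, hJ => by
    classical
    have ih := St_count hQ ρ hirr hnt hP hd n (fun k => c k.castSucc) (fun k => J k.castSucc)
      (fun k => σ k.castSucc) (fun k => i k.castSucc) (fun k hk j hj =>
        hJ k.castSucc hk j.castSucc (by simpa using hj))
    set η : ℝ := 6 * Real.exp (-(K * Real.log D / 4)) with hη
    have hη0 : 0 ≤ η := by positivity
    set Xc : ℝ := (Fintype.card (C → Fin (4 * K * 512) → G) : ℝ) with hXc
    have hX0 : 0 ≤ Xc := Nat.cast_nonneg _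
    set S0 : (C → Fin (4 * K * 512) → G) → Module.End ℂ V := fun x =>
      St ρ s x n (fun k => c k.castSucc) (fun k => J k.castSucc) (fun k => σ k.castSucc)
        (fun k => i k.castSucc) with hS0
    set ℓ : ℕ := cnt fun k => J k.castSucc with hℓ
    by_cases hl : J (Fin.last n) = true
    · have e1 : cnt J = ℓ + 1 := by rw [cnt_succ, if_pos hl]
      have e2 : ∀ x : C → Fin (4 * K * 512) → G, St ρ s x (n + 1) c J σ i =
          stp ρ s ℓ (S0 x) (fun i' => (sg (σ (Fin.last n)) (x (c (Fin.last n)) i'))⁻¹) := by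
        intro x
        rw [St, if_pos hl]
      simp only [e1, e2]
      have hun := card_union (Z := C → Fin (4 * K * 512) → G) (ι := Bool)
        (fun x => ¬ QQ D s n0 n1 n2 K (ℓ + 1)
          (stp ρ s ℓ (S0 x) (fun i' => (sg (σ (Fin.last n)) (x (c (Fin.last n)) i'))⁻¹)))
        (fun b x => if b then ¬ QQ D s n0 n1 n2 K ℓ (S0 x) else
          (QQ D s n0 n1 n2 K ℓ (S0 x) ∧ ¬ QQ D s n0 n1 n2 K (ℓ + 1)
          (stp ρ s ℓ (S0 x) (fun i' => (sg (σ (Fin.last n)) (x (c (Fin.last n)) i'))⁻¹)))) (by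
        intro x hx
        by_cases h : QQ D s n0 n1 n2 K ℓ (S0 x)
        · exact ⟨false, by simp only [Bool.false_eq_true, if_false]; exact ⟨h, hx⟩⟩
        · exact ⟨true, by simp only [if_true]; exact h⟩)
      rw [Fintype.sum_bool] at hun
      simp only [if_true, Bool.false_eq_true, if_false] at hun
      have hsec : (Nat.card {x : C → Fin (4 * K * 512) → G // QQ D s n0 n1 n2 K ℓ (S0 x) ∧
          ¬ QQ D s n0 n1 n2 K (ℓ + 1) (stp ρ s ℓ (S0 x)
            (fun i' => (sg (σ (Fin.last n)) (x (c (Fin.last n)) i'))⁻¹))} : ℝ) ≤ η * Xc := by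
        refine fibre (Y := Fin (4 * K * 512) → G) (fun x => QQ D s n0 n1 n2 K ℓ (S0 x) ∧
          ¬ QQ D s n0 n1 n2 K (ℓ + 1) (stp ρ s ℓ (S0 x)
            (fun i' => (sg (σ (Fin.last n)) (x (c (Fin.last n)) i'))⁻¹))) (c (Fin.last n))
          fun x => ?_
        have e3 : ∀ y, S0 (Function.update x (c (Fin.last n)) y) = S0 x := by
          intro y
          refine St_congr ρ s _ _ n _ _ _ _ fun k => ?_
          rw [Function.update_of_ne]
          exact hJ (Fin.last n) hl k.castSucc (Fin.castSucc_lt_last k)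
        simp only [e3, Function.update_self]
        by_cases h : QQ D s n0 n1 n2 K ℓ (S0 x)
        · have h1 := QQ_step hQ ρ hirr hnt hP hd h
          have h2 : Nat.card {y : Fin (4 * K * 512) → G // QQ D s n0 n1 n2 K ℓ (S0 x) ∧
              ¬ QQ D s n0 n1 n2 K (ℓ + 1) (stp ρ s ℓ (S0 x)
                (fun i' => (sg (σ (Fin.last n)) (y i'))⁻¹))} =
              Nat.card {y : Fin (4 * K * 512) → G //
                ¬ QQ D s n0 n1 n2 K (ℓ + 1) (stp ρ s ℓ (S0 x) y)} := by
            refine card_equiv (Equiv.piCongrRight fun _ =>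
              if σ (Fin.last n) then Equiv.inv G else Equiv.refl G) _ _ fun y => ?_
            have e4 : (fun i' => (sg (σ (Fin.last n)) (y i'))⁻¹) =
                (Equiv.piCongrRight fun _ : Fin (4 * K * 512) =>
                  if σ (Fin.last n) then Equiv.inv G else Equiv.refl G) y := by
              funext i'
              unfold sg
              cases σ (Fin.last n) <;> simp
            rw [← e4]
            exact ⟨fun h => h.2, fun h' => ⟨h, h'⟩⟩
          rw [h2, Fintype.card_fun, Fintype.card_fin]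
          push_cast at h1 ⊢
          exact h1
        · have h2 : Nat.card {y : Fin (4 * K * 512) → G // QQ D s n0 n1 n2 K ℓ (S0 x) ∧
              ¬ QQ D s n0 n1 n2 K (ℓ + 1) (stp ρ s ℓ (S0 x)
                (fun i' => (sg (σ (Fin.last n)) (y i'))⁻¹))} = 0 := by
            rw [Nat.card_eq_zero]
            left
            exact ⟨fun y => h y.2.1⟩
          rw [h2]
          push_cast
          positivity
      have hun' : (Nat.card {x : C → Fin (4 * K * 512) → G // ¬ QQ D s n0 n1 n2 K (ℓ + 1)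
          (stp ρ s ℓ (S0 x) (fun i' => (sg (σ (Fin.last n)) (x (c (Fin.last n)) i'))⁻¹))} : ℝ) ≤
          (Nat.card {x : C → Fin (4 * K * 512) → G // ¬ QQ D s n0 n1 n2 K ℓ (S0 x)} : ℝ) +
          (Nat.card {x : C → Fin (4 * K * 512) → G // QQ D s n0 n1 n2 K ℓ (S0 x) ∧
          ¬ QQ D s n0 n1 n2 K (ℓ + 1) (stp ρ s ℓ (S0 x)
            (fun i' => (sg (σ (Fin.last n)) (x (c (Fin.last n)) i'))⁻¹))} : ℝ) := by
        exact_mod_cast hun
      refine hun'.trans ?_
      have e5 : ((n + 1 : ℕ) : ℝ) * η * Xc = n * η * Xc + η * Xc := by push_cast; ring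
      rw [e5]
      exact add_le_add ih hsec
    · have e1 : cnt J = ℓ := by rw [cnt_succ, if_neg hl, add_zero]
      rw [e1]
      refine le_trans (Nat.cast_le.mpr (card_mono _ (fun x => ¬ QQ D s n0 n1 n2 K ℓ (S0 x))
        fun x hx hcon => hx ?_)) (ih.trans ?_)
      · rw [St, if_neg hl]
        exact QQ_cj hcon ρ _
      · push_cast
        nlinarith [mul_nonneg hη0 hX0]

end

end Run7.h107
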