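import Pool.Agent.Run7.h107.HS

/-!
One step of the concentration argument (helper107, MP_bc5a73_al).
-/

namespace Run7.h107
open RC14
open scoped InnerProductSpace
open Finset

section
variable {G : Type} [Group G]
variable {V : Type} [NormedAddCommGroup V] [InnerProductSpace ℂ V] [FiniteDimensional ℂ V]

/-- normalised trace -/
noncomputable def tn (A : Module.End ℂ V) : ℝ := rtr A / Module.finrank ℂ V

/-- `0 ≤ A ≤ a` -/
def Bd (A : Module.End ℂ V) (a : ℝ) : Prop :=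
  A.IsSymmetric ∧ ∀ v, 0 ≤ (⟪A v, v⟫_ℂ).re ∧ (⟪A v, v⟫_ℂ).re ≤ a * ‖v‖ ^ 2

omit [FiniteDimensional ℂ V] in
lemma Bd.add {A B : Module.End ℂ V} {a b : ℝ} (hA : Bd A a) (hB : Bd B b) :
    Bd (A + B) (a + b) := by
  refine ⟨PSBaux.add_symm A B hA.1 hB.1, fun v => ?_⟩
  rw [LinearMap.add_apply, inner_add_left, Complex.add_re, add_mul]
  exact ⟨add_nonneg (hA.2 v).1 (hB.2 v).1, add_le_add (hA.2 v).2 (hB.2 v).2⟩

omit [FiniteDimensional ℂ V] in
lemma Bd.zero : Bd (0 : Module.End ℂ V) 0 := by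
  refine ⟨fun v w => by simp, fun v => by simp⟩

omit [FiniteDimensional ℂ V] in
lemma Bd.smul {A : Module.End ℂ V} {a : ℝ} (hA : Bd A a) {t : ℝ} (ht : 0 ≤ t) :
    Bd ((t : ℂ) • A) (t * a) := by
  refine ⟨PSBaux.smul_symm A hA.1 t, fun v => ?_⟩
  rw [LinearMap.smul_apply, inner_smul_left, Complex.conj_ofReal, Complex.re_ofReal_mul]
  refine ⟨mul_nonneg ht (hA.2 v).1, ?_⟩
  rw [mul_assoc]
  exact mul_le_mul_of_nonneg_left (hA.2 v).2 ht

omit [FiniteDimensional ℂ V] in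
lemma cj_quad (ρ : G →* (V ≃ₗᵢ[ℂ] V)) (A : Module.End ℂ V) (z : G) (v : V) :
    ⟪cj ρ A z v, v⟫_ℂ = ⟪A (ρ z⁻¹ v), ρ z⁻¹ v⟫_ℂ := by
  have h : v = ρ z (ρ z⁻¹ v) := by
    rw [map_inv]
    exact ((ρ z).apply_symm_apply v).symm
  have h2 : cj ρ A z v = ρ z (A (ρ z⁻¹ v)) := rfl
  rw [h2]
  conv_lhs => rw [h]
  rw [(ρ z).inner_map_map, ← h]

omit [FiniteDimensional ℂ V] in
lemma Bd.cj {A : Module.End ℂ V} {a : ℝ} (hA : Bd A a) (ρ : G →* (V ≃ₗᵢ[ℂ] V)) (z : G) :
    Bd (cj ρ A z) a := by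
  refine ⟨PSBaux.cj_symm ρ A hA.1 z, fun v => ?_⟩
  rw [cj_quad]
  have := hA.2 (ρ z⁻¹ v)
  rwa [(ρ z⁻¹).norm_map] at this

omit [FiniteDimensional ℂ V] in
lemma Bd.sum {ι : Type*} (s : Finset ι) (A : ι → Module.End ℂ V) {a : ℝ}
    (hA : ∀ i ∈ s, Bd (A i) a) : Bd (∑ i ∈ s, A i) (s.card * a) := by
  classical
  induction s using Finset.induction_on with
  | empty => simpa using Bd.zero (V := V)
  | insert i s hi ih =>
    rw [Finset.sum_insert hi, Finset.card_insert_of_notMem hi]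
    have h1 := (hA i (Finset.mem_insert_self i s)).add
      (ih fun j hj => hA j (Finset.mem_insert_of_mem hj))
    have e : a + (s.card : ℝ) * a = ((s.card + 1 : ℕ) : ℝ) * a := by push_cast; ring
    rwa [e] at h1

omit [FiniteDimensional ℂ V] in
lemma Bd.PS {A : Module.End ℂ V} {a : ℝ} (hA : Bd A a) (ρ : G →* (V ≃ₗᵢ[ℂ] V)) {q : ℕ}
    (hq : 1 ≤ q) (z : Fin q → G) : Bd (PS ρ z A) a := by
  have h1 := (Bd.sum Finset.univ (fun i => RC14.cj ρ A (z i) + RC14.cj ρ A (z i)⁻¹) (a := a + a)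
    fun i _ => (hA.cj ρ (z i)).add (hA.cj ρ (z i)⁻¹)).smul (t := 1 / (2 * (q : ℝ)))
      (by positivity)
  have hq0 : (q : ℝ) ≠ 0 := by exact_mod_cast (by omega : q ≠ 0)
  have e : 1 / (2 * (q : ℝ)) * (((Finset.univ : Finset (Fin q)).card : ℝ) * (a + a)) = a := by
    rw [Finset.card_univ, Fintype.card_fin]
    field_simp
    ring
  rw [e] at h1
  unfold RC14.PS
  have e2 : ((1 / (2 * (q : ℝ)) : ℝ) : ℂ) = 1 / (2 * (q : ℂ)) := by push_cast; rfl
  rw [e2] at h1
  exact h1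

omit [FiniteDimensional ℂ V] in
lemma Bd.AA {E : Module.End ℂ V} {a : ℝ} (hE : Bd E a) (ρ : G →* (V ≃ₗᵢ[ℂ] V)) {q : ℕ}
    (hq : 1 ≤ q) : ∀ (R : ℕ) (z : Fin R → Fin q → G), Bd (AA ρ E R z) a
  | 0, _ => hE
  | R + 1, z => ((Bd.AA hE ρ hq R fun i => z i.castSucc).PS ρ hq _).PS ρ hq _

lemma Bd.ex_hs {A : Module.End ℂ V} {a : ℝ} (hA : Bd A a) :
    hs (ex A) ≤ Real.exp (2 * a) * Module.finrank ℂ V := by
  obtain ⟨n, b, μ, h1, h2⟩ := EXB.diag A hA.1
  have hn : Module.finrank ℂ V = n := by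
    rw [Module.finrank_eq_card_basis b.toBasis, Fintype.card_fin]
  have hμ : ∀ i, μ i ≤ a := by
    intro i
    have h3 := (hA.2 (b i)).2
    rw [h1, inner_smul_left, Complex.conj_ofReal, Complex.re_ofReal_mul,
      inner_self_eq_norm_sq_to_K, b.norm_eq_one] at h3
    simpa using h3
  rw [hs_eq_sum b, hn]
  calc ∑ i, ‖ex A (b i)‖ ^ 2 ≤ ∑ _i : Fin n, Real.exp (2 * a) := by
        refine Finset.sum_le_sum fun i _ => ?_
        rw [h2, norm_smul, b.norm_eq_one, mul_one, Complex.norm_real,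
          Real.norm_of_nonneg (Real.exp_pos _).le, ← Real.exp_nat_mul]
        exact Real.exp_le_exp.2 (by push_cast; linarith [hμ i])
    _ = _ := by simp [mul_comm]

lemma Bd.ex_tn {A : Module.End ℂ V} {a : ℝ} (hA : Bd A a) [Nontrivial V] :
    1 ≤ tn (ex A) ∧ tn (ex A) ≤ Real.exp a := by
  obtain ⟨n, b, μ, h1, h2⟩ := EXB.diag A hA.1
  have hn : Module.finrank ℂ V = n := by
    rw [Module.finrank_eq_card_basis b.toBasis, Fintype.card_fin]
  have hd : (0 : ℝ) < Module.finrank ℂ V := by exact_mod_cast Module.finrank_pos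
  have hμ : ∀ i, 0 ≤ μ i ∧ μ i ≤ a := by
    intro i
    have h3 := hA.2 (b i)
    rw [h1, inner_smul_left, Complex.conj_ofReal, Complex.re_ofReal_mul,
      inner_self_eq_norm_sq_to_K, b.norm_eq_one] at h3
    simpa using h3
  unfold tn
  rw [EXB.tr_eig b (ex A) _ h2]
  constructor
  · rw [le_div_iff₀ hd, one_mul, hn]
    calc (n : ℝ) = ∑ _i : Fin n, (1 : ℝ) := by simp
      _ ≤ _ := Finset.sum_le_sum fun i _ => Real.one_le_exp (hμ i).1
  · rw [div_le_iff₀ hd, hn]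
    calc ∑ i, Real.exp (μ i) ≤ ∑ _i : Fin n, Real.exp a :=
          Finset.sum_le_sum fun i _ => Real.exp_le_exp.2 (hμ i).2
      _ = _ := by simp [mul_comm]

variable [Fintype G]

open Classical in
/-- Chebyshev -/
theorem cheb {D : ℝ} (hD : QRd G D) (hD0 : 0 ≤ D) (ρ : G →* (V ≃ₗᵢ[ℂ] V)) (hirr : Irr ρ ⊤)
    (X A : Module.End ℂ V) {x a : ℝ} (hX : Bd X x) (hA : Bd A a) {ξ : ℝ} (hξ : 0 < ξ) :
    D * ξ ^ 2 * ∑ z : G, (if tn (ex X) * tn (ex A) + ξ < tn (ex (X + cj ρ A z))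
      then (1 : ℝ) else 0) ≤ Real.exp (2 * (x + a)) * Fintype.card G := by
  have hnt := TREE.nontriv ρ hirr
  have hd : (0 : ℝ) < Module.finrank ℂ V := by exact_mod_cast Module.finrank_pos
  set d : ℝ := (Module.finrank ℂ V : ℝ) with hdd
  have h1 := HS2 hD ρ hirr (ex X) (ex A) (ex_symm X hX.1) (ex_symm A hA.1) hD0
  have h2 : ∀ z : G, ξ ^ 2 * (if tn (ex X) * tn (ex A) + ξ < tn (ex (X + cj ρ A z))
      then (1 : ℝ) else 0) ≤
      (rtr (ex X * cj ρ (ex A) z) - rtr (ex X) * rtr (ex A) / d) ^ 2 / d ^ 2 := by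
    intro z
    split_ifs with h
    · rw [mul_one, ← div_pow]
      refine pow_le_pow_left₀ hξ.le ?_ 2
      have h3 := GT X (cj ρ A z) hX.1 (AW.cj_symm ρ A hA.1 z)
      rw [ex_conj] at h3
      have h4 : tn (ex (X + cj ρ A z)) ≤ rtr (ex X * cj ρ (ex A) z) / d :=
        div_le_div_of_nonneg_right h3 hd.le
      have h5 : (rtr (ex X * cj ρ (ex A) z) - rtr (ex X) * rtr (ex A) / d) / d =
          rtr (ex X * cj ρ (ex A) z) / d - tn (ex X) * tn (ex A) := by
        unfold tn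
        rw [← hdd]
        field_simp
      rw [h5]
      linarith
    · rw [mul_zero]
      positivity
  have h3 : D * (∑ z : G, (rtr (ex X * cj ρ (ex A) z) - rtr (ex X) * rtr (ex A) / d) ^ 2) ≤
      Real.exp (2 * (x + a)) * Fintype.card G * d ^ 2 := by
    refine h1.trans ?_
    have h4 := hX.ex_hs
    have h5 := hA.ex_hs
    calc (Fintype.card G : ℝ) * hs (ex X) * hs (ex A)
        ≤ (Fintype.card G : ℝ) * (Real.exp (2 * x) * d) * (Real.exp (2 * a) * d) := by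
          refine mul_le_mul (mul_le_mul_of_nonneg_left h4 (Nat.cast_nonneg _)) h5
            (hs_nonneg _) (by positivity)
      _ = _ := by
          rw [show 2 * (x + a) = 2 * x + 2 * a by ring, Real.exp_add]
          ring
  calc D * ξ ^ 2 * ∑ z : G, (if tn (ex X) * tn (ex A) + ξ < tn (ex (X + cj ρ A z))
      then (1 : ℝ) else 0)
      = D * ∑ z : G, ξ ^ 2 * (if tn (ex X) * tn (ex A) + ξ < tn (ex (X + cj ρ A z))
      then (1 : ℝ) else 0) := by rw [← Finset.mul_sum]; ring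
    _ ≤ D * ∑ z : G, (rtr (ex X * cj ρ (ex A) z) - rtr (ex X) * rtr (ex A) / d) ^ 2 / d ^ 2 :=
        mul_le_mul_of_nonneg_left (Finset.sum_le_sum fun z _ => h2 z) hD0
    _ = (D * ∑ z : G, (rtr (ex X * cj ρ (ex A) z) - rtr (ex X) * rtr (ex A) / d) ^ 2) / d ^ 2 := by
        rw [← Finset.sum_div]
        ring
    _ ≤ (Real.exp (2 * (x + a)) * Fintype.card G * d ^ 2) / d ^ 2 :=
        div_le_div_of_nonneg_right h3 (by positivity)
    _ = _ := by field_simp

/-- the sum of the conjugates of `A` by the letters `z` -/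
noncomputable def SC (ρ : G →* (V ≃ₗᵢ[ℂ] V)) (A : Module.End ℂ V) {q : ℕ} (z : Fin q → G) :
    Module.End ℂ V := ∑ i, cj ρ A (z i)

omit [FiniteDimensional ℂ V] [Fintype G] in
lemma Bd.SC {A : Module.End ℂ V} {a : ℝ} (hA : Bd A a) (ρ : G →* (V ≃ₗᵢ[ℂ] V)) {q : ℕ}
    (z : Fin q → G) : Bd (SC ρ A z) (q * a) := by
  have := Bd.sum Finset.univ (fun i => RC14.cj ρ A (z i)) (a := a) fun i _ => hA.cj ρ (z i)
  rwa [Finset.card_univ, Fintype.card_fin] at this

open Classical in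
/-- `q` independent random conjugates: concentration of the exponential trace -/
theorem stepq {D : ℝ} (hD : QRd G D) (hD0 : 0 ≤ D) (ρ : G →* (V ≃ₗᵢ[ℂ] V)) (hirr : Irr ρ ⊤)
    (A : Module.End ℂ V) {a : ℝ} (ha : 0 ≤ a) (hA : Bd A a) {ξ : ℝ} (hξ : 0 < ξ) {M : ℝ}
    (hM1 : 1 ≤ M) (hM : tn (ex A) ≤ M) (q : ℕ) :
    D * ξ ^ 2 * ∑ z : Fin q → G, (if (M * (1 + ξ)) ^ q < tn (ex (SC ρ A z))
      then (1 : ℝ) else 0) ≤ q * Real.exp (2 * a * q) * (Fintype.card G : ℝ) ^ q := by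
  have hnt := TREE.nontriv ρ hirr
  have hd : (0 : ℝ) < Module.finrank ℂ V := by exact_mod_cast Module.finrank_pos
  have hN0 : (0 : ℝ) ≤ Fintype.card G := Nat.cast_nonneg _
  induction q with
  | zero =>
    have h0 : ∀ z : Fin 0 → G, tn (ex (SC ρ A z)) = 1 := by
      intro z
      unfold SC tn
      rw [Finset.univ_eq_empty, Finset.sum_empty, ex_zero]
      unfold rtr
      rw [LinearMap.trace_one, Complex.natCast_re, div_self hd.ne']
    simp [h0]
  | succ q ih =>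
    set N : ℝ := (Fintype.card G : ℝ) with hN
    have e1 : ∑ z : Fin (q + 1) → G, (if (M * (1 + ξ)) ^ (q + 1) < tn (ex (SC ρ A z))
        then (1 : ℝ) else 0) = ∑ z : Fin q → G, ∑ g : G,
          (if (M * (1 + ξ)) ^ (q + 1) < tn (ex (SC ρ A z + cj ρ A g)) then (1 : ℝ) else 0) := by
      rw [Finset.sum_comm, ← Fintype.sum_prod_type']
      refine (Fintype.sum_equiv (Fin.consEquiv fun _ => G) _ _ fun p => ?_).symm
      have : SC ρ A ((Fin.consEquiv fun _ => G) p) = SC ρ A p.2 + cj ρ A p.1 := by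
        unfold SC
        rw [Fin.sum_univ_succ, add_comm]
        rfl
      rw [this]
    have e2 : ∀ z : Fin q → G, D * ξ ^ 2 * ∑ g : G,
          (if (M * (1 + ξ)) ^ (q + 1) < tn (ex (SC ρ A z + cj ρ A g)) then (1 : ℝ) else 0) ≤
        D * ξ ^ 2 * (N * (if (M * (1 + ξ)) ^ q < tn (ex (SC ρ A z)) then (1 : ℝ) else 0)) +
          Real.exp (2 * a * (q + 1)) * N := by
      intro z
      by_cases hz : (M * (1 + ξ)) ^ q < tn (ex (SC ρ A z))
      · rw [if_pos hz, mul_one]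
        have h1 : (∑ g : G, if (M * (1 + ξ)) ^ (q + 1) < tn (ex (SC ρ A z + cj ρ A g))
            then (1 : ℝ) else 0) ≤ ∑ _g : G, (1 : ℝ) :=
          Finset.sum_le_sum fun g _ => by split_ifs <;> norm_num
        have h2 : (∑ _g : G, (1 : ℝ)) = N := by simp [hN]
        rw [h2] at h1
        have h3 := mul_le_mul_of_nonneg_left h1 (by positivity : 0 ≤ D * ξ ^ 2)
        have h4 : 0 ≤ Real.exp (2 * a * (q + 1)) * N := by positivity
        linarith
      · rw [if_neg hz, mul_zero, mul_zero, zero_add]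
        push Not at hz
        have hc := cheb hD hD0 ρ hirr (SC ρ A z) A (hA.SC ρ z) hA hξ
        have e3 : 2 * ((q : ℝ) * a + a) = 2 * a * (q + 1) := by ring
        rw [e3] at hc
        refine le_trans (mul_le_mul_of_nonneg_left (Finset.sum_le_sum fun g _ => ?_)
          (by positivity)) hc
        have hA1 := hA.ex_tn
        have hS1 := (hA.SC ρ z).ex_tn
        have hpow : 1 ≤ (M * (1 + ξ)) ^ q :=
          one_le_pow₀ (by nlinarith)
        have h5 : tn (ex (SC ρ A z)) * tn (ex A) + ξ ≤ (M * (1 + ξ)) ^ (q + 1) := by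
          have h6 : tn (ex (SC ρ A z)) * tn (ex A) ≤ (M * (1 + ξ)) ^ q * M :=
            mul_le_mul hz hM (by linarith) (by positivity)
          have h7 : ξ ≤ (M * (1 + ξ)) ^ q * (M * ξ) := by
            have h8 : ξ ≤ M * ξ := by nlinarith
            have h9 : 0 ≤ M * ξ := by positivity
            nlinarith
          rw [pow_succ]
          nlinarith
        split_ifs with ha hb hb
        · exact le_rfl
        · exact absurd (lt_of_le_of_lt h5 ha) hb
        · exact zero_le_one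
        · exact le_rfl
    rw [e1, Finset.mul_sum]
    refine (Finset.sum_le_sum fun z _ => e2 z).trans ?_
    rw [Finset.sum_add_distrib, ← Finset.mul_sum, ← Finset.mul_sum, Finset.sum_const,
      Finset.card_univ, Fintype.card_fun, Fintype.card_fin, nsmul_eq_mul]
    have h7 : D * ξ ^ 2 * (N * ∑ z : Fin q → G,
        (if (M * (1 + ξ)) ^ q < tn (ex (SC ρ A z)) then (1 : ℝ) else 0)) ≤
        N * (q * Real.exp (2 * a * q) * N ^ q) := by
      calc D * ξ ^ 2 * (N * ∑ z : Fin q → G,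
        (if (M * (1 + ξ)) ^ q < tn (ex (SC ρ A z)) then (1 : ℝ) else 0))
          = N * (D * ξ ^ 2 * ∑ z : Fin q → G,
        (if (M * (1 + ξ)) ^ q < tn (ex (SC ρ A z)) then (1 : ℝ) else 0)) := by ring
        _ ≤ _ := mul_le_mul_of_nonneg_left ih hN0
    have h8 : Real.exp (2 * a * q) ≤ Real.exp (2 * a * (q + 1)) := by
      apply Real.exp_le_exp.2
      nlinarith
    refine (add_le_add_left h7 _).trans ?_
    push_cast
    rw [← hN]
    have h9 : N * (q * Real.exp (2 * a * q) * N ^ q) ≤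
        N * (q * Real.exp (2 * a * (q + 1)) * N ^ q) := by
      have : 0 ≤ N * (q * N ^ q) := by positivity
      nlinarith
    refine (add_le_add_left h9 _).trans (le_of_eq ?_)
    ring

end

end Run7.h107
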