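import Pool.Agent.Run7.h107.BSTEP

/-!
The trace phase: products of averages of random group elements (helper107, MP_bc5a73_al).
-/

namespace Run7.h107
open RC14
open scoped InnerProductSpace ComplexConjugate
open Finset

section
variable {G : Type} [Group G]
variable {V : Type} [NormedAddCommGroup V] [InnerProductSpace ℂ V] [FiniteDimensional ℂ V]

lemma hs_lm (ρ : G →* (V ≃ₗᵢ[ℂ] V)) (A : Module.End ℂ V) (z : G) : hs (op ρ z * A) = hs A := by
  rw [hs_eq_sum (stdOrthonormalBasis ℂ V), hs_eq_sum (stdOrthonormalBasis ℂ V)]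
  refine Finset.sum_congr rfl fun i _ => ?_
  rw [Module.End.mul_apply, op_apply, LinearIsometryEquiv.norm_map]

/-- left multiplication as a linear equivalence -/
noncomputable def lmE (ρ : G →* (V ≃ₗᵢ[ℂ] V)) (z : G) : Module.End ℂ V ≃ₗ[ℂ] Module.End ℂ V where
  toFun A := op ρ z * A
  invFun A := op ρ z⁻¹ * A
  map_add' A B := mul_add _ _ _
  map_smul' c A := by
    rw [mul_smul_comm, RingHom.id_apply]
  left_inv A := by
    change op ρ z⁻¹ * (op ρ z * A) = A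
    rw [← mul_assoc, ← op_mul, inv_mul_cancel, op_one, one_mul]
  right_inv A := by
    change op ρ z * (op ρ z⁻¹ * A) = A
    rw [← mul_assoc, ← op_mul, mul_inv_cancel, op_one, one_mul]

/-- the left multiplication representation -/
noncomputable def lmR (ρ : G →* (V ≃ₗᵢ[ℂ] V)) : G →* (HSp V ≃ₗᵢ[ℂ] HSp V) where
  toFun z :=
    { toLinearEquiv := (eH.symm.trans (lmE ρ z)).trans eH
      norm_map' := fun f => by
        obtain ⟨A, rfl⟩ := eH.surjective f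
        have h : ((eH.symm.trans (lmE ρ z)).trans eH) (eH A) = eH (op ρ z * A) := by
          rw [LinearEquiv.trans_apply, LinearEquiv.trans_apply, LinearEquiv.symm_apply_apply]
          rfl
        rw [h]
        have h2 : ‖eH (op ρ z * A)‖ ^ 2 = ‖eH A‖ ^ 2 := by rw [eH_norm, eH_norm, hs_lm]
        exact (pow_left_inj₀ (norm_nonneg _) (norm_nonneg _) two_ne_zero).mp h2 }
  map_one' := by
    refine LinearIsometryEquiv.ext fun f => ?_
    obtain ⟨A, rfl⟩ := eH.surjective f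
    change eH (op ρ 1 * (eH.symm (eH A))) = eH A
    rw [op_one, one_mul, LinearEquiv.symm_apply_apply]
  map_mul' g z := by
    refine LinearIsometryEquiv.ext fun f => ?_
    obtain ⟨A, rfl⟩ := eH.surjective f
    change eH (op ρ (g * z) * (eH.symm (eH A))) =
      eH (op ρ g * (eH.symm (eH (op ρ z * (eH.symm (eH A))))))
    rw [LinearEquiv.symm_apply_apply, LinearEquiv.symm_apply_apply, op_mul, mul_assoc]

lemma lmR_apply (ρ : G →* (V ≃ₗᵢ[ℂ] V)) (z : G) (A : Module.End ℂ V) :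
    lmR ρ z (eH A) = eH (op ρ z * A) := by
  change eH (op ρ z * (eH.symm (eH A))) = eH (op ρ z * A)
  rw [LinearEquiv.symm_apply_apply]

/-- average of group elements -/
noncomputable def MQ (ρ : G →* (V ≃ₗᵢ[ℂ] V)) {ι : Type} [Fintype ι] (z : ι → G) :
    Module.End ℂ V :=
  ((1 / (Fintype.card ι : ℝ) : ℝ) : ℂ) • ∑ i, op ρ (z i)

/-- partial sums -/
noncomputable def UT (ρ : G →* (V ≃ₗᵢ[ℂ] V)) (T : Module.End ℂ V) (j : ℕ) (z : Fin j → G) :
    Module.End ℂ V := ∑ i, op ρ (z i) * T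

/-- bad letters -/
def FT1 (ρ : G →* (V ≃ₗᵢ[ℂ] V)) (T : Module.End ℂ V) (j : ℕ) (z : Fin j → G) (y : G) : Prop :=
  hs T < ‖⟪eH (UT ρ T j z), eH (op ρ y * T)⟫_ℂ‖

lemma UT_norm (ρ : G →* (V ≃ₗᵢ[ℂ] V)) (T : Module.End ℂ V) (j : ℕ) (z : Fin j → G) :
    ‖eH (UT ρ T j z)‖ ≤ j * ‖eH T‖ := by
  unfold UT
  rw [map_sum]
  calc ‖∑ i, eH (op ρ (z i) * T)‖ ≤ ∑ i, ‖eH (op ρ (z i) * T)‖ := norm_sum_le _ _
    _ = ∑ _i : Fin j, ‖eH T‖ := by
        refine Finset.sum_congr rfl fun i _ => ?_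
        rw [← lmR_apply, (lmR ρ (z i)).norm_map]
    _ = _ := by simp

lemma UT_growth (ρ : G →* (V ≃ₗᵢ[ℂ] V)) (T : Module.End ℂ V) :
    ∀ (j : ℕ) (z : Fin j → G),
      ‖eH (UT ρ T j z)‖ ≤ (nb (FT1 ρ T) j z + Real.sqrt (3 * j)) * ‖eH T‖ := by
  classical
  intro j
  induction j with
  | zero =>
    intro z
    have : UT ρ T 0 z = 0 := by simp [UT]
    rw [this, map_zero, norm_zero]
    positivity
  | succ j ih =>
    intro z
    have h1 := ih fun i => z i.castSucc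
    set u := eH (UT ρ T j fun i => z i.castSucc) with hu
    set w := eH (op ρ (z (Fin.last j)) * T) with hw
    have hwn : ‖w‖ = ‖eH T‖ := by
      rw [hw, ← lmR_apply, (lmR ρ _).norm_map]
    have h2 : eH (UT ρ T (j + 1) z) = u + w := by
      rw [hu, hw, ← map_add]
      unfold UT
      rw [Fin.sum_univ_castSucc]
    set N := ‖eH T‖ with hN
    have hN0 : 0 ≤ N := norm_nonneg _
    set β : ℝ := ((nb (FT1 ρ T) j (fun i => z i.castSucc) : ℕ) : ℝ) with hβ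
    have hβ0 : 0 ≤ β := Nat.cast_nonneg _
    have hs1 : Real.sqrt (3 * (j : ℝ)) ≤ Real.sqrt (3 * ((j + 1 : ℕ) : ℝ)) := by
      apply Real.sqrt_le_sqrt
      push_cast
      linarith
    have hs0 : 0 ≤ Real.sqrt (3 * (j : ℝ)) := Real.sqrt_nonneg _
    rw [h2]
    by_cases hb : FT1 ρ T j (fun i => z i.castSucc) (z (Fin.last j))
    · have h3 : ((nb (FT1 ρ T) (j + 1) z : ℕ) : ℝ) = β + 1 := by
        rw [nb, if_pos hb]
        push_cast
        rfl
      rw [h3]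
      calc ‖u + w‖ ≤ ‖u‖ + ‖w‖ := norm_add_le _ _
        _ ≤ (β + Real.sqrt (3 * j)) * N + N := by rw [hwn]; linarith
        _ = (β + 1 + Real.sqrt (3 * j)) * N := by ring
        _ ≤ _ := mul_le_mul_of_nonneg_right (by linarith) hN0
    · have h3 : ((nb (FT1 ρ T) (j + 1) z : ℕ) : ℝ) = β := by
        rw [nb, if_neg hb]
        push_cast
        rw [add_zero]
      rw [h3]
      unfold FT1 at hb
      push Not at hb
      rw [← hu, ← hw, ← eH_norm] at hb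
      have h4 : ‖u + w‖ ^ 2 ≤ ‖u‖ ^ 2 + 3 * N ^ 2 := by
        rw [norm_add_sq (𝕜 := ℂ), hwn]
        have h5 : RCLike.re ⟪u, w⟫_ℂ ≤ N ^ 2 := (RCLike.re_le_norm _).trans hb
        linarith
      have h6 : (β + Real.sqrt (3 * j)) ^ 2 * N ^ 2 + 3 * N ^ 2 ≤
          ((β + Real.sqrt (3 * ((j + 1 : ℕ) : ℝ))) * N) ^ 2 := by
        have e1 : Real.sqrt (3 * (j : ℝ)) ^ 2 = 3 * j := Real.sq_sqrt (by positivity)
        have e2 : Real.sqrt (3 * ((j + 1 : ℕ) : ℝ)) ^ 2 = 3 * ((j + 1 : ℕ) : ℝ) :=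
          Real.sq_sqrt (by positivity)
        have e3 : (β + Real.sqrt (3 * j)) ^ 2 + 3 ≤
            (β + Real.sqrt (3 * ((j + 1 : ℕ) : ℝ))) ^ 2 := by
          have e4 : β * Real.sqrt (3 * (j : ℝ)) ≤ β * Real.sqrt (3 * ((j + 1 : ℕ) : ℝ)) :=
            mul_le_mul_of_nonneg_left hs1 hβ0
          push_cast at e2 e4 ⊢
          nlinarith
        rw [mul_pow]
        nlinarith [mul_le_mul_of_nonneg_right e3 (sq_nonneg N)]
      have h7 : ‖u‖ ^ 2 ≤ (β + Real.sqrt (3 * j)) ^ 2 * N ^ 2 := by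
        rw [← mul_pow]
        exact pow_le_pow_left₀ (norm_nonneg _) h1 2
      exact le_of_sq_le_sq (by linarith) (by positivity)
where
  le_of_sq_le_sq {a b : ℝ} (h : a ^ 2 ≤ b ^ 2) (hb : 0 ≤ b) : a ≤ b :=
    le_of_sq_le_sq' h hb
  le_of_sq_le_sq' {a b : ℝ} (h : a ^ 2 ≤ b ^ 2) (hb : 0 ≤ b) : a ≤ b := by
    by_contra hc
    push Not at hc
    nlinarith

variable [Fintype G]

/-- the Hilbert-Schmidt norm of the average is small for most letters -/
theorem TSTEP {D : ℝ} (hD : QRd G D) (hD0 : 0 < D) (ρ : G →* (V ≃ₗᵢ[ℂ] V)) (hirr : Irr ρ ⊤)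
    (hnt : ∃ g v, ρ g v ≠ v) (T : Module.End ℂ V) (q K : ℕ) (hqK : 12 * K ≤ q)
    (hq : 48 ≤ q) (hη : q * ((q : ℝ) ^ 2 / D) ≤ 1) :
    (Nat.card {y : Fin q → G // ¬ hs (MQ ρ y * T) ≤ hs T / 8} : ℝ) ≤
      3 * (q * ((q : ℝ) ^ 2 / D)) ^ K * (Fintype.card G : ℝ) ^ q := by
  have hq0 : (0 : ℝ) < q := by exact_mod_cast (by omega : 0 < q)
  have hq48 : (48 : ℝ) ≤ q := by exact_mod_cast hq
  have hqK' : 12 * (K : ℝ) ≤ q := by exact_mod_cast hqK
  set N := ‖eH T‖ with hN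
  have hNT : N ^ 2 = hs T := eH_norm T
  have hN0 : 0 ≤ N := norm_nonneg _
  have hsum : ∑ g : G, lmR ρ g (eH T) = 0 := by
    simp only [lmR_apply]
    rw [← map_sum, ← Finset.sum_mul]
    have h1 : ∑ g : G, op ρ g = 0 := by
      refine LinearMap.ext fun w => ?_
      rw [LinearMap.sum_apply]
      exact sum_zero ρ hirr hnt w
    rw [h1, zero_mul, map_zero]
  have hbad : ∀ j < q, ∀ z : Fin j → G, (Nat.card {y // FT1 ρ T j z y} : ℝ) ≤
      (q : ℝ) ^ 2 / D * Fintype.card G := by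
    intro j hj z
    rcases eq_or_lt_of_le hN0 with h0 | h0
    · have h1 : Nat.card {y // FT1 ρ T j z y} = 0 := by
        rw [Nat.card_eq_zero]
        left
        refine ⟨fun y => ?_⟩
        have h2 := y.2
        unfold FT1 at h2
        have h3 : eH (op ρ y.1 * T) = 0 := by
          rw [← norm_eq_zero, ← lmR_apply, (lmR ρ _).norm_map]
          exact h0.symm
        rw [h3, inner_zero_right, norm_zero, ← hNT] at h2
        exact absurd h2 (not_lt.mpr (by positivity))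
      rw [h1]
      push_cast
      positivity
    · have h1 := QR2 hD (lmR ρ) (eH T) (eH (UT ρ T j z)) hsum
      have h2 : ‖eH (UT ρ T j z)‖ ≤ q * N := by
        refine (UT_norm ρ T j z).trans (mul_le_mul_of_nonneg_right ?_ hN0)
        exact_mod_cast hj.le
      have h3 : ‖eH (UT ρ T j z)‖ ^ 2 ≤ (q * N) ^ 2 := pow_le_pow_left₀ (norm_nonneg _) h2 2
      have h4 := markov (fun y : G => ‖⟪eH (UT ρ T j z), lmR ρ y (eH T)⟫_ℂ‖ ^ 2)
        (fun y => by positivity) (T := (N ^ 2) ^ 2) (by positivity)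
        (S := Fintype.card G * (q * N) ^ 2 * N ^ 2 / D) (by
          rw [le_div_iff₀ hD0, mul_comm]
          refine h1.trans ?_
          rw [← hN]
          exact mul_le_mul_of_nonneg_right (mul_le_mul_of_nonneg_left h3 (Nat.cast_nonneg _))
            (by positivity))
      have h5 : (Nat.card {y // FT1 ρ T j z y} : ℝ) ≤
          (Nat.card {y : G // (N ^ 2) ^ 2 < ‖⟪eH (UT ρ T j z), lmR ρ y (eH T)⟫_ℂ‖ ^ 2} : ℝ) := by
        refine Nat.cast_le.mpr (card_mono _ _ fun y hy => ?_)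
        unfold FT1 at hy
        rw [← hNT] at hy
        rw [lmR_apply]
        exact pow_lt_pow_left₀ hy (by positivity) two_ne_zero
      refine h5.trans (h4.trans (le_of_eq ?_))
      field_simp
  have htail := nb_tail (FT1 ρ T) (by positivity : 0 < (q : ℝ) ^ 2 / D) q K (by omega) hη hbad
  refine le_trans (Nat.cast_le.mpr (card_mono _ _ fun y hy => ?_)) htail
  by_contra hcon
  push Not at hcon
  apply hy
  have h1 := UT_growth ρ T q y
  have h2 : MQ ρ y * T = ((1 / (q : ℝ) : ℝ) : ℂ) • UT ρ T q y := by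
    unfold MQ UT
    rw [Fintype.card_fin, smul_mul_assoc, Finset.sum_mul]
  rw [← eH_norm, h2, map_smul, norm_smul, Complex.norm_real, Real.norm_of_nonneg (by positivity),
    ← hNT]
  have hK' : ((nb (FT1 ρ T) q y : ℕ) : ℝ) ≤ K := by exact_mod_cast hcon.le
  have hsq : Real.sqrt (3 * (q : ℝ)) ≤ q / 4 := by
    rw [Real.sqrt_le_left (by positivity)]
    nlinarith
  have h3 : ‖eH (UT ρ T q y)‖ ≤ (q / 3) * N := by
    refine h1.trans (mul_le_mul_of_nonneg_right ?_ hN0)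
    linarith
  have h4 : 1 / (q : ℝ) * ‖eH (UT ρ T q y)‖ ≤ N / 3 := by
    calc 1 / (q : ℝ) * ‖eH (UT ρ T q y)‖ ≤ 1 / (q : ℝ) * ((q / 3) * N) :=
          mul_le_mul_of_nonneg_left h3 (by positivity)
      _ = N / 3 := by field_simp
  have h5 : (1 / (q : ℝ) * ‖eH (UT ρ T q y)‖) ^ 2 ≤ (N / 3) ^ 2 :=
    pow_le_pow_left₀ (by positivity) h4 2
  nlinarith

omit [Fintype G] in
lemma adj_mul (A B : Module.End ℂ V) :
    LinearMap.adjoint (A * B) = LinearMap.adjoint B * LinearMap.adjoint A :=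
  LinearMap.adjoint_comp A B

omit [Fintype G] in
lemma adj_op (ρ : G →* (V ≃ₗᵢ[ℂ] V)) (g : G) : LinearMap.adjoint (op ρ g) = op ρ g⁻¹ := by
  symm
  rw [LinearMap.eq_adjoint_iff]
  intro v w
  rw [op_apply, op_apply, inner_rho_l', inv_inv]
where
  inner_rho_l' (ρ : G →* (V ≃ₗᵢ[ℂ] V)) (g : G) (v w : V) : ⟪ρ g v, w⟫_ℂ = ⟪v, ρ g⁻¹ w⟫_ℂ := by
    have h2 : w = ρ g (ρ g⁻¹ w) := by
      rw [map_inv]
      exact ((ρ g).apply_symm_apply w).symm
    conv_lhs => rw [h2]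
    exact (ρ g).inner_map_map _ _

omit [Fintype G] in
lemma adj_MQ (ρ : G →* (V ≃ₗᵢ[ℂ] V)) {ι : Type} [Fintype ι] (z : ι → G) :
    LinearMap.adjoint (MQ ρ z) = MQ ρ z⁻¹ := by
  unfold MQ
  rw [map_smulₛₗ, map_sum, Complex.conj_ofReal]
  simp only [adj_op, Pi.inv_apply]

omit [Fintype G] in
lemma MQ_norm (ρ : G →* (V ≃ₗᵢ[ℂ] V)) {ι : Type} [Fintype ι] [Nonempty ι] (z : ι → G) (v : V) :
    ‖MQ ρ z v‖ ≤ ‖v‖ := by
  have hq0 : (0 : ℝ) < Fintype.card ι := by exact_mod_cast Fintype.card_pos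
  unfold MQ
  rw [LinearMap.smul_apply, norm_smul, Complex.norm_real, Real.norm_of_nonneg (by positivity),
    LinearMap.sum_apply]
  calc 1 / (Fintype.card ι : ℝ) * ‖∑ i, op ρ (z i) v‖
      ≤ 1 / (Fintype.card ι : ℝ) * ∑ i, ‖op ρ (z i) v‖ :=
        mul_le_mul_of_nonneg_left (norm_sum_le _ _) (by positivity)
    _ = _ := by
        simp only [op_apply, LinearIsometryEquiv.norm_map]
        rw [Finset.sum_const, Finset.card_univ, nsmul_eq_mul]
        field_simp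

/-- the property of the trace phase -/
def QT (A : Module.End ℂ V) (ℓ : ℕ) : Prop :=
  ∃ T : Module.End ℂ V, A = T * LinearMap.adjoint T ∧ (∀ v, ‖LinearMap.adjoint T v‖ ≤ ‖v‖) ∧
    hs T ≤ (1 / 8) ^ ℓ * Module.finrank ℂ V

lemma QT_zero : QT (1 : Module.End ℂ V) 0 := by
  have h1 : LinearMap.adjoint (1 : Module.End ℂ V) = 1 := by
    symm
    rw [LinearMap.eq_adjoint_iff]
    intro v w
    rfl
  refine ⟨1, ?_, ?_, ?_⟩
  · rw [h1, one_mul]
  · intro v
    rw [h1]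
    exact le_rfl
  · rw [hs_one, pow_zero, one_mul]

omit [Fintype G] in
lemma QT_cj {A : Module.End ℂ V} {ℓ : ℕ} (h : QT A ℓ) (ρ : G →* (V ≃ₗᵢ[ℂ] V)) (g : G) :
    QT (cj ρ A g) ℓ := by
  obtain ⟨T, h1, h2, h3⟩ := h
  refine ⟨op ρ g * T, ?_, ?_, ?_⟩
  · rw [adj_mul, adj_op, h1]
    unfold cj
    simp only [mul_assoc]
  · intro v
    rw [adj_mul, adj_op, Module.End.mul_apply, op_apply]
    refine (h2 _).trans (le_of_eq ?_)
    exact (ρ g⁻¹).norm_map v
  · rw [hs_lm]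
    exact h3

lemma QT_bd {A : Module.End ℂ V} {ℓ : ℕ} (h : QT A ℓ) : Bd A 1 := by
  obtain ⟨T, h1, h2, h3⟩ := h
  have h4 : ∀ v, (⟪A v, v⟫_ℂ).re = ‖LinearMap.adjoint T v‖ ^ 2 := by
    intro v
    rw [h1, Module.End.mul_apply, ← LinearMap.adjoint_inner_right, inner_self_eq_norm_sq_to_K]
    norm_cast
  refine ⟨?_, fun v => ?_⟩
  · intro v w
    rw [h1, Module.End.mul_apply, Module.End.mul_apply, ← LinearMap.adjoint_inner_right,
      LinearMap.adjoint_inner_left]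
  · rw [h4, one_mul]
    exact ⟨by positivity, pow_le_pow_left₀ (norm_nonneg _) (h2 v) 2⟩

lemma QT_FL [Nontrivial V] {A : Module.End ℂ V} {ℓ : ℕ} (h : QT A ℓ) :
    FL A 1 ≤ Real.exp (1 * (2 * (1 / 8) ^ ℓ)) := by
  have hb := QT_bd h
  obtain ⟨T, h1, h2, h3⟩ := h
  have hd : (0 : ℝ) < Module.finrank ℂ V := by exact_mod_cast Module.finrank_pos
  have h4 : tn A ≤ (1 / 8) ^ ℓ := by
    unfold tn
    rw [div_le_iff₀ hd]
    refine le_trans (le_of_eq ?_) h3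
    rw [h1, ← hs_adjoint T]
    unfold hs
    rw [LinearMap.adjoint_adjoint]
  have h5 := ex_conv hb (l := 1) zero_le_one
  refine h5.trans (Real.exp_le_exp.2 ?_)
  have h6 : Real.exp 1 - 1 ≤ 2 := by
    have := Real.exp_one_lt_d9
    linarith
  have h7 : 0 ≤ Real.exp 1 - 1 := by
    have := Real.add_one_le_exp (1 : ℝ)
    linarith
  have h8 : (0 : ℝ) ≤ (1 / 8) ^ ℓ := by positivity
  calc (Real.exp 1 - 1) * tn A ≤ (Real.exp 1 - 1) * (1 / 8) ^ ℓ :=
        mul_le_mul_of_nonneg_left h4 h7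
    _ ≤ 2 * (1 / 8) ^ ℓ := mul_le_mul_of_nonneg_right h6 h8
    _ = _ := by ring

/-- one step of the trace phase -/
theorem QT_step {D : ℝ} (hD : QRd G D) (hD0 : 0 < D) (ρ : G →* (V ≃ₗᵢ[ℂ] V)) (hirr : Irr ρ ⊤)
    (hnt : ∃ g v, ρ g v ≠ v) {A : Module.End ℂ V} {ℓ : ℕ} (h : QT A ℓ) (q K : ℕ)
    (hqK : 12 * K ≤ q) (hq : 48 ≤ q) (hη : q * ((q : ℝ) ^ 2 / D) ≤ 1) :
    (Nat.card {y : Fin q → G // ¬ QT (MQ ρ y * A * MQ ρ y⁻¹) (ℓ + 1)} : ℝ) ≤
      3 * (q * ((q : ℝ) ^ 2 / D)) ^ K * (Fintype.card G : ℝ) ^ q := by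
  obtain ⟨T, h1, h2, h3⟩ := h
  refine le_trans (Nat.cast_le.mpr (card_mono _ _ fun y hy => ?_))
    (TSTEP hD hD0 ρ hirr hnt T q K hqK hq hη)
  intro hcon
  apply hy
  have : Nonempty (Fin q) := ⟨⟨0, by omega⟩⟩
  refine ⟨MQ ρ y * T, ?_, ?_, ?_⟩
  · rw [adj_mul, adj_MQ, h1]
    simp only [mul_assoc]
  · intro v
    rw [adj_mul, adj_MQ, Module.End.mul_apply]
    exact (h2 _).trans (MQ_norm ρ _ v)
  · rw [pow_succ]
    linarith

end

end Run7.h107
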