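import Pool.Agent.Run7.h107.STATE
import Pool.Agent.Run7.h107.SET

/-!
Union bound over the irreducible representations (helper107, MP_bc5a73_al).
-/

namespace Run7.h107
open RC14
open scoped InnerProductSpace ComplexConjugate
open Finset

section
variable {G : Type} [Group G]
variable {V : Type} [NormedAddCommGroup V] [InnerProductSpace ℂ V]

/-- convex combinations of the operators of a representation -/
def CC (ρ : G →* (V ≃ₗᵢ[ℂ] V)) (P : Module.End ℂ V) : Prop :=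
  ∃ (r : ℕ) (x : Fin r → G) (w : Fin r → ℝ), (∀ i, 0 ≤ w i) ∧ ∑ i, w i = 1 ∧
    P = ∑ i, ((w i : ℝ) : ℂ) • op ρ (x i)

lemma CC.op (ρ : G →* (V ≃ₗᵢ[ℂ] V)) (g : G) : CC ρ (RC14.op ρ g) :=
  ⟨1, fun _ => g, fun _ => 1, fun _ => zero_le_one, by simp, by simp⟩

lemma CC.one (ρ : G →* (V ≃ₗᵢ[ℂ] V)) : CC ρ 1 := by
  rw [← op_one ρ]
  exact CC.op ρ 1

lemma CC.mul {ρ : G →* (V ≃ₗᵢ[ℂ] V)} {P Q : Module.End ℂ V} (hP : CC ρ P) (hQ : CC ρ Q) :
    CC ρ (P * Q) := by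
  obtain ⟨r, x, w, h1, h2, h3⟩ := hP
  obtain ⟨r', x', w', h1', h2', h3'⟩ := hQ
  refine ⟨r * r', fun k => x (finProdFinEquiv.symm k).1 * x' (finProdFinEquiv.symm k).2,
    fun k => w (finProdFinEquiv.symm k).1 * w' (finProdFinEquiv.symm k).2,
    fun k => mul_nonneg (h1 _) (h1' _), ?_, ?_⟩
  · rw [finProdFinEquiv.symm.sum_comp (fun p : Fin r × Fin r' => w p.1 * w' p.2),
      Fintype.sum_prod_type]
    simp only [← Finset.mul_sum, h2', mul_one]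
    exact h2
  · rw [finProdFinEquiv.symm.sum_comp (fun p : Fin r × Fin r' =>
      ((w p.1 * w' p.2 : ℝ) : ℂ) • RC14.op ρ (x p.1 * x' p.2)), Fintype.sum_prod_type, h3, h3',
      Finset.sum_mul]
    refine Finset.sum_congr rfl fun i _ => ?_
    rw [Finset.mul_sum]
    refine Finset.sum_congr rfl fun j _ => ?_
    rw [op_mul, smul_mul_assoc, mul_smul_comm, smul_smul]
    push_cast
    rfl

lemma CC.MQ (ρ : G →* (V ≃ₗᵢ[ℂ] V)) {q : ℕ} (hq : 1 ≤ q) (z : Fin q → G) :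
    CC ρ (MQ ρ z) := by
  have hq0 : (0 : ℝ) < q := by exact_mod_cast hq
  refine ⟨q, z, fun _ => 1 / (q : ℝ), fun _ => by positivity, ?_, ?_⟩
  · rw [Finset.sum_const, Finset.card_univ, Fintype.card_fin, nsmul_eq_mul]
    field_simp
  · unfold Run7.h107.MQ
    rw [Fintype.card_fin, Finset.smul_sum]

lemma CC.norm_le {ρ : G →* (V ≃ₗᵢ[ℂ] V)} {P : Module.End ℂ V} (hP : CC ρ P) (v : V) :
    ‖P v‖ ≤ ‖v‖ := by
  obtain ⟨r, x, w, h1, h2, h3⟩ := hP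
  rw [h3, LinearMap.sum_apply]
  calc ‖∑ i, (((w i : ℝ) : ℂ) • RC14.op ρ (x i)) v‖ ≤ ∑ i, ‖(((w i : ℝ) : ℂ) •
        RC14.op ρ (x i)) v‖ := norm_sum_le _ _
    _ = ∑ i, w i * ‖v‖ := by
        refine Finset.sum_congr rfl fun i _ => ?_
        rw [LinearMap.smul_apply, norm_smul, Complex.norm_real, Real.norm_of_nonneg (h1 i),
          op_apply, LinearIsometryEquiv.norm_map]
    _ = ‖v‖ := by rw [← Finset.sum_mul, h2, one_mul]

/-- the energy form of a convex combination -/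
lemma CC.isEn {ρ : G →* (V ≃ₗᵢ[ℂ] V)} {P : Module.End ℂ V} (hP : CC ρ P) :
    IsEn ρ (fun v => ‖v‖ ^ 2 - ‖P v‖ ^ 2) := by
  obtain ⟨r, x, w, h1, h2, h3⟩ := hP
  have h4 : IsEn ρ (fun v => ∑ p ∈ (univ : Finset (Fin r × Fin r)),
      (w p.1 * w p.2 / 2) * ‖ρ ((x p.2)⁻¹ * x p.1) v - v‖ ^ 2) :=
    IsEn.sum _ _ fun p => IsEn.smul _ (div_nonneg (mul_nonneg (h1 _) (h1 _)) (by norm_num))
      (IsEn.single ρ _)
  have h5 : (fun v => ‖v‖ ^ 2 - ‖P v‖ ^ 2) = (fun v => ∑ p ∈ (univ : Finset (Fin r × Fin r)),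
      (w p.1 * w p.2 / 2) * ‖ρ ((x p.2)⁻¹ * x p.1) v - v‖ ^ 2) := by
    funext v
    have e1 : ∀ p : Fin r × Fin r, (w p.1 * w p.2 / 2) * ‖ρ ((x p.2)⁻¹ * x p.1) v - v‖ ^ 2 =
        w p.1 * w p.2 * ‖v‖ ^ 2 - w p.1 * w p.2 * (⟪ρ (x p.1) v, ρ (x p.2) v⟫_ℂ).re := by
      intro p
      rw [norm_rho_sub]
      have e2 : ⟪ρ ((x p.2)⁻¹ * x p.1) v, v⟫_ℂ = ⟪ρ (x p.1) v, ρ (x p.2) v⟫_ℂ := by
        have e3 : ρ ((x p.2)⁻¹ * x p.1) v = ρ (x p.2)⁻¹ (ρ (x p.1) v) := by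
          rw [map_mul]; rfl
        rw [e3]
        have e4 := (ρ (x p.2)).inner_map_map (ρ (x p.2)⁻¹ (ρ (x p.1) v)) v
        rw [← e4]
        congr 1
        rw [map_inv]
        exact (ρ (x p.2)).apply_symm_apply _
      rw [e2]
      ring
    rw [Finset.sum_congr rfl fun p _ => e1 p, Finset.sum_sub_distrib, ← Finset.sum_mul,
      Fintype.sum_prod_type, Fintype.sum_prod_type]
    simp only [← Finset.mul_sum]
    rw [h2]
    simp only [mul_one]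
    rw [h2, one_mul]
    congr 1
    have e5 : (‖P v‖ ^ 2 : ℝ) = (⟪P v, P v⟫_ℂ).re := by
      rw [inner_self_eq_norm_sq_to_K]
      norm_cast
    rw [e5, h3, LinearMap.sum_apply, sum_inner, Complex.re_sum]
    refine Finset.sum_congr rfl fun i _ => ?_
    rw [inner_sum, Complex.re_sum]
    simp only [mul_assoc]
    rw [← Finset.mul_sum]
    simp only [LinearMap.smul_apply, inner_smul_left, inner_smul_right, Complex.conj_ofReal,
      Complex.re_ofReal_mul, op_apply]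
    rw [Finset.mul_sum]
    exact Finset.sum_congr rfl fun j _ => by ring
  rw [h5]
  exact h4

variable {C : Type}

lemma Wn_CC (ρ : G →* (V ≃ₗᵢ[ℂ] V)) {q : ℕ} (hq : 1 ≤ q) (x : C → Fin q → G) :
    ∀ (n : ℕ) (c : Fin n → C) (J σ : Fin n → Bool) (i : Fin n → Fin q),
      CC ρ (Wn ρ x n c J σ i)
  | 0, _, _, _, _ => CC.one ρ
  | n + 1, c, J, σ, i => by
    rw [Wn_succ]
    refine (Wn_CC ρ hq x n _ _ _ _).mul ?_
    unfold fop
    split_ifs
    · exact CC.MQ ρ hq _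
    · exact CC.op ρ _

lemma Wn_res (ρ : G →* (V ≃ₗᵢ[ℂ] V)) (W : Submodule ℂ V) (hW : Inv ρ W) {q : ℕ}
    (x : C → Fin q → G) :
    ∀ (n : ℕ) (c : Fin n → C) (J σ : Fin n → Bool) (i : Fin n → Fin q) (v : W),
      ((Wn (res ρ W hW) x n c J σ i v : W) : V) = Wn ρ x n c J σ i (v : V)
  | 0, _, _, _, _, _ => rfl
  | n + 1, c, J, σ, i, v => by
    rw [Wn_succ, Wn_succ, Module.End.mul_apply, Module.End.mul_apply,
      Wn_res ρ W hW x n]
    congr 1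
    unfold fop
    split_ifs
    · unfold MQ
      rw [LinearMap.smul_apply, LinearMap.smul_apply, LinearMap.sum_apply, LinearMap.sum_apply,
        Submodule.coe_smul, Submodule.coe_sum]
      rfl
    · rfl

variable [Fintype G] [FiniteDimensional ℂ V] [Fintype C] [DecidableEq C]

/-- union bound over the types of irreducible representations -/
theorem UNI (ρ : G →* (V ≃ₗᵢ[ℂ] V)) (M : Submodule ℂ V) (hM : Inv ρ M)
    (hnt : ∀ W : Submodule ℂ V, ∀ hW : Irr ρ W, W ≤ M → ∃ g v, res ρ W hW.2.1 g v ≠ v)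
    {D : ℝ} (hQ : QRd G D) {s n0 n1 n2 K : ℕ} (hP : PP D s n0 n1 n2 K)
    (hd : Real.log (Module.finrank ℂ V) ≤ ((4 * K * 512 : ℕ) : ℝ) ^ n2 * Real.log D)
    (n : ℕ) (c : Fin n → C) (J σ : Fin n → Bool) (i : Fin n → Fin (4 * K * 512))
    (hJ : ∀ k, J k = true → ∀ j, j < k → c j ≠ c k) (hcnt : s + (n0 + n1) + n2 ≤ cnt J) :
    (Nat.card {x : C → Fin (4 * K * 512) → G // ¬ ∀ v ∈ M,
        (1 - 3 * (1 / 2) ^ n1) * ‖v‖ ^ 2 ≤ ‖v‖ ^ 2 - ‖Wn ρ x n c J σ i v‖ ^ 2} : ℝ) ≤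
      (Nat.card (ConjClasses G) : ℕ) * (n * (6 * Real.exp (-(K * Real.log D / 4))) *
        Fintype.card (C → Fin (4 * K * 512) → G)) := by
  have hK := hP.hK
  have hq : 1 ≤ 4 * K * 512 := by omega
  have : Nonempty (Fin (4 * K * 512)) := ⟨⟨0, by omega⟩⟩
  refine UBG ρ M (Nat.card (ConjClasses G)) (TYPES ρ M hM)
    (fun x v => ‖v‖ ^ 2 - ‖Wn ρ x n c J σ i v‖ ^ 2)
    (fun x => (Wn_CC ρ hq x n c J σ i).isEn) (1 - 3 * (1 / 2) ^ n1) _ (by positivity) ?_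
  intro W hW hle
  have hntV : Nontrivial W := by
    rw [Submodule.nontrivial_iff_ne_bot]
    exact hW.1
  have h1 := St_count (C := C) hQ (res ρ W hW.2.1) (AMP1.irr_res ρ W hW) (hnt W hW hle) hP (by
    refine le_trans ?_ hd
    refine Real.log_le_log (by exact_mod_cast Module.finrank_pos) ?_
    exact_mod_cast Submodule.finrank_le W) n c J σ i hJ
  refine le_trans (Nat.cast_le.mpr (card_mono _ _ fun x hx hcon => ?_)) h1
  apply hx
  intro v hv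
  have h2 := QQ_last hcon hcnt
  have h3 := (St_dom (res ρ W hW.2.1) s x n c J σ i).2 ⟨v, hv⟩
  have h4 := h2.2 ⟨v, hv⟩
  have h5 : ‖Wn (res ρ W hW.2.1) x n c J σ i ⟨v, hv⟩‖ = ‖Wn ρ x n c J σ i v‖ := by
    rw [Submodule.coe_norm, Wn_res]
  have h6 : ‖(⟨v, hv⟩ : W)‖ = ‖v‖ := rfl
  rw [h5] at h3
  rw [h6] at h4
  have h7 := h3.trans h4
  linarith

end

end Run7.h107
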